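import Pool.Agent.RLC.PairR

/-!
# RLC.StepM: the moments of one step

PROOF. `step_one`: `∫_{[1,v]} θ(⌊yc+β⌋₊) dy ≤ ∑_{q ≤ vc+Γ} θ(q)/c ≤ C` by Chebyshev's bound `∑_{q≤x} θ(q) ≤ C x`
(`Chebyshev.theta` / `psi` in Mathlib, `Chebyshev.psi_le_const_mul_self`; each `q` corresponds to an interval of `y` of length
`1/c`; `c ≥ exp(w-3)`).
`step_two`: cover `[1,v]` by the intervals `[λ, 3λ]`, `λ = 3^i`, `3^i ≤ v`; `∫_{[λ,3λ]} θθ' dy = λ ∫_{[1,3]} θ(⌊t λc+β⌋) θ(⌊t λc'+β⌋) dt`, and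
`th ≤ Λ`, `pairR` with `η/2`, `m = λc`, `m' = λc'`, `κ = e^6` as in `KKS` (there the same check: `m^(η/2) ≤ exp(ηw)`,
`λ |u c - v c'| ≥ exp(ηw) ≥ m^(η/2)` for large `w`, as `1 ≤ λ ≤ v`, `m ≤ v exp(w+3)`).
-/

namespace RLC

open MeasureTheory

theorem th_nonneg (n : ℕ) : 0 ≤ th n := by
  unfold th
  split_ifs
  · exact Real.log_natCast_nonneg n
  · exact le_rfl

theorem th_le_vonMangoldt (n : ℕ) : th n ≤ ArithmeticFunction.vonMangoldt n := by
  unfold th
  split_ifs with h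
  · rw [ArithmeticFunction.vonMangoldt_apply_prime h]
  · exact ArithmeticFunction.vonMangoldt_nonneg

theorem th_le_log (n : ℕ) : th n ≤ Real.log n := by
  unfold th
  split_ifs
  · exact le_rfl
  · exact Real.log_natCast_nonneg n

private theorem StepM_meas (m β : ℝ) (φ : ℕ → ℝ) : Measurable fun t : ℝ => φ ⌊t * m + β⌋₊ := by
  have h : Measurable fun t : ℝ => ⌊t * m + β⌋₊ :=
    Nat.measurable_floor.comp ((measurable_id.mul_const _).add_const _)
  exact (Measurable.of_discrete (f := φ)).comp h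

/-- the integral of `φ ⌊t m + β⌋₊` -/
private theorem StepM_int_le {φ : ℕ → ℝ} (h0 : φ 0 = 0) (hφ : ∀ n, 0 ≤ φ n) {v m β : ℝ}
    (hm : 0 < m) {K : ℕ} (hK : ∀ t ∈ Set.Icc (1 : ℝ) v, ⌊t * m + β⌋₊ ≤ K) :
    ∫ t in Set.Icc (1 : ℝ) v, φ ⌊t * m + β⌋₊ ≤ 1 / m * ∑ n ∈ Finset.Ioc 0 K, φ n := by
  classical
  set E : ℕ → Set ℝ := fun n => {t : ℝ | t ∈ Set.Icc (1 : ℝ) v ∧ ⌊t * m + β⌋₊ = n} with hE
  have hfl : Measurable fun t : ℝ => ⌊t * m + β⌋₊ :=
    Nat.measurable_floor.comp ((measurable_id.mul_const _).add_const _)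
  have hEm : ∀ n, MeasurableSet (E n) := fun n =>
    measurableSet_Icc.inter (hfl (MeasurableSet.of_discrete (s := {k | k = n})))
  have hfin : volume (Set.Icc (1 : ℝ) v) < ⊤ := by
    rw [Real.volume_Icc]; exact ENNReal.ofReal_lt_top
  have hEf : ∀ n, volume (E n) < ⊤ := fun n =>
    lt_of_le_of_lt (measure_mono fun t ht => ht.1) hfin
  have hint : ∀ n, Integrable ((E n).indicator (1 : ℝ → ℝ)) volume := fun n =>
    (integrable_indicator_iff (hEm n)).2 (integrableOn_const (hEf n).ne)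
  have hval : ∀ n, ∫ t, (E n).indicator (1 : ℝ → ℝ) t = (volume (E n)).toReal := by
    intro n
    rw [integral_indicator_one (hEm n)]
    rfl
  have heq : ∀ t, (Set.Icc (1 : ℝ) v).indicator (fun t => φ ⌊t * m + β⌋₊) t =
      ∑ n ∈ Finset.Ioc 0 K, φ n * (E n).indicator (1 : ℝ → ℝ) t := by
    intro t
    by_cases ht : t ∈ Set.Icc (1 : ℝ) v
    · rw [Set.indicator_of_mem ht]
      by_cases hn : ⌊t * m + β⌋₊ = 0
      · rw [hn, h0]
        refine (Finset.sum_eq_zero fun n hn' => ?_).symm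
        rw [Set.indicator_of_notMem, mul_zero]
        rintro ⟨-, h⟩
        have h' := (Finset.mem_Ioc.1 hn').1
        omega
      · rw [Finset.sum_eq_single ⌊t * m + β⌋₊]
        · rw [Set.indicator_of_mem (show t ∈ E _ from ⟨ht, rfl⟩)]
          simp
        · intro n _ hn'
          rw [Set.indicator_of_notMem, mul_zero]
          rintro ⟨-, h⟩
          exact hn' h.symm
        · intro h
          exact absurd (Finset.mem_Ioc.2 ⟨Nat.pos_of_ne_zero hn, hK t ht⟩) h
    · rw [Set.indicator_of_notMem ht]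
      refine (Finset.sum_eq_zero fun n _ => ?_).symm
      rw [Set.indicator_of_notMem (fun h : t ∈ E n => ht h.1), mul_zero]
  rw [← integral_indicator measurableSet_Icc,
    integral_congr_ae (Filter.Eventually.of_forall heq),
    integral_finsetSum _ fun n _ => (hint n).const_mul _, Finset.mul_sum]
  refine Finset.sum_le_sum fun n hn => ?_
  rw [integral_const_mul, hval, mul_comm (1 / m)]
  refine mul_le_mul_of_nonneg_left ?_ (hφ n)
  have hn0 : n ≠ 0 := (Finset.mem_Ioc.1 hn).1.ne'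
  have hsub : E n ⊆ Set.Icc ((n - β) / m) ((n + 1 - β) / m) := by
    rintro t ⟨-, ht⟩
    have h1 := (Nat.floor_eq_iff' hn0).1 ht
    constructor
    · rw [div_le_iff₀ hm]
      linarith [h1.1]
    · rw [le_div_iff₀ hm]
      linarith [h1.2]
  calc (volume (E n)).toReal ≤ (volume (Set.Icc ((n - β) / m) ((n + 1 - β) / m))).toReal := by
        refine ENNReal.toReal_mono ?_ (measure_mono hsub)
        rw [Real.volume_Icc]
        exact ENNReal.ofReal_ne_top
    _ = 1 / m := by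
      rw [Real.volume_Icc, ENNReal.toReal_ofReal]
      · field_simp
        ring
      · rw [← sub_div]
        apply div_nonneg _ hm.le
        linarith

private theorem StepM_sum {x : ℝ} (hx : 0 ≤ x) :
    ∑ n ∈ Finset.Ioc 0 ⌊x⌋₊, th n ≤ Real.log 4 * x := by
  refine le_trans (le_of_eq ?_) (Chebyshev.theta_le_log4_mul_x hx)
  rw [Chebyshev.theta, Finset.sum_filter]
  refine Finset.sum_congr rfl fun n _ => ?_
  unfold th
  rfl

/-- the scale of `c` -/
private theorem StepM_scale {w : ℝ} {c : ℕ} (hc : 0 < c) (h : |Real.log c - w| ≤ 3) :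
    Real.exp (w - 3) ≤ c ∧ (c : ℝ) ≤ Real.exp (w + 3) := by
  have h1 := abs_le.1 h
  have hc0 : (0 : ℝ) < c := by exact_mod_cast hc
  constructor
  · rw [← Real.le_log_iff_exp_le hc0]
    linarith [h1.1]
  · rw [← Real.log_le_iff_le_exp hc0]
    linarith [h1.2]

theorem step_one {v : ℝ} (hv : 1 ≤ v) (Γ : ℝ) : ∃ C w0 : ℝ, 1 ≤ C ∧ 1 ≤ w0 ∧ ∀ w β : ℝ, w0 ≤ w → |β| ≤ Γ →
    ∀ c : ℕ, 0 < c → |Real.log c - w| ≤ 3 → ∫ y in Set.Icc 1 v, th ⌊y * c + β⌋₊ ≤ C := by
  have hl4 : 0 < Real.log 4 := Real.log_pos (by norm_num)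
  refine ⟨1 + Real.log 4 * (v + |Γ|), 1, ?_, le_rfl, ?_⟩
  · have : 0 ≤ Real.log 4 * (v + |Γ|) := by positivity
    linarith
  intro w β _ hβ c hc _
  have hc1 : (1 : ℝ) ≤ c := by exact_mod_cast hc
  have hc0 : (0 : ℝ) < c := by linarith
  have hβ2 : β ≤ |Γ| := ((abs_le.1 hβ).2).trans (le_abs_self _)
  have hx0 : 0 ≤ v * c + |Γ| := by positivity
  have h1 := StepM_int_le (φ := th) (by simp [th]) th_nonneg (v := v) hc0 (β := β)
    (K := ⌊v * c + |Γ|⌋₊) (fun t ht => Nat.floor_le_floor (by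
      have := mul_le_mul_of_nonneg_right ht.2 hc0.le
      linarith))
  refine h1.trans ?_
  calc 1 / (c : ℝ) * ∑ n ∈ Finset.Ioc 0 ⌊v * c + |Γ|⌋₊, th n ≤
        1 / (c : ℝ) * (Real.log 4 * (v * c + |Γ|)) :=
        mul_le_mul_of_nonneg_left (StepM_sum hx0) (by positivity)
    _ = Real.log 4 * (v + |Γ| / c) := by
      field_simp
    _ ≤ Real.log 4 * (v + |Γ|) := by
      have : |Γ| / c ≤ |Γ| := div_le_self (abs_nonneg _) hc1
      gcongr
    _ ≤ 1 + Real.log 4 * (v + |Γ|) := by linarith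

/-- both factors are bounded on bounded intervals -/
private theorem StepM_intble (c c' β a b : ℝ) (hc : 0 ≤ c) (hc' : 0 ≤ c') :
    IntegrableOn (fun y : ℝ => th ⌊y * c + β⌋₊ * th ⌊y * c' + β⌋₊) (Set.Icc a b) := by
  have hfin : volume (Set.Icc a b) < ⊤ := by
    rw [Real.volume_Icc]; exact ENNReal.ofReal_lt_top
  have hb : ∀ (c : ℝ), 0 ≤ c → ∀ y ∈ Set.Icc a b, th ⌊y * c + β⌋₊ ≤ |b| * c + |β| := by
    intro c hc y hy
    refine (th_le_log _).trans ?_
    refine (Real.log_natCast_le_rpow_div _ zero_lt_one).trans ?_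
    rw [Real.rpow_one, div_one]
    have h1 : y * c ≤ |b| * c := mul_le_mul_of_nonneg_right (hy.2.trans (le_abs_self _)) hc
    have h2 := le_abs_self β
    rcases le_or_gt 0 (y * c + β) with h | h
    · exact (Nat.floor_le h).trans (by linarith)
    · rw [Nat.floor_of_nonpos h.le, Nat.cast_zero]
      positivity
  refine Measure.integrableOn_of_bounded (M := (|b| * c + |β|) * (|b| * c' + |β|)) hfin.ne
    ((StepM_meas c β th).mul (StepM_meas c' β th)).aestronglyMeasurable ?_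
  rw [ae_restrict_iff' measurableSet_Icc]
  refine Filter.Eventually.of_forall fun t ht => ?_
  rw [Real.norm_eq_abs, abs_of_nonneg (mul_nonneg (th_nonneg _) (th_nonneg _))]
  exact mul_le_mul (hb c hc t ht) (hb c' hc' t ht) (th_nonneg _) (by positivity)

/-- products of `Λ` are bounded on bounded intervals -/
private theorem StepM_intble' (c c' β a b : ℝ) (hc : 0 ≤ c) (hc' : 0 ≤ c') :
    IntegrableOn (fun y : ℝ => ArithmeticFunction.vonMangoldt ⌊y * c + β⌋₊ *
      ArithmeticFunction.vonMangoldt ⌊y * c' + β⌋₊) (Set.Icc a b) := by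
  have hfin : volume (Set.Icc a b) < ⊤ := by
    rw [Real.volume_Icc]; exact ENNReal.ofReal_lt_top
  have hb : ∀ (c : ℝ), 0 ≤ c → ∀ y ∈ Set.Icc a b,
      ArithmeticFunction.vonMangoldt ⌊y * c + β⌋₊ ≤ |b| * c + |β| := by
    intro c hc y hy
    refine ArithmeticFunction.vonMangoldt_le_log.trans ?_
    refine (Real.log_natCast_le_rpow_div _ zero_lt_one).trans ?_
    rw [Real.rpow_one, div_one]
    have h1 : y * c ≤ |b| * c := mul_le_mul_of_nonneg_right (hy.2.trans (le_abs_self _)) hc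
    have h2 := le_abs_self β
    rcases le_or_gt 0 (y * c + β) with h | h
    · exact (Nat.floor_le h).trans (by linarith)
    · rw [Nat.floor_of_nonpos h.le, Nat.cast_zero]
      positivity
  refine Measure.integrableOn_of_bounded (M := (|b| * c + |β|) * (|b| * c' + |β|)) hfin.ne
    ((StepM_meas c β _).mul (StepM_meas c' β _)).aestronglyMeasurable ?_
  rw [ae_restrict_iff' measurableSet_Icc]
  refine Filter.Eventually.of_forall fun t ht => ?_
  rw [Real.norm_eq_abs, abs_of_nonneg (mul_nonneg ArithmeticFunction.vonMangoldt_nonneg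
    ArithmeticFunction.vonMangoldt_nonneg)]
  exact mul_le_mul (hb c hc t ht) (hb c' hc' t ht) ArithmeticFunction.vonMangoldt_nonneg
    (by positivity)

theorem step_two {v η : ℝ} (hv : 1 ≤ v) (hη : 0 < η) (hη1 : η ≤ 1 / 20) (Γ : ℝ) :
    ∃ C w0 : ℝ, 1 ≤ C ∧ 1 ≤ w0 ∧ ∀ w β : ℝ, w0 ≤ w → |β| ≤ Γ →
    ∀ c c' : ℕ, 0 < c → 0 < c' → |Real.log c - w| ≤ 3 → |Real.log c' - w| ≤ 3 → Gen η w c c' →
    ∫ y in Set.Icc 1 v, th ⌊y * c + β⌋₊ * th ⌊y * c' + β⌋₊ ≤ C := by
  obtain ⟨C1, X1, hC1, hX1, hP⟩ := pairR (η := η / 2) (κ := Real.exp 6) (Γ := Γ) (by linarith)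
    (by linarith) (Real.one_le_exp (by norm_num))
  obtain ⟨N, hN⟩ := pow_unbounded_of_one_lt v (by norm_num : (1 : ℝ) < 3)
  set B : ℝ := (N : ℝ) * Real.log 3 + 3 with hB
  have hl3 : 0 < Real.log 3 := Real.log_pos (by norm_num)
  have hB0 : 0 ≤ B := by positivity
  have hX1l : 0 ≤ Real.log X1 := Real.log_nonneg hX1
  refine ⟨1 + N * (3 ^ N * C1), B + Real.log X1 + 4, ?_, by linarith, ?_⟩
  · have : 0 ≤ N * (3 ^ N * C1) := by positivity
    linarith
  intro w β hw hβ c c' hc hc' hcw hcw' hG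
  have hc1 : (1 : ℝ) ≤ c := by exact_mod_cast hc
  have hc0 : (0 : ℝ) < c := by linarith
  have hc1' : (1 : ℝ) ≤ c' := by exact_mod_cast hc'
  have hc0' : (0 : ℝ) < c' := by linarith
  obtain ⟨s1, s2⟩ := StepM_scale hc hcw
  obtain ⟨s1', s2'⟩ := StepM_scale hc' hcw'
  set F : ℝ → ℝ := fun y => th ⌊y * c + β⌋₊ * th ⌊y * c' + β⌋₊ with hF
  have hF0 : ∀ y, 0 ≤ F y := fun y => mul_nonneg (th_nonneg _) (th_nonneg _)
  have hFi : ∀ a b : ℝ, IntegrableOn F (Set.Icc a b) := fun a b =>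
    StepM_intble c c' β a b hc0.le hc0'.le
  have h3N : (1 : ℝ) ≤ 3 ^ N := one_le_pow₀ (by norm_num)
  -- one piece
  have hpiece : ∀ i < N, ∫ y in ((3 : ℝ) ^ i)..((3 : ℝ) ^ (i + 1)), F y ≤ 3 ^ N * C1 := by
    intro i hi
    set l : ℝ := (3 : ℝ) ^ i with hl
    have hl1 : 1 ≤ l := one_le_pow₀ (by norm_num)
    have hl0 : 0 < l := by linarith
    have hlN : l ≤ 3 ^ N := pow_le_pow_right₀ (by norm_num) hi.le
    have e1 : ∫ y in l..((3 : ℝ) ^ (i + 1)), F y = l * ∫ t in (1 : ℝ)..3, F (l * t) := by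
      have h := intervalIntegral.smul_integral_comp_mul_left (a := 1) (b := 3) F l
      rw [smul_eq_mul, mul_one] at h
      rw [h, pow_succ]
    have e2 : ∫ t in (1 : ℝ)..3, F (l * t) = ∫ t in Set.Icc (1 : ℝ) 3,
        th ⌊t * (l * c) + β⌋₊ * th ⌊t * (l * c') + β⌋₊ := by
      rw [intervalIntegral.integral_of_le (by norm_num), ← integral_Icc_eq_integral_Ioc]
      refine setIntegral_congr_fun measurableSet_Icc fun t _ => ?_
      simp only [hF]
      rw [show l * t * (c : ℝ) = t * (l * c) by ring, show l * t * (c' : ℝ) = t * (l * c') by ring]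
    have hlc0 : 0 < l * c := by positivity
    have hlc0' : 0 < l * c' := by positivity
    have e3 : ∫ t in Set.Icc (1 : ℝ) 3, th ⌊t * (l * c) + β⌋₊ * th ⌊t * (l * c') + β⌋₊ ≤ C1 := by
      refine le_trans (setIntegral_mono_on (StepM_intble _ _ _ _ _ hlc0.le hlc0'.le)
        (StepM_intble' _ _ _ _ _ hlc0.le hlc0'.le) measurableSet_Icc fun t _ =>
        mul_le_mul (th_le_vonMangoldt _) (th_le_vonMangoldt _) (th_nonneg _)
          ArithmeticFunction.vonMangoldt_nonneg) ?_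
      have hlogm : Real.log (l * c) ≤ 2 * w := by
        rw [Real.log_mul hl0.ne' hc0.ne']
        have h1 : Real.log l ≤ N * Real.log 3 := by
          calc Real.log l ≤ Real.log ((3 : ℝ) ^ N) := Real.log_le_log hl0 hlN
            _ = N * Real.log 3 := by rw [Real.log_pow]
        have h2 := (abs_le.1 hcw).2
        linarith
      have hmη : (l * c) ^ (η / 2) ≤ Real.exp (η * w) := by
        rw [Real.rpow_def_of_pos hlc0]
        apply Real.exp_le_exp.2
        nlinarith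
      refine hP (l * c) (l * c') β ?_ ?_ ?_ hβ ?_
      · calc X1 = Real.exp (Real.log X1) := (Real.exp_log (by linarith)).symm
          _ ≤ Real.exp (w - 3) := Real.exp_le_exp.2 (by linarith)
          _ ≤ c := s1
          _ ≤ l * c := by nlinarith
      · rw [div_le_iff₀ (Real.exp_pos _)]
        have h1 : (c : ℝ) ≤ c' * Real.exp 6 := by
          calc (c : ℝ) ≤ Real.exp (w + 3) := s2
            _ = Real.exp (w - 3) * Real.exp 6 := by
              rw [← Real.exp_add]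
              congr 1
              ring
            _ ≤ c' * Real.exp 6 := by gcongr
        nlinarith
      · have h1 : (c' : ℝ) ≤ Real.exp 6 * c := by
          calc (c' : ℝ) ≤ Real.exp (w + 3) := s2'
            _ = Real.exp 6 * Real.exp (w - 3) := by
              rw [← Real.exp_add]
              congr 1
              ring
            _ ≤ Real.exp 6 * c := by gcongr
        nlinarith
      · intro u u' hu hu' hum hum'
        have h1 := hG u u' hu hu' (hum.trans hmη) (hum'.trans hmη)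
        have h2 : (u : ℝ) * (l * c) - (u' : ℝ) * (l * c') = l * ((u : ℝ) * c - (u' : ℝ) * c') := by
          ring
        rw [h2, abs_mul, abs_of_pos hl0]
        calc (l * c) ^ (η / 2) ≤ Real.exp (η * w) := hmη
          _ ≤ |(u : ℝ) * c - (u' : ℝ) * c'| := h1
          _ ≤ l * |(u : ℝ) * c - (u' : ℝ) * c'| :=
            le_mul_of_one_le_left (abs_nonneg _) hl1
    rw [e1, e2]
    calc l * ∫ t in Set.Icc (1 : ℝ) 3, th ⌊t * (l * c) + β⌋₊ * th ⌊t * (l * c') + β⌋₊ ≤
          l * C1 := mul_le_mul_of_nonneg_left e3 hl0.le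
      _ ≤ 3 ^ N * C1 := by gcongr
  have hii : ∀ a b : ℝ, IntervalIntegrable F volume a b := by
    intro a b
    rw [intervalIntegrable_iff']
    exact hFi _ _
  have hsum := intervalIntegral.sum_integral_adjacent_intervals (f := F) (μ := volume)
    (a := fun i => (3 : ℝ) ^ i) (n := N) (fun k _ => hii _ _)
  calc ∫ y in Set.Icc 1 v, F y ≤ ∫ y in Set.Icc 1 ((3 : ℝ) ^ N), F y :=
        setIntegral_mono_set (hFi _ _) (Filter.Eventually.of_forall hF0)
          (Filter.Eventually.of_forall (Set.Icc_subset_Icc_right hN.le))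
    _ = ∫ y in (1 : ℝ)..((3 : ℝ) ^ N), F y := by
      rw [intervalIntegral.integral_of_le h3N, ← integral_Icc_eq_integral_Ioc]
    _ = ∑ i ∈ Finset.range N, ∫ y in ((3 : ℝ) ^ i)..((3 : ℝ) ^ (i + 1)), F y := by
      rw [hsum, pow_zero]
    _ ≤ ∑ i ∈ Finset.range N, 3 ^ N * C1 :=
      Finset.sum_le_sum fun i hi => hpiece i (Finset.mem_range.1 hi)
    _ = N * (3 ^ N * C1) := by
      rw [Finset.sum_const, Finset.card_range, nsmul_eq_mul]
    _ ≤ 1 + N * (3 ^ N * C1) := by linarith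

end RLC
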