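import Pool.Agent.RLC.PFun
import Pool.Agent.RLC.StepM
import Pool.Agent.Lib.PNT

/-!
# RLC.WinC: the number of chains in a window

PROOF. `Y = win M m`, `Y' = win M (m+1)`, `I = Ioc Y Y' ⊆ Ioc Y (2Y)` for large `m`. `k ≥ 1`, `j = k - 1`; `geo` applies to all `i ≤ j` (`(i : ℝ) ≤ log Y/log log Y`).
If the first `k` members of the chain of `n ∈ I` are primes, then `wt β n j a = ∏_{i<k} log c_i`, otherwise it is `0`. For `i < k`:
`log c_i` is between `log(A_i Y) - (log Y)²/(2Y)` and `log(A_i Y) + log 2 + (log Y)²/(2Y)` (`geo`), so between `(1 - 1/log Y) log(A_i Y)` and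
`(1 + 1/log Y) log(A_i Y)` (for large `Y`; `log(A_i Y) ≥ log Y`). The product over `i < k ≤ log Y/log log Y` is between
`(1 ∓ 1/log Y)^k PP a k Y`, and `(1 ± 1/log Y)^k = 1 + O(1/log log Y)` uniformly in `k`. So
`cnt a β k I · PP a k Y (1 - o(1)) ≤ ∑_{n∈I} wt β n j a ≤ cnt a β k I · PP a k Y (1 + o(1))`.
By `Good.var`: `|∑ wt_j - ∑ wt_0| ≤ Y/log Y`, and `∑_{n∈I} wt β n 0 a = ∑_{n∈I} θ(n) = (1+o(1)) (Y' - Y)`: by the prime number theorem
`∑_{n≤x} θ(n) = x + o(x)` (`Pool/Agent/Lib/PNT.lean`, `theta`: `Chebyshev.theta x/x → 1`) and `Y' - Y ≥ Y/(2M)` for large `m`.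
-/

namespace RLC

open Filter

private theorem WinC_le (M m : ℕ) : (win M m : ℝ) ≤ (1 + 1 / (M : ℝ)) ^ m :=
  Nat.floor_le (by positivity)

private theorem WinC_lt (M m : ℕ) : (1 + 1 / (M : ℝ)) ^ m < (win M m : ℝ) + 1 :=
  Nat.lt_floor_add_one _

private theorem WinC_tend {M : ℕ} (hM : 1 ≤ M) : Tendsto (fun m => win M m) atTop atTop := by
  have h0 : (0 : ℝ) < M := by exact_mod_cast hM
  have h1 : (1 : ℝ) < 1 + 1 / (M : ℝ) := by
    have : 0 < 1 / (M : ℝ) := by positivity
    linarith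
  exact tendsto_nat_floor_atTop.comp (tendsto_pow_atTop_atTop_of_one_lt h1)

/-- elementary facts about the windows -/
theorem win_facts {M : ℕ} (hM : 1 ≤ M) : Tendsto (fun m => win M m) atTop atTop ∧ Monotone (win M) ∧
    (∀ᶠ m : ℕ in atTop, win M (m + 1) ≤ 2 * win M m) ∧
    (∀ᶠ m : ℕ in atTop, (win M m : ℝ) / (2 * M) ≤ (win M (m + 1) : ℝ) - win M m) ∧
    (∀ᶠ m : ℕ in atTop, (win M (m + 1) : ℝ) ≤ (1 + 2 / (M : ℝ)) * win M m) := by
  have h0 : (0 : ℝ) < M := by exact_mod_cast hM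
  have hM1 : (1 : ℝ) ≤ M := by exact_mod_cast hM
  have hq0 : 0 < 1 / (M : ℝ) := by positivity
  have hT := WinC_tend hM
  refine ⟨hT, ?_, ?_, ?_, ?_⟩
  · intro m m' hmm
    unfold win
    exact Nat.floor_mono (pow_le_pow_right₀ (by linarith) hmm)
  · rcases Nat.lt_or_ge 1 M with h2 | h2
    · filter_upwards [hT.eventually_ge_atTop 3] with m hm
      have hm' : (3 : ℝ) ≤ win M m := by exact_mod_cast hm
      have h3 := WinC_le M (m + 1)
      have h4 := WinC_lt M m
      have h5 : 1 / (M : ℝ) ≤ 1 / 2 := by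
        apply one_div_le_one_div_of_le (by norm_num)
        exact_mod_cast h2
      have h6 : (win M (m + 1) : ℝ) ≤ 2 * win M m := by
        rw [pow_succ] at h3
        have h7 : (1 + 1 / (M : ℝ)) ^ m * (1 + 1 / (M : ℝ)) ≤ ((win M m : ℝ) + 1) * (3 / 2) := by
          apply mul_le_mul h4.le (by linarith) (by linarith) (by linarith)
        linarith
      exact_mod_cast h6
    · have h3 : M = 1 := le_antisymm h2 hM
      subst h3
      refine Eventually.of_forall fun m => ?_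
      have h4 : ∀ l : ℕ, win 1 l = 2 ^ l := by
        intro l
        unfold win
        have h5 : (1 + 1 / ((1 : ℕ) : ℝ)) ^ l = ((2 ^ l : ℕ) : ℝ) := by
          push_cast
          norm_num
        rw [h5, Nat.floor_natCast]
      rw [h4, h4, pow_succ]
      omega
  · filter_upwards [hT.eventually_ge_atTop (2 * M)] with m hm
    have hm' : 2 * (M : ℝ) ≤ win M m := by exact_mod_cast hm
    have h3 := WinC_lt M (m + 1)
    have h4 := WinC_le M m
    rw [pow_succ] at h3
    set x : ℝ := (1 + 1 / (M : ℝ)) ^ m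
    have h5 : (win M m : ℝ) * (1 / M) ≤ x * (1 / M) := mul_le_mul_of_nonneg_right h4 hq0.le
    have h6 : (win M m : ℝ) / (2 * M) = win M m * (1 / M) / 2 := by
      field_simp
    have h7 : 2 ≤ (win M m : ℝ) * (1 / M) := by
      rw [mul_one_div, le_div_iff₀ h0]
      exact hm'
    rw [h6]
    nlinarith
  · filter_upwards [hT.eventually_ge_atTop (2 * M)] with m hm
    have hm' : 2 * (M : ℝ) ≤ win M m := by exact_mod_cast hm
    have h3 := WinC_le M (m + 1)
    have h4 := WinC_lt M m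
    rw [pow_succ] at h3
    have h7 : (1 + 1 / (M : ℝ)) ^ m * (1 + 1 / (M : ℝ)) ≤ ((win M m : ℝ) + 1) * (1 + 1 / (M : ℝ)) :=
      mul_le_mul_of_nonneg_right h4.le (by linarith)
    have h8 : 2 ≤ (win M m : ℝ) * (1 / M) := by
      rw [mul_one_div, le_div_iff₀ h0]
      exact hm'
    have h9 : 1 / (M : ℝ) ≤ 1 := by
      rw [div_le_one h0]
      exact hM1
    have h10 : (1 + 2 / (M : ℝ)) * win M m = win M m + 2 * (win M m * (1 / M)) := by
      ring
    rw [h10]
    nlinarith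

/-- the sum of `θ` over a window -/
private theorem WinC_th {Y Y' : ℕ} (h : Y ≤ Y') :
    ∑ n ∈ Finset.Ioc Y Y', th n = Chebyshev.theta Y' - Chebyshev.theta Y := by
  have h1 : ∀ N : ℕ, Chebyshev.theta N = ∑ n ∈ Finset.Ioc 0 N, th n := by
    intro N
    unfold Chebyshev.theta th
    rw [Nat.floor_natCast, Finset.sum_filter]
  rw [h1, h1]
  have h2 : Finset.Ioc 0 Y' = Finset.Ioc 0 Y ∪ Finset.Ioc Y Y' := by
    ext n
    simp only [Finset.mem_Ioc, Finset.mem_union]
    omega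
  have h3 : Disjoint (Finset.Ioc 0 Y) (Finset.Ioc Y Y') := by
    rw [Finset.disjoint_left]
    intro n hn hn'
    simp only [Finset.mem_Ioc] at hn hn'
    omega
  rw [h2, Finset.sum_union h3]
  ring

/-- the first sum -/
private theorem WinC_zero {M : ℕ} (hM : 1 ≤ M) (a β : ℕ → ℝ) {δ : ℝ} (hδ : 0 < δ) : ∀ᶠ m : ℕ in atTop,
    |∑ n ∈ Finset.Ioc (win M m) (win M (m + 1)), wt β n 0 a - ((win M (m + 1) : ℝ) - win M m)| ≤
      δ * ((win M (m + 1) : ℝ) - win M m) := by
  have h0 : (0 : ℝ) < M := by exact_mod_cast hM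
  obtain ⟨hT, hmono, h2, h3, -⟩ := win_facts hM
  set d : ℝ := δ / (6 * M) with hd
  have hd0 : 0 < d := by positivity
  have hθ : Tendsto (fun m : ℕ => Chebyshev.theta (win M m : ℝ) / (win M m : ℝ)) atTop (nhds 1) :=
    Pool.Agent.Lib.PNT.theta.comp (tendsto_natCast_atTop_atTop.comp hT)
  have hθ1 : ∀ᶠ m : ℕ in atTop, |Chebyshev.theta (win M m : ℝ) - win M m| ≤ d * win M m := by
    have h4 := (Metric.tendsto_nhds.1 hθ) d hd0
    filter_upwards [h4, hT.eventually_ge_atTop 1] with m hm hm1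
    have hp : (0 : ℝ) < win M m := by exact_mod_cast hm1
    rw [Real.dist_eq] at hm
    have h5 : Chebyshev.theta (win M m : ℝ) - win M m =
        (Chebyshev.theta (win M m : ℝ) / (win M m : ℝ) - 1) * win M m := by
      field_simp
    rw [h5, abs_mul, abs_of_pos hp]
    exact mul_le_mul_of_nonneg_right hm.le hp.le
  have hθ2 := (tendsto_add_atTop_nat 1).eventually hθ1
  filter_upwards [hθ1, hθ2, h2, h3] with m a1 a2 a3 a4
  have hsum : ∑ n ∈ Finset.Ioc (win M m) (win M (m + 1)), wt β n 0 a =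
      Chebyshev.theta (win M (m + 1) : ℝ) - Chebyshev.theta (win M m : ℝ) := by
    rw [← WinC_th (hmono (Nat.le_succ m))]
    refine Finset.sum_congr rfl fun n _ => ?_
    unfold wt
    rw [zero_add, Finset.prod_range_one]
    rfl
  rw [hsum]
  have a3' : (win M (m + 1) : ℝ) ≤ 2 * win M m := by exact_mod_cast a3
  have h7 : |Chebyshev.theta (win M (m + 1) : ℝ) - Chebyshev.theta (win M m : ℝ) -
      ((win M (m + 1) : ℝ) - win M m)| ≤ d * win M (m + 1) + d * win M m := by
    have h8 : Chebyshev.theta (win M (m + 1) : ℝ) - Chebyshev.theta (win M m : ℝ) -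
      ((win M (m + 1) : ℝ) - win M m) = (Chebyshev.theta (win M (m + 1) : ℝ) - win M (m + 1)) -
        (Chebyshev.theta (win M m : ℝ) - win M m) := by ring
    rw [h8]
    exact (abs_sub _ _).trans (add_le_add a2 a1)
  refine h7.trans ?_
  have h9 : d * win M (m + 1) ≤ d * (2 * win M m) := mul_le_mul_of_nonneg_left a3' hd0.le
  have h10 : δ * ((win M m : ℝ) / (2 * M)) ≤ δ * ((win M (m + 1) : ℝ) - win M m) :=
    mul_le_mul_of_nonneg_left a4 hδ.le
  have h11 : δ * ((win M m : ℝ) / (2 * M)) = 3 * (d * win M m) := by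
    rw [hd]
    field_simp
    ring
  linarith

/-- the estimates for large `Y` -/
private theorem WinC_ev {M : ℕ} (hM : 1 ≤ M) {δ : ℝ} (hδ : 0 < δ) : ∀ᶠ Y : ℕ in atTop, 1 < (Y : ℝ) ∧ 1 ≤ Real.log Y ∧
    0 < Real.log (Real.log Y) ∧ 1 / Real.log (Real.log Y) ≤ δ ∧
    Real.exp (1 / Real.log (Real.log Y)) ≤ 1 + δ ∧ Real.log Y ^ 2 / (2 * Y) ≤ 1 / 4 ∧
    (Y : ℝ) / Real.log Y ≤ δ * ((Y : ℝ) / (2 * M)) := by
  have hN : Tendsto (fun Y : ℕ => (Y : ℝ)) atTop atTop := tendsto_natCast_atTop_atTop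
  have hL : Tendsto (fun Y : ℕ => Real.log (Y : ℝ)) atTop atTop := Real.tendsto_log_atTop.comp hN
  have hLL : Tendsto (fun Y : ℕ => Real.log (Real.log (Y : ℝ))) atTop atTop :=
    Real.tendsto_log_atTop.comp hL
  have hinv : Tendsto (fun Y : ℕ => 1 / Real.log (Real.log (Y : ℝ))) atTop (nhds 0) :=
    tendsto_const_nhds.div_atTop hLL
  have hexp : Tendsto (fun Y : ℕ => Real.exp (1 / Real.log (Real.log (Y : ℝ)))) atTop (nhds 1) := by
    have h := (Real.continuous_exp.tendsto 0).comp hinv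
    rw [Real.exp_zero] at h
    exact h
  have hsq : Tendsto (fun Y : ℕ => Real.log (Y : ℝ) ^ 2 / (2 * (Y : ℝ))) atTop (nhds 0) := by
    have h1 : Tendsto (fun x : ℝ => Real.log x ^ 2 / (2 * x + 0)) atTop (nhds 0) :=
      Real.tendsto_pow_log_div_mul_add_atTop 2 0 2 (by norm_num)
    have h2 := h1.comp hN
    refine h2.congr fun Y => ?_
    simp
  filter_upwards [hN.eventually_gt_atTop 1, hL.eventually_ge_atTop 1, hLL.eventually_gt_atTop 0,
    hinv.eventually_le_const hδ, hexp.eventually_le_const (by linarith : (1 : ℝ) < 1 + δ),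
    hsq.eventually_le_const (by norm_num : (0 : ℝ) < 1 / 4), hL.eventually_ge_atTop (2 * M / δ)]
    with Y d1 d2 d3 d4 d5 d6 d7
  refine ⟨d1, d2, d3, d4, d5, d6, ?_⟩
  have hLp : 0 < Real.log (Y : ℝ) := by linarith
  have hMp : (0 : ℝ) < M := by exact_mod_cast hM
  have e1 : δ * ((Y : ℝ) / (2 * M)) = (Y : ℝ) / (2 * M / δ) := by
    field_simp
  rw [e1]
  exact div_le_div_of_nonneg_left (by linarith) (by positivity) d7

/-- the bounds for the weights -/
private theorem WinC_wt {A : ℕ → ℝ} {k : ℕ} {L t : ℝ} {c : ℕ → ℝ} (hL : 1 ≤ L) (ht : t ≤ 1 / 4)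
    (hA : ∀ i < k, L ≤ A i) (h1 : ∀ i < k, A i - t ≤ c i) (h2 : ∀ i < k, c i ≤ A i + Real.log 2 + t) :
    (1 - 1 / L) ^ k * ∏ i ∈ Finset.range k, A i ≤ ∏ i ∈ Finset.range k, c i ∧
      ∏ i ∈ Finset.range k, c i ≤ (1 + 1 / L) ^ k * ∏ i ∈ Finset.range k, A i := by
  have hL0 : 0 < L := by linarith
  have hl2 : Real.log 2 < 0.6931471808 := Real.log_two_lt_d9
  have e1 : (1 - 1 / L) ^ k * ∏ i ∈ Finset.range k, A i = ∏ i ∈ Finset.range k, ((1 - 1 / L) * A i) := by
    rw [Finset.prod_mul_distrib, Finset.prod_const, Finset.card_range]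
  have e2 : (1 + 1 / L) ^ k * ∏ i ∈ Finset.range k, A i = ∏ i ∈ Finset.range k, ((1 + 1 / L) * A i) := by
    rw [Finset.prod_mul_distrib, Finset.prod_const, Finset.card_range]
  have h3 : ∀ i < k, 1 ≤ 1 / L * A i := by
    intro i hi
    rw [one_div, inv_mul_eq_div, le_div_iff₀ hL0]
    linarith [hA i hi]
  have h4 : 1 / L ≤ 1 := by
    rw [div_le_one hL0]
    exact hL
  rw [e1, e2]
  constructor
  · apply Finset.prod_le_prod
    · intro i hi
      have := hA i (Finset.mem_range.1 hi)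
      exact mul_nonneg (by linarith) (by linarith)
    · intro i hi
      have hi' := Finset.mem_range.1 hi
      have := h1 i hi'
      have := h3 i hi'
      linarith
  · apply Finset.prod_le_prod
    · intro i hi
      have hi' := Finset.mem_range.1 hi
      have := h1 i hi'
      have := hA i hi'
      linarith
    · intro i hi
      have hi' := Finset.mem_range.1 hi
      have := h2 i hi'
      have := h3 i hi'
      linarith

theorem win_cnt {v Γ ε : ℝ} {a β : ℕ → ℝ} (hv : 1 ≤ v) (hΓ : 0 ≤ Γ) (h : Good v Γ a β) (hε : 0 < ε) (hε1 : ε < 1)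
    {M : ℕ} (hM : 1 ≤ M) {e : ℝ} (he : 0 < e) : ∀ᶠ m : ℕ in atTop, ∀ k : ℕ, 1 ≤ k →
    (k : ℝ) ≤ (1 - ε) * (Real.log (win M m) / Real.log (Real.log (win M m))) →
    |(cnt a β k (Finset.Ioc (win M m) (win M (m + 1))) : ℝ) * PP a k (win M m) -
      ((win M (m + 1) : ℝ) - win M m)| ≤ e * ((win M (m + 1) : ℝ) - win M m) := by
  classical
  have h0 : (0 : ℝ) < M := by exact_mod_cast hM
  set δ : ℝ := min (1 / 2) (e / 4) with hδ
  have hδ0 : 0 < δ := by positivity
  have hδ1 : δ ≤ 1 / 2 := min_le_left _ _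
  have hδ2 : δ ≤ e / 4 := min_le_right _ _
  obtain ⟨hT, hmono, h2, h3, -⟩ := win_facts hM
  obtain ⟨Y0, hY3, hY0⟩ := geo (η := 1 / 20) (δ := 1) hv hΓ (by norm_num) le_rfl one_pos
  filter_upwards [h.var ε hε hε1 M hM, WinC_zero hM a β (half_pos hδ0), h2, h3,
    hT.eventually (WinC_ev hM (half_pos hδ0)), hT.eventually_ge_atTop Y0] with m b1 b2 b3 b4 b5 b6
  intro k hk1 hk
  set Y : ℕ := win M m with hY
  set Y' : ℕ := win M (m + 1) with hY'
  obtain ⟨c1, c2, c3, c4, c5, c6, c7⟩ := b5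
  set L : ℝ := Real.log Y with hL
  set LL : ℝ := Real.log L with hLL
  have hL0 : 0 < L := by linarith
  have hYp : (0 : ℝ) < Y := by linarith
  have hD : 0 < (Y' : ℝ) - Y := lt_of_lt_of_le (by positivity) b4
  set D : ℝ := (Y' : ℝ) - Y with hDdef
  obtain ⟨j, rfl⟩ : ∃ j, k = j + 1 := ⟨k - 1, by omega⟩
  have hkL : ((j + 1 : ℕ) : ℝ) ≤ L / LL := by
    refine hk.trans ?_
    have : 0 ≤ L / LL := by positivity
    nlinarith
  -- the weights
  have hw : ∀ n ∈ Finset.Ioc Y Y', (∀ i < j + 1, (MCC.chain a β n i).Prime) →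
      (1 - δ / 2) * PP a (j + 1) Y ≤ wt β n j a ∧ wt β n j a ≤ (1 + δ / 2) * PP a (j + 1) Y := by
    intro n hn hp
    have hn' : n ∈ Finset.Ioc Y (2 * Y) := by
      rw [Finset.mem_Ioc] at hn ⊢
      exact ⟨hn.1, hn.2.trans b3⟩
    have hnY : (Y : ℝ) < n := by exact_mod_cast (Finset.mem_Ioc.1 hn').1
    have hn2Y : (n : ℝ) ≤ 2 * Y := by exact_mod_cast (Finset.mem_Ioc.1 hn').2
    have hlog1 : L ≤ Real.log n := Real.log_le_log hYp hnY.le
    have hlog2 : Real.log n ≤ Real.log 2 + L := by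
      rw [hL, ← Real.log_mul (by norm_num) hYp.ne']
      exact Real.log_le_log (by linarith) hn2Y
    have hwt : wt β n j a = ∏ i ∈ Finset.range (j + 1), Real.log (MCC.chain a β n i) := by
      unfold wt th
      refine Finset.prod_congr rfl fun i hi => ?_
      rw [if_pos (hp i (Finset.mem_range.1 hi))]
    have hPP0 : 0 < PP a (j + 1) Y := PP_pos h.mem c1
    have hA : ∀ i, Real.log (pa a i * Y) = Real.log (pa a i) + L := fun i =>
      Real.log_mul (by have := pa_one_le h.mem i; linarith) hYp.ne'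
    have key := WinC_wt (A := fun i => Real.log (pa a i * Y)) (k := j + 1) (L := L) (t := L ^ 2 / (2 * Y))
      (c := fun i => Real.log (MCC.chain a β n i)) c2 c6 (by
        intro i _
        show L ≤ Real.log (pa a i * Y)
        rw [hA]
        have := Real.log_nonneg (pa_one_le h.mem i)
        linarith) (by
        intro i hi
        show Real.log (pa a i * Y) - _ ≤ Real.log (MCC.chain a β n i)
        have hi2 : (i : ℝ) ≤ 2 * (Real.log Y / Real.log (Real.log Y)) := by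
          have h5 : (i : ℝ) ≤ ((j + 1 : ℕ) : ℝ) := by exact_mod_cast hi.le
          have : 0 ≤ L / LL := by positivity
          show (i : ℝ) ≤ 2 * (L / LL)
          linarith
        have h6 := ((hY0 Y b6 a β h.mem h.bd i hi2).2.2.2.1 n hn').2.2.2
        rw [abs_le] at h6
        rw [hA]
        linarith [h6.1]) (by
        intro i hi
        show Real.log (MCC.chain a β n i) ≤ Real.log (pa a i * Y) + Real.log 2 + _
        have hi2 : (i : ℝ) ≤ 2 * (Real.log Y / Real.log (Real.log Y)) := by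
          have h5 : (i : ℝ) ≤ ((j + 1 : ℕ) : ℝ) := by exact_mod_cast hi.le
          have : 0 ≤ L / LL := by positivity
          show (i : ℝ) ≤ 2 * (L / LL)
          linarith
        have h6 := ((hY0 Y b6 a β h.mem h.bd i hi2).2.2.2.1 n hn').2.2.2
        rw [abs_le] at h6
        rw [hA]
        linarith [h6.2])
    obtain ⟨k1, k2⟩ := key
    have hb1 : 1 - δ / 2 ≤ (1 - 1 / L) ^ (j + 1) := by
      have h7 := one_add_mul_le_pow (a := -(1 / L)) (by
        have : 1 / L ≤ 1 := by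
          rw [div_le_one hL0]
          exact c2
        linarith) (j + 1)
      have h8 : ((j + 1 : ℕ) : ℝ) * (1 / L) ≤ 1 / LL := by
        calc ((j + 1 : ℕ) : ℝ) * (1 / L) ≤ L / LL * (1 / L) :=
              mul_le_mul_of_nonneg_right hkL (by positivity)
          _ = 1 / LL := by field_simp
      have h9 : (1 - 1 / L) = 1 + -(1 / L) := by ring
      rw [h9]
      refine le_trans ?_ h7
      linarith
    have hb2 : (1 + 1 / L) ^ (j + 1) ≤ 1 + δ / 2 := by
      have h7 : 1 + 1 / L ≤ Real.exp (1 / L) := by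
        have := Real.add_one_le_exp (1 / L)
        linarith
      have h8 : ((j + 1 : ℕ) : ℝ) * (1 / L) ≤ 1 / LL := by
        calc ((j + 1 : ℕ) : ℝ) * (1 / L) ≤ L / LL * (1 / L) :=
              mul_le_mul_of_nonneg_right hkL (by positivity)
          _ = 1 / LL := by field_simp
      calc (1 + 1 / L) ^ (j + 1) ≤ Real.exp (1 / L) ^ (j + 1) :=
            pow_le_pow_left₀ (by positivity) h7 _
        _ = Real.exp (((j + 1 : ℕ) : ℝ) * (1 / L)) := by
            rw [← Real.exp_nat_mul]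
        _ ≤ Real.exp (1 / LL) := Real.exp_le_exp.2 h8
        _ ≤ 1 + δ / 2 := c5
    rw [hwt]
    constructor
    · refine le_trans ?_ k1
      exact mul_le_mul_of_nonneg_right hb1 hPP0.le
    · refine le_trans k2 ?_
      exact mul_le_mul_of_nonneg_right hb2 hPP0.le
  -- the sum
  set P : ℝ := PP a (j + 1) Y with hP
  have hP0 : 0 < P := PP_pos h.mem c1
  set S : Finset ℕ := (Finset.Ioc Y Y').filter fun n => ∀ i < j + 1, (MCC.chain a β n i).Prime with hS
  have hcnt : (cnt a β (j + 1) (Finset.Ioc Y Y') : ℝ) = (S.card : ℝ) := by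
    unfold cnt
    rw [hS]
  have hsum : ∑ n ∈ Finset.Ioc Y Y', wt β n j a = ∑ n ∈ S, wt β n j a := by
    rw [hS, Finset.sum_filter]
    refine Finset.sum_congr rfl fun n _ => ?_
    split_ifs with hp
    · rfl
    · push Not at hp
      obtain ⟨i, hi, hi'⟩ := hp
      unfold wt
      apply Finset.prod_eq_zero (Finset.mem_range.2 hi)
      unfold th
      rw [if_neg hi']
  have hmem : ∀ n ∈ S, n ∈ Finset.Ioc Y Y' ∧ ∀ i < j + 1, (MCC.chain a β n i).Prime := fun n hn => by
    rw [hS, Finset.mem_filter] at hn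
    exact hn
  have hlow : (S.card : ℝ) * ((1 - δ / 2) * P) ≤ ∑ n ∈ S, wt β n j a := by
    rw [← nsmul_eq_mul]
    exact Finset.card_nsmul_le_sum _ _ _ fun n hn => (hw n (hmem n hn).1 (hmem n hn).2).1
  have hupp : ∑ n ∈ S, wt β n j a ≤ (S.card : ℝ) * ((1 + δ / 2) * P) := by
    rw [← nsmul_eq_mul]
    exact Finset.sum_le_card_nsmul _ _ _ fun n hn => (hw n (hmem n hn).1 (hmem n hn).2).2
  have hvar := b1 j (by
    have : ((j + 1 : ℕ) : ℝ) = (j : ℝ) + 1 := by push_cast; ring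
    rw [← this]
    exact hk)
  rw [Finset.sum_sub_distrib, hsum] at hvar
  rw [hcnt]
  set W : ℝ := ∑ n ∈ S, wt β n j a with hW
  set W0 : ℝ := ∑ n ∈ Finset.Ioc Y Y', wt β n 0 a with hW0
  set X : ℝ := (S.card : ℝ) * P with hX
  have hX0 : 0 ≤ X := by positivity
  have c7' : (Y : ℝ) / L ≤ δ / 2 * D :=
    c7.trans (mul_le_mul_of_nonneg_left b4 (by positivity))
  have hlow' : (1 - δ / 2) * X ≤ W := by
    have : (1 - δ / 2) * X = (S.card : ℝ) * ((1 - δ / 2) * P) := by rw [hX]; ring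
    rw [this]
    exact hlow
  have hupp' : W ≤ (1 + δ / 2) * X := by
    have : (1 + δ / 2) * X = (S.card : ℝ) * ((1 + δ / 2) * P) := by rw [hX]; ring
    rw [this]
    exact hupp
  rw [abs_le] at hvar b2
  have hWD1 : W ≤ (1 + δ) * D := by
    have := hvar.2
    have := b2.2
    linarith
  have hWD2 : (1 - δ) * D ≤ W := by
    have := hvar.1
    have := b2.1
    linarith
  rw [abs_le]
  constructor
  · -- X ≥ (1 - e) D
    have h5 : (1 - δ) * D ≤ (1 + δ / 2) * X := hWD2.trans hupp'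
    by_contra hcon
    push Not at hcon
    have h6 : X < (1 - e) * D := by linarith
    have h7 : X < (1 - 4 * δ) * D := by
      have : (1 - e) * D ≤ (1 - 4 * δ) * D := mul_le_mul_of_nonneg_right (by linarith) hD.le
      linarith
    have h8 : (1 + δ / 2) * X < (1 + δ / 2) * ((1 - 4 * δ) * D) :=
      mul_lt_mul_of_pos_left h7 (by positivity)
    nlinarith [mul_pos hδ0 hD, mul_pos (mul_pos hδ0 hδ0) hD]
  · have h5 : (1 - δ / 2) * X ≤ (1 + δ) * D := hlow'.trans hWD1
    by_contra hcon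
    push Not at hcon
    have h6 : (1 + e) * D < X := by linarith
    have h7 : (1 + 4 * δ) * D < X := by
      have : (1 + 4 * δ) * D ≤ (1 + e) * D := mul_le_mul_of_nonneg_right (by linarith) hD.le
      linarith
    have h8 : (1 - δ / 2) * ((1 + 4 * δ) * D) < (1 - δ / 2) * X :=
      mul_lt_mul_of_pos_left h7 (by linarith)
    nlinarith [mul_pos hδ0 hD, mul_pos (mul_pos hδ0 hδ0) hD, mul_nonneg (mul_nonneg hδ0.le (by linarith : 0 ≤ 1 / 2 - δ)) hD.le]

end RLC
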