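import Pool.Agent.RLC.Defs

/-!
# RLC.Resamp: resampling one coordinate of an infinite product

PROOF. `resample`: the map `(a, y) ↦ Function.update a j y` maps `(infinitePi μ).prod (μ j)` to `infinitePi μ`: by
`Measure.eq_infinitePi` (or whatever characterises the product measure by its values on boxes) it is enough to look at
the boxes `∏_{i∈s} t_i`, and the preimage of such a box is `{a : ∀ i ∈ s \ {j}, a i ∈ t_i} ×ˢ t_j` (or `× univ` if `j ∉ s`), of measure
`∏_{i∈s\{j}} μ_i(t_i) · μ_j(t_j)`. Then `lintegral_map` and Tonelli (`lintegral_prod`).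
`chain_update_le`: `MCC.chain a β n i` depends only on the `a k` with `k < i` (`MCC.chain_congr`). `chain_update_succ`: unfold.
`wt_update`: the same for `wt`. `ae_mem`: `μ i (Icc 1 v)ᶜ ≤ ofReal (D i) · volume ∅ = 0`; the marginals of `infinitePi`
(`measurePreserving_eval_infinitePi`), see `Pool/Agent/AMC/InfA.lean`, end of `InfA_one`. `wt_meas`, `pa_meas`: finite products; the
chain is measurable in `a`: see `MCC.chain_meas` for a similar statement (here: induction on `i`, `Nat.measurable_floor`).
-/

namespace RLC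

open MeasureTheory

private theorem Resamp_upd_meas (j : ℕ) :
    Measurable fun q : (ℕ → ℝ) × ℝ => Function.update q.1 j q.2 := by
  rw [measurable_pi_iff]
  intro i
  by_cases h : i = j
  · subst h
    simp only [Function.update_self]
    exact measurable_snd
  · simp only [Function.update_of_ne h]
    exact (measurable_pi_apply i).comp measurable_fst

private theorem Resamp_map (μ : ℕ → Measure ℝ) [∀ n, IsProbabilityMeasure (μ n)] (j : ℕ) :
    ((Measure.infinitePi μ).prod (μ j)).map (fun q : (ℕ → ℝ) × ℝ => Function.update q.1 j q.2) =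
      Measure.infinitePi μ := by
  refine Measure.eq_infinitePi μ fun s t ht => ?_
  have hm : MeasurableSet (Set.pi (s : Set ℕ) t) :=
    MeasurableSet.pi s.countable_toSet fun i _ => ht i
  rw [Measure.map_apply (Resamp_upd_meas j) hm]
  have hpre : (fun q : (ℕ → ℝ) × ℝ => Function.update q.1 j q.2) ⁻¹' (Set.pi (s : Set ℕ) t) =
      (Set.pi ((s.erase j : Finset ℕ) : Set ℕ) t) ×ˢ (if j ∈ s then t j else Set.univ) := by
    ext ⟨a, y⟩
    simp only [Set.mem_preimage, Set.mem_pi, Finset.mem_coe, Set.mem_prod, Finset.mem_erase]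
    constructor
    · intro h
      refine ⟨fun i hi => ?_, ?_⟩
      · have h1 := h i hi.2
        rw [Function.update_of_ne hi.1] at h1
        exact h1
      · by_cases hj : j ∈ s
        · rw [if_pos hj]
          have h1 := h j hj
          rw [Function.update_self] at h1
          exact h1
        · rw [if_neg hj]
          exact Set.mem_univ _
    · rintro ⟨h1, h2⟩ i hi
      by_cases hij : i = j
      · subst hij
        rw [Function.update_self]
        rw [if_pos hi] at h2
        exact h2
      · rw [Function.update_of_ne hij]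
        exact h1 i ⟨hij, hi⟩
  rw [hpre, Measure.prod_prod, Measure.infinitePi_pi μ fun i _ => ht i]
  by_cases hj : j ∈ s
  · rw [if_pos hj, mul_comm, Finset.mul_prod_erase s (fun i => μ i (t i)) hj]
  · rw [if_neg hj, measure_univ, mul_one, Finset.erase_eq_of_notMem hj]

theorem resample (μ : ℕ → Measure ℝ) [∀ n, IsProbabilityMeasure (μ n)] (j : ℕ)
    (f : (ℕ → ℝ) → ENNReal) (hf : Measurable f) :
    ∫⁻ a, f a ∂(Measure.infinitePi μ) =
      ∫⁻ a, ∫⁻ y, f (Function.update a j y) ∂(μ j) ∂(Measure.infinitePi μ) := by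
  have h1 := congrArg (fun ν => ∫⁻ a, f a ∂ν) (Resamp_map μ j)
  rw [lintegral_map hf (Resamp_upd_meas j)] at h1
  rw [← h1]
  exact lintegral_prod _ (hf.comp (Resamp_upd_meas j)).aemeasurable

theorem chain_update_le (a β : ℕ → ℝ) (n j i : ℕ) (y : ℝ) (hi : i ≤ j) :
    MCC.chain (Function.update a j y) β n i = MCC.chain a β n i := by
  refine MCC.chain_congr (n := j) (fun k hk => ?_) (fun _ _ => rfl) hi
  exact Function.update_of_ne (by omega) _ _

theorem chain_update_succ (a β : ℕ → ℝ) (n j : ℕ) (y : ℝ) :
    MCC.chain (Function.update a j y) β n (j + 1) = ⌊y * (MCC.chain a β n j : ℝ) + β j⌋₊ := by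
  change ⌊Function.update a j y j * (MCC.chain (Function.update a j y) β n j : ℝ) + β j⌋₊ = _
  rw [Function.update_self, chain_update_le a β n j j y le_rfl]

theorem wt_update (a β : ℕ → ℝ) (n j : ℕ) (y : ℝ) : wt β n j (Function.update a j y) = wt β n j a := by
  unfold wt
  refine Finset.prod_congr rfl fun i hi => ?_
  rw [chain_update_le a β n j i y (by have := Finset.mem_range.1 hi; omega)]

theorem wt_update_succ (a β : ℕ → ℝ) (n j : ℕ) (y : ℝ) :
    wt β n (j + 1) (Function.update a j y) = wt β n j a * th ⌊y * (MCC.chain a β n j : ℝ) + β j⌋₊ := by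
  have h1 : wt β n (j + 1) (Function.update a j y) = wt β n j (Function.update a j y) *
      th (MCC.chain (Function.update a j y) β n (j + 1)) := by
    unfold wt
    rw [Finset.prod_range_succ _ (j + 1)]
  rw [h1, wt_update, chain_update_succ]

theorem ae_mem {v : ℝ} {D : ℕ → ℝ} {μ : ℕ → Measure ℝ} [∀ n, IsProbabilityMeasure (μ n)] (h : Law v D μ) :
    ∀ᵐ a ∂(Measure.infinitePi μ), ∀ i, a i ∈ Set.Icc 1 v := by
  rw [ae_all_iff]
  intro n
  have h5 : ∀ᵐ x ∂(μ n), x ∈ Set.Icc 1 v := by
    rw [ae_iff]
    have h6 : {a : ℝ | ¬ a ∈ Set.Icc 1 v} = (Set.Icc 1 v)ᶜ := rfl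
    rw [h6]
    have h7 := h.le n _ (measurableSet_Icc (a := (1 : ℝ)) (b := v)).compl
    rw [Set.compl_inter_self, measure_empty, mul_zero] at h7
    exact le_antisymm h7 (zero_le)
  have h6 := (measurePreserving_eval_infinitePi μ n).map_eq
  rw [← h6] at h5
  exact ae_of_ae_map (measurable_pi_apply n).aemeasurable h5

theorem chain_meas' (β : ℕ → ℝ) (n i : ℕ) : Measurable fun a : ℕ → ℝ => MCC.chain a β n i := by
  induction i with
  | zero => exact measurable_const
  | succ i ih =>
    show Measurable fun a : ℕ → ℝ => ⌊a i * (MCC.chain a β n i : ℝ) + β i⌋₊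
    apply Measurable.nat_floor
    apply Measurable.add_const
    apply (measurable_pi_apply i).mul
    exact (Measurable.of_discrete (f := fun n : ℕ => (n : ℝ))).comp ih

theorem wt_meas (β : ℕ → ℝ) (n j : ℕ) : Measurable (wt β n j) := by
  unfold wt
  refine Finset.measurable_prod _ fun i _ => ?_
  exact (Measurable.of_discrete (f := th)).comp (chain_meas' β n i)

theorem wt_nonneg (β : ℕ → ℝ) (n j : ℕ) (a : ℕ → ℝ) : 0 ≤ wt β n j a := by
  refine Finset.prod_nonneg fun i _ => ?_
  unfold th
  split_ifs with h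
  · exact Real.log_nonneg (by exact_mod_cast h.one_lt.le)
  · exact le_rfl

end RLC
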