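import Pool.Agent.RLC.Vari

/-!
# RLC.AeW: Borel-Cantelli

PROOF. It is enough to treat `ε = 1/(q+2)`, `q : ℕ` (countably many; the condition on `j` is weaker for smaller `ε`) and one `M`.
`Y = win M m`, `I = Ioc Y (win M (m+1)) ⊆ Ioc Y (2Y)` for large `m` (see `AeJ_double` in `Pool/Agent/AMC/AeJ.lean`; copy). `variance` with
`A = 8` and Markov's inequality: `P(|∑ (wt_j - wt_0)| > Y/log Y) ≤ (log Y)² (log Y)^(-8)`. There are at most `log Y + 1` values of `j` with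
`j + 1 ≤ (1-ε) log Y/log log Y` (`log log Y ≥ 1`), so the probability that one of them fails is `≤ 2 (log Y)^(-5)`, and
`log (win M m) ≥ c m` with `c > 0` (`AeJ_log`), so this is summable over `m`; `measure_limsup_atTop_eq_zero` (or
`ae_eventually_notMem`). `mem`: `ae_mem`.
-/

namespace RLC

open MeasureTheory Filter

private theorem AeW_lam {M : ℕ} (hM : 1 ≤ M) : 1 < 1 + 1 / (M : ℝ) := by
  have : (0 : ℝ) < M := by exact_mod_cast hM
  have : 0 < 1 / (M : ℝ) := by positivity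
  linarith

private theorem AeW_tendsto {M : ℕ} (hM : 1 ≤ M) : Tendsto (fun m => win M m) atTop atTop := by
  have h1 : Tendsto (fun m : ℕ => (1 + 1 / (M : ℝ)) ^ m) atTop atTop :=
    tendsto_pow_atTop_atTop_of_one_lt (AeW_lam hM)
  exact tendsto_nat_floor_atTop.comp h1

private theorem AeW_double {M : ℕ} (hM : 1 ≤ M) : ∀ᶠ m : ℕ in atTop, win M (m + 1) ≤ 2 * win M m := by
  rcases Nat.lt_or_ge M 2 with h | h
  · obtain rfl : M = 1 := by omega
    refine Eventually.of_forall fun m => ?_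
    have h1 : ∀ k : ℕ, win 1 k = 2 ^ k := by
      intro k
      unfold win
      have : (1 + 1 / ((1 : ℕ) : ℝ)) ^ k = ((2 ^ k : ℕ) : ℝ) := by
        push_cast
        norm_num
      rw [this, Nat.floor_natCast]
    rw [h1, h1, pow_succ]
    omega
  · filter_upwards [(AeW_tendsto hM).eventually_ge_atTop 3] with m hm
    have h0 : (2 : ℝ) ≤ M := by exact_mod_cast h
    have h1 : 1 + 1 / (M : ℝ) ≤ 3 / 2 := by
      have : 1 / (M : ℝ) ≤ 1 / 2 := one_div_le_one_div_of_le (by norm_num) h0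
      linarith
    have h2 : (1 + 1 / (M : ℝ)) ^ m < (win M m : ℝ) + 1 := Nat.lt_floor_add_one _
    have h3 : (3 : ℝ) ≤ (win M m : ℝ) := by exact_mod_cast hm
    have h4 : ((win M (m + 1) : ℕ) : ℝ) ≤ (1 + 1 / (M : ℝ)) ^ (m + 1) := by
      apply Nat.floor_le
      positivity
    have h5 : (0 : ℝ) < (1 + 1 / (M : ℝ)) ^ m := by positivity
    have h6 : ((win M (m + 1) : ℕ) : ℝ) ≤ ((2 * win M m : ℕ) : ℝ) := by
      push_cast
      rw [pow_succ] at h4
      nlinarith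
    exact_mod_cast h6

private theorem AeW_log {M : ℕ} (hM : 1 ≤ M) : ∃ c : ℝ, 0 < c ∧ ∀ᶠ m : ℕ in atTop,
    c * (m : ℝ) ≤ Real.log (win M m) := by
  have hl := AeW_lam hM
  have hlog : 0 < Real.log (1 + 1 / (M : ℝ)) := Real.log_pos hl
  refine ⟨Real.log (1 + 1 / (M : ℝ)) / 2, by positivity, ?_⟩
  have h1 : Tendsto (fun m : ℕ => (1 + 1 / (M : ℝ)) ^ m) atTop atTop :=
    tendsto_pow_atTop_atTop_of_one_lt hl
  have h2 : Tendsto (fun m : ℕ => Real.log (1 + 1 / (M : ℝ)) / 2 * (m : ℝ)) atTop atTop :=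
    Tendsto.const_mul_atTop (by positivity) tendsto_natCast_atTop_atTop
  filter_upwards [h1.eventually_ge_atTop 2, h2.eventually_ge_atTop (Real.log 2)] with m hm1 hm2
  have h3 : (1 + 1 / (M : ℝ)) ^ m < (win M m : ℝ) + 1 := Nat.lt_floor_add_one _
  have h4 : (1 + 1 / (M : ℝ)) ^ m / 2 ≤ (win M m : ℝ) := by linarith
  have h5 : Real.log ((1 + 1 / (M : ℝ)) ^ m / 2) ≤ Real.log (win M m) :=
    Real.log_le_log (by positivity) h4
  rw [Real.log_div (by positivity) (by norm_num), Real.log_pow] at h5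
  linarith

private theorem AeW_markov {P : Measure (ℕ → ℝ)} {g : (ℕ → ℝ) → ℝ} (hg : Measurable g) {Y L : ℝ} (hY : 0 < Y)
    (hL : 0 < L) (h : ∫⁻ a, ENNReal.ofReal (g a ^ 2) ∂P ≤ ENNReal.ofReal (Y ^ 2 * L ^ (-8 : ℝ))) :
    P {a | Y / L < |g a|} ≤ ENNReal.ofReal (1 / L ^ 6) := by
  have hε : 0 < (Y / L) ^ 2 := by positivity
  have h1 := mul_meas_ge_le_lintegral (μ := P) (hg.pow_const 2).ennreal_ofReal (ENNReal.ofReal ((Y / L) ^ 2))
  have h2 : {a | Y / L < |g a|} ⊆ {a | ENNReal.ofReal ((Y / L) ^ 2) ≤ ENNReal.ofReal (g a ^ 2)} := by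
    intro a ha
    have ha' : Y / L < |g a| := ha
    show ENNReal.ofReal ((Y / L) ^ 2) ≤ ENNReal.ofReal (g a ^ 2)
    apply ENNReal.ofReal_le_ofReal
    rw [← sq_abs (g a)]
    exact pow_le_pow_left₀ (by positivity) ha'.le 2
  have h3 : ENNReal.ofReal ((Y / L) ^ 2) * P {a | Y / L < |g a|} ≤
      ENNReal.ofReal ((Y / L) ^ 2) * ENNReal.ofReal (1 / L ^ 6) := by
    refine (mul_le_mul_right (measure_mono h2) _).trans ((h1.trans h).trans ?_)
    rw [← ENNReal.ofReal_mul hε.le]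
    apply ENNReal.ofReal_le_ofReal
    have h4 : L ^ (-8 : ℝ) = 1 / L ^ 8 := by
      rw [Real.rpow_neg hL.le, one_div]
      norm_cast
    rw [h4]
    apply le_of_eq
    field_simp
  exact (ENNReal.mul_le_mul_iff_right (ENNReal.ofReal_pos.2 hε).ne' ENNReal.ofReal_ne_top).1 h3

private theorem AeW_one {v Γ ε : ℝ} {D : ℕ → ℝ} (hD : Slow D) (hv : 1 ≤ v) (hΓ : 0 ≤ Γ) (hε : 0 < ε) (hε1 : ε < 1)
    (μ : ℕ → Measure ℝ) [∀ n, IsProbabilityMeasure (μ n)] (h : Law v D μ) (β : ℕ → ℝ) (hβ : ∀ i, |β i| ≤ Γ)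
    (M : ℕ) (hM : 1 ≤ M) :
    ∀ᵐ a ∂(Measure.infinitePi μ), ∀ᶠ m : ℕ in Filter.atTop, ∀ j : ℕ,
    ((j : ℝ) + 1 ≤ (1 - ε) * (Real.log (win M m) / Real.log (Real.log (win M m)))) →
    |∑ n ∈ Finset.Ioc (win M m) (win M (m + 1)), (wt β n j a - wt β n 0 a)| ≤
      (win M m : ℝ) / Real.log (win M m) := by
  obtain ⟨Y0, hY0, hvar⟩ := variance (A := 8) hD hv hΓ hε hε1 (by norm_num)
  obtain ⟨c, hc, hlog⟩ := AeW_log hM
  have hwin := AeW_tendsto hM
  have hL3 : ∀ᶠ m : ℕ in atTop, (3 : ℝ) ≤ Real.log (win M m) :=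
    ((Real.tendsto_log_atTop.comp (tendsto_natCast_atTop_atTop (R := ℝ))).comp hwin).eventually_ge_atTop 3
  obtain ⟨m0, hm0⟩ := eventually_atTop.1 ((hwin.eventually_ge_atTop Y0).and
    ((AeW_double hM).and (hlog.and (hL3.and (eventually_ge_atTop 1)))))
  set P := Measure.infinitePi μ with hP
  set s : ℕ → Set (ℕ → ℝ) := fun m =>
    {a | ∃ j : ℕ, ((j : ℝ) + 1 ≤ (1 - ε) * (Real.log (win M m) / Real.log (Real.log (win M m)))) ∧
      (win M m : ℝ) / Real.log (win M m) <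
        |∑ n ∈ Finset.Ioc (win M m) (win M (m + 1)), (wt β n j a - wt β n 0 a)|} with hs
  have hmeas : ∀ m, m0 ≤ m → P (s m) ≤ ENNReal.ofReal (2 / (c * (m : ℝ)) ^ 5) := by
    intro m hm
    obtain ⟨h1, h3, h4, h5, h6⟩ := hm0 m hm
    have hsm : s m = {a | ∃ j : ℕ, ((j : ℝ) + 1 ≤ (1 - ε) * (Real.log (win M m) / Real.log (Real.log (win M m)))) ∧
      (win M m : ℝ) / Real.log (win M m) <
        |∑ n ∈ Finset.Ioc (win M m) (win M (m + 1)), (wt β n j a - wt β n 0 a)|} := rfl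
    rw [hsm]
    set Y := win M m with hY
    set Y' := win M (m + 1) with hY'
    set L := Real.log (Y : ℝ) with hL
    have hm1 : (1 : ℝ) ≤ (m : ℝ) := by exact_mod_cast h6
    have hcm : 0 < c * (m : ℝ) := by positivity
    have hL0 : 0 < L := by linarith
    have hYpos : (0 : ℝ) < (Y : ℝ) := by
      have : 0 < Y := by omega
      exact_mod_cast this
    have hll : 1 ≤ Real.log L := by
      rw [Real.le_log_iff_exp_le hL0]
      have := Real.exp_one_lt_d9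
      linarith
    have hI : Finset.Ioc Y Y' ⊆ Finset.Ioc Y (2 * Y) := Finset.Ioc_subset_Ioc_right h3
    have hj : ∀ j : ℕ, ((j : ℝ) + 1 ≤ (1 - ε) * (L / Real.log L)) → j < ⌊L⌋₊ := by
      intro j hj
      have e1 : L / Real.log L ≤ L := div_le_self hL0.le hll
      have e2 : 0 ≤ L / Real.log L := div_nonneg hL0.le (by linarith)
      have e3 : (j : ℝ) + 1 ≤ L := by nlinarith
      have e4 : ((j + 1 : ℕ) : ℝ) ≤ L := by exact_mod_cast e3
      have := Nat.le_floor e4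
      omega
    have hsub : {a : ℕ → ℝ | ∃ j : ℕ, ((j : ℝ) + 1 ≤ (1 - ε) * (L / Real.log L)) ∧
        (Y : ℝ) / L < |∑ n ∈ Finset.Ioc Y Y', (wt β n j a - wt β n 0 a)|} ⊆
        ⋃ j ∈ (Finset.range ⌊L⌋₊).filter (fun j : ℕ => (j : ℝ) + 1 ≤ (1 - ε) * (L / Real.log L)),
          {a : ℕ → ℝ | (Y : ℝ) / L < |∑ n ∈ Finset.Ioc Y Y', (wt β n j a - wt β n 0 a)|} := by
      rintro a ⟨j, hj1, hj2⟩
      simp only [Set.mem_iUnion]
      exact ⟨j, Finset.mem_filter.2 ⟨Finset.mem_range.2 (hj j hj1), hj1⟩, hj2⟩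
    have hone : ∀ j ∈ (Finset.range ⌊L⌋₊).filter (fun j : ℕ => (j : ℝ) + 1 ≤ (1 - ε) * (L / Real.log L)),
        P {a : ℕ → ℝ | (Y : ℝ) / L < |∑ n ∈ Finset.Ioc Y Y', (wt β n j a - wt β n 0 a)|} ≤
          ENNReal.ofReal (1 / L ^ 6) := by
      intro j hj1
      exact AeW_markov (Finset.measurable_sum _ fun n _ => (wt_meas β n j).sub (wt_meas β n 0)) hYpos hL0
        (hvar Y h1 μ h β hβ (Finset.Ioc Y Y') hI j (Finset.mem_filter.1 hj1).2)
    calc P {a : ℕ → ℝ | ∃ j : ℕ, ((j : ℝ) + 1 ≤ (1 - ε) * (L / Real.log L)) ∧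
          (Y : ℝ) / L < |∑ n ∈ Finset.Ioc Y Y', (wt β n j a - wt β n 0 a)|} ≤ _ := measure_mono hsub
      _ ≤ _ := measure_biUnion_finset_le _ _
      _ ≤ ∑ _j ∈ (Finset.range ⌊L⌋₊).filter (fun j : ℕ => (j : ℝ) + 1 ≤ (1 - ε) * (L / Real.log L)),
          ENNReal.ofReal (1 / L ^ 6) := Finset.sum_le_sum hone
      _ ≤ (⌊L⌋₊ : ENNReal) * ENNReal.ofReal (1 / L ^ 6) := by
          rw [Finset.sum_const, nsmul_eq_mul]
          gcongr
          refine (Finset.card_filter_le _ _).trans ?_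
          rw [Finset.card_range]
      _ ≤ ENNReal.ofReal L * ENNReal.ofReal (1 / L ^ 6) := by
          gcongr
          rw [← ENNReal.ofReal_natCast]
          exact ENNReal.ofReal_le_ofReal (Nat.floor_le hL0.le)
      _ = ENNReal.ofReal (1 / L ^ 5) := by
          rw [← ENNReal.ofReal_mul hL0.le]
          congr 1
          field_simp
      _ ≤ ENNReal.ofReal (2 / (c * (m : ℝ)) ^ 5) := by
          apply ENNReal.ofReal_le_ofReal
          have e1 : 1 / L ^ 5 ≤ 1 / (c * (m : ℝ)) ^ 5 :=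
            one_div_le_one_div_of_le (by positivity) (pow_le_pow_left₀ hcm.le h4 5)
          have e2 : 1 / (c * (m : ℝ)) ^ 5 ≤ 2 / (c * (m : ℝ)) ^ 5 := by
            gcongr
            norm_num
          linarith
  have hsum : ∑' m, P (s (m + m0)) ≠ ⊤ := by
    have hsm : Summable fun m : ℕ => 2 / (c * ((m + m0 : ℕ) : ℝ)) ^ 5 := by
      have h1 : Summable fun m : ℕ => 1 / (m : ℝ) ^ 5 := Real.summable_one_div_nat_pow.2 (by norm_num)
      have h2 := ((summable_nat_add_iff m0).2 h1).mul_left (2 / c ^ 5)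
      refine h2.congr fun m => ?_
      rw [mul_pow]
      field_simp
    have h3 : ∑' m, ENNReal.ofReal (2 / (c * ((m + m0 : ℕ) : ℝ)) ^ 5) ≠ ⊤ := hsm.tsum_ofReal_ne_top
    exact ne_top_of_le_ne_top h3 (ENNReal.tsum_le_tsum fun m => hmeas (m + m0) (by omega))
  filter_upwards [ae_eventually_notMem hsum] with x hx
  obtain ⟨m1, hm1⟩ := eventually_atTop.1 hx
  refine eventually_atTop.2 ⟨m1 + m0, fun m hm j hj => ?_⟩
  have h1 := hm1 (m - m0) (by omega)
  rw [Nat.sub_add_cancel (by omega : m0 ≤ m)] at h1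
  by_contra h2
  exact h1 ⟨j, hj, not_le.1 h2⟩

theorem ae_good {v Γ : ℝ} {D : ℕ → ℝ} (hD : Slow D) (hv : 1 ≤ v) (hΓ : 0 ≤ Γ) (μ : ℕ → Measure ℝ)
    [∀ n, IsProbabilityMeasure (μ n)] (h : Law v D μ) (β : ℕ → ℝ) (hβ : ∀ i, |β i| ≤ Γ) :
    ∀ᵐ a ∂(Measure.infinitePi μ), Good v Γ a β := by
  have hq : ∀ q : ℕ, ∀ M : ℕ, ∀ᵐ a ∂(Measure.infinitePi μ), 1 ≤ M → ∀ᶠ m : ℕ in Filter.atTop, ∀ j : ℕ,
      ((j : ℝ) + 1 ≤ (1 - 1 / ((q : ℝ) + 2)) * (Real.log (win M m) / Real.log (Real.log (win M m)))) →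
      |∑ n ∈ Finset.Ioc (win M m) (win M (m + 1)), (wt β n j a - wt β n 0 a)| ≤
        (win M m : ℝ) / Real.log (win M m) := by
    intro q M
    by_cases hM : 1 ≤ M
    · have hq0 : (0 : ℝ) ≤ q := Nat.cast_nonneg q
      have h1 : (0 : ℝ) < 1 / ((q : ℝ) + 2) := by positivity
      have h2 : 1 / ((q : ℝ) + 2) < 1 := by
        rw [div_lt_one (by linarith)]
        linarith
      filter_upwards [AeW_one hD hv hΓ h1 h2 μ h β hβ M hM] with a ha _
      exact ha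
    · exact Eventually.of_forall fun a hM' => absurd hM' hM
  filter_upwards [ae_mem h, ae_all_iff.2 fun q => ae_all_iff.2 (hq q)] with a h1 h2
  refine ⟨h1, hβ, fun ε hε hε1 M hM => ?_⟩
  obtain ⟨q, hqε⟩ := exists_nat_ge (1 / ε)
  have hq0 : (0 : ℝ) ≤ q := Nat.cast_nonneg q
  have h3 : 1 / ((q : ℝ) + 2) ≤ ε := by
    rw [div_le_iff₀ (by linarith)]
    rw [div_le_iff₀ hε] at hqε
    nlinarith
  have hL3 : ∀ᶠ m : ℕ in atTop, (3 : ℝ) ≤ Real.log (win M m) :=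
    ((Real.tendsto_log_atTop.comp (tendsto_natCast_atTop_atTop (R := ℝ))).comp (AeW_tendsto hM)).eventually_ge_atTop 3
  filter_upwards [h2 q M hM, hL3] with m hm hm3 j hj
  refine hm j (hj.trans ?_)
  have hll : 0 ≤ Real.log (Real.log (win M m)) := Real.log_nonneg (by linarith)
  have h5 : 0 ≤ Real.log (win M m) / Real.log (Real.log (win M m)) := div_nonneg (by linarith) hll
  exact mul_le_mul_of_nonneg_right (by linarith) h5

end RLC
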