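import Pool.Agent.RLC.Defs

/-!
# RLC.Lip: `Psi` is Lipschitz continuous

PROOF. `‖HX ξ r - HX ξ r'‖ ≤ sup|h| ∫ |h(s-r) - h(s-r')| ds`, `sup|h| ≤ (4+2Γ) w` (`AMC.h_abs`). Claim: for `0 ≤ t ≤ 1`:
`∫ |h(s+t) - h(s)| ds ≤ C w² exp(w) t` (see `Pool/Agent/AMC/TailH.lean`, `th_pt1`, `th_pt2`, `th_pt`, `th_NE`, `th_D` for the same with
squares; the lemmas there are private, copy): with `E(s) = exp(-(s-w)²)`:
`h(s+t) - h(s) = (G(s+t)-G(s)) E(s+t) + G(s)(E(s+t)-E(s))` for `s > w/2` (and one more term for `w/2 - t < s ≤ w/2`);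
`G(s+t) ≠ G(s)` only if `N(s+t) - N(s) ≥ 1`, `N(s) = ⌊e^s+β⌋`, so `|G(s+t)-G(s)| ≤ C w exp(..)(N(s+t)-N(s))`, and
`∫ (N(s+t)-N(s)) E'(s+t) ds = ∫ N(s) (E'(s) - E'(s+t)) ds` for a smooth weight `E'`, which is at most `C exp(w) t`;
`|E(s+t)-E(s)| ≤ 16 t exp(-(3/8)(s-w)²)`. For `|r-r'| ≥ 1` use `Psi ≤ C w²` (`HX` is at most `∫ |h(s)| |h(s-r)| ds ≤ C w²`).
`∫ exp(-ξ²/8) dξ = √(8π)`. (`ξ ↦ HX β w ξ r` is continuous and bounded.) Finally absorb the constants and the powers of `w`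
in `w^8` for large `w`.
-/

namespace RLC

open MeasureTheory AMC

private theorem lip_poly (β w s : ℝ) (hw : 1 ≤ w) :
    1 + |s| + |β| ≤ (4 + 2 * |β|) * w * Real.exp ((s - w) ^ 2 / 8) := by
  have h1 : (s - w) ^ 2 / 8 + 1 ≤ Real.exp ((s - w) ^ 2 / 8) := Real.add_one_le_exp _
  have h2 : |s| ≤ |s - w| + w := by
    have := abs_add_le (s - w) w
    rw [sub_add_cancel, abs_of_pos (show 0 < w by linarith)] at this
    exact this
  have h3 : (s - w) ^ 2 = |s - w| ^ 2 := (sq_abs _).symm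
  set x := |s - w|
  have hx : 0 ≤ x := abs_nonneg _
  have hβ : 0 ≤ |β| := abs_nonneg _
  set b := |β|
  have h4 : (1 + x) ≤ 2 * Real.exp ((s - w) ^ 2 / 8) := by
    rw [h3] at h1 ⊢
    nlinarith [sq_nonneg (x / 2 - 1)]
  have h5 : 1 + |s| + b ≤ (2 + b) * w * (1 + x) := by
    have : 0 ≤ b * (w - 1) := mul_nonneg hβ (by linarith)
    have : 0 ≤ x * (w - 1) := mul_nonneg hx (by linarith)
    have : 0 ≤ b * w * x := by positivity
    nlinarith
  calc 1 + |s| + b ≤ (2 + b) * w * (1 + x) := h5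
    _ ≤ (2 + b) * w * (2 * Real.exp ((s - w) ^ 2 / 8)) := by gcongr
    _ = _ := by ring

private theorem lip_N_le (β s : ℝ) : (⌊Real.exp s + β⌋₊ : ℝ) ≤ Real.exp s + |β| := by
  rcases le_or_gt 0 (Real.exp s + β) with h | h
  · exact (Nat.floor_le h).trans (by linarith [le_abs_self β])
  · rw [Nat.floor_of_nonpos h.le]
    have := Real.exp_pos s
    have := abs_nonneg β
    push_cast
    linarith

private theorem lip_L_le (β s : ℝ) (hs : 0 ≤ s) :
    ArithmeticFunction.vonMangoldt ⌊Real.exp s + β⌋₊ ≤ s + |β| := by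
  have hβ := abs_nonneg β
  rcases Nat.eq_zero_or_pos ⌊Real.exp s + β⌋₊ with h | h
  · rw [h]
    simp
    linarith
  · have h1 : (0 : ℝ) < (⌊Real.exp s + β⌋₊ : ℝ) := by exact_mod_cast h
    calc ArithmeticFunction.vonMangoldt ⌊Real.exp s + β⌋₊ ≤ Real.log (⌊Real.exp s + β⌋₊ : ℝ) :=
          ArithmeticFunction.vonMangoldt_le_log
      _ ≤ Real.log (Real.exp s * Real.exp |β|) := by
          apply Real.log_le_log h1
          have h2 := lip_N_le β s
          have h3 := Real.add_one_le_exp |β|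
          have h4 : 1 ≤ Real.exp s := Real.one_le_exp hs
          nlinarith
      _ = s + |β| := by rw [← Real.exp_add, Real.log_exp]

private theorem lip_G_abs (β s : ℝ) (hs : 0 ≤ s) : |G β s| ≤ 1 + |s| + |β| := by
  have h1 := lip_L_le β s hs
  have h2 : 0 ≤ ArithmeticFunction.vonMangoldt ⌊Real.exp s + β⌋₊ :=
    ArithmeticFunction.vonMangoldt_nonneg
  have h3 := abs_nonneg β
  rw [abs_of_nonneg hs]
  unfold G
  rw [abs_le]
  constructor <;> linarith

private theorem lip_gauss (w c : ℝ) (hc : 0 < c) : Integrable (fun s : ℝ => Real.exp (-c * (s - w) ^ 2)) :=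
  (integrable_exp_neg_mul_sq hc).comp_sub_right w

private theorem lip_N_meas (β : ℝ) : Measurable (fun s : ℝ => (⌊Real.exp s + β⌋₊ : ℝ)) := by
  have h1 : Measurable (fun s : ℝ => ⌊Real.exp s + β⌋₊) :=
    Nat.measurable_floor.comp (Real.measurable_exp.add_const β)
  exact (measurable_from_top (f := fun n : ℕ => (n : ℝ))).comp h1

private noncomputable def lip_F (w s : ℝ) : ℝ := Real.exp (-(3 / 4) * (s - w) ^ 2)

private theorem lip_F_meas (w : ℝ) : Measurable (lip_F w) := by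
  unfold lip_F
  fun_prop

private theorem lip_key (a b : ℝ) :
    |Real.exp (-a) - Real.exp (-b)| ≤ |a - b| * (Real.exp (-a) + Real.exp (-b)) := by
  have h1 : ∀ a b : ℝ, a ≤ b → |Real.exp (-a) - Real.exp (-b)| ≤ |a - b| * (Real.exp (-a) + Real.exp (-b)) := by
    intro a b hab
    have e1 : Real.exp (-b) ≤ Real.exp (-a) := Real.exp_le_exp.2 (by linarith)
    have e2 : (a - b) + 1 ≤ Real.exp (a - b) := Real.add_one_le_exp _
    have e3 : Real.exp (-b) = Real.exp (-a) * Real.exp (a - b) := by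
      rw [← Real.exp_add]; congr 1; ring
    rw [abs_of_nonneg (by linarith), abs_of_nonpos (by linarith)]
    have e4 := Real.exp_pos (-a)
    have e5 := Real.exp_pos (-b)
    have e6 : Real.exp (-a) - Real.exp (-b) ≤ (b - a) * Real.exp (-a) := by
      rw [e3]
      nlinarith
    nlinarith [mul_nonneg (show 0 ≤ b - a by linarith) e5.le]
  rcases le_total a b with h | h
  · exact h1 a b h
  · have := h1 b a h
    rw [abs_sub_comm, abs_sub_comm a b, add_comm (Real.exp (-a))]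
    exact this

private theorem lip_expx (x : ℝ) : 2 * |x| + 1 ≤ 4 * Real.exp (x ^ 2 / 8) := by
  have h2 : x ^ 2 / 8 + 1 ≤ Real.exp (x ^ 2 / 8) := Real.add_one_le_exp _
  have h4 : x ^ 2 = |x| ^ 2 := (sq_abs _).symm
  rw [h4] at h2 ⊢
  nlinarith [sq_nonneg (|x| - 2), abs_nonneg x]

private theorem lip_sqd (x δ : ℝ) (h0 : 0 ≤ δ) (h1 : δ ≤ 1) :
    |(x + δ) ^ 2 - x ^ 2| ≤ δ * (4 * Real.exp (x ^ 2 / 8)) := by
  have : (x + δ) ^ 2 - x ^ 2 = δ * (2 * x + δ) := by ring
  rw [this, abs_mul, abs_of_nonneg h0]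
  apply mul_le_mul_of_nonneg_left _ h0
  have h3 : |2 * x + δ| ≤ 2 * |x| + 1 := by
    refine (abs_add_le _ _).trans ?_
    rw [abs_mul, abs_of_pos (by norm_num : (0 : ℝ) < 2), abs_of_nonneg h0]
    linarith
  exact h3.trans (lip_expx x)

private theorem lip_exp1 : Real.exp 1 ≤ 3 := by linarith [Real.exp_one_lt_d9]

private theorem lip_F_diff (w s δ : ℝ) (h0 : 0 ≤ δ) (h1 : δ ≤ 1) :
    |lip_F w (s + δ) - lip_F w s| ≤ 12 * δ * Real.exp (-(1 / 4) * (s - w) ^ 2) := by
  unfold lip_F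
  set x := s - w with hx
  have e0 : s + δ - w = x + δ := by rw [hx]; ring
  rw [e0]
  have k := lip_key (3 / 4 * (x + δ) ^ 2) (3 / 4 * x ^ 2)
  rw [← neg_mul, ← neg_mul] at k
  refine k.trans ?_
  have e1 : |3 / 4 * (x + δ) ^ 2 - 3 / 4 * x ^ 2| ≤ 3 * δ * Real.exp (x ^ 2 / 8) := by
    have : 3 / 4 * (x + δ) ^ 2 - 3 / 4 * x ^ 2 = 3 / 4 * ((x + δ) ^ 2 - x ^ 2) := by ring
    rw [this, abs_mul, abs_of_pos (by norm_num : (0 : ℝ) < 3 / 4)]
    have := lip_sqd x δ h0 h1
    linarith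
  have e2 : Real.exp (-(3 / 4) * (x + δ) ^ 2) ≤ 3 * Real.exp (-(3 / 8) * x ^ 2) := by
    have h2 : Real.exp (-(3 / 4) * (x + δ) ^ 2) ≤ Real.exp (1 + -(3 / 8) * x ^ 2) := by
      apply Real.exp_le_exp.2
      nlinarith [sq_nonneg (x + 2 * δ)]
    rw [Real.exp_add] at h2
    have h3 := lip_exp1
    have h4 := Real.exp_pos (-(3 / 8) * x ^ 2)
    nlinarith
  have e3 : Real.exp (-(3 / 4) * x ^ 2) ≤ Real.exp (-(3 / 8) * x ^ 2) := by
    apply Real.exp_le_exp.2
    nlinarith [sq_nonneg x]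
  calc |3 / 4 * (x + δ) ^ 2 - 3 / 4 * x ^ 2| *
        (Real.exp (-(3 / 4) * (x + δ) ^ 2) + Real.exp (-(3 / 4) * x ^ 2))
      ≤ (3 * δ * Real.exp (x ^ 2 / 8)) * (4 * Real.exp (-(3 / 8) * x ^ 2)) := by
        gcongr
        linarith
    _ = 12 * δ * (Real.exp (x ^ 2 / 8) * Real.exp (-(3 / 8) * x ^ 2)) := by ring
    _ = _ := by
        rw [← Real.exp_add]
        congr 2
        ring

private theorem lip_E_diff (w s δ : ℝ) (h0 : 0 ≤ δ) (h1 : δ ≤ 1) :
    |Real.exp (-(s + δ - w) ^ 2) - Real.exp (-(s - w) ^ 2)| ≤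
      16 * δ * Real.exp (-(3 / 8) * (s - w) ^ 2) := by
  set x := s - w with hx
  have e0 : s + δ - w = x + δ := by rw [hx]; ring
  rw [e0]
  refine (lip_key _ _).trans ?_
  have e2 : Real.exp (-(x + δ) ^ 2) ≤ 3 * Real.exp (-(1 / 2) * x ^ 2) := by
    have h2 : Real.exp (-(x + δ) ^ 2) ≤ Real.exp (1 + -(1 / 2) * x ^ 2) := by
      apply Real.exp_le_exp.2
      nlinarith [sq_nonneg (x + 2 * δ)]
    rw [Real.exp_add] at h2
    have h3 := lip_exp1
    have h4 := Real.exp_pos (-(1 / 2) * x ^ 2)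
    nlinarith
  have e3 : Real.exp (-x ^ 2) ≤ Real.exp (-(1 / 2) * x ^ 2) := by
    apply Real.exp_le_exp.2
    nlinarith [sq_nonneg x]
  calc |(x + δ) ^ 2 - x ^ 2| * (Real.exp (-(x + δ) ^ 2) + Real.exp (-x ^ 2))
      ≤ (δ * (4 * Real.exp (x ^ 2 / 8))) * (4 * Real.exp (-(1 / 2) * x ^ 2)) := by
        gcongr
        · exact lip_sqd x δ h0 h1
        · linarith
    _ = 16 * δ * (Real.exp (x ^ 2 / 8) * Real.exp (-(1 / 2) * x ^ 2)) := by ring
    _ = _ := by
        rw [← Real.exp_add]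
        congr 2
        ring

private theorem lip_pt1 (β w s δ : ℝ) (hw : 1 ≤ w) (h0 : 0 ≤ δ) (hs : 0 ≤ s) :
    |G β (s + δ) - G β s| * Real.exp (-(s + δ - w) ^ 2) ≤
      (4 + 2 * |β|) * w *
        (((⌊Real.exp (s + δ) + β⌋₊ : ℝ) - (⌊Real.exp s + β⌋₊ : ℝ)) * lip_F w (s + δ)) := by
  have hmono : ⌊Real.exp s + β⌋₊ ≤ ⌊Real.exp (s + δ) + β⌋₊ := by
    apply Nat.floor_mono
    have := Real.exp_le_exp.2 (show s ≤ s + δ by linarith)
    linarith
  have hE : 0 < lip_F w (s + δ) := Real.exp_pos _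
  have hβ := abs_nonneg β
  rcases hmono.eq_or_lt with h | h
  · have : G β (s + δ) = G β s := by
      unfold G
      rw [h]
    rw [this, h]
    simp
  · have h1 : (1 : ℝ) ≤ (⌊Real.exp (s + δ) + β⌋₊ : ℝ) - (⌊Real.exp s + β⌋₊ : ℝ) := by
      have : ⌊Real.exp s + β⌋₊ + 1 ≤ ⌊Real.exp (s + δ) + β⌋₊ := h
      have h' : ((⌊Real.exp s + β⌋₊ : ℝ) + 1) ≤ (⌊Real.exp (s + δ) + β⌋₊ : ℝ) := by exact_mod_cast this
      linarith
    have h2 : |G β (s + δ) - G β s| ≤ 1 + |s + δ| + |β| := by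
      rw [abs_le]
      constructor
      · have e1 := lip_L_le β s hs
        have e2 : 0 ≤ ArithmeticFunction.vonMangoldt ⌊Real.exp (s + δ) + β⌋₊ :=
          ArithmeticFunction.vonMangoldt_nonneg
        unfold G
        rw [abs_of_nonneg (show 0 ≤ s + δ by linarith)]
        linarith
      · have e1 := lip_L_le β (s + δ) (by linarith)
        have e2 : 0 ≤ ArithmeticFunction.vonMangoldt ⌊Real.exp s + β⌋₊ :=
          ArithmeticFunction.vonMangoldt_nonneg
        unfold G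
        rw [abs_of_nonneg (show 0 ≤ s + δ by linarith)]
        linarith
    have h3 := lip_poly β w (s + δ) hw
    have h5 : Real.exp ((s + δ - w) ^ 2 / 8) * Real.exp (-(s + δ - w) ^ 2) ≤ lip_F w (s + δ) := by
      unfold lip_F
      rw [← Real.exp_add]
      apply Real.exp_le_exp.2
      nlinarith [sq_nonneg (s + δ - w)]
    calc |G β (s + δ) - G β s| * Real.exp (-(s + δ - w) ^ 2)
        ≤ ((4 + 2 * |β|) * w * Real.exp ((s + δ - w) ^ 2 / 8)) * Real.exp (-(s + δ - w) ^ 2) :=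
          mul_le_mul_of_nonneg_right (h2.trans h3) (Real.exp_pos _).le
      _ = (4 + 2 * |β|) * w * (Real.exp ((s + δ - w) ^ 2 / 8) * Real.exp (-(s + δ - w) ^ 2)) := by ring
      _ ≤ (4 + 2 * |β|) * w * (1 * lip_F w (s + δ)) := by
          rw [one_mul]
          exact mul_le_mul_of_nonneg_left h5 (by positivity)
      _ ≤ _ := by gcongr

private theorem lip_pt2 (β w s δ : ℝ) (hw : 1 ≤ w) (h0 : 0 ≤ δ) (h1 : δ ≤ 1) (hs : 0 ≤ s) :
    |G β s| * |Real.exp (-(s + δ - w) ^ 2) - Real.exp (-(s - w) ^ 2)| ≤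
      (4 + 2 * |β|) * w * (16 * δ * Real.exp (-(1 / 4) * (s - w) ^ 2)) := by
  have hβ := abs_nonneg β
  have e1 : |G β s| ≤ (4 + 2 * |β|) * w * Real.exp ((s - w) ^ 2 / 8) :=
    (lip_G_abs β s hs).trans (lip_poly β w s hw)
  calc |G β s| * |Real.exp (-(s + δ - w) ^ 2) - Real.exp (-(s - w) ^ 2)|
      ≤ ((4 + 2 * |β|) * w * Real.exp ((s - w) ^ 2 / 8)) *
          (16 * δ * Real.exp (-(3 / 8) * (s - w) ^ 2)) := by
        gcongr
        exact lip_E_diff w s δ h0 h1
    _ = (4 + 2 * |β|) * w * (16 * δ * (Real.exp ((s - w) ^ 2 / 8) *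
          Real.exp (-(3 / 8) * (s - w) ^ 2))) := by ring
    _ = _ := by
        rw [← Real.exp_add]
        congr 3
        ring

private theorem lip_pt (β w s δ : ℝ) (hw : 1 ≤ w) (h0 : 0 ≤ δ) (h1 : δ ≤ 1) :
    |h β w (s + δ) - h β w s| ≤ (4 + 2 * |β|) * w *
      (((⌊Real.exp (s + δ) + β⌋₊ : ℝ) - (⌊Real.exp s + β⌋₊ : ℝ)) * lip_F w (s + δ) +
        16 * δ * Real.exp (-(1 / 4) * (s - w) ^ 2) +
        (Set.Ioc (w / 2 - δ) (w / 2)).indicator (fun _ => (1 : ℝ)) s) := by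
  have hβ := abs_nonneg β
  have hM : 0 ≤ (4 + 2 * |β|) * w := by positivity
  have hmono : (⌊Real.exp s + β⌋₊ : ℝ) ≤ (⌊Real.exp (s + δ) + β⌋₊ : ℝ) := by
    have : ⌊Real.exp s + β⌋₊ ≤ ⌊Real.exp (s + δ) + β⌋₊ := by
      apply Nat.floor_mono
      have := Real.exp_le_exp.2 (show s ≤ s + δ by linarith)
      linarith
    exact_mod_cast this
  have hE : 0 < lip_F w (s + δ) := Real.exp_pos _
  have hX : 0 ≤ ((⌊Real.exp (s + δ) + β⌋₊ : ℝ) - (⌊Real.exp s + β⌋₊ : ℝ)) * lip_F w (s + δ) := by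
    have : 0 ≤ (⌊Real.exp (s + δ) + β⌋₊ : ℝ) - (⌊Real.exp s + β⌋₊ : ℝ) := by linarith
    positivity
  have hY : 0 ≤ 16 * δ * Real.exp (-(1 / 4) * (s - w) ^ 2) := by positivity
  have hZ : 0 ≤ (Set.Ioc (w / 2 - δ) (w / 2)).indicator (fun _ => (1 : ℝ)) s :=
    Set.indicator_nonneg (fun _ _ => zero_le_one) s
  rcases lt_or_ge (w / 2) s with hs | hs
  · have a1 : h β w (s + δ) = G β (s + δ) * Real.exp (-(s + δ - w) ^ 2) := by
      unfold h
      rw [if_pos (by linarith)]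
    have a2 : h β w s = G β s * Real.exp (-(s - w) ^ 2) := by
      unfold h
      rw [if_pos hs]
    have a3 : h β w (s + δ) - h β w s =
        (G β (s + δ) - G β s) * Real.exp (-(s + δ - w) ^ 2) +
          G β s * (Real.exp (-(s + δ - w) ^ 2) - Real.exp (-(s - w) ^ 2)) := by
      rw [a1, a2]; ring
    have b1 := lip_pt1 β w s δ hw h0 (by linarith)
    have b2 := lip_pt2 β w s δ hw h0 h1 (by linarith)
    rw [a3]
    refine (abs_add_le _ _).trans ?_
    rw [abs_mul, abs_mul, abs_of_pos (Real.exp_pos (-(s + δ - w) ^ 2))]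
    nlinarith [mul_nonneg hM hZ]
  · rcases lt_or_ge (w / 2 - δ) s with hs2 | hs2
    · have a2 : h β w s = 0 := by
        unfold h
        rw [if_neg (by linarith)]
      have a4 : (Set.Ioc (w / 2 - δ) (w / 2)).indicator (fun _ => (1 : ℝ)) s = 1 := by
        rw [Set.indicator_of_mem]
        exact ⟨hs2, hs⟩
      rw [a2, sub_zero, a4]
      have a5 := AMC.h_abs β w (s + δ) hw
      have a6 : |h β w (s + δ)| ≤ (4 + 2 * |β|) * w * 1 := by
        refine a5.trans ?_
        gcongr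
        rw [Real.exp_le_one_iff]
        nlinarith [sq_nonneg (s + δ - w)]
      refine a6.trans ?_
      nlinarith [mul_nonneg hM (add_nonneg hX hY)]
    · have a2 : h β w s = 0 := by
        unfold h
        rw [if_neg (by linarith)]
      have a1 : h β w (s + δ) = 0 := by
        unfold h
        rw [if_neg (by linarith)]
      rw [a1, a2]
      simp only [sub_zero, abs_zero]
      positivity

private theorem lip_NE (β w s c : ℝ) (hw : 1 ≤ w) (hc : 1 / 4 ≤ c) :
    (⌊Real.exp s + β⌋₊ : ℝ) * Real.exp (-c * (s - w) ^ 2) ≤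
      (9 + |β|) * Real.exp w * Real.exp (-(1 / 8) * (s - w) ^ 2) := by
  have hβ := abs_nonneg β
  set x := s - w with hx
  have e1 : Real.exp s * Real.exp (-c * x ^ 2) ≤ 9 * (Real.exp w * Real.exp (-(1 / 8) * x ^ 2)) := by
    have h9 : Real.exp 2 ≤ 9 := by
      have h1 : Real.exp 2 = Real.exp 1 * Real.exp 1 := by
        rw [← Real.exp_add]; norm_num
      have h2 := lip_exp1
      have h3 := Real.exp_pos 1
      rw [h1]
      nlinarith
    have h2 : Real.exp s * Real.exp (-c * x ^ 2) ≤ Real.exp 2 * (Real.exp w * Real.exp (-(1 / 8) * x ^ 2)) := by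
      rw [← Real.exp_add, ← Real.exp_add, ← Real.exp_add]
      apply Real.exp_le_exp.2
      have : s = w + x := by rw [hx]; ring
      rw [this]
      nlinarith [sq_nonneg (x - 4), mul_nonneg (sub_nonneg.2 hc) (sq_nonneg x)]
    have h3 : 0 ≤ Real.exp w * Real.exp (-(1 / 8) * x ^ 2) := by positivity
    nlinarith
  have e2 : |β| * Real.exp (-c * x ^ 2) ≤ |β| * (Real.exp w * Real.exp (-(1 / 8) * x ^ 2)) := by
    apply mul_le_mul_of_nonneg_left _ hβ
    rw [← Real.exp_add]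
    apply Real.exp_le_exp.2
    nlinarith [mul_nonneg (sub_nonneg.2 hc) (sq_nonneg x), sq_nonneg x]
  calc (⌊Real.exp s + β⌋₊ : ℝ) * Real.exp (-c * x ^ 2)
      ≤ (Real.exp s + |β|) * Real.exp (-c * x ^ 2) := by
        gcongr
        exact lip_N_le β s
    _ = Real.exp s * Real.exp (-c * x ^ 2) + |β| * Real.exp (-c * x ^ 2) := by ring
    _ ≤ _ := by linarith

private theorem lip_I1 (β w δ : ℝ) (hw : 1 ≤ w) (h0 : 0 ≤ δ) (h1 : δ ≤ 1) :
    Integrable (fun s : ℝ => ((⌊Real.exp (s + δ) + β⌋₊ : ℝ) - (⌊Real.exp s + β⌋₊ : ℝ)) * lip_F w (s + δ)) ∧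
    ∫ s : ℝ, ((⌊Real.exp (s + δ) + β⌋₊ : ℝ) - (⌊Real.exp s + β⌋₊ : ℝ)) * lip_F w (s + δ) ≤
      72 * (9 + |β|) * Real.exp w * δ := by
  have hβ := abs_nonneg β
  have hg := lip_gauss w (1 / 8) (by norm_num)
  have a1 : Integrable (fun s : ℝ => (⌊Real.exp s + β⌋₊ : ℝ) * lip_F w s) := by
    refine Integrable.mono' (hg.const_mul ((9 + |β|) * Real.exp w))
      ((lip_N_meas β).mul (lip_F_meas w)).aestronglyMeasurable ?_
    filter_upwards with s
    have hEp : 0 ≤ lip_F w s := (Real.exp_pos _).le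
    rw [Real.norm_eq_abs, abs_of_nonneg (mul_nonneg (Nat.cast_nonneg _) hEp)]
    exact lip_NE β w s (3 / 4) hw (by norm_num)
  have b0 : ∀ s, |(⌊Real.exp s + β⌋₊ : ℝ) * (lip_F w (s + δ) - lip_F w s)| ≤
      12 * δ * ((9 + |β|) * Real.exp w * Real.exp (-(1 / 8) * (s - w) ^ 2)) := by
    intro s
    rw [abs_mul, abs_of_nonneg (Nat.cast_nonneg _)]
    calc (⌊Real.exp s + β⌋₊ : ℝ) * |lip_F w (s + δ) - lip_F w s|
        ≤ (⌊Real.exp s + β⌋₊ : ℝ) * (12 * δ * Real.exp (-(1 / 4) * (s - w) ^ 2)) := by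
          gcongr
          exact lip_F_diff w s δ h0 h1
      _ = 12 * δ * ((⌊Real.exp s + β⌋₊ : ℝ) * Real.exp (-(1 / 4) * (s - w) ^ 2)) := by ring
      _ ≤ _ := by
          gcongr 12 * δ * ?_
          exact lip_NE β w s (1 / 4) hw le_rfl
  have a2 : Integrable (fun s : ℝ => (⌊Real.exp s + β⌋₊ : ℝ) * (lip_F w (s + δ) - lip_F w s)) := by
    refine Integrable.mono' ((hg.const_mul ((9 + |β|) * Real.exp w)).const_mul (12 * δ))
      ((lip_N_meas β).mul (((lip_F_meas w).comp (measurable_add_const δ)).sub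
        (lip_F_meas w))).aestronglyMeasurable ?_
    filter_upwards with s
    rw [Real.norm_eq_abs]
    exact b0 s
  have a3 : Integrable (fun s : ℝ => (⌊Real.exp (s + δ) + β⌋₊ : ℝ) * lip_F w (s + δ)) :=
    a1.comp_add_right δ
  have a4 : ∀ s : ℝ, ((⌊Real.exp (s + δ) + β⌋₊ : ℝ) - (⌊Real.exp s + β⌋₊ : ℝ)) * lip_F w (s + δ) =
      (⌊Real.exp (s + δ) + β⌋₊ : ℝ) * lip_F w (s + δ) - (⌊Real.exp s + β⌋₊ : ℝ) * lip_F w s -
        (⌊Real.exp s + β⌋₊ : ℝ) * (lip_F w (s + δ) - lip_F w s) := by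
    intro s
    ring
  simp_rw [a4]
  have a5 : Integrable (fun s : ℝ => (⌊Real.exp (s + δ) + β⌋₊ : ℝ) * lip_F w (s + δ) -
      (⌊Real.exp s + β⌋₊ : ℝ) * lip_F w s) := a3.sub a1
  refine ⟨a5.sub a2, ?_⟩
  rw [integral_sub a5 a2, integral_sub a3 a1,
    integral_add_right_eq_self (μ := (volume : Measure ℝ))
      (fun s : ℝ => (⌊Real.exp s + β⌋₊ : ℝ) * lip_F w s) δ, sub_self, zero_sub]
  refine (le_abs_self _).trans ?_
  rw [abs_neg, ← Real.norm_eq_abs]
  refine (norm_integral_le_integral_norm _).trans ?_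
  calc ∫ s : ℝ, ‖(⌊Real.exp s + β⌋₊ : ℝ) * (lip_F w (s + δ) - lip_F w s)‖
      ≤ ∫ s : ℝ, 12 * δ * ((9 + |β|) * Real.exp w * Real.exp (-(1 / 8) * (s - w) ^ 2)) := by
        apply integral_mono a2.norm ((hg.const_mul ((9 + |β|) * Real.exp w)).const_mul (12 * δ))
        intro s
        exact b0 s
    _ = 12 * δ * ((9 + |β|) * Real.exp w * √(Real.pi / (1 / 8))) := by
        rw [integral_const_mul, integral_const_mul,
          integral_sub_right_eq_self (μ := (volume : Measure ℝ))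
            (fun s : ℝ => Real.exp (-(1 / 8) * s ^ 2)) w, integral_gaussian]
    _ ≤ 12 * δ * ((9 + |β|) * Real.exp w * 6) := by
        gcongr
        rw [Real.sqrt_le_left (by norm_num)]
        have := Real.pi_lt_four
        linarith
    _ = _ := by ring

private theorem lip_D (β w δ : ℝ) (hw : 1 ≤ w) (h0 : 0 ≤ δ) (h1 : δ ≤ 1) :
    ∫ s : ℝ, |h β w (s + δ) - h β w s| ≤
      (4 + 2 * |β|) * w * ((713 + 72 * |β|) * Real.exp w * δ) := by
  have hβ := abs_nonneg β
  have hM : 0 ≤ (4 + 2 * |β|) * w := by positivity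
  obtain ⟨i1, i2⟩ := lip_I1 β w δ hw h0 h1
  have hg := lip_gauss w (1 / 4) (by norm_num)
  have c3 : Integrable ((Set.Ioc (w / 2 - δ) (w / 2)).indicator (fun _ => (1 : ℝ))) := by
    rw [integrable_indicator_iff measurableSet_Ioc]
    exact integrableOn_const (by simp)
  have d3 : ∫ s, (Set.Ioc (w / 2 - δ) (w / 2)).indicator (fun _ => (1 : ℝ)) s = δ := by
    rw [integral_indicator measurableSet_Ioc]
    simp [h0]
  obtain ⟨k1, k2⟩ := h_int β w hw
  have hL : Integrable (fun s => |h β w (s + δ) - h β w s|) :=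
    ((k1.comp_add_right δ).sub k1).norm
  have i3 : Integrable (fun s : ℝ => ((⌊Real.exp (s + δ) + β⌋₊ : ℝ) -
      (⌊Real.exp s + β⌋₊ : ℝ)) * lip_F w (s + δ) +
      16 * δ * Real.exp (-(1 / 4) * (s - w) ^ 2)) := i1.add (hg.const_mul (16 * δ))
  calc ∫ s : ℝ, |h β w (s + δ) - h β w s|
      ≤ ∫ s : ℝ, (4 + 2 * |β|) * w *
      (((⌊Real.exp (s + δ) + β⌋₊ : ℝ) - (⌊Real.exp s + β⌋₊ : ℝ)) * lip_F w (s + δ) +
        16 * δ * Real.exp (-(1 / 4) * (s - w) ^ 2) +
        (Set.Ioc (w / 2 - δ) (w / 2)).indicator (fun _ => (1 : ℝ)) s) := by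
        apply integral_mono hL
        · exact (i3.add c3).const_mul _
        · intro s
          exact lip_pt β w s δ hw h0 h1
    _ = (4 + 2 * |β|) * w *
      ((∫ s : ℝ, ((⌊Real.exp (s + δ) + β⌋₊ : ℝ) - (⌊Real.exp s + β⌋₊ : ℝ)) * lip_F w (s + δ)) +
        16 * δ * √(Real.pi / (1 / 4)) + δ) := by
        rw [integral_const_mul, integral_add i3 c3,
          integral_add i1 (hg.const_mul (16 * δ)), integral_const_mul,
          d3, integral_sub_right_eq_self (μ := (volume : Measure ℝ))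
            (fun s : ℝ => Real.exp (-(1 / 4) * s ^ 2)) w, integral_gaussian]
    _ ≤ (4 + 2 * |β|) * w *
      ((72 * (9 + |β|) * Real.exp w * δ) + 16 * δ * 4 * Real.exp w + δ * Real.exp w) := by
        have hs : √(Real.pi / (1 / 4)) ≤ 4 := by
          rw [Real.sqrt_le_left (by norm_num)]
          have := Real.pi_lt_four
          linarith
        have he : 1 ≤ Real.exp w := Real.one_le_exp (by linarith)
        have hh1 : 16 * δ * √(Real.pi / (1 / 4)) ≤ 16 * δ * 4 * Real.exp w := by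
          calc 16 * δ * √(Real.pi / (1 / 4)) ≤ 16 * δ * 4 * 1 := by
                rw [mul_one]
                gcongr
            _ ≤ _ := by gcongr
        have hh2 : δ ≤ δ * Real.exp w := by nlinarith
        gcongr
    _ = _ := by ring

private theorem lip_abs_int (β w : ℝ) (hw : 1 ≤ w) :
    ∫ s : ℝ, |h β w s| ≤ (4 + 2 * |β|) * w * 3 := by
  have hβ := abs_nonneg β
  obtain ⟨k1, _⟩ := h_int β w hw
  have hg := lip_gauss w (1 / 2) (by norm_num)
  calc ∫ s : ℝ, |h β w s| ≤ ∫ s : ℝ, (4 + 2 * |β|) * w * Real.exp (-(1 / 2) * (s - w) ^ 2) := by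
        apply integral_mono k1.norm (hg.const_mul _)
        intro s
        refine (AMC.h_abs β w s hw).trans (le_of_eq ?_)
        congr 2
        ring
    _ = (4 + 2 * |β|) * w * √(Real.pi / (1 / 2)) := by
        rw [integral_const_mul, integral_sub_right_eq_self (μ := (volume : Measure ℝ))
            (fun s : ℝ => Real.exp (-(1 / 2) * s ^ 2)) w, integral_gaussian]
    _ ≤ _ := by
        gcongr
        rw [Real.sqrt_le_left (by norm_num)]
        have := Real.pi_lt_four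
        linarith

private theorem lip_shift (β w : ℝ) (hw : 1 ≤ w) (r r' : ℝ) :
    ∫ s : ℝ, |h β w (s - r) - h β w (s - r')| ≤
      (4 + 2 * |β|) * w * ((713 + 72 * |β|) * Real.exp w * |r - r'|) := by
  have hβ := abs_nonneg β
  obtain ⟨k1, _⟩ := h_int β w hw
  have he : 1 ≤ Real.exp w := Real.one_le_exp (by linarith)
  have main : ∀ r r' : ℝ, r ≤ r' → ∫ s : ℝ, |h β w (s - r) - h β w (s - r')| ≤
      (4 + 2 * |β|) * w * ((713 + 72 * |β|) * Real.exp w * (r' - r)) := by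
    intro r r' hr
    rcases le_or_gt (r' - r) 1 with h1 | h1
    · have := lip_D β w (r' - r) hw (by linarith) h1
      refine le_trans (le_of_eq ?_) this
      have e := integral_sub_right_eq_self (μ := (volume : Measure ℝ))
        (fun s : ℝ => |h β w (s + (r' - r)) - h β w s|) r'
      rw [← e]
      apply integral_congr_ae
      filter_upwards with s
      congr 3
      ring
    · have a1 : Integrable (fun s => h β w (s - r)) := k1.comp_sub_right r
      have a2 : Integrable (fun s => h β w (s - r')) := k1.comp_sub_right r'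
      calc ∫ s : ℝ, |h β w (s - r) - h β w (s - r')|
          ≤ ∫ s : ℝ, (|h β w (s - r)| + |h β w (s - r')|) := by
            apply integral_mono (a1.sub a2).norm (a1.norm.add a2.norm)
            intro s
            exact abs_sub _ _
        _ = (∫ s : ℝ, |h β w s|) + ∫ s : ℝ, |h β w s| := by
            have e0 : ∫ s : ℝ, (|h β w (s - r)| + |h β w (s - r')|) =
                (∫ s : ℝ, |h β w (s - r)|) + ∫ s : ℝ, |h β w (s - r')| :=
              integral_add a1.norm a2.norm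
            rw [e0]
            congr 1
            · exact integral_sub_right_eq_self (μ := (volume : Measure ℝ)) (fun s : ℝ => |h β w s|) r
            · exact integral_sub_right_eq_self (μ := (volume : Measure ℝ)) (fun s : ℝ => |h β w s|) r'
        _ ≤ (4 + 2 * |β|) * w * 3 + (4 + 2 * |β|) * w * 3 :=
            add_le_add (lip_abs_int β w hw) (lip_abs_int β w hw)
        _ = (4 + 2 * |β|) * w * (6 * 1 * 1) := by ring
        _ ≤ _ := by
            gcongr
            linarith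
  rcases le_total r r' with hr | hr
  · rw [abs_sub_comm, abs_of_nonneg (sub_nonneg.2 hr)]
    exact main r r' hr
  · rw [abs_of_nonneg (sub_nonneg.2 hr)]
    refine le_trans (le_of_eq ?_) (main r' r hr)
    apply integral_congr_ae
    filter_upwards with s
    exact abs_sub_comm _ _

private theorem lip_hsup (β w s : ℝ) (hw : 1 ≤ w) : |h β w s| ≤ (4 + 2 * |β|) * w := by
  have hβ := abs_nonneg β
  refine (AMC.h_abs β w s hw).trans ?_
  have : Real.exp (-(s - w) ^ 2 / 2) ≤ 1 := by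
    rw [Real.exp_le_one_iff]
    nlinarith [sq_nonneg (s - w)]
  have h2 : 0 ≤ (4 + 2 * |β|) * w := by positivity
  nlinarith

private theorem lip_prod_int (β w : ℝ) (hw : 1 ≤ w) (r : ℝ) :
    Integrable (fun s : ℝ => h β w s * h β w (s - r)) := by
  obtain ⟨k1, _⟩ := h_int β w hw
  refine (k1.comp_sub_right r).bdd_mul (c := (4 + 2 * |β|) * w) k1.1 ?_
  filter_upwards with s
  exact lip_hsup β w s hw

private theorem lip_exp_norm (ξ s : ℝ) : ‖Complex.exp (ξ * s * Complex.I)‖ = 1 := by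
  have : (ξ : ℂ) * s * Complex.I = ((ξ * s : ℝ) : ℂ) * Complex.I := by push_cast; ring
  rw [this, Complex.norm_exp_ofReal_mul_I]

private theorem lip_cint (β w : ℝ) (hw : 1 ≤ w) (ξ r : ℝ) :
    Integrable (fun s : ℝ => Complex.exp (ξ * s * Complex.I) *
      ((h β w s * h β w (s - r) : ℝ) : ℂ)) := by
  refine (lip_prod_int β w hw r).ofReal.bdd_mul (c := 1) (by fun_prop) ?_
  filter_upwards with s
  rw [lip_exp_norm]

private theorem lip_HX (β w : ℝ) (hw : 1 ≤ w) (ξ r r' : ℝ) :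
    ‖HX β w ξ r - HX β w ξ r'‖ ≤
      ((4 + 2 * |β|) * w) * ((4 + 2 * |β|) * w * ((713 + 72 * |β|) * Real.exp w * |r - r'|)) := by
  have hβ := abs_nonneg β
  have hM : 0 ≤ (4 + 2 * |β|) * w := by positivity
  obtain ⟨k1, _⟩ := h_int β w hw
  unfold HX
  rw [← integral_sub (lip_cint β w hw ξ r) (lip_cint β w hw ξ r')]
  refine (norm_integral_le_integral_norm _).trans ?_
  have hi : Integrable (fun s => |h β w (s - r) - h β w (s - r')|) :=
    ((k1.comp_sub_right r).sub (k1.comp_sub_right r')).norm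
  calc ∫ s : ℝ, ‖Complex.exp (ξ * s * Complex.I) * ((h β w s * h β w (s - r) : ℝ) : ℂ) -
        Complex.exp (ξ * s * Complex.I) * ((h β w s * h β w (s - r') : ℝ) : ℂ)‖
      ≤ ∫ s : ℝ, ((4 + 2 * |β|) * w) * |h β w (s - r) - h β w (s - r')| := by
        apply integral_mono ((lip_cint β w hw ξ r).sub (lip_cint β w hw ξ r')).norm (hi.const_mul _)
        intro s
        show ‖Complex.exp (ξ * s * Complex.I) * ((h β w s * h β w (s - r) : ℝ) : ℂ) -
          Complex.exp (ξ * s * Complex.I) * ((h β w s * h β w (s - r') : ℝ) : ℂ)‖ ≤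
          ((4 + 2 * |β|) * w) * |h β w (s - r) - h β w (s - r')|
        rw [← mul_sub, norm_mul, lip_exp_norm, one_mul, ← Complex.ofReal_sub, Complex.norm_real,
          ← mul_sub, Real.norm_eq_abs, abs_mul]
        exact mul_le_mul_of_nonneg_right (lip_hsup β w s hw) (abs_nonneg _)
    _ = ((4 + 2 * |β|) * w) * ∫ s : ℝ, |h β w (s - r) - h β w (s - r')| := integral_const_mul _ _
    _ ≤ _ := mul_le_mul_of_nonneg_left (lip_shift β w hw r r') hM

private theorem lip_HXb (β w : ℝ) (hw : 1 ≤ w) (ξ r : ℝ) :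
    ‖HX β w ξ r‖ ≤ ∫ s : ℝ, |h β w s * h β w (s - r)| := by
  unfold HX
  refine (norm_integral_le_integral_norm _).trans (le_of_eq ?_)
  apply integral_congr_ae
  filter_upwards with s
  rw [norm_mul, lip_exp_norm, one_mul, Complex.norm_real, Real.norm_eq_abs]

private theorem lip_HXc (β w : ℝ) (hw : 1 ≤ w) (r : ℝ) : Continuous (fun ξ => HX β w ξ r) := by
  unfold HX
  refine continuous_of_dominated (bound := fun s => |h β w s * h β w (s - r)|) ?_ ?_ ?_ ?_
  · intro ξ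
    exact (lip_cint β w hw ξ r).1
  · intro ξ
    filter_upwards with s
    rw [norm_mul, lip_exp_norm, one_mul, Complex.norm_real, Real.norm_eq_abs]
  · exact (lip_prod_int β w hw r).norm
  · filter_upwards with s
    fun_prop

private theorem lip_Pint (β w : ℝ) (hw : 1 ≤ w) (r : ℝ) :
    Integrable (fun ξ : ℝ => Real.exp (-ξ ^ 2 / 8) * ‖HX β w ξ r‖) := by
  have hg : Integrable (fun ξ : ℝ => Real.exp (-ξ ^ 2 / 8)) := by
    have := integrable_exp_neg_mul_sq (show (0 : ℝ) < 1 / 8 by norm_num)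
    refine this.congr ?_
    filter_upwards with s
    congr 1
    ring
  refine Integrable.mono' (hg.mul_const (∫ s : ℝ, |h β w s * h β w (s - r)|)) ?_ ?_
  · apply Continuous.aestronglyMeasurable
    have := lip_HXc β w hw r
    fun_prop
  · filter_upwards with ξ
    rw [Real.norm_eq_abs, abs_of_nonneg (by positivity)]
    exact mul_le_mul_of_nonneg_left (lip_HXb β w hw ξ r) (Real.exp_pos _).le

theorem psi_lip (Γ : ℝ) : ∃ w0 : ℝ, 1 ≤ w0 ∧ ∀ w β : ℝ, w0 ≤ w → |β| ≤ Γ → ∀ r r' : ℝ,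
    |Psi β w r - Psi β w r'| ≤ w ^ 8 * Real.exp w * |r - r'| := by
  set g := |Γ| with hgdef
  have hg0 : 0 ≤ g := abs_nonneg _
  set K := 6 * ((4 + 2 * g) * ((4 + 2 * g) * (713 + 72 * g))) with hK
  have hK0 : 0 ≤ K := by positivity
  refine ⟨max 1 K, le_max_left _ _, ?_⟩
  intro w β hw hβ r r'
  have hw1 : 1 ≤ w := (le_max_left _ _).trans hw
  have hwK : K ≤ w := (le_max_right _ _).trans hw
  have hβ0 := abs_nonneg β
  have hβg : |β| ≤ g := hβ.trans (le_abs_self _)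
  have hgi : Integrable (fun ξ : ℝ => Real.exp (-ξ ^ 2 / 8)) := by
    have := integrable_exp_neg_mul_sq (show (0 : ℝ) < 1 / 8 by norm_num)
    refine this.congr ?_
    filter_upwards with s
    congr 1
    ring
  have hgv : ∫ ξ : ℝ, Real.exp (-ξ ^ 2 / 8) ≤ 6 := by
    have e : ∫ ξ : ℝ, Real.exp (-ξ ^ 2 / 8) = √(Real.pi / (1 / 8)) := by
      rw [← integral_gaussian]
      apply integral_congr_ae
      filter_upwards with s
      congr 1
      ring
    rw [e, Real.sqrt_le_left (by norm_num)]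
    have := Real.pi_lt_four
    linarith
  set L := ((4 + 2 * |β|) * w) * ((4 + 2 * |β|) * w * ((713 + 72 * |β|) * Real.exp w * |r - r'|)) with hL
  have hL0 : 0 ≤ L := by positivity
  have i1 := lip_Pint β w hw1 r
  have i2 := lip_Pint β w hw1 r'
  unfold Psi
  rw [← integral_sub i1 i2, ← Real.norm_eq_abs]
  refine (norm_integral_le_integral_norm _).trans ?_
  calc ∫ ξ : ℝ, ‖Real.exp (-ξ ^ 2 / 8) * ‖HX β w ξ r‖ - Real.exp (-ξ ^ 2 / 8) * ‖HX β w ξ r'‖‖
      ≤ ∫ ξ : ℝ, Real.exp (-ξ ^ 2 / 8) * L := by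
        apply integral_mono (i1.sub i2).norm (hgi.mul_const L)
        intro ξ
        show ‖Real.exp (-ξ ^ 2 / 8) * ‖HX β w ξ r‖ - Real.exp (-ξ ^ 2 / 8) * ‖HX β w ξ r'‖‖ ≤
          Real.exp (-ξ ^ 2 / 8) * L
        rw [← mul_sub, Real.norm_eq_abs, abs_mul, abs_of_pos (Real.exp_pos _)]
        apply mul_le_mul_of_nonneg_left _ (Real.exp_pos _).le
        exact (abs_norm_sub_norm_le _ _).trans (lip_HX β w hw1 ξ r r')
    _ = (∫ ξ : ℝ, Real.exp (-ξ ^ 2 / 8)) * L := integral_mul_const _ _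
    _ ≤ 6 * L := mul_le_mul_of_nonneg_right hgv hL0
    _ ≤ 6 * (((4 + 2 * g) * w) * ((4 + 2 * g) * w * ((713 + 72 * g) * Real.exp w * |r - r'|))) := by
        rw [hL]
        gcongr
    _ = K * w ^ 2 * (Real.exp w * |r - r'|) := by rw [hK]; ring
    _ ≤ w * w ^ 2 * (Real.exp w * |r - r'|) := by gcongr
    _ ≤ w ^ 8 * (Real.exp w * |r - r'|) := by
        have : w * w ^ 2 ≤ w ^ 8 := by
          calc w * w ^ 2 = w ^ 3 := by ring
            _ ≤ w ^ 8 := pow_le_pow_right₀ hw1 (by norm_num)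
        exact mul_le_mul_of_nonneg_right this (by positivity)
    _ = _ := by ring

end RLC
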