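import Pool.Agent.RLC.PsiM
import Pool.Agent.RLC.Lip

/-!
# RLC.BadC: few pairs of starting points have exceptional correlations

PROOF. `δ0` from `psi_meas Γ`, `δ = δ0/4`. `ρ = (log Y)²/Y`. `S = {r : w^(-A) ≤ Psi r}`, `S' = {r : w^(-A-1) ≤ Psi r}`,
`η0 = exp(-w) w^(-A-9)`. By `psi_lip`, for `r ∈ S` and `|r'-r| ≤ η0`: `Psi r' ≥ w^(-A) - w^(-A-1) ≥ w^(-A-1)` (`w ≥ 2`), so
`r' ∈ S'`. `volume S' ≤ exp(-δ0 w)` (`psi_meas` with `A+1`). For `q = (n,n') ∈ psiP`, with `x_q = log n - log n'`, the set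
`S' ∩ [x_q - 2ρ, x_q + 2ρ]` contains an interval of length `2η0` (`η0 ≤ ρ` for large `Y`). Hence
`2η0 · card ≤ ∑_q volume (S' ∩ [x_q-2ρ, x_q+2ρ]) = ∫_{S'} #{q : |x_q - r| ≤ 2ρ} dr ≤ volume S' · max`, and for given `r`, `n'` the
`n ∈ (Y, 2Y]` with `|log n - log n' - r| ≤ 2ρ` lie in an interval of length `≤ 2Y(1-exp(-4ρ)) ≤ 8Yρ`, so
`max ≤ Y (1 + 8Yρ) = Y(1 + 8 (log Y)²)`. So `card ≤ exp(-δ0 w) Y (1 + 8 (log Y)²) exp(w) w^(A+9)`, and
`exp((1-δ0) w) ≤ e Y^((1-δ0)(1+δ)) ≤ e Y^(1-2δ)`. (`S'` may be replaced by a measurable superset of the same measure,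
`toMeasurable`; `Psi` is continuous by `psi_lip` for large `w`, so `S'` is in fact closed.)
-/

namespace RLC

open MeasureTheory

/-- The number of the `n ∈ (Y, 2Y]` whose logarithms lie in an interval of length `2σ`. -/
private lemma BadC_count1 (Y : ℕ) (t σ : ℝ) (hσ : 0 ≤ σ) :
    (((Finset.Ioc Y (2 * Y)).filter fun n : ℕ => |Real.log n - t| ≤ σ).card : ℝ) ≤ 4 * Y * σ + 1 := by
  classical
  rcases ((Finset.Ioc Y (2 * Y)).filter fun n : ℕ => |Real.log n - t| ≤ σ).eq_empty_or_nonempty with h0 | hne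
  · rw [h0]
    simp only [Finset.card_empty, Nat.cast_zero]
    positivity
  · set F := (Finset.Ioc Y (2 * Y)).filter fun n : ℕ => |Real.log n - t| ≤ σ with hF
    obtain ⟨a, haF, hmin⟩ : ∃ a ∈ F, ∀ n ∈ F, a ≤ n := ⟨F.min' hne, F.min'_mem hne, fun n hn => F.min'_le n hn⟩
    have hsub : F ⊆ Finset.Icc a (a + ⌊4 * Y * σ⌋₊) := by
      intro n hn
      have h1 : a ≤ n := hmin n hn
      rw [Finset.mem_Icc]
      refine ⟨h1, ?_⟩
      have hn' := hn
      have ha' := haF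
      rw [hF, Finset.mem_filter, Finset.mem_Ioc] at hn' ha'
      obtain ⟨⟨hn1, hn2⟩, hn3⟩ := hn'
      obtain ⟨⟨ha1, ha2⟩, ha3⟩ := ha'
      have hnpos : (0 : ℝ) < n := by
        have : 0 < n := by omega
        exact_mod_cast this
      have hapos : (0 : ℝ) < a := by
        have : 0 < a := by omega
        exact_mod_cast this
      have hlog : ((n : ℝ) - a) / n ≤ Real.log n - Real.log a := by
        have h := Real.log_le_sub_one_of_pos (div_pos hapos hnpos)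
        rw [Real.log_div hapos.ne' hnpos.ne'] at h
        have h' : ((n : ℝ) - a) / n = 1 - a / n := by field_simp
        linarith
      have h2 : Real.log n - Real.log a ≤ 2 * σ := by
        have h5 := abs_le.mp hn3
        have h6 := abs_le.mp ha3
        linarith [h5.2, h6.1]
      have h3 : (n : ℝ) - a ≤ 4 * Y * σ := by
        have h7 : (n : ℝ) - a ≤ 2 * σ * n := by
          have := hlog.trans h2
          rwa [div_le_iff₀ hnpos] at this
        have hn4 : (n : ℝ) ≤ 2 * Y := by exact_mod_cast hn2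
        nlinarith
      have h4 : n - a ≤ ⌊4 * Y * σ⌋₊ := by
        apply Nat.le_floor
        rw [Nat.cast_sub h1]
        exact h3
      omega
    have hc := Finset.card_le_card hsub
    rw [Nat.card_Icc] at hc
    have h8 : (F.card : ℝ) ≤ (⌊4 * Y * σ⌋₊ : ℝ) + 1 := by
      have : F.card ≤ ⌊4 * Y * σ⌋₊ + 1 := by omega
      exact_mod_cast this
    have h9 := Nat.floor_le (show 0 ≤ 4 * (Y : ℝ) * σ by positivity)
    linarith

/-- The number of the pairs `(n, n')` with `log n - log n'` in an interval of length `2σ`. -/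
private lemma BadC_count2 (Y : ℕ) (s σ : ℝ) (hσ : 0 ≤ σ) :
    ((((Finset.Ioc Y (2 * Y)) ×ˢ (Finset.Ioc Y (2 * Y))).filter fun q : ℕ × ℕ =>
      |s - (Real.log q.1 - Real.log q.2)| ≤ σ).card : ℝ) ≤ Y * (4 * Y * σ + 1) := by
  classical
  rw [Finset.card_filter, Finset.sum_product_right]
  push_cast
  have h1 : ∀ m ∈ Finset.Ioc Y (2 * Y),
      (∑ n ∈ Finset.Ioc Y (2 * Y), if |s - (Real.log n - Real.log m)| ≤ σ then (1 : ℝ) else 0) ≤ 4 * Y * σ + 1 := by
    intro m _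
    have h2 := BadC_count1 Y (s + Real.log m) σ hσ
    rw [Finset.card_filter] at h2
    push_cast at h2
    refine le_trans (le_of_eq ?_) h2
    refine Finset.sum_congr rfl fun n _ => ?_
    have h3 : |s - (Real.log n - Real.log m)| = |Real.log n - (s + Real.log m)| := by
      rw [← abs_neg]
      congr 1
      ring
    rw [h3]
  refine (Finset.sum_le_sum h1).trans (le_of_eq ?_)
  rw [Finset.sum_const, Nat.card_Ioc, nsmul_eq_mul]
  have h4 : 2 * Y - Y = Y := by omega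
  rw [h4]

/-- Double counting. -/
private lemma BadC_sum (P : Finset (ℕ × ℕ)) (x : ℕ × ℕ → ℝ) (T : Set ℝ) (σ η N V : ℝ)
    (hN : 0 ≤ N) (hV : volume T ≤ ENNReal.ofReal V) (hV0 : 0 ≤ V)
    (h1 : ∀ q ∈ P, ∃ r, Set.Icc (r - η) (r + η) ⊆ {s : ℝ | |s - x q| ≤ σ} ∩ T)
    (h2 : ∀ s : ℝ, ((P.filter fun q => |s - x q| ≤ σ).card : ℝ) ≤ N) :
    P.card * (2 * η) ≤ N * V := by
  classical
  have hm : ∀ q, MeasurableSet {s : ℝ | |s - x q| ≤ σ} := fun q =>
    measurableSet_le (by fun_prop) measurable_const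
  have key : (P.card : ENNReal) * ENNReal.ofReal (2 * η) ≤ ENNReal.ofReal N * ENNReal.ofReal V := by
    calc (P.card : ENNReal) * ENNReal.ofReal (2 * η) = ∑ q ∈ P, ENNReal.ofReal (2 * η) := by
          rw [Finset.sum_const, nsmul_eq_mul]
      _ ≤ ∑ q ∈ P, ∫⁻ s in T, Set.indicator {s : ℝ | |s - x q| ≤ σ} (fun _ => (1 : ENNReal)) s := by
          refine Finset.sum_le_sum fun q hq => ?_
          obtain ⟨r, hr⟩ := h1 q hq
          rw [lintegral_indicator (hm q), setLIntegral_one, Measure.restrict_apply (hm q)]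
          refine le_trans (le_of_eq ?_) (measure_mono hr)
          rw [Real.volume_Icc]
          congr 1
          ring
      _ = ∫⁻ s in T, ∑ q ∈ P, Set.indicator {s : ℝ | |s - x q| ≤ σ} (fun _ => (1 : ENNReal)) s := by
          rw [lintegral_finsetSum]
          intro q _
          exact measurable_const.indicator (hm q)
      _ ≤ ∫⁻ s in T, ENNReal.ofReal N := by
          refine lintegral_mono fun s => ?_
          have h3 : ∑ q ∈ P, Set.indicator {s : ℝ | |s - x q| ≤ σ} (fun _ => (1 : ENNReal)) s =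
              (((P.filter fun q => |s - x q| ≤ σ).card : ℕ) : ENNReal) := by
            rw [Finset.card_filter]
            push_cast
            refine Finset.sum_congr rfl fun q _ => ?_
            simp only [Set.indicator_apply, Set.mem_ofPred_eq]
          simp only [h3]
          rw [← ENNReal.ofReal_natCast]
          exact ENNReal.ofReal_le_ofReal (h2 s)
      _ = ENNReal.ofReal N * volume T := by
          rw [setLIntegral_const]
      _ ≤ ENNReal.ofReal N * ENNReal.ofReal V := by gcongr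
  rw [← ENNReal.ofReal_natCast, ← ENNReal.ofReal_mul (Nat.cast_nonneg _), ← ENNReal.ofReal_mul hN,
    ENNReal.ofReal_le_ofReal_iff (mul_nonneg hN hV0)] at key
  exact key

/-- Powers of the logarithm are small. -/
private lemma BadC_ev (c δ K : ℝ) (hδ : 0 < δ) :
    ∀ᶠ Y : ℕ in Filter.atTop, K * Real.log Y ^ c ≤ (Y : ℝ) ^ δ := by
  have h1 : ∀ᶠ x : ℝ in Filter.atTop, ‖Real.log x ^ c‖ ≤ (1 / (|K| + 1)) * ‖x ^ δ‖ :=
    (isLittleO_log_rpow_rpow_atTop c hδ).def (by positivity)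
  have h2 : ∀ᶠ Y : ℕ in Filter.atTop, ‖Real.log (Y : ℝ) ^ c‖ ≤ (1 / (|K| + 1)) * ‖(Y : ℝ) ^ δ‖ :=
    tendsto_natCast_atTop_atTop.eventually h1
  filter_upwards [h2] with Y hY
  have h3 : (0 : ℝ) ≤ (Y : ℝ) ^ δ := Real.rpow_nonneg (Nat.cast_nonneg _) _
  rw [Real.norm_of_nonneg h3] at hY
  have h4 : K * Real.log Y ^ c ≤ |K| * ‖Real.log (Y : ℝ) ^ c‖ := by
    calc K * Real.log Y ^ c ≤ |K * Real.log Y ^ c| := le_abs_self _
      _ = |K| * ‖Real.log (Y : ℝ) ^ c‖ := by rw [abs_mul, Real.norm_eq_abs]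
  have h5 : |K| * ‖Real.log (Y : ℝ) ^ c‖ ≤ |K| * ((1 / (|K| + 1)) * (Y : ℝ) ^ δ) :=
    mul_le_mul_of_nonneg_left hY (abs_nonneg _)
  have h6 : |K| * ((1 / (|K| + 1)) * (Y : ℝ) ^ δ) ≤ (Y : ℝ) ^ δ := by
    have h7 : |K| * (1 / (|K| + 1)) ≤ 1 := by
      rw [mul_one_div, div_le_one (by positivity)]
      linarith
    calc |K| * ((1 / (|K| + 1)) * (Y : ℝ) ^ δ) = (|K| * (1 / (|K| + 1))) * (Y : ℝ) ^ δ := by ring
      _ ≤ 1 * (Y : ℝ) ^ δ := mul_le_mul_of_nonneg_right h7 h3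
      _ = (Y : ℝ) ^ δ := one_mul _
  linarith

theorem card_psiP (Γ A : ℝ) : ∃ δ : ℝ, 0 < δ ∧ δ ≤ 1 / 10 ∧ ∃ Y0 : ℕ, 3 ≤ Y0 ∧ ∀ Y : ℕ, Y0 ≤ Y → ∀ w β : ℝ,
    Real.log Y - 1 ≤ w → w ≤ (1 + δ) * Real.log Y + 1 → |β| ≤ Γ →
    ((psiP A β w Y).card : ℝ) ≤ (Y : ℝ) ^ (2 - δ) := by
  classical
  obtain ⟨δ0, hδ0, hδ01, hmeas⟩ := psi_meas Γ
  obtain ⟨w1, hw11, hlip⟩ := psi_lip Γ
  set B : ℝ := max A 0 with hB
  have hB0 : 0 ≤ B := le_max_right _ _
  have hAB : A ≤ B := le_max_left _ _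
  obtain ⟨w2, hw21, hvol⟩ := hmeas (B + 1)
  have hev : ∀ᶠ Y : ℕ in Filter.atTop, 3 ≤ Y ∧ w1 + w2 + 3 ≤ Real.log Y ∧
      (Real.exp 1 * 3 ^ (B + 11)) * Real.log Y ^ (B + 11) ≤ (Y : ℝ) ^ (2 * (δ0 / 4)) := by
    refine (Filter.eventually_ge_atTop 3).and (Filter.Eventually.and ?_ ?_)
    · exact (Real.tendsto_log_atTop.comp tendsto_natCast_atTop_atTop).eventually_ge_atTop _
    · exact BadC_ev _ _ _ (by positivity)
  obtain ⟨Y0, hY0⟩ := Filter.eventually_atTop.mp hev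
  refine ⟨δ0 / 4, by positivity, by linarith, max Y0 3, le_max_right _ _, ?_⟩
  intro Y hY w β hw1 hw2 hβ
  obtain ⟨hY3, hLbig, hpow⟩ := hY0 Y (le_trans (le_max_left _ _) hY)
  set L : ℝ := Real.log Y with hL
  set δ : ℝ := δ0 / 4 with hδ
  have hL3 : 5 ≤ L := by linarith
  have hYpos : (0 : ℝ) < Y := by
    have : 0 < Y := by omega
    exact_mod_cast this
  have hw2' : 2 ≤ w := by linarith
  have hwpos : 0 < w := by linarith
  have hδ1 : δ ≤ 1 / 40 := by rw [hδ]; linarith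
  have hδpos : 0 < δ := by rw [hδ]; positivity
  have hw3L : w ≤ 3 * L := by nlinarith
  have hvolS := hvol w β (by linarith) hβ
  set S' : Set ℝ := {r : ℝ | w ^ (-(B + 1)) ≤ Psi β w r} with hS'
  set ρ : ℝ := L ^ 2 / Y with hρ
  set η : ℝ := Real.exp (-w) * w ^ (-B - 9) with hη
  have hη0 : 0 < η := mul_pos (Real.exp_pos _) (Real.rpow_pos_of_pos hwpos _)
  have hρ0 : 0 < ρ := by rw [hρ]; positivity
  have hexpL : Real.exp L = Y := Real.exp_log hYpos
  have hηρ : η ≤ ρ := by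
    have h1 : w ^ (-B - 9) ≤ 1 := Real.rpow_le_one_of_one_le_of_nonpos (by linarith) (by linarith)
    have h2 : Real.exp (-w) ≤ Real.exp 1 / Y := by
      rw [← hexpL, ← Real.exp_sub]
      exact Real.exp_le_exp.mpr (by linarith)
    have h3 : Real.exp 1 ≤ L ^ 2 := by
      have := Real.exp_one_lt_d9
      nlinarith
    calc η ≤ Real.exp (-w) * 1 := mul_le_mul_of_nonneg_left h1 (Real.exp_pos _).le
      _ = Real.exp (-w) := mul_one _
      _ ≤ Real.exp 1 / Y := h2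
      _ ≤ L ^ 2 / Y := by gcongr
  -- the inclusion
  have hincl : ∀ q ∈ psiP A β w Y, ∃ r, Set.Icc (r - η) (r + η) ⊆
      {s : ℝ | |s - (Real.log q.1 - Real.log q.2)| ≤ 2 * ρ} ∩ toMeasurable volume S' := by
    intro q hq
    unfold psiP at hq
    rw [Finset.mem_filter] at hq
    obtain ⟨_, r, hr1, hr2⟩ := hq
    refine ⟨r, fun s hs => ⟨?_, subset_toMeasurable _ _ ?_⟩⟩
    · have h1 : |s - r| ≤ η := by
        rw [abs_le]
        constructor <;> linarith [hs.1, hs.2]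
      have h2 := abs_sub_le s r (Real.log q.1 - Real.log q.2)
      simp only [Set.mem_ofPred_eq]
      linarith
    · have h1 : |r - s| ≤ η := by
        rw [abs_le]
        constructor <;> linarith [hs.1, hs.2]
      have h2 := hlip w β (by linarith) hβ r s
      have h3 : w ^ 8 * Real.exp w * |r - s| ≤ w ^ (-(B + 1)) := by
        calc w ^ 8 * Real.exp w * |r - s| ≤ w ^ 8 * Real.exp w * η :=
              mul_le_mul_of_nonneg_left h1 (by positivity)
          _ = (w ^ (8 : ℝ) * w ^ (-B - 9)) * (Real.exp w * Real.exp (-w)) := by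
              rw [hη, show (w ^ 8 : ℝ) = w ^ (8 : ℝ) by norm_cast]
              ring
          _ = w ^ (-(B + 1)) := by
              rw [← Real.rpow_add hwpos, ← Real.exp_add, add_neg_cancel, Real.exp_zero, mul_one]
              congr 1
              ring
      have h4 : w ^ (-B) ≤ w ^ (-A) := Real.rpow_le_rpow_of_exponent_le (by linarith) (by linarith)
      have h5 : w ^ (-B) = w * w ^ (-(B + 1)) := by
        rw [show -B = 1 + (-(B + 1)) by ring, Real.rpow_add hwpos, Real.rpow_one]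
      have h6 : 0 < w ^ (-(B + 1)) := Real.rpow_pos_of_pos hwpos _
      have h7 := le_abs_self (Psi β w r - Psi β w s)
      rw [hS', Set.mem_ofPred_eq]
      nlinarith
  have hcount : ∀ s : ℝ, (((psiP A β w Y).filter fun q : ℕ × ℕ =>
      |s - (Real.log q.1 - Real.log q.2)| ≤ 2 * ρ).card : ℝ) ≤ Y * (4 * Y * (2 * ρ) + 1) := by
    intro s
    refine le_trans ?_ (BadC_count2 Y s (2 * ρ) (by positivity))
    have : (psiP A β w Y).filter (fun q : ℕ × ℕ => |s - (Real.log q.1 - Real.log q.2)| ≤ 2 * ρ) ⊆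
        ((Finset.Ioc Y (2 * Y)) ×ˢ (Finset.Ioc Y (2 * Y))).filter
          (fun q : ℕ × ℕ => |s - (Real.log q.1 - Real.log q.2)| ≤ 2 * ρ) := by
      unfold psiP
      exact Finset.filter_subset_filter _ (Finset.filter_subset _ _)
    exact_mod_cast Finset.card_le_card this
  have hmain := BadC_sum (psiP A β w Y) (fun q => Real.log q.1 - Real.log q.2) (toMeasurable volume S')
    (2 * ρ) η (Y * (4 * Y * (2 * ρ) + 1)) (Real.exp (-δ0 * w)) (by positivity)
    (by rw [measure_toMeasurable]; exact hvolS) (Real.exp_pos _).le hincl hcount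
  -- arithmetic
  have hYρ : (Y : ℝ) * ρ = L ^ 2 := by rw [hρ]; field_simp
  have hN : (Y : ℝ) * (4 * Y * (2 * ρ) + 1) ≤ Y * (9 * L ^ 2) := by
    have h1 : 4 * (Y : ℝ) * (2 * ρ) = 8 * L ^ 2 := by rw [← hYρ]; ring
    rw [h1]
    have h2 : 8 * L ^ 2 + 1 ≤ 9 * L ^ 2 := by nlinarith
    exact mul_le_mul_of_nonneg_left h2 hYpos.le
  set C : ℝ := ((psiP A β w Y).card : ℝ) with hC
  have hC0 : 0 ≤ C := Nat.cast_nonneg _
  have h10 : C * η ≤ Y * (9 * L ^ 2) * Real.exp (-δ0 * w) := by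
    have h1 : Y * (4 * Y * (2 * ρ) + 1) * Real.exp (-δ0 * w) ≤ Y * (9 * L ^ 2) * Real.exp (-δ0 * w) :=
      mul_le_mul_of_nonneg_right hN (Real.exp_pos _).le
    have h2 : 0 ≤ C * η := mul_nonneg hC0 hη0.le
    nlinarith
  have hηinv : η * (Real.exp w * w ^ (B + 9)) = 1 := by
    rw [hη]
    calc Real.exp (-w) * w ^ (-B - 9) * (Real.exp w * w ^ (B + 9))
        = (Real.exp (-w) * Real.exp w) * (w ^ (-B - 9) * w ^ (B + 9)) := by ring
      _ = 1 := by
          rw [← Real.rpow_add hwpos, ← Real.exp_add, neg_add_cancel, Real.exp_zero,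
            show -B - 9 + (B + 9) = (0 : ℝ) by ring, Real.rpow_zero, mul_one]
  have h11 : C ≤ Y * (9 * L ^ 2) * (Real.exp ((1 - δ0) * w) * w ^ (B + 9)) := by
    have h1 : 0 ≤ Real.exp w * w ^ (B + 9) := mul_nonneg (Real.exp_pos _).le (Real.rpow_nonneg hwpos.le _)
    calc C = C * η * (Real.exp w * w ^ (B + 9)) := by rw [mul_assoc, hηinv, mul_one]
      _ ≤ Y * (9 * L ^ 2) * Real.exp (-δ0 * w) * (Real.exp w * w ^ (B + 9)) :=
          mul_le_mul_of_nonneg_right h10 h1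
      _ = Y * (9 * L ^ 2) * ((Real.exp (-δ0 * w) * Real.exp w) * w ^ (B + 9)) := by ring
      _ = Y * (9 * L ^ 2) * (Real.exp ((1 - δ0) * w) * w ^ (B + 9)) := by
          rw [← Real.exp_add]
          congr 4
          ring
  have h12 : Real.exp ((1 - δ0) * w) ≤ Real.exp 1 * (Y : ℝ) ^ (1 - 3 * δ) := by
    rw [Real.rpow_def_of_pos hYpos, ← hL, ← Real.exp_add]
    apply Real.exp_le_exp.mpr
    have h1 : (1 - δ0) * w ≤ (1 - δ0) * ((1 + δ) * L + 1) :=
      mul_le_mul_of_nonneg_left hw2 (by linarith)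
    have h2 : δ0 = 4 * δ := by rw [hδ]; ring
    rw [h2] at h1
    rw [h2]
    nlinarith [mul_nonneg hδpos.le hδpos.le, mul_nonneg (mul_nonneg hδpos.le hδpos.le) (show (0 : ℝ) ≤ L by linarith)]
  have h13 : w ^ (B + 9) ≤ (3 * L) ^ (B + 9) := Real.rpow_le_rpow hwpos.le hw3L (by linarith)
  have h3L : (0 : ℝ) < 3 * L := by linarith
  have h14 : (9 * L ^ 2) * (3 * L) ^ (B + 9) = 3 ^ (B + 11) * L ^ (B + 11) := by
    have h15 : (3 * L) ^ (2 : ℝ) = 9 * L ^ 2 := by
      rw [show (2 : ℝ) = ((2 : ℕ) : ℝ) by norm_num, Real.rpow_natCast]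
      ring
    rw [← Real.mul_rpow (by norm_num) (by linarith), ← h15, ← Real.rpow_add h3L]
    congr 1
    ring
  calc C ≤ Y * (9 * L ^ 2) * (Real.exp ((1 - δ0) * w) * w ^ (B + 9)) := h11
    _ ≤ Y * (9 * L ^ 2) * ((Real.exp 1 * (Y : ℝ) ^ (1 - 3 * δ)) * (3 * L) ^ (B + 9)) := by
        refine mul_le_mul_of_nonneg_left ?_ (by positivity)
        exact mul_le_mul h12 h13 (Real.rpow_nonneg hwpos.le _)
          (mul_nonneg (Real.exp_pos _).le (Real.rpow_nonneg hYpos.le _))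
    _ = (Real.exp 1 * ((9 * L ^ 2) * (3 * L) ^ (B + 9))) * (Y * (Y : ℝ) ^ (1 - 3 * δ)) := by ring
    _ = (Real.exp 1 * 3 ^ (B + 11) * L ^ (B + 11)) * (Y * (Y : ℝ) ^ (1 - 3 * δ)) := by
        rw [h14]
        ring
    _ ≤ (Y : ℝ) ^ (2 * δ) * (Y * (Y : ℝ) ^ (1 - 3 * δ)) :=
        mul_le_mul_of_nonneg_right hpow (mul_nonneg hYpos.le (Real.rpow_nonneg hYpos.le _))
    _ = (Y : ℝ) ^ (2 * δ) * ((Y : ℝ) ^ (1 : ℝ) * (Y : ℝ) ^ (1 - 3 * δ)) := by rw [Real.rpow_one]
    _ = (Y : ℝ) ^ (2 - δ) := by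
        rw [← Real.rpow_add hYpos, ← Real.rpow_add hYpos]
        congr 1
        ring

end RLC
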