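import Pool.Agent.ASI.T4Eq
import Pool.Agent.AMC.TailH
import Pool.Agent.MCC.Basic

/-!
# RLC: chains of primes under random maps, up to the longest ones.  Definitions

`a 0, a 1, ...` are independent random reals in `[1, v]`, the law of `a n` has a density at most `D n`, where
`D n = n^(o(1))` (for instance `a n` uniform in `[2, 2 + 1/log(n+3)]`); `β 0, β 1, ...` are
fixed reals with `|β i| ≤ Γ`. The chain of `n` is `MCC.chain a β n`: `c 0 = n`, `c (i+1) = ⌊a i * c i + β i⌋`. THEOREM: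
almost surely, for every `ε > 0` and all large `X`: uniformly for `1 ≤ k ≤ (1-ε) log X/log log X` the number of the primes
`p ≤ X` which start a chain of exact length `k` is asymptotic to `X / ∏_{i<k} log(a 0 ⋯ a (i-1) X)`, and there is no
such `p` for `k > (1+ε) log X/log log X`.

METHOD: second moments. `w_j(n) = ∏_{i≤j} θ(c i)` (`θ = log` on the primes, `0` elsewhere), `W_j = ∑_{n ∈ I} w_j(n)`,
`I ⊆ (Y, 2Y]`. `W_{j+1} - W_j = ∑ w_j(n) (θ(⌊a_j c_j + β_j⌋) - 1)`, and its mean square is at most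
`C ∑_{n,n'} E w_j(n) w_j(n') K(c_j, c_j')` with a correlation function `K` of the primes (`KK` below). For all pairs
`(n, n')` with the exception of `Y^(2-δ)` ones `K` is at most `(log Y)^(-A)`: this needs information on the large values
of the Fourier transform of the primes (`hh_lv`): the transform `hh` of `h` has a large part which is small in
`L²`, the rest is at most `exp(-δw)`. For exceptional pairs in general position (`Gen`) the sieve gives `K ≤ C` and
`E w_j w_j' ≤ C^j (log Y)²`; there are at most `Y^(1+7η)` pairs which are not in general position, and for those the trivial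
bound `E w_j w_j' ≤ C^j (log X)^(j+2) ≤ Y^(1-ε+o(1))` is sufficient.
-/

namespace RLC

open MeasureTheory ArithmeticFunction

/-- `∑ Λ(n) n^(-1-iτ) exp(-(log n-w)²/2)` minus its main term. -/
noncomputable def D1 (w τ : ℝ) : ℂ :=
  VKZ.gs (fun n => vonMangoldt n) w τ -
    Real.sqrt (2 * Real.pi) * Real.exp (-τ ^ 2 / 2) * Complex.exp (-(τ * w * Complex.I))

/-- `∑ Λ(n) n^(-1-iτ) exp(-(log n-L)²/8)` minus its main term. -/
noncomputable def DP (L τ : ℝ) : ℂ := ASI.P L τ - ASI.mainT L τ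

/-- A Dirichlet polynomial with a Gaussian weight (`ASI.As`, `ASI.Bs` are of this form). -/
noncomputable def gse (e : ℕ → ℝ) (c τ : ℝ) : ℂ :=
  ∑' n : ℕ, ((e n : ℝ) : ℂ) * ASI.np n τ * (Real.exp (-(Real.log n - c) ^ 2 / 4) : ℝ)

/-- The kernel of the transfers. -/
noncomputable def Wk (ξ : ℝ) : ℝ := (1 + (2 * Real.pi * ξ) ^ 2) ^ (-(3 / 4) : ℝ)

/-- The correlation of `h` with the phase `exp(iξs)`. -/
noncomputable def HX (β w ξ r : ℝ) : ℂ :=
  ∫ s : ℝ, Complex.exp (ξ * s * Complex.I) * ((AMC.h β w s * AMC.h β w (s - r) : ℝ) : ℂ)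

/-- The majorant of the correlations. -/
noncomputable def Psi (β w r : ℝ) : ℝ := ∫ ξ : ℝ, Real.exp (-ξ ^ 2 / 8) * ‖HX β w ξ r‖

/-- `Λ(⌊e^s + β⌋) - 1` for `s > w/2`. -/
noncomputable def Gt (β w s : ℝ) : ℝ := if w / 2 < s then AMC.G β s else 0

/-- The correlation of the primes near `exp(s + x)` and `exp(s + x')`. -/
noncomputable def KK (β w x x' : ℝ) : ℝ :=
  ∫ s : ℝ, Real.exp (-4 * s ^ 2) * (Gt β w (s + x) * Gt β w (s + x'))

/-- The pair `c`, `c'` is in general position at the scale `exp w`. -/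
def Gen (η w : ℝ) (c c' : ℕ) : Prop :=
  ∀ u v : ℕ, 1 ≤ u → 1 ≤ v → (u : ℝ) ≤ Real.exp (η * w) → (v : ℝ) ≤ Real.exp (η * w) →
    Real.exp (η * w) ≤ |(u : ℝ) * c - (v : ℝ) * c'|

/-- The pair of starting points `n`, `n'` in `(Y, 2Y]` is in general position. -/
def GenY (η : ℝ) (Y n n' : ℕ) : Prop :=
  ∀ u v : ℕ, 1 ≤ u → 1 ≤ v → (u : ℝ) ≤ (Y : ℝ) ^ (2 * η) → (v : ℝ) ≤ (Y : ℝ) ^ (2 * η) →
    (Y : ℝ) ^ (2 * η) ≤ |(u : ℝ) * n - (v : ℝ) * n'|

/-- `log p` for primes, `0` otherwise. -/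
noncomputable def th (n : ℕ) : ℝ := if n.Prime then Real.log n else 0

/-- `∏_{i≤j} θ(c i)`. -/
noncomputable def wt (β : ℕ → ℝ) (n j : ℕ) (a : ℕ → ℝ) : ℝ :=
  ∏ i ∈ Finset.range (j + 1), th (MCC.chain a β n i)

/-- `a 0 ⋯ a (i-1)`. -/
noncomputable def pa (a : ℕ → ℝ) (i : ℕ) : ℝ := ∏ j ∈ Finset.range i, a j

/-- The logarithmic scale of the `j`-th members of the chains of the `n ∈ (Y, 2Y]`. -/
noncomputable def ww (a : ℕ → ℝ) (Y j : ℕ) : ℝ := (⌊Real.log (pa a j * Y)⌋₊ : ℝ)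

/-- The laws of the multipliers: values in `[1, v]`, the density of the `n`-th one is at most `D n`. -/
structure Law (v : ℝ) (D : ℕ → ℝ) (μ : ℕ → Measure ℝ) : Prop where
  prob : ∀ n, IsProbabilityMeasure (μ n)
  le : ∀ n, ∀ s : Set ℝ, MeasurableSet s → μ n s ≤ ENNReal.ofReal (D n) * volume (s ∩ Set.Icc 1 v)

/-- `1 ≤ D n = n^(o(1))`. -/
structure Slow (D : ℕ → ℝ) : Prop where
  one_le : ∀ n, 1 ≤ D n
  slow : ∀ δ : ℝ, 0 < δ → ∃ C : ℝ, ∀ n : ℕ, D n ≤ C * ((n : ℝ) + 1) ^ δ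

open Classical in
/-- The weight of a pair in the one step inequality. -/
noncomputable def bad (η A β w : ℝ) (c c' : ℕ) : ℝ :=
  (if w ^ (-A) ≤ Psi β w (Real.log c - Real.log c') then 1 else 0) + (if Gen η w c c' then 0 else w ^ 2)

open Classical in
/-- The pairs of starting points with exceptional correlations. -/
noncomputable def psiP (A β w : ℝ) (Y : ℕ) : Finset (ℕ × ℕ) :=
  ((Finset.Ioc Y (2 * Y)) ×ˢ (Finset.Ioc Y (2 * Y))).filter fun q =>
    ∃ r : ℝ, |r - (Real.log q.1 - Real.log q.2)| ≤ Real.log Y ^ 2 / Y ∧ w ^ (-A) ≤ Psi β w r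

open Classical in
/-- The pairs of starting points which are not in general position. -/
noncomputable def resP (η : ℝ) (Y : ℕ) : Finset (ℕ × ℕ) :=
  ((Finset.Ioc Y (2 * Y)) ×ˢ (Finset.Ioc Y (2 * Y))).filter fun q => ¬ GenY η Y q.1 q.2

open Classical in
/-- The number of the `n ∈ S` for which the first `k` members of the chain are primes. -/
noncomputable def cnt (a β : ℕ → ℝ) (k : ℕ) (S : Finset ℕ) : ℕ :=
  (S.filter fun n => ∀ i < k, (MCC.chain a β n i).Prime).card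

/-- `∏_{i<k} log(a 0 ⋯ a (i-1) x)`. -/
noncomputable def PP (a : ℕ → ℝ) (k : ℕ) (x : ℝ) : ℝ := ∏ i ∈ Finset.range k, Real.log (pa a i * x)

/-- The windows. -/
noncomputable def win (M m : ℕ) : ℕ := ⌊(1 + 1 / (M : ℝ)) ^ m⌋₊

/-- What we know almost surely about the multipliers. -/
structure Good (v Γ : ℝ) (a β : ℕ → ℝ) : Prop where
  mem : ∀ i, a i ∈ Set.Icc 1 v
  bd : ∀ i, |β i| ≤ Γ
  var : ∀ ε : ℝ, 0 < ε → ε < 1 → ∀ M : ℕ, 1 ≤ M → ∀ᶠ m : ℕ in Filter.atTop, ∀ j : ℕ,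
    ((j : ℝ) + 1 ≤ (1 - ε) * (Real.log (win M m) / Real.log (Real.log (win M m)))) →
    |∑ n ∈ Finset.Ioc (win M m) (win M (m + 1)), (wt β n j a - wt β n 0 a)| ≤
      (win M m : ℝ) / Real.log (win M m)

end RLC
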