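import Pool.Agent.RLC.Defs

/-!
# RLC.EquiR: joint distribution modulo small numbers, real coefficients, weak general position

PROOF. Copy `Pool/Agent/MCC/Equi.lean` (private lemmas `Equi_upper`, `Equi_count`, `Equi_dvd`, `Equi_Good`, `Equi_one`,
`Equi_two`, `Equi_vol`, `equi`) with REAL `m`, `m'` and `a = 1`, `b = 3`: `m`, `m'` are only used through divisions such as
`d/m`, so nothing changes. In the last part take `n = ⌊m^(1-η/2)⌋₊` in place of `⌊X^(6η)⌋₊`: Dirichlet gives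
`|θ - r/q| ≤ 1/((n+1) q)`, `1 ≤ q ≤ n`, for `θ = d m'/(e m)`. If `q < m^(η/2)`, then
`|q d m' - r e m| ≤ e m/(n+1) ≤ m^(η/16) m / m^(1-η/2) = m^(9η/16)`. `r ≥ 1`: otherwise
`m/κ ≤ q d m' ≤ m^(9η/16)`, impossible for large `m`. `v = q d ≤ m^(9η/16) ≤ m^η`, `u = r e ≤ (q d κ + 1) e ≤ m^η` (more
precisely `r e ≤ q d m'/m + e/(n+1)·...`; any bound `≤ m^η` will do: `r e m ≤ q d m' + m^(9η/16) ≤ q d κ m + m`), so `hNE` gives
`m^η ≤ |u m - v m'| ≤ m^(9η/16)`, impossible. So `q ≥ m^(η/2)`, and the errors `3(b-a)/q`, `q d/m + d/m ≤ 2 m^(-7η/16)` are at most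
`m^(-η/5)/3` for large `m`.
-/

namespace RLC

open MeasureTheory Filter

private theorem EquiR_upper {θ : ℝ} {q : ℕ} (hq : 0 < q) {r : ℤ} (hc : IsCoprime (q : ℤ) r)
    (hθ : |θ - r / q| ≤ 1 / (q : ℝ) ^ 2) (z lam : ℝ) (h0 : 0 ≤ lam) :
    (((Finset.range q).filter fun j : ℕ => Int.fract (z + j * θ) < lam).card : ℝ) ≤
      q * lam + 3 := by
  have hq' : (0 : ℝ) < q := by exact_mod_cast hq
  set A := (Finset.range q).filter fun j : ℕ => Int.fract (z + j * θ) < lam with hA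
  have hinj : Set.InjOn (fun j : ℕ => (j : ℤ) * r - q * ⌊z + j * θ⌋) (A : Set ℕ) := by
    intro i hi j hj hij
    have hi' : i < q := Finset.mem_range.1 (Finset.mem_filter.1 (Finset.mem_coe.1 hi)).1
    have hj' : j < q := Finset.mem_range.1 (Finset.mem_filter.1 (Finset.mem_coe.1 hj)).1
    have hij' : (i : ℤ) * r - q * ⌊z + i * θ⌋ = (j : ℤ) * r - q * ⌊z + j * θ⌋ := hij
    have h1 : (q : ℤ) ∣ ((i : ℤ) - j) * r :=
      ⟨⌊z + i * θ⌋ - ⌊z + j * θ⌋, by linear_combination hij'⟩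
    have h2 : (q : ℤ) ∣ (i : ℤ) - j := hc.dvd_of_dvd_mul_right h1
    have h3 : |(i : ℤ) - j| < q := by
      rw [abs_lt]
      constructor <;> omega
    have h4 := Int.eq_zero_of_abs_lt_dvd h2 h3
    omega
  have hsub : A.image (fun j : ℕ => (j : ℤ) * r - q * ⌊z + j * θ⌋) ⊆
      Finset.Icc (⌊-(q * z) - 1⌋ + 1) (⌈q * lam - q * z + 1⌉ - 1) := by
    intro n hn
    obtain ⟨j, hj, rfl⟩ := Finset.mem_image.1 hn
    have hj1 : j < q := Finset.mem_range.1 (Finset.mem_filter.1 hj).1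
    have hj2 : Int.fract (z + j * θ) < lam := (Finset.mem_filter.1 hj).2
    have hj3 : 0 ≤ Int.fract (z + j * θ) := Int.fract_nonneg _
    have hjr : (j : ℝ) < q := by exact_mod_cast hj1
    have hj0 : (0 : ℝ) ≤ j := Nat.cast_nonneg j
    have e1 : (((j : ℤ) * r - q * ⌊z + j * θ⌋ : ℤ) : ℝ) =
        q * Int.fract (z + j * θ) - q * z - q * j * (θ - r / q) := by
      push_cast
      rw [← Int.self_sub_floor (z + j * θ)]
      field_simp
      ring
    have e2 : |q * j * (θ - r / q)| < 1 := by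
      rw [abs_mul, abs_of_nonneg (by positivity)]
      calc (q : ℝ) * j * |θ - r / q| ≤ q * j * (1 / (q : ℝ) ^ 2) :=
            mul_le_mul_of_nonneg_left hθ (by positivity)
        _ = j / q := by field_simp
        _ < 1 := (div_lt_one hq').2 hjr
    rw [abs_lt] at e2
    have e3 : (q : ℝ) * Int.fract (z + j * θ) < q * lam := mul_lt_mul_of_pos_left hj2 hq'
    have e4 : 0 ≤ (q : ℝ) * Int.fract (z + j * θ) := by positivity
    rw [Finset.mem_Icc]
    constructor
    · have : ⌊-(q * z) - 1⌋ < (j : ℤ) * r - q * ⌊z + j * θ⌋ := by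
        rw [Int.floor_lt, e1]
        linarith [e2.2]
      omega
    · have : (j : ℤ) * r - q * ⌊z + j * θ⌋ < ⌈q * lam - q * z + 1⌉ := by
        rw [Int.lt_ceil, e1]
        linarith [e2.1]
      omega
  have hcard : A.card ≤ (Finset.Icc (⌊-(q * z) - 1⌋ + 1) (⌈q * lam - q * z + 1⌉ - 1)).card := by
    rw [← Finset.card_image_of_injOn hinj]
    exact Finset.card_le_card hsub
  rw [Int.card_Icc] at hcard
  have h1 : (A.card : ℝ) ≤
      (((⌈q * lam - q * z + 1⌉ - 1 + 1 - (⌊-(q * z) - 1⌋ + 1)).toNat : ℕ) : ℝ) := by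
    exact_mod_cast hcard
  refine h1.trans ?_
  have h2 := Int.ceil_lt_add_one (q * lam - q * z + 1)
  have h3 := Int.sub_one_lt_floor (-(q * z) - 1)
  have h4 : (0 : ℝ) ≤ q * lam + 3 := by positivity
  rcases le_total 0 (⌈q * lam - q * z + 1⌉ - 1 + 1 - (⌊-(q * z) - 1⌋ + 1)) with h5 | h5
  · have h6 : (((⌈q * lam - q * z + 1⌉ - 1 + 1 - (⌊-(q * z) - 1⌋ + 1)).toNat : ℕ) : ℝ) =
        ((⌈q * lam - q * z + 1⌉ - 1 + 1 - (⌊-(q * z) - 1⌋ + 1) : ℤ) : ℝ) := by
      have := Int.toNat_of_nonneg h5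
      exact_mod_cast congrArg (fun x : ℤ => (x : ℝ)) this
    rw [h6]
    push_cast
    linarith
  · rw [Int.toNat_of_nonpos h5]
    simpa using h4

private theorem EquiR_count {θ : ℝ} {q : ℕ} (hq : 0 < q) {r : ℤ} (hc : IsCoprime (q : ℤ) r)
    (hθ : |θ - r / q| ≤ 1 / (q : ℝ) ^ 2) (z lam : ℝ) (h0 : 0 ≤ lam) (h1 : lam ≤ 1) :
    |(((Finset.range q).filter fun j : ℕ => Int.fract (z + j * θ) < lam).card : ℝ) -
      q * lam| ≤ 3 := by
  have hu := EquiR_upper hq hc hθ z lam h0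
  have hl := EquiR_upper hq hc hθ (z - lam) (1 - lam) (by linarith)
  have hsum := Finset.card_filter_add_card_filter_not (s := Finset.range q)
    (fun j : ℕ => Int.fract (z + j * θ) < lam)
  have hsub : ((Finset.range q).filter fun j : ℕ => ¬ Int.fract (z + j * θ) < lam).card ≤
      ((Finset.range q).filter fun j : ℕ => Int.fract (z - lam + j * θ) < 1 - lam).card := by
    refine Finset.card_le_card ?_
    intro j hj
    rw [Finset.mem_filter] at hj ⊢
    refine ⟨hj.1, ?_⟩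
    have h2 := not_lt.1 hj.2
    have h3 := Int.fract_lt_one (z + j * θ)
    have h4 : Int.fract (z - lam + j * θ) = Int.fract (z + j * θ) - lam := by
      rw [Int.fract_eq_iff]
      refine ⟨by linarith, by linarith, ⌊z + j * θ⌋, ?_⟩
      rw [← Int.self_sub_floor (z + j * θ)]
      ring
    rw [h4]
    linarith
  rw [Finset.card_range] at hsum
  have hsum' : (((Finset.range q).filter fun j : ℕ => Int.fract (z + j * θ) < lam).card : ℝ) +
      (((Finset.range q).filter fun j : ℕ => ¬ Int.fract (z + j * θ) < lam).card : ℝ) = q := by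
    exact_mod_cast hsum
  have hsub' : (((Finset.range q).filter fun j : ℕ => ¬ Int.fract (z + j * θ) < lam).card : ℝ) ≤
      (((Finset.range q).filter fun j : ℕ => Int.fract (z - lam + j * θ) < 1 - lam).card : ℝ) := by
    exact_mod_cast hsub
  rw [abs_le]
  constructor
  · have : (q : ℝ) * (1 - lam) = q - q * lam := by ring
    linarith
  · linarith

private theorem EquiR_dvd {e : ℕ} (he : 1 ≤ e) (y : ℝ) :
    (e : ℤ) ∣ ⌊y⌋ ↔ Int.fract (y / e) < 1 / e := by
  have he' : (0 : ℝ) < e := by exact_mod_cast he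
  have he1 : (1 : ℝ) ≤ e := by exact_mod_cast he
  constructor
  · rintro ⟨k, hk⟩
    have h1 : (⌊y⌋ : ℝ) = e * k := by rw [hk]; push_cast; ring
    have h2 := Int.floor_le y
    have h3 := Int.lt_floor_add_one y
    rw [h1] at h2 h3
    have h4 : Int.fract (y / e) = y / e - k := by
      rw [Int.fract_eq_iff]
      refine ⟨?_, ?_, k, by ring⟩
      · rw [sub_nonneg, le_div_iff₀ he']
        linarith
      · rw [sub_lt_iff_lt_add, div_lt_iff₀ he']
        nlinarith
    rw [h4, sub_lt_iff_lt_add, div_lt_iff₀ he', add_mul, one_div_mul_cancel he'.ne']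
    linarith
  · intro h
    refine ⟨⌊y / e⌋, ?_⟩
    rw [← Int.self_sub_floor, sub_lt_iff_lt_add, div_lt_iff₀ he', add_mul,
      one_div_mul_cancel he'.ne'] at h
    have h2 := Int.floor_le (y / e)
    rw [le_div_iff₀ he'] at h2
    rw [Int.floor_eq_iff]
    push_cast
    constructor
    · linarith
    · linarith

/-- measurable functions with values in `[0, 1]` -/
private structure EquiR_Good (h : ℝ → ℝ) : Prop where
  meas : Measurable h
  lo : ∀ t, 0 ≤ h t
  up : ∀ t, h t ≤ 1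

private theorem EquiR_Good.ii {h : ℝ → ℝ} (H : EquiR_Good h) (a b : ℝ) :
    IntervalIntegrable h volume a b := by
  rw [intervalIntegrable_iff]
  refine Measure.integrableOn_of_bounded (M := 1) ?_ H.meas.aestronglyMeasurable ?_
  · rw [Set.uIoc]
    exact measure_Ioc_lt_top.ne
  · refine Filter.Eventually.of_forall fun t => ?_
    rw [Real.norm_eq_abs, abs_of_nonneg (H.lo t)]
    exact H.up t

private theorem EquiR_Good.int {h : ℝ → ℝ} (H : EquiR_Good h) {a b : ℝ} (hab : a ≤ b) :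
    0 ≤ ∫ t in a..b, h t ∧ ∫ t in a..b, h t ≤ b - a := by
  constructor
  · exact intervalIntegral.integral_nonneg hab fun t _ => H.lo t
  · calc ∫ t in a..b, h t ≤ ∫ _t in a..b, (1 : ℝ) :=
          intervalIntegral.integral_mono_on hab (H.ii a b)
            intervalIntegrable_const fun t _ => H.up t
      _ = b - a := by simp

private theorem EquiR_Good.mul {h k : ℝ → ℝ} (H : EquiR_Good h) (K : EquiR_Good k) :
    EquiR_Good fun t => h t * k t :=
  ⟨H.meas.mul K.meas, fun t => mul_nonneg (H.lo t) (K.lo t),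
    fun t => mul_le_one₀ (H.up t) (K.lo t) (K.up t)⟩

private theorem EquiR_Good.shift {h : ℝ → ℝ} (H : EquiR_Good h) (s : ℝ) :
    EquiR_Good fun t => h (t + s) :=
  ⟨H.meas.comp (measurable_id.add_const s), fun t => H.lo _, fun t => H.up _⟩

private theorem EquiR_shift {h : ℝ → ℝ} (H : EquiR_Good h) (a b : ℝ) {s : ℝ} (hs : 0 ≤ s) :
    |(∫ t in a..b, h (t + s)) - ∫ t in a..b, h t| ≤ s := by
  rw [intervalIntegral.integral_comp_add_right (fun t => h t) s]
  have h1 := intervalIntegral.integral_add_adjacent_intervals (H.ii a b) (H.ii b (b + s))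
  have h2 := intervalIntegral.integral_add_adjacent_intervals (H.ii a (a + s))
    (H.ii (a + s) (b + s))
  have h3 := H.int (le_add_of_nonneg_right hs : b ≤ b + s)
  have h4 := H.int (le_add_of_nonneg_right hs : a ≤ a + s)
  rw [abs_le]
  constructor <;> linarith [h3.1, h3.2, h4.1, h4.2]

private theorem EquiR_avg {k : ℝ → ℝ} (K : EquiR_Good k) (a b : ℝ) {T : ℝ} (hT : 0 ≤ T) (q : ℕ) :
    |(∑ j ∈ Finset.range q, ∫ t in a..b, k (t + j * T)) - q * ∫ t in a..b, k t| ≤
      q * (q * T) := by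
  have h1 : (∑ j ∈ Finset.range q, ∫ t in a..b, k (t + j * T)) - q * ∫ t in a..b, k t =
      ∑ j ∈ Finset.range q, ((∫ t in a..b, k (t + j * T)) - ∫ t in a..b, k t) := by
    rw [Finset.sum_sub_distrib, Finset.sum_const, Finset.card_range, nsmul_eq_mul]
  rw [h1]
  refine (Finset.abs_sum_le_sum_abs _ _).trans ?_
  calc ∑ j ∈ Finset.range q, |(∫ t in a..b, k (t + j * T)) - ∫ t in a..b, k t| ≤
      ∑ _j ∈ Finset.range q, (q : ℝ) * T := by
        refine Finset.sum_le_sum fun j hj => ?_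
        have hj' : (j : ℝ) ≤ q := by exact_mod_cast (Finset.mem_range.1 hj).le
        exact (EquiR_shift K a b (by positivity)).trans (mul_le_mul_of_nonneg_right hj' hT)
    _ = q * (q * T) := by rw [Finset.sum_const, Finset.card_range, nsmul_eq_mul]

open Classical in
/-- the indicator of `d ∣ ⌊t m + β⌋` -/
private noncomputable def EquiR_f (d : ℕ) (m β : ℝ) (t : ℝ) : ℝ :=
  if (d : ℤ) ∣ ⌊t * m + β⌋ then 1 else 0

private theorem EquiR_f_good (d : ℕ) (m β : ℝ) : EquiR_Good (EquiR_f d m β) := by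
  classical
  refine ⟨?_, fun t => ?_, fun t => ?_⟩
  · unfold EquiR_f
    refine Measurable.ite ?_ measurable_const measurable_const
    have h1 : Measurable fun t : ℝ => ⌊t * m + β⌋ :=
      Int.measurable_floor.comp ((measurable_id.mul_const _).add_const _)
    exact h1 (MeasurableSet.of_discrete (s := {n : ℤ | (d : ℤ) ∣ n}))
  · unfold EquiR_f
    split_ifs <;> norm_num
  · unfold EquiR_f
    split_ifs <;> norm_num

private theorem EquiR_f_period {d : ℕ} {m : ℝ} (hm : 0 < m) (β : ℝ) (t : ℝ) (j : ℕ) :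
    EquiR_f d m β (t + j * (d / m)) = EquiR_f d m β t := by
  classical
  have hm' : m ≠ 0 := by exact_mod_cast hm.ne'
  have h1 : (t + j * (d / m)) * m + β = (t * m + β) + ((j * d : ℕ) : ℝ) := by
    push_cast
    field_simp
    ring
  unfold EquiR_f
  rw [h1, Int.floor_add_natCast]
  have h2 : (d : ℤ) ∣ ⌊t * m + β⌋ + ((j * d : ℕ) : ℤ) ↔ (d : ℤ) ∣ ⌊t * m + β⌋ := by
    refine Int.dvd_add_left ?_
    push_cast
    exact Dvd.intro_left _ rfl
  simp only [h2]

private theorem EquiR_f_sum {d : ℕ} {m : ℝ} (hd : 1 ≤ d) (hm : 0 < m) (β : ℝ) (t : ℝ) :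
    ∑ j ∈ Finset.range d, EquiR_f d m β (t + j * (1 / m)) = 1 := by
  classical
  have hm' : m ≠ 0 := by exact_mod_cast hm.ne'
  have h1 : ∀ j : ℕ, (t + j * (1 / m)) * m + β = (t * m + β) + (j : ℝ) := by
    intro j
    field_simp
    ring
  unfold EquiR_f
  simp only [h1, Int.floor_add_natCast]
  obtain ⟨n, hn⟩ : ∃ n : ℤ, n = ⌊t * m + β⌋ := ⟨_, rfl⟩
  rw [← hn]
  have hd' : (0 : ℤ) < d := by exact_mod_cast hd
  have h2 : 0 ≤ (-n) % (d : ℤ) := Int.emod_nonneg _ hd'.ne'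
  have h3 : (-n) % (d : ℤ) < d := Int.emod_lt_of_pos _ hd'
  have h4 : (((-n) % (d : ℤ)).toNat : ℤ) = (-n) % (d : ℤ) := Int.toNat_of_nonneg h2
  rw [Finset.sum_eq_single ((-n) % (d : ℤ)).toNat]
  · rw [if_pos]
    rw [h4]
    have h5 := Int.emod_add_mul_ediv (-n) d
    exact ⟨-((-n) / d), by linear_combination h5⟩
  · intro j hj hne
    rw [if_neg]
    intro h6
    apply hne
    have hj' := Finset.mem_range.1 hj
    have h5 := Int.emod_add_mul_ediv (-n) d
    have h7 : (d : ℤ) ∣ (j : ℤ) - (((-n) % (d : ℤ)).toNat : ℤ) := by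
      rw [h4]
      obtain ⟨c, hc⟩ := h6
      exact ⟨c + (-n) / d, by linear_combination hc - h5⟩
    have h8 := Int.eq_zero_of_abs_lt_dvd h7 (by rw [abs_lt]; constructor <;> omega)
    omega
  · intro h6
    exfalso
    apply h6
    rw [Finset.mem_range]
    omega

private theorem EquiR_one {d : ℕ} {m : ℝ} (hd : 1 ≤ d) (hm : 0 < m) (β : ℝ) {a b : ℝ} (hab : a ≤ b) :
    |(∫ t in a..b, EquiR_f d m β t) - (b - a) / d| ≤ d / m := by
  have hd' : (0 : ℝ) < d := by exact_mod_cast hd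
  have h1 := EquiR_avg (EquiR_f_good d m β) a b (T := 1 / m) (by positivity) d
  have h2 : (∑ j ∈ Finset.range d, ∫ t in a..b, EquiR_f d m β (t + j * (1 / m))) = b - a := by
    have h3 : ∫ t in a..b, ∑ j ∈ Finset.range d, EquiR_f d m β (t + (j : ℝ) * (1 / m)) =
        ∑ j ∈ Finset.range d, ∫ t in a..b, EquiR_f d m β (t + (j : ℝ) * (1 / m)) :=
      intervalIntegral.integral_finsetSum fun (j : ℕ) _ =>
        ((EquiR_f_good d m β).shift ((j : ℝ) * (1 / m))).ii a b
    rw [← h3]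
    simp only [EquiR_f_sum hd hm β]
    simp
  rw [h2, abs_le] at h1
  have e1 : (d : ℝ) * (d * (1 / m)) = d * (d / m) := by ring
  rw [e1] at h1
  rw [abs_le]
  constructor
  · rw [neg_le_sub_iff_le_add, div_le_iff₀ hd']
    nlinarith [h1.2]
  · rw [sub_le_iff_le_add, ← sub_le_iff_le_add', le_div_iff₀ hd']
    nlinarith [h1.1]

private theorem EquiR_two {d e : ℕ} {m m' : ℝ} (hd : 1 ≤ d) (he : 1 ≤ e) (hm : 0 < m) (β : ℝ)
    {a b : ℝ} (hab : a ≤ b) {q : ℕ} (hq : 0 < q) {r : ℤ} (hc : IsCoprime (q : ℤ) r)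
    (hθ : |(d : ℝ) * m' / (e * m) - r / q| ≤ 1 / (q : ℝ) ^ 2) :
    |(∫ t in a..b, EquiR_f d m β t * EquiR_f e m' β t) - (b - a) / (d * e)| ≤
      3 * (b - a) / q + q * (d / m) + d / m := by
  classical
  have hd' : (0 : ℝ) < d := by exact_mod_cast hd
  have he' : (0 : ℝ) < e := by exact_mod_cast he
  have he1 : (1 : ℝ) ≤ e := by exact_mod_cast he
  have hm' : (0 : ℝ) < m := by exact_mod_cast hm
  have hq' : (0 : ℝ) < q := by exact_mod_cast hq
  set θ : ℝ := (d : ℝ) * m' / (e * m) with hθd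
  have F := EquiR_f_good d m β
  have G := EquiR_f_good e m' β
  -- pointwise
  have hp : ∀ t : ℝ, |(∑ j ∈ Finset.range q, EquiR_f e m' β (t + (j : ℝ) * (d / m))) -
      q * (1 / e)| ≤ 3 := by
    intro t
    have h1 : ∀ j : ℕ, EquiR_f e m' β (t + (j : ℝ) * (d / m)) =
        if Int.fract ((t * m' + β) / e + j * θ) < 1 / e then 1 else 0 := by
      intro j
      have h2 : ((t + (j : ℝ) * (d / m)) * m' + β) / e = (t * m' + β) / e + j * θ := by
        rw [hθd]
        field_simp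
        ring
      have h3 := EquiR_dvd he ((t + (j : ℝ) * (d / m)) * m' + β)
      rw [h2] at h3
      unfold EquiR_f
      simp only [h3]
    simp only [h1]
    rw [Finset.sum_boole]
    exact EquiR_count hq hc hθ _ _ (by positivity) ((div_le_one he').2 he1)
  -- the average
  have h1 := EquiR_avg (F.mul G) a b (T := d / m) (by positivity) q
  have h2 : (∑ j ∈ Finset.range q, ∫ t in a..b,
      EquiR_f d m β (t + (j : ℝ) * (d / m)) * EquiR_f e m' β (t + (j : ℝ) * (d / m))) =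
      ∫ t in a..b, EquiR_f d m β t *
        ∑ j ∈ Finset.range q, EquiR_f e m' β (t + (j : ℝ) * (d / m)) := by
    simp only [EquiR_f_period hm β, Finset.mul_sum]
    exact (intervalIntegral.integral_finsetSum fun (j : ℕ) _ =>
      (F.mul (G.shift ((j : ℝ) * (d / m)))).ii a b).symm
  rw [h2] at h1
  have hI : IntervalIntegrable (fun t => EquiR_f d m β t *
      ∑ j ∈ Finset.range q, EquiR_f e m' β (t + (j : ℝ) * (d / m))) volume a b := by
    have h8 := IntervalIntegrable.sum (Finset.range q) fun (j : ℕ) _ =>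
      (F.mul (G.shift ((j : ℝ) * (d / m)))).ii a b
    refine h8.congr fun t _ => ?_
    simp only [Finset.sum_apply, Finset.mul_sum]
  have h3 : |(∫ t in a..b, EquiR_f d m β t *
      ∑ j ∈ Finset.range q, EquiR_f e m' β (t + (j : ℝ) * (d / m))) -
        q * (1 / e) * ∫ t in a..b, EquiR_f d m β t| ≤ 3 * (b - a) := by
    rw [← intervalIntegral.integral_const_mul,
      ← intervalIntegral.integral_sub hI ((F.ii a b).const_mul _), ← Real.norm_eq_abs]
    have h4 := intervalIntegral.norm_integral_le_of_norm_le_const (a := a) (b := b) (C := 3)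
      (f := fun t => EquiR_f d m β t *
        (∑ j ∈ Finset.range q, EquiR_f e m' β (t + (j : ℝ) * (d / m))) -
          q * (1 / e) * EquiR_f d m β t) (fun t _ => by
        have h5 : EquiR_f d m β t *
            (∑ j ∈ Finset.range q, EquiR_f e m' β (t + (j : ℝ) * (d / m))) -
            q * (1 / e) * EquiR_f d m β t = EquiR_f d m β t *
            ((∑ j ∈ Finset.range q, EquiR_f e m' β (t + (j : ℝ) * (d / m))) -
              q * (1 / e)) := by ring
        rw [h5, norm_mul, Real.norm_eq_abs, Real.norm_eq_abs, abs_of_nonneg (F.lo t)]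
        calc EquiR_f d m β t * _ ≤ 1 * 3 :=
              mul_le_mul (F.up t) (hp t) (abs_nonneg _) zero_le_one
          _ = 3 := by norm_num)
    rwa [abs_of_nonneg (sub_nonneg.2 hab)] at h4
  have h4 := EquiR_one hd hm β hab
  set I := ∫ t in a..b, EquiR_f d m β t * EquiR_f e m' β t with hIdef
  set J := ∫ t in a..b, EquiR_f d m β t with hJdef
  have h5 : |q * I - q * (1 / e) * J| ≤ 3 * (b - a) + q * (q * (d / m)) := by
    rw [abs_le] at h1 h3 ⊢
    constructor <;> linarith [h1.1, h1.2, h3.1, h3.2]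
  have h6 : |I - 1 / e * J| ≤ 3 * (b - a) / q + q * (d / m) := by
    have e1 : q * I - q * (1 / e) * J = q * (I - 1 / e * J) := by ring
    rw [e1, abs_mul, abs_of_pos hq'] at h5
    have e2 : 3 * (b - a) + q * (q * (d / m)) = q * (3 * (b - a) / q + q * (d / m)) := by
      field_simp
    rw [e2] at h5
    exact le_of_mul_le_mul_left h5 hq'
  have h7 : |1 / e * J - (b - a) / (d * e)| ≤ d / m := by
    have e1 : 1 / e * J - (b - a) / (d * e) = 1 / e * (J - (b - a) / d) := by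
      field_simp
    rw [e1, abs_mul, abs_of_pos (by positivity)]
    calc 1 / (e : ℝ) * |J - (b - a) / d| ≤ 1 * (d / m) :=
          mul_le_mul ((div_le_one he').2 he1) h4 (abs_nonneg _) zero_le_one
      _ = d / m := one_mul _
  calc |I - (b - a) / (d * e)| = |(I - 1 / e * J) + (1 / e * J - (b - a) / (d * e))| := by
        congr 1
        ring
    _ ≤ |I - 1 / e * J| + |1 / e * J - (b - a) / (d * e)| := abs_add_le _ _
    _ ≤ _ := add_le_add h6 h7

private theorem EquiR_vol {d e : ℕ} {m m' : ℝ} {β a b : ℝ} (hab : a ≤ b)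
    (h1 : ∀ t, a ≤ t → 0 ≤ t * m + β) (h2 : ∀ t, a ≤ t → 0 ≤ t * m' + β) :
    (volume {t : ℝ | t ∈ Set.Icc a b ∧ d ∣ ⌊t * m + β⌋₊ ∧
          e ∣ ⌊t * m' + β⌋₊}).toReal = ∫ t in a..b, EquiR_f d m β t * EquiR_f e m' β t := by
  classical
  have F := EquiR_f_good d m β
  have G := EquiR_f_good e m' β
  have h3 : ∀ (k n : ℕ) (y : ℝ), 0 ≤ y → (k ∣ ⌊y⌋₊ ↔ (k : ℤ) ∣ ⌊y⌋) := by
    intro k n y hy
    rw [← Int.natCast_floor_eq_floor hy]
    exact Int.natCast_dvd_natCast.symm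
  set A : Set ℝ := {t : ℝ | (d : ℤ) ∣ ⌊t * m + β⌋ ∧ (e : ℤ) ∣ ⌊t * m' + β⌋} with hA
  have hAm : MeasurableSet A := by
    have h4 : ∀ k : ℝ, Measurable fun t : ℝ => ⌊t * (k : ℝ) + β⌋ := fun k =>
      Int.measurable_floor.comp ((measurable_id.mul_const _).add_const _)
    exact (h4 m (MeasurableSet.of_discrete (s := {n : ℤ | (d : ℤ) ∣ n}))).inter
      (h4 m' (MeasurableSet.of_discrete (s := {n : ℤ | (e : ℤ) ∣ n})))
  have h4 : {t : ℝ | t ∈ Set.Icc a b ∧ d ∣ ⌊t * m + β⌋₊ ∧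
      e ∣ ⌊t * m' + β⌋₊} = A ∩ Set.Icc a b := by
    ext t
    constructor
    · rintro ⟨h5, h6, h7⟩
      exact ⟨⟨(h3 d 0 _ (h1 t h5.1)).1 h6, (h3 e 0 _ (h2 t h5.1)).1 h7⟩, h5⟩
    · rintro ⟨⟨h6, h7⟩, h5⟩
      exact ⟨h5, (h3 d 0 _ (h1 t h5.1)).2 h6, (h3 e 0 _ (h2 t h5.1)).2 h7⟩
  have h5 : ∀ t, EquiR_f d m β t * EquiR_f e m' β t = A.indicator 1 t := by
    intro t
    by_cases h6 : (d : ℤ) ∣ ⌊t * m + β⌋
    · by_cases h7 : (e : ℤ) ∣ ⌊t * m' + β⌋
      · have h8 : t ∈ A := ⟨h6, h7⟩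
        rw [Set.indicator_of_mem h8]
        unfold EquiR_f
        rw [if_pos h6, if_pos h7]
        simp
      · have h8 : t ∉ A := fun h => h7 h.2
        rw [Set.indicator_of_notMem h8]
        unfold EquiR_f
        rw [if_neg h7, mul_zero]
    · have h8 : t ∉ A := fun h => h6 h.1
      rw [Set.indicator_of_notMem h8]
      unfold EquiR_f
      rw [if_neg h6, zero_mul]
  rw [h4]
  simp only [h5]
  rw [intervalIntegral.integral_of_le hab, ← integral_Icc_eq_integral_Ioc,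
    integral_indicator_one hAm, measureReal_restrict_apply hAm]
  rfl

theorem equiR {η κ Γ : ℝ} (hη : 0 < η) (hη1 : η ≤ 1 / 20) (hκ : 1 ≤ κ) :
    ∃ X0 : ℝ, 1 ≤ X0 ∧ ∀ m m' β : ℝ, X0 ≤ m → m / κ ≤ m' → m' ≤ κ * m → |β| ≤ Γ →
      (∀ u v : ℕ, 1 ≤ u → 1 ≤ v → (u : ℝ) ≤ m ^ η → (v : ℝ) ≤ m ^ η →
        m ^ η ≤ |(u : ℝ) * m - (v : ℝ) * m'|) → ∀ d e : ℕ, 1 ≤ d → 1 ≤ e →
      (d : ℝ) ≤ m ^ (η / 16) → (e : ℝ) ≤ m ^ (η / 16) →
      |(volume {t : ℝ | t ∈ Set.Icc 1 3 ∧ d ∣ ⌊t * m + β⌋₊ ∧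
          e ∣ ⌊t * m' + β⌋₊}).toReal - 2 / ((d : ℝ) * e)| ≤ m ^ (-(η / 5)) := by
  have hev : ∀ (c s : ℝ), 0 < s → ∀ᶠ X : ℝ in atTop, c ≤ X ^ s := fun c s hs =>
    (tendsto_rpow_atTop hs).eventually_ge_atTop c
  have h1 : ∀ᶠ X : ℝ in atTop, 1 ≤ X := eventually_ge_atTop 1
  have h2 : ∀ᶠ X : ℝ in atTop, κ * |Γ| ≤ X := eventually_ge_atTop _
  have h3 := hev (κ + 1) (7 * η / 16) (by positivity)
  have h4 := hev 18 (η / 2 - η / 5) (by linarith)
  have h5 := hev 6 (7 * η / 16 - η / 5) (by linarith)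
  obtain ⟨X0, hX0⟩ := eventually_atTop.1 (h1.and (h2.and (h3.and (h4.and h5))))
  refine ⟨max 1 X0, le_max_left _ _, fun m m' β hX hm1 hm2 hβ hNE d e hd he hdX heX => ?_⟩
  obtain ⟨g1, g2, g3, g4, g5⟩ := hX0 m ((le_max_right _ _).trans hX)
  have hκ0 : 0 < κ := by linarith
  have hmr : (0 : ℝ) < m := by linarith
  have hmκ : 0 < m / κ := by positivity
  have hmr' : (0 : ℝ) < m' := by linarith
  have hd' : (1 : ℝ) ≤ d := by exact_mod_cast hd
  have he' : (1 : ℝ) ≤ e := by exact_mod_cast he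
  have hmm : m / κ ≤ m := div_le_self hmr.le hκ
  have hβ1 : -β ≤ m / κ := by
    have h6 : |β| ≤ |Γ| := hβ.trans (le_abs_self Γ)
    have h7 := neg_abs_le β
    have h8 : |Γ| ≤ m / κ := by
      rw [le_div_iff₀ hκ0]
      linarith
    linarith
  have hpos : ∀ n : ℝ, m / κ ≤ n → ∀ t, (1 : ℝ) ≤ t → 0 ≤ t * n + β := by
    intro n hn t ht
    have h6 : 1 * (m / κ) ≤ t * n := mul_le_mul ht hn hmκ.le (by linarith)
    linarith
  rw [EquiR_vol (by norm_num) (hpos m hmm) (hpos m' hm1)]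
  -- Dirichlet
  have hY1 : (1 : ℝ) ≤ m ^ (1 - η / 2) := Real.one_le_rpow g1 (by linarith)
  set n : ℕ := ⌊m ^ (1 - η / 2)⌋₊ with hn
  have hn0 : 0 < n := Nat.floor_pos.2 hY1
  have hn1 : (n : ℝ) ≤ m ^ (1 - η / 2) := Nat.floor_le (by positivity)
  have hn2 : m ^ (1 - η / 2) < n + 1 := Nat.lt_floor_add_one _
  obtain ⟨ρ, hρ1, hρ2⟩ := Real.exists_rat_abs_sub_le_and_den_le ((d : ℝ) * m' / (e * m)) hn0
  have hq0 : 0 < ρ.den := ρ.den_pos
  have hqr : (0 : ℝ) < ρ.den := by exact_mod_cast hq0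
  have hq1 : (1 : ℝ) ≤ ρ.den := by exact_mod_cast hq0
  have hqn : (ρ.den : ℝ) ≤ n := by exact_mod_cast hρ2
  have hρc : (ρ : ℝ) = ρ.num / ρ.den := by
    exact_mod_cast (Rat.num_div_den ρ).symm
  have hcop : IsCoprime ((ρ.den : ℕ) : ℤ) ρ.num := by
    have h6 := ρ.reduced
    exact (Int.isCoprime_iff_nat_coprime.2 (by simpa using h6)).symm
  rw [hρc] at hρ1
  have hθ : |(d : ℝ) * m' / (e * m) - ρ.num / ρ.den| ≤ 1 / (ρ.den : ℝ) ^ 2 := by
    refine hρ1.trans ?_
    rw [pow_two]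
    refine one_div_le_one_div_of_le (by positivity) ?_
    refine mul_le_mul_of_nonneg_right ?_ hqr.le
    linarith
  -- the denominator is large
  have hbig : m ^ (η / 2) ≤ ρ.den := by
    by_contra hcon
    push Not at hcon
    have hkey : |(ρ.den : ℝ) * (d * m') - ρ.num * (e * m)| ≤ e * m / (n + 1) := by
      have h6 : (ρ.den : ℝ) * (d * m') - ρ.num * (e * m) =
          ((d : ℝ) * m' / (e * m) - ρ.num / ρ.den) * (ρ.den * (e * m)) := by
        field_simp
      rw [h6, abs_mul, abs_of_pos (by positivity : (0 : ℝ) < ρ.den * (e * m))]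
      calc |(d : ℝ) * m' / (e * m) - ρ.num / ρ.den| * (ρ.den * (e * m)) ≤
          1 / ((n + 1) * ρ.den) * (ρ.den * (e * m)) :=
            mul_le_mul_of_nonneg_right hρ1 (by positivity)
        _ = e * m / (n + 1) := by field_simp
    have hup : (e : ℝ) * m / (n + 1) < m ^ (9 * η / 16) := by
      have h6 : (e : ℝ) * m ≤ m ^ (η / 16) * m :=
        mul_le_mul_of_nonneg_right heX hmr.le
      have h7 : m ^ (9 * η / 16) * m ^ (1 - η / 2) = m ^ (η / 16) * m := by
        rw [← Real.rpow_add hmr]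
        have h8 : 9 * η / 16 + (1 - η / 2) = η / 16 + 1 := by ring
        rw [h8, Real.rpow_add hmr, Real.rpow_one]
      rw [div_lt_iff₀ (by positivity)]
      calc (e : ℝ) * m ≤ m ^ (η / 16) * m := h6
        _ = m ^ (9 * η / 16) * m ^ (1 - η / 2) := h7.symm
        _ < m ^ (9 * η / 16) * (n + 1) :=
          mul_lt_mul_of_pos_left hn2 (by positivity)
    have h9 : m ^ (9 * η / 16) * m ^ (7 * η / 16) = m ^ η := by
      rw [← Real.rpow_add hmr]
      congr 1
      ring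
    have hqd : (ρ.den : ℝ) * d ≤ m ^ (9 * η / 16) := by
      have h6 : m ^ (9 * η / 16) = m ^ (η / 2) * m ^ (η / 16) := by
        rw [← Real.rpow_add hmr]
        congr 1
        ring
      rw [h6]
      exact mul_le_mul hcon.le hdX (by positivity) (by positivity)
    have hmη : m ^ η ≤ m := by
      calc m ^ η ≤ m ^ (1 : ℝ) := Real.rpow_le_rpow_of_exponent_le g1 (by linarith)
        _ = m := Real.rpow_one m
    rcases le_or_gt ρ.num 0 with hr | hr
    · have h6 : (ρ.num : ℝ) ≤ 0 := by exact_mod_cast hr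
      have h7 : m / κ ≤ (ρ.den : ℝ) * (d * m') := by
        calc m / κ ≤ m' := hm1
          _ = 1 * (1 * m') := by ring
          _ ≤ (ρ.den : ℝ) * (d * m') := by gcongr
      have h8 : 0 ≤ -((ρ.num : ℝ) * (e * m)) := by
        have : (ρ.num : ℝ) * (e * m) ≤ 0 := mul_nonpos_of_nonpos_of_nonneg h6 (by positivity)
        linarith
      have h10 := le_abs_self ((ρ.den : ℝ) * (d * m') - ρ.num * (e * m))
      have h11 : m / κ < m ^ (9 * η / 16) := by linarith
      rw [div_lt_iff₀ hκ0] at h11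
      have h12 : m ^ (9 * η / 16) * κ ≤ m ^ (9 * η / 16) * m ^ (7 * η / 16) :=
        mul_le_mul_of_nonneg_left (by linarith) (by positivity)
      linarith
    · have hnum : ((ρ.num.toNat : ℕ) : ℝ) = ρ.num := by
        have h6 : ((ρ.num.toNat : ℕ) : ℤ) = ρ.num := Int.toNat_of_nonneg hr.le
        exact_mod_cast h6
      have hnum1 : 1 ≤ ρ.num.toNat := by omega
      have h6 : (ρ.num : ℝ) * e * m ≤ (ρ.den * d * κ + e) * m := by
        have h7 := (abs_le.1 hkey).1
        have h8 : (e : ℝ) * m / (n + 1) ≤ e * m :=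
          div_le_self (by positivity) (by linarith [(Nat.cast_nonneg n : (0 : ℝ) ≤ n)])
        have h9 : (ρ.den : ℝ) * d * m' ≤ ρ.den * d * (κ * m) :=
          mul_le_mul_of_nonneg_left hm2 (by positivity)
        linarith
      have h7 : (ρ.num : ℝ) * e ≤ ρ.den * d * κ + e := le_of_mul_le_mul_right h6 hmr
      have h8 : (e : ℝ) ≤ m ^ (9 * η / 16) :=
        heX.trans (Real.rpow_le_rpow_of_exponent_le g1 (by linarith))
      have hu : ((ρ.num.toNat * e : ℕ) : ℝ) ≤ m ^ η := by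
        push_cast
        rw [hnum]
        calc (ρ.num : ℝ) * e ≤ ρ.den * d * κ + e := h7
          _ ≤ m ^ (9 * η / 16) * κ + m ^ (9 * η / 16) := by gcongr
          _ = m ^ (9 * η / 16) * (κ + 1) := by ring
          _ ≤ m ^ (9 * η / 16) * m ^ (7 * η / 16) :=
            mul_le_mul_of_nonneg_left g3 (by positivity)
          _ = m ^ η := h9
      have hv : ((ρ.den * d : ℕ) : ℝ) ≤ m ^ η := by
        push_cast
        exact hqd.trans (Real.rpow_le_rpow_of_exponent_le g1 (by linarith))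
      have h10 := hNE (ρ.num.toNat * e) (ρ.den * d) (Nat.mul_pos hnum1 he)
        (Nat.mul_pos hq0 hd) hu hv
      have h11 : |((ρ.num.toNat * e : ℕ) : ℝ) * m - ((ρ.den * d : ℕ) : ℝ) * m'| =
          |(ρ.den : ℝ) * (d * m') - ρ.num * (e * m)| := by
        push_cast
        rw [hnum, abs_sub_comm]
        congr 1
        ring
      rw [h11] at h10
      have h13 : m ^ (9 * η / 16) ≤ m ^ η :=
        Real.rpow_le_rpow_of_exponent_le g1 (by linarith)
      linarith
  have hmain := EquiR_two hd he hmr β (by norm_num : (1 : ℝ) ≤ 3) hq0 hcop hθ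
  have e0 : (3 : ℝ) - 1 = 2 := by norm_num
  rw [e0] at hmain
  refine hmain.trans ?_
  have hX5 : 0 < m ^ (-(η / 5)) := by positivity
  have e1 : 3 * 2 / (ρ.den : ℝ) ≤ m ^ (-(η / 5)) / 3 := by
    have h6 : m ^ (η / 2) * m ^ (-(η / 5)) = m ^ (η / 2 - η / 5) := by
      rw [← Real.rpow_add hmr]
      congr 1
    have h7 : 18 ≤ ρ.den * m ^ (-(η / 5)) := by
      calc (18 : ℝ) ≤ m ^ (η / 2 - η / 5) := g4
        _ = m ^ (η / 2) * m ^ (-(η / 5)) := h6.symm
        _ ≤ ρ.den * m ^ (-(η / 5)) := mul_le_mul_of_nonneg_right hbig hX5.le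
    rw [div_le_iff₀ hqr]
    linarith
  have e2 : (ρ.den : ℝ) * (d / m) + d / m ≤ m ^ (-(η / 5)) / 3 := by
    have h6 : (ρ.den : ℝ) * (d / m) + d / m ≤ 2 * (ρ.den * (d / m)) := by
      have : (0 : ℝ) ≤ (ρ.den - 1) * (d / m) := mul_nonneg (by linarith) (by positivity)
      linarith
    have h7 : (ρ.den : ℝ) * (d / m) ≤ m ^ (1 - η / 2) * (m ^ (η / 16) / m) := by
      have : (d : ℝ) / m ≤ m ^ (η / 16) / m := div_le_div_of_nonneg_right hdX hmr.le
      exact mul_le_mul (hqn.trans hn1) this (by positivity) (by positivity)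
    have h8 : m ^ (1 - η / 2) * m ^ (η / 16) * m ^ (7 * η / 16 - η / 5) =
        m ^ (-(η / 5)) * m := by
      rw [← Real.rpow_add hmr, ← Real.rpow_add hmr]
      have h9 : 1 - η / 2 + η / 16 + (7 * η / 16 - η / 5) = -(η / 5) + 1 := by ring
      rw [h9, Real.rpow_add hmr, Real.rpow_one]
    have h9 : m ^ (1 - η / 2) * m ^ (η / 16) * 6 ≤ m ^ (-(η / 5)) * m := by
      rw [← h8]
      exact mul_le_mul_of_nonneg_left g5 (by positivity)
    have h10 : m ^ (1 - η / 2) * (m ^ (η / 16) / m) ≤ m ^ (-(η / 5)) / 6 := by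
      rw [← mul_div_assoc, div_le_iff₀ hmr]
      linarith
    linarith
  linarith

end RLC
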