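import Pool.Agent.RLC.Defs

/-!
# RLC.Geo: the geometry of the chains

PROOF. `chain_near`: induction on `j`. `c (j+1) = ⌊a_j c_j + β_j⌋₊`, `a_j c_j + β_j ≥ c_j - Γ ≥ A_j (n - (1+Γ) j) - Γ ≥ 0`
(`A_j = pa a j ≥ 1`), so `|c_{j+1} - a_j c_j| ≤ 1 + Γ` and `|c_{j+1} - A_{j+1} n| ≤ a_j (1+Γ) j A_j + (1+Γ) ≤ (1+Γ)(j+1) A_{j+1}`.
`geo`: `j ≤ 2 log Y/log log Y ≤ 2 log Y` for large `Y`; `A_j ≤ v^j = exp(j log v) ≤ Y^δ` for large `Y`, as `2 log v/log log Y ≤ δ`.
`ww = ⌊log(A_j Y)⌋ ∈ [log Y - 1, log Y + log A_j] `. For `n ∈ (Y, 2Y]`: `|c_j - A_j n| ≤ (1+Γ) j A_j ≤ (A_j n) · (1+Γ) j/n` and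
`(1+Γ) j/n ≤ 2(1+Γ) log Y/Y ≤ 1/2`; `|log(1+x)| ≤ 2|x|` for `|x| ≤ 1/2`, so `|log c_j - log(A_j n)| ≤ 4(1+Γ) log Y/Y ≤ (log Y)²/(2Y)` for
large `Y`. `log(A_j n) ∈ [log(A_j Y), log(A_j Y) + log 2]`. `c_j ≥ A_j n - (1+Γ) j A_j ≥ n/2`.
`Gen`: let `u, v ≤ exp(η ww)`, `exp(η ww) ≤ (A_j Y)^η ≤ Y^(3η/2)` (use the bound `A_j ≤ Y^(min δ (1/2))`), in particular `u, v ≤ Y^(2η)`.
`|u c_j - v c_j'| ≥ A_j |u n - v n'| - (u+v)(1+Γ) j A_j ≥ A_j (Y^(2η) - 4 Y^(3η/2) (1+Γ) log Y) ≥ A_j Y^(3η/2) ≥ exp(η ww)` for large `Y`.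
-/

namespace RLC

theorem pa_one_le {v : ℝ} {a : ℕ → ℝ} (ha : ∀ i, a i ∈ Set.Icc 1 v) (i : ℕ) : 1 ≤ pa a i := by
  induction i with
  | zero => simp [pa]
  | succ i ih =>
    have h : pa a (i + 1) = pa a i * a i := Finset.prod_range_succ _ _
    rw [h]
    have := (ha i).1
    nlinarith

theorem chain_near {v Γ : ℝ} (hΓ : 0 ≤ Γ) {a β : ℕ → ℝ} (ha : ∀ i, a i ∈ Set.Icc 1 v) (hβ : ∀ i, |β i| ≤ Γ)
    {n j : ℕ} (hn : (1 + Γ) * ((j : ℝ) + 2) ≤ n) :
    |(MCC.chain a β n j : ℝ) - pa a j * n| ≤ (1 + Γ) * j * pa a j := by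
  induction j with
  | zero =>
    have h1 : (MCC.chain a β n 0 : ℝ) = n := rfl
    have h2 : pa a 0 = 1 := by simp [pa]
    rw [h1, h2]
    simp
  | succ j ih =>
    push_cast at hn ⊢
    have hj0 : (0 : ℝ) ≤ j := Nat.cast_nonneg j
    have hn' : (1 + Γ) * ((j : ℝ) + 2) ≤ n := by nlinarith
    have h1 := ih hn'
    have hA := pa_one_le ha j
    have hA' := pa_one_le ha (j + 1)
    have hpa : pa a (j + 1) = pa a j * a j := Finset.prod_range_succ _ _
    have haj := (ha j).1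
    have hb := abs_le.1 (hβ j)
    have h1' := abs_le.1 h1
    set c : ℝ := (MCC.chain a β n j : ℝ) with hc
    have hc1 : pa a j * ((1 + Γ) * 3) ≤ c := by
      have e1 : pa a j * n - (1 + Γ) * j * pa a j ≤ c := by linarith [h1'.1]
      have e2 : pa a j * ((1 + Γ) * 3) ≤ pa a j * (n - (1 + Γ) * j) := by
        apply mul_le_mul_of_nonneg_left _ (by linarith)
        nlinarith
      nlinarith
    have hc3 : (1 + Γ) * 3 ≤ c := by nlinarith
    have hc0 : 0 ≤ c := by nlinarith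
    have hx0 : 0 ≤ a j * c + β j := by nlinarith [hb.1]
    have hch : MCC.chain a β n (j + 1) = ⌊a j * c + β j⌋₊ := rfl
    have hf1 : (⌊a j * c + β j⌋₊ : ℝ) ≤ a j * c + β j := Nat.floor_le hx0
    have hf2 : a j * c + β j < (⌊a j * c + β j⌋₊ : ℝ) + 1 := Nat.lt_floor_add_one _
    rw [hch]
    have hk : |a j * c - a j * (pa a j * n)| ≤ a j * ((1 + Γ) * j * pa a j) := by
      rw [← mul_sub, abs_mul, abs_of_nonneg (by linarith : (0 : ℝ) ≤ a j)]
      exact mul_le_mul_of_nonneg_left h1 (by linarith)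
    have hk' := abs_le.1 hk
    have e3 : (1 + Γ) * 1 ≤ (1 + Γ) * pa a (j + 1) := mul_le_mul_of_nonneg_left hA' (by linarith)
    have e4 : (1 + Γ) * ((j : ℝ) + 1) * pa a (j + 1) = a j * ((1 + Γ) * j * pa a j) + (1 + Γ) * pa a (j + 1) := by
      rw [hpa]; ring
    have e5 : pa a (j + 1) * (n : ℝ) = a j * (pa a j * n) := by
      rw [hpa]; ring
    rw [e4, e5]
    apply abs_le.2
    constructor
    · linarith [hk'.1, hb.1]
    · linarith [hk'.2, hb.2]

private theorem Geo_ev {v Γ η δ : ℝ} (hη : 0 < η) (hδ : 0 < δ) :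
    ∃ Y0 : ℕ, 3 ≤ Y0 ∧ ∀ Y : ℕ, Y0 ≤ Y →
      1 ≤ Real.log (Real.log Y) ∧ 2 * Real.log v ≤ δ * Real.log (Real.log Y) ∧
      8 * (1 + Γ) ≤ Real.log Y ∧ 8 ≤ Real.log Y ∧ Real.log Y ^ 2 ≤ Y ∧
      4 * (1 + Γ) * Real.log Y + 1 ≤ (Y : ℝ) ^ (η / 2) := by
  have t1 : Filter.Tendsto (fun Y : ℕ => Real.log Y) Filter.atTop Filter.atTop :=
    Real.tendsto_log_atTop.comp tendsto_natCast_atTop_atTop
  have t2 : Filter.Tendsto (fun Y : ℕ => Real.log (Real.log Y)) Filter.atTop Filter.atTop :=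
    Real.tendsto_log_atTop.comp t1
  have t3 : Filter.Tendsto (fun Y : ℕ => (Y : ℝ) ^ (η / 2)) Filter.atTop Filter.atTop :=
    (tendsto_rpow_atTop (by positivity)).comp tendsto_natCast_atTop_atTop
  have o1 : ∀ᶠ Y : ℕ in Filter.atTop, ‖Real.log Y‖ ≤ 1 * ‖(Y : ℝ) ^ (1 / 2 : ℝ)‖ :=
    tendsto_natCast_atTop_atTop.eventually
      ((isLittleO_log_rpow_atTop (by norm_num : (0 : ℝ) < 1 / 2)).def one_pos)
  have o2 : ∀ᶠ Y : ℕ in Filter.atTop, ‖Real.log Y‖ ≤ 1 / (8 * (1 + |Γ|)) * ‖(Y : ℝ) ^ (η / 2)‖ :=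
    tendsto_natCast_atTop_atTop.eventually
      ((isLittleO_log_rpow_atTop (by positivity : (0 : ℝ) < η / 2)).def (by positivity))
  have hev : ∀ᶠ Y : ℕ in Filter.atTop, 1 ≤ Real.log (Real.log Y) ∧
      2 * Real.log v ≤ δ * Real.log (Real.log Y) ∧
      8 * (1 + Γ) ≤ Real.log Y ∧ 8 ≤ Real.log Y ∧ Real.log Y ^ 2 ≤ Y ∧
      4 * (1 + Γ) * Real.log Y + 1 ≤ (Y : ℝ) ^ (η / 2) := by
    filter_upwards [o1, o2, t2.eventually_ge_atTop 1, t2.eventually_ge_atTop (2 * Real.log v / δ),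
      t1.eventually_ge_atTop (8 * (1 + Γ)), t1.eventually_ge_atTop 8, t3.eventually_ge_atTop 2]
      with Y a1 a2 a3 a4 a5 a6 a7
    refine ⟨a3, ?_, a5, a6, ?_, ?_⟩
    · rw [div_le_iff₀ hδ] at a4
      linarith
    · rw [Real.norm_of_nonneg (by linarith), Real.norm_of_nonneg (by positivity), one_mul] at a1
      calc Real.log Y ^ 2 ≤ ((Y : ℝ) ^ (1 / 2 : ℝ)) ^ 2 :=
            pow_le_pow_left₀ (by linarith) a1 2
        _ = (Y : ℝ) := by
            rw [← Real.sqrt_eq_rpow, Real.sq_sqrt (Nat.cast_nonneg _)]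
    · rw [Real.norm_of_nonneg (by linarith), Real.norm_of_nonneg (by positivity)] at a2
      have hp : (0 : ℝ) < 8 * (1 + |Γ|) := by positivity
      have h1 : 8 * (1 + |Γ|) * Real.log Y ≤ (Y : ℝ) ^ (η / 2) := by
        calc 8 * (1 + |Γ|) * Real.log Y ≤ 8 * (1 + |Γ|) * (1 / (8 * (1 + |Γ|)) * (Y : ℝ) ^ (η / 2)) :=
              mul_le_mul_of_nonneg_left a2 hp.le
          _ = (Y : ℝ) ^ (η / 2) := by field_simp
      have h2 : 4 * (1 + Γ) * Real.log Y ≤ 4 * (1 + |Γ|) * Real.log Y := by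
        apply mul_le_mul_of_nonneg_right _ (by linarith)
        linarith [le_abs_self Γ]
      linarith
  obtain ⟨Y0, hY0⟩ := Filter.eventually_atTop.1 hev
  exact ⟨max 3 Y0, le_max_left _ _, fun Y hY => hY0 Y (le_trans (le_max_right _ _) hY)⟩

private theorem Geo_pa_le {v : ℝ} {a : ℕ → ℝ} (ha : ∀ i, a i ∈ Set.Icc 1 v) (j : ℕ) : pa a j ≤ v ^ j := by
  induction j with
  | zero => simp [pa]
  | succ j ih =>
    have h : pa a (j + 1) = pa a j * a j := Finset.prod_range_succ _ _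
    rw [h, pow_succ]
    have h1 := (ha j).1
    have h2 := (ha j).2
    have h3 := pa_one_le ha j
    exact mul_le_mul ih h2 (by linarith) (by linarith)

theorem geo {v Γ η δ : ℝ} (hv : 1 ≤ v) (hΓ : 0 ≤ Γ) (hη : 0 < η) (hη1 : η ≤ 1 / 20) (hδ : 0 < δ) :
    ∃ Y0 : ℕ, 3 ≤ Y0 ∧ ∀ Y : ℕ, Y0 ≤ Y → ∀ a β : ℕ → ℝ, (∀ i, a i ∈ Set.Icc 1 v) → (∀ i, |β i| ≤ Γ) →
    ∀ j : ℕ, (j : ℝ) ≤ 2 * (Real.log Y / Real.log (Real.log Y)) →
      pa a j ≤ (Y : ℝ) ^ δ ∧ Real.log Y - 1 ≤ ww a Y j ∧ ww a Y j ≤ (1 + δ) * Real.log Y + 1 ∧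
      (∀ n ∈ Finset.Ioc Y (2 * Y), 0 < MCC.chain a β n j ∧ (n : ℝ) / 2 ≤ MCC.chain a β n j ∧
        |Real.log (MCC.chain a β n j) - ww a Y j| ≤ 3 ∧
        |Real.log (MCC.chain a β n j) - (Real.log (pa a j) + Real.log n)| ≤ Real.log Y ^ 2 / (2 * Y)) ∧
      (∀ n ∈ Finset.Ioc Y (2 * Y), ∀ n' ∈ Finset.Ioc Y (2 * Y), GenY η Y n n' →
        Gen η (ww a Y j) (MCC.chain a β n j) (MCC.chain a β n' j)) := by
  have hδ' : 0 < min δ (1 / 2) := lt_min hδ (by norm_num)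
  obtain ⟨Y0, hY3, hY0⟩ := Geo_ev (v := v) (Γ := Γ) hη hδ'
  refine ⟨Y0, hY3, ?_⟩
  intro Y hY a β ha hβ j hj
  obtain ⟨c1, c2, c4, c8, c6, c5⟩ := hY0 Y hY
  have hYr : (3 : ℝ) ≤ Y := by exact_mod_cast le_trans hY3 hY
  have hYpos : (0 : ℝ) < Y := by linarith
  have hY1 : (1 : ℝ) ≤ Y := by linarith
  have hlv : 0 ≤ Real.log v := Real.log_nonneg hv
  set L : ℝ := Real.log Y with hL
  set LL : ℝ := Real.log L with hLL
  have hLp : 0 < L := by linarith
  have hA1 : 1 ≤ pa a j := pa_one_le ha j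
  have hA0 : 0 < pa a j := by linarith
  have hj0 : (0 : ℝ) ≤ j := Nat.cast_nonneg j
  have hj2 : (j : ℝ) ≤ 2 * L := by
    have : L / LL ≤ L := div_le_self hLp.le c1
    linarith
  -- the size of pa
  have hAd : pa a j ≤ Real.exp (min δ (1 / 2) * L) := by
    have h1 := Geo_pa_le ha j
    have h2 : v ^ j = Real.exp (j * Real.log v) := by
      rw [mul_comm, Real.exp_mul, Real.exp_log (by linarith), Real.rpow_natCast]
    refine le_trans h1 ?_
    rw [h2]
    apply Real.exp_le_exp.2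
    have h3 : (j : ℝ) * Real.log v ≤ 2 * (L / LL) * Real.log v := mul_le_mul_of_nonneg_right hj hlv
    have h4 : 2 * (L / LL) * Real.log v = L / LL * (2 * Real.log v) := by ring
    have h5 : L / LL * (2 * Real.log v) ≤ L / LL * (min δ (1 / 2) * LL) :=
      mul_le_mul_of_nonneg_left c2 (by positivity)
    have h6 : L / LL * (min δ (1 / 2) * LL) = min δ (1 / 2) * L := by
      have : LL ≠ 0 := by linarith
      field_simp
    linarith
  have hYexp : ∀ t : ℝ, (Y : ℝ) ^ t = Real.exp (t * L) := by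
    intro t
    rw [Real.rpow_def_of_pos hYpos, mul_comm]
  have hlogA : Real.log (pa a j) ≤ min δ (1 / 2) * L := by
    have := Real.log_le_log hA0 hAd
    rwa [Real.log_exp] at this
  have hlogA0 : 0 ≤ Real.log (pa a j) := Real.log_nonneg hA1
  have hlogAY : Real.log (pa a j * Y) = Real.log (pa a j) + L := Real.log_mul hA0.ne' hYpos.ne'
  have hw1 : ww a Y j ≤ Real.log (pa a j) + L := by
    unfold ww
    rw [hlogAY]
    exact Nat.floor_le (by linarith)
  have hw2 : Real.log (pa a j) + L < ww a Y j + 1 := by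
    unfold ww
    rw [hlogAY]
    exact Nat.lt_floor_add_one _
  have hmd : min δ (1 / 2) ≤ δ := min_le_left _ _
  have hmh : min δ (1 / 2) ≤ 1 / 2 := min_le_right _ _
  have hmdL : min δ (1 / 2) * L ≤ δ * L := mul_le_mul_of_nonneg_right hmd hLp.le
  have hmhL : min δ (1 / 2) * L ≤ 1 / 2 * L := mul_le_mul_of_nonneg_right hmh hLp.le
  have hG : (1 + Γ) * (4 * L + 2) ≤ Y := by
    have h1 : 4 * L + 2 ≤ 5 * L := by linarith
    have h2 : (1 + Γ) * (4 * L + 2) ≤ (L / 8) * (5 * L) := by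
      apply mul_le_mul _ h1 (by linarith) (by linarith)
      linarith
    nlinarith
  -- one point
  have key : ∀ n ∈ Finset.Ioc Y (2 * Y), |(MCC.chain a β n j : ℝ) - pa a j * n| ≤ (1 + Γ) * j * pa a j := by
    intro n hn
    rw [Finset.mem_Ioc] at hn
    apply chain_near hΓ ha hβ
    have hn1 : (Y : ℝ) < n := by exact_mod_cast hn.1
    have : (1 + Γ) * ((j : ℝ) + 2) ≤ (1 + Γ) * (4 * L + 2) := by
      apply mul_le_mul_of_nonneg_left _ (by linarith)
      linarith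
    linarith
  refine ⟨?_, ?_, ?_, ?_, ?_⟩
  · rw [hYexp]
    refine le_trans hAd (Real.exp_le_exp.2 hmdL)
  · linarith
  · have : (1 + δ) * L = L + δ * L := by ring
    linarith
  · intro n hn
    have hk := key n hn
    rw [Finset.mem_Ioc] at hn
    have hn1 : (Y : ℝ) < n := by exact_mod_cast hn.1
    have hn2 : (n : ℝ) ≤ 2 * Y := by exact_mod_cast hn.2
    have hn0 : (0 : ℝ) < n := by linarith
    set c : ℝ := (MCC.chain a β n j : ℝ) with hc
    have hk' := abs_le.1 hk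
    have hjn : (1 + Γ) * j ≤ n / 2 := by
      have : (1 + Γ) * (j : ℝ) ≤ (1 + Γ) * (2 * L) := mul_le_mul_of_nonneg_left hj2 (by linarith)
      nlinarith
    have hc2 : pa a j * n / 2 ≤ c := by
      have : (1 + Γ) * j * pa a j ≤ n / 2 * pa a j := mul_le_mul_of_nonneg_right hjn hA0.le
      nlinarith [hk'.1]
    have hcn : (n : ℝ) / 2 ≤ c := by
      have : 1 * (n : ℝ) ≤ pa a j * n := mul_le_mul_of_nonneg_right hA1 hn0.le
      linarith
    have hc0 : 0 < c := by linarith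
    have hAn : 0 < pa a j * n := by positivity
    -- the quotient
    have hq : |c / (pa a j * n) - 1| ≤ 2 * (1 + Γ) * L / Y := by
      have e1 : c / (pa a j * n) - 1 = (c - pa a j * n) / (pa a j * n) := by
        field_simp
      rw [e1, abs_div, abs_of_pos hAn, div_le_div_iff₀ hAn hYpos]
      calc |c - pa a j * n| * Y ≤ (1 + Γ) * j * pa a j * n := by
            apply mul_le_mul hk hn1.le hYpos.le (by positivity)
        _ ≤ (1 + Γ) * (2 * L) * pa a j * n := by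
            gcongr
        _ = 2 * (1 + Γ) * L * (pa a j * n) := by ring
    have hq2 : (1 : ℝ) / 2 ≤ c / (pa a j * n) := by
      rw [le_div_iff₀ hAn]
      linarith
    have hlq : Real.log (c / (pa a j * n)) = Real.log c - (Real.log (pa a j) + Real.log n) := by
      rw [Real.log_div hc0.ne' hAn.ne', Real.log_mul hA0.ne' hn0.ne']
    have hlog : |Real.log (c / (pa a j * n))| ≤ 2 * (2 * (1 + Γ) * L / Y) := by
      set t := c / (pa a j * n) with ht
      have ht0 : 0 < t := by linarith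
      have h1 := Real.log_le_sub_one_of_pos ht0
      have h2 := Real.one_sub_inv_le_log_of_pos ht0
      have hq' := abs_le.1 hq
      have h3 : -(2 * |t - 1|) ≤ 1 - t⁻¹ := by
        have e2 : 1 - t⁻¹ = (t - 1) * t⁻¹ := by
          field_simp
        rw [e2]
        have h4 : t⁻¹ ≤ 2 := by
          rw [inv_le_comm₀ ht0 (by norm_num)]
          linarith
        have h5 : |(t - 1) * t⁻¹| ≤ |t - 1| * 2 := by
          rw [abs_mul, abs_of_pos (inv_pos.2 ht0)]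
          exact mul_le_mul_of_nonneg_left h4 (abs_nonneg _)
        have h6 := neg_abs_le ((t - 1) * t⁻¹)
        linarith
      have hp : 0 ≤ 2 * (1 + Γ) * L / Y := by positivity
      apply abs_le.2
      constructor
      · linarith
      · linarith [hq'.2]
    have hsm : 2 * (2 * (1 + Γ) * L / Y) ≤ L ^ 2 / (2 * Y) := by
      rw [← mul_div_assoc, div_le_div_iff₀ hYpos (by positivity)]
      have : 8 * (1 + Γ) * L ≤ L * L := mul_le_mul_of_nonneg_right c4 hLp.le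
      nlinarith
    have hsm2 : L ^ 2 / (2 * Y) ≤ 1 / 2 := by
      rw [div_le_div_iff₀ (by positivity) (by norm_num)]
      linarith
    rw [hlq] at hlog
    have hlog2 : |Real.log c - (Real.log (pa a j) + Real.log n)| ≤ L ^ 2 / (2 * Y) := hlog.trans hsm
    refine ⟨?_, hcn, ?_, hlog2⟩
    · have : (0 : ℝ) < (MCC.chain a β n j : ℝ) := hc0
      exact_mod_cast this
    · have h1 := abs_le.1 hlog2
      have hln1 : L ≤ Real.log n := Real.log_le_log hYpos hn1.le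
      have hln2 : Real.log n ≤ L + 1 := by
        have h2 : Real.log n ≤ Real.log (2 * Y) := Real.log_le_log hn0 hn2
        rw [Real.log_mul (by norm_num) hYpos.ne'] at h2
        have h3 := Real.log_two_lt_d9
        linarith
      apply abs_le.2
      constructor
      · linarith [h1.1]
      · linarith [h1.2]
  · intro n hn n' hn' hgen u v' hu hv' hu2 hv2
    have hk := key n hn
    have hk2 := key n' hn'
    set E : ℝ := Real.exp (η * ww a Y j) with hE
    have hE1 : E ≤ (Y : ℝ) ^ (3 * η / 2) := by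
      rw [hYexp]
      apply Real.exp_le_exp.2
      have : ww a Y j ≤ 3 / 2 * L := by linarith
      calc η * ww a Y j ≤ η * (3 / 2 * L) := mul_le_mul_of_nonneg_left this hη.le
        _ = 3 * η / 2 * L := by ring
    have hmono : (Y : ℝ) ^ (3 * η / 2) ≤ (Y : ℝ) ^ (2 * η) := Real.rpow_le_rpow_of_exponent_le hY1 (by linarith)
    have hg := hgen u v' hu hv' (by linarith) (by linarith)
    have hu0 : (0 : ℝ) ≤ u := Nat.cast_nonneg u
    have hv0 : (0 : ℝ) ≤ v' := Nat.cast_nonneg v'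
    set c : ℝ := (MCC.chain a β n j : ℝ) with hc
    set c' : ℝ := (MCC.chain a β n' j : ℝ) with hc'
    set T : ℝ := (Y : ℝ) ^ (3 * η / 2) with hT
    have hT0 : 0 < T := by positivity
    have hsplit : (Y : ℝ) ^ (2 * η) = T * (Y : ℝ) ^ (η / 2) := by
      rw [hT, ← Real.rpow_add hYpos]
      congr 1
      ring
    have e1 : (u : ℝ) * c - v' * c' = pa a j * (u * n - v' * n') + (u * (c - pa a j * n) - v' * (c' - pa a j * n')) := by
      ring
    have e2 : |(u : ℝ) * (c - pa a j * n) - v' * (c' - pa a j * n')| ≤ 2 * T * ((1 + Γ) * (2 * L) * pa a j) := by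
      have f1 : |(u : ℝ) * (c - pa a j * n)| ≤ T * ((1 + Γ) * (2 * L) * pa a j) := by
        rw [abs_mul, abs_of_nonneg hu0]
        apply mul_le_mul (hu2.trans hE1) _ (abs_nonneg _) hT0.le
        refine hk.trans ?_
        gcongr
      have f2 : |(v' : ℝ) * (c' - pa a j * n')| ≤ T * ((1 + Γ) * (2 * L) * pa a j) := by
        rw [abs_mul, abs_of_nonneg hv0]
        apply mul_le_mul (hv2.trans hE1) _ (abs_nonneg _) hT0.le
        refine hk2.trans ?_
        gcongr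
      have f3 := abs_sub ((u : ℝ) * (c - pa a j * n)) (v' * (c' - pa a j * n'))
      linarith
    have e3 : pa a j * (Y : ℝ) ^ (2 * η) ≤ |pa a j * ((u : ℝ) * n - v' * n')| := by
      rw [abs_mul, abs_of_pos hA0]
      exact mul_le_mul_of_nonneg_left hg hA0.le
    have e4 : |pa a j * ((u : ℝ) * n - v' * n')| ≤ |(u : ℝ) * c - v' * c'| +
        |(u : ℝ) * (c - pa a j * n) - v' * (c' - pa a j * n')| := by
      have : pa a j * ((u : ℝ) * n - v' * n') = ((u : ℝ) * c - v' * c') -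
          (u * (c - pa a j * n) - v' * (c' - pa a j * n')) := by ring
      rw [this]
      exact abs_sub _ _
    have e5 : pa a j * T ≤ pa a j * (Y : ℝ) ^ (2 * η) - 2 * T * ((1 + Γ) * (2 * L) * pa a j) := by
      rw [hsplit]
      have : pa a j * (T * (Y : ℝ) ^ (η / 2)) - 2 * T * ((1 + Γ) * (2 * L) * pa a j) =
          pa a j * T * ((Y : ℝ) ^ (η / 2) - 4 * (1 + Γ) * L) := by ring
      rw [this]
      have h1 : (1 : ℝ) ≤ (Y : ℝ) ^ (η / 2) - 4 * (1 + Γ) * L := by linarith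
      have h2 : 0 < pa a j * T := by positivity
      nlinarith
    have e6 : T ≤ pa a j * T := by nlinarith
    linarith

end RLC
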