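import Pool.Agent.RLC.KSL
import Pool.Agent.ASI.Div

/-!
# RLC.HM: the Halász-Montgomery inequality (continuous version)

PROOF. `g_n = exp(-(log n-c)²/4)`, `A(τ) = gse e c τ` (continuous and bounded in `τ`: absolutely convergent, `ASI.div_gauss`;
see `Pool/Agent/ASI/T4Eq.lean`), `I = ∫_E |A|²` (finite, `E ⊆ [-T, T]`). With `v_n = ∫_E conj(A(τ)) n^(-iτ) dτ` (Fubini):
`I = ∑ e_n n^(-1) g_n v_n ≤ (∑ e_n² n^(-1) exp(-3(log n-c)²/8))^(1/2) (∑ n^(-1) exp(-(log n-c)²/8) |v_n|²)^(1/2)`. The first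
sum is `≤ C (1+c)^6` by `ASI.div_gauss`. The second one is
`∫_E ∫_E conj(A(τ)) A(τ') KS 0 c (τ - τ') dτ dτ' ≤ ∫_E ∫_E |A(τ)| |A(τ')| |KS 0 c (τ-τ')| ≤ ∫_E |A(τ)|² ∫_E |KS 0 c (τ-τ')| dτ' dτ`
(`2|A A'| ≤ |A|² + |A'|²` and symmetry), and the inner integral is `≤ C (1+c) (2 + exp(-κc) |E|)` by `KS_long K`, as
`|τ-τ'| ≤ 2T ≤ exp(Kc)`, `∫ exp(-|t|) dt = 2`. So `I² ≤ C (1+c)^6 · I · C (1+c)(2 + exp(-κc)|E|)`.
(It is convenient to prove it first for finite sums, or to work with `tsum` and `HasSum.integral`.)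
-/

namespace RLC

open MeasureTheory

private theorem HM_np_ne (t : ℝ) : (-(1 + (t : ℂ) * Complex.I)) ≠ 0 := by
  intro h0
  have := congrArg Complex.re h0
  simp at this

private theorem HM_np_zero (t : ℝ) : ASI.np 0 t = 0 := by
  unfold ASI.np
  rw [Nat.cast_zero, Complex.zero_cpow (HM_np_ne t)]

private theorem HM_np_norm (n : ℕ) (t : ℝ) : ‖ASI.np n t‖ = ((n : ℝ))⁻¹ := by
  rcases Nat.eq_zero_or_pos n with h | h
  · subst h
    rw [HM_np_zero, norm_zero, Nat.cast_zero, inv_zero]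
  · unfold ASI.np
    rw [Complex.norm_natCast_cpow_of_pos h]
    have : (-(1 + (t : ℂ) * Complex.I)).re = -1 := by simp
    rw [this, Real.rpow_neg_one]

private theorem HM_np_cont (n : ℕ) : Continuous (fun t : ℝ => ASI.np n t) := by
  unfold ASI.np
  refine Continuous.const_cpow (by fun_prop) (Or.inr fun t => HM_np_ne t)

private theorem HM_np_exp {n : ℕ} (hn : n ≠ 0) (t : ℝ) :
    ASI.np n t = Complex.exp (-((1 + (t : ℂ) * Complex.I) * (Real.log n : ℂ))) := by
  unfold ASI.np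
  rw [Complex.cpow_def_of_ne_zero (Nat.cast_ne_zero.2 hn), ← Complex.natCast_log]
  congr 1
  ring

private theorem HM_np_mul (n : ℕ) (t t' : ℝ) :
    (n : ℂ) * (ASI.np n t * (starRingEnd ℂ) (ASI.np n t')) = ASI.np n (t - t') := by
  rcases Nat.eq_zero_or_pos n with h | h
  · subst h
    rw [HM_np_zero (t - t'), Nat.cast_zero, zero_mul]
  · have hn : n ≠ 0 := h.ne'
    have h1 : (n : ℂ) = Complex.exp (Real.log n : ℂ) := by
      rw [Complex.natCast_log, Complex.exp_log (Nat.cast_ne_zero.2 hn)]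
    rw [HM_np_exp hn, HM_np_exp hn, HM_np_exp hn, ← Complex.exp_conj]
    conv_lhs => rw [h1]
    rw [← Complex.exp_add, ← Complex.exp_add]
    congr 1
    simp only [map_neg, map_mul, map_add, map_one, Complex.conj_ofReal, Complex.conj_I]
    push_cast
    ring

private theorem HM_abs_int : Integrable (fun x : ℝ => Real.exp (-|x|)) ∧
    ∫ x : ℝ, Real.exp (-|x|) = 2 := by
  constructor
  · rw [← integrableOn_univ, ← Set.Iic_union_Ioi (a := (0 : ℝ))]
    refine IntegrableOn.union ?_ ?_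
    · refine (integrableOn_exp_Iic 0).congr_fun ?_ measurableSet_Iic
      intro x hx
      have hx' : x ≤ 0 := hx
      simp only [abs_of_nonpos hx', neg_neg]
    · refine (integrableOn_exp_neg_Ioi 0).congr_fun ?_ measurableSet_Ioi
      intro x hx
      have hx' : 0 < x := hx
      simp only [abs_of_pos hx']
  · have := integral_comp_abs (f := fun x => Real.exp (-x))
    rw [this, integral_exp_neg_Ioi_zero, mul_one]

/-- The weight in the second factor. -/
private noncomputable def HM_w (c : ℝ) (n : ℕ) : ℝ := Real.exp (-(Real.log n - c) ^ 2 / 8)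

/-- Finite sums. -/
private noncomputable def HM_F (e : ℕ → ℝ) (c : ℝ) (S : Finset ℕ) (t : ℝ) : ℂ :=
  ∑ n ∈ S, ((e n : ℝ) : ℂ) * ASI.np n t * (Real.exp (-(Real.log n - c) ^ 2 / 4) : ℝ)

private theorem HM_F_cont (e : ℕ → ℝ) (c : ℝ) (S : Finset ℕ) : Continuous (HM_F e c S) := by
  unfold HM_F
  refine continuous_finsetSum _ fun n _ => ?_
  exact (continuous_const.mul (HM_np_cont n)).mul continuous_const

private theorem HM_F_bdd (e : ℕ → ℝ) (c : ℝ) (S : Finset ℕ) : ∃ B : ℝ, 0 ≤ B ∧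
    ∀ t, ‖HM_F e c S t‖ ≤ B := by
  refine ⟨∑ n ∈ S, |e n| * ((n : ℝ))⁻¹ * Real.exp (-(Real.log n - c) ^ 2 / 4), ?_, ?_⟩
  · exact Finset.sum_nonneg fun n _ => by positivity
  · intro t
    unfold HM_F
    refine (norm_sum_le _ _).trans (Finset.sum_le_sum fun n _ => ?_)
    rw [norm_mul, norm_mul, HM_np_norm, Complex.norm_real, Complex.norm_real, Real.norm_eq_abs,
      Real.norm_eq_abs, abs_of_pos (Real.exp_pos _)]

/-- Duality: the second factor. -/
private theorem HM_dual (μ : Measure ℝ) [IsFiniteMeasure μ] {F : ℝ → ℂ} (hF : Continuous F)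
    {B : ℝ} (hB : ∀ t, ‖F t‖ ≤ B) (c : ℝ) (T : Finset ℕ) :
    ∑ n ∈ T, (n : ℝ) * HM_w c n * ‖∫ t, (starRingEnd ℂ) (F t) * ASI.np n t ∂μ‖ ^ 2 ≤
      ∫ t, ‖F t‖ * ∫ t', ‖F t'‖ * ‖∑ n ∈ T, ((HM_w c n : ℝ) : ℂ) * ASI.np n (t - t')‖ ∂μ ∂μ := by
  have hint1 : ∀ n : ℕ, Integrable (fun t => (starRingEnd ℂ) (F t) * ASI.np n t) μ := by
    intro n
    refine Integrable.of_bound
      ((Complex.continuous_conj.comp hF).mul (HM_np_cont n)).aestronglyMeasurable
      (B * ((n : ℝ))⁻¹) (Filter.Eventually.of_forall fun t => ?_)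
    rw [norm_mul, HM_np_norm, RCLike.norm_conj]
    exact mul_le_mul_of_nonneg_right (hB t) (by positivity)
  have hint2 : ∀ n : ℕ, Integrable (fun t => F t * (starRingEnd ℂ) (ASI.np n t)) μ := by
    intro n
    refine Integrable.of_bound
      (hF.mul (Complex.continuous_conj.comp (HM_np_cont n))).aestronglyMeasurable
      (B * ((n : ℝ))⁻¹) (Filter.Eventually.of_forall fun t => ?_)
    rw [norm_mul, RCLike.norm_conj, HM_np_norm]
    exact mul_le_mul_of_nonneg_right (hB t) (by positivity)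
  have hconj : ∀ n : ℕ, (starRingEnd ℂ) (∫ t, (starRingEnd ℂ) (F t) * ASI.np n t ∂μ) =
      ∫ t, F t * (starRingEnd ℂ) (ASI.np n t) ∂μ := by
    intro n
    rw [← integral_conj]
    refine integral_congr_ae (Filter.Eventually.of_forall fun t => ?_)
    simp only [map_mul, Complex.conj_conj]
  have h1 : ((∑ n ∈ T, (n : ℝ) * HM_w c n *
      ‖∫ t, (starRingEnd ℂ) (F t) * ASI.np n t ∂μ‖ ^ 2 : ℝ) : ℂ) =
      ∫ t, (starRingEnd ℂ) (F t) *
        ∫ t', F t' * ∑ n ∈ T, ((HM_w c n : ℝ) : ℂ) * ASI.np n (t - t') ∂μ ∂μ := by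
    have e1 : ∀ t, ∫ t', F t' * ∑ n ∈ T, ((HM_w c n : ℝ) : ℂ) * ASI.np n (t - t') ∂μ =
        ∑ n ∈ T, ((n : ℂ) * ((HM_w c n : ℝ) : ℂ)) * (ASI.np n t *
          ∫ t', F t' * (starRingEnd ℂ) (ASI.np n t') ∂μ) := by
      intro t
      have e2 : ∀ t', F t' * ∑ n ∈ T, ((HM_w c n : ℝ) : ℂ) * ASI.np n (t - t') =
          ∑ n ∈ T, ((n : ℂ) * ((HM_w c n : ℝ) : ℂ)) * (ASI.np n t *
            (F t' * (starRingEnd ℂ) (ASI.np n t'))) := by
        intro t'
        rw [Finset.mul_sum]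
        refine Finset.sum_congr rfl fun n _ => ?_
        rw [← HM_np_mul]
        ring
      rw [integral_congr_ae (Filter.Eventually.of_forall e2), integral_finsetSum]
      · refine Finset.sum_congr rfl fun n _ => ?_
        rw [integral_const_mul, integral_const_mul]
      · intro n _
        exact ((hint2 n).const_mul _).const_mul _
    have e3 : ∀ t, (starRingEnd ℂ) (F t) *
        ∫ t', F t' * ∑ n ∈ T, ((HM_w c n : ℝ) : ℂ) * ASI.np n (t - t') ∂μ =
        ∑ n ∈ T, ((n : ℂ) * ((HM_w c n : ℝ) : ℂ)) *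
          ((∫ t', F t' * (starRingEnd ℂ) (ASI.np n t') ∂μ) *
          ((starRingEnd ℂ) (F t) * ASI.np n t)) := by
      intro t
      rw [e1, Finset.mul_sum]
      refine Finset.sum_congr rfl fun n _ => ?_
      ring
    rw [integral_congr_ae (Filter.Eventually.of_forall e3), integral_finsetSum]
    · rw [Complex.ofReal_sum]
      refine Finset.sum_congr rfl fun n _ => ?_
      rw [integral_const_mul, integral_const_mul, ← hconj, mul_comm ((starRingEnd ℂ) _),
        Complex.mul_conj, Complex.normSq_eq_norm_sq]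
      push_cast
      ring
    · intro n _
      exact ((hint1 n).const_mul _).const_mul _
  have h2 : ∑ n ∈ T, (n : ℝ) * HM_w c n * ‖∫ t, (starRingEnd ℂ) (F t) * ASI.np n t ∂μ‖ ^ 2 =
      ‖∫ t, (starRingEnd ℂ) (F t) *
        ∫ t', F t' * ∑ n ∈ T, ((HM_w c n : ℝ) : ℂ) * ASI.np n (t - t') ∂μ ∂μ‖ := by
    rw [← h1, Complex.norm_real, Real.norm_of_nonneg]
    refine Finset.sum_nonneg fun n _ => ?_
    unfold HM_w
    positivity
  rw [h2]
  refine (norm_integral_le_integral_norm _).trans ?_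
  have hk : ∀ t t', ‖∑ n ∈ T, ((HM_w c n : ℝ) : ℂ) * ASI.np n (t - t')‖ ≤
      ∑ n ∈ T, HM_w c n * ((n : ℝ))⁻¹ := by
    intro t t'
    refine (norm_sum_le _ _).trans (Finset.sum_le_sum fun n _ => ?_)
    rw [norm_mul, HM_np_norm, Complex.norm_real,
      Real.norm_of_nonneg (show 0 ≤ HM_w c n from (Real.exp_pos _).le)]
  have hkc : Continuous (fun p : ℝ × ℝ => ∑ n ∈ T, ((HM_w c n : ℝ) : ℂ) * ASI.np n (p.1 - p.2)) := by
    refine continuous_finsetSum _ fun n _ => ?_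
    exact continuous_const.mul ((HM_np_cont n).comp (continuous_fst.sub continuous_snd))
  have hB0 : 0 ≤ B := (norm_nonneg _).trans (hB 0)
  have hK0 : 0 ≤ ∑ n ∈ T, HM_w c n * ((n : ℝ))⁻¹ :=
    Finset.sum_nonneg fun n _ => by unfold HM_w; positivity
  have hprod : Integrable (fun p : ℝ × ℝ => ‖F p.2‖ *
      ‖∑ n ∈ T, ((HM_w c n : ℝ) : ℂ) * ASI.np n (p.1 - p.2)‖) (μ.prod μ) := by
    refine Integrable.of_bound (((hF.comp continuous_snd).norm.mul hkc.norm).aestronglyMeasurable)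
      (B * ∑ n ∈ T, HM_w c n * ((n : ℝ))⁻¹) (Filter.Eventually.of_forall fun p => ?_)
    rw [norm_mul, norm_norm, norm_norm]
    exact mul_le_mul (hB _) (hk _ _) (norm_nonneg _) hB0
  have hin : ∀ t, ‖∫ t', F t' * ∑ n ∈ T, ((HM_w c n : ℝ) : ℂ) * ASI.np n (t - t') ∂μ‖ ≤
      ∫ t', ‖F t'‖ * ‖∑ n ∈ T, ((HM_w c n : ℝ) : ℂ) * ASI.np n (t - t')‖ ∂μ := by
    intro t
    refine (norm_integral_le_integral_norm _).trans (le_of_eq ?_)
    refine integral_congr_ae (Filter.Eventually.of_forall fun t' => ?_)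
    simp only [norm_mul]
  have hright : Integrable (fun t => ‖F t‖ *
      ∫ t', ‖F t'‖ * ‖∑ n ∈ T, ((HM_w c n : ℝ) : ℂ) * ASI.np n (t - t')‖ ∂μ) μ := by
    have h3 := hprod.integral_prod_left
    refine Integrable.mono' (h3.const_mul B) ?_ (Filter.Eventually.of_forall fun t => ?_)
    · exact hF.norm.aestronglyMeasurable.mul h3.aestronglyMeasurable
    · have h4 : 0 ≤ ∫ t', ‖F t'‖ * ‖∑ n ∈ T, ((HM_w c n : ℝ) : ℂ) * ASI.np n (t - t')‖ ∂μ :=
        integral_nonneg fun t' => mul_nonneg (norm_nonneg _) (norm_nonneg _)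
      rw [norm_mul, norm_norm, Real.norm_of_nonneg h4]
      exact mul_le_mul_of_nonneg_right (hB t) h4
  refine integral_mono_of_nonneg (Filter.Eventually.of_forall fun t => norm_nonneg _) hright
    (Filter.Eventually.of_forall fun t => ?_)
  simp only [norm_mul, RCLike.norm_conj]
  exact mul_le_mul_of_nonneg_left (hin t) (norm_nonneg _)

private theorem HM_schur_int (μ : Measure ℝ) [IsFiniteMeasure μ] {F : ℝ → ℂ} (hF : Continuous F)
    {B : ℝ} (hB : ∀ t, ‖F t‖ ≤ B) {P R : ℝ} (hP : 0 ≤ P) (hR : 0 ≤ R) :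
    Integrable (fun t => ‖F t‖ * ∫ t', ‖F t'‖ * (P * Real.exp (-|t - t'|) + R) ∂μ) μ ∧
    ∀ t, Integrable (fun t' => ‖F t'‖ * (P * Real.exp (-|t - t'|) + R)) μ := by
  have hB0 : 0 ≤ B := (norm_nonneg _).trans (hB 0)
  have hkc : Continuous (fun p : ℝ × ℝ => P * Real.exp (-|p.1 - p.2|) + R) := by fun_prop
  have hkb : ∀ t t' : ℝ, 0 ≤ P * Real.exp (-|t - t'|) + R ∧
      P * Real.exp (-|t - t'|) + R ≤ P + R := by
    intro t t'
    have h1 : Real.exp (-|t - t'|) ≤ 1 := Real.exp_le_one_iff.2 (neg_nonpos.2 (abs_nonneg _))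
    have h2 := Real.exp_pos (-|t - t'|)
    constructor
    · positivity
    · nlinarith
  constructor
  · have hA0 : Integrable (fun p : ℝ × ℝ =>
        ‖F p.1‖ * (‖F p.2‖ * (P * Real.exp (-|p.1 - p.2|) + R))) (μ.prod μ) := by
      refine Integrable.of_bound ((hF.comp continuous_fst).norm.mul
        ((hF.comp continuous_snd).norm.mul hkc)).aestronglyMeasurable
        (B * (B * (P + R))) (Filter.Eventually.of_forall fun p => ?_)
      rw [norm_mul, norm_mul, norm_norm, norm_norm, Real.norm_of_nonneg (hkb _ _).1]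
      exact mul_le_mul (hB _) (mul_le_mul (hB _) (hkb _ _).2 (hkb _ _).1 hB0)
        (mul_nonneg (norm_nonneg _) (hkb _ _).1) hB0
    refine hA0.integral_prod_left.congr (Filter.Eventually.of_forall fun t => ?_)
    simp only
    rw [integral_const_mul]
  · intro t
    have hc : Continuous (fun t' : ℝ => P * Real.exp (-|t - t'|) + R) := by fun_prop
    refine Integrable.of_bound (hF.norm.mul hc).aestronglyMeasurable (B * (P + R))
      (Filter.Eventually.of_forall fun t' => ?_)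
    rw [norm_mul, norm_norm, Real.norm_of_nonneg (hkb _ _).1]
    exact mul_le_mul (hB _) (hkb _ _).2 (hkb _ _).1 hB0

/-- The Schur test for the kernel. -/
private theorem HM_schur (μ : Measure ℝ) [IsFiniteMeasure μ] {F : ℝ → ℂ} (hF : Continuous F)
    {B : ℝ} (hB : ∀ t, ‖F t‖ ≤ B) {P R : ℝ} (hP : 0 ≤ P) (hR : 0 ≤ R)
    (hμ : μ ≤ volume) :
    ∫ t, ‖F t‖ * ∫ t', ‖F t'‖ * (P * Real.exp (-|t - t'|) + R) ∂μ ∂μ ≤
      (2 * P + R * (μ Set.univ).toReal) * ∫ t, ‖F t‖ ^ 2 ∂μ := by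
  have hB0 : 0 ≤ B := (norm_nonneg _).trans (hB 0)
  have hkc : Continuous (fun p : ℝ × ℝ => P * Real.exp (-|p.1 - p.2|) + R) := by fun_prop
  have hkb : ∀ t t' : ℝ, 0 ≤ P * Real.exp (-|t - t'|) + R ∧
      P * Real.exp (-|t - t'|) + R ≤ P + R := by
    intro t t'
    have h1 : Real.exp (-|t - t'|) ≤ 1 := Real.exp_le_one_iff.2 (neg_nonpos.2 (abs_nonneg _))
    have h2 := Real.exp_pos (-|t - t'|)
    constructor
    · positivity
    · nlinarith
  -- the inner integral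
  have hk : ∀ t, ∫ t', (P * Real.exp (-|t - t'|) + R) ∂μ ≤ 2 * P + R * (μ Set.univ).toReal := by
    intro t
    have hi : Integrable (fun t' : ℝ => Real.exp (-|t - t'|)) volume :=
      HM_abs_int.1.comp_sub_left t
    have hi2 : Integrable (fun t' : ℝ => Real.exp (-|t - t'|)) μ := hi.mono_measure hμ
    rw [integral_add (hi2.const_mul P) (integrable_const R), integral_const_mul, integral_const]
    have h1 : ∫ t', Real.exp (-|t - t'|) ∂μ ≤ 2 := by
      calc ∫ t', Real.exp (-|t - t'|) ∂μ ≤ ∫ t', Real.exp (-|t - t'|) :=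
            integral_mono_measure hμ (Filter.Eventually.of_forall fun t' => (Real.exp_pos _).le) hi
        _ = ∫ t', Real.exp (-|t'|) :=
            integral_sub_left_eq_self (fun x : ℝ => Real.exp (-|x|)) volume t
        _ = 2 := HM_abs_int.2
    have h2 : μ.real Set.univ • R = R * (μ Set.univ).toReal := by
      rw [smul_eq_mul, mul_comm]
      rfl
    rw [h2]
    nlinarith
  have hsq : Integrable (fun t => ‖F t‖ ^ 2) μ := by
    refine Integrable.of_bound (hF.norm.pow 2).aestronglyMeasurable (B ^ 2)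
      (Filter.Eventually.of_forall fun t => ?_)
    rw [norm_pow, norm_norm]
    exact pow_le_pow_left₀ (norm_nonneg _) (hB t) 2
  -- the two products
  have hA1 : Integrable (fun p : ℝ × ℝ => ‖F p.1‖ ^ 2 * (P * Real.exp (-|p.1 - p.2|) + R))
      (μ.prod μ) := by
    refine Integrable.of_bound (((hF.comp continuous_fst).norm.pow 2).mul hkc).aestronglyMeasurable
      (B ^ 2 * (P + R)) (Filter.Eventually.of_forall fun p => ?_)
    rw [norm_mul, norm_pow, norm_norm, Real.norm_of_nonneg (hkb _ _).1]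
    exact mul_le_mul (pow_le_pow_left₀ (norm_nonneg _) (hB _) 2) (hkb _ _).2 (hkb _ _).1
      (by positivity)
  have hA2 : Integrable (fun p : ℝ × ℝ => ‖F p.2‖ ^ 2 * (P * Real.exp (-|p.1 - p.2|) + R))
      (μ.prod μ) := by
    refine Integrable.of_bound (((hF.comp continuous_snd).norm.pow 2).mul hkc).aestronglyMeasurable
      (B ^ 2 * (P + R)) (Filter.Eventually.of_forall fun p => ?_)
    rw [norm_mul, norm_pow, norm_norm, Real.norm_of_nonneg (hkb _ _).1]
    exact mul_le_mul (pow_le_pow_left₀ (norm_nonneg _) (hB _) 2) (hkb _ _).2 (hkb _ _).1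
      (by positivity)
  have hA0 : Integrable (fun p : ℝ × ℝ => ‖F p.1‖ * (‖F p.2‖ * (P * Real.exp (-|p.1 - p.2|) + R)))
      (μ.prod μ) := by
    refine Integrable.of_bound ((hF.comp continuous_fst).norm.mul
      ((hF.comp continuous_snd).norm.mul hkc)).aestronglyMeasurable
      (B * (B * (P + R))) (Filter.Eventually.of_forall fun p => ?_)
    rw [norm_mul, norm_mul, norm_norm, norm_norm, Real.norm_of_nonneg (hkb _ _).1]
    exact mul_le_mul (hB _) (mul_le_mul (hB _) (hkb _ _).2 (hkb _ _).1 hB0)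
      (mul_nonneg (norm_nonneg _) (hkb _ _).1) hB0
  have hI1 : ∫ p, ‖F p.1‖ ^ 2 * (P * Real.exp (-|p.1 - p.2|) + R) ∂(μ.prod μ) ≤
      (2 * P + R * (μ Set.univ).toReal) * ∫ t, ‖F t‖ ^ 2 ∂μ := by
    rw [integral_prod _ hA1, ← integral_const_mul]
    refine integral_mono_of_nonneg (Filter.Eventually.of_forall fun t => ?_)
      (hsq.const_mul _) (Filter.Eventually.of_forall fun t => ?_)
    · exact integral_nonneg fun t' => mul_nonneg (by positivity) (hkb _ _).1
    · simp only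
      rw [integral_const_mul, mul_comm]
      exact mul_le_mul_of_nonneg_right (hk t) (by positivity)
  have hI2 : ∫ p, ‖F p.2‖ ^ 2 * (P * Real.exp (-|p.1 - p.2|) + R) ∂(μ.prod μ) ≤
      (2 * P + R * (μ Set.univ).toReal) * ∫ t, ‖F t‖ ^ 2 ∂μ := by
    rw [integral_prod_symm _ hA2, ← integral_const_mul]
    refine integral_mono_of_nonneg (Filter.Eventually.of_forall fun t => ?_)
      (hsq.const_mul _) (Filter.Eventually.of_forall fun t => ?_)
    · exact integral_nonneg fun t' => mul_nonneg (by positivity) (hkb _ _).1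
    · simp only
      rw [integral_const_mul, mul_comm]
      refine mul_le_mul_of_nonneg_right ?_ (by positivity)
      have h3 := hk t
      simp only [abs_sub_comm t] at h3
      exact h3
  have h0 : ∫ t, ‖F t‖ * ∫ t', ‖F t'‖ * (P * Real.exp (-|t - t'|) + R) ∂μ ∂μ =
      ∫ p, ‖F p.1‖ * (‖F p.2‖ * (P * Real.exp (-|p.1 - p.2|) + R)) ∂(μ.prod μ) := by
    rw [integral_prod _ hA0]
    refine integral_congr_ae (Filter.Eventually.of_forall fun t => ?_)
    simp only
    rw [integral_const_mul]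
  rw [h0]
  have h1 : ∫ p, ‖F p.1‖ * (‖F p.2‖ * (P * Real.exp (-|p.1 - p.2|) + R)) ∂(μ.prod μ) ≤
      ∫ p, (1 / 2 * (‖F p.1‖ ^ 2 * (P * Real.exp (-|p.1 - p.2|) + R)) +
        1 / 2 * (‖F p.2‖ ^ 2 * (P * Real.exp (-|p.1 - p.2|) + R))) ∂(μ.prod μ) := by
    refine integral_mono hA0 ((hA1.const_mul _).add (hA2.const_mul _)) fun p => ?_
    simp only
    nlinarith [mul_nonneg (sq_nonneg (‖F p.1‖ - ‖F p.2‖)) (hkb p.1 p.2).1]
  rw [integral_add (hA1.const_mul _) (hA2.const_mul _), integral_const_mul,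
    integral_const_mul] at h1
  linarith


/-- The summability of the terms. -/
private theorem HM_summ {e : ℕ → ℝ} (he : ∀ n : ℕ, |e n| ≤ (n.divisors.card : ℝ) * (1 + Real.log n))
    (c : ℝ) : Summable (fun n : ℕ => |e n| * ((n : ℝ))⁻¹ * Real.exp (-(Real.log n - c) ^ 2 / 4)) := by
  obtain ⟨C, -, hC⟩ := ASI.div_gauss
  refine Summable.of_nonneg_of_le (fun n => by positivity) (fun n => ?_) (hC c).1
  rcases Nat.eq_zero_or_pos n with h | h
  · subst h
    simp
  · have h1 : (1 : ℝ) ≤ (n.divisors.card : ℝ) := by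
      have : 1 ≤ n.divisors.card := Finset.card_pos.mpr ⟨1, Nat.one_mem_divisors.mpr h.ne'⟩
      exact_mod_cast this
    have h2 : 0 ≤ Real.log (n : ℝ) := Real.log_natCast_nonneg n
    have h3 : (1 : ℝ) ≤ (n.divisors.card : ℝ) * (1 + Real.log n) := by nlinarith
    have h4 : |e n| ≤ (n.divisors.card : ℝ) ^ 2 * (1 + Real.log n) ^ 2 := by
      refine (he n).trans ?_
      nlinarith
    have h5 : Real.exp (-(Real.log n - c) ^ 2 / 4) ≤ Real.exp (-(Real.log n - c) ^ 2 / 16) := by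
      apply Real.exp_le_exp.2
      nlinarith [sq_nonneg (Real.log n - c)]
    rw [div_eq_mul_inv]
    exact mul_le_mul (mul_le_mul_of_nonneg_right h4 (by positivity)) h5 (Real.exp_pos _).le
      (by positivity)

/-- The finite version. -/
private theorem HM_fin {K κ C1 C2 : ℝ} (hκ : 0 < κ) (hC1 : 1 ≤ C1) (hC2 : 1 ≤ C2)
    (hKS : ∀ (j : ℕ) (w τ : ℝ), j ≤ 1 → 0 ≤ w → |τ| ≤ Real.exp (K * w) →
      ‖ASI.KS j w τ‖ ≤ C1 * (1 + w) * (Real.exp (-|τ|) + Real.exp (-κ * w)))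
    (hdg : ∀ y : ℝ,
      Summable (fun n : ℕ => (n.divisors.card : ℝ) ^ 2 * (1 + Real.log n) ^ 2 / n *
        Real.exp (-(Real.log n - y) ^ 2 / 16)) ∧
      ∑' n : ℕ, (n.divisors.card : ℝ) ^ 2 * (1 + Real.log n) ^ 2 / n *
        Real.exp (-(Real.log n - y) ^ 2 / 16) ≤ C2 * (1 + |y|) ^ 6)
    {e : ℕ → ℝ} (he : ∀ n : ℕ, |e n| ≤ (n.divisors.card : ℝ) * (1 + Real.log n)) {c T : ℝ}
    (hc : 0 ≤ c) (hTK : 2 * T ≤ Real.exp (K * c)) {E : Set ℝ} (hE : MeasurableSet E)
    (hET : E ⊆ Set.Icc (-T) T) (S : Finset ℕ) :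
    ∫ τ in E, ‖HM_F e c S τ‖ ^ 2 ≤
      2 * C1 * C2 * (1 + c) ^ 8 * (1 + Real.exp (-κ * c) * (volume E).toReal) := by
  have hfin : IsFiniteMeasure (volume.restrict E) := by
    refine ⟨?_⟩
    rw [Measure.restrict_apply_univ]
    exact (measure_mono hET).trans_lt (by rw [Real.volume_Icc]; exact ENNReal.ofReal_lt_top)
  set μ : Measure ℝ := volume.restrict E with hμ
  have hμuniv : (μ Set.univ).toReal = (volume E).toReal := by
    rw [hμ, Measure.restrict_apply_univ]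
  set F : ℝ → ℂ := HM_F e c S with hFd
  have hF : Continuous F := HM_F_cont e c S
  obtain ⟨B, hB0, hB⟩ := HM_F_bdd e c S
  have hek : 0 < Real.exp (-κ * c) := Real.exp_pos _
  have hC1c : 1 ≤ C1 * (1 + c) := by nlinarith
  -- the kernel
  obtain ⟨C3, -, htriv⟩ := ASI.KS_triv
  have hterm : ∀ t : ℝ, (fun n : ℕ => ((Real.log n ^ 0 * Real.exp (-(Real.log n - c) ^ 2 / 8) : ℝ) : ℂ) *
      ASI.np n t) = fun n : ℕ => ((HM_w c n : ℝ) : ℂ) * ASI.np n t := by
    intro t
    funext n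
    rw [pow_zero, one_mul]
    rfl
  have hKSt : ∀ t : ℝ, ASI.KS 0 c t = ∑' n : ℕ, ((HM_w c n : ℝ) : ℂ) * ASI.np n t := by
    intro t
    unfold ASI.KS
    rw [hterm]
  have hnrm : ∀ (n : ℕ) (t : ℝ), ‖((HM_w c n : ℝ) : ℂ) * ASI.np n t‖ = HM_w c n * ((n : ℝ))⁻¹ := by
    intro n t
    rw [norm_mul, HM_np_norm, Complex.norm_real,
      Real.norm_of_nonneg (show 0 ≤ HM_w c n from (Real.exp_pos _).le)]
  have hsum : Summable (fun n : ℕ => HM_w c n * ((n : ℝ))⁻¹) := by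
    have h1 := (htriv 0 c 0 (by norm_num)).1
    refine h1.congr fun n => ?_
    have h2 := congrFun (hterm 0) n
    have h3 : ‖((Real.log n ^ 0 * Real.exp (-(Real.log n - c) ^ 2 / 8) : ℝ) : ℂ) *
      ASI.np n 0‖ = ‖((HM_w c n : ℝ) : ℂ) * ASI.np n 0‖ := congrArg norm h2
    rw [hnrm] at h3
    exact h3
  obtain ⟨T0, hT0⟩ : ∃ T0 : Finset ℕ, ∀ T' : Finset ℕ, T0 ⊆ T' →
      ∑' n : ℕ, HM_w c n * ((n : ℝ))⁻¹ - ∑ n ∈ T', HM_w c n * ((n : ℝ))⁻¹ ≤ Real.exp (-κ * c) := by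
    have h1 := hsum.hasSum
    have h2 := (Metric.tendsto_atTop.1 h1 (Real.exp (-κ * c)) hek)
    obtain ⟨T0, hT0⟩ := h2
    refine ⟨T0, fun T' hT' => ?_⟩
    have h3 := hT0 T' hT'
    rw [Real.dist_eq, abs_sub_comm] at h3
    exact (le_abs_self _).trans h3.le
  set T' : Finset ℕ := S ∪ T0 with hT'
  have hker : ∀ t : ℝ, |t| ≤ Real.exp (K * c) →
      ‖∑ n ∈ T', ((HM_w c n : ℝ) : ℂ) * ASI.np n t‖ ≤
        C1 * (1 + c) * Real.exp (-|t|) + 2 * (C1 * (1 + c)) * Real.exp (-κ * c) := by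
    intro t ht
    have h1 := hKS 0 c t (by norm_num) hc ht
    have hs : Summable (fun n : ℕ => ((HM_w c n : ℝ) : ℂ) * ASI.np n t) := by
      refine Summable.of_norm ?_
      simp only [hnrm]
      exact hsum
    have hsn : Summable (fun n : ℕ => ‖((HM_w c n : ℝ) : ℂ) * ASI.np n t‖) := by
      simp only [hnrm]
      exact hsum
    have h2 := hs.sum_add_tsum_compl (s := T')
    have h3 := hsn.sum_add_tsum_compl (s := T')
    have h4 : ‖∑' x : ↥(↑T' : Set ℕ)ᶜ, ((HM_w c (x : ℕ) : ℝ) : ℂ) * ASI.np (x : ℕ) t‖ ≤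
        ∑' x : ↥(↑T' : Set ℕ)ᶜ, ‖((HM_w c (x : ℕ) : ℝ) : ℂ) * ASI.np (x : ℕ) t‖ :=
      norm_tsum_le_tsum_norm (hsn.subtype _)
    have h5 : ∑' x : ↥(↑T' : Set ℕ)ᶜ, ‖((HM_w c (x : ℕ) : ℝ) : ℂ) * ASI.np (x : ℕ) t‖ ≤
        Real.exp (-κ * c) := by
      have h6 := hT0 T' Finset.subset_union_right
      simp only [hnrm] at h3 ⊢
      linarith
    have h7 : ∑ n ∈ T', ((HM_w c n : ℝ) : ℂ) * ASI.np n t = ASI.KS 0 c t -
        ∑' x : ↥(↑T' : Set ℕ)ᶜ, ((HM_w c (x : ℕ) : ℝ) : ℂ) * ASI.np (x : ℕ) t := by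
      rw [hKSt, ← h2]
      ring
    rw [h7]
    refine (norm_sub_le _ _).trans ?_
    have h8 : Real.exp (-κ * c) ≤ C1 * (1 + c) * Real.exp (-κ * c) := by nlinarith
    nlinarith [h1, h4, h5, h8]
  -- the second factor
  have hP : 0 ≤ C1 * (1 + c) := by linarith
  have hR : 0 ≤ 2 * (C1 * (1 + c)) * Real.exp (-κ * c) := by positivity
  have hsch := HM_schur μ hF hB hP hR Measure.restrict_le_self
  obtain ⟨hint, hint'⟩ := HM_schur_int μ hF hB hP hR
  have hmem : ∀ᵐ t ∂μ, t ∈ E := ae_restrict_mem hE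
  have hY : ∑ n ∈ S, (n : ℝ) * HM_w c n * ‖∫ t, (starRingEnd ℂ) (F t) * ASI.np n t ∂μ‖ ^ 2 ≤
      (2 * (C1 * (1 + c)) + 2 * (C1 * (1 + c)) * Real.exp (-κ * c) * (volume E).toReal) *
        ∫ t, ‖F t‖ ^ 2 ∂μ := by
    have h1 : ∑ n ∈ S, (n : ℝ) * HM_w c n * ‖∫ t, (starRingEnd ℂ) (F t) * ASI.np n t ∂μ‖ ^ 2 ≤
        ∑ n ∈ T', (n : ℝ) * HM_w c n * ‖∫ t, (starRingEnd ℂ) (F t) * ASI.np n t ∂μ‖ ^ 2 := by
      refine Finset.sum_le_sum_of_subset_of_nonneg Finset.subset_union_left fun n _ _ => ?_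
      unfold HM_w
      positivity
    refine h1.trans ((HM_dual μ hF hB c T').trans ?_)
    rw [← hμuniv]
    refine le_trans ?_ hsch
    refine integral_mono_of_nonneg (Filter.Eventually.of_forall fun t => ?_) hint ?_
    · exact mul_nonneg (norm_nonneg _) (integral_nonneg fun t' =>
        mul_nonneg (norm_nonneg _) (norm_nonneg _))
    · filter_upwards [hmem] with t ht
      refine mul_le_mul_of_nonneg_left ?_ (norm_nonneg _)
      refine integral_mono_of_nonneg (Filter.Eventually.of_forall fun t' =>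
        mul_nonneg (norm_nonneg _) (norm_nonneg _)) (hint' t) ?_
      filter_upwards [hmem] with t' ht'
      refine mul_le_mul_of_nonneg_left (hker _ ?_) (norm_nonneg _)
      have h2 := hET ht
      have h3 := hET ht'
      refine le_trans ?_ hTK
      rw [abs_le]
      constructor
      · linarith [h2.1, h3.2]
      · linarith [h2.2, h3.1]
  -- Cauchy-Schwarz
  have hint1 : ∀ n : ℕ, Integrable (fun t => (starRingEnd ℂ) (F t) * ASI.np n t) μ := by
    intro n
    refine Integrable.of_bound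
      ((Complex.continuous_conj.comp hF).mul (HM_np_cont n)).aestronglyMeasurable
      (B * ((n : ℝ))⁻¹) (Filter.Eventually.of_forall fun t => ?_)
    rw [norm_mul, HM_np_norm, RCLike.norm_conj]
    exact mul_le_mul_of_nonneg_right (hB t) (by positivity)
  have hI : ((∫ t, ‖F t‖ ^ 2 ∂μ : ℝ) : ℂ) = ∑ n ∈ S, (((e n : ℝ) : ℂ) *
      (Real.exp (-(Real.log n - c) ^ 2 / 4) : ℝ)) *
        ∫ t, (starRingEnd ℂ) (F t) * ASI.np n t ∂μ := by
    refine (integral_ofReal (𝕜 := ℂ) (μ := μ) (f := fun t => ‖F t‖ ^ 2)).symm.trans ?_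
    have h1 : ∀ t, ((‖F t‖ ^ 2 : ℝ) : ℂ) = ∑ n ∈ S, (((e n : ℝ) : ℂ) *
        (Real.exp (-(Real.log n - c) ^ 2 / 4) : ℝ)) * ((starRingEnd ℂ) (F t) * ASI.np n t) := by
      intro t
      rw [← Complex.normSq_eq_norm_sq, ← Complex.mul_conj, mul_comm]
      conv_lhs => rw [hFd]
      unfold HM_F
      rw [Finset.mul_sum]
      refine Finset.sum_congr rfl fun n _ => ?_
      rw [hFd]
      unfold HM_F
      ring
    refine Eq.trans (integral_congr_ae (Filter.Eventually.of_forall h1)) ?_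
    rw [integral_finsetSum]
    · refine Finset.sum_congr rfl fun n _ => ?_
      rw [integral_const_mul]
    · intro n _
      exact (hint1 n).const_mul _
  set I : ℝ := ∫ t, ‖F t‖ ^ 2 ∂μ with hId
  have hI0 : 0 ≤ I := integral_nonneg fun t => by positivity
  have he0 : e 0 = 0 := by
    have := he 0
    simp at this
    exact this
  have hCS : I ^ 2 ≤ (C2 * (1 + c) ^ 6) * ((2 * (C1 * (1 + c)) +
      2 * (C1 * (1 + c)) * Real.exp (-κ * c) * (volume E).toReal) * I) := by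
    have h1 : I ≤ ∑ n ∈ S, (|e n| / Real.sqrt n * Real.exp (-(3 * (Real.log n - c) ^ 2) / 16)) *
        (Real.sqrt n * Real.exp (-(Real.log n - c) ^ 2 / 16) *
          ‖∫ t, (starRingEnd ℂ) (F t) * ASI.np n t ∂μ‖) := by
      have h2 : I = ‖((I : ℝ) : ℂ)‖ := by rw [Complex.norm_real, Real.norm_of_nonneg hI0]
      rw [h2, hI]
      refine (norm_sum_le _ _).trans (Finset.sum_le_sum fun n _ => ?_)
      rw [norm_mul, norm_mul, Complex.norm_real, Complex.norm_real, Real.norm_eq_abs,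
        Real.norm_eq_abs, abs_of_pos (Real.exp_pos _)]
      rcases Nat.eq_zero_or_pos n with h | h
      · subst h
        rw [he0]
        simp
      · have hs : 0 < Real.sqrt (n : ℝ) := Real.sqrt_pos.2 (by exact_mod_cast h)
        have h3 : Real.exp (-(Real.log n - c) ^ 2 / 4) =
            Real.exp (-(3 * (Real.log n - c) ^ 2) / 16) *
              Real.exp (-(Real.log n - c) ^ 2 / 16) := by
          rw [← Real.exp_add]
          congr 1
          ring
        rw [h3]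
        apply le_of_eq
        field_simp
    have h2 := Finset.sum_mul_sq_le_sq_mul_sq S
      (fun n : ℕ => |e n| / Real.sqrt n * Real.exp (-(3 * (Real.log n - c) ^ 2) / 16))
      (fun n : ℕ => Real.sqrt n * Real.exp (-(Real.log n - c) ^ 2 / 16) *
          ‖∫ t, (starRingEnd ℂ) (F t) * ASI.np n t ∂μ‖)
    have h3 : ∑ n ∈ S, (|e n| / Real.sqrt n *
        Real.exp (-(3 * (Real.log n - c) ^ 2) / 16)) ^ 2 ≤ C2 * (1 + c) ^ 6 := by
      have h4 := (hdg c).2
      rw [abs_of_nonneg hc] at h4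
      refine le_trans ?_ h4
      refine le_trans (Finset.sum_le_sum fun n _ => ?_)
        ((hdg c).1.sum_le_tsum S fun n _ => by positivity)
      rw [mul_pow, div_pow, Real.sq_sqrt (Nat.cast_nonneg n), ← Real.exp_nat_mul]
      have h5 : |e n| ^ 2 ≤ (n.divisors.card : ℝ) ^ 2 * (1 + Real.log n) ^ 2 := by
        rw [← mul_pow]
        exact pow_le_pow_left₀ (abs_nonneg _) (he n) 2
      have h6 : Real.exp (((2 : ℕ) : ℝ) * (-(3 * (Real.log n - c) ^ 2) / 16)) ≤
          Real.exp (-(Real.log n - c) ^ 2 / 16) := by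
        apply Real.exp_le_exp.2
        push_cast
        nlinarith [sq_nonneg (Real.log n - c)]
      exact mul_le_mul (div_le_div_of_nonneg_right h5 (Nat.cast_nonneg n)) h6
        (Real.exp_pos _).le (by positivity)
    have h4 : ∑ n ∈ S, (Real.sqrt n * Real.exp (-(Real.log n - c) ^ 2 / 16) *
          ‖∫ t, (starRingEnd ℂ) (F t) * ASI.np n t ∂μ‖) ^ 2 ≤ (2 * (C1 * (1 + c)) +
      2 * (C1 * (1 + c)) * Real.exp (-κ * c) * (volume E).toReal) * I := by
      refine le_trans (le_of_eq ?_) hY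
      refine Finset.sum_congr rfl fun n _ => ?_
      rw [mul_pow, mul_pow, Real.sq_sqrt (Nat.cast_nonneg n), ← Real.exp_nat_mul]
      unfold HM_w
      congr 3
      push_cast
      ring
    calc I ^ 2 ≤ (∑ n ∈ S, (|e n| / Real.sqrt n *
          Real.exp (-(3 * (Real.log n - c) ^ 2) / 16)) *
        (Real.sqrt n * Real.exp (-(Real.log n - c) ^ 2 / 16) *
          ‖∫ t, (starRingEnd ℂ) (F t) * ASI.np n t ∂μ‖)) ^ 2 := pow_le_pow_left₀ hI0 h1 2
      _ ≤ _ := h2
      _ ≤ _ := mul_le_mul h3 h4 (Finset.sum_nonneg fun n _ => sq_nonneg _) (by positivity)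
  have hV0 : 0 ≤ (volume E).toReal := ENNReal.toReal_nonneg
  have hfinal : I ≤ (C2 * (1 + c) ^ 6) * (2 * (C1 * (1 + c)) +
      2 * (C1 * (1 + c)) * Real.exp (-κ * c) * (volume E).toReal) := by
    rcases hI0.eq_or_lt with h | h
    · rw [← h]
      positivity
    · have h1 : I * I ≤ ((C2 * (1 + c) ^ 6) * (2 * (C1 * (1 + c)) +
          2 * (C1 * (1 + c)) * Real.exp (-κ * c) * (volume E).toReal)) * I := by
        rw [← sq]
        refine hCS.trans (le_of_eq ?_)
        ring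
      exact le_of_mul_le_mul_right h1 h
  refine hfinal.trans ?_
  have h1 : (C2 * (1 + c) ^ 6) * (2 * (C1 * (1 + c)) +
      2 * (C1 * (1 + c)) * Real.exp (-κ * c) * (volume E).toReal) =
      2 * C1 * C2 * (1 + c) ^ 7 * (1 + Real.exp (-κ * c) * (volume E).toReal) := by ring
  rw [h1]
  have h2 : (1 + c) ^ 7 ≤ (1 + c) ^ 8 := pow_le_pow_right₀ (by linarith) (by norm_num)
  have h3 : 0 ≤ 1 + Real.exp (-κ * c) * (volume E).toReal := by positivity
  have h4 : 0 ≤ 2 * C1 * C2 := by positivity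
  exact mul_le_mul_of_nonneg_right (mul_le_mul_of_nonneg_left h2 h4) h3

theorem hm (K : ℝ) : ∃ κ C : ℝ, 0 < κ ∧ κ ≤ 1 / 10 ∧ 1 ≤ C ∧ ∀ e : ℕ → ℝ,
    (∀ n : ℕ, |e n| ≤ (n.divisors.card : ℝ) * (1 + Real.log n)) → ∀ c T : ℝ, 0 ≤ c → 0 ≤ T →
    2 * T ≤ Real.exp (K * c) → ∀ E : Set ℝ, MeasurableSet E → E ⊆ Set.Icc (-T) T →
    ∫ τ in E, ‖gse e c τ‖ ^ 2 ≤ C * (1 + c) ^ 8 * (1 + Real.exp (-κ * c) * (volume E).toReal) := by
  obtain ⟨κ, C1, hκ, hκ', hC1, hKS⟩ := KS_long K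
  obtain ⟨C2, hC2, hdg⟩ := ASI.div_gauss
  refine ⟨κ, 2 * C1 * C2, hκ, hκ', by nlinarith, ?_⟩
  intro e he c T hc _ hTK E hE hET
  have hfin : IsFiniteMeasure (volume.restrict E) := by
    refine ⟨?_⟩
    rw [Measure.restrict_apply_univ]
    exact (measure_mono hET).trans_lt (by rw [Real.volume_Icc]; exact ENNReal.ofReal_lt_top)
  have hS := HM_summ he c
  have hn : ∀ (n : ℕ) (t : ℝ), ‖((e n : ℝ) : ℂ) * ASI.np n t *
      (Real.exp (-(Real.log n - c) ^ 2 / 4) : ℝ)‖ =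
      |e n| * ((n : ℝ))⁻¹ * Real.exp (-(Real.log n - c) ^ 2 / 4) := by
    intro n t
    rw [norm_mul, norm_mul, HM_np_norm, Complex.norm_real, Complex.norm_real, Real.norm_eq_abs,
      Real.norm_eq_abs, abs_of_pos (Real.exp_pos _)]
  have hlim : ∀ t : ℝ, Filter.Tendsto (fun N : ℕ => HM_F e c (Finset.range N) t) Filter.atTop
      (nhds (gse e c t)) := by
    intro t
    have hs : Summable (fun n : ℕ => ((e n : ℝ) : ℂ) * ASI.np n t *
        (Real.exp (-(Real.log n - c) ^ 2 / 4) : ℝ)) := by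
      refine Summable.of_norm ?_
      simp only [hn]
      exact hS
    exact hs.hasSum.tendsto_sum_nat
  set M0 : ℝ := ∑' n : ℕ, |e n| * ((n : ℝ))⁻¹ * Real.exp (-(Real.log n - c) ^ 2 / 4) with hM0
  have hbd : ∀ (N : ℕ) (t : ℝ), ‖HM_F e c (Finset.range N) t‖ ≤ M0 := by
    intro N t
    unfold HM_F
    refine (norm_sum_le _ _).trans ?_
    simp only [hn]
    exact hS.sum_le_tsum _ fun n _ => by positivity
  have hM00 : 0 ≤ M0 := (norm_nonneg _).trans (hbd 0 0)
  have htend : Filter.Tendsto (fun N : ℕ => ∫ t in E, ‖HM_F e c (Finset.range N) t‖ ^ 2)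
      Filter.atTop (nhds (∫ t in E, ‖gse e c t‖ ^ 2)) := by
    refine tendsto_integral_of_dominated_convergence (fun _ => M0 ^ 2) ?_ ?_ ?_ ?_
    · intro N
      exact ((HM_F_cont e c _).norm.pow 2).aestronglyMeasurable
    · exact integrable_const _
    · intro N
      refine Filter.Eventually.of_forall fun t => ?_
      rw [norm_pow, norm_norm]
      exact pow_le_pow_left₀ (norm_nonneg _) (hbd N t) 2
    · exact Filter.Eventually.of_forall fun t => ((hlim t).norm.pow 2)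
  exact le_of_tendsto' htend fun N =>
    HM_fin hκ hC1 hC2 hKS (fun y => ⟨(hdg y).1, (hdg y).2.1⟩) he hc hTK hE hET _

end RLC
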