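import Pool.Agent.RLC.Defs

/-!
# RLC.KKPsi: the correlation of the primes is bounded by `Psi`

PROOF. `Gt β w u = h β w u · exp((u-w)²)`. With `p = x-w`, `p' = x'-w`, `μ = (p+p')/2`:
`-4s² + (s+p)² + (s+p')² = -2(s-μ)² + 2μ² + p² + p'²`, so
`KK = exp(2μ²+p²+p'²) ∫ exp(-2(s-μ)²) h(s+x) h(s+x') ds`, and `exp(-2(s-μ)²) = (1/√(8π)) ∫ exp(-ξ²/8) exp(iξ(s-μ)) dξ`. Fubini (`h` is
bounded with Gaussian decay, `AMC.h_abs`): `KK = exp(..) (1/√(8π)) ∫ exp(-ξ²/8) exp(-iξμ) ∫ exp(iξs) h(s+x) h(s+x') ds dξ`,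
and the absolute value of the inner integral is `‖HX β w ξ (x-x')‖` (substitute `s ↦ s - x`). `exp(2μ²+p²+p'²) ≤ exp 36`.
-/

namespace RLC

open MeasureTheory

private theorem kp_gauss (t : ℝ) :
    ∫ ξ : ℝ, ((Real.exp (-ξ ^ 2 / 8) : ℝ) : ℂ) * Complex.exp (ξ * t * Complex.I) =
      (Real.sqrt (8 * Real.pi) * Real.exp (-2 * t ^ 2) : ℝ) := by
  have h1 := fourierIntegral_gaussian (b := (1 / 8 : ℂ)) (by norm_num) (t : ℂ)
  have h2 : ∀ ξ : ℝ, ((Real.exp (-ξ ^ 2 / 8) : ℝ) : ℂ) * Complex.exp (ξ * t * Complex.I) =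
      Complex.exp (Complex.I * t * ξ) * Complex.exp (-(1 / 8 : ℂ) * (ξ : ℂ) ^ 2) := by
    intro ξ
    rw [mul_comm, Complex.ofReal_exp]
    congr 2
    · ring
    · push_cast
      ring
  simp only [h2]
  rw [h1]
  have h3 : ((Real.pi : ℂ) / (1 / 8)) ^ (1 / 2 : ℂ) = ((Real.sqrt (8 * Real.pi) : ℝ) : ℂ) := by
    rw [Real.sqrt_eq_rpow, Complex.ofReal_cpow (by positivity)]
    congr 1
    · push_cast
      ring
    · push_cast
      ring
  rw [h3, Complex.ofReal_mul, Complex.ofReal_exp]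
  congr 2
  push_cast
  ring

private theorem kp_Gt (β w u : ℝ) : Gt β w u = AMC.h β w u * Real.exp ((u - w) ^ 2) := by
  unfold Gt AMC.h
  split_ifs
  · rw [mul_assoc, ← Real.exp_add]
    have : -(u - w) ^ 2 + (u - w) ^ 2 = 0 := by ring
    rw [this, Real.exp_zero, mul_one]
  · rw [zero_mul]

private theorem kp_KK (β w x x' : ℝ) : KK β w x x' =
    Real.exp (2 * ((x - w + (x' - w)) / 2) ^ 2 + (x - w) ^ 2 + (x' - w) ^ 2) *
      ∫ s : ℝ, AMC.h β w (s + x) * AMC.h β w (s + x') *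
        Real.exp (-2 * (s - (x - w + (x' - w)) / 2) ^ 2) := by
  unfold KK
  rw [← integral_const_mul]
  congr 1
  funext s
  rw [kp_Gt, kp_Gt]
  have h1 : Real.exp (-4 * s ^ 2) * (AMC.h β w (s + x) * Real.exp ((s + x - w) ^ 2) *
      (AMC.h β w (s + x') * Real.exp ((s + x' - w) ^ 2))) =
      AMC.h β w (s + x) * AMC.h β w (s + x') * (Real.exp (-4 * s ^ 2) *
        Real.exp ((s + x - w) ^ 2) * Real.exp ((s + x' - w) ^ 2)) := by ring
  have h2 : ∀ a b c : ℝ, a * (b * c) = b * (a * c) := fun a b c => by ring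
  rw [h1, h2 (Real.exp _), ← Real.exp_add, ← Real.exp_add, ← Real.exp_add]
  congr 2
  ring

private theorem kp_int {β w x x' : ℝ} (hw : 1 ≤ w) :
    Integrable fun s : ℝ => AMC.h β w (s + x) * AMC.h β w (s + x') := by
  have h1 := (AMC.h_int β w hw).1.comp_add_right x
  refine Integrable.mono' (h1.norm.mul_const ((4 + 2 * |β|) * w)) ?_ ?_
  · exact (((AMC.h_meas β w).comp (measurable_add_const x)).mul
      ((AMC.h_meas β w).comp (measurable_add_const x'))).aestronglyMeasurable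
  · refine Filter.Eventually.of_forall fun s => ?_
    rw [norm_mul]
    refine mul_le_mul_of_nonneg_left ?_ (norm_nonneg _)
    rw [Real.norm_eq_abs]
    refine (AMC.h_abs β w (s + x') hw).trans ?_
    have h2 : Real.exp (-(s + x' - w) ^ 2 / 2) ≤ 1 := by
      rw [Real.exp_le_one_iff]
      have := sq_nonneg (s + x' - w)
      linarith
    have h3 : 0 ≤ (4 + 2 * |β|) * w := by positivity
    calc (4 + 2 * |β|) * w * Real.exp (-(s + x' - w) ^ 2 / 2) ≤ (4 + 2 * |β|) * w * 1 :=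
          mul_le_mul_of_nonneg_left h2 h3
      _ = _ := mul_one _

private theorem kp_HX (β w ξ x x' : ℝ) :
    ‖∫ s : ℝ, Complex.exp (ξ * s * Complex.I) *
      ((AMC.h β w (s + x) * AMC.h β w (s + x') : ℝ) : ℂ)‖ = ‖HX β w ξ (x - x')‖ := by
  have h1 := integral_add_right_eq_self (μ := volume) (fun s : ℝ =>
    Complex.exp (-(ξ * x * Complex.I)) * (Complex.exp (ξ * s * Complex.I) *
      ((AMC.h β w s * AMC.h β w (s - (x - x')) : ℝ) : ℂ))) x
  have h2 : (fun s : ℝ => Complex.exp (ξ * s * Complex.I) *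
      ((AMC.h β w (s + x) * AMC.h β w (s + x') : ℝ) : ℂ)) = fun s : ℝ =>
      Complex.exp (-(ξ * x * Complex.I)) * (Complex.exp (ξ * ((s + x : ℝ) : ℂ) * Complex.I) *
      ((AMC.h β w (s + x) * AMC.h β w (s + x - (x - x')) : ℝ) : ℂ)) := by
    funext s
    rw [← mul_assoc, ← Complex.exp_add]
    congr 2
    · push_cast
      ring
    · congr 2
      ring
  rw [h2, h1, integral_const_mul, norm_mul]
  have h3 : ‖Complex.exp (-(ξ * x * Complex.I))‖ = 1 := by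
    have : -((ξ : ℂ) * x * Complex.I) = ((-(ξ * x) : ℝ) : ℂ) * Complex.I := by
      push_cast
      ring
    rw [this, Complex.norm_exp_ofReal_mul_I]
  rw [h3, one_mul]
  rfl

private theorem kp_main {β w x x' : ℝ} (hw : 1 ≤ w) (μ' : ℝ) :
    |∫ s : ℝ, AMC.h β w (s + x) * AMC.h β w (s + x') * Real.exp (-2 * (s - μ') ^ 2)| ≤
      Psi β w (x - x') := by
  have hf : Integrable fun s : ℝ => ((AMC.h β w (s + x) * AMC.h β w (s + x') : ℝ) : ℂ) :=
    (kp_int hw).ofReal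
  have hg : Integrable fun ξ : ℝ => ((Real.exp (-ξ ^ 2 / 8) : ℝ) : ℂ) := by
    have h1 : Integrable fun ξ : ℝ => Real.exp (-(1 / 8 : ℝ) * ξ ^ 2) :=
      integrable_exp_neg_mul_sq (by norm_num)
    have h2 : (fun ξ : ℝ => Real.exp (-ξ ^ 2 / 8)) = fun ξ : ℝ => Real.exp (-(1 / 8 : ℝ) * ξ ^ 2) := by
      funext ξ
      congr 1
      ring
    rw [← h2] at h1
    exact h1.ofReal
  have hp := hf.mul_prod hg
  have hP : Integrable (Function.uncurry fun s ξ : ℝ =>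
      ((AMC.h β w (s + x) * AMC.h β w (s + x') : ℝ) : ℂ) * ((Real.exp (-ξ ^ 2 / 8) : ℝ) : ℂ) *
        Complex.exp (ξ * ((s - μ' : ℝ) : ℂ) * Complex.I)) (volume.prod volume) := by
    refine Integrable.mono hp ?_ ?_
    · refine hp.aestronglyMeasurable.mul (Continuous.aestronglyMeasurable ?_)
      fun_prop
    · refine Filter.Eventually.of_forall fun z => ?_
      have h3 : ‖Complex.exp ((z.2 : ℂ) * ((z.1 - μ' : ℝ) : ℂ) * Complex.I)‖ = 1 := by
        rw [← Complex.ofReal_mul, Complex.norm_exp_ofReal_mul_I]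
      simp only [Function.uncurry]
      rw [norm_mul, h3, mul_one]
  have hsw := integral_integral_swap hP
  have hL : (∫ s : ℝ, ∫ ξ : ℝ, ((AMC.h β w (s + x) * AMC.h β w (s + x') : ℝ) : ℂ) *
      ((Real.exp (-ξ ^ 2 / 8) : ℝ) : ℂ) * Complex.exp (ξ * ((s - μ' : ℝ) : ℂ) * Complex.I)) =
      ((Real.sqrt (8 * Real.pi) * ∫ s : ℝ, AMC.h β w (s + x) * AMC.h β w (s + x') *
        Real.exp (-2 * (s - μ') ^ 2) : ℝ) : ℂ) := by
    rw [← integral_const_mul, ← integral_complex_ofReal]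
    congr 1
    funext s
    have h6 := kp_gauss (s - μ')
    have h7 : (fun ξ : ℝ => ((AMC.h β w (s + x) * AMC.h β w (s + x') : ℝ) : ℂ) *
        ((Real.exp (-ξ ^ 2 / 8) : ℝ) : ℂ) * Complex.exp (ξ * ((s - μ' : ℝ) : ℂ) * Complex.I)) =
        fun ξ : ℝ => ((AMC.h β w (s + x) * AMC.h β w (s + x') : ℝ) : ℂ) *
        (((Real.exp (-ξ ^ 2 / 8) : ℝ) : ℂ) * Complex.exp (ξ * ((s - μ' : ℝ) : ℂ) * Complex.I)) := by
      funext ξ
      ring
    rw [h7, integral_const_mul, h6]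
    push_cast
    ring
  have hR : ∀ ξ : ℝ, ‖∫ s : ℝ, ((AMC.h β w (s + x) * AMC.h β w (s + x') : ℝ) : ℂ) *
      ((Real.exp (-ξ ^ 2 / 8) : ℝ) : ℂ) * Complex.exp (ξ * ((s - μ' : ℝ) : ℂ) * Complex.I)‖ =
      Real.exp (-ξ ^ 2 / 8) * ‖HX β w ξ (x - x')‖ := by
    intro ξ
    have h1 : (fun s : ℝ => ((AMC.h β w (s + x) * AMC.h β w (s + x') : ℝ) : ℂ) *
        ((Real.exp (-ξ ^ 2 / 8) : ℝ) : ℂ) * Complex.exp (ξ * ((s - μ' : ℝ) : ℂ) * Complex.I)) =
        fun s : ℝ => (((Real.exp (-ξ ^ 2 / 8) : ℝ) : ℂ) * Complex.exp (((-(ξ * μ') : ℝ) : ℂ) * Complex.I)) *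
          (Complex.exp (ξ * s * Complex.I) *
            ((AMC.h β w (s + x) * AMC.h β w (s + x') : ℝ) : ℂ)) := by
      funext s
      have h2 : Complex.exp (ξ * ((s - μ' : ℝ) : ℂ) * Complex.I) =
          Complex.exp (((-(ξ * μ') : ℝ) : ℂ) * Complex.I) * Complex.exp (ξ * s * Complex.I) := by
        rw [← Complex.exp_add]
        congr 1
        push_cast
        ring
      rw [h2]
      ring
    rw [h1, integral_const_mul, norm_mul, norm_mul, kp_HX, Complex.norm_exp_ofReal_mul_I, mul_one,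
      Complex.norm_real, Real.norm_eq_abs, abs_of_pos (Real.exp_pos _)]
  have h4 : ‖∫ ξ : ℝ, ∫ s : ℝ, ((AMC.h β w (s + x) * AMC.h β w (s + x') : ℝ) : ℂ) *
      ((Real.exp (-ξ ^ 2 / 8) : ℝ) : ℂ) * Complex.exp (ξ * ((s - μ' : ℝ) : ℂ) * Complex.I)‖ ≤
      Psi β w (x - x') := by
    refine (norm_integral_le_integral_norm _).trans (le_of_eq ?_)
    unfold Psi
    congr 1
    funext ξ
    exact hR ξ
  rw [← hsw, hL, Complex.norm_real, Real.norm_eq_abs, abs_mul,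
    abs_of_nonneg (Real.sqrt_nonneg _)] at h4
  refine le_trans ?_ h4
  have h5 : 1 ≤ Real.sqrt (8 * Real.pi) := by
    rw [Real.one_le_sqrt]
    have := Real.pi_gt_three
    linarith
  exact le_mul_of_one_le_left (abs_nonneg _) h5

theorem KK_le_psi {β w x x' : ℝ} (hw : 1 ≤ w) (hx : |x - w| ≤ 3) (hx' : |x' - w| ≤ 3) :
    |KK β w x x'| ≤ Real.exp 36 * Psi β w (x - x') := by
  rw [kp_KK, abs_mul, abs_of_pos (Real.exp_pos _)]
  refine mul_le_mul ?_ (kp_main hw _) (abs_nonneg _) (Real.exp_pos _).le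
  rw [Real.exp_le_exp]
  have h1 := abs_le.1 hx
  have h2 := abs_le.1 hx'
  have h3 : (x - w) ^ 2 ≤ 9 := by nlinarith
  have h4 : (x' - w) ^ 2 ≤ 9 := by nlinarith
  have h5 : ((x - w + (x' - w)) / 2) ^ 2 ≤ 9 := by nlinarith
  linarith

end RLC
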