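import Pool.Agent.RLC.PairR

/-!
# RLC.KKS: sieve bound and trivial bound for the correlation

PROOF. `Gt(u) Gt(u') ≤ Λ(⌊e^u+β⌋) Λ(⌊e^u'+β⌋) + 1` on `u, u' > w/2` (`(a-1)(b-1) ≤ ab + 1` for `a, b ≥ 0`), and it is `0` otherwise.
`KK_triv`: `Λ(⌊e^u+β⌋) ≤ |u| + |β| + 1` for `u > 0` (cf. `AMC.h_abs`), `u = s + x`, `|x| ≤ w+3`; so `KK ≤ ∫ exp(-4s²) (C (w + |s|)² + 1) ds ≤ C w²`.
`KK_sieve`: cut into `|s| ≥ ℓ` with `ℓ = log w` (trivial bound: `exp(-4ℓ²) w^C ≤ 1`) and the unit intervals `[j, j+1]`,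
`|j| ≤ ℓ + 1`. `∫_{j}^{j+1} ΛΛ' ds = ∫ Λ(⌊y c+β⌋) Λ(⌊y c'+β⌋) dy/y` over `y ∈ [e^j, e^(j+1)] ⊆ [λ, 3λ]`, `λ = e^j`, is at most
`∫_{[1,3]} Λ(⌊t λc + β⌋) Λ(⌊t λc' + β⌋) dt ≤ C` by `pairR` with `η/2`, `m = λc`, `m' = λc'`, `κ = e^6`: `m` is between
`exp(w-3)/(3w)` and `3w exp(w+3)` (`|j| ≤ log w + 1`), so `m^(η/2) ≤ exp(ηw)` and for `u, v ≤ m^(η/2)`:
`|u m - v m'| = λ |u c - v c'| ≥ λ exp(ηw) ≥ m^(η/2)` for large `w`. `∑_j exp(-4 min(s²)) ≤ 3`.
-/

namespace RLC

open MeasureTheory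

private noncomputable def ks_L (β u : ℝ) : ℝ := ArithmeticFunction.vonMangoldt ⌊Real.exp u + β⌋₊

private theorem ks_L_nonneg (β u : ℝ) : 0 ≤ ks_L β u := ArithmeticFunction.vonMangoldt_nonneg

private theorem ks_L_meas (β : ℝ) : Measurable (ks_L β) := by
  have h1 : Measurable (fun s : ℝ => ⌊Real.exp s + β⌋₊) :=
    Nat.measurable_floor.comp (Real.measurable_exp.add_const β)
  have h2 : Measurable (fun n : ℕ => ArithmeticFunction.vonMangoldt n) := measurable_from_top
  exact h2.comp h1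

private theorem ks_L_le (β u : ℝ) : ks_L β u ≤ |u| + |β| := by
  have hβ := abs_nonneg β
  have hu := abs_nonneg u
  unfold ks_L
  rcases Nat.eq_zero_or_pos ⌊Real.exp u + β⌋₊ with h | h
  · rw [h]
    simp
    linarith
  · have h1 : (0 : ℝ) < (⌊Real.exp u + β⌋₊ : ℝ) := by exact_mod_cast h
    calc ArithmeticFunction.vonMangoldt ⌊Real.exp u + β⌋₊ ≤ Real.log (⌊Real.exp u + β⌋₊ : ℝ) :=
          ArithmeticFunction.vonMangoldt_le_log
      _ ≤ Real.log (Real.exp |u| * Real.exp |β|) := by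
          apply Real.log_le_log h1
          have h2 : (⌊Real.exp u + β⌋₊ : ℝ) ≤ Real.exp u + β :=
            Nat.floor_le (Nat.pos_of_floor_pos h).le
          have h3 := Real.add_one_le_exp |β|
          have h4 : 1 ≤ Real.exp |u| := Real.one_le_exp hu
          have h5 : Real.exp u ≤ Real.exp |u| := Real.exp_le_exp.2 (le_abs_self u)
          have h6 := le_abs_self β
          nlinarith
      _ = |u| + |β| := by rw [← Real.exp_add, Real.log_exp]

private theorem ks_Gt_abs (β w u : ℝ) : |Gt β w u| ≤ 1 + |u| + |β| := by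
  unfold Gt
  split_ifs
  · have h1 := ks_L_le β u
    have h2 := ks_L_nonneg β u
    have h3 : AMC.G β u = ks_L β u - 1 := rfl
    rw [h3, abs_le]
    have h4 := abs_nonneg u
    have h5 := abs_nonneg β
    constructor <;> linarith
  · rw [abs_zero]
    positivity

private theorem ks_Gt_meas (β w : ℝ) : Measurable (Gt β w) := by
  unfold Gt
  exact Measurable.ite (measurableSet_lt measurable_const measurable_id)
    ((ks_L_meas β).sub_const 1) measurable_const

private theorem ks_prod (β w u u' : ℝ) : Gt β w u * Gt β w u' ≤ ks_L β u * ks_L β u' + 1 := by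
  have h1 := ks_L_nonneg β u
  have h2 := ks_L_nonneg β u'
  have h3 : AMC.G β u = ks_L β u - 1 := rfl
  have h4 : AMC.G β u' = ks_L β u' - 1 := rfl
  unfold Gt
  split_ifs
  · rw [h3, h4]
    nlinarith
  · nlinarith
  · nlinarith
  · nlinarith

/-- the polynomial bound -/
private theorem ks_abs {Γ β w x x' : ℝ} (hw : 1 ≤ w) (hβ : |β| ≤ Γ) (hx : |x - w| ≤ 3)
    (hx' : |x' - w| ≤ 3) (s : ℝ) :
    |Gt β w (s + x) * Gt β w (s + x')| ≤ w ^ 2 * (5 + |Γ| + |s|) ^ 2 := by
  have hs := abs_nonneg s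
  have hΓ := abs_nonneg Γ
  have key : ∀ y : ℝ, |y - w| ≤ 3 → |Gt β w (s + y)| ≤ w * (5 + |Γ| + |s|) := by
    intro y hy
    have h1 := ks_Gt_abs β w (s + y)
    have h2 : |s + y| ≤ |s| + (w + 3) := by
      have := abs_le.1 hy
      refine (abs_add_le _ _).trans ?_
      gcongr
      rw [abs_le]
      constructor <;> linarith
    have h3 : |β| ≤ |Γ| := hβ.trans (le_abs_self Γ)
    nlinarith
  rw [abs_mul]
  calc |Gt β w (s + x)| * |Gt β w (s + x')| ≤ (w * (5 + |Γ| + |s|)) * (w * (5 + |Γ| + |s|)) := by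
        gcongr
        · exact key x hx
        · exact key x' hx'
    _ = _ := by ring

private theorem ks_int (a c : ℝ) (hc : 0 < c) :
    Integrable (fun s : ℝ => Real.exp (-c * s ^ 2) * (a + |s|) ^ 2) := by
  have h0 := integrable_exp_neg_mul_sq hc
  have h1 : Integrable (fun s : ℝ => |s * Real.exp (-c * s ^ 2)|) :=
    (integrable_mul_exp_neg_mul_sq hc).abs
  have h2 : Integrable (fun s : ℝ => s ^ (2 : ℝ) * Real.exp (-c * s ^ 2)) :=
    integrable_rpow_mul_exp_neg_mul_sq hc (by norm_num)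
  refine (((h0.const_mul (a ^ 2)).add (h1.const_mul (2 * a))).add h2).congr ?_
  filter_upwards with s
  simp only [Pi.add_apply]
  rw [abs_mul, abs_of_pos (Real.exp_pos _), Real.rpow_two]
  have h3 : |s| ^ 2 = s ^ 2 := sq_abs s
  linear_combination (-Real.exp (-c * s ^ 2)) * h3

private theorem ks_KK_int {Γ β w x x' : ℝ} (hw : 1 ≤ w) (hβ : |β| ≤ Γ) (hx : |x - w| ≤ 3)
    (hx' : |x' - w| ≤ 3) :
    Integrable (fun s : ℝ => Real.exp (-4 * s ^ 2) * (Gt β w (s + x) * Gt β w (s + x'))) := by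
  refine Integrable.mono' ((ks_int (5 + |Γ|) 4 (by norm_num)).const_mul (w ^ 2)) ?_ ?_
  · refine Measurable.aestronglyMeasurable ?_
    have h1 : Measurable fun s : ℝ => Gt β w (s + x) := (ks_Gt_meas β w).comp (measurable_add_const x)
    have h2 : Measurable fun s : ℝ => Gt β w (s + x') := (ks_Gt_meas β w).comp (measurable_add_const x')
    exact (by fun_prop : Measurable fun s : ℝ => Real.exp (-4 * s ^ 2)).mul (h1.mul h2)
  · filter_upwards with s
    rw [Real.norm_eq_abs, abs_mul, abs_of_pos (Real.exp_pos _)]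
    calc Real.exp (-4 * s ^ 2) * |Gt β w (s + x) * Gt β w (s + x')|
        ≤ Real.exp (-4 * s ^ 2) * (w ^ 2 * (5 + |Γ| + |s|) ^ 2) := by
          gcongr
          exact ks_abs hw hβ hx hx' s
      _ = _ := by ring

theorem KK_triv (Γ : ℝ) : ∃ C w0 : ℝ, 1 ≤ C ∧ 1 ≤ w0 ∧ ∀ w β : ℝ, w0 ≤ w → |β| ≤ Γ → ∀ x x' : ℝ,
    |x - w| ≤ 3 → |x' - w| ≤ 3 → KK β w x x' ≤ C * w ^ 2 := by
  refine ⟨max 1 (∫ s : ℝ, Real.exp (-4 * s ^ 2) * (5 + |Γ| + |s|) ^ 2), 1, le_max_left _ _, le_refl _, ?_⟩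
  intro w β hw hβ x x' hx hx'
  calc KK β w x x' ≤ ∫ s : ℝ, w ^ 2 * (Real.exp (-4 * s ^ 2) * (5 + |Γ| + |s|) ^ 2) := by
        refine integral_mono (ks_KK_int hw hβ hx hx') ((ks_int (5 + |Γ|) 4 (by norm_num)).const_mul (w ^ 2)) ?_
        intro s
        calc Real.exp (-4 * s ^ 2) * (Gt β w (s + x) * Gt β w (s + x'))
            ≤ Real.exp (-4 * s ^ 2) * (w ^ 2 * (5 + |Γ| + |s|) ^ 2) :=
              mul_le_mul_of_nonneg_left ((le_abs_self _).trans (ks_abs hw hβ hx hx' s))
                (Real.exp_pos _).le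
          _ = _ := by ring
    _ = w ^ 2 * ∫ s : ℝ, (Real.exp (-4 * s ^ 2) * (5 + |Γ| + |s|) ^ 2) := integral_const_mul _ _
    _ ≤ w ^ 2 * max 1 (∫ s : ℝ, Real.exp (-4 * s ^ 2) * (5 + |Γ| + |s|) ^ 2) := by
        gcongr
        exact le_max_right _ _
    _ = _ := mul_comm _ _

/-- one unit interval with the Gaussian weight -/
private theorem ks_unit {F : ℝ → ℝ} {C a : ℝ} (hF0 : ∀ s, 0 ≤ F s)
    (hFi : IntervalIntegrable F volume a (a + 1)) (hC : ∫ s in a..(a + 1), F s ≤ C) :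
    ∫ s in a..(a + 1), Real.exp (-4 * s ^ 2) * F s ≤
      Real.exp 4 * C * ∫ t in a..(a + 1), Real.exp (-2 * t ^ 2) := by
  have hg : Continuous fun t : ℝ => Real.exp (-2 * t ^ 2) := by fun_prop
  have hg4 : Continuous fun t : ℝ => Real.exp (-4 * t ^ 2) := by fun_prop
  have ha : a ≤ a + 1 := by linarith
  set M : ℝ := ∫ t in a..(a + 1), Real.exp (-2 * t ^ 2) with hM
  have hM0 : 0 ≤ M := intervalIntegral.integral_nonneg ha fun t _ => (Real.exp_pos _).le
  have h1 : ∀ s ∈ Set.Icc a (a + 1), Real.exp (-4 * s ^ 2) ≤ Real.exp 4 * M := by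
    intro s hs
    have h2 : ∫ _t in a..(a + 1), Real.exp (-4 * s ^ 2) ≤
        ∫ t in a..(a + 1), Real.exp 4 * Real.exp (-2 * t ^ 2) := by
      refine intervalIntegral.integral_mono_on ha (by simp)
        ((hg.const_smul (Real.exp 4)).intervalIntegrable _ _) ?_
      intro t ht
      rw [← Real.exp_add, Real.exp_le_exp]
      have e1 : (t - s) ^ 2 ≤ 1 := by
        rw [sq_le_one_iff_abs_le_one, abs_le]
        constructor
        · linarith [hs.1, hs.2, ht.1, ht.2]
        · linarith [hs.1, hs.2, ht.1, ht.2]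
      nlinarith [sq_nonneg (t - 2 * s)]
    rw [intervalIntegral.integral_const, intervalIntegral.integral_const_mul, ← hM,
      add_sub_cancel_left, one_smul] at h2
    exact h2
  calc ∫ s in a..(a + 1), Real.exp (-4 * s ^ 2) * F s
      ≤ ∫ s in a..(a + 1), (Real.exp 4 * M) * F s := by
        refine intervalIntegral.integral_mono_on ha (hFi.continuousOn_mul hg4.continuousOn)
          (hFi.const_mul _) ?_
        intro s hs
        exact mul_le_mul_of_nonneg_right (h1 s hs) (hF0 s)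
    _ = (Real.exp 4 * M) * ∫ s in a..(a + 1), F s := intervalIntegral.integral_const_mul _ _
    _ ≤ (Real.exp 4 * M) * C := by gcongr
    _ = _ := by ring

/-- the sum over the unit intervals -/
private theorem ks_sum {F : ℝ → ℝ} {C a : ℝ} (hF0 : ∀ s, 0 ≤ F s)
    (hFi : ∀ a b : ℝ, IntervalIntegrable F volume a b) (n : ℕ)
    (hC : ∀ j : ℕ, j < n → ∫ s in (a + j)..(a + j + 1), F s ≤ C) :
    ∫ s in a..(a + n), Real.exp (-4 * s ^ 2) * F s ≤
      Real.exp 4 * C * ∫ t in a..(a + n), Real.exp (-2 * t ^ 2) := by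
  have hg : Continuous fun t : ℝ => Real.exp (-2 * t ^ 2) := by fun_prop
  have hg4 : Continuous fun t : ℝ => Real.exp (-4 * t ^ 2) := by fun_prop
  induction n with
  | zero => simp
  | succ n ih =>
    have h1 := ih fun j hj => hC j (by omega)
    have h2 := ks_unit hF0 (hFi _ _) (hC n (by omega))
    have e1 : a + ((n + 1 : ℕ) : ℝ) = a + n + 1 := by push_cast; ring
    rw [e1, ← intervalIntegral.integral_add_adjacent_intervals (b := a + n)
      ((hFi _ _).continuousOn_mul hg4.continuousOn) ((hFi _ _).continuousOn_mul hg4.continuousOn),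
      ← intervalIntegral.integral_add_adjacent_intervals (b := a + n)
      (hg.intervalIntegrable _ _) (hg.intervalIntegrable _ _)]
    linarith

/-- the product of two values of `Λ` -/
private noncomputable def ks_g (β m m' t : ℝ) : ℝ :=
  ArithmeticFunction.vonMangoldt ⌊t * m + β⌋₊ * ArithmeticFunction.vonMangoldt ⌊t * m' + β⌋₊

private theorem ks_g_nonneg (β m m' t : ℝ) : 0 ≤ ks_g β m m' t :=
  mul_nonneg ArithmeticFunction.vonMangoldt_nonneg ArithmeticFunction.vonMangoldt_nonneg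

private theorem ks_g_meas (β m m' : ℝ) : Measurable (ks_g β m m') := by
  have h2 : Measurable (fun n : ℕ => ArithmeticFunction.vonMangoldt n) := measurable_from_top
  have key : ∀ m : ℝ, Measurable fun t : ℝ => ArithmeticFunction.vonMangoldt ⌊t * m + β⌋₊ := by
    intro m
    have h1 : Measurable (fun t : ℝ => ⌊t * m + β⌋₊) :=
      Nat.measurable_floor.comp ((measurable_id.mul_const m).add_const β)
    exact h2.comp h1
  exact (key m).mul (key m')

private theorem ks_vM_le (y : ℝ) : ArithmeticFunction.vonMangoldt ⌊y⌋₊ ≤ |y| := by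
  rcases Nat.eq_zero_or_pos ⌊y⌋₊ with h | h
  · rw [h]
    simp
  · have h1 : (0 : ℝ) < (⌊y⌋₊ : ℝ) := by exact_mod_cast h
    calc ArithmeticFunction.vonMangoldt ⌊y⌋₊ ≤ Real.log (⌊y⌋₊ : ℝ) :=
          ArithmeticFunction.vonMangoldt_le_log
      _ ≤ (⌊y⌋₊ : ℝ) - 1 := Real.log_le_sub_one_of_pos h1
      _ ≤ y := by
          have := Nat.floor_le (Nat.pos_of_floor_pos h).le
          linarith
      _ ≤ |y| := le_abs_self y

private theorem ks_g_int (β m m' a b : ℝ) : IntegrableOn (ks_g β m m') (Set.Icc a b) := by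
  have hc : Continuous fun t : ℝ => |t * m + β| * |t * m' + β| := by fun_prop
  refine Integrable.mono' (hc.integrableOn_Icc) (ks_g_meas β m m').aestronglyMeasurable ?_
  filter_upwards with t
  rw [Real.norm_eq_abs, abs_of_nonneg (ks_g_nonneg _ _ _ _)]
  unfold ks_g
  exact mul_le_mul (ks_vM_le _) (ks_vM_le _) ArithmeticFunction.vonMangoldt_nonneg (abs_nonneg _)

/-- substitution on a unit interval -/
private theorem ks_subst {β : ℝ} {c c' : ℕ} (hc : 0 < c) (hc' : 0 < c') (a : ℝ) :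
    ∫ s in a..(a + 1), ks_L β (s + Real.log c) * ks_L β (s + Real.log c') ≤
      ∫ t in Set.Icc (1 : ℝ) 3, ks_g β (Real.exp a * c) (Real.exp a * c') t := by
  have hc0 : (0 : ℝ) < c := by exact_mod_cast hc
  have hc0' : (0 : ℝ) < c' := by exact_mod_cast hc'
  set g : ℝ → ℝ := ks_g β (Real.exp a * c) (Real.exp a * c') with hg
  have hg0 : ∀ t, 0 ≤ g t := fun t => ks_g_nonneg _ _ _ _
  have e1 : ∀ s : ℝ, ks_L β (s + Real.log c) * ks_L β (s + Real.log c') = g (Real.exp (s - a)) := by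
    intro s
    have e2 : ∀ d : ℝ, 0 < d → Real.exp (s + Real.log d) = Real.exp (s - a) * (Real.exp a * d) := by
      intro d hd
      rw [Real.exp_add, Real.exp_log hd, ← mul_assoc, ← Real.exp_add, sub_add_cancel]
    simp only [hg, ks_g, ks_L]
    rw [e2 c hc0, e2 c' hc0']
  have hinj : Set.InjOn (fun s : ℝ => Real.exp (s - a)) (Set.Icc a (a + 1)) := by
    intro s _ t _ h
    have := Real.exp_injective h
    linarith
  have hder : ∀ s ∈ Set.Icc a (a + 1), HasDerivWithinAt (fun s : ℝ => Real.exp (s - a))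
      (Real.exp (s - a)) (Set.Icc a (a + 1)) s := by
    intro s _
    have h1 : HasDerivAt (fun s : ℝ => s - a) 1 s := (hasDerivAt_id s).sub_const a
    have h2 := h1.exp
    rw [mul_one] at h2
    exact h2.hasDerivWithinAt
  have himg : (fun s : ℝ => Real.exp (s - a)) '' Set.Icc a (a + 1) ⊆ Set.Icc 1 3 := by
    rintro _ ⟨s, hs, rfl⟩
    constructor
    · exact Real.one_le_exp (by linarith [hs.1])
    · have h1 : Real.exp (s - a) ≤ Real.exp 1 := Real.exp_le_exp.2 (by linarith [hs.2])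
      have h2 := Real.exp_one_lt_d9
      simp only
      linarith
  have hcv := integral_image_eq_integral_abs_deriv_smul (measurableSet_Icc (a := a) (b := a + 1))
    hder hinj g
  have hii := (integrableOn_image_iff_integrableOn_abs_deriv_smul
    (measurableSet_Icc (a := a) (b := a + 1)) hder hinj g).1
    ((ks_g_int β (Real.exp a * c) (Real.exp a * c') 1 3).mono_set himg)
  rw [intervalIntegral.integral_of_le (by linarith), ← integral_Icc_eq_integral_Ioc]
  calc ∫ s in Set.Icc a (a + 1), ks_L β (s + Real.log c) * ks_L β (s + Real.log c')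
      = ∫ s in Set.Icc a (a + 1), g (Real.exp (s - a)) := by simp only [e1]
    _ ≤ ∫ s in Set.Icc a (a + 1), |Real.exp (s - a)| • g (Real.exp (s - a)) := by
        refine integral_mono_of_nonneg (Filter.Eventually.of_forall fun s => hg0 _) hii ?_
        refine (ae_restrict_iff' measurableSet_Icc).2 (Filter.Eventually.of_forall fun s hs => ?_)
        have h1 : 1 ≤ Real.exp (s - a) := Real.one_le_exp (by linarith [hs.1])
        have h2 := hg0 (Real.exp (s - a))
        simp only [smul_eq_mul, abs_of_pos (Real.exp_pos _)]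
        nlinarith
    _ = ∫ t in (fun s : ℝ => Real.exp (s - a)) '' Set.Icc a (a + 1), g t := hcv.symm
    _ ≤ _ := by
        refine setIntegral_mono_set (ks_g_int _ _ _ 1 3) ?_ himg.eventuallyLE
        exact Filter.Eventually.of_forall fun s => hg0 _

private theorem ks_L_ii (β x x' a b : ℝ) :
    IntervalIntegrable (fun s => ks_L β (s + x) * ks_L β (s + x')) volume a b := by
  have hc : Continuous fun t : ℝ => (|t + x| + |β|) * (|t + x'| + |β|) := by fun_prop
  have hm : Measurable fun s : ℝ => ks_L β (s + x) * ks_L β (s + x') :=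
    ((ks_L_meas β).comp (measurable_add_const x)).mul ((ks_L_meas β).comp (measurable_add_const x'))
  refine (hc.intervalIntegrable a b).mono_fun' hm.aestronglyMeasurable ?_
  filter_upwards with t
  rw [Real.norm_eq_abs, abs_of_nonneg (mul_nonneg (ks_L_nonneg _ _) (ks_L_nonneg _ _))]
  exact mul_le_mul (ks_L_le _ _) (ks_L_le _ _) (ks_L_nonneg _ _) (by positivity)

/-- the choice of `w0` -/
private theorem ks_w0 {η : ℝ} (hη : 0 < η) (X0 : ℝ) : ∃ w0 : ℝ, 1 ≤ w0 ∧ ∀ w : ℝ, w0 ≤ w →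
    1 ≤ Real.log w ∧ Real.log X0 ≤ w - 4 - Real.log w ∧
    η / 2 * (w + 3 + Real.log w) + Real.log w + 1 ≤ η * w := by
  have h1 : ∀ᶠ w : ℝ in Filter.atTop, Real.log w ≤ (1 / 2) * w := by
    have := Real.isLittleO_log_id_atTop.bound (show (0 : ℝ) < 1 / 2 by norm_num)
    filter_upwards [this, Filter.eventually_ge_atTop 1] with w h h'
    rw [Real.norm_eq_abs, Real.norm_eq_abs, id, abs_of_nonneg (show (0 : ℝ) ≤ w by linarith)] at h
    exact (le_abs_self _).trans h
  have h2 : ∀ᶠ w : ℝ in Filter.atTop, (η / 2 + 1) * Real.log w ≤ (η / 4) * w := by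
    have := Real.isLittleO_log_id_atTop.bound (show (0 : ℝ) < η / 4 / (η / 2 + 1) by positivity)
    filter_upwards [this, Filter.eventually_ge_atTop 1] with w h h'
    rw [Real.norm_eq_abs, Real.norm_eq_abs, id, abs_of_nonneg (show (0 : ℝ) ≤ w by linarith)] at h
    have h3 := (le_abs_self _).trans h
    have h4 : (0 : ℝ) < η / 2 + 1 := by positivity
    calc (η / 2 + 1) * Real.log w ≤ (η / 2 + 1) * (η / 4 / (η / 2 + 1) * w) := by gcongr
      _ = _ := by field_simp
  have h3 : ∀ᶠ w : ℝ in Filter.atTop, 4 + Real.log X0 ≤ (1 / 2) * w :=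
    (Filter.tendsto_id.const_mul_atTop (show (0 : ℝ) < 1 / 2 by norm_num)).eventually_ge_atTop _
  have h4 : ∀ᶠ w : ℝ in Filter.atTop, η / 2 * 3 + 1 ≤ (η / 4) * w :=
    (Filter.tendsto_id.const_mul_atTop (show (0 : ℝ) < η / 4 by positivity)).eventually_ge_atTop _
  have h5 : ∀ᶠ w : ℝ in Filter.atTop, 1 ≤ Real.log w := Real.tendsto_log_atTop.eventually_ge_atTop _
  obtain ⟨w0, hw0⟩ := ((((h1.and h2).and h3).and h4).and h5).exists_forall_of_atTop
  refine ⟨max 1 w0, le_max_left _ _, fun w hw => ?_⟩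
  obtain ⟨⟨⟨⟨a1, a2⟩, a3⟩, a4⟩, a5⟩ := hw0 w ((le_max_right _ _).trans hw)
  refine ⟨a5, by linarith, by linarith⟩

theorem KK_sieve {η : ℝ} (hη : 0 < η) (hη1 : η ≤ 1 / 20) (Γ : ℝ) : ∃ C w0 : ℝ, 1 ≤ C ∧ 1 ≤ w0 ∧
    ∀ w β : ℝ, w0 ≤ w → |β| ≤ Γ → ∀ c c' : ℕ, 0 < c → 0 < c' → |Real.log c - w| ≤ 3 → |Real.log c' - w| ≤ 3 →
    Gen η w c c' → KK β w (Real.log c) (Real.log c') ≤ C := by
  obtain ⟨C1, X0, hC1, hX0, hP⟩ := pairR (η := η / 2) (κ := Real.exp 6) (Γ := Γ) (by positivity)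
    (by linarith) (Real.one_le_exp (by norm_num))
  obtain ⟨w0, hw01, hw0⟩ := ks_w0 hη X0
  have hi2 : Integrable fun s : ℝ => Real.exp (-2 * s ^ 2) := integrable_exp_neg_mul_sq (by norm_num)
  have hi4 : Integrable fun s : ℝ => Real.exp (-4 * s ^ 2) := integrable_exp_neg_mul_sq (by norm_num)
  have hi1 := ks_int (5 + |Γ|) 1 (by norm_num)
  set I2 : ℝ := ∫ s : ℝ, Real.exp (-2 * s ^ 2) with hI2
  set I4 : ℝ := ∫ s : ℝ, Real.exp (-4 * s ^ 2) with hI4
  set I1 : ℝ := ∫ s : ℝ, Real.exp (-1 * s ^ 2) * (5 + |Γ| + |s|) ^ 2 with hI1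
  refine ⟨max 1 (Real.exp 4 * C1 * I2 + I4 + I1), w0, le_max_left _ _, hw01, ?_⟩
  intro w β hw hβ c c' hc hc' hx hx' hgen
  refine le_trans ?_ (le_max_right _ _)
  obtain ⟨b1, b2, b3⟩ := hw0 w hw
  have hw1 : 1 ≤ w := hw01.trans hw
  have hwp : 0 < w := by linarith
  have hc0 : (0 : ℝ) < c := by exact_mod_cast hc
  have hc0' : (0 : ℝ) < c' := by exact_mod_cast hc'
  set l : ℝ := Real.log w with hl
  set J : ℕ := ⌈l⌉₊ with hJ
  have hJ1 : l ≤ J := Nat.le_ceil l
  have hJ2 : (J : ℝ) ≤ l + 1 := (Nat.ceil_lt_add_one (by linarith)).le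
  set F : ℝ → ℝ := fun s => ks_L β (s + Real.log c) * ks_L β (s + Real.log c') with hF
  have hF0 : ∀ s, 0 ≤ F s := fun s => mul_nonneg (ks_L_nonneg _ _) (ks_L_nonneg _ _)
  have hFi : ∀ a b : ℝ, IntervalIntegrable F volume a b := fun a b => ks_L_ii _ _ _ _ _
  have hx1 := abs_le.1 hx
  have hx1' := abs_le.1 hx'
  -- the unit intervals
  have hunit : ∀ a : ℝ, -(J : ℝ) ≤ a → a ≤ J - 1 → ∫ s in a..(a + 1), F s ≤ C1 := by
    intro a ha1 ha2
    refine (ks_subst hc hc' a).trans ?_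
    have hm0 : 0 < Real.exp a * c := by positivity
    have hm0' : 0 < Real.exp a * c' := by positivity
    have hlm : Real.log (Real.exp a * c) = a + Real.log c := by
      rw [Real.log_mul (Real.exp_pos _).ne' hc0.ne', Real.log_exp]
    have hlm' : Real.log (Real.exp a * c') = a + Real.log c' := by
      rw [Real.log_mul (Real.exp_pos _).ne' hc0'.ne', Real.log_exp]
    have hX0' : 0 < X0 := by linarith
    have hpw : (Real.exp a * c) ^ (η / 2) ≤ Real.exp (η * w - l - 1) := by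
      rw [Real.rpow_def_of_pos hm0, hlm, Real.exp_le_exp]
      have h1 : a + Real.log c ≤ w + 3 + l := by linarith
      have h2 : (a + Real.log c) * (η / 2) ≤ (w + 3 + l) * (η / 2) := by gcongr
      linarith
    have hpw2 : Real.exp (η * w - l - 1) ≤ Real.exp (η * w) := Real.exp_le_exp.2 (by linarith)
    refine hP (Real.exp a * c) (Real.exp a * c') β ?_ ?_ ?_ hβ ?_
    · rw [← Real.log_le_log_iff hX0' hm0, hlm]
      linarith
    · rw [div_le_iff₀ (Real.exp_pos _), ← Real.log_le_log_iff hm0 (by positivity), hlm,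
        Real.log_mul hm0'.ne' (Real.exp_pos _).ne', hlm', Real.log_exp]
      linarith
    · rw [← Real.log_le_log_iff hm0' (by positivity), hlm',
        Real.log_mul (Real.exp_pos _).ne' hm0.ne', hlm, Real.log_exp]
      linarith
    · intro u v hu hv hu' hv'
      have h1 := hgen u v hu hv (hu'.trans (hpw.trans hpw2)) (hv'.trans (hpw.trans hpw2))
      have h2 : (u : ℝ) * (Real.exp a * c) - (v : ℝ) * (Real.exp a * c') =
          Real.exp a * ((u : ℝ) * c - (v : ℝ) * c') := by ring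
      rw [h2, abs_mul, abs_of_pos (Real.exp_pos _)]
      calc (Real.exp a * c) ^ (η / 2) ≤ Real.exp (η * w - l - 1) := hpw
        _ ≤ Real.exp (a + η * w) := Real.exp_le_exp.2 (by linarith)
        _ = Real.exp a * Real.exp (η * w) := Real.exp_add _ _
        _ ≤ _ := by gcongr
  -- the sum over the unit intervals
  have hsum : ∫ s in (-(J : ℝ))..(J : ℝ), Real.exp (-4 * s ^ 2) * F s ≤ Real.exp 4 * C1 * I2 := by
    have h1 := ks_sum (F := F) (C := C1) (a := -(J : ℝ)) hF0 hFi (2 * J) (by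
      intro j hj
      have h2 : (j : ℝ) + 1 ≤ 2 * J := by exact_mod_cast hj
      have h3 : (0 : ℝ) ≤ j := Nat.cast_nonneg j
      refine hunit _ (by linarith) (by linarith))
    have e1 : -(J : ℝ) + ((2 * J : ℕ) : ℝ) = J := by push_cast; ring
    rw [e1] at h1
    refine h1.trans ?_
    have h4 : ∫ t in (-(J : ℝ))..(J : ℝ), Real.exp (-2 * t ^ 2) ≤ I2 := by
      rw [intervalIntegral.integral_of_le (by linarith)]
      exact setIntegral_le_integral hi2 (Filter.Eventually.of_forall fun s => (Real.exp_pos _).le)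
    gcongr
  -- the pointwise bound
  have hg4 : Continuous fun t : ℝ => Real.exp (-4 * t ^ 2) := by fun_prop
  have hIoc : IntegrableOn (fun s => Real.exp (-4 * s ^ 2) * F s) (Set.Ioc (-(J : ℝ)) J) := by
    have := (hFi (-(J : ℝ)) J).continuousOn_mul hg4.continuousOn
    exact (intervalIntegrable_iff_integrableOn_Ioc_of_le (by linarith)).1 this
  have hind : Integrable ((Set.Ioc (-(J : ℝ)) J).indicator fun s => Real.exp (-4 * s ^ 2) * F s) :=
    (integrable_indicator_iff measurableSet_Ioc).2 hIoc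
  have hpt : ∀ s : ℝ, Real.exp (-4 * s ^ 2) * (Gt β w (s + Real.log c) * Gt β w (s + Real.log c')) ≤
      (Set.Ioc (-(J : ℝ)) J).indicator (fun s => Real.exp (-4 * s ^ 2) * F s) s +
        Real.exp (-4 * s ^ 2) + Real.exp (-1 * s ^ 2) * (5 + |Γ| + |s|) ^ 2 := by
    intro s
    by_cases hs : s ∈ Set.Ioc (-(J : ℝ)) J
    · rw [Set.indicator_of_mem hs]
      have h1 := mul_le_mul_of_nonneg_left (ks_prod β w (s + Real.log c) (s + Real.log c'))
        (Real.exp_pos (-4 * s ^ 2)).le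
      have h2 : 0 ≤ Real.exp (-1 * s ^ 2) * (5 + |Γ| + |s|) ^ 2 := by positivity
      simp only [hF]
      linarith
    · rw [Set.indicator_of_notMem hs]
      have hsl : l ≤ |s| := by
        rw [Set.mem_Ioc, not_and_or, not_lt, not_le] at hs
        rcases hs with h | h
        · have := neg_le_abs s
          linarith
        · have := le_abs_self s
          linarith
      have h1 := ks_abs hw1 hβ hx hx' s
      have h2 : w ^ 2 = Real.exp (2 * l) := by
        rw [two_mul, Real.exp_add, hl, Real.exp_log hwp]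
        ring
      have h3 : Real.exp (-4 * s ^ 2) * w ^ 2 ≤ Real.exp (-1 * s ^ 2) := by
        rw [h2, ← Real.exp_add, Real.exp_le_exp]
        have h4 : l ^ 2 ≤ s ^ 2 := by
          rw [← sq_abs s]
          gcongr
        nlinarith
      have h5 := Real.exp_pos (-4 * s ^ 2)
      calc Real.exp (-4 * s ^ 2) * (Gt β w (s + Real.log c) * Gt β w (s + Real.log c'))
          ≤ Real.exp (-4 * s ^ 2) * (w ^ 2 * (5 + |Γ| + |s|) ^ 2) :=
            mul_le_mul_of_nonneg_left ((le_abs_self _).trans h1) h5.le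
        _ = (Real.exp (-4 * s ^ 2) * w ^ 2) * (5 + |Γ| + |s|) ^ 2 := by ring
        _ ≤ Real.exp (-1 * s ^ 2) * (5 + |Γ| + |s|) ^ 2 := by gcongr
        _ ≤ _ := by linarith
  calc KK β w (Real.log c) (Real.log c')
      ≤ ∫ s, ((Set.Ioc (-(J : ℝ)) J).indicator (fun s => Real.exp (-4 * s ^ 2) * F s) s +
        Real.exp (-4 * s ^ 2) + Real.exp (-1 * s ^ 2) * (5 + |Γ| + |s|) ^ 2) :=
        integral_mono (ks_KK_int hw1 hβ hx hx') ((hind.add hi4).add hi1) hpt
    _ = (∫ s in (-(J : ℝ))..(J : ℝ), Real.exp (-4 * s ^ 2) * F s) + I4 + I1 := by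
        have e1 := integral_add (hind.add hi4) hi1
        have e2 := integral_add hind hi4
        simp only [Pi.add_apply] at e1
        rw [e1, e2, integral_indicator measurableSet_Ioc, intervalIntegral.integral_of_le (by linarith)]
    _ ≤ _ := by linarith

end RLC
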