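import Pool.Agent.RLC.Defs
import Pool.Agent.ASI.SmoothK
import Pool.Agent.VKZ.ExpS

/-!
# RLC.KSL: smooth sums for a long range of frequencies

`ASI.KS j w τ = ∑ (log n)^j n^(-1-iτ) exp(-(log n - w)²/8)`; `ASI.KS_bound` is good for `|τ| ≤ exp(0.9 w)` only. Here we allow
`|τ| ≤ exp(K w)`, with a small power saving `exp(-κ w)` (by `VKZ.exp_sum`).

PROOF. Let `w ≥ w1(K)` be large (for `w ≤ w1` use `ASI.KS_triv`: `‖KS‖ ≤ C (1+w) ≤ C' (1+w) exp(-κw)`). If
`|τ| ≤ exp(9w/10)`: `ASI.KS_bound` gives `C (1+w)(1+|τ|)(exp(-τ²) + exp(-w))`, and `(1+|τ|) exp(-τ²) ≤ 4 exp(-|τ|)`,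
`(1+|τ|) exp(-w) ≤ 2 exp(-w/10)`. Let `exp(9w/10) < |τ| ≤ exp(Kw)`; by complex conjugation (`np n (-τ) = conj (np n τ)`)
we may assume `τ > 0`. The terms with `|log n - w| > w/20` contribute at most `exp(-w²/6400)` times a sum like
the one in `KS_triv` with `/16` in place of `/8` (e.g. `exp(-x²/8) ≤ exp(-w²/6400) exp(-x²/16)`; a crude bound for the sum,
such as `exp(w)` times something, is enough; or compare with `∑ (log n + 1) n^(-2) exp(w + C)`). The `n` with `|log n - w| ≤ w/20` are covered by at most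
`w + 2` blocks `a < n ≤ b`, `b ≤ 2a`, `exp(0.9 w) ≤ a ≤ exp(1.1 w)`, so `a^(4/5) ≤ exp(0.88 w) ≤ τ`. For such a block and every `b' ≤ b`:
`‖∑_{a<n≤b'} n^(-iτ)‖ ≤ C a exp(-c (log a)^6/(log τ)^5) ≤ C a exp(-c' w)`, `c' = c (0.9)^6/K^5` (`K ≥ 1` w.l.o.g.). Abel
summation with the weights `g(n) = (log n)^j n^(-1) exp(-(log n-w)²/8)`, whose total variation plus maximum on the
block is at most `C (1+w)²/a` (`|g'(x)| ≤ C (1+w)²/x²`), gives `C (1+w)² exp(-c'w)` for the block.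
-/

namespace RLC

open Finset

/-- Abel summation. -/
private theorem KSL_abel (a b : ℕ) (hab : a ≤ b) (u : ℕ → ℝ) (f : ℕ → ℂ) :
    ∑ n ∈ Ioc a b, (u n : ℂ) * f n = (u b : ℂ) * ∑ n ∈ Ioc a b, f n -
      ∑ n ∈ Ico a b, ((u (n + 1) - u n : ℝ) : ℂ) * ∑ m ∈ Ioc a n, f m := by
  induction b, hab using Nat.le_induction with
  | base => simp
  | succ b hb ih =>
    rw [Finset.sum_Ioc_succ_top hb, Finset.sum_Ico_succ_top hb, ih, Finset.sum_Ioc_succ_top hb]
    push_cast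
    ring

private theorem KSL_abel_le (a b : ℕ) (hab : a ≤ b) (u : ℕ → ℝ) (f : ℕ → ℂ) (M D : ℝ)
    (hM0 : 0 ≤ M) (hM : ∀ b', a < b' → b' ≤ b → ‖∑ n ∈ Ioc a b', f n‖ ≤ M)
    (hD : ∀ n, a ≤ n → n < b → |u (n + 1) - u n| ≤ D) :
    ‖∑ n ∈ Ioc a b, (u n : ℂ) * f n‖ ≤ (|u b| + ((b : ℝ) - a) * D) * M := by
  have hM' : ∀ b', a ≤ b' → b' ≤ b → ‖∑ n ∈ Ioc a b', f n‖ ≤ M := by
    intro b' h1 h2
    rcases h1.eq_or_lt with h | h
    · rw [← h]
      simpa using hM0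
    · exact hM b' h h2
  rw [KSL_abel a b hab]
  have h1 : ‖(u b : ℂ) * ∑ n ∈ Ioc a b, f n‖ ≤ |u b| * M := by
    rw [norm_mul, Complex.norm_real, Real.norm_eq_abs]
    exact mul_le_mul_of_nonneg_left (hM' b hab le_rfl) (abs_nonneg _)
  have h2 : ‖∑ n ∈ Ico a b, ((u (n + 1) - u n : ℝ) : ℂ) * ∑ m ∈ Ioc a n, f m‖ ≤
      ((b : ℝ) - a) * (D * M) := by
    refine (norm_sum_le_of_le (n := fun _ => D * M) _ fun n hn => ?_).trans (le_of_eq ?_)
    · rw [mem_Ico] at hn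
      rw [norm_mul, Complex.norm_real, Real.norm_eq_abs]
      exact mul_le_mul (hD n hn.1 hn.2) (hM' n hn.1 hn.2.le) (norm_nonneg _)
        ((abs_nonneg _).trans (hD n hn.1 hn.2))
    · rw [sum_const, Nat.card_Ico, nsmul_eq_mul, Nat.cast_sub hab]
  calc _ ≤ _ := norm_sub_le _ _
    _ ≤ |u b| * M + ((b : ℝ) - a) * (D * M) := add_le_add h1 h2
    _ = _ := by ring

/-- The weight in the variable `v = log x`. -/
private noncomputable def KSL_G (j : ℕ) (w v : ℝ) : ℝ := v ^ j * Real.exp (-(v - w) ^ 2 / 8 - v)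

private theorem KSL_pow {j : ℕ} (hj : j ≤ 1) {w v : ℝ} (hw : 0 ≤ w) :
    |v| ^ j ≤ (1 + w) * (1 + |v - w|) := by
  have h1 : |v| ≤ w + |v - w| := by
    have := abs_add_le w (v - w)
    rwa [add_sub_cancel, abs_of_nonneg hw] at this
  have h3 := abs_nonneg (v - w)
  interval_cases j
  · rw [pow_zero]
    nlinarith
  · rw [pow_one]
    nlinarith

private theorem KSL_gauss (t : ℝ) : (1 + |t|) ^ 2 * Real.exp (-t ^ 2 / 8) ≤ 32 := by
  have h3 := sq_abs t
  have h1 : (1 + |t|) ^ 2 ≤ 32 * (1 + t ^ 2 / 8) := by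
    nlinarith [sq_nonneg (|t| - 1), abs_nonneg t]
  have h2 : (1 + t ^ 2 / 8) * Real.exp (-t ^ 2 / 8) ≤ 1 := by
    have h7 := Real.add_one_le_exp (t ^ 2 / 8)
    calc (1 + t ^ 2 / 8) * Real.exp (-t ^ 2 / 8) ≤ Real.exp (t ^ 2 / 8) * Real.exp (-t ^ 2 / 8) :=
          mul_le_mul_of_nonneg_right (by linarith) (Real.exp_pos _).le
      _ = 1 := by rw [← Real.exp_add, ← Real.exp_zero]; congr 1; ring
  calc (1 + |t|) ^ 2 * Real.exp (-t ^ 2 / 8)
      ≤ (32 * (1 + t ^ 2 / 8)) * Real.exp (-t ^ 2 / 8) :=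
        mul_le_mul_of_nonneg_right h1 (Real.exp_pos _).le
    _ = 32 * ((1 + t ^ 2 / 8) * Real.exp (-t ^ 2 / 8)) := by ring
    _ ≤ 32 * 1 := by linarith
    _ = 32 := by norm_num

private theorem KSL_G_le {j : ℕ} (hj : j ≤ 1) {w : ℝ} (hw : 0 ≤ w) (v : ℝ) :
    |KSL_G j w v| ≤ 32 * (1 + w) * Real.exp (-v) := by
  have h1 := KSL_gauss (v - w)
  have h2 := KSL_pow hj (v := v) hw
  have h4 := abs_nonneg (v - w)
  unfold KSL_G
  rw [abs_mul, abs_pow, abs_of_pos (Real.exp_pos _), sub_eq_add_neg, Real.exp_add, ← mul_assoc]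
  refine mul_le_mul_of_nonneg_right ?_ (Real.exp_pos _).le
  calc |v| ^ j * Real.exp (-(v - w) ^ 2 / 8)
      ≤ (1 + w) * (1 + |v - w|) ^ 2 * Real.exp (-(v - w) ^ 2 / 8) := by
        refine mul_le_mul_of_nonneg_right ?_ (Real.exp_pos _).le
        refine h2.trans (mul_le_mul_of_nonneg_left ?_ (by linarith))
        nlinarith
    _ = (1 + w) * ((1 + |v - w|) ^ 2 * Real.exp (-(v - w) ^ 2 / 8)) := by ring
    _ ≤ (1 + w) * 32 := mul_le_mul_of_nonneg_left h1 (by linarith)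
    _ = _ := by ring

private theorem KSL_G_deriv (j : ℕ) (w v : ℝ) :
    HasDerivAt (KSL_G j w) ((j * v ^ (j - 1) + v ^ j * (-((v - w) / 4) - 1)) *
      Real.exp (-(v - w) ^ 2 / 8 - v)) v := by
  have h1 : HasDerivAt (fun u : ℝ => u ^ j) (j * v ^ (j - 1)) v := hasDerivAt_pow j v
  have h2 : HasDerivAt (fun u : ℝ => -(u - w) ^ 2 / 8 - u) (-((v - w) / 4) - 1) v := by
    have h3 := ((((hasDerivAt_id v).sub_const w).pow 2).neg.div_const 8).sub (hasDerivAt_id v)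
    refine (h3.congr_deriv ?_)
    simp
    ring
  refine (h1.mul h2.exp).congr_deriv ?_
  ring

private theorem KSL_G'_le {j : ℕ} (hj : j ≤ 1) {w : ℝ} (hw : 0 ≤ w) (v : ℝ) :
    |(j * v ^ (j - 1) + v ^ j * (-((v - w) / 4) - 1)) * Real.exp (-(v - w) ^ 2 / 8 - v)| ≤
      64 * (1 + w) * Real.exp (-v) := by
  have h1 := KSL_gauss (v - w)
  have h2 := KSL_pow hj (v := v) hw
  have h4 := abs_nonneg (v - w)
  have h5 : |(j * v ^ (j - 1) + v ^ j * (-((v - w) / 4) - 1))| ≤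
      2 * (1 + w) * (1 + |v - w|) ^ 2 := by
    have h6 : |(j : ℝ) * v ^ (j - 1)| ≤ 1 := by
      interval_cases j <;> simp
    have h7 : |(-((v - w) / 4) - 1)| ≤ 1 + |v - w| := by
      rw [abs_le]
      constructor <;> nlinarith [neg_abs_le (v - w), le_abs_self (v - w)]
    calc _ ≤ |(j : ℝ) * v ^ (j - 1)| + |v ^ j * (-((v - w) / 4) - 1)| := abs_add_le _ _
      _ ≤ 1 + ((1 + w) * (1 + |v - w|)) * (1 + |v - w|) := by
          rw [abs_mul (v ^ j), abs_pow]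
          exact add_le_add h6 (mul_le_mul h2 h7 (abs_nonneg _) (by positivity))
      _ ≤ _ := by nlinarith [mul_nonneg hw h4, mul_nonneg hw (mul_nonneg h4 h4)]
  rw [abs_mul, abs_of_pos (Real.exp_pos _), sub_eq_add_neg (-(v - w) ^ 2 / 8), Real.exp_add,
    ← mul_assoc]
  refine mul_le_mul_of_nonneg_right ?_ (Real.exp_pos _).le
  calc |(j * v ^ (j - 1) + v ^ j * (-((v - w) / 4) - 1))| * Real.exp (-(v - w) ^ 2 / 8)
      ≤ (2 * (1 + w) * (1 + |v - w|) ^ 2) * Real.exp (-(v - w) ^ 2 / 8) :=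
        mul_le_mul_of_nonneg_right h5 (Real.exp_pos _).le
    _ = 2 * (1 + w) * ((1 + |v - w|) ^ 2 * Real.exp (-(v - w) ^ 2 / 8)) := by ring
    _ ≤ 2 * (1 + w) * 32 := mul_le_mul_of_nonneg_left h1 (by linarith)
    _ = _ := by ring

private theorem KSL_G_diff {j : ℕ} (hj : j ≤ 1) {w : ℝ} (hw : 0 ≤ w) {x y : ℝ} (hxy : x ≤ y) :
    |KSL_G j w y - KSL_G j w x| ≤ 64 * (1 + w) * Real.exp (-x) * (y - x) := by
  have h := Convex.norm_image_sub_le_of_norm_hasDerivWithin_le (f := KSL_G j w)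
    (s := Set.Icc x y) (C := 64 * (1 + w) * Real.exp (-x)) (x := x) (y := y)
    (fun v _ => (KSL_G_deriv j w v).hasDerivWithinAt)
    (fun v hv => by
      rw [Real.norm_eq_abs]
      refine (KSL_G'_le hj hw v).trans ?_
      have : Real.exp (-v) ≤ Real.exp (-x) := Real.exp_le_exp.2 (by linarith [hv.1])
      exact mul_le_mul_of_nonneg_left this (by positivity))
    (convex_Icc x y) (Set.left_mem_Icc.2 hxy) (Set.right_mem_Icc.2 hxy)
  rwa [Real.norm_eq_abs, Real.norm_eq_abs, abs_of_nonneg (by linarith : 0 ≤ y - x)] at h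

/-- The terms. -/
private theorem KSL_term (j : ℕ) (w τ : ℝ) (n : ℕ) (hn : 1 ≤ n) :
    ((Real.log n ^ j * Real.exp (-(Real.log n - w) ^ 2 / 8) : ℝ) : ℂ) * ASI.np n τ =
      ((KSL_G j w (Real.log n) : ℝ) : ℂ) * (n : ℂ) ^ (-(τ * Complex.I)) := by
  have hn0 : (n : ℂ) ≠ 0 := by
    have : n ≠ 0 := by omega
    exact_mod_cast this
  have hnr : (0 : ℝ) < n := by exact_mod_cast hn
  unfold KSL_G ASI.np
  rw [neg_add, Complex.cpow_add _ _ hn0, Complex.cpow_neg_one, sub_eq_add_neg (-(_ - w) ^ 2 / 8),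
    Real.exp_add, Real.exp_neg, Real.exp_log hnr]
  push_cast
  ring

private theorem KSL_np0 (τ : ℝ) : ASI.np 0 τ = 0 := by
  unfold ASI.np
  rw [Nat.cast_zero, Complex.zero_cpow]
  intro h
  have := congrArg Complex.re h
  simp at this

private theorem KSL_np_norm (n : ℕ) (hn : 1 ≤ n) (τ : ℝ) : ‖ASI.np n τ‖ = 1 / n := by
  unfold ASI.np
  rw [Complex.norm_natCast_cpow_of_pos (by omega)]
  simp [Real.rpow_neg_one]

/-- One block. -/
private theorem KSL_block {j : ℕ} (hj : j ≤ 1) {w τ : ℝ} (hw : 0 ≤ w) (a : ℕ) (ha : 1 ≤ a) (M : ℝ)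
    (hM0 : 0 ≤ M)
    (hM : ∀ b', a < b' → b' ≤ 2 * a → ‖∑ n ∈ Ioc a b', (n : ℂ) ^ (-(τ * Complex.I))‖ ≤ M * a) :
    ‖∑ n ∈ Ioc a (2 * a), ((Real.log n ^ j * Real.exp (-(Real.log n - w) ^ 2 / 8) : ℝ) : ℂ) *
      ASI.np n τ‖ ≤ 96 * (1 + w) * M := by
  have ha0 : (0 : ℝ) < a := by exact_mod_cast ha
  have h1 : ∑ n ∈ Ioc a (2 * a), ((Real.log n ^ j * Real.exp (-(Real.log n - w) ^ 2 / 8) : ℝ) : ℂ) *
      ASI.np n τ = ∑ n ∈ Ioc a (2 * a), (((fun n : ℕ => KSL_G j w (Real.log n)) n : ℝ) : ℂ) *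
        (n : ℂ) ^ (-(τ * Complex.I)) := by
    refine sum_congr rfl fun n hn => ?_
    rw [mem_Ioc] at hn
    exact KSL_term j w τ n (by omega)
  rw [h1]
  have h2 := KSL_abel_le a (2 * a) (by omega) (fun n : ℕ => KSL_G j w (Real.log n))
    (fun n : ℕ => (n : ℂ) ^ (-(τ * Complex.I))) (M * a) (64 * (1 + w) / (a * a)) (by positivity) hM
    (by
      intro n hn _
      have hn0 : (a : ℝ) ≤ n := by exact_mod_cast hn
      have hn1 : (0 : ℝ) < n := by linarith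
      have h3 := KSL_G_diff hj hw (x := Real.log n) (y := Real.log ((n + 1 : ℕ) : ℝ))
        (Real.log_le_log hn1 (by push_cast; linarith))
      refine h3.trans ?_
      have h4 : Real.log ((n + 1 : ℕ) : ℝ) - Real.log n ≤ 1 / n := by
        rw [← Real.log_div (by positivity) (by positivity)]
        have h5 := Real.log_le_sub_one_of_pos (show (0 : ℝ) < ((n + 1 : ℕ) : ℝ) / n by positivity)
        refine h5.trans (le_of_eq ?_)
        push_cast
        field_simp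
        ring
      have h6 : Real.exp (-Real.log n) = 1 / n := by
        rw [Real.exp_neg, Real.exp_log hn1, one_div]
      rw [h6]
      calc 64 * (1 + w) * (1 / (n : ℝ)) * (Real.log ((n + 1 : ℕ) : ℝ) - Real.log n)
          ≤ 64 * (1 + w) * (1 / (n : ℝ)) * (1 / (n : ℝ)) :=
            mul_le_mul_of_nonneg_left h4 (by positivity)
        _ ≤ 64 * (1 + w) * (1 / (a : ℝ)) * (1 / (a : ℝ)) := by gcongr
        _ = _ := by field_simp)
  refine h2.trans ?_
  have h3 : |KSL_G j w (Real.log ((2 * a : ℕ) : ℝ))| ≤ 32 * (1 + w) / a := by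
    refine (KSL_G_le hj hw _).trans ?_
    have hp : (0 : ℝ) < ((2 * a : ℕ) : ℝ) := by positivity
    rw [Real.exp_neg, Real.exp_log hp, ← div_eq_mul_inv]
    push_cast
    gcongr
    linarith
  have h4 : ((2 * a : ℕ) : ℝ) - a = a := by
    push_cast
    ring
  rw [h4]
  calc (|KSL_G j w (Real.log ((2 * a : ℕ) : ℝ))| + a * (64 * (1 + w) / (a * a))) * (M * a)
      ≤ (32 * (1 + w) / a + a * (64 * (1 + w) / (a * a))) * (M * a) := by gcongr
    _ = 96 * (1 + w) * M := by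
        field_simp
        ring

/-- Several blocks. -/
private theorem KSL_blocks (f : ℕ → ℂ) (k0 : ℕ) (B : ℝ) (k1 : ℕ) (h01 : k0 ≤ k1)
    (hB : ∀ k, k0 ≤ k → k < k1 → ‖∑ n ∈ Ioc (2 ^ k) (2 * 2 ^ k), f n‖ ≤ B) :
    ‖∑ n ∈ Ioc (2 ^ k0) (2 ^ k1), f n‖ ≤ ((k1 : ℝ) - k0) * B := by
  induction k1, h01 using Nat.le_induction with
  | base => simp
  | succ k hk ih =>
    have h1 := ih fun i h2 h3 => hB i h2 (by omega)
    have h2 := hB k hk (by omega)
    have h3 : ∑ n ∈ Ioc (2 ^ k0) (2 ^ (k + 1)), f n =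
        ∑ n ∈ Ioc (2 ^ k0) (2 ^ k), f n + ∑ n ∈ Ioc (2 ^ k) (2 * 2 ^ k), f n := by
      rw [sum_Ioc_consecutive _ (Nat.pow_le_pow_right (by norm_num) hk) (by
        have := Nat.one_le_two_pow (n := k)
        omega), pow_succ, mul_comm 2 (2 ^ k)]
    rw [h3]
    calc _ ≤ _ := norm_add_le _ _
      _ ≤ ((k : ℝ) - k0) * B + B := add_le_add h1 h2
      _ = _ := by
          push_cast
          ring

/-- The tails. -/
private theorem KSL_tail_term {j : ℕ} (hj : j ≤ 1) {w τ : ℝ} (n : ℕ)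
    (h : n = 0 ∨ w / 20 ≤ |Real.log n - w|) (hw : 0 ≤ w) :
    ‖((Real.log n ^ j * Real.exp (-(Real.log n - w) ^ 2 / 8) : ℝ) : ℂ) * ASI.np n τ‖ ≤
      Real.exp (w + 4 - w ^ 2 / 6400) * (3 * (1 / (n : ℝ) ^ ((3 : ℝ) / 2))) := by
  rcases Nat.eq_zero_or_pos n with rfl | hn
  · rw [KSL_np0, mul_zero, norm_zero]
    positivity
  have hn' : n ≠ 0 := by omega
  have h : w / 20 ≤ |Real.log n - w| := h.resolve_left hn'
  have hn1 : (1 : ℝ) ≤ n := by exact_mod_cast hn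
  have hn0 : (0 : ℝ) < n := by linarith
  have hl : 0 ≤ Real.log n := Real.log_nonneg hn1
  rw [norm_mul, KSL_np_norm n hn, Complex.norm_real, Real.norm_eq_abs, abs_mul,
    abs_of_pos (Real.exp_pos _), abs_pow, abs_of_nonneg hl]
  have h1 : Real.log n ^ j ≤ 3 * (n : ℝ) ^ ((1 : ℝ) / 2) := by
    have h2 : (1 : ℝ) ≤ (n : ℝ) ^ ((1 : ℝ) / 2) := Real.one_le_rpow hn1 (by norm_num)
    have h3 : Real.log n ≤ 2 * (n : ℝ) ^ ((1 : ℝ) / 2) := by
      have := Real.log_le_rpow_div hn0.le (show (0 : ℝ) < 1 / 2 by norm_num)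
      linarith
    interval_cases j
    · rw [pow_zero]
      linarith
    · rw [pow_one]
      linarith
  have h2 : Real.exp (-(Real.log n - w) ^ 2 / 8) ≤
      Real.exp (w + 4 - w ^ 2 / 6400) * (1 / (n : ℝ)) := by
    have h3 : 1 / (n : ℝ) = Real.exp (-Real.log n) := by
      rw [Real.exp_neg, Real.exp_log hn0, one_div]
    rw [h3, ← Real.exp_add]
    refine Real.exp_le_exp.2 ?_
    have h4 : (w / 20) ^ 2 ≤ (Real.log n - w) ^ 2 := by
      rw [← sq_abs (Real.log n - w)]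
      exact pow_le_pow_left₀ (by positivity) h 2
    nlinarith [sq_nonneg ((Real.log n - w) - 8)]
  have h5 : (n : ℝ) ^ ((1 : ℝ) / 2) * (1 / (n : ℝ)) * (1 / (n : ℝ)) =
      1 / (n : ℝ) ^ ((3 : ℝ) / 2) := by
    have h6 : 1 / (n : ℝ) = (n : ℝ) ^ (-1 : ℝ) := by rw [Real.rpow_neg_one, one_div]
    have h7 : 1 / (n : ℝ) ^ ((3 : ℝ) / 2) = (n : ℝ) ^ (-((3 : ℝ) / 2)) := by
      rw [Real.rpow_neg hn0.le, one_div]
    rw [h6, h7, ← Real.rpow_add hn0, ← Real.rpow_add hn0]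
    norm_num
  calc Real.log n ^ j * Real.exp (-(Real.log n - w) ^ 2 / 8) * (1 / (n : ℝ))
      ≤ (3 * (n : ℝ) ^ ((1 : ℝ) / 2)) * (Real.exp (w + 4 - w ^ 2 / 6400) * (1 / (n : ℝ))) *
        (1 / (n : ℝ)) := by gcongr
    _ = Real.exp (w + 4 - w ^ 2 / 6400) * (3 * ((n : ℝ) ^ ((1 : ℝ) / 2) * (1 / (n : ℝ)) *
        (1 / (n : ℝ)))) := by ring
    _ = _ := by rw [h5]

private theorem KSL_split (f : ℕ → ℂ) (S : Finset ℕ) (g : ℕ → ℝ) (hg : Summable g)
    (hf : Summable f) (h : ∀ n, n ∉ S → ‖f n‖ ≤ g n) (h0 : ∀ n, 0 ≤ g n) :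
    ‖∑' n, f n‖ ≤ ‖∑ n ∈ S, f n‖ + ∑' n, g n := by
  classical
  have h1 : HasSum (fun n => if n ∈ S then f n else 0) (∑ n ∈ S, f n) := by
    have h2 : ∑ n ∈ S, f n = ∑ n ∈ S, (if n ∈ S then f n else 0) :=
      sum_congr rfl fun n hn => by rw [if_pos hn]
    rw [h2]
    exact hasSum_sum_of_ne_finset_zero fun n hn => if_neg hn
  have h3 : HasSum (fun n => f n - (if n ∈ S then f n else 0)) (∑' n, f n - ∑ n ∈ S, f n) :=
    hf.hasSum.sub h1
  have h4 : ‖∑' n, f n - ∑ n ∈ S, f n‖ ≤ ∑' n, g n := by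
    rw [← h3.tsum_eq]
    refine tsum_of_norm_bounded hg.hasSum fun n => ?_
    by_cases hn : n ∈ S
    · rw [if_pos hn, sub_self, norm_zero]
      exact h0 n
    · rw [if_neg hn, sub_zero]
      exact h n hn
  calc ‖∑' n, f n‖ = ‖∑ n ∈ S, f n + (∑' n, f n - ∑ n ∈ S, f n)‖ := by rw [add_sub_cancel]
    _ ≤ _ := (norm_add_le _ _).trans (add_le_add_right h4 _)

private theorem KSL_neg (j : ℕ) (w τ : ℝ) : ‖ASI.KS j w (-τ)‖ = ‖ASI.KS j w τ‖ := by
  have h1 : ASI.KS j w (-τ) = (starRingEnd ℂ) (ASI.KS j w τ) := by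
    unfold ASI.KS
    rw [Complex.conj_tsum]
    refine tsum_congr fun n => ?_
    rw [map_mul, Complex.conj_ofReal]
    congr 1
    unfold ASI.np
    have h2 := Complex.cpow_conj (n : ℂ) (-(1 + τ * Complex.I)) (by
      rw [Complex.natCast_arg]
      exact Real.pi_pos.ne)
    rw [Complex.conj_natCast] at h2
    rw [← h2]
    congr 1
    simp
  rw [h1, RCLike.norm_conj]

private theorem KSL_pos (K : ℝ) : ∃ κ C : ℝ, 0 < κ ∧ κ ≤ 1 / 10 ∧ 1 ≤ C ∧ ∀ (j : ℕ) (w τ : ℝ),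
    j ≤ 1 → 14 ≤ w → Real.exp (9 * w / 10) < τ → τ ≤ Real.exp (K * w) →
    ‖ASI.KS j w τ‖ ≤ C * (1 + w) * Real.exp (-κ * w) := by
  obtain ⟨c, Ce, hc, hCe, hE⟩ := VKZ.exp_sum
  obtain ⟨Ct, hCt, hT⟩ := ASI.KS_triv
  set K' : ℝ := max K 1 with hK'
  have hK'1 : 1 ≤ K' := le_max_right _ _
  have hKK' : K ≤ K' := le_max_left _ _
  have hK'0 : 0 < K' := by linarith
  set κ : ℝ := min (1 / 10) (c * (9 / 10) ^ 6 / K' ^ 5 / 2) with hκ
  have hκ0 : 0 < κ := by rw [hκ]; positivity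
  have hκ1 : κ ≤ 1 / 10 := min_le_left _ _
  have hκ2 : 2 * κ ≤ c * (9 / 10) ^ 6 / K' ^ 5 := by
    have := min_le_right (1 / 10) (c * (9 / 10) ^ 6 / K' ^ 5 / 2)
    rw [← hκ] at this
    linarith
  have hsum : Summable fun n : ℕ => 1 / (n : ℝ) ^ ((3 : ℝ) / 2) :=
    Real.summable_one_div_nat_rpow.2 (by norm_num)
  set Z : ℝ := ∑' n : ℕ, 1 / (n : ℝ) ^ ((3 : ℝ) / 2) with hZ
  have hZ0 : 0 ≤ Z := tsum_nonneg fun n => by positivity
  refine ⟨κ, 192 * Ce / κ + 3 * Z * Real.exp 6404 + 1, hκ0, hκ1, ?_, ?_⟩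
  · have : 0 ≤ 192 * Ce / κ + 3 * Z * Real.exp 6404 := by positivity
    linarith
  intro j w τ hj hw hτ1 hτ2
  have hw0 : 0 ≤ w := by linarith
  have hl2 := Real.log_two_gt_d9
  have hl2' := Real.log_two_lt_d9
  have hl20 : 0 < Real.log 2 := by linarith
  set k0 : ℕ := ⌊19 / 20 * w / Real.log 2⌋₊ with hk0
  set k1 : ℕ := ⌈21 / 20 * w / Real.log 2⌉₊ with hk1
  have hk0a : (k0 : ℝ) * Real.log 2 ≤ 19 / 20 * w := by
    rw [← le_div_iff₀ hl20]
    exact Nat.floor_le (by positivity)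
  have hk0b : 19 / 20 * w < ((k0 : ℝ) + 1) * Real.log 2 := by
    rw [← div_lt_iff₀ hl20]
    exact Nat.lt_floor_add_one _
  have hk1a : 21 / 20 * w ≤ (k1 : ℝ) * Real.log 2 := by
    rw [← div_le_iff₀ hl20]
    exact Nat.le_ceil _
  have hk1b : ((k1 : ℝ) - 1) * Real.log 2 < 21 / 20 * w := by
    rw [← lt_div_iff₀ hl20]
    have := Nat.ceil_lt_add_one (show 0 ≤ 21 / 20 * w / Real.log 2 by positivity)
    rw [← hk1] at this
    linarith
  have h01 : k0 ≤ k1 := by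
    have h1 : (k0 : ℝ) * Real.log 2 ≤ (k1 : ℝ) * Real.log 2 := by linarith
    have h2 : (k0 : ℝ) ≤ k1 := le_of_mul_le_mul_right h1 hl20
    exact_mod_cast h2
  have hτ0 : 0 < τ := (Real.exp_pos _).trans hτ1
  have hlτ1 : 9 * w / 10 < Real.log τ := (Real.lt_log_iff_exp_lt hτ0).2 hτ1
  have hlτ2 : Real.log τ ≤ K' * w := by
    have := (Real.log_le_iff_le_exp hτ0).2 hτ2
    exact this.trans (mul_le_mul_of_nonneg_right hKK' hw0)
  -- one block
  have hblock : ∀ k, k0 ≤ k → k < k1 →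
      ‖∑ n ∈ Ioc (2 ^ k : ℕ) (2 * 2 ^ k : ℕ), ((Real.log (n : ℕ) ^ j *
        Real.exp (-(Real.log (n : ℕ) - w) ^ 2 / 8) : ℝ) : ℂ) * ASI.np n τ‖ ≤
        96 * (1 + w) * (Ce * Real.exp (-(2 * κ) * w)) := by
    intro k hka hkb
    have hlog : Real.log ((2 ^ k : ℕ) : ℝ) = k * Real.log 2 := by
      push_cast
      rw [Real.log_pow]
    have hka' : (k0 : ℝ) ≤ k := by exact_mod_cast hka
    have hkb' : (k : ℝ) ≤ k1 - 1 := by
      have : (k : ℝ) + 1 ≤ k1 := by exact_mod_cast hkb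
      linarith
    have hx1 : 9 * w / 10 ≤ (k : ℝ) * Real.log 2 := by
      have h1 : (k0 : ℝ) * Real.log 2 ≤ k * Real.log 2 :=
        mul_le_mul_of_nonneg_right hka' hl20.le
      nlinarith
    have hx2 : (k : ℝ) * Real.log 2 ≤ 21 / 20 * w := by
      have h1 : (k : ℝ) * Real.log 2 ≤ (k1 - 1) * Real.log 2 :=
        mul_le_mul_of_nonneg_right hkb' hl20.le
      linarith
    have hk1' : 1 ≤ k := by
      rcases Nat.eq_zero_or_pos k with rfl | h
      · simp at hx1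
        linarith
      · exact h
    have ha2 : 2 ≤ 2 ^ k := by
      calc 2 = 2 ^ 1 := by norm_num
        _ ≤ 2 ^ k := Nat.pow_le_pow_right (by norm_num) hk1'
    have hap : (0 : ℝ) < ((2 ^ k : ℕ) : ℝ) := by positivity
    refine KSL_block hj hw0 (2 ^ k) (by omega) _ (by positivity) fun b' hb1 hb2 => ?_
    have h1 := hE (2 ^ k) b' τ ha2 hb1 hb2 (by
      rw [Real.rpow_def_of_pos hap, hlog]
      refine le_trans (Real.exp_le_exp.2 ?_) hτ1.le
      nlinarith)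
    refine h1.trans ?_
    rw [hlog]
    have h2 : 2 * κ * w ≤ c * ((k : ℝ) * Real.log 2) ^ 6 / Real.log τ ^ 5 := by
      have hlt : 0 < Real.log τ := by
        have : 0 ≤ 9 * w / 10 := by positivity
        linarith
      rw [le_div_iff₀ (pow_pos hlt 5)]
      have hw' : 0 < w := by linarith
      calc 2 * κ * w * Real.log τ ^ 5 ≤ (c * (9 / 10) ^ 6 / K' ^ 5) * w * (K' * w) ^ 5 := by
            gcongr
        _ = c * (9 * w / 10) ^ 6 := by
            field_simp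
        _ ≤ c * ((k : ℝ) * Real.log 2) ^ 6 := by gcongr
    have h3 : Real.exp (-c * ((k : ℝ) * Real.log 2) ^ 6 / Real.log τ ^ 5) ≤
        Real.exp (-(2 * κ) * w) := by
      refine Real.exp_le_exp.2 ?_
      have : -c * ((k : ℝ) * Real.log 2) ^ 6 / Real.log τ ^ 5 =
          -(c * ((k : ℝ) * Real.log 2) ^ 6 / Real.log τ ^ 5) := by ring
      rw [this]
      linarith
    calc Ce * ((2 ^ k : ℕ) : ℝ) * Real.exp (-c * ((k : ℝ) * Real.log 2) ^ 6 / Real.log τ ^ 5)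
        ≤ Ce * ((2 ^ k : ℕ) : ℝ) * Real.exp (-(2 * κ) * w) :=
          mul_le_mul_of_nonneg_left h3 (by positivity)
      _ = _ := by ring
  have hmid := KSL_blocks (fun n : ℕ => ((Real.log n ^ j *
    Real.exp (-(Real.log n - w) ^ 2 / 8) : ℝ) : ℂ) * ASI.np n τ) k0 _ k1 h01 hblock
  have hs : Summable (fun n : ℕ => ((Real.log n ^ j *
    Real.exp (-(Real.log n - w) ^ 2 / 8) : ℝ) : ℂ) * ASI.np n τ) := (hT j w τ hj).1.of_norm
  have hmain := KSL_split _ (Ioc (2 ^ k0) (2 ^ k1)) (fun n : ℕ =>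
    Real.exp (w + 4 - w ^ 2 / 6400) * (3 * (1 / (n : ℝ) ^ ((3 : ℝ) / 2))))
    ((hsum.mul_left 3).mul_left _) hs (fun n hn => by
      refine KSL_tail_term hj n ?_ hw0
      rcases Nat.eq_zero_or_pos n with h0 | h0
      · left
        exact h0
      right
      rw [mem_Ioc, not_and_or, not_lt, not_le] at hn
      have hnp : (0 : ℝ) < n := by exact_mod_cast h0
      rcases hn with hn | hn
      · have h1 : Real.log n ≤ k0 * Real.log 2 := by
          rw [← Real.log_pow]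
          refine Real.log_le_log hnp ?_
          exact_mod_cast hn
        rw [abs_sub_comm]
        refine le_trans ?_ (le_abs_self _)
        linarith
      · have h1 : (k1 : ℝ) * Real.log 2 ≤ Real.log n := by
          rw [← Real.log_pow]
          refine Real.log_le_log (by positivity) ?_
          exact_mod_cast hn.le
        refine le_trans ?_ (le_abs_self _)
        linarith) (fun n => by positivity)
  have hexp0 : Real.exp (-(κ * w)) = Real.exp (-κ * w) := by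
    congr 1
    ring
  -- the middle
  have hm2 : ((k1 : ℝ) - k0) * (96 * (1 + w) * (Ce * Real.exp (-(2 * κ) * w))) ≤
      192 * Ce / κ * (1 + w) * Real.exp (-κ * w) := by
    have h1 : (k1 : ℝ) - k0 ≤ 2 * (1 + w) := by
      have h2 : (k1 : ℝ) - 1 < 2 * w := by
        have h3 : ((k1 : ℝ) - 1) * Real.log 2 < (2 * w) * Real.log 2 := by nlinarith
        exact lt_of_mul_lt_mul_right h3 hl20.le
      have h4 : (0 : ℝ) ≤ k0 := Nat.cast_nonneg _
      linarith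
    have h2 : (1 + w) * Real.exp (-κ * w) ≤ 1 / κ := by
      have h3 := Real.add_one_le_exp (κ * w)
      have h4 : (1 + w) * κ ≤ Real.exp (κ * w) := by nlinarith
      rw [le_div_iff₀ hκ0]
      calc (1 + w) * Real.exp (-κ * w) * κ = ((1 + w) * κ) * Real.exp (-κ * w) := by ring
        _ ≤ Real.exp (κ * w) * Real.exp (-κ * w) :=
            mul_le_mul_of_nonneg_right h4 (Real.exp_pos _).le
        _ = 1 := by
            rw [← Real.exp_add, ← Real.exp_zero]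
            congr 1
            ring
    have h5 : Real.exp (-(2 * κ) * w) = Real.exp (-κ * w) * Real.exp (-κ * w) := by
      rw [← Real.exp_add]
      congr 1
      ring
    rw [h5]
    calc ((k1 : ℝ) - k0) * (96 * (1 + w) * (Ce * (Real.exp (-κ * w) * Real.exp (-κ * w))))
        ≤ (2 * (1 + w)) * (96 * (1 + w) * (Ce * (Real.exp (-κ * w) * Real.exp (-κ * w)))) :=
          mul_le_mul_of_nonneg_right h1 (by positivity)
      _ = 192 * Ce * (1 + w) * Real.exp (-κ * w) * ((1 + w) * Real.exp (-κ * w)) := by ring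
      _ ≤ 192 * Ce * (1 + w) * Real.exp (-κ * w) * (1 / κ) :=
          mul_le_mul_of_nonneg_left h2 (by positivity)
      _ = _ := by ring
  have ht2 : ∑' n : ℕ, Real.exp (w + 4 - w ^ 2 / 6400) * (3 * (1 / (n : ℝ) ^ ((3 : ℝ) / 2))) ≤
      3 * Z * Real.exp 6404 * (1 + w) * Real.exp (-κ * w) := by
    rw [tsum_mul_left, tsum_mul_left, ← hZ]
    have h1 : Real.exp (w + 4 - w ^ 2 / 6400) ≤ Real.exp 6404 * Real.exp (-κ * w) := by
      rw [← Real.exp_add]
      refine Real.exp_le_exp.2 ?_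
      have h2 : κ * w ≤ w := by nlinarith
      nlinarith [sq_nonneg (w - 6400)]
    calc Real.exp (w + 4 - w ^ 2 / 6400) * (3 * Z)
        ≤ (Real.exp 6404 * Real.exp (-κ * w)) * (3 * Z) :=
          mul_le_mul_of_nonneg_right h1 (by positivity)
      _ = 3 * Z * Real.exp 6404 * Real.exp (-κ * w) * 1 := by ring
      _ ≤ 3 * Z * Real.exp 6404 * Real.exp (-κ * w) * (1 + w) :=
          mul_le_mul_of_nonneg_left (by linarith) (by positivity)
      _ = _ := by ring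
  unfold ASI.KS
  refine hmain.trans ?_
  have hpos : 0 ≤ (1 + w) * Real.exp (-κ * w) := by positivity
  calc _ ≤ 192 * Ce / κ * (1 + w) * Real.exp (-κ * w) +
        3 * Z * Real.exp 6404 * (1 + w) * Real.exp (-κ * w) := add_le_add (hmid.trans hm2) ht2
    _ ≤ 192 * Ce / κ * (1 + w) * Real.exp (-κ * w) +
        3 * Z * Real.exp 6404 * (1 + w) * Real.exp (-κ * w) + (1 + w) * Real.exp (-κ * w) := by
        linarith
    _ = _ := by ring

theorem KS_long (K : ℝ) : ∃ κ C : ℝ, 0 < κ ∧ κ ≤ 1 / 10 ∧ 1 ≤ C ∧ ∀ (j : ℕ) (w τ : ℝ), j ≤ 1 → 0 ≤ w →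
    |τ| ≤ Real.exp (K * w) →
    ‖ASI.KS j w τ‖ ≤ C * (1 + w) * (Real.exp (-|τ|) + Real.exp (-κ * w)) := by
  obtain ⟨κ, C1, hκ0, hκ1, hC1, h1⟩ := KSL_pos K
  obtain ⟨C2, hC2, h2⟩ := ASI.KS_bound
  obtain ⟨C3, hC3, h3⟩ := ASI.KS_triv
  refine ⟨κ, C1 + 4 * C2 + C3 * Real.exp 2, hκ0, hκ1, ?_, ?_⟩
  · have : 0 ≤ 4 * C2 + C3 * Real.exp 2 := by positivity
    linarith
  intro j w τ hj hw hτ
  have hE1 := Real.exp_pos (-|τ|)
  have hE2 := Real.exp_pos (-κ * w)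
  have key : ∀ A : ℝ, 0 ≤ A → A ≤ C1 + 4 * C2 + C3 * Real.exp 2 →
      ‖ASI.KS j w τ‖ ≤ A * (1 + w) * (Real.exp (-|τ|) + Real.exp (-κ * w)) →
      ‖ASI.KS j w τ‖ ≤ (C1 + 4 * C2 + C3 * Real.exp 2) * (1 + w) *
        (Real.exp (-|τ|) + Real.exp (-κ * w)) := by
    intro A hA0 hA h
    refine h.trans ?_
    gcongr
  have hx3 : 0 ≤ C3 * Real.exp 2 := by positivity
  rcases lt_or_ge w 14 with hw14 | hw14
  · refine key (C3 * Real.exp 2) hx3 (by linarith) ?_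
    have h4 : ‖ASI.KS j w τ‖ ≤ C3 * (1 + |w|) := by
      unfold ASI.KS
      exact (norm_tsum_le_tsum_norm (h3 j w τ hj).1).trans (h3 j w τ hj).2
    rw [abs_of_nonneg hw] at h4
    refine h4.trans ?_
    have h5 : 1 ≤ Real.exp 2 * Real.exp (-κ * w) := by
      rw [← Real.exp_add]
      refine Real.one_le_exp ?_
      nlinarith
    calc C3 * (1 + w) = C3 * (1 + w) * 1 := by ring
      _ ≤ C3 * (1 + w) * (Real.exp 2 * Real.exp (-κ * w)) :=
          mul_le_mul_of_nonneg_left h5 (by positivity)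
      _ = C3 * Real.exp 2 * (1 + w) * Real.exp (-κ * w) := by ring
      _ ≤ _ := by
          refine mul_le_mul_of_nonneg_left ?_ (by positivity)
          linarith
  rcases le_or_gt |τ| (Real.exp (9 * w / 10)) with hτ1 | hτ1
  · refine key (4 * C2) (by linarith) (by linarith) ?_
    refine (h2 j w τ hj).trans ?_
    rw [abs_of_nonneg hw]
    have h6 : (1 + |τ|) * Real.exp (-τ ^ 2) ≤ 4 * Real.exp (-|τ|) := by
      have h7 : 1 + |τ| ≤ 4 * Real.exp (τ ^ 2 - |τ|) := by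
        have h8 := Real.add_one_le_exp (τ ^ 2 - |τ|)
        have h9 := sq_abs τ
        nlinarith [sq_nonneg (|τ| - 1), abs_nonneg τ]
      calc (1 + |τ|) * Real.exp (-τ ^ 2) ≤ (4 * Real.exp (τ ^ 2 - |τ|)) * Real.exp (-τ ^ 2) :=
            mul_le_mul_of_nonneg_right h7 (Real.exp_pos _).le
        _ = 4 * (Real.exp (τ ^ 2 - |τ|) * Real.exp (-τ ^ 2)) := by ring
        _ = 4 * Real.exp (-|τ|) := by
            rw [← Real.exp_add]
            congr 2
            ring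
    have h7 : (1 + |τ|) * Real.exp (-w) ≤ 4 * Real.exp (-κ * w) := by
      have h8 : (1 : ℝ) ≤ Real.exp (9 * w / 10) := Real.one_le_exp (by positivity)
      calc (1 + |τ|) * Real.exp (-w) ≤ (4 * Real.exp (9 * w / 10)) * Real.exp (-w) :=
            mul_le_mul_of_nonneg_right (by linarith) (Real.exp_pos _).le
        _ = 4 * (Real.exp (9 * w / 10) * Real.exp (-w)) := by ring
        _ ≤ 4 * Real.exp (-κ * w) := by
            rw [← Real.exp_add]
            refine mul_le_mul_of_nonneg_left (Real.exp_le_exp.2 ?_) (by norm_num)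
            nlinarith
    calc C2 * (1 + w) * (1 + |τ|) * (Real.exp (-τ ^ 2) + Real.exp (-w))
        = C2 * (1 + w) * ((1 + |τ|) * Real.exp (-τ ^ 2) + (1 + |τ|) * Real.exp (-w)) := by ring
      _ ≤ C2 * (1 + w) * (4 * Real.exp (-|τ|) + 4 * Real.exp (-κ * w)) :=
          mul_le_mul_of_nonneg_left (add_le_add h6 h7) (by positivity)
      _ = _ := by ring
  · refine key C1 (by linarith) (by linarith) ?_
    have h4 : ‖ASI.KS j w τ‖ = ‖ASI.KS j w |τ|‖ := by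
      rcases abs_choice τ with h | h
      · rw [h]
      · rw [h, KSL_neg]
    rw [h4]
    refine (h1 j w |τ| hj hw14 hτ1 hτ).trans ?_
    refine mul_le_mul_of_nonneg_left ?_ (by positivity)
    linarith

end RLC
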