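import Mathlib

/-!
# RLC.Transfer: transfer of the large value property under averaging

PROOF. `Db = D·1[|τ| ≤ 2T, D > lam]`. For `|τ| ≤ T`: `D(τ-ξ) ≤ Db(τ-ξ) + lam + M·1[|ξ| > T]` (if `|τ-ξ| > 2T` then `|ξ| > T`), so
`F τ ≤ ∫ k(ξ) Db(τ-ξ) dξ + K lam + M ∫_{|ξ|>T} k + ε0 ≤ ∫ k Db + lam'/4`. Where `F τ > lam'`: `F τ ≤ 2 ∫ k(ξ) Db(τ-ξ) dξ`, so
`F² ≤ 4 (∫ k)(∫ k(ξ) Db(τ-ξ)² dξ) ≤ 4K ∫ k(ξ) Db(τ-ξ)² dξ` (Cauchy-Schwarz) and the integral over `τ` is at most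
`4K² ∫ Db²`.
-/

namespace RLC

open MeasureTheory

private lemma transfer_split {D : ℝ → ℝ} {M T lam : ℝ} (hD0 : ∀ x, 0 ≤ D x) (hDM : ∀ x, D x ≤ M) (hlam : 0 ≤ lam)
    {τ ξ : ℝ} (hτ : |τ| ≤ T) :
    D (τ - ξ) ≤ {x : ℝ | |x| ≤ 2 * T ∧ lam < D x}.indicator D (τ - ξ) + lam +
      {ξ : ℝ | T < |ξ|}.indicator (fun _ => M) ξ := by
  have hM : 0 ≤ M := (hD0 0).trans (hDM 0)
  have h1 : 0 ≤ {x : ℝ | |x| ≤ 2 * T ∧ lam < D x}.indicator D (τ - ξ) :=
    Set.indicator_nonneg (fun x _ => hD0 x) _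
  have h2 : 0 ≤ {ξ : ℝ | T < |ξ|}.indicator (fun _ => M) ξ :=
    Set.indicator_nonneg (fun x _ => hM) _
  by_cases hξ : T < |ξ|
  · have h3 : {ξ : ℝ | T < |ξ|}.indicator (fun _ => M) ξ = M := Set.indicator_of_mem (by exact hξ) _
    rw [h3]
    linarith [hDM (τ - ξ)]
  · by_cases hl : lam < D (τ - ξ)
    · have h4 : |τ - ξ| ≤ 2 * T := by
        have := abs_sub τ ξ
        push Not at hξ
        linarith
      have h3 : {x : ℝ | |x| ≤ 2 * T ∧ lam < D x}.indicator D (τ - ξ) = D (τ - ξ) :=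
        Set.indicator_of_mem (by exact ⟨h4, hl⟩) _
      rw [h3]
      linarith
    · push Not at hl
      linarith

theorem transfer {D F k : ℝ → ℝ} {M K T lam lam' ε0 : ℝ} (hDm : Measurable D) (hFm : Measurable F)
    (hkm : Measurable k) (hD0 : ∀ x, 0 ≤ D x) (hDM : ∀ x, D x ≤ M) (hk0 : ∀ x, 0 ≤ k x)
    (hki : Integrable k) (hkK : ∫ x, k x ≤ K) (hF0 : ∀ x, 0 ≤ F x) (hT : 0 ≤ T) (hlam : 0 ≤ lam)
    (hε : 0 ≤ ε0) (hF : ∀ τ : ℝ, |τ| ≤ T → F τ ≤ (∫ ξ : ℝ, k ξ * D (τ - ξ)) + ε0)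
    (hlam' : 4 * (K * lam + ε0 + M * ∫ ξ in {ξ : ℝ | T < |ξ|}, k ξ) ≤ lam') :
    ∫ τ in {τ : ℝ | |τ| ≤ T ∧ lam' < F τ}, F τ ^ 2 ≤
      4 * K ^ 2 * ∫ τ in {τ : ℝ | |τ| ≤ 2 * T ∧ lam < D τ}, D τ ^ 2 := by
  have hM : 0 ≤ M := (hD0 0).trans (hDM 0)
  have hK0 : 0 ≤ K := (integral_nonneg hk0).trans hkK
  set S : Set ℝ := {x : ℝ | |x| ≤ 2 * T ∧ lam < D x} with hS
  have hSm : MeasurableSet S :=
    (measurableSet_le continuous_abs.measurable measurable_const).inter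
      (measurableSet_lt measurable_const hDm)
  set A : Set ℝ := {τ : ℝ | |τ| ≤ T ∧ lam' < F τ} with hA
  have hAm : MeasurableSet A :=
    (measurableSet_le continuous_abs.measurable measurable_const).inter
      (measurableSet_lt measurable_const hFm)
  set B : Set ℝ := {ξ : ℝ | T < |ξ|} with hB
  have hBm : MeasurableSet B := measurableSet_lt measurable_const continuous_abs.measurable
  set Db : ℝ → ℝ := S.indicator D with hDb
  have hDbm : Measurable Db := hDm.indicator hSm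
  have hDb0 : ∀ x, 0 ≤ Db x := fun x => Set.indicator_nonneg (fun x _ => hD0 x) x
  have hDbM : ∀ x, Db x ≤ M := by
    intro x
    by_cases hx : x ∈ S
    · rw [hDb, Set.indicator_of_mem hx]; exact hDM x
    · rw [hDb, Set.indicator_of_notMem hx]; exact hM
  -- integrability of the products
  have hint : ∀ (g : ℝ → ℝ) (C : ℝ), Measurable g → (∀ x, |g x| ≤ C) →
      ∀ τ : ℝ, Integrable (fun ξ => k ξ * g (τ - ξ)) := by
    intro g C hg hC τ
    refine hki.mul_bdd (c := C) ?_ ?_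
    · exact (hg.comp (measurable_const.sub measurable_id)).aestronglyMeasurable
    · exact Filter.Eventually.of_forall fun ξ => by rw [Real.norm_eq_abs]; exact hC _
  have hDabs : ∀ x, |D x| ≤ M := fun x => by rw [abs_of_nonneg (hD0 x)]; exact hDM x
  have hDbabs : ∀ x, |Db x| ≤ M := fun x => by rw [abs_of_nonneg (hDb0 x)]; exact hDbM x
  have hDb2 : ∀ x, |Db x ^ 2| ≤ M ^ 2 := fun x => by
    rw [abs_of_nonneg (sq_nonneg _)]; exact pow_le_pow_left₀ (hDb0 x) (hDbM x) 2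
  have hDb2m : Measurable fun x => Db x ^ 2 := hDbm.pow_const 2
  -- the first bound
  have hI1 : ∀ τ : ℝ, |τ| ≤ T → F τ ≤ (∫ ξ : ℝ, k ξ * Db (τ - ξ)) + lam' / 4 := by
    intro τ hτ
    have h1 : ∫ ξ : ℝ, k ξ * D (τ - ξ) ≤
        ∫ ξ : ℝ, (k ξ * Db (τ - ξ) + lam * k ξ + M * B.indicator k ξ) := by
      refine integral_mono (hint D M hDm hDabs τ) ?_ ?_
      · exact ((hint Db M hDbm hDbabs τ).add (hki.const_mul lam)).add ((hki.indicator hBm).const_mul M)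
      · intro ξ
        have := transfer_split (T := T) hD0 hDM hlam (ξ := ξ) hτ
        have h2 := mul_le_mul_of_nonneg_left this (hk0 ξ)
        refine h2.trans (le_of_eq ?_)
        show k ξ * (Db (τ - ξ) + lam + B.indicator (fun _ => M) ξ) =
          k ξ * Db (τ - ξ) + lam * k ξ + M * B.indicator k ξ
        by_cases hξ : ξ ∈ B
        · rw [Set.indicator_of_mem hξ, Set.indicator_of_mem hξ]; ring
        · rw [Set.indicator_of_notMem hξ, Set.indicator_of_notMem hξ]; ring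
    have h2 : ∫ ξ : ℝ, (k ξ * Db (τ - ξ) + lam * k ξ + M * B.indicator k ξ) =
        (∫ ξ : ℝ, k ξ * Db (τ - ξ)) + lam * (∫ ξ, k ξ) + M * ∫ ξ in B, k ξ := by
      have hs : Integrable (fun ξ => k ξ * Db (τ - ξ) + lam * k ξ) :=
        (hint Db M hDbm hDbabs τ).add (hki.const_mul lam)
      rw [integral_add hs
        ((hki.indicator hBm).const_mul M), integral_add (hint Db M hDbm hDbabs τ) (hki.const_mul lam),
        integral_const_mul, integral_const_mul, integral_indicator hBm]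
    have h3 : lam * (∫ ξ, k ξ) ≤ lam * K := mul_le_mul_of_nonneg_left hkK hlam
    have h4 := hF τ hτ
    have h5 : K * lam + ε0 + M * ∫ ξ in B, k ξ ≤ lam' / 4 := by linarith
    linarith
  -- nonnegativity
  have hBk : 0 ≤ ∫ ξ in B, k ξ := integral_nonneg hk0
  have hl0 : 0 ≤ lam' := by
    have : 0 ≤ K * lam + ε0 + M * ∫ ξ in B, k ξ := by positivity
    linarith
  -- Cauchy-Schwarz
  have hCS : ∀ τ : ℝ, (∫ ξ : ℝ, k ξ * Db (τ - ξ)) ^ 2 ≤ K * ∫ ξ : ℝ, k ξ * Db (τ - ξ) ^ 2 := by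
    intro τ
    have hd : ∀ t : ℝ, 0 ≤ K * (t * t) + (-2 * ∫ ξ : ℝ, k ξ * Db (τ - ξ)) * t +
        ∫ ξ : ℝ, k ξ * Db (τ - ξ) ^ 2 := by
      intro t
      have h1 : 0 ≤ ∫ ξ : ℝ, k ξ * (Db (τ - ξ) - t) ^ 2 :=
        integral_nonneg fun ξ => mul_nonneg (hk0 ξ) (sq_nonneg _)
      have h2 : ∫ ξ : ℝ, k ξ * (Db (τ - ξ) - t) ^ 2 =
          (∫ ξ : ℝ, k ξ * Db (τ - ξ) ^ 2) + (-2 * t) * (∫ ξ : ℝ, k ξ * Db (τ - ξ)) + t ^ 2 * ∫ ξ, k ξ := by
        have h3 : (fun ξ : ℝ => k ξ * (Db (τ - ξ) - t) ^ 2) =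
            fun ξ => k ξ * Db (τ - ξ) ^ 2 + (-2 * t) * (k ξ * Db (τ - ξ)) + t ^ 2 * k ξ := by
          funext ξ; ring
        have hA1 : Integrable (fun ξ => k ξ * Db (τ - ξ) ^ 2) :=
          hint (fun x => Db x ^ 2) (M ^ 2) hDb2m hDb2 τ
        have hA2 : Integrable (fun ξ => (-2 * t) * (k ξ * Db (τ - ξ))) :=
          (hint Db M hDbm hDbabs τ).const_mul _
        have hA12 : Integrable (fun ξ => k ξ * Db (τ - ξ) ^ 2 + (-2 * t) * (k ξ * Db (τ - ξ))) :=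
          hA1.add hA2
        rw [h3, integral_add hA12 (hki.const_mul _), integral_add hA1 hA2,
          integral_const_mul, integral_const_mul]
      have h4 : t ^ 2 * (∫ ξ, k ξ) ≤ t ^ 2 * K := mul_le_mul_of_nonneg_left hkK (sq_nonneg t)
      nlinarith
    have h5 := discrim_le_zero hd
    rw [discrim] at h5
    nlinarith
  -- the convolution
  have hDbi : Integrable fun x => Db x ^ 2 := by
    have h1 : (fun x => Db x ^ 2) = S.indicator fun x => Db x ^ 2 := by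
      funext x
      by_cases hx : x ∈ S
      · rw [Set.indicator_of_mem hx]
      · rw [Set.indicator_of_notMem hx, hDb, Set.indicator_of_notMem hx]; norm_num
    rw [h1, integrable_indicator_iff hSm]
    have hfin : volume S < ⊤ := by
      refine (measure_mono (t := Set.Icc (-(2 * T)) (2 * T)) ?_).trans_lt ?_
      · intro x hx
        exact Set.mem_Icc.mpr (abs_le.mp hx.1)
      · rw [Real.volume_Icc]; exact ENNReal.ofReal_lt_top
    exact Measure.integrableOn_of_bounded hfin.ne hDb2m.aestronglyMeasurable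
      (Filter.Eventually.of_forall fun x => by rw [Real.norm_eq_abs]; exact hDb2 x)
  have hGi : Integrable fun τ : ℝ => ∫ ξ : ℝ, k ξ * Db (τ - ξ) ^ 2 := by
    have := MeasureTheory.Integrable.integrable_convolution (ContinuousLinearMap.mul ℝ ℝ) hki hDbi
    exact this
  have hGe : ∫ τ : ℝ, (∫ ξ : ℝ, k ξ * Db (τ - ξ) ^ 2) = (∫ ξ, k ξ) * ∫ x, Db x ^ 2 := by
    have := MeasureTheory.integral_convolution (ContinuousLinearMap.mul ℝ ℝ) hki hDbi
    exact this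
  have hG0 : ∀ τ : ℝ, 0 ≤ ∫ ξ : ℝ, k ξ * Db (τ - ξ) ^ 2 := fun τ =>
    integral_nonneg fun ξ => mul_nonneg (hk0 ξ) (sq_nonneg _)
  -- the pointwise bound on A
  have hpt : ∀ τ ∈ A, F τ ^ 2 ≤ 4 * K * ∫ ξ : ℝ, k ξ * Db (τ - ξ) ^ 2 := by
    intro τ hτ
    have h1 := hI1 τ hτ.1
    have h2 := hτ.2
    have h3 : F τ ≤ 2 * ∫ ξ : ℝ, k ξ * Db (τ - ξ) := by linarith [hF0 τ]
    have h4 : F τ ^ 2 ≤ (2 * ∫ ξ : ℝ, k ξ * Db (τ - ξ)) ^ 2 := pow_le_pow_left₀ (hF0 τ) h3 2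
    have h5 := hCS τ
    nlinarith
  have hstep : ∫ τ in A, F τ ^ 2 ≤ ∫ τ in A, 4 * K * ∫ ξ : ℝ, k ξ * Db (τ - ξ) ^ 2 := by
    refine integral_mono_of_nonneg (Filter.Eventually.of_forall fun τ => sq_nonneg _) ?_ ?_
    · exact (hGi.const_mul _).integrableOn
    · exact (ae_restrict_iff' hAm).mpr (Filter.Eventually.of_forall hpt)
  have hstep2 : ∫ τ in A, 4 * K * (∫ ξ : ℝ, k ξ * Db (τ - ξ) ^ 2) ≤
      ∫ τ : ℝ, 4 * K * ∫ ξ : ℝ, k ξ * Db (τ - ξ) ^ 2 := by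
    refine setIntegral_le_integral (hGi.const_mul _) (Filter.Eventually.of_forall fun τ => ?_)
    have := hG0 τ
    show (0 : ℝ) ≤ 4 * K * _
    positivity
  have hDbint : ∫ x, Db x ^ 2 = ∫ τ in S, D τ ^ 2 := by
    rw [← integral_indicator hSm]
    congr 1
    funext x
    by_cases hx : x ∈ S
    · rw [Set.indicator_of_mem hx, hDb, Set.indicator_of_mem hx]
    · rw [Set.indicator_of_notMem hx, hDb, Set.indicator_of_notMem hx]; norm_num
  have hI0 : 0 ≤ ∫ x, Db x ^ 2 := integral_nonneg fun x => sq_nonneg _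
  calc ∫ τ in A, F τ ^ 2 ≤ ∫ τ : ℝ, 4 * K * ∫ ξ : ℝ, k ξ * Db (τ - ξ) ^ 2 := hstep.trans hstep2
    _ = 4 * K * ((∫ ξ, k ξ) * ∫ x, Db x ^ 2) := by rw [integral_const_mul, hGe]
    _ ≤ 4 * K * (K * ∫ x, Db x ^ 2) := by gcongr
    _ = 4 * K ^ 2 * ∫ τ in S, D τ ^ 2 := by rw [hDbint]; ring

end RLC
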