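import Pool.Agent.RLC.LVP
import Pool.Agent.RLC.Transfer

/-!
# RLC.LVG: the same for the weight `exp(-(log n-w)²/2)`

PROOF. `exp(-3u²/8) = √(2/(3π)) ∫ exp(-2ξ²/3) exp(iξu) dξ`, so
`exp(-(x-w)²/2) = exp(-(x-w)²/8) · √(2/(3π)) ∫ exp(-2ξ²/3) exp(iξ(x-w)) dξ`, and
`D1 w τ = √(2/(3π)) ∫ exp(-2ξ²/3) exp(-iξw) DP w (τ-ξ) dξ` (for the sum over `n`: Fubini, `ASI.P_triv`/`div_gauss` give absolute
convergence; for the main terms it is a Gaussian integral, `integral_cexp_quadratic`, or the same identity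
under `∫ dx`: `mainT L τ = ∫ exp(-iτx) exp(-(x-L)²/8) dx`). `√(2/(3π)) ≤ 1`.
`D1_bd`: `‖DP w τ‖ ≤ C (1+|w|)^6` (`ASI.P_triv`, `‖mainT‖ ≤ 6`), hence the same for `D1`; continuity: `gs` is an absolutely
convergent series of continuous functions (or by the formula).
`gs_lv`: `transfer` with `D = ‖DP w ·‖`, `F = ‖D1 w ·‖`, `k = exp(-2ξ²/3)`, `K = 3`, `T = exp(3w/2)` (`2T ≤ exp(2w)`), `M = C (1+w)^6`,
`ε0 = 0`, `lam = exp(-δ1 w)` (`δ1` from `P_lv`), `lam' = exp(-δ1 w/2)`; `∫_{|ξ|>T} k` is tiny.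
-/

namespace RLC

open MeasureTheory

private theorem LVG_ne (τ : ℝ) : -(1 + (τ : ℂ) * Complex.I) ≠ 0 := by
  intro h0
  have := congrArg Complex.re h0
  simp at this

private theorem LVG_np_norm (n : ℕ) (τ : ℝ) : ‖ASI.np n τ‖ = 1 / n := by
  unfold ASI.np
  rcases Nat.eq_zero_or_pos n with h | h
  · subst h
    rw [Nat.cast_zero, Complex.zero_cpow (LVG_ne τ)]
    simp
  · rw [Complex.norm_natCast_cpow_of_pos h]
    have : (-(1 + (τ : ℂ) * Complex.I)).re = -1 := by simp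
    rw [this, Real.rpow_neg_one, one_div]

private theorem LVG_np_cont (n : ℕ) : Continuous (fun τ : ℝ => ASI.np n τ) := by
  unfold ASI.np
  rw [continuous_iff_continuousAt]
  intro τ
  refine ContinuousAt.const_cpow ?_ (Or.inr (LVG_ne τ))
  fun_prop

private noncomputable def LVG_a (n : ℕ) : ℝ :=
  (n.divisors.card : ℝ) ^ 2 * (1 + Real.log n) ^ 2 / n

private theorem LVG_a_nonneg (n : ℕ) : 0 ≤ LVG_a n := by
  unfold LVG_a
  positivity

private theorem LVG_lam_le (n : ℕ) : ArithmeticFunction.vonMangoldt n * (1 / n) ≤ LVG_a n := by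
  unfold LVG_a
  rcases Nat.eq_zero_or_pos n with h | h
  · subst h
    simp
  · have h1 : (1 : ℝ) ≤ n := by exact_mod_cast h
    have h2 : 0 ≤ Real.log n := Real.log_nonneg h1
    have h3 : ArithmeticFunction.vonMangoldt n ≤ Real.log n :=
      ArithmeticFunction.vonMangoldt_le_log
    have h4 : (1 : ℝ) ≤ n.divisors.card := by
      have : 0 < n.divisors.card := Finset.card_pos.mpr ⟨1, Nat.one_mem_divisors.mpr h.ne'⟩
      exact_mod_cast this
    have h5 : Real.log n ≤ (n.divisors.card : ℝ) ^ 2 * (1 + Real.log n) ^ 2 := by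
      have h6 : (1 : ℝ) ≤ (n.divisors.card : ℝ) ^ 2 := one_le_pow₀ h4
      nlinarith [sq_nonneg (Real.log n)]
    rw [mul_one_div]
    exact div_le_div_of_nonneg_right (h3.trans h5) (by positivity)

private theorem LVG_term (n : ℕ) (τ : ℝ) :
    ‖(ArithmeticFunction.vonMangoldt n : ℂ) * ASI.np n τ‖ =
      ArithmeticFunction.vonMangoldt n * (1 / n) := by
  rw [norm_mul, LVG_np_norm, Complex.norm_real, Real.norm_of_nonneg
    ArithmeticFunction.vonMangoldt_nonneg]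

private theorem LVG_sum : ∃ C : ℝ, 1 ≤ C ∧ ∀ y : ℝ,
    Summable (fun n : ℕ => LVG_a n * Real.exp (-(Real.log n - y) ^ 2 / 16)) ∧
    ∑' n : ℕ, LVG_a n * Real.exp (-(Real.log n - y) ^ 2 / 16) ≤ C * (1 + |y|) ^ 6 := by
  obtain ⟨C, hC, h⟩ := ASI.div_gauss
  exact ⟨C, hC, fun y => ⟨(h y).1, (h y).2.1⟩⟩

private theorem LVG_exp_mono {x c c' : ℝ} (hc : 0 < c) (hcc : c ≤ c') :
    Real.exp (-x ^ 2 / c) ≤ Real.exp (-x ^ 2 / c') := by
  apply Real.exp_le_exp.mpr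
  rw [neg_div, neg_div, neg_le_neg_iff]
  exact div_le_div_of_nonneg_left (sq_nonneg x) hc hcc

/-- the terms of `gs` -/
private noncomputable def LVG_g (w : ℝ) (n : ℕ) (τ : ℝ) : ℂ :=
  (ArithmeticFunction.vonMangoldt n : ℂ) * (n : ℂ) ^ (-(1 + τ * Complex.I)) *
    Real.exp (-(Real.log n - w) ^ 2 / 2)

private theorem LVG_g_le (w : ℝ) (n : ℕ) (τ : ℝ) :
    ‖LVG_g w n τ‖ ≤ LVG_a n * Real.exp (-(Real.log n - w) ^ 2 / 16) := by
  unfold LVG_g
  have h1 := LVG_term n τ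
  unfold ASI.np at h1
  rw [norm_mul, h1, Complex.norm_real, Real.norm_of_nonneg (Real.exp_pos _).le]
  exact mul_le_mul (LVG_lam_le n) (LVG_exp_mono (by norm_num) (by norm_num))
    (Real.exp_pos _).le (LVG_a_nonneg n)

private theorem LVG_gs (w τ : ℝ) :
    VKZ.gs (fun n => ArithmeticFunction.vonMangoldt n) w τ = ∑' n : ℕ, LVG_g w n τ := rfl

private theorem LVG_gs_cont (w : ℝ) :
    Continuous (fun τ : ℝ => VKZ.gs (fun n => ArithmeticFunction.vonMangoldt n) w τ) := by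
  obtain ⟨C, hC, h⟩ := LVG_sum
  simp only [LVG_gs]
  refine continuous_tsum (fun n => ?_) (h w).1 fun n τ => LVG_g_le w n τ
  exact (continuous_const.mul (LVG_np_cont n)).mul continuous_const

private theorem LVG_mainT_norm (L τ : ℝ) : ‖ASI.mainT L τ‖ ≤ 6 := by
  unfold ASI.mainT
  rw [norm_mul, norm_mul, Complex.norm_real, Complex.norm_real,
    Real.norm_of_nonneg (Real.sqrt_nonneg _), Real.norm_of_nonneg (Real.exp_pos _).le]
  have h1 : ‖Complex.exp (-(τ * L * Complex.I))‖ = 1 := by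
    rw [Complex.norm_exp]
    simp
  rw [h1, mul_one]
  have h2 : Real.sqrt (8 * Real.pi) ≤ 6 := by
    rw [show (6 : ℝ) = Real.sqrt (6 ^ 2) by rw [Real.sqrt_sq (by norm_num)]]
    apply Real.sqrt_le_sqrt
    have := Real.pi_lt_four
    linarith
  have h3 : Real.exp (-2 * τ ^ 2) ≤ 1 := Real.exp_le_one_iff.2 (by nlinarith [sq_nonneg τ])
  calc Real.sqrt (8 * Real.pi) * Real.exp (-2 * τ ^ 2) ≤ 6 * 1 :=
        mul_le_mul h2 h3 (Real.exp_pos _).le (by norm_num)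
    _ = 6 := by norm_num

private theorem LVG_mainT_cont (L : ℝ) : Continuous (ASI.mainT L) := by
  unfold ASI.mainT
  fun_prop

private theorem LVG_DP_cont (w : ℝ) : Continuous (DP w) := (ASI.P_cont w).sub (LVG_mainT_cont w)

private theorem LVG_DP_bd : ∃ C : ℝ, 1 ≤ C ∧ ∀ w τ : ℝ, ‖DP w τ‖ ≤ C * (1 + |w|) ^ 6 := by
  obtain ⟨C, hC, h⟩ := ASI.P_triv
  refine ⟨C + 6, by linarith, fun w τ => ?_⟩
  have h1 : (1 : ℝ) ≤ (1 + |w|) ^ 6 := one_le_pow₀ (by linarith [abs_nonneg w])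
  calc ‖DP w τ‖ ≤ ‖ASI.P w τ‖ + ‖ASI.mainT w τ‖ := norm_sub_le _ _
    _ ≤ C * (1 + |w|) ^ 6 + 6 * (1 + |w|) ^ 6 := by
        refine add_le_add (h w τ) ((LVG_mainT_norm w τ).trans ?_)
        nlinarith
    _ = (C + 6) * (1 + |w|) ^ 6 := by ring

private theorem LVG_main2_norm (w τ : ℝ) :
    ‖(Real.sqrt (2 * Real.pi) * Real.exp (-τ ^ 2 / 2) * Complex.exp (-(τ * w * Complex.I)) : ℂ)‖ ≤
      6 := by
  rw [norm_mul, norm_mul, Complex.norm_real, Complex.norm_real,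
    Real.norm_of_nonneg (Real.sqrt_nonneg _), Real.norm_of_nonneg (Real.exp_pos _).le]
  have h1 : ‖Complex.exp (-(τ * w * Complex.I))‖ = 1 := by
    rw [Complex.norm_exp]
    simp
  rw [h1, mul_one]
  have h2 : Real.sqrt (2 * Real.pi) ≤ 6 := by
    rw [show (6 : ℝ) = Real.sqrt (6 ^ 2) by rw [Real.sqrt_sq (by norm_num)]]
    apply Real.sqrt_le_sqrt
    have := Real.pi_lt_four
    linarith
  have h3 : Real.exp (-τ ^ 2 / 2) ≤ 1 := Real.exp_le_one_iff.2 (by nlinarith [sq_nonneg τ])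
  calc Real.sqrt (2 * Real.pi) * Real.exp (-τ ^ 2 / 2) ≤ 6 * 1 :=
        mul_le_mul h2 h3 (Real.exp_pos _).le (by norm_num)
    _ = 6 := by norm_num

/-- the kernel of the transfer -/
private noncomputable def LVG_k (ξ : ℝ) : ℝ := Real.exp (-(2 / 3) * ξ ^ 2)

private theorem LVG_k_int : Integrable LVG_k := integrable_exp_neg_mul_sq (by norm_num)

private theorem LVG_k_eq : ∫ ξ : ℝ, LVG_k ξ = Real.sqrt (3 * Real.pi / 2) := by
  unfold LVG_k
  rw [integral_gaussian]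
  congr 1
  field_simp

/-- the Fourier transform of the kernel -/
private theorem LVG_fourier (u : ℝ) :
    ∫ ξ : ℝ, ((LVG_k ξ : ℝ) : ℂ) * Complex.exp (ξ * u * Complex.I) =
      ((Real.sqrt (3 * Real.pi / 2) * Real.exp (-(3 / 8) * u ^ 2) : ℝ) : ℂ) := by
  have h := fourierIntegral_gaussian (b := ((2 / 3 : ℝ) : ℂ)) (by
    rw [Complex.ofReal_re]; norm_num) (u : ℂ)
  have e1 : (fun ξ : ℝ => ((LVG_k ξ : ℝ) : ℂ) * Complex.exp (ξ * u * Complex.I)) =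
      fun x : ℝ => Complex.exp (Complex.I * u * x) * Complex.exp (-((2 / 3 : ℝ) : ℂ) * x ^ 2) := by
    funext x
    unfold LVG_k
    rw [mul_comm, Complex.ofReal_exp]
    congr 1
    · congr 1
      ring
    · congr 1
      push_cast
      ring
  rw [e1, h]
  have e2 : ((Real.pi : ℂ) / ((2 / 3 : ℝ) : ℂ)) ^ (1 / 2 : ℂ) =
      ((Real.sqrt (3 * Real.pi / 2) : ℝ) : ℂ) := by
    rw [← Complex.ofReal_div, Real.sqrt_eq_rpow, Complex.ofReal_cpow (by positivity)]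
    congr 1
    · congr 1
      field_simp
    · push_cast
      ring
  rw [e2, Complex.ofReal_mul, Complex.ofReal_exp]
  congr 2
  push_cast
  ring

/-- the summand of the formula -/
private noncomputable def LVG_F (w τ : ℝ) (n : ℕ) (ξ : ℝ) : ℂ :=
  ((LVG_k ξ : ℝ) : ℂ) * Complex.exp (-(ξ * w * Complex.I)) *
    ((ArithmeticFunction.vonMangoldt n : ℂ) * ASI.np n (τ - ξ) * (ASI.ps w (Real.log n) : ℝ))

private theorem LVG_F_norm (w τ : ℝ) (n : ℕ) (ξ : ℝ) :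
    ‖LVG_F w τ n ξ‖ = LVG_k ξ *
      (ArithmeticFunction.vonMangoldt n * (1 / n) * Real.exp (-(Real.log n - w) ^ 2 / 8)) := by
  unfold LVG_F
  rw [norm_mul, norm_mul, norm_mul, LVG_term, Complex.norm_real, Complex.norm_real,
    Real.norm_of_nonneg (show 0 ≤ LVG_k ξ from (Real.exp_pos _).le),
    Real.norm_of_nonneg (show 0 ≤ ASI.ps w (Real.log n) from (Real.exp_pos _).le)]
  have h1 : ‖Complex.exp (-(ξ * w * Complex.I))‖ = 1 := by
    rw [Complex.norm_exp]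
    simp
  rw [h1, mul_one]
  rfl

private theorem LVG_F_cont (w τ : ℝ) (n : ℕ) : Continuous (LVG_F w τ n) := by
  unfold LVG_F LVG_k
  have h1 : Continuous (fun ξ : ℝ => ASI.np n (τ - ξ)) :=
    (LVG_np_cont n).comp (continuous_const.sub continuous_id)
  fun_prop

private theorem LVG_F_int (w τ : ℝ) (n : ℕ) : Integrable (LVG_F w τ n) := by
  refine Integrable.mono' (g := fun ξ => LVG_k ξ *
    (ArithmeticFunction.vonMangoldt n * (1 / n) * Real.exp (-(Real.log n - w) ^ 2 / 8)))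
    (LVG_k_int.mul_const _) (LVG_F_cont w τ n).aestronglyMeasurable ?_
  exact Filter.Eventually.of_forall fun ξ => (LVG_F_norm w τ n ξ).le

private theorem LVG_F_eq (w τ : ℝ) (n : ℕ) (ξ : ℝ) :
    LVG_F w τ n ξ = ((ArithmeticFunction.vonMangoldt n : ℂ) * ASI.np n τ *
      (ASI.ps w (Real.log n) : ℝ)) *
      (((LVG_k ξ : ℝ) : ℂ) * Complex.exp (ξ * ((Real.log n - w : ℝ) : ℂ) * Complex.I)) := by
  unfold LVG_F
  rcases Nat.eq_zero_or_pos n with h | h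
  · subst h
    simp
  · have hn : (n : ℂ) ≠ 0 := by exact_mod_cast h.ne'
    have h1 : ASI.np n (τ - ξ) = ASI.np n τ * Complex.exp (ξ * (Real.log n : ℝ) * Complex.I) := by
      unfold ASI.np
      rw [Complex.cpow_def_of_ne_zero hn, Complex.cpow_def_of_ne_zero hn, ← Complex.exp_add]
      congr 1
      rw [Complex.natCast_log]
      push_cast
      ring
    have h2 : Complex.exp (ξ * ((Real.log n - w : ℝ) : ℂ) * Complex.I) =
        Complex.exp (-(ξ * w * Complex.I)) * Complex.exp (ξ * (Real.log n : ℝ) * Complex.I) := by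
      rw [← Complex.exp_add]
      congr 1
      push_cast
      ring
    rw [h1, h2]
    ring

private theorem LVG_F_integral (w τ : ℝ) (n : ℕ) :
    ∫ ξ : ℝ, LVG_F w τ n ξ = (Real.sqrt (3 * Real.pi / 2) : ℝ) * LVG_g w n τ := by
  simp only [LVG_F_eq]
  rw [integral_const_mul, LVG_fourier]
  unfold LVG_g ASI.np ASI.ps
  have h1 : Real.exp (-(Real.log n - w) ^ 2 / 2) =
      Real.exp (-(Real.log n - w) ^ 2 / 8) * Real.exp (-(3 / 8) * (Real.log n - w) ^ 2) := by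
    rw [← Real.exp_add]
    congr 1
    ring
  rw [h1]
  push_cast
  ring

private theorem LVG_sumF (w τ : ℝ) :
    (Real.sqrt (3 * Real.pi / 2) : ℝ) * VKZ.gs (fun n => ArithmeticFunction.vonMangoldt n) w τ =
      ∫ ξ : ℝ, ((LVG_k ξ : ℝ) : ℂ) * Complex.exp (-(ξ * w * Complex.I)) * ASI.P w (τ - ξ) := by
  obtain ⟨C, hC, h⟩ := LVG_sum
  have hs : Summable fun n : ℕ => ∫ ξ : ℝ, ‖LVG_F w τ n ξ‖ := by
    simp only [LVG_F_norm]
    simp only [integral_mul_const]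
    refine Summable.mul_left _ (Summable.of_nonneg_of_le (fun n => ?_) (fun n => ?_) (h w).1)
    · have := ArithmeticFunction.vonMangoldt_nonneg (n := n)
      positivity
    · exact mul_le_mul (LVG_lam_le n) (LVG_exp_mono (by norm_num) (by norm_num))
        (Real.exp_pos _).le (LVG_a_nonneg n)
  have h1 := integral_tsum_of_summable_integral_norm (LVG_F_int w τ) hs
  rw [LVG_gs, ← tsum_mul_left]
  simp only [LVG_F_integral] at h1
  rw [h1]
  congr 1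
  funext ξ
  unfold LVG_F ASI.P
  rw [tsum_mul_left]

private theorem LVG_main_int (w τ : ℝ) :
    ∫ ξ : ℝ, ((LVG_k ξ : ℝ) : ℂ) * Complex.exp (-(ξ * w * Complex.I)) * ASI.mainT w (τ - ξ) =
      (Real.sqrt (3 * Real.pi / 2) : ℝ) *
      (Real.sqrt (2 * Real.pi) * Real.exp (-τ ^ 2 / 2) * Complex.exp (-(τ * w * Complex.I))) := by
  have e1 : ∀ ξ : ℝ, ((LVG_k ξ : ℝ) : ℂ) * Complex.exp (-(ξ * w * Complex.I)) *
      ASI.mainT w (τ - ξ) = ((Real.exp (-(8 / 3) * (ξ - 3 / 4 * τ) ^ 2) : ℝ) : ℂ) *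
      (Real.sqrt (8 * Real.pi) * Real.exp (-τ ^ 2 / 2) * Complex.exp (-(τ * w * Complex.I))) := by
    intro ξ
    unfold ASI.mainT LVG_k
    have h1 : Complex.exp (-(((τ - ξ : ℝ) : ℂ) * w * Complex.I)) =
        Complex.exp (-(τ * w * Complex.I)) * Complex.exp (ξ * w * Complex.I) := by
      rw [← Complex.exp_add]
      congr 1
      push_cast
      ring
    have h2 : Complex.exp (-(ξ * w * Complex.I)) * Complex.exp (ξ * w * Complex.I) = 1 := by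
      rw [← Complex.exp_add, neg_add_cancel, Complex.exp_zero]
    have h3 : Real.exp (-(2 / 3) * ξ ^ 2) * Real.exp (-2 * (τ - ξ) ^ 2) =
        Real.exp (-(8 / 3) * (ξ - 3 / 4 * τ) ^ 2) * Real.exp (-τ ^ 2 / 2) := by
      rw [← Real.exp_add, ← Real.exp_add]
      congr 1
      ring
    have h4 : ((Real.exp (-(2 / 3) * ξ ^ 2) : ℝ) : ℂ) * ((Real.exp (-2 * (τ - ξ) ^ 2) : ℝ) : ℂ) =
        ((Real.exp (-(8 / 3) * (ξ - 3 / 4 * τ) ^ 2) : ℝ) : ℂ) *
        ((Real.exp (-τ ^ 2 / 2) : ℝ) : ℂ) := by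
      rw [← Complex.ofReal_mul, h3, Complex.ofReal_mul]
    rw [h1]
    linear_combination (Real.sqrt (8 * Real.pi) : ℂ) * Complex.exp (-(τ * w * Complex.I)) *
        (Complex.exp (-(ξ * w * Complex.I)) * Complex.exp (ξ * w * Complex.I)) * h4 +
      (Real.sqrt (8 * Real.pi) : ℂ) * Complex.exp (-(τ * w * Complex.I)) *
        ((Real.exp (-(8 / 3) * (ξ - 3 / 4 * τ) ^ 2) : ℝ) : ℂ) *
        ((Real.exp (-τ ^ 2 / 2) : ℝ) : ℂ) * h2
  simp only [e1]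
  rw [integral_mul_const]
  have e2 : ∫ ξ : ℝ, ((Real.exp (-(8 / 3) * (ξ - 3 / 4 * τ) ^ 2) : ℝ) : ℂ) =
      ((Real.sqrt (3 * Real.pi / 8) : ℝ) : ℂ) := by
    have h0 : ∫ ξ : ℝ, ((Real.exp (-(8 / 3) * (ξ - 3 / 4 * τ) ^ 2) : ℝ) : ℂ) =
        ((∫ ξ : ℝ, Real.exp (-(8 / 3) * (ξ - 3 / 4 * τ) ^ 2) : ℝ) : ℂ) := integral_complex_ofReal
    rw [h0]
    congr 1
    have h := integral_sub_right_eq_self (μ := (volume : Measure ℝ))
      (fun ξ : ℝ => Real.exp (-(8 / 3) * ξ ^ 2)) (3 / 4 * τ)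
    rw [h, integral_gaussian]
    congr 1
    field_simp
  rw [e2]
  have e3 : Real.sqrt (3 * Real.pi / 8) * Real.sqrt (8 * Real.pi) =
      Real.sqrt (3 * Real.pi / 2) * Real.sqrt (2 * Real.pi) := by
    rw [← Real.sqrt_mul (by positivity), ← Real.sqrt_mul (by positivity)]
    congr 1
    ring
  have e4 : ((Real.sqrt (3 * Real.pi / 8) : ℝ) : ℂ) * ((Real.sqrt (8 * Real.pi) : ℝ) : ℂ) =
      ((Real.sqrt (3 * Real.pi / 2) : ℝ) : ℂ) * ((Real.sqrt (2 * Real.pi) : ℝ) : ℂ) := by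
    rw [← Complex.ofReal_mul, e3, Complex.ofReal_mul]
  linear_combination ((Real.exp (-τ ^ 2 / 2) : ℝ) : ℂ) * Complex.exp (-(τ * w * Complex.I)) * e4

private theorem LVG_intP (w τ : ℝ) {G : ℝ → ℂ} (hG : Continuous G) {M : ℝ}
    (hM : ∀ x, ‖G x‖ ≤ M) :
    Integrable (fun ξ : ℝ => ((LVG_k ξ : ℝ) : ℂ) * Complex.exp (-(ξ * w * Complex.I)) *
      G (τ - ξ)) := by
  refine Integrable.mono' (g := fun ξ => LVG_k ξ * M) (LVG_k_int.mul_const _) ?_ ?_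
  · have h1 : Continuous (fun ξ : ℝ => G (τ - ξ)) := hG.comp (continuous_const.sub continuous_id)
    have h2 : Continuous LVG_k := by
      unfold LVG_k
      fun_prop
    have h3 : Continuous (fun ξ : ℝ => ((LVG_k ξ : ℝ) : ℂ) * Complex.exp (-(ξ * w * Complex.I)) *
        G (τ - ξ)) := by fun_prop
    exact h3.aestronglyMeasurable
  · refine Filter.Eventually.of_forall fun ξ => ?_
    rw [norm_mul, norm_mul, Complex.norm_real,
      Real.norm_of_nonneg (show 0 ≤ LVG_k ξ from (Real.exp_pos _).le)]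
    have h1 : ‖Complex.exp (-(ξ * w * Complex.I))‖ = 1 := by
      rw [Complex.norm_exp]
      simp
    rw [h1, mul_one]
    exact mul_le_mul_of_nonneg_left (hM _) (Real.exp_pos _).le

private theorem LVG_identity (w τ : ℝ) :
    (Real.sqrt (3 * Real.pi / 2) : ℝ) * D1 w τ =
      ∫ ξ : ℝ, ((LVG_k ξ : ℝ) : ℂ) * Complex.exp (-(ξ * w * Complex.I)) * DP w (τ - ξ) := by
  obtain ⟨C, hC, hP⟩ := ASI.P_triv
  have h1 := LVG_intP w τ (ASI.P_cont w) (hP w)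
  have h2 := LVG_intP w τ (LVG_mainT_cont w) (LVG_mainT_norm w)
  have h3 : (fun ξ : ℝ => ((LVG_k ξ : ℝ) : ℂ) * Complex.exp (-(ξ * w * Complex.I)) *
      DP w (τ - ξ)) = fun ξ : ℝ => ((LVG_k ξ : ℝ) : ℂ) * Complex.exp (-(ξ * w * Complex.I)) *
      ASI.P w (τ - ξ) - ((LVG_k ξ : ℝ) : ℂ) * Complex.exp (-(ξ * w * Complex.I)) *
      ASI.mainT w (τ - ξ) := by
    funext ξ
    unfold DP
    ring
  rw [h3, integral_sub h1 h2, ← LVG_sumF, LVG_main_int]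
  unfold D1
  ring

theorem D1_formula (w τ : ℝ) :
    ‖D1 w τ‖ ≤ ∫ ξ : ℝ, Real.exp (-(2 / 3) * ξ ^ 2) * ‖DP w (τ - ξ)‖ := by
  have h1 := LVG_identity w τ
  have h2 := congrArg norm h1
  rw [norm_mul, Complex.norm_real, Real.norm_of_nonneg (Real.sqrt_nonneg _)] at h2
  have h3 : (1 : ℝ) ≤ Real.sqrt (3 * Real.pi / 2) := by
    rw [Real.one_le_sqrt]
    have := Real.pi_gt_three
    linarith
  have h4 : ‖D1 w τ‖ ≤ Real.sqrt (3 * Real.pi / 2) * ‖D1 w τ‖ := by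
    nlinarith [norm_nonneg (D1 w τ)]
  refine h4.trans ?_
  rw [h2]
  refine (norm_integral_le_integral_norm _).trans (le_of_eq ?_)
  congr 1
  funext ξ
  rw [norm_mul, norm_mul, Complex.norm_real,
    Real.norm_of_nonneg (show 0 ≤ LVG_k ξ from (Real.exp_pos _).le)]
  have h5 : ‖Complex.exp (-(ξ * w * Complex.I))‖ = 1 := by
    rw [Complex.norm_exp]
    simp
  rw [h5, mul_one]
  rfl

theorem D1_cont (w : ℝ) : Continuous (D1 w) := by
  unfold D1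
  refine (LVG_gs_cont w).sub ?_
  fun_prop

theorem D1_bd : ∃ C : ℝ, 1 ≤ C ∧ ∀ w τ : ℝ, ‖D1 w τ‖ ≤ C * (1 + |w|) ^ 6 := by
  obtain ⟨C, hC, h⟩ := LVG_sum
  refine ⟨C + 6, by linarith, fun w τ => ?_⟩
  have h1 : (1 : ℝ) ≤ (1 + |w|) ^ 6 := one_le_pow₀ (by linarith [abs_nonneg w])
  have h2 : ‖VKZ.gs (fun n => ArithmeticFunction.vonMangoldt n) w τ‖ ≤ C * (1 + |w|) ^ 6 := by
    obtain ⟨h3, h4⟩ := h w
    refine le_trans ?_ h4
    rw [LVG_gs]
    exact tsum_of_norm_bounded h3.hasSum fun n => LVG_g_le w n τ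
  calc ‖D1 w τ‖ ≤ _ := norm_sub_le _ _
    _ ≤ C * (1 + |w|) ^ 6 + 6 * (1 + |w|) ^ 6 := by
        refine add_le_add h2 ((LVG_main2_norm w τ).trans ?_)
        nlinarith
    _ = (C + 6) * (1 + |w|) ^ 6 := by ring

private theorem LVG_tail (T : ℝ) (hT : 0 ≤ T) :
    ∫ ξ in {ξ : ℝ | T < |ξ|}, LVG_k ξ ≤ Real.exp (-(1 / 3) * T ^ 2) * 4 := by
  have hm : MeasurableSet {ξ : ℝ | T < |ξ|} := measurableSet_lt measurable_const
    continuous_abs.measurable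
  have hi : Integrable (fun ξ : ℝ => Real.exp (-(1 / 3) * T ^ 2) * Real.exp (-(1 / 3) * ξ ^ 2)) :=
    (integrable_exp_neg_mul_sq (by norm_num)).const_mul _
  have h1 : ∫ ξ in {ξ : ℝ | T < |ξ|}, LVG_k ξ ≤
      ∫ ξ in {ξ : ℝ | T < |ξ|}, Real.exp (-(1 / 3) * T ^ 2) * Real.exp (-(1 / 3) * ξ ^ 2) := by
    refine setIntegral_mono_on LVG_k_int.integrableOn hi.integrableOn hm ?_
    intro ξ hξ
    unfold LVG_k
    rw [← Real.exp_add]
    apply Real.exp_le_exp.2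
    have h2 : T ^ 2 ≤ ξ ^ 2 := by
      rw [← sq_abs ξ]
      exact pow_le_pow_left₀ hT (le_of_lt hξ) 2
    linarith
  refine h1.trans ?_
  have h2 : ∫ ξ in {ξ : ℝ | T < |ξ|}, Real.exp (-(1 / 3) * T ^ 2) * Real.exp (-(1 / 3) * ξ ^ 2) ≤
      ∫ ξ : ℝ, Real.exp (-(1 / 3) * T ^ 2) * Real.exp (-(1 / 3) * ξ ^ 2) :=
    setIntegral_le_integral hi (Filter.Eventually.of_forall fun ξ => by positivity)
  refine h2.trans ?_
  rw [integral_const_mul, integral_gaussian]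
  refine mul_le_mul_of_nonneg_left ?_ (Real.exp_pos _).le
  rw [show (4 : ℝ) = Real.sqrt (4 ^ 2) by rw [Real.sqrt_sq (by norm_num)]]
  apply Real.sqrt_le_sqrt
  have := Real.pi_lt_four
  rw [div_le_iff₀ (by norm_num)]
  linarith

private theorem LVG_large (C δ1 : ℝ) (hδ : 0 < δ1) : ∃ w0 : ℝ, 1 ≤ w0 ∧ ∀ w : ℝ, w0 ≤ w →
    4 * (3 * Real.exp (-δ1 * w) + 0 + C * (1 + |w|) ^ 6 *
      (Real.exp (-(1 / 3) * Real.exp (3 / 2 * w) ^ 2) * 4)) ≤ Real.exp (-(δ1 / 2) * w) := by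
  have t1 : Filter.Tendsto (fun w : ℝ => 12 * Real.exp (-(δ1 / 2) * w)) Filter.atTop
      (nhds (12 * 0)) := by
    refine Filter.Tendsto.const_mul _ (Real.tendsto_exp_atBot.comp ?_)
    exact Filter.Tendsto.const_mul_atTop_of_neg (by linarith) Filter.tendsto_id
  have t2 : Filter.Tendsto (fun w : ℝ => 16 * |C| * 64 * (w ^ (6 : ℝ) * Real.exp (-(1 / 2) * w)))
      Filter.atTop (nhds (16 * |C| * 64 * 0)) :=
    (tendsto_rpow_mul_exp_neg_mul_atTop_nhds_zero 6 (1 / 2) (by norm_num)).const_mul _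
  have e1 : ∀ᶠ w : ℝ in Filter.atTop, 12 * Real.exp (-(δ1 / 2) * w) < 1 / 2 :=
    t1.eventually (gt_mem_nhds (by norm_num))
  have e2 : ∀ᶠ w : ℝ in Filter.atTop,
      16 * |C| * 64 * (w ^ (6 : ℝ) * Real.exp (-(1 / 2) * w)) < 1 / 2 :=
    t2.eventually (gt_mem_nhds (by norm_num))
  have e3 : ∀ᶠ w : ℝ in Filter.atTop, δ1 / 2 ≤ w := Filter.eventually_ge_atTop _
  have e4 : ∀ᶠ w : ℝ in Filter.atTop, (1 : ℝ) ≤ w := Filter.eventually_ge_atTop _
  obtain ⟨w0, hw0⟩ := Filter.eventually_atTop.1 (e1.and (e2.and (e3.and e4)))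
  refine ⟨max w0 1, le_max_right _ _, fun w hw => ?_⟩
  obtain ⟨a1, a2, a3, a4⟩ := hw0 w ((le_max_left _ _).trans hw)
  have hw' : 0 ≤ w := by linarith
  have b1 : Real.exp (-δ1 * w) = Real.exp (-(δ1 / 2) * w) * Real.exp (-(δ1 / 2) * w) := by
    rw [← Real.exp_add]
    congr 1
    ring
  have b2 : Real.exp (-(1 / 3) * Real.exp (3 / 2 * w) ^ 2) ≤
      Real.exp (-(δ1 / 2) * w) * Real.exp (-(1 / 2) * w) := by
    rw [← Real.exp_add]
    apply Real.exp_le_exp.2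
    have c1 : Real.exp (3 / 2 * w) ^ 2 = Real.exp (3 * w) := by
      rw [← Real.exp_nat_mul]
      congr 1
      push_cast
      ring
    rw [c1]
    have c2 : (3 * w) ^ 2 / 2 ≤ Real.exp (3 * w) := by
      have := Real.quadratic_le_exp_of_nonneg (show 0 ≤ 3 * w by linarith)
      nlinarith
    nlinarith [mul_le_mul_of_nonneg_right a3 hw', mul_le_mul_of_nonneg_right a4 hw']
  have b3 : C * (1 + |w|) ^ 6 ≤ |C| * 64 * w ^ (6 : ℝ) := by
    rw [abs_of_nonneg hw']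
    have c1 : (1 + w) ^ 6 ≤ 64 * w ^ (6 : ℝ) := by
      rw [show w ^ (6 : ℝ) = w ^ (6 : ℕ) from by
        rw [← Real.rpow_natCast]
        norm_num]
      calc (1 + w) ^ 6 ≤ (2 * w) ^ 6 := pow_le_pow_left₀ (by linarith) (by linarith) 6
        _ = 64 * w ^ 6 := by ring
    calc C * (1 + w) ^ 6 ≤ |C| * (1 + w) ^ 6 :=
          mul_le_mul_of_nonneg_right (le_abs_self C) (by positivity)
      _ ≤ |C| * (64 * w ^ (6 : ℝ)) := mul_le_mul_of_nonneg_left c1 (abs_nonneg C)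
      _ = |C| * 64 * w ^ (6 : ℝ) := by ring
  have p : 0 < Real.exp (-(δ1 / 2) * w) := Real.exp_pos _
  have b4 : C * (1 + |w|) ^ 6 * (Real.exp (-(1 / 3) * Real.exp (3 / 2 * w) ^ 2) * 4) ≤
      |C| * 64 * w ^ (6 : ℝ) * (Real.exp (-(δ1 / 2) * w) * Real.exp (-(1 / 2) * w) * 4) :=
    mul_le_mul b3 (mul_le_mul_of_nonneg_right b2 (by norm_num)) (by positivity) (by positivity)
  calc 4 * (3 * Real.exp (-δ1 * w) + 0 + C * (1 + |w|) ^ 6 *
      (Real.exp (-(1 / 3) * Real.exp (3 / 2 * w) ^ 2) * 4))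
      ≤ 4 * (3 * (Real.exp (-(δ1 / 2) * w) * Real.exp (-(δ1 / 2) * w)) + 0 +
        |C| * 64 * w ^ (6 : ℝ) * (Real.exp (-(δ1 / 2) * w) * Real.exp (-(1 / 2) * w) * 4)) := by
        rw [b1]
        linarith
    _ = Real.exp (-(δ1 / 2) * w) * (12 * Real.exp (-(δ1 / 2) * w) +
        16 * |C| * 64 * (w ^ (6 : ℝ) * Real.exp (-(1 / 2) * w))) := by ring
    _ ≤ Real.exp (-(δ1 / 2) * w) * 1 := by
        refine mul_le_mul_of_nonneg_left ?_ p.le
        linarith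
    _ = Real.exp (-(δ1 / 2) * w) := mul_one _

theorem gs_lv : ∃ δ : ℝ, 0 < δ ∧ δ ≤ 1 / 10 ∧ ∀ A : ℝ, ∃ w0 : ℝ, 1 ≤ w0 ∧ ∀ w : ℝ, w0 ≤ w →
    ∫ τ in {τ : ℝ | |τ| ≤ Real.exp (3 / 2 * w) ∧ Real.exp (-δ * w) < ‖D1 w τ‖}, ‖D1 w τ‖ ^ 2 ≤ w ^ (-A) := by
  obtain ⟨δ1, hδ1, hδ1', hP⟩ := P_lv
  obtain ⟨C, hC, hD⟩ := LVG_DP_bd
  refine ⟨δ1 / 2, by linarith, by linarith, fun A => ?_⟩
  obtain ⟨L0, hL0, hL⟩ := hP (A + 1)
  obtain ⟨w1, hw1, hw⟩ := LVG_large C δ1 hδ1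
  refine ⟨max (max L0 w1) 36, (by norm_num : (1 : ℝ) ≤ 36).trans (le_max_right _ _), ?_⟩
  intro w hww
  have a1 : L0 ≤ w := (le_max_left _ _).trans ((le_max_left _ _).trans hww)
  have a2 : w1 ≤ w := (le_max_right _ _).trans ((le_max_left _ _).trans hww)
  have a3 : 36 ≤ w := (le_max_right _ _).trans hww
  have hk3 : ∫ ξ : ℝ, LVG_k ξ ≤ 3 := by
    rw [LVG_k_eq, show (3 : ℝ) = Real.sqrt (3 ^ 2) by rw [Real.sqrt_sq (by norm_num)]]
    apply Real.sqrt_le_sqrt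
    have := Real.pi_lt_four
    linarith
  have hcond : 4 * (3 * Real.exp (-δ1 * w) + 0 + C * (1 + |w|) ^ 6 *
      ∫ ξ in {ξ : ℝ | Real.exp (3 / 2 * w) < |ξ|}, LVG_k ξ) ≤ Real.exp (-(δ1 / 2) * w) := by
    refine le_trans ?_ (hw w a2)
    have h1 := LVG_tail (Real.exp (3 / 2 * w)) (Real.exp_pos _).le
    have h2 : C * (1 + |w|) ^ 6 * ∫ ξ in {ξ : ℝ | Real.exp (3 / 2 * w) < |ξ|}, LVG_k ξ ≤
        C * (1 + |w|) ^ 6 * (Real.exp (-(1 / 3) * Real.exp (3 / 2 * w) ^ 2) * 4) :=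
      mul_le_mul_of_nonneg_left h1 (by positivity)
    linarith
  have hkc : Continuous LVG_k := by
    unfold LVG_k
    fun_prop
  have ht := transfer (D := fun τ => ‖DP w τ‖) (F := fun τ => ‖D1 w τ‖) (k := LVG_k)
    (M := C * (1 + |w|) ^ 6) (K := 3) (T := Real.exp (3 / 2 * w)) (lam := Real.exp (-δ1 * w))
    (lam' := Real.exp (-(δ1 / 2) * w)) (ε0 := 0)
    (LVG_DP_cont w).norm.measurable (D1_cont w).norm.measurable hkc.measurable
    (fun x => norm_nonneg _) (fun x => hD w x) (fun x => (Real.exp_pos _).le) LVG_k_int hk3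
    (fun x => norm_nonneg _) (Real.exp_pos _).le (Real.exp_pos _).le le_rfl
    (fun τ _ => by
      rw [add_zero]
      exact D1_formula w τ) hcond
  refine ht.trans ?_
  have hsub : {τ : ℝ | |τ| ≤ 2 * Real.exp (3 / 2 * w) ∧ Real.exp (-δ1 * w) < ‖DP w τ‖} ⊆
      {τ : ℝ | |τ| ≤ Real.exp (2 * w) ∧ Real.exp (-δ1 * w) < ‖DP w τ‖} := by
    intro τ hτ
    refine ⟨hτ.1.trans ?_, hτ.2⟩
    have h1 : Real.exp (2 * w) = Real.exp (1 / 2 * w) * Real.exp (3 / 2 * w) := by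
      rw [← Real.exp_add]
      congr 1
      ring
    rw [h1]
    refine mul_le_mul_of_nonneg_right ?_ (Real.exp_pos _).le
    have := Real.add_one_le_exp (1 / 2 * w)
    linarith
  have hbd : {τ : ℝ | |τ| ≤ Real.exp (2 * w) ∧ Real.exp (-δ1 * w) < ‖DP w τ‖} ⊆
      Set.Icc (-Real.exp (2 * w)) (Real.exp (2 * w)) := fun τ hτ => abs_le.1 hτ.1
  have hint : IntegrableOn (fun τ => ‖DP w τ‖ ^ 2)
      {τ : ℝ | |τ| ≤ Real.exp (2 * w) ∧ Real.exp (-δ1 * w) < ‖DP w τ‖} := by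
    refine IntegrableOn.mono_set ?_ hbd
    exact ((LVG_DP_cont w).norm.pow 2).continuousOn.integrableOn_Icc
  have hmono : ∫ τ in {τ : ℝ | |τ| ≤ 2 * Real.exp (3 / 2 * w) ∧
      Real.exp (-δ1 * w) < ‖DP w τ‖}, ‖DP w τ‖ ^ 2 ≤
      ∫ τ in {τ : ℝ | |τ| ≤ Real.exp (2 * w) ∧ Real.exp (-δ1 * w) < ‖DP w τ‖}, ‖DP w τ‖ ^ 2 :=
    setIntegral_mono_set hint (Filter.Eventually.of_forall fun τ => by positivity)
      (Filter.Eventually.of_forall hsub)
  have h5 := hL w a1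
  have h6 : w ^ (-(A + 1)) = w ^ (-A) * w⁻¹ := by
    rw [neg_add, Real.rpow_add (by linarith), Real.rpow_neg_one]
  have h7 : 0 < w ^ (-A) := Real.rpow_pos_of_pos (by linarith) _
  have h8 : 36 * w⁻¹ ≤ 1 := by
    rw [← div_eq_mul_inv, div_le_one (by linarith)]
    exact a3
  calc 4 * (3 : ℝ) ^ 2 * ∫ τ in {τ : ℝ | |τ| ≤ 2 * Real.exp (3 / 2 * w) ∧
      Real.exp (-δ1 * w) < ‖DP w τ‖}, ‖DP w τ‖ ^ 2
      ≤ 36 * w ^ (-(A + 1)) := by
        have := hmono.trans h5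
        linarith
    _ = w ^ (-A) * (36 * w⁻¹) := by
        rw [h6]
        ring
    _ ≤ w ^ (-A) * 1 := mul_le_mul_of_nonneg_left h8 h7.le
    _ = w ^ (-A) := mul_one _

end RLC
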