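import Pool.Agent.RLC.LVG
import Pool.Agent.RLC.Hhat2

/-!
# RLC.LVH: the large values of the Fourier transform of `h`

PROOF. Let `δ1` be from `gs_lv`, `δ = δ1/4`. Given `A` take `B = |A| + 4`, `T = exp(w) w^B`, `2T ≤ exp(3w/2)` for large `w`. The part
`|τ| ≥ T` of the integral is at most `C_Γ w² (exp(w)/T + 1/T) ≤ w^(-A)/2` (`AMC.hh_tail_exp`). For `|τ| ≤ T` use `transfer` with
`D = ‖D1 w ·‖`, `F = ‖AMC.hh β w ·‖`, `k(ξ) = w^(2|B|+2) (1/(2π)) Wk(ξ/(2π))` (substitution in `hh_le`), `K = w^(2|B|+2) ∫ Wk`,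
`ε0 = exp(-w)`, `M = C (1+w)^6` (`D1_bd`), `lam = exp(-δ1 w)`, `lam' = exp(-δ w)`: the tail `∫_{|ξ|>T} k` is at most
`w^(2|B|+2) C T^(-1/4)` (`Wk ξ ≤ |2πξ|^(-1/4) (1+(2πξ)²)^(-5/8)`), so `4 (K lam + ε0 + M ∫_{|ξ|>T} k) ≤ exp(-δw)` for large `w`. The result is
`≤ 4K² w^(-A')` with `A'` as large as we please (`gs_lv A'`).
(`hh β w` is continuous as the Fourier transform of an integrable function, `AMC.h_int`; `hh_tail_exp` also gives the
integrability of `‖hh‖²`.)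
-/

namespace RLC

open MeasureTheory

private theorem LVH_cont (β w : ℝ) (hw : 1 ≤ w) : Continuous (AMC.hh β w) := by
  obtain ⟨k1, -⟩ := AMC.h_int β w hw
  unfold AMC.hh
  refine continuous_of_dominated (bound := fun s => |AMC.h β w s|) ?_ ?_ k1.abs ?_
  · intro τ
    refine AEStronglyMeasurable.mul k1.ofReal.aestronglyMeasurable ?_
    exact (by fun_prop : Continuous fun s : ℝ => Complex.exp (-(τ * s * Complex.I))).aestronglyMeasurable
  · intro τ
    refine Filter.Eventually.of_forall fun s => ?_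
    rw [norm_mul, Complex.norm_real, Real.norm_eq_abs]
    have : ‖Complex.exp (-(τ * s * Complex.I))‖ = 1 := by
      rw [Complex.norm_exp]; simp
    rw [this, mul_one]
  · refine Filter.Eventually.of_forall fun s => ?_
    fun_prop

private theorem LVH_Wk_nonneg (ξ : ℝ) : 0 ≤ Wk ξ := by
  unfold Wk
  positivity

private theorem LVH_Wk_cont : Continuous Wk := by
  unfold Wk
  refine Continuous.rpow_const (by fun_prop) fun x => Or.inl ?_
  positivity

/-- The rescaled kernel. -/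
private noncomputable def LVH_k (ξ : ℝ) : ℝ := (2 * Real.pi)⁻¹ * Wk (ξ / (2 * Real.pi))

private theorem LVH_k_eq (ξ : ℝ) : LVH_k ξ = (2 * Real.pi)⁻¹ * (1 + ξ ^ 2) ^ (-(3 / 4) : ℝ) := by
  have hpi := Real.pi_pos
  unfold LVH_k Wk
  have : 2 * Real.pi * (ξ / (2 * Real.pi)) = ξ := by field_simp
  rw [this]

private theorem LVH_k_nonneg (ξ : ℝ) : 0 ≤ LVH_k ξ :=
  mul_nonneg (inv_nonneg.2 (by positivity)) (LVH_Wk_nonneg _)

private theorem LVH_k_cont : Continuous LVH_k := by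
  unfold LVH_k
  exact continuous_const.mul (LVH_Wk_cont.comp (by fun_prop))

private theorem LVH_k_int : Integrable LVH_k := by
  have hpi := Real.pi_pos
  unfold LVH_k
  exact ((integrable_comp_div_iff Wk (by positivity)).2 Wk_int).const_mul _

private theorem LVH_subst (g : ℝ → ℝ) (τ : ℝ) :
    ∫ ξ : ℝ, LVH_k ξ * g (τ - ξ) = ∫ ξ : ℝ, Wk ξ * g (τ - 2 * Real.pi * ξ) := by
  have hpi := Real.pi_pos
  have h := Measure.integral_comp_div (fun ξ : ℝ => Wk ξ * g (τ - 2 * Real.pi * ξ)) (2 * Real.pi)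
  rw [smul_eq_mul, abs_of_pos (by positivity)] at h
  have h2 : ∫ ξ : ℝ, LVH_k ξ * g (τ - ξ) =
      (2 * Real.pi)⁻¹ * ∫ ξ : ℝ, Wk (ξ / (2 * Real.pi)) * g (τ - 2 * Real.pi * (ξ / (2 * Real.pi))) := by
    rw [← integral_const_mul]
    refine integral_congr_ae (Filter.Eventually.of_forall fun ξ => ?_)
    have : 2 * Real.pi * (ξ / (2 * Real.pi)) = ξ := by field_simp
    simp only [this, LVH_k]
    ring
  rw [h2, h, ← mul_assoc, inv_mul_cancel₀ (by positivity), one_mul]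

private theorem LVH_k_total : ∫ ξ : ℝ, LVH_k ξ = ∫ ξ : ℝ, Wk ξ := by
  have h := LVH_subst (fun _ => 1) 0
  simpa using h

private theorem LVH_J_int : Integrable (fun ξ : ℝ => (1 + ξ ^ 2) ^ (-(5 / 8) : ℝ)) := by
  have h1 : Integrable (fun x : ℝ => ((1 : ℝ) + ‖x‖ ^ 2) ^ (-(5 / 4) / 2 : ℝ)) := by
    refine integrable_rpow_neg_one_add_norm_sq (r := 5 / 4) ?_
    rw [Module.finrank_self]
    norm_num
  refine h1.congr (Filter.Eventually.of_forall fun x => ?_)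
  simp only
  rw [Real.norm_eq_abs, sq_abs]
  norm_num

private theorem LVH_tail {T w : ℝ} (hT : Real.exp w ≤ T) :
    ∫ ξ in {ξ : ℝ | T < |ξ|}, LVH_k ξ ≤ Real.exp (-(1 / 4) * w) * ∫ ξ : ℝ, (1 + ξ ^ 2) ^ (-(5 / 8) : ℝ) := by
  have hpi := Real.pi_pos
  have hT0 : 0 < T := lt_of_lt_of_le (Real.exp_pos _) hT
  have hms : MeasurableSet {ξ : ℝ | T < |ξ|} := measurableSet_lt measurable_const measurable_id.abs
  calc ∫ ξ in {ξ : ℝ | T < |ξ|}, LVH_k ξ
      ≤ ∫ ξ in {ξ : ℝ | T < |ξ|}, Real.exp (-(1 / 4) * w) * (1 + ξ ^ 2) ^ (-(5 / 8) : ℝ) := by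
        refine setIntegral_mono_on LVH_k_int.integrableOn (LVH_J_int.const_mul _).integrableOn hms ?_
        intro ξ hξ
        rw [LVH_k_eq]
        have h1 : (0 : ℝ) < 1 + ξ ^ 2 := by positivity
        have h2 : (1 + ξ ^ 2) ^ (-(3 / 4) : ℝ) = (1 + ξ ^ 2) ^ (-(1 / 8) : ℝ) * (1 + ξ ^ 2) ^ (-(5 / 8) : ℝ) := by
          rw [← Real.rpow_add h1]
          norm_num
        have h3 : (1 + ξ ^ 2) ^ (-(1 / 8) : ℝ) ≤ Real.exp (-(1 / 4) * w) := by
          have h4 : Real.exp w ^ 2 ≤ 1 + ξ ^ 2 := by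
            have h5 : Real.exp w ≤ |ξ| := hT.trans (le_of_lt hξ)
            have h6 : Real.exp w ^ 2 ≤ |ξ| ^ 2 := pow_le_pow_left₀ (Real.exp_pos _).le h5 2
            rw [sq_abs] at h6
            linarith
          calc (1 + ξ ^ 2) ^ (-(1 / 8) : ℝ) ≤ (Real.exp w ^ 2) ^ (-(1 / 8) : ℝ) :=
                Real.rpow_le_rpow_of_nonpos (by positivity) h4 (by norm_num)
            _ = Real.exp (-(1 / 4) * w) := by
                rw [← Real.exp_nat_mul, ← Real.exp_mul]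
                congr 1
                push_cast
                ring
        have h7 : (2 * Real.pi)⁻¹ ≤ 1 := by
          rw [inv_le_one₀ (by positivity)]
          linarith [Real.pi_gt_three]
        have h8 : 0 ≤ (1 + ξ ^ 2) ^ (-(5 / 8) : ℝ) := by positivity
        have h9 : 0 ≤ (1 + ξ ^ 2) ^ (-(3 / 4) : ℝ) := by positivity
        calc (2 * Real.pi)⁻¹ * (1 + ξ ^ 2) ^ (-(3 / 4) : ℝ) ≤ 1 * (1 + ξ ^ 2) ^ (-(3 / 4) : ℝ) :=
              mul_le_mul_of_nonneg_right h7 h9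
          _ = (1 + ξ ^ 2) ^ (-(1 / 8) : ℝ) * (1 + ξ ^ 2) ^ (-(5 / 8) : ℝ) := by rw [one_mul, h2]
          _ ≤ _ := mul_le_mul_of_nonneg_right h3 h8
    _ ≤ ∫ ξ : ℝ, Real.exp (-(1 / 4) * w) * (1 + ξ ^ 2) ^ (-(5 / 8) : ℝ) :=
        setIntegral_le_integral (LVH_J_int.const_mul _) (Filter.Eventually.of_forall fun ξ => by positivity)
    _ = _ := integral_const_mul _ _

/-- `C w^s ≤ exp(c w)` for large `w`. -/
private theorem LVH_large (C s : ℝ) {c : ℝ} (hc : 0 < c) :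
    ∃ w0 : ℝ, 1 ≤ w0 ∧ ∀ w : ℝ, w0 ≤ w → C * w ^ s ≤ Real.exp (c * w) := by
  have h := (tendsto_rpow_mul_exp_neg_mul_atTop_nhds_zero s c hc).const_mul C
  rw [mul_zero] at h
  obtain ⟨w1, hw1⟩ := Filter.eventually_atTop.1 (h.eventually (gt_mem_nhds (zero_lt_one)))
  refine ⟨max 1 w1, le_max_left _ _, fun w hw => ?_⟩
  have h2 := hw1 w ((le_max_right _ _).trans hw)
  have h3 : Real.exp (-c * w) * Real.exp (c * w) = 1 := by
    rw [← Real.exp_add]; simp
  have h4 : 0 < Real.exp (c * w) := Real.exp_pos _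
  calc C * w ^ s = C * (w ^ s * Real.exp (-c * w)) * Real.exp (c * w) := by
        rw [mul_assoc, mul_assoc, h3, mul_one]
    _ ≤ 1 * Real.exp (c * w) := mul_le_mul_of_nonneg_right h2.le h4.le
    _ = _ := one_mul _

theorem hh_lv (Γ : ℝ) : ∃ δ : ℝ, 0 < δ ∧ δ ≤ 1 / 10 ∧ ∀ A : ℝ, ∃ w0 : ℝ, 1 ≤ w0 ∧ ∀ w β : ℝ, w0 ≤ w →
    |β| ≤ Γ →
    ∫ τ in {τ : ℝ | Real.exp (-δ * w) < ‖AMC.hh β w τ‖}, ‖AMC.hh β w τ‖ ^ 2 ≤ w ^ (-A) := by
  obtain ⟨δ1, hδ1, hδ1', hgs⟩ := gs_lv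
  obtain ⟨C, hC1, hC⟩ := D1_bd
  have hpi := Real.pi_pos
  refine ⟨δ1 / 4, by positivity, by linarith, fun A => ?_⟩
  set B : ℝ := |A| + 4 with hB
  have hB0 : 0 < B := by positivity
  set E : ℝ := 2 * |B| + 2 with hE
  have hE0 : 0 < E := by positivity
  set IW : ℝ := ∫ ξ : ℝ, Wk ξ with hIW
  have hIW0 : 0 ≤ IW := integral_nonneg LVH_Wk_nonneg
  set J : ℝ := ∫ ξ : ℝ, (1 + ξ ^ 2) ^ (-(5 / 8) : ℝ) with hJ
  have hJ0 : 0 ≤ J := integral_nonneg fun ξ => by positivity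
  set CG : ℝ := 1 + 4 * Real.pi * (4 + 2 * |Γ|) ^ 2 * (4000 + 128 * |Γ|) with hCG
  have hCG1 : 1 ≤ CG := by
    rw [hCG]
    have : 0 ≤ 4 * Real.pi * (4 + 2 * |Γ|) ^ 2 * (4000 + 128 * |Γ|) := by positivity
    linarith
  obtain ⟨w1, hw1, hle⟩ := hh_le B Γ
  obtain ⟨w2, hw2, hg⟩ := hgs (A + 2 * E + 1)
  obtain ⟨w3, hw3, h3⟩ := LVH_large 2 B (c := 1 / 2) (by norm_num)
  obtain ⟨w4, hw4, h4⟩ := LVH_large (12 * IW) E (c := 3 * δ1 / 4) (by positivity)
  obtain ⟨w5, hw5, h5⟩ := LVH_large 12 0 (c := 1 / 2) (by norm_num)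
  obtain ⟨w6, hw6, h6⟩ := LVH_large (12 * (C * 64 * J)) (6 + E) (c := 1 / 5) (by norm_num)
  refine ⟨max w1 (max w2 (max w3 (max w4 (max w5 (max w6 (max (4 * CG) (8 * IW ^ 2))))))),
    le_max_of_le_left hw1, ?_⟩
  intro w β hw hβ
  simp only [max_le_iff] at hw
  obtain ⟨hw1', hw2', hw3', hw4', hw5', hw6', hw7', hw8'⟩ := hw
  have hw1le : 1 ≤ w := hw1.trans hw1'
  have hw0 : 0 < w := by linarith
  have hΓβ : |β| ≤ |Γ| := hβ.trans (le_abs_self Γ)
  have hAB : |B| = B := abs_of_pos hB0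
  -- `T`
  set T : ℝ := Real.exp w * w ^ B with hT
  have hwB1 : 1 ≤ w ^ B := Real.one_le_rpow hw1le hB0.le
  have hTe : Real.exp w ≤ T := by
    rw [hT]
    exact le_mul_of_one_le_right (Real.exp_pos _).le hwB1
  have hT2 : 2 ≤ T := by
    have : w + 1 ≤ Real.exp w := Real.add_one_le_exp w
    linarith
  have hT0 : 0 < T := by linarith
  have h2T : 2 * T ≤ Real.exp (3 / 2 * w) := by
    have h := h3 w hw3'
    calc 2 * T = Real.exp w * (2 * w ^ B) := by rw [hT]; ring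
      _ ≤ Real.exp w * Real.exp (1 / 2 * w) := mul_le_mul_of_nonneg_left h (Real.exp_pos _).le
      _ = Real.exp (3 / 2 * w) := by
          rw [← Real.exp_add]; congr 1; ring
  -- continuity and integrability
  have hFc : Continuous fun τ => ‖AMC.hh β w τ‖ := (LVH_cont β w hw1le).norm
  have hDc : Continuous fun τ => ‖D1 w τ‖ := (D1_cont w).norm
  obtain ⟨hFi, htail⟩ := AMC.hh_tail_exp β w T hw1le hT2
  have hwA : 0 < w ^ (-A) := Real.rpow_pos_of_pos hw0 _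
  -- the tail
  have hpart1 : ∫ τ in {τ : ℝ | T ≤ |τ|}, ‖AMC.hh β w τ‖ ^ 2 ≤ w ^ (-A) / 2 := by
    refine htail.trans ?_
    have e1 : Real.exp w / T = w ^ (-B) := by
      rw [hT, Real.rpow_neg hw0.le]
      have : Real.exp w ≠ 0 := (Real.exp_pos w).ne'
      field_simp
    have e2 : 1 / T ≤ w ^ (-B) := by
      rw [← e1]
      have : (1 : ℝ) ≤ Real.exp w := by
        have := Real.add_one_le_exp w
        linarith
      gcongr
    have e3 : 1 + 4 * Real.pi * (4 + 2 * |β|) ^ 2 * (4000 + 128 * |β|) ≤ CG := by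
      rw [hCG]
      have := abs_nonneg β
      gcongr
    have e4 : 0 ≤ w ^ (-B) := (Real.rpow_pos_of_pos hw0 _).le
    have e5 : w ^ 2 * w ^ (-B) ≤ w ^ (-A) * w⁻¹ := by
      have h1 : w ^ 2 * w ^ (-B) = w ^ (-|A| - 2) := by
        have : w ^ 2 = w ^ (2 : ℝ) := by norm_num
        rw [this, ← Real.rpow_add hw0, hB]
        congr 1
        ring
      have h2 : w ^ (-A) * w⁻¹ = w ^ (-A - 1) := by
        rw [← Real.rpow_neg_one, ← Real.rpow_add hw0]
        congr 1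
      rw [h1, h2]
      refine Real.rpow_le_rpow_of_exponent_le hw1le ?_
      have := le_abs_self A
      linarith
    calc (1 + 4 * Real.pi * (4 + 2 * |β|) ^ 2 * (4000 + 128 * |β|)) * w ^ 2 * (Real.exp w / T + 1 / T)
        ≤ CG * w ^ 2 * (w ^ (-B) + w ^ (-B)) := by
          rw [e1]
          gcongr
      _ = 2 * CG * (w ^ 2 * w ^ (-B)) := by ring
      _ ≤ 2 * CG * (w ^ (-A) * w⁻¹) := by gcongr
      _ = (4 * CG) * w⁻¹ * (w ^ (-A) / 2) := by ring
      _ ≤ w * w⁻¹ * (w ^ (-A) / 2) := by gcongr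
      _ = w ^ (-A) / 2 := by rw [mul_inv_cancel₀ hw0.ne', one_mul]
  -- the main part
  have hwE0 : 0 < w ^ E := Real.rpow_pos_of_pos hw0 _
  have hpart2 : ∫ τ in {τ : ℝ | |τ| ≤ T ∧ Real.exp (-(δ1 / 4) * w) < ‖AMC.hh β w τ‖}, ‖AMC.hh β w τ‖ ^ 2 ≤
      w ^ (-A) / 2 := by
    have htr := transfer (D := fun τ => ‖D1 w τ‖) (F := fun τ => ‖AMC.hh β w τ‖)
      (k := fun ξ => w ^ E * LVH_k ξ) (M := C * (1 + |w|) ^ 6) (K := w ^ E * IW) (T := T)
      (lam := Real.exp (-δ1 * w)) (lam' := Real.exp (-(δ1 / 4) * w)) (ε0 := Real.exp (-w))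
      hDc.measurable hFc.measurable (LVH_k_cont.measurable.const_mul _) (fun x => norm_nonneg _)
      (fun x => hC w x) (fun x => mul_nonneg hwE0.le (LVH_k_nonneg x)) (LVH_k_int.const_mul _)
      (by rw [integral_const_mul, LVH_k_total]) (fun x => norm_nonneg _) hT0.le (Real.exp_pos _).le
      (Real.exp_pos _).le
      (by
        intro τ hτ
        have h := hle w τ β hw1' hβ hτ
        have e : ∫ ξ : ℝ, w ^ E * LVH_k ξ * ‖D1 w (τ - ξ)‖ =
            w ^ E * ∫ ξ : ℝ, Wk ξ * ‖D1 w (τ - 2 * Real.pi * ξ)‖ := by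
          rw [← LVH_subst (fun x => ‖D1 w x‖) τ, ← integral_const_mul]
          refine integral_congr_ae (Filter.Eventually.of_forall fun ξ => ?_)
          simp only
          ring
        rw [e]
        exact h)
      (by
        have ht := LVH_tail (T := T) (w := w) hTe
        rw [← hJ] at ht
        rw [integral_const_mul]
        have hx1 : 12 * (w ^ E * IW * Real.exp (-δ1 * w)) ≤ Real.exp (-(δ1 / 4) * w) := by
          have h := h4 w hw4'
          calc 12 * (w ^ E * IW * Real.exp (-δ1 * w)) = (12 * IW * w ^ E) * Real.exp (-δ1 * w) := by ring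
            _ ≤ Real.exp (3 * δ1 / 4 * w) * Real.exp (-δ1 * w) :=
                mul_le_mul_of_nonneg_right h (Real.exp_pos _).le
            _ = Real.exp (-(δ1 / 4) * w) := by
                rw [← Real.exp_add]; congr 1; ring
        have hx2 : 12 * Real.exp (-w) ≤ Real.exp (-(δ1 / 4) * w) := by
          have h := h5 w hw5'
          rw [Real.rpow_zero, mul_one] at h
          calc 12 * Real.exp (-w) ≤ Real.exp (1 / 2 * w) * Real.exp (-w) :=
                mul_le_mul_of_nonneg_right h (Real.exp_pos _).le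
            _ = Real.exp (-(1 / 2) * w) := by
                rw [← Real.exp_add]; congr 1; ring
            _ ≤ Real.exp (-(δ1 / 4) * w) := by
                refine Real.exp_le_exp.2 ?_
                nlinarith
        have hx3 : 12 * (C * (1 + |w|) ^ 6 * (w ^ E * ∫ ξ in {ξ : ℝ | T < |ξ|}, LVH_k ξ)) ≤
            Real.exp (-(δ1 / 4) * w) := by
          have h := h6 w hw6'
          have hw6e : (1 + |w|) ^ 6 ≤ 64 * w ^ (6 : ℝ) := by
            rw [abs_of_pos hw0]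
            have : w ^ (6 : ℝ) = w ^ 6 := by norm_num
            rw [this]
            calc (1 + w) ^ 6 ≤ (2 * w) ^ 6 := pow_le_pow_left₀ (by linarith) (by linarith) 6
              _ = 64 * w ^ 6 := by ring
          have hC0 : 0 ≤ C := by linarith
          have hkI : 0 ≤ ∫ ξ in {ξ : ℝ | T < |ξ|}, LVH_k ξ := integral_nonneg LVH_k_nonneg
          calc 12 * (C * (1 + |w|) ^ 6 * (w ^ E * ∫ ξ in {ξ : ℝ | T < |ξ|}, LVH_k ξ))
              ≤ 12 * (C * (64 * w ^ (6 : ℝ)) * (w ^ E * (Real.exp (-(1 / 4) * w) * J))) := by gcongr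
            _ = (12 * (C * 64 * J) * w ^ (6 + E)) * Real.exp (-(1 / 4) * w) := by
                rw [Real.rpow_add hw0 6 E]; ring
            _ ≤ Real.exp (1 / 5 * w) * Real.exp (-(1 / 4) * w) :=
                mul_le_mul_of_nonneg_right h (Real.exp_pos _).le
            _ = Real.exp (-(1 / 20) * w) := by
                rw [← Real.exp_add]; congr 1; ring
            _ ≤ Real.exp (-(δ1 / 4) * w) := by
                refine Real.exp_le_exp.2 ?_
                nlinarith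
        linarith)
    refine htr.trans ?_
    have hmono : ∫ τ in {τ : ℝ | |τ| ≤ 2 * T ∧ Real.exp (-δ1 * w) < ‖D1 w τ‖}, ‖D1 w τ‖ ^ 2 ≤
        w ^ (-(A + 2 * E + 1)) := by
      refine le_trans ?_ (hg w hw2')
      have hsub : {τ : ℝ | |τ| ≤ Real.exp (3 / 2 * w) ∧ Real.exp (-δ1 * w) < ‖D1 w τ‖} ⊆
          Set.Icc (-Real.exp (3 / 2 * w)) (Real.exp (3 / 2 * w)) := fun τ hτ => abs_le.1 hτ.1
      refine setIntegral_mono_set ?_ (Filter.Eventually.of_forall fun τ => by positivity) ?_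
      · exact ((hDc.pow 2).integrableOn_Icc).mono_set hsub
      · refine Filter.Eventually.of_forall fun τ hτ => ?_
        exact ⟨hτ.1.trans h2T, hτ.2⟩
    have h9 : 4 * (w ^ E * IW) ^ 2 * w ^ (-(A + 2 * E + 1)) = (8 * IW ^ 2) * w⁻¹ * (w ^ (-A) / 2) := by
      have e1 : w ^ (-(A + 2 * E + 1)) = w ^ (-A) * w ^ (-E) * w ^ (-E) * w⁻¹ := by
        rw [← Real.rpow_neg_one, ← Real.rpow_add hw0, ← Real.rpow_add hw0, ← Real.rpow_add hw0]
        congr 1
        ring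
      have e2 : w ^ E * w ^ (-E) = 1 := by
        rw [← Real.rpow_add hw0]; simp
      rw [e1]
      calc 4 * (w ^ E * IW) ^ 2 * (w ^ (-A) * w ^ (-E) * w ^ (-E) * w⁻¹)
          = 4 * IW ^ 2 * (w ^ E * w ^ (-E)) * (w ^ E * w ^ (-E)) * w ^ (-A) * w⁻¹ := by ring
        _ = _ := by rw [e2]; ring
    calc 4 * (w ^ E * IW) ^ 2 * ∫ τ in {τ : ℝ | |τ| ≤ 2 * T ∧ Real.exp (-δ1 * w) < ‖D1 w τ‖}, ‖D1 w τ‖ ^ 2
        ≤ 4 * (w ^ E * IW) ^ 2 * w ^ (-(A + 2 * E + 1)) := mul_le_mul_of_nonneg_left hmono (by positivity)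
      _ = (8 * IW ^ 2) * w⁻¹ * (w ^ (-A) / 2) := h9
      _ ≤ w * w⁻¹ * (w ^ (-A) / 2) := by gcongr
      _ = w ^ (-A) / 2 := by rw [mul_inv_cancel₀ hw0.ne', one_mul]
  -- assembly
  have hm1 : MeasurableSet {τ : ℝ | T ≤ |τ|} := measurableSet_le measurable_const measurable_id.abs
  have hsub : {τ : ℝ | Real.exp (-(δ1 / 4) * w) < ‖AMC.hh β w τ‖} ⊆
      {τ : ℝ | |τ| ≤ T ∧ Real.exp (-(δ1 / 4) * w) < ‖AMC.hh β w τ‖} ∪ {τ : ℝ | T ≤ |τ|} := by
    intro τ hτ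
    rcases le_total |τ| T with h | h
    · exact Or.inl ⟨h, hτ⟩
    · exact Or.inr h
  calc ∫ τ in {τ : ℝ | Real.exp (-(δ1 / 4) * w) < ‖AMC.hh β w τ‖}, ‖AMC.hh β w τ‖ ^ 2
      ≤ ∫ τ in {τ : ℝ | |τ| ≤ T ∧ Real.exp (-(δ1 / 4) * w) < ‖AMC.hh β w τ‖} ∪ {τ : ℝ | T ≤ |τ|},
          ‖AMC.hh β w τ‖ ^ 2 :=
        setIntegral_mono_set hFi.integrableOn (Filter.Eventually.of_forall fun τ => by positivity)
          (Filter.Eventually.of_forall hsub)
    _ ≤ (∫ τ in {τ : ℝ | |τ| ≤ T ∧ Real.exp (-(δ1 / 4) * w) < ‖AMC.hh β w τ‖}, ‖AMC.hh β w τ‖ ^ 2) +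
          ∫ τ in {τ : ℝ | T ≤ |τ|}, ‖AMC.hh β w τ‖ ^ 2 := by
        have hle2 : volume.restrict ({τ : ℝ | |τ| ≤ T ∧ Real.exp (-(δ1 / 4) * w) < ‖AMC.hh β w τ‖} ∪
            {τ : ℝ | T ≤ |τ|}) ≤ volume.restrict {τ : ℝ | |τ| ≤ T ∧
              Real.exp (-(δ1 / 4) * w) < ‖AMC.hh β w τ‖} + volume.restrict {τ : ℝ | T ≤ |τ|} :=
          Measure.restrict_union_le _ _
        refine (integral_mono_measure hle2 (Filter.Eventually.of_forall fun τ => by positivity)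
          (Integrable.add_measure hFi.restrict hFi.restrict)).trans ?_
        rw [integral_add_measure hFi.restrict hFi.restrict]
    _ ≤ w ^ (-A) / 2 + w ^ (-A) / 2 := add_le_add hpart2 hpart1
    _ = w ^ (-A) := by ring

end RLC
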