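import Pool.Agent.RLC.Defs
import Pool.Agent.ASI.PMS

/-!
# RLC.PPt: the pointwise bound for a longer range

PROOF. `ASI.P_point` (`Pool/Agent/ASI/PMS.lean`, private `PMS_point_aux`) is the same statement for `|τ| ≤ exp L`, with
`VKZ.prime_gauss` used for `K = 2`. Copy it with `K = 4`: for `w ≥ L/2` we have `|τ| ≤ exp(2L) ≤ exp(4w)`.
`P L τ = √(2/(3π)) ∫ exp(-(w-L)²/6) gs Λ w τ dw`, and the average of the main terms is `mainT`.
-/

namespace RLC

open MeasureTheory

open ASI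

private theorem PPt_np_norm (n : ℕ) (τ : ℝ) : ‖np n τ‖ = 1 / n := by
  unfold np
  rcases Nat.eq_zero_or_pos n with h | h
  · subst h
    rw [Nat.cast_zero, Complex.zero_cpow]
    · simp
    · intro h0
      have := congrArg Complex.re h0
      simp at this
  · rw [Complex.norm_natCast_cpow_of_pos h]
    have : (-(1 + (τ : ℂ) * Complex.I)).re = -1 := by simp
    rw [this, Real.rpow_neg_one, one_div]

private noncomputable def PPt_a (n : ℕ) : ℝ :=
  (n.divisors.card : ℝ) ^ 2 * (1 + Real.log n) ^ 2 / n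

private theorem PPt_a_nonneg (n : ℕ) : 0 ≤ PPt_a n := by
  unfold PPt_a
  positivity

private theorem PPt_term (n : ℕ) (τ : ℝ) :
    ‖(ArithmeticFunction.vonMangoldt n : ℂ) * np n τ‖ ≤ PPt_a n := by
  rw [norm_mul, PPt_np_norm, Complex.norm_real, Real.norm_of_nonneg
    ArithmeticFunction.vonMangoldt_nonneg]
  unfold PPt_a
  rcases Nat.eq_zero_or_pos n with h | h
  · subst h
    simp
  · have h1 : (1 : ℝ) ≤ n := by exact_mod_cast h
    have h2 : 0 ≤ Real.log n := Real.log_nonneg h1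
    have h3 : ArithmeticFunction.vonMangoldt n ≤ Real.log n :=
      ArithmeticFunction.vonMangoldt_le_log
    have h4 : (1 : ℝ) ≤ n.divisors.card := by
      have : 0 < n.divisors.card := Finset.card_pos.mpr ⟨1, Nat.one_mem_divisors.mpr h.ne'⟩
      exact_mod_cast this
    have h5 : Real.log n ≤ (n.divisors.card : ℝ) ^ 2 * (1 + Real.log n) ^ 2 := by
      have h6 : (1 : ℝ) ≤ (n.divisors.card : ℝ) ^ 2 := one_le_pow₀ h4
      nlinarith [sq_nonneg (Real.log n)]
    rw [mul_one_div]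
    exact div_le_div_of_nonneg_right (h3.trans h5) (by positivity)

private theorem PPt_zero_cpow_ne (τ : ℝ) : -(1 + (τ : ℂ) * Complex.I) ≠ 0 := by
  intro h0
  have := congrArg Complex.re h0
  simp at this

private theorem PPt_np_cont (n : ℕ) : Continuous (fun τ : ℝ => np n τ) := by
  unfold np
  rw [continuous_iff_continuousAt]
  intro τ
  refine ContinuousAt.const_cpow ?_ (Or.inr (PPt_zero_cpow_ne τ))
  fun_prop

/-- the weighted majorant -/
private theorem PPt_sum : ∃ C : ℝ, 1 ≤ C ∧ ∀ y : ℝ,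
    Summable (fun n : ℕ => PPt_a n * Real.exp (-(Real.log n - y) ^ 2 / 16)) ∧
    ∑' n : ℕ, PPt_a n * Real.exp (-(Real.log n - y) ^ 2 / 16) ≤ C * (1 + |y|) ^ 6 := by
  obtain ⟨C, hC, h⟩ := div_gauss
  exact ⟨C, hC, fun y => ⟨(h y).1, (h y).2.1⟩⟩

private theorem PPt_exp_mono {x c c' : ℝ} (hc : 0 < c) (hcc : c ≤ c') :
    Real.exp (-x ^ 2 / c) ≤ Real.exp (-x ^ 2 / c') := by
  apply Real.exp_le_exp.mpr
  rw [neg_div, neg_div, neg_le_neg_iff]
  exact div_le_div_of_nonneg_left (sq_nonneg x) hc hcc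

private theorem PPt_summand (L : ℝ) (n : ℕ) (τ : ℝ) :
    ‖(ArithmeticFunction.vonMangoldt n : ℂ) * np n τ * (ps L (Real.log n) : ℝ)‖ ≤
      PPt_a n * Real.exp (-(Real.log n - L) ^ 2 / 16) := by
  rw [norm_mul, Complex.norm_real, Real.norm_of_nonneg
    (show 0 ≤ ps L (Real.log n) from (Real.exp_pos _).le)]
  exact mul_le_mul (PPt_term n τ) (PPt_exp_mono (by norm_num) (by norm_num))
    (Real.exp_pos _).le (PPt_a_nonneg n)

private theorem PPt_square (x w L : ℝ) :
    -(x - w) ^ 2 / 2 + -(w - L) ^ 2 / 6 =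
      -(x - L) ^ 2 / 8 + -(2 / 3) * (w - (3 * x + L) / 4) ^ 2 := by
  ring

private theorem PPt_prod (x w L : ℝ) :
    Real.exp (-(x - w) ^ 2 / 2) * Real.exp (-(w - L) ^ 2 / 6) =
      Real.exp (-(x - L) ^ 2 / 8) * Real.exp (-(2 / 3) * (w - (3 * x + L) / 4) ^ 2) := by
  rw [← Real.exp_add, ← Real.exp_add, PPt_square]

private theorem PPt_conv_int (x L : ℝ) :
    Integrable (fun w : ℝ => Real.exp (-(x - w) ^ 2 / 2) * Real.exp (-(w - L) ^ 2 / 6)) := by
  simp only [PPt_prod]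
  exact ((integrable_exp_neg_mul_sq (b := 2 / 3) (by norm_num)).comp_sub_right _).const_mul _

private theorem PPt_conv (x L : ℝ) :
    ∫ w : ℝ, Real.exp (-(x - w) ^ 2 / 2) * Real.exp (-(w - L) ^ 2 / 6) =
      Real.sqrt (3 * Real.pi / 2) * Real.exp (-(x - L) ^ 2 / 8) := by
  simp only [PPt_prod]
  rw [integral_const_mul]
  have h := integral_sub_right_eq_self (μ := (volume : Measure ℝ))
    (fun w : ℝ => Real.exp (-(2 / 3) * w ^ 2)) ((3 * x + L) / 4)
  rw [h, integral_gaussian]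
  have : Real.pi / (2 / 3) = 3 * Real.pi / 2 := by ring
  rw [this, mul_comm]

private noncomputable def PPt_F (L τ : ℝ) (n : ℕ) (w : ℝ) : ℂ :=
  (ArithmeticFunction.vonMangoldt n : ℂ) * np n τ *
    ((Real.exp (-(Real.log n - w) ^ 2 / 2) * Real.exp (-(w - L) ^ 2 / 6) : ℝ) : ℂ)

private theorem PPt_F_int (L τ : ℝ) (n : ℕ) : Integrable (PPt_F L τ n) := by
  unfold PPt_F
  exact ((PPt_conv_int _ _).ofReal).const_mul _

private theorem PPt_F_integral (L τ : ℝ) (n : ℕ) : ∫ w : ℝ, PPt_F L τ n w =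
    (Real.sqrt (3 * Real.pi / 2) : ℂ) *
      ((ArithmeticFunction.vonMangoldt n : ℂ) * np n τ * (ps L (Real.log n) : ℝ)) := by
  unfold PPt_F
  rw [integral_const_mul, integral_complex_ofReal, PPt_conv]
  unfold ps
  push_cast
  ring

private theorem PPt_F_norm (L τ : ℝ) (n : ℕ) : ∫ w : ℝ, ‖PPt_F L τ n w‖ =
    Real.sqrt (3 * Real.pi / 2) *
      ‖(ArithmeticFunction.vonMangoldt n : ℂ) * np n τ * (ps L (Real.log n) : ℝ)‖ := by
  have h1 : ∀ w, ‖PPt_F L τ n w‖ = ‖(ArithmeticFunction.vonMangoldt n : ℂ) * np n τ‖ *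
      (Real.exp (-(Real.log n - w) ^ 2 / 2) * Real.exp (-(w - L) ^ 2 / 6)) := fun w => by
    unfold PPt_F
    rw [norm_mul, Complex.norm_real, Real.norm_of_nonneg (by positivity)]
  simp only [h1]
  rw [integral_const_mul, PPt_conv, norm_mul (_ * _), Complex.norm_real,
    Real.norm_of_nonneg (show 0 ≤ ps L (Real.log n) from (Real.exp_pos _).le)]
  unfold ps
  ring

private theorem PPt_F_tsum (L τ w : ℝ) : ∑' n : ℕ, PPt_F L τ n w =
    VKZ.gs (fun n => ArithmeticFunction.vonMangoldt n) w τ *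
      (Real.exp (-(w - L) ^ 2 / 6) : ℝ) := by
  unfold VKZ.gs
  rw [← tsum_mul_right]
  refine tsum_congr fun n => ?_
  unfold PPt_F np
  push_cast
  ring

private theorem PPt_F_cont (L τ : ℝ) : Continuous (fun w : ℝ => ∑' n : ℕ, PPt_F L τ n w) := by
  obtain ⟨C, hC, h⟩ := PPt_sum
  refine continuous_tsum (fun n => ?_) (h L).1 fun n w => ?_
  · unfold PPt_F
    fun_prop
  · unfold PPt_F
    rw [norm_mul, Complex.norm_real, Real.norm_of_nonneg (by positivity)]
    refine mul_le_mul (PPt_term n τ) ?_ (by positivity) (PPt_a_nonneg n)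
    rw [← Real.exp_add]
    apply Real.exp_le_exp.mpr
    rw [PPt_square]
    nlinarith [sq_nonneg (w - (3 * Real.log n + L) / 4), sq_nonneg (Real.log n - L)]

private theorem PPt_P_eq (L τ : ℝ) : (Real.sqrt (3 * Real.pi / 2) : ℂ) * P L τ =
    ∫ w : ℝ, VKZ.gs (fun n => ArithmeticFunction.vonMangoldt n) w τ *
      (Real.exp (-(w - L) ^ 2 / 6) : ℝ) := by
  obtain ⟨C, hC, h⟩ := PPt_sum
  have hsum := integral_tsum_of_summable_integral_norm (μ := volume) (F := PPt_F L τ)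
    (PPt_F_int L τ) (by
      simp only [PPt_F_norm]
      refine Summable.mul_left _ ?_
      exact Summable.of_nonneg_of_le (fun n => norm_nonneg _) (fun n => PPt_summand L n τ) (h L).1)
  simp only [PPt_F_tsum, PPt_F_integral] at hsum
  rw [← hsum, tsum_mul_left]
  rfl

/-- the main term of the Gaussian sum -/
private noncomputable def PPt_M (τ w : ℝ) : ℂ :=
  Real.sqrt (2 * Real.pi) * Real.exp (-τ ^ 2 / 2) * Complex.exp (-(τ * w * Complex.I))

private theorem PPt_gauss_int (L : ℝ) : Integrable (fun w : ℝ => Real.exp (-(w - L) ^ 2 / 6)) := by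
  have h := (integrable_exp_neg_mul_sq (b := 1 / 6) (by norm_num)).comp_sub_right L
  refine h.congr (Filter.Eventually.of_forall fun v => ?_)
  simp only []
  congr 1
  ring

private theorem PPt_M_norm (τ w : ℝ) : ‖PPt_M τ w‖ ≤ Real.sqrt (2 * Real.pi) := by
  unfold PPt_M
  have h1 : ‖Complex.exp (-(τ * w * Complex.I))‖ = 1 := by
    rw [Complex.norm_exp]
    simp
  rw [norm_mul, h1, mul_one, norm_mul, Complex.norm_real, Complex.norm_real,
    Real.norm_of_nonneg (Real.sqrt_nonneg _), Real.norm_of_nonneg (Real.exp_pos _).le]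
  have h2 : Real.exp (-τ ^ 2 / 2) ≤ 1 := by
    apply Real.exp_le_one_iff.mpr
    nlinarith [sq_nonneg τ]
  exact mul_le_of_le_one_right (Real.sqrt_nonneg _) h2

private theorem PPt_M_cont (τ : ℝ) : Continuous (PPt_M τ) := by
  unfold PPt_M
  fun_prop

private theorem PPt_M_int (L τ : ℝ) :
    Integrable (fun w : ℝ => PPt_M τ w * (Real.exp (-(w - L) ^ 2 / 6) : ℝ)) := by
  refine Integrable.mono' ((PPt_gauss_int L).const_mul (Real.sqrt (2 * Real.pi))) ?_
    (Filter.Eventually.of_forall fun w => ?_)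
  · refine Continuous.aestronglyMeasurable ?_
    exact (PPt_M_cont τ).mul (by fun_prop)
  · rw [norm_mul, Complex.norm_real, Real.norm_of_nonneg (Real.exp_pos _).le]
    exact mul_le_mul_of_nonneg_right (PPt_M_norm τ w) (Real.exp_pos _).le

private theorem PPt_main_eq (L τ : ℝ) : (Real.sqrt (3 * Real.pi / 2) : ℂ) * mainT L τ =
    ∫ w : ℝ, PPt_M τ w * (Real.exp (-(w - L) ^ 2 / 6) : ℝ) := by
  have h0 : ∀ w : ℝ, PPt_M τ w * (Real.exp (-(w - L) ^ 2 / 6) : ℝ) =
      (Real.sqrt (2 * Real.pi) * Real.exp (-τ ^ 2 / 2) * Complex.exp (-(τ * L * Complex.I))) *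
        (fun u : ℝ => Complex.exp (Complex.I * ((-τ : ℝ) : ℂ) * u) *
          Complex.exp (-((1 / 6 : ℝ) : ℂ) * u ^ 2)) (w - L) := by
    intro w
    unfold PPt_M
    simp only []
    have e1 : Complex.exp (-(τ * w * Complex.I)) = Complex.exp (-(τ * L * Complex.I)) *
        Complex.exp (Complex.I * ((-τ : ℝ) : ℂ) * ((w - L : ℝ) : ℂ)) := by
      rw [← Complex.exp_add]
      congr 1
      push_cast
      ring
    have e2 : ((Real.exp (-(w - L) ^ 2 / 6) : ℝ) : ℂ) =
        Complex.exp (-((1 / 6 : ℝ) : ℂ) * ((w - L : ℝ) : ℂ) ^ 2) := by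
      rw [Complex.ofReal_exp]
      congr 1
      push_cast
      ring
    rw [e1, e2]
    ring
  simp only [h0]
  rw [integral_const_mul, integral_sub_right_eq_self (μ := (volume : Measure ℝ))
    (fun u : ℝ => Complex.exp (Complex.I * ((-τ : ℝ) : ℂ) * u) *
          Complex.exp (-((1 / 6 : ℝ) : ℂ) * u ^ 2)) L,
    fourierIntegral_gaussian (by norm_num : 0 < (((1 / 6 : ℝ) : ℂ)).re)]
  have e3 : ((Real.pi : ℂ) / ((1 / 6 : ℝ) : ℂ)) ^ (1 / 2 : ℂ) = (Real.sqrt (6 * Real.pi) : ℂ) := by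
    have : ((Real.pi : ℂ) / ((1 / 6 : ℝ) : ℂ)) = ((6 * Real.pi : ℝ) : ℂ) := by
      push_cast
      ring
    rw [this, Real.sqrt_eq_rpow, Complex.ofReal_cpow (by positivity)]
    norm_num
  have e4 : Complex.exp (-((-τ : ℝ) : ℂ) ^ 2 / (4 * ((1 / 6 : ℝ) : ℂ))) =
      ((Real.exp (-(3 / 2) * τ ^ 2) : ℝ) : ℂ) := by
    rw [Complex.ofReal_exp]
    congr 1
    push_cast
    ring
  rw [e3, e4]
  unfold mainT
  have e5 : Real.sqrt (3 * Real.pi / 2) * Real.sqrt (8 * Real.pi) =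
      Real.sqrt (2 * Real.pi) * Real.sqrt (6 * Real.pi) := by
    rw [← Real.sqrt_mul (by positivity), ← Real.sqrt_mul (by positivity)]
    congr 1
    ring
  have e6 : Real.exp (-2 * τ ^ 2) = Real.exp (-τ ^ 2 / 2) * Real.exp (-(3 / 2) * τ ^ 2) := by
    rw [← Real.exp_add]
    congr 1
    ring
  have e5' : (Real.sqrt (3 * Real.pi / 2) : ℂ) * (Real.sqrt (8 * Real.pi) : ℂ) =
      (Real.sqrt (2 * Real.pi) : ℂ) * (Real.sqrt (6 * Real.pi) : ℂ) := by
    exact_mod_cast e5
  rw [e6]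
  push_cast
  linear_combination (Complex.exp (-(τ : ℂ) ^ 2 / 2) * Complex.exp (-(3 / 2) * (τ : ℂ) ^ 2) *
    Complex.exp (-((τ : ℂ) * L * Complex.I))) * e5'

private theorem PPt_gs_bound : ∃ C : ℝ, 1 ≤ C ∧ ∀ w τ : ℝ,
    ‖VKZ.gs (fun n => ArithmeticFunction.vonMangoldt n) w τ‖ ≤ C * (1 + |w|) ^ 6 := by
  obtain ⟨C, hC, h⟩ := PPt_sum
  refine ⟨C, hC, fun w τ => ?_⟩
  obtain ⟨h1, h2⟩ := h w
  refine le_trans ?_ h2
  unfold VKZ.gs
  refine tsum_of_norm_bounded h1.hasSum fun n => ?_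
  rw [norm_mul, Complex.norm_real, Real.norm_of_nonneg (Real.exp_pos _).le]
  exact mul_le_mul (PPt_term n τ) (PPt_exp_mono (by norm_num) (by norm_num))
    (Real.exp_pos _).le (PPt_a_nonneg n)

/-- the integrable majorant -/
private noncomputable def PPt_G (u : ℝ) : ℝ := (1 + |u|) ^ 6 * Real.exp (-u ^ 2 / 12)

private theorem PPt_G_nonneg (u : ℝ) : 0 ≤ PPt_G u := by
  unfold PPt_G
  positivity

private theorem PPt_G_int : Integrable PPt_G := by
  have h1 := integrable_exp_neg_mul_sq (b := 1 / 24) (by norm_num)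
  have hb : ∃ K : ℝ, ∀ u : ℝ, (1 + |u|) ^ 6 * Real.exp (-u ^ 2 / 24) ≤ K := by
    refine ⟨Real.exp 216, fun u => ?_⟩
    have h2 : (1 + |u|) ≤ Real.exp |u| := by
      have := Real.add_one_le_exp |u|
      linarith
    have h3 : (1 + |u|) ^ 6 ≤ Real.exp (6 * |u|) := by
      calc (1 + |u|) ^ 6 ≤ (Real.exp |u|) ^ 6 := pow_le_pow_left₀ (by positivity) h2 6
        _ = Real.exp (6 * |u|) := by
          rw [← Real.exp_nat_mul]
          norm_num
    calc (1 + |u|) ^ 6 * Real.exp (-u ^ 2 / 24)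
        ≤ Real.exp (6 * |u|) * Real.exp (-u ^ 2 / 24) :=
          mul_le_mul_of_nonneg_right h3 (Real.exp_pos _).le
      _ = Real.exp (6 * |u| + -u ^ 2 / 24) := (Real.exp_add _ _).symm
      _ ≤ Real.exp 216 := by
          apply Real.exp_le_exp.mpr
          rw [← sq_abs u]
          nlinarith [sq_nonneg (|u| - 72)]
  obtain ⟨K, hK⟩ := hb
  refine Integrable.mono' (h1.const_mul K) ?_ (Filter.Eventually.of_forall fun u => ?_)
  · refine Continuous.aestronglyMeasurable ?_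
    unfold PPt_G
    fun_prop
  · rw [Real.norm_of_nonneg (PPt_G_nonneg u)]
    have e : PPt_G u = ((1 + |u|) ^ 6 * Real.exp (-u ^ 2 / 24)) * Real.exp (-(1 / 24) * u ^ 2) := by
      unfold PPt_G
      rw [mul_assoc, ← Real.exp_add]
      congr 2
      ring
    rw [e]
    exact mul_le_mul_of_nonneg_right (hK u) (Real.exp_pos _).le

private theorem PPt_shift (L w : ℝ) : (1 + |w|) ^ 6 ≤ (1 + |L|) ^ 6 * (1 + |w - L|) ^ 6 := by
  rw [← mul_pow]
  refine pow_le_pow_left₀ (by positivity) ?_ 6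
  have h1 : |w| ≤ |L| + |w - L| := by
    calc |w| = |L + (w - L)| := by congr 1; ring
      _ ≤ _ := abs_add_le _ _
  nlinarith [mul_nonneg (abs_nonneg L) (abs_nonneg (w - L))]

private theorem PPt_point_aux {A : ℝ} (hA : 0 ≤ A) : ∃ L0 : ℝ, 1 ≤ L0 ∧ ∀ L τ : ℝ, L0 ≤ L →
    |τ| ≤ Real.exp (2 * L) → ‖P L τ - mainT L τ‖ ≤ L ^ (-A) := by
  obtain ⟨C, hC, hgs⟩ := PPt_gs_bound
  obtain ⟨w0, hw0, hpg⟩ := VKZ.prime_gauss 4 (A + 1)
  set s0 := Real.sqrt (3 * Real.pi / 2) with hs0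
  have hs0p : 0 < s0 := Real.sqrt_pos.mpr (by positivity)
  set s1 := Real.sqrt (2 * Real.pi) with hs1
  have hs1p : 0 ≤ s1 := Real.sqrt_nonneg _
  set I1 := ∫ u : ℝ, PPt_G u with hI1
  have hI1p : 0 ≤ I1 := integral_nonneg PPt_G_nonneg
  -- the limits
  have hlim1 : Filter.Tendsto (fun L : ℝ => I1 * 2 ^ (A + 1) * L⁻¹) Filter.atTop (nhds 0) := by
    have := (tendsto_inv_atTop_zero (𝕜 := ℝ)).const_mul (I1 * 2 ^ (A + 1))
    rwa [mul_zero] at this
  have hlim2 : Filter.Tendsto (fun L : ℝ => (I1 * (C + s1) * 2 ^ (6 : ℕ)) *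
      (L ^ (6 + A) * Real.exp (-(1 / 48) * L))) Filter.atTop (nhds 0) := by
    have := (tendsto_rpow_mul_exp_neg_mul_atTop_nhds_zero (6 + A) (1 / 48)
      (by norm_num)).const_mul (I1 * (C + s1) * 2 ^ (6 : ℕ))
    rwa [mul_zero] at this
  obtain ⟨L1, hL1⟩ := Filter.eventually_atTop.1
    (hlim1.eventually_le_const (show (0 : ℝ) < s0 / 2 by positivity))
  obtain ⟨L2, hL2⟩ := Filter.eventually_atTop.1
    (hlim2.eventually_le_const (show (0 : ℝ) < s0 / 2 by positivity))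
  refine ⟨max (max (2 * w0) 2) (max L1 L2), le_trans (by norm_num : (1 : ℝ) ≤ 2)
    ((le_max_right _ _).trans (le_max_left _ _)), fun L τ hL hτ => ?_⟩
  have hLw : 2 * w0 ≤ L := ((le_max_left _ _).trans (le_max_left _ _)).trans hL
  have hL2' : 2 ≤ L := ((le_max_right _ _).trans (le_max_left _ _)).trans hL
  have hLL1 := hL1 L (((le_max_left _ _).trans (le_max_right _ _)).trans hL)
  have hLL2 := hL2 L (((le_max_right _ _).trans (le_max_right _ _)).trans hL)
  have hLp : 0 < L := by linarith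
  -- pointwise bound
  set D : ℝ := (L / 2) ^ (-(A + 1)) + Real.exp (-L ^ 2 / 48) * ((C + s1) * (1 + L) ^ 6) with hD
  have hDp : 0 ≤ D := by positivity
  have hpt : ∀ w : ℝ, ‖(VKZ.gs (fun n => ArithmeticFunction.vonMangoldt n) w τ - PPt_M τ w) *
      (Real.exp (-(w - L) ^ 2 / 6) : ℝ)‖ ≤ D * PPt_G (w - L) := by
    intro w
    rw [norm_mul, Complex.norm_real, Real.norm_of_nonneg (Real.exp_pos _).le]
    have hG1 : Real.exp (-(w - L) ^ 2 / 12) ≤ PPt_G (w - L) := by
      unfold PPt_G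
      refine le_mul_of_one_le_left (Real.exp_pos _).le (one_le_pow₀ ?_)
      have := abs_nonneg (w - L)
      linarith
    rcases le_total (L / 2) w with hw | hw
    · have hww : w0 ≤ w := by linarith
      have hτw : |τ| ≤ Real.exp (4 * w) := hτ.trans (Real.exp_le_exp.mpr (by linarith))
      have h1 := hpg w τ hww hτw
      have h2 : w ^ (-(A + 1)) ≤ (L / 2) ^ (-(A + 1)) :=
        Real.rpow_le_rpow_of_nonpos (by positivity) hw (by linarith)
      have h3 : ‖VKZ.gs (fun n => ArithmeticFunction.vonMangoldt n) w τ - PPt_M τ w‖ ≤ D := by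
        refine (h1.trans h2).trans ?_
        rw [hD]
        have : 0 ≤ Real.exp (-L ^ 2 / 48) * ((C + s1) * (1 + L) ^ 6) := by positivity
        linarith
      refine mul_le_mul h3 (le_trans (PPt_exp_mono (by norm_num) (by norm_num)) hG1)
        (Real.exp_pos _).le hDp
    · have h1 : ‖VKZ.gs (fun n => ArithmeticFunction.vonMangoldt n) w τ - PPt_M τ w‖ ≤
          (C + s1) * ((1 + L) ^ 6 * (1 + |w - L|) ^ 6) := by
        refine (norm_sub_le _ _).trans ?_
        have h2 := hgs w τ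
        have h3 := PPt_M_norm τ w
        have h4 := PPt_shift L w
        rw [abs_of_pos hLp] at h4
        have h5 : (1 : ℝ) ≤ (1 + L) ^ 6 * (1 + |w - L|) ^ 6 := by
          have h6 : (1 : ℝ) ≤ (1 + L) ^ 6 := one_le_pow₀ (by linarith)
          have h7 : (1 : ℝ) ≤ (1 + |w - L|) ^ 6 :=
            one_le_pow₀ (by have := abs_nonneg (w - L); linarith)
          nlinarith
        have h8 : C * (1 + |w|) ^ 6 ≤ C * ((1 + L) ^ 6 * (1 + |w - L|) ^ 6) :=
          mul_le_mul_of_nonneg_left h4 (by linarith)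
        have h9 : s1 ≤ s1 * ((1 + L) ^ 6 * (1 + |w - L|) ^ 6) :=
          le_mul_of_one_le_right hs1p h5
        rw [add_mul]
        exact add_le_add (h2.trans h8) (h3.trans h9)
      have h2 : Real.exp (-(w - L) ^ 2 / 6) ≤
          Real.exp (-L ^ 2 / 48) * Real.exp (-(w - L) ^ 2 / 12) := by
        rw [← Real.exp_add]
        apply Real.exp_le_exp.mpr
        nlinarith
      calc ‖VKZ.gs (fun n => ArithmeticFunction.vonMangoldt n) w τ - PPt_M τ w‖ *
            Real.exp (-(w - L) ^ 2 / 6)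
          ≤ ((C + s1) * ((1 + L) ^ 6 * (1 + |w - L|) ^ 6)) *
            (Real.exp (-L ^ 2 / 48) * Real.exp (-(w - L) ^ 2 / 12)) :=
            mul_le_mul h1 h2 (Real.exp_pos _).le (by positivity)
        _ = (Real.exp (-L ^ 2 / 48) * ((C + s1) * (1 + L) ^ 6)) * PPt_G (w - L) := by
            unfold PPt_G
            ring
        _ ≤ D * PPt_G (w - L) := by
            refine mul_le_mul_of_nonneg_right ?_ (PPt_G_nonneg _)
            rw [hD]
            have : 0 ≤ (L / 2) ^ (-(A + 1)) := by positivity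
            linarith
  have hGint : Integrable (fun w : ℝ => D * PPt_G (w - L)) :=
    (PPt_G_int.comp_sub_right L).const_mul D
  have hgsint : Integrable (fun w : ℝ =>
      VKZ.gs (fun n => ArithmeticFunction.vonMangoldt n) w τ *
        (Real.exp (-(w - L) ^ 2 / 6) : ℝ)) := by
    refine Integrable.mono' ((PPt_G_int.comp_sub_right L).const_mul (C * (1 + |L|) ^ 6)) ?_
      (Filter.Eventually.of_forall fun w => ?_)
    · have := PPt_F_cont L τ
      simp only [PPt_F_tsum] at this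
      exact this.aestronglyMeasurable
    · rw [norm_mul, Complex.norm_real, Real.norm_of_nonneg (Real.exp_pos _).le]
      have h4 := PPt_shift L w
      calc ‖VKZ.gs (fun n => ArithmeticFunction.vonMangoldt n) w τ‖ *
            Real.exp (-(w - L) ^ 2 / 6)
          ≤ (C * ((1 + |L|) ^ 6 * (1 + |w - L|) ^ 6)) * Real.exp (-(w - L) ^ 2 / 12) := by
            refine mul_le_mul ((hgs w τ).trans (mul_le_mul_of_nonneg_left h4 (by linarith)))
              (PPt_exp_mono (by norm_num) (by norm_num)) (Real.exp_pos _).le (by positivity)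
        _ = C * (1 + |L|) ^ 6 * PPt_G (w - L) := by
            unfold PPt_G
            ring
  have hdiff : (s0 : ℂ) * (P L τ - mainT L τ) = ∫ w : ℝ,
      (VKZ.gs (fun n => ArithmeticFunction.vonMangoldt n) w τ - PPt_M τ w) *
        (Real.exp (-(w - L) ^ 2 / 6) : ℝ) := by
    rw [mul_sub, PPt_P_eq, PPt_main_eq, ← integral_sub hgsint (PPt_M_int L τ)]
    refine integral_congr_ae (Filter.Eventually.of_forall fun w => ?_)
    simp only []
    ring
  have hbound : s0 * ‖P L τ - mainT L τ‖ ≤ D * I1 := by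
    have h1 := norm_integral_le_of_norm_le hGint (Filter.Eventually.of_forall hpt)
    rw [← hdiff, norm_mul, Complex.norm_real, Real.norm_of_nonneg hs0p.le, integral_const_mul,
      integral_sub_right_eq_self (μ := (volume : Measure ℝ)) PPt_G L] at h1
    exact h1
  -- conclusion
  have hLA : 0 < L ^ (-A) := Real.rpow_pos_of_pos hLp _
  have e1 : (L / 2) ^ (-(A + 1)) = 2 ^ (A + 1) * L⁻¹ * L ^ (-A) := by
    rw [Real.div_rpow hLp.le (by norm_num), Real.rpow_neg (by norm_num : (0 : ℝ) ≤ 2),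
      neg_add, Real.rpow_add hLp, Real.rpow_neg_one]
    field_simp
  have e2 : Real.exp (-L ^ 2 / 48) * ((C + s1) * (1 + L) ^ 6) ≤
      (C + s1) * 2 ^ (6 : ℕ) * (L ^ (6 + A) * Real.exp (-(1 / 48) * L)) * L ^ (-A) := by
    have h1 : Real.exp (-L ^ 2 / 48) ≤ Real.exp (-(1 / 48) * L) := by
      apply Real.exp_le_exp.mpr
      nlinarith
    have h2 : (1 + L) ^ 6 ≤ 2 ^ (6 : ℕ) * L ^ 6 := by
      rw [← mul_pow]
      exact pow_le_pow_left₀ (by positivity) (by linarith) 6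
    have h3 : L ^ (6 + A) * L ^ (-A) = L ^ 6 := by
      rw [← Real.rpow_add hLp]
      have : (6 : ℝ) + A + -A = (6 : ℕ) := by
        push_cast
        ring
      rw [this, Real.rpow_natCast]
    calc Real.exp (-L ^ 2 / 48) * ((C + s1) * (1 + L) ^ 6)
        ≤ Real.exp (-(1 / 48) * L) * ((C + s1) * (2 ^ (6 : ℕ) * L ^ 6)) :=
          mul_le_mul h1 (mul_le_mul_of_nonneg_left h2 (by positivity)) (by positivity)
            (Real.exp_pos _).le
      _ = (C + s1) * 2 ^ (6 : ℕ) * (L ^ (6 + A) * Real.exp (-(1 / 48) * L)) * L ^ (-A) := by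
          rw [← h3]
          ring
  have h7 : D * I1 ≤ s0 * L ^ (-A) := by
    calc D * I1 ≤ (2 ^ (A + 1) * L⁻¹ * L ^ (-A) +
          (C + s1) * 2 ^ (6 : ℕ) * (L ^ (6 + A) * Real.exp (-(1 / 48) * L)) * L ^ (-A)) * I1 := by
          refine mul_le_mul_of_nonneg_right ?_ hI1p
          rw [hD, e1]
          linarith
      _ = (I1 * 2 ^ (A + 1) * L⁻¹ + (I1 * (C + s1) * 2 ^ (6 : ℕ)) *
          (L ^ (6 + A) * Real.exp (-(1 / 48) * L))) * L ^ (-A) := by ring
      _ ≤ (s0 / 2 + s0 / 2) * L ^ (-A) :=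
          mul_le_mul_of_nonneg_right (add_le_add hLL1 hLL2) hLA.le
      _ = s0 * L ^ (-A) := by ring
  exact le_of_mul_le_mul_left (hbound.trans h7) hs0p

theorem P_point2 (A : ℝ) : ∃ L0 : ℝ, 1 ≤ L0 ∧ ∀ L τ : ℝ, L0 ≤ L → |τ| ≤ Real.exp (2 * L) →
    ‖DP L τ‖ ≤ L ^ (-A) := by
  obtain ⟨L0, h1, h2⟩ := PPt_point_aux (le_max_right A 0)
  refine ⟨L0, h1, fun L τ hL hτ => (h2 L τ hL hτ).trans ?_⟩
  refine Real.rpow_le_rpow_of_exponent_le (h1.trans hL) ?_
  have := le_max_left A 0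
  linarith

end RLC
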