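import Pool.Agent.RLC.KSL
import Pool.Agent.ASI.Vaughan

/-!
# RLC.TypeIL: the type I sums are tiny, long range of frequencies

PROOF. As `Pool/Agent/ASI/TypeI.lean` (copy and adapt it), which treats `|τ| ≤ exp(L/2)`. `ASI.vaughan` with `U = L/20`:
`P - T4 = X1 + X2 - X3`. Let `L ≤ |τ| ≤ exp(2L)`, `L` large, `κ`, `C` from `KS_long 8`.
`X1`: for `log n ≤ L/2` the weight `ps` is `≤ exp(-L²/32)`, for `log n > L/2` we have `1 - hL ≤ exp(-(0.45 L)²/4)`; so
`‖X1‖ ≤ exp(-L)`.
Family bound: for EVERY real `y`: `‖KS j y τ‖ ≤ C' (1+|y|) (exp(-L) + exp(κ L/4) exp(-κ y))`: for `y ≥ L/4` we have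
`|τ| ≤ exp(2L) ≤ exp(8y)` and `KS_long` applies; for `y < L/4` use `ASI.KS_triv` and `exp(κ(L/4-y)) ≥ 1`.
`X2 = ∑_b μ(b)(1-hM U (log b)) np b τ · KS 1 (L - log b) τ`, `X3 = ∑_a ∑_b Λ(a)(1-hL) μ(b)(1-hM) np a τ np b τ ·
KS 0 (L - log a - log b) τ`. A family `F y` with `‖F y‖ ≤ D (1+|y|)(S + R exp(-κ y))` for all `y` gives
`‖∑_n c(n) np n τ F (y - log n)‖ ≤ D (1+|y|) (S + R exp(-κ y) exp(2κU)) · C'' (1+U)^4` for `|c(n)| ≤ (1 + log n)(1 - h(log n))`,
because `1 + |y - log n| ≤ (1+|y|)(1 + log n)` and the sum of `(1+log n)² n^(-1) n^κ (1 - h(log n))` is at most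
`C'' (1+U)^4 exp(2κU)` (`log n ≤ 2U`: `n^κ ≤ exp(2κU)`; `log n = x > 2U`: `1-h ≤ exp(-(x-U)²/8) ≤ exp(-x²/32)`).
So `‖X2‖, ‖X3‖ ≤ C (1+L)^12 (exp(-L) + exp(κ(L/4 - L + 4U))) ≤ exp(-κL/3)/4` for large `L` (`4U = L/5`).
-/

namespace RLC

open ArithmeticFunction ASI

private theorem TIL_np_exp (n : ℕ) (τ : ℝ) : ‖np n τ‖ * Real.exp (Real.log n) ≤ 1 := by
  rcases Nat.eq_zero_or_pos n with h | h
  · subst h
    have h0 : np 0 τ = 0 := by
      unfold np
      rw [Nat.cast_zero, Complex.zero_cpow]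
      intro h
      have := congrArg Complex.re h
      simp at this
    rw [h0]
    simp
  · have hn : (0 : ℝ) < n := by exact_mod_cast h
    unfold np
    rw [Complex.norm_natCast_cpow_of_pos h, Real.exp_log hn]
    have hre : (-(1 + (τ : ℂ) * Complex.I)).re = -1 := by simp
    rw [hre, Real.rpow_neg_one, inv_mul_cancel₀ hn.ne']

private theorem TIL_log_nonneg (n : ℕ) : 0 ≤ Real.log n := Real.log_natCast_nonneg n

private theorem TIL_np_le (n : ℕ) (τ : ℝ) : ‖np n τ‖ ≤ 1 := by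
  have h1 := TIL_np_exp n τ
  have h2 : (1 : ℝ) ≤ Real.exp (Real.log n) := Real.one_le_exp (TIL_log_nonneg n)
  have h3 := norm_nonneg (np n τ)
  nlinarith

private theorem TIL_cut : ∃ C : ℝ, 1 ≤ C ∧ ∀ (U : ℝ) (h : ℝ → ℝ), 0 ≤ U → (∀ x, 0 ≤ 1 - h x) →
    (∀ x, 1 - h x ≤ 1) → (∀ x, U ≤ x → 1 - h x ≤ Real.exp (-(x - U) ^ 2 / 8)) →
    Summable (fun n : ℕ => (1 + Real.log n) ^ 2 * (1 - h (Real.log n))) ∧
    ∑' n : ℕ, (1 + Real.log n) ^ 2 * (1 - h (Real.log n)) ≤ C * (1 + U) ^ 6 * Real.exp U := by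
  obtain ⟨C, hC, hdiv⟩ := div_gauss
  refine ⟨2 + Real.exp 4 * C, by nlinarith [Real.exp_pos 4], ?_⟩
  intro U h hU h0 h1 h2
  obtain ⟨hs, hle, -⟩ := hdiv U
  set g : ℕ → ℝ := fun n => (n.divisors.card : ℝ) ^ 2 * (1 + Real.log n) ^ 2 / n *
      Real.exp (-(Real.log n - U) ^ 2 / 16) with hg
  set N : ℕ := ⌊Real.exp U⌋₊ with hN
  set k : ℕ → ℝ := fun n => if n ∈ Finset.range (N + 1) then (1 + U) ^ 2 else 0 with hk
  have hgn : ∀ n, 0 ≤ g n := fun n => by positivity
  have hkn : ∀ n, 0 ≤ k n := fun n => by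
    simp only [hk]
    split_ifs <;> positivity
  have hmaj : ∀ n : ℕ, (1 + Real.log n) ^ 2 * (1 - h (Real.log n)) ≤ k n + Real.exp (U + 4) * g n := by
    intro n
    have hl := TIL_log_nonneg n
    by_cases hn : n ∈ Finset.range (N + 1)
    · have hnN : n ≤ N := by
        have := Finset.mem_range.1 hn
        omega
      have hnexp : (n : ℝ) ≤ Real.exp U := by
        calc (n : ℝ) ≤ N := by exact_mod_cast hnN
          _ ≤ Real.exp U := Nat.floor_le (Real.exp_pos U).le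
      have hlog : Real.log n ≤ U := by
        rcases Nat.eq_zero_or_pos n with h' | h'
        · subst h'; simpa using hU
        · have := Real.log_le_log (by exact_mod_cast h' : (0 : ℝ) < n) hnexp
          rwa [Real.log_exp] at this
      have e1 : k n = (1 + U) ^ 2 := by simp only [hk, hn, if_true]
      have e2 : (1 + Real.log n) ^ 2 * (1 - h (Real.log n)) ≤ (1 + U) ^ 2 * 1 := by
        apply mul_le_mul _ (h1 _) (h0 _) (by positivity)
        exact pow_le_pow_left₀ (by positivity) (by linarith) 2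
      have e3 : 0 ≤ Real.exp (U + 4) * g n := mul_nonneg (Real.exp_pos _).le (hgn n)
      linarith
    · have hnN : N < n := by
        by_contra hcon
        exact hn (Finset.mem_range.2 (by omega))
      have hexp : Real.exp U < n := (Nat.floor_lt' (by omega)).1 hnN
      have hnpos : (0 : ℝ) < n := lt_trans (Real.exp_pos U) hexp
      have hlog : U ≤ Real.log n := by
        have := Real.log_le_log (Real.exp_pos U) hexp.le
        rwa [Real.log_exp] at this
      have hnat : n ≠ 0 := by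
        rintro rfl
        simp at hnpos
      have hd : (1 : ℝ) ≤ (n.divisors.card : ℝ) ^ 2 := by
        have : 1 ≤ n.divisors.card := Finset.card_pos.2 ⟨1, by simp [hnat]⟩
        have : (1 : ℝ) ≤ (n.divisors.card : ℝ) := by exact_mod_cast this
        nlinarith
      have e1 : (1 + Real.log n) ^ 2 * (1 - h (Real.log n)) ≤
          (1 + Real.log n) ^ 2 * Real.exp (-(Real.log n - U) ^ 2 / 8) :=
        mul_le_mul_of_nonneg_left (h2 _ hlog) (by positivity)
      have e2 : Real.exp (-(Real.log n - U) ^ 2 / 8) ≤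
          Real.exp (U + 4) * (1 / n * Real.exp (-(Real.log n - U) ^ 2 / 16)) := by
        have e3 : (1 / (n : ℝ)) = Real.exp (-Real.log n) := by
          rw [Real.exp_neg, Real.exp_log hnpos, one_div]
        rw [e3, ← Real.exp_add, ← Real.exp_add]
        apply Real.exp_le_exp.2
        nlinarith [sq_nonneg (Real.log n - U - 8)]
      have e4 : (1 + Real.log n) ^ 2 * Real.exp (-(Real.log n - U) ^ 2 / 8) ≤
          Real.exp (U + 4) * ((1 + Real.log n) ^ 2 / n * Real.exp (-(Real.log n - U) ^ 2 / 16)) := by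
        calc (1 + Real.log n) ^ 2 * Real.exp (-(Real.log n - U) ^ 2 / 8)
            ≤ (1 + Real.log n) ^ 2 * (Real.exp (U + 4) * (1 / n * Real.exp (-(Real.log n - U) ^ 2 / 16))) :=
              mul_le_mul_of_nonneg_left e2 (by positivity)
          _ = _ := by ring
      have e5 : (1 + Real.log n) ^ 2 / n * Real.exp (-(Real.log n - U) ^ 2 / 16) ≤ g n := by
        simp only [hg]
        apply mul_le_mul_of_nonneg_right _ (Real.exp_pos _).le
        apply div_le_div_of_nonneg_right _ hnpos.le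
        nlinarith [sq_nonneg (1 + Real.log n)]
      have e6 := mul_le_mul_of_nonneg_left e5 (Real.exp_pos (U + 4)).le
      have e7 := hkn n
      linarith
  have hksum : Summable k := by
    apply summable_of_ne_finset_zero (s := Finset.range (N + 1))
    intro b hb
    simp only [hk, hb, if_false]
  have hktsum : ∑' n, k n = (N + 1) * (1 + U) ^ 2 := by
    rw [tsum_eq_sum (s := Finset.range (N + 1))]
    · have : ∀ b ∈ Finset.range (N + 1), k b = (1 + U) ^ 2 := fun b hb => by simp only [hk, hb, if_true]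
      rw [Finset.sum_congr rfl this]
      simp
    · intro b hb
      simp only [hk, hb, if_false]
  have hmajs : Summable (fun n => k n + Real.exp (U + 4) * g n) := hksum.add (hs.mul_left _)
  have hsum : Summable (fun n : ℕ => (1 + Real.log n) ^ 2 * (1 - h (Real.log n))) :=
    Summable.of_nonneg_of_le (fun n => mul_nonneg (by positivity) (h0 _)) hmaj hmajs
  refine ⟨hsum, ?_⟩
  have hNle : (N : ℝ) ≤ Real.exp U := Nat.floor_le (Real.exp_pos U).le
  have hE1 : (1 : ℝ) ≤ Real.exp U := Real.one_le_exp hU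
  calc ∑' n : ℕ, (1 + Real.log n) ^ 2 * (1 - h (Real.log n))
      ≤ ∑' n, (k n + Real.exp (U + 4) * g n) := hsum.tsum_le_tsum hmaj hmajs
    _ = (N + 1) * (1 + U) ^ 2 + Real.exp (U + 4) * ∑' n, g n := by
        rw [hksum.tsum_add (hs.mul_left _), hktsum, tsum_mul_left]
    _ ≤ (2 * Real.exp U) * (1 + U) ^ 6 + Real.exp (U + 4) * (C * (1 + |U|) ^ 6) := by
        apply add_le_add
        · apply mul_le_mul (by linarith) _ (by positivity) (by positivity)
          exact pow_le_pow_right₀ (by linarith) (by norm_num)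
        · exact mul_le_mul_of_nonneg_left hle (Real.exp_pos _).le
    _ = (2 + Real.exp 4 * C) * (1 + U) ^ 6 * Real.exp U := by
        rw [abs_of_nonneg hU, Real.exp_add]
        ring

private theorem TIL_cM (U : ℝ) (n : ℕ) :
    ‖(((moebius n : ℝ) * (1 - hM U (Real.log n)) : ℝ) : ℂ)‖ * (1 + Real.log n) ≤
      (1 + Real.log n) ^ 2 * (1 - hM U (Real.log n)) := by
  have h1 := TIL_log_nonneg n
  have h2 : 0 ≤ 1 - hM U (Real.log n) := by linarith [hM_le U (Real.log n)]
  have h3 : |(moebius n : ℝ)| ≤ 1 := by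
    have := abs_moebius_le_one (n := n)
    exact_mod_cast this
  rw [Complex.norm_real, Real.norm_eq_abs, abs_mul, abs_of_nonneg h2]
  have h4 : |(moebius n : ℝ)| * (1 - hM U (Real.log n)) ≤ 1 - hM U (Real.log n) := by nlinarith
  have h5 : (1 - hM U (Real.log n)) * (1 + Real.log n) ≤
      (1 + Real.log n) ^ 2 * (1 - hM U (Real.log n)) := by
    have : (1 + Real.log n) ≤ (1 + Real.log n) ^ 2 := by nlinarith
    nlinarith
  have h6 := mul_le_mul_of_nonneg_right h4 (by linarith : (0 : ℝ) ≤ 1 + Real.log n)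
  linarith

private theorem TIL_cL (U : ℝ) (n : ℕ) :
    ‖((vonMangoldt n * (1 - hL U (Real.log n)) : ℝ) : ℂ)‖ * (1 + Real.log n) ≤
      (1 + Real.log n) ^ 2 * (1 - hL U (Real.log n)) := by
  have h1 := TIL_log_nonneg n
  have h2 : 0 ≤ 1 - hL U (Real.log n) := by linarith [hL_le U (Real.log n)]
  have h3 : vonMangoldt n ≤ Real.log n := vonMangoldt_le_log
  have h3' : 0 ≤ vonMangoldt n := vonMangoldt_nonneg
  rw [Complex.norm_real, Real.norm_eq_abs, abs_mul, abs_of_nonneg h2, abs_of_nonneg h3']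
  have h4 : vonMangoldt n * (1 - hL U (Real.log n)) ≤ (1 + Real.log n) * (1 - hL U (Real.log n)) :=
    mul_le_mul_of_nonneg_right (by linarith) h2
  have h6 := mul_le_mul_of_nonneg_right h4 (by linarith : (0 : ℝ) ≤ 1 + Real.log n)
  calc vonMangoldt n * (1 - hL U (Real.log n)) * (1 + Real.log n)
      ≤ (1 + Real.log n) * (1 - hL U (Real.log n)) * (1 + Real.log n) := h6
    _ = _ := by ring

private theorem TIL_X1 : ∃ C : ℝ, 1 ≤ C ∧ ∀ L U τ : ℝ, 0 ≤ U →
    ‖X1 L U τ‖ ≤ C * (1 + U) ^ 6 * Real.exp U * Real.exp (-L) := by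
  obtain ⟨C, hC, hcut⟩ := TIL_cut
  refine ⟨Real.exp 2 * C, by nlinarith [Real.one_le_exp (show (0 : ℝ) ≤ 2 by norm_num)], ?_⟩
  intro L U τ hU
  obtain ⟨hs, hle⟩ := hcut U (hL U) hU (fun x => by linarith [hL_le U x])
    (fun x => by linarith [hL_nonneg U x]) (fun x hx => (hL_tail hx).trans (Real.exp_le_exp.2 (by
      nlinarith [sq_nonneg (x - U)])))
  have hterm : ∀ n : ℕ, ‖((vonMangoldt n * (1 - hL U (Real.log n)) : ℝ) : ℂ) * np n τ *
      (ps L (Real.log n) : ℝ)‖ ≤ Real.exp (2 - L) * ((1 + Real.log n) ^ 2 * (1 - hL U (Real.log n))) := by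
    intro n
    have h1 := TIL_log_nonneg n
    have hps : 0 < ps L (Real.log n) := Real.exp_pos _
    rw [norm_mul, norm_mul, Complex.norm_real (ps L (Real.log n)), Real.norm_eq_abs, abs_of_pos hps]
    have h2 : ps L (Real.log n) ≤ Real.exp (2 - L) * Real.exp (Real.log n) := by
      unfold ps
      rw [← Real.exp_add]
      apply Real.exp_le_exp.2
      nlinarith [sq_nonneg (Real.log n - L + 4)]
    have h3 := TIL_cL U n
    have h4 : 0 ≤ ‖((vonMangoldt n * (1 - hL U (Real.log n)) : ℝ) : ℂ)‖ := norm_nonneg _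
    have h5 : ‖((vonMangoldt n * (1 - hL U (Real.log n)) : ℝ) : ℂ)‖ ≤
        (1 + Real.log n) ^ 2 * (1 - hL U (Real.log n)) := by nlinarith
    calc ‖((vonMangoldt n * (1 - hL U (Real.log n)) : ℝ) : ℂ)‖ * ‖np n τ‖ * ps L (Real.log n)
        ≤ ‖((vonMangoldt n * (1 - hL U (Real.log n)) : ℝ) : ℂ)‖ * ‖np n τ‖ *
            (Real.exp (2 - L) * Real.exp (Real.log n)) := mul_le_mul_of_nonneg_left h2 (by positivity)
      _ = Real.exp (2 - L) * ‖((vonMangoldt n * (1 - hL U (Real.log n)) : ℝ) : ℂ)‖ *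
            (‖np n τ‖ * Real.exp (Real.log n)) := by ring
      _ ≤ Real.exp (2 - L) * ‖((vonMangoldt n * (1 - hL U (Real.log n)) : ℝ) : ℂ)‖ * 1 :=
          mul_le_mul_of_nonneg_left (TIL_np_exp n τ) (by positivity)
      _ ≤ Real.exp (2 - L) * ((1 + Real.log n) ^ 2 * (1 - hL U (Real.log n))) := by
          rw [mul_one]
          exact mul_le_mul_of_nonneg_left h5 (Real.exp_pos _).le
  have hsn : Summable (fun n : ℕ => ‖((vonMangoldt n * (1 - hL U (Real.log n)) : ℝ) : ℂ) * np n τ *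
      (ps L (Real.log n) : ℝ)‖) :=
    Summable.of_nonneg_of_le (fun n => norm_nonneg _) hterm (hs.mul_left _)
  unfold X1
  calc _ ≤ ∑' n : ℕ, ‖((vonMangoldt n * (1 - hL U (Real.log n)) : ℝ) : ℂ) * np n τ *
        (ps L (Real.log n) : ℝ)‖ := norm_tsum_le_tsum_norm hsn
    _ ≤ ∑' n : ℕ, Real.exp (2 - L) * ((1 + Real.log n) ^ 2 * (1 - hL U (Real.log n))) :=
        hsn.tsum_le_tsum hterm (hs.mul_left _)
    _ = Real.exp (2 - L) * ∑' n : ℕ, (1 + Real.log n) ^ 2 * (1 - hL U (Real.log n)) := tsum_mul_left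
    _ ≤ Real.exp (2 - L) * (C * (1 + U) ^ 6 * Real.exp U) :=
        mul_le_mul_of_nonneg_left hle (Real.exp_pos _).le
    _ = Real.exp 2 * C * (1 + U) ^ 6 * Real.exp U * Real.exp (-L) := by
        rw [sub_eq_add_neg, Real.exp_add]
        ring


/-- The terms of the smooth sums. -/
private noncomputable def TILG (j : ℕ) (τ w : ℝ) (n : ℕ) : ℂ :=
  ((Real.log n ^ j * Real.exp (-(Real.log n - w) ^ 2 / 8) : ℝ) : ℂ) * np n τ


private theorem TIL_np_rp (κ : ℝ) (n : ℕ) (τ : ℝ) :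
    ‖np n τ‖ * Real.exp (κ * Real.log n) ≤ 1 / n * Real.exp (κ * Real.log n) := by
  apply mul_le_mul_of_nonneg_right _ (Real.exp_pos _).le
  rcases Nat.eq_zero_or_pos n with h | h
  · subst h
    have h0 : np 0 τ = 0 := by
      unfold np
      rw [Nat.cast_zero, Complex.zero_cpow]
      intro h
      have := congrArg Complex.re h
      simp at this
    rw [h0]
    simp
  · have hn : (0 : ℝ) < n := by exact_mod_cast h
    have h1 := TIL_np_exp n τ
    rw [Real.exp_log hn] at h1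
    rwa [le_div_iff₀ hn]

private theorem TIL_cutk : ∃ C : ℝ, 1 ≤ C ∧ ∀ (κ U : ℝ) (h : ℝ → ℝ), 0 ≤ κ → κ ≤ 1 / 10 → 0 ≤ U →
    (∀ x, 0 ≤ 1 - h x) →
    (∀ x, 1 - h x ≤ 1) → (∀ x, U ≤ x → 1 - h x ≤ Real.exp (-(x - U) ^ 2 / 8)) →
    Summable (fun n : ℕ => (1 + Real.log n) ^ 2 * (1 - h (Real.log n)) *
      (1 / n * Real.exp (κ * Real.log n))) ∧
    ∑' n : ℕ, (1 + Real.log n) ^ 2 * (1 - h (Real.log n)) * (1 / n * Real.exp (κ * Real.log n)) ≤
      C * (1 + U) ^ 3 * Real.exp (2 * κ * U) := by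
  set Z : ℝ := ∑' n : ℕ, 1 / (n : ℝ) ^ 2 with hZ
  have hZs : Summable (fun n : ℕ => 1 / (n : ℝ) ^ 2) := Real.summable_one_div_nat_pow.2 (by norm_num)
  have hZ0 : 0 ≤ Z := tsum_nonneg fun n => by positivity
  refine ⟨8 + 2 * Real.exp 36 * Z, by nlinarith [Real.exp_pos 36, mul_nonneg (Real.exp_pos 36).le hZ0], ?_⟩
  intro κ U h hκ hκ1 hU h0 h1 h2
  set N : ℕ := ⌊Real.exp (2 * U)⌋₊ with hN
  set k : ℕ → ℝ := fun n => if n ∈ Finset.range (N + 1) then
    (1 + 2 * U) ^ 2 * Real.exp (2 * κ * U) * (n : ℝ)⁻¹ else 0 with hk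
  have hkn : ∀ n, 0 ≤ k n := fun n => by
    simp only [hk]
    split_ifs <;> positivity
  have hmaj : ∀ n : ℕ, (1 + Real.log n) ^ 2 * (1 - h (Real.log n)) *
      (1 / n * Real.exp (κ * Real.log n)) ≤ k n + 2 * Real.exp 36 * (1 / (n : ℝ) ^ 2) := by
    intro n
    have hl := TIL_log_nonneg n
    by_cases hn : n ∈ Finset.range (N + 1)
    · have hnN : n ≤ N := by
        have := Finset.mem_range.1 hn
        omega
      have hnexp : (n : ℝ) ≤ Real.exp (2 * U) := by
        calc (n : ℝ) ≤ N := by exact_mod_cast hnN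
          _ ≤ Real.exp (2 * U) := Nat.floor_le (Real.exp_pos _).le
      have hlog : Real.log n ≤ 2 * U := by
        rcases Nat.eq_zero_or_pos n with h' | h'
        · subst h'; simpa using hU
        · have := Real.log_le_log (by exact_mod_cast h' : (0 : ℝ) < n) hnexp
          rwa [Real.log_exp] at this
      have e1 : k n = (1 + 2 * U) ^ 2 * Real.exp (2 * κ * U) * (n : ℝ)⁻¹ := by
        simp only [hk, hn, if_true]
      have e2 : (1 + Real.log n) ^ 2 * (1 - h (Real.log n)) ≤ (1 + 2 * U) ^ 2 * 1 := by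
        apply mul_le_mul _ (h1 _) (h0 _) (by positivity)
        exact pow_le_pow_left₀ (by positivity) (by linarith) 2
      have e3 : Real.exp (κ * Real.log n) ≤ Real.exp (2 * κ * U) := by
        apply Real.exp_le_exp.2
        nlinarith
      have e4 : (1 + Real.log n) ^ 2 * (1 - h (Real.log n)) * (1 / n * Real.exp (κ * Real.log n)) ≤
          ((1 + 2 * U) ^ 2 * 1) * (1 / n * Real.exp (2 * κ * U)) := by
        apply mul_le_mul e2 _ (by positivity) (by positivity)
        exact mul_le_mul_of_nonneg_left e3 (by positivity)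
      have e5 : (0 : ℝ) ≤ 2 * Real.exp 36 * (1 / (n : ℝ) ^ 2) := by positivity
      rw [e1]
      have e6 : ((1 + 2 * U) ^ 2 * 1) * (1 / n * Real.exp (2 * κ * U)) =
          (1 + 2 * U) ^ 2 * Real.exp (2 * κ * U) * (n : ℝ)⁻¹ := by
        rw [one_div]; ring
      linarith
    · have hnN : N < n := by
        by_contra hcon
        exact hn (Finset.mem_range.2 (by omega))
      have hexp : Real.exp (2 * U) < n := (Nat.floor_lt' (by omega)).1 hnN
      have hnpos : (0 : ℝ) < n := lt_trans (Real.exp_pos _) hexp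
      have hlog : 2 * U ≤ Real.log n := by
        have := Real.log_le_log (Real.exp_pos _) hexp.le
        rwa [Real.log_exp] at this
      have e1 : 1 - h (Real.log n) ≤ Real.exp (-(Real.log n) ^ 2 / 32) := by
        refine (h2 _ (by linarith)).trans (Real.exp_le_exp.2 ?_)
        nlinarith
      have e2 : (1 + Real.log n) ^ 2 ≤ 2 * Real.exp (Real.log n) := by
        have := Real.quadratic_le_exp_of_nonneg hl
        nlinarith
      have e3 : Real.exp (-(Real.log n) ^ 2 / 32) * (1 / n * Real.exp (κ * Real.log n)) * Real.exp (Real.log n) ≤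
          Real.exp 36 * (1 / (n : ℝ) ^ 2) := by
        have e4 : (1 / (n : ℝ)) = Real.exp (-Real.log n) := by
          rw [Real.exp_neg, Real.exp_log hnpos, one_div]
        have e5 : (1 / (n : ℝ) ^ 2) = Real.exp (-2 * Real.log n) := by
          have : -2 * Real.log n = -Real.log n + -Real.log n := by ring
          rw [this, Real.exp_add, ← e4]
          ring
        rw [e5, e4, ← Real.exp_add, ← Real.exp_add, ← Real.exp_add, ← Real.exp_add]
        apply Real.exp_le_exp.2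
        nlinarith [sq_nonneg (Real.log n - 33.6)]
      calc (1 + Real.log n) ^ 2 * (1 - h (Real.log n)) * (1 / n * Real.exp (κ * Real.log n))
          ≤ (2 * Real.exp (Real.log n)) * Real.exp (-(Real.log n) ^ 2 / 32) *
              (1 / n * Real.exp (κ * Real.log n)) := by
            apply mul_le_mul_of_nonneg_right _ (by positivity)
            exact mul_le_mul e2 e1 (h0 _) (by positivity)
        _ = 2 * (Real.exp (-(Real.log n) ^ 2 / 32) * (1 / n * Real.exp (κ * Real.log n)) *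
              Real.exp (Real.log n)) := by ring
        _ ≤ 2 * (Real.exp 36 * (1 / (n : ℝ) ^ 2)) := mul_le_mul_of_nonneg_left e3 (by norm_num)
        _ ≤ k n + 2 * Real.exp 36 * (1 / (n : ℝ) ^ 2) := by
            have := hkn n
            linarith
  have hksum : Summable k := by
    apply summable_of_ne_finset_zero (s := Finset.range (N + 1))
    intro b hb
    simp only [hk, hb, if_false]
  have hktsum : ∑' n, k n ≤ (1 + 2 * U) ^ 2 * Real.exp (2 * κ * U) * (1 + 2 * U) := by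
    rw [tsum_eq_sum (s := Finset.range (N + 1))]
    · have h3 : ∀ b ∈ Finset.range (N + 1), k b =
          (1 + 2 * U) ^ 2 * Real.exp (2 * κ * U) * (b : ℝ)⁻¹ := fun b hb => by simp only [hk, hb, if_true]
      rw [Finset.sum_congr rfl h3, ← Finset.mul_sum]
      apply mul_le_mul_of_nonneg_left _ (by positivity)
      rw [Finset.sum_range_succ']
      have h4 : ∑ i ∈ Finset.range N, (((i + 1 : ℕ) : ℝ))⁻¹ = ((harmonic N : ℚ) : ℝ) := by
        rw [harmonic]
        push_cast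
        rfl
      rw [h4]
      have h5 := harmonic_le_one_add_log N
      have h6 : Real.log N ≤ 2 * U := by
        have hN1 : 1 ≤ N := Nat.le_floor (by
          rw [Nat.cast_one]
          exact Real.one_le_exp (by positivity))
        have h7 : (N : ℝ) ≤ Real.exp (2 * U) := Nat.floor_le (Real.exp_pos _).le
        have := Real.log_le_log (by exact_mod_cast hN1 : (0 : ℝ) < N) h7
        rwa [Real.log_exp] at this
      simp only [Nat.cast_zero, inv_zero, add_zero]
      linarith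
    · intro b hb
      simp only [hk, hb, if_false]
  have hmajs : Summable (fun n : ℕ => k n + 2 * Real.exp 36 * (1 / (n : ℝ) ^ 2)) :=
    hksum.add (hZs.mul_left _)
  have hsum : Summable (fun n : ℕ => (1 + Real.log n) ^ 2 * (1 - h (Real.log n)) *
      (1 / n * Real.exp (κ * Real.log n))) :=
    Summable.of_nonneg_of_le (fun n => mul_nonneg (mul_nonneg (by positivity) (h0 _)) (by positivity))
      hmaj hmajs
  refine ⟨hsum, ?_⟩
  have hE1 : (1 : ℝ) ≤ Real.exp (2 * κ * U) := Real.one_le_exp (by positivity)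
  have hU3 : 1 ≤ (1 + U) ^ 3 := one_le_pow₀ (by linarith)
  calc ∑' n : ℕ, (1 + Real.log n) ^ 2 * (1 - h (Real.log n)) * (1 / n * Real.exp (κ * Real.log n))
      ≤ ∑' n : ℕ, (k n + 2 * Real.exp 36 * (1 / (n : ℝ) ^ 2)) := hsum.tsum_le_tsum hmaj hmajs
    _ = ∑' n, k n + 2 * Real.exp 36 * Z := by
        rw [hksum.tsum_add (hZs.mul_left _), tsum_mul_left]
    _ ≤ (1 + 2 * U) ^ 2 * Real.exp (2 * κ * U) * (1 + 2 * U) + 2 * Real.exp 36 * Z * 1 := by
        linarith
    _ ≤ 8 * (1 + U) ^ 3 * Real.exp (2 * κ * U) +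
        2 * Real.exp 36 * Z * ((1 + U) ^ 3 * Real.exp (2 * κ * U)) := by
        apply add_le_add
        · have h3 : (1 + 2 * U) ^ 3 ≤ (2 * (1 + U)) ^ 3 :=
            pow_le_pow_left₀ (by positivity) (by linarith) 3
          have h4 : (1 + 2 * U) ^ 2 * Real.exp (2 * κ * U) * (1 + 2 * U) =
            (1 + 2 * U) ^ 3 * Real.exp (2 * κ * U) := by ring
          rw [h4]
          apply mul_le_mul_of_nonneg_right _ (Real.exp_pos _).le
          calc (1 + 2 * U) ^ 3 ≤ (2 * (1 + U)) ^ 3 := h3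
            _ = 8 * (1 + U) ^ 3 := by ring
        · apply mul_le_mul_of_nonneg_left _ (by positivity)
          nlinarith
    _ = (8 + 2 * Real.exp 36 * Z) * (1 + U) ^ 3 * Real.exp (2 * κ * U) := by ring

private theorem TIL_step {ι : Type} (κ τ S R C D : ℝ) (hκ : 0 ≤ κ) (hS : 0 ≤ S) (hR : 0 ≤ R)
    (hC : 0 ≤ C) (hD : 0 ≤ D) (G : ℝ → ι → ℂ)
    (hG : ∀ w, Summable (fun i => ‖G w i‖) ∧ ∑' i, ‖G w i‖ ≤ C * (1 + |w|))
    (hGv : ∀ w, ‖∑' i, G w i‖ ≤ D * (1 + |w|) * (S + R * Real.exp (-κ * w)))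
    (c : ℕ → ℂ) (f : ℕ → ℝ) (hf : Summable f)
    (hcf : ∀ n : ℕ, ‖c n‖ * (1 + Real.log n) * (‖np n τ‖ * Real.exp (κ * Real.log n)) ≤ f n)
    (B : ℝ) (hB : ∑' n, f n ≤ B) (w : ℝ) :
    (Summable (fun q : ℕ × ι => ‖c q.1 * np q.1 τ * G (w - Real.log q.1) q.2‖) ∧
      ∑' q : ℕ × ι, ‖c q.1 * np q.1 τ * G (w - Real.log q.1) q.2‖ ≤ (C * B) * (1 + |w|)) ∧
    ‖∑' q : ℕ × ι, c q.1 * np q.1 τ * G (w - Real.log q.1) q.2‖ ≤
      (D * B) * (1 + |w|) * (S + R * Real.exp (-κ * w)) := by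
  have hw : ∀ n : ℕ, 1 + |w - Real.log n| ≤ (1 + |w|) * (1 + Real.log n) := by
    intro n
    have h1 := TIL_log_nonneg n
    have h2 : |w - Real.log n| ≤ |w| + Real.log n := by
      have := abs_sub w (Real.log n)
      rwa [abs_of_nonneg h1] at this
    nlinarith [abs_nonneg w]
  have he1 : ∀ n : ℕ, 1 ≤ Real.exp (κ * Real.log n) := fun n =>
    Real.one_le_exp (mul_nonneg hκ (TIL_log_nonneg n))
  have hcn : ∀ n : ℕ, ‖c n‖ * (1 + Real.log n) * ‖np n τ‖ ≤ f n := by
    intro n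
    have h1 := TIL_log_nonneg n
    refine le_trans ?_ (hcf n)
    have h2 : ‖np n τ‖ ≤ ‖np n τ‖ * Real.exp (κ * Real.log n) := by
      have := he1 n
      nlinarith [norm_nonneg (np n τ)]
    exact mul_le_mul_of_nonneg_left h2 (by positivity)
  have hfn : ∀ n, 0 ≤ f n := fun n =>
    le_trans (mul_nonneg (mul_nonneg (norm_nonneg _) (by linarith [TIL_log_nonneg n]))
      (norm_nonneg _)) (hcn n)
  -- inner sums
  have hin : ∀ n : ℕ, Summable (fun i => ‖c n * np n τ * G (w - Real.log n) i‖) := by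
    intro n
    simp_rw [norm_mul]
    exact (hG _).1.mul_left _
  have hinv : ∀ n : ℕ, ∑' i, ‖c n * np n τ * G (w - Real.log n) i‖ ≤ C * (1 + |w|) * f n := by
    intro n
    simp_rw [norm_mul]
    rw [tsum_mul_left]
    have h1 := TIL_log_nonneg n
    calc ‖c n‖ * ‖np n τ‖ * ∑' i, ‖G (w - Real.log n) i‖
        ≤ ‖c n‖ * ‖np n τ‖ * (C * (1 + |w - Real.log n|)) :=
          mul_le_mul_of_nonneg_left (hG _).2 (by positivity)
      _ ≤ ‖c n‖ * ‖np n τ‖ * (C * ((1 + |w|) * (1 + Real.log n))) := by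
          apply mul_le_mul_of_nonneg_left _ (by positivity)
          exact mul_le_mul_of_nonneg_left (hw n) hC
      _ = C * (1 + |w|) * (‖c n‖ * (1 + Real.log n) * ‖np n τ‖) := by ring
      _ ≤ C * (1 + |w|) * f n := mul_le_mul_of_nonneg_left (hcn n) (by positivity)
  have hsumN : Summable (fun q : ℕ × ι => ‖c q.1 * np q.1 τ * G (w - Real.log q.1) q.2‖) := by
    rw [summable_prod_of_nonneg (fun q => norm_nonneg _)]
    refine ⟨hin, ?_⟩
    exact Summable.of_nonneg_of_le (fun n => tsum_nonneg fun i => norm_nonneg _) hinv (hf.mul_left _)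
  have hsum : Summable (fun q : ℕ × ι => c q.1 * np q.1 τ * G (w - Real.log q.1) q.2) := hsumN.of_norm
  refine ⟨⟨hsumN, ?_⟩, ?_⟩
  · rw [hsumN.tsum_prod]
    calc ∑' n : ℕ, ∑' i, ‖c n * np n τ * G (w - Real.log n) i‖ ≤ ∑' n : ℕ, C * (1 + |w|) * f n :=
          hsumN.prod.tsum_le_tsum hinv (hf.mul_left _)
      _ = C * (1 + |w|) * ∑' n, f n := tsum_mul_left
      _ ≤ C * (1 + |w|) * B := mul_le_mul_of_nonneg_left hB (by positivity)
      _ = (C * B) * (1 + |w|) := by ring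
  · rw [hsum.tsum_prod]
    have hE : ∀ n : ℕ, ‖∑' i, c n * np n τ * G (w - Real.log n) i‖ ≤
        D * (1 + |w|) * (S + R * Real.exp (-κ * w)) * f n := by
      intro n
      have h1 := TIL_log_nonneg n
      rw [tsum_mul_left, norm_mul, norm_mul]
      have hexp : S + R * Real.exp (-κ * (w - Real.log n)) ≤
          Real.exp (κ * Real.log n) * (S + R * Real.exp (-κ * w)) := by
        have h2 : Real.exp (-κ * (w - Real.log n)) = Real.exp (κ * Real.log n) * Real.exp (-κ * w) := by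
          rw [← Real.exp_add]
          congr 1
          ring
        have h3 := he1 n
        rw [h2]
        nlinarith
      calc ‖c n‖ * ‖np n τ‖ * ‖∑' i, G (w - Real.log n) i‖
          ≤ ‖c n‖ * ‖np n τ‖ * (D * (1 + |w - Real.log n|) *
              (S + R * Real.exp (-κ * (w - Real.log n)))) :=
            mul_le_mul_of_nonneg_left (hGv _) (by positivity)
        _ ≤ ‖c n‖ * ‖np n τ‖ * (D * ((1 + |w|) * (1 + Real.log n)) *
              (Real.exp (κ * Real.log n) * (S + R * Real.exp (-κ * w)))) := by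
            apply mul_le_mul_of_nonneg_left _ (by positivity)
            apply mul_le_mul _ hexp (by positivity) (by positivity)
            exact mul_le_mul_of_nonneg_left (hw n) hD
        _ = (D * (1 + |w|) * (S + R * Real.exp (-κ * w))) *
              (‖c n‖ * (1 + Real.log n) * (‖np n τ‖ * Real.exp (κ * Real.log n))) := by ring
        _ ≤ D * (1 + |w|) * (S + R * Real.exp (-κ * w)) * f n :=
            mul_le_mul_of_nonneg_left (hcf n) (by positivity)
    have hsE : Summable (fun n : ℕ => ‖∑' i, c n * np n τ * G (w - Real.log n) i‖) :=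
      Summable.of_nonneg_of_le (fun n => norm_nonneg _) hE (hf.mul_left _)
    calc ‖∑' n : ℕ, ∑' i, c n * np n τ * G (w - Real.log n) i‖
        ≤ ∑' n : ℕ, ‖∑' i, c n * np n τ * G (w - Real.log n) i‖ := norm_tsum_le_tsum_norm hsE
      _ ≤ ∑' n : ℕ, D * (1 + |w|) * (S + R * Real.exp (-κ * w)) * f n :=
          hsE.tsum_le_tsum hE (hf.mul_left _)
      _ = D * (1 + |w|) * (S + R * Real.exp (-κ * w)) * ∑' n, f n := tsum_mul_left
      _ ≤ D * (1 + |w|) * (S + R * Real.exp (-κ * w)) * B :=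
          mul_le_mul_of_nonneg_left hB (by positivity)
      _ = (D * B) * (1 + |w|) * (S + R * Real.exp (-κ * w)) := by ring


/-- The bound for the smooth sums at every scale. -/
private theorem TIL_KS : ∃ κ C : ℝ, 0 < κ ∧ κ ≤ 1 / 10 ∧ 1 ≤ C ∧ ∀ (j : ℕ) (L τ y : ℝ), j ≤ 1 →
    1 ≤ L → L ≤ |τ| → |τ| ≤ Real.exp (2 * L) →
    ‖KS j y τ‖ ≤ C * (1 + |y|) * (Real.exp (-L) + Real.exp (κ * L / 4) * Real.exp (-κ * y)) := by
  obtain ⟨κ, C, hκ, hκ1, hC, hb⟩ := KS_long 8
  obtain ⟨C1, hC1, htriv⟩ := KS_triv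
  refine ⟨κ, max C C1, hκ, hκ1, hC.trans (le_max_left _ _), ?_⟩
  intro j L τ y hj hL1 hLt hte
  rcases le_total (L / 4) y with hy | hy
  · have hy0 : 0 ≤ y := by linarith
    have h1 := hb j y τ hj hy0 (hte.trans (Real.exp_le_exp.2 (by linarith)))
    refine h1.trans ?_
    rw [abs_of_nonneg hy0]
    have h2 : Real.exp (-|τ|) ≤ Real.exp (-L) := Real.exp_le_exp.2 (by linarith)
    have h3 : Real.exp (-κ * y) ≤ Real.exp (κ * L / 4) * Real.exp (-κ * y) := by
      have : 1 ≤ Real.exp (κ * L / 4) := Real.one_le_exp (by positivity)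
      nlinarith [Real.exp_pos (-κ * y)]
    apply mul_le_mul _ (add_le_add h2 h3) (by positivity) (by positivity)
    exact mul_le_mul_of_nonneg_right (le_max_left _ _) (by linarith)
  · have h1 : ‖KS j y τ‖ ≤ C1 * (1 + |y|) := by
      unfold KS
      exact (norm_tsum_le_tsum_norm (htriv j y τ hj).1).trans (htriv j y τ hj).2
    have h2 : 1 ≤ Real.exp (κ * L / 4) * Real.exp (-κ * y) := by
      rw [← Real.exp_add]
      apply Real.one_le_exp
      nlinarith
    have h3 : 0 < Real.exp (-L) := Real.exp_pos _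
    calc ‖KS j y τ‖ ≤ C1 * (1 + |y|) := h1
      _ ≤ (max C C1 * (1 + |y|)) * 1 := by
          rw [mul_one]
          exact mul_le_mul_of_nonneg_right (le_max_right _ _) (by positivity)
      _ ≤ (max C C1 * (1 + |y|)) * (Real.exp (-L) + Real.exp (κ * L / 4) * Real.exp (-κ * y)) := by
          apply mul_le_mul_of_nonneg_left (by linarith)
          have : 0 ≤ max C C1 := by linarith [hC.trans (le_max_left C C1)]
          positivity

private theorem TIL_pair : ∃ κ C : ℝ, 0 < κ ∧ κ ≤ 1 / 10 ∧ 1 ≤ C ∧ ∀ (j : ℕ) (L U τ w : ℝ), j ≤ 1 →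
    0 ≤ U → 1 ≤ L → L ≤ |τ| → |τ| ≤ Real.exp (2 * L) →
    (Summable (fun q : ℕ × ℕ => ‖(((moebius q.1 : ℝ) * (1 - hM U (Real.log q.1)) : ℝ) : ℂ) * np q.1 τ *
        TILG j τ (w - Real.log q.1) q.2‖) ∧
      ∑' q : ℕ × ℕ, ‖(((moebius q.1 : ℝ) * (1 - hM U (Real.log q.1)) : ℝ) : ℂ) * np q.1 τ *
        TILG j τ (w - Real.log q.1) q.2‖ ≤ C * (1 + U) ^ 3 * Real.exp (2 * κ * U) * (1 + |w|)) ∧
    ‖∑' q : ℕ × ℕ, (((moebius q.1 : ℝ) * (1 - hM U (Real.log q.1)) : ℝ) : ℂ) * np q.1 τ *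
        TILG j τ (w - Real.log q.1) q.2‖ ≤
      C * (1 + U) ^ 3 * Real.exp (2 * κ * U) * (1 + |w|) *
        (Real.exp (-L) + Real.exp (κ * L / 4) * Real.exp (-κ * w)) := by
  obtain ⟨C, hC, hcut⟩ := TIL_cutk
  obtain ⟨C1, hC1, htriv⟩ := KS_triv
  obtain ⟨κ, C2, hκ, hκ1, hC2, hbd⟩ := TIL_KS
  refine ⟨κ, (C1 + C2) * C, hκ, hκ1, by nlinarith, ?_⟩
  intro j L U τ w hj hU hL1 hLt hte
  obtain ⟨hs, hle⟩ := hcut κ U (hM U) hκ.le hκ1 hU (fun x => by linarith [hM_le U x])
    (fun x => by linarith [hM_nonneg U x]) (fun x hx => hM_tail hx)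
  have hst := TIL_step (ι := ℕ) κ τ (Real.exp (-L)) (Real.exp (κ * L / 4)) C1 C2 hκ.le
    (Real.exp_pos _).le (Real.exp_pos _).le
    (by linarith) (by linarith) (TILG j τ) (fun w => htriv j w τ hj)
    (fun w => by
      have := hbd j L τ w hj hL1 hLt hte
      unfold KS at this
      unfold TILG
      exact this)
    (fun n => (((moebius n : ℝ) * (1 - hM U (Real.log n)) : ℝ) : ℂ)) _ hs
    (fun n => mul_le_mul (TIL_cM U n) (TIL_np_rp κ n τ) (by positivity)
      (mul_nonneg (by positivity) (by linarith [hM_le U (Real.log n)]))) _ hle w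
  have hP : 0 ≤ C * (1 + U) ^ 3 * Real.exp (2 * κ * U) := by positivity
  have hQ : 0 ≤ Real.exp (-L) + Real.exp (κ * L / 4) * Real.exp (-κ * w) := by positivity
  refine ⟨⟨hst.1.1, hst.1.2.trans ?_⟩, hst.2.trans ?_⟩
  · have : 0 ≤ C2 * (C * (1 + U) ^ 3 * Real.exp (2 * κ * U)) * (1 + |w|) := by positivity
    nlinarith
  · have : 0 ≤ C1 * (C * (1 + U) ^ 3 * Real.exp (2 * κ * U)) * (1 + |w|) *
        (Real.exp (-L) + Real.exp (κ * L / 4) * Real.exp (-κ * w)) := by positivity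
    nlinarith

private theorem TIL_X23 : ∃ κ C : ℝ, 0 < κ ∧ κ ≤ 1 / 10 ∧ 1 ≤ C ∧ ∀ L U τ : ℝ, 0 ≤ U → 1 ≤ L →
    L ≤ |τ| → |τ| ≤ Real.exp (2 * L) →
    ‖X2 L U τ‖ ≤ C * (1 + U) ^ 3 * Real.exp (2 * κ * U) * (1 + |L|) *
        (Real.exp (-L) + Real.exp (κ * L / 4) * Real.exp (-κ * L)) ∧
    ‖X3 L U τ‖ ≤ C * (1 + U) ^ 6 * Real.exp (4 * κ * U) * (1 + |L|) *
        (Real.exp (-L) + Real.exp (κ * L / 4) * Real.exp (-κ * L)) := by
  obtain ⟨κ, C, hκ, hκ1, hC, hp⟩ := TIL_pair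
  obtain ⟨C', hC', hcut⟩ := TIL_cutk
  refine ⟨κ, C * C', hκ, hκ1, by nlinarith, ?_⟩
  intro L U τ hU hL1 hLt hte
  have hQ : 0 ≤ Real.exp (-L) + Real.exp (κ * L / 4) * Real.exp (-κ * L) := by positivity
  refine ⟨?_, ?_⟩
  · have h := (hp 1 L U τ L le_rfl hU hL1 hLt hte).2
    have he : X2 L U τ = ∑' q : ℕ × ℕ, (((moebius q.1 : ℝ) * (1 - hM U (Real.log q.1)) : ℝ) : ℂ) *
        np q.1 τ * TILG 1 τ (L - Real.log q.1) q.2 := by
      unfold X2 TILG ps
      apply tsum_congr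
      intro q
      have : -(Real.log q.1 + Real.log q.2 - L) ^ 2 / 8 = -(Real.log q.2 - (L - Real.log q.1)) ^ 2 / 8 := by
        ring
      rw [this]
      push_cast
      ring
    rw [he]
    refine h.trans ?_
    apply mul_le_mul_of_nonneg_right _ hQ
    apply mul_le_mul_of_nonneg_right _ (by positivity)
    apply mul_le_mul_of_nonneg_right _ (by positivity)
    apply mul_le_mul_of_nonneg_right _ (by positivity)
    nlinarith
  · obtain ⟨hs, hle⟩ := hcut κ U (hL U) hκ.le hκ1 hU (fun x => by linarith [hL_le U x])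
      (fun x => by linarith [hL_nonneg U x]) (fun x hx => (hL_tail hx).trans (Real.exp_le_exp.2 (by
        nlinarith [sq_nonneg (x - U)])))
    have hst := TIL_step (ι := ℕ × ℕ) κ τ (Real.exp (-L)) (Real.exp (κ * L / 4))
      (C * (1 + U) ^ 3 * Real.exp (2 * κ * U))
      (C * (1 + U) ^ 3 * Real.exp (2 * κ * U)) hκ.le (Real.exp_pos _).le (Real.exp_pos _).le
      (by positivity) (by positivity)
      (fun w q => (((moebius q.1 : ℝ) * (1 - hM U (Real.log q.1)) : ℝ) : ℂ) * np q.1 τ *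
          TILG 0 τ (w - Real.log q.1) q.2)
      (fun w => (hp 0 L U τ w (by norm_num) hU hL1 hLt hte).1)
      (fun w => (hp 0 L U τ w (by norm_num) hU hL1 hLt hte).2)
      (fun n => ((vonMangoldt n * (1 - hL U (Real.log n)) : ℝ) : ℂ)) _ hs
      (fun n => mul_le_mul (TIL_cL U n) (TIL_np_rp κ n τ) (by positivity)
        (mul_nonneg (by positivity) (by linarith [hL_le U (Real.log n)]))) _ hle L
    have he : X3 L U τ = ∑' q : ℕ × (ℕ × ℕ), ((vonMangoldt q.1 * (1 - hL U (Real.log q.1)) : ℝ) : ℂ) *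
        np q.1 τ * ((((moebius q.2.1 : ℝ) * (1 - hM U (Real.log q.2.1)) : ℝ) : ℂ) * np q.2.1 τ *
          TILG 0 τ ((L - Real.log q.1) - Real.log q.2.1) q.2.2) := by
      unfold X3 TILG ps
      apply tsum_congr
      intro q
      have : -(Real.log q.1 + Real.log q.2.1 + Real.log q.2.2 - L) ^ 2 / 8 =
          -(Real.log q.2.2 - (L - Real.log q.1 - Real.log q.2.1)) ^ 2 / 8 := by
        ring
      rw [this]
      push_cast
      ring
    rw [he]
    refine hst.2.trans (le_of_eq ?_)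
    have : Real.exp (4 * κ * U) = Real.exp (2 * κ * U) * Real.exp (2 * κ * U) := by
      rw [← Real.exp_add]
      congr 1
      ring
    rw [this]
    ring

theorem typeI_long : ∃ κ L0 : ℝ, 0 < κ ∧ 1 ≤ L0 ∧ ∀ L τ : ℝ, L0 ≤ L → L ≤ |τ| → |τ| ≤ Real.exp (2 * L) →
    ‖ASI.P L τ - ASI.T4 L (L / 20) τ‖ ≤ Real.exp (-κ * L) := by
  obtain ⟨C1, hC1, h1⟩ := TIL_X1
  obtain ⟨κ, C2, hκ, hκ1, hC2, h2⟩ := TIL_X23
  have hlim : Filter.Tendsto (fun L : ℝ => (C1 + 4 * C2) * ((1 + L) ^ 7 *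
      Real.exp (-(κ / 4 * (1 + L))) * Real.exp (κ / 4))) Filter.atTop (nhds 0) := by
    have h0 := (Real.tendsto_pow_mul_exp_neg_atTop_nhds_zero 7)
    have h1 : Filter.Tendsto (fun L : ℝ => (κ / 4) * (1 + L)) Filter.atTop Filter.atTop :=
      (Filter.tendsto_atTop_add_const_left _ 1 Filter.tendsto_id).const_mul_atTop (by positivity)
    have h2 := (h0.comp h1).const_mul ((C1 + 4 * C2) * Real.exp (κ / 4) * (4 / κ) ^ 7)
    rw [mul_zero] at h2
    refine h2.congr (fun L => ?_)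
    simp only [Function.comp]
    have e : (κ / 4 * (1 + L)) ^ 7 * (4 / κ) ^ 7 = (1 + L) ^ 7 := by
      rw [← mul_pow]
      congr 1
      field_simp
    calc (C1 + 4 * C2) * Real.exp (κ / 4) * (4 / κ) ^ 7 *
        ((κ / 4 * (1 + L)) ^ 7 * Real.exp (-(κ / 4 * (1 + L))))
        = (C1 + 4 * C2) * (((κ / 4 * (1 + L)) ^ 7 * (4 / κ) ^ 7) *
          Real.exp (-(κ / 4 * (1 + L))) * Real.exp (κ / 4)) := by ring
      _ = _ := by rw [e]
  have hev := (hlim.eventually (gt_mem_nhds (show (0 : ℝ) < 1 by norm_num)))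
  obtain ⟨L0, hL0⟩ := Filter.eventually_atTop.1 hev
  refine ⟨κ / 4, max L0 1, by positivity, le_max_right _ _, ?_⟩
  intro L τ hLL hLt hte
  have hL1 : 1 ≤ L := (le_max_right _ _).trans hLL
  have hLL0 : L0 ≤ L := (le_max_left _ _).trans hLL
  have hU : 0 ≤ L / 20 := by positivity
  rw [vaughan hU]
  have e1 := h1 L (L / 20) τ hU
  obtain ⟨e2, e3⟩ := h2 L (L / 20) τ hU hL1 hLt hte
  have hLa : |L| = L := abs_of_pos (by linarith)
  rw [hLa] at e2 e3
  set E := Real.exp (-(κ / 2) * L) with hE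
  have hEpos : 0 < E := Real.exp_pos _
  have hUL : (1 + L / 20) ≤ 1 + L := by linarith
  have hp3 : (1 + L / 20) ^ 3 ≤ (1 + L) ^ 6 :=
    (pow_le_pow_left₀ (by positivity) hUL 3).trans (pow_le_pow_right₀ (by linarith) (by norm_num))
  have hp6 : (1 + L / 20) ^ 6 ≤ (1 + L) ^ 6 := pow_le_pow_left₀ (by positivity) hUL 6
  have hx1 : Real.exp (L / 20) * Real.exp (-L) ≤ E := by
    rw [← Real.exp_add]
    exact Real.exp_le_exp.2 (by nlinarith)
  have hx2 : ∀ t : ℝ, 0 ≤ t → t ≤ 4 * κ * (L / 20) →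
      Real.exp t * (Real.exp (-L) + Real.exp (κ * L / 4) * Real.exp (-κ * L)) ≤ 2 * E := by
    intro t _ ht
    rw [mul_add, ← Real.exp_add, ← Real.exp_add, ← Real.exp_add]
    have a1 : Real.exp (t + -L) ≤ E := Real.exp_le_exp.2 (by nlinarith)
    have a2 : Real.exp (t + (κ * L / 4 + -κ * L)) ≤ E := Real.exp_le_exp.2 (by nlinarith)
    linarith
  have b1 : ‖X1 L (L / 20) τ‖ ≤ C1 * ((1 + L) ^ 7 * E) := by
    calc _ ≤ C1 * (1 + L / 20) ^ 6 * Real.exp (L / 20) * Real.exp (-L) := e1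
      _ = C1 * ((1 + L / 20) ^ 6 * (Real.exp (L / 20) * Real.exp (-L))) := by ring
      _ ≤ C1 * ((1 + L) ^ 7 * E) := by
          apply mul_le_mul_of_nonneg_left _ (by linarith)
          apply mul_le_mul _ hx1 (by positivity) (by positivity)
          exact hp6.trans (pow_le_pow_right₀ (by linarith) (by norm_num))
  have b2 : ‖X2 L (L / 20) τ‖ ≤ C2 * (2 * ((1 + L) ^ 7 * E)) := by
    calc _ ≤ C2 * (1 + L / 20) ^ 3 * Real.exp (2 * κ * (L / 20)) * (1 + L) *
        (Real.exp (-L) + Real.exp (κ * L / 4) * Real.exp (-κ * L)) := e2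
      _ = C2 * (((1 + L / 20) ^ 3 * (1 + L)) * (Real.exp (2 * κ * (L / 20)) *
        (Real.exp (-L) + Real.exp (κ * L / 4) * Real.exp (-κ * L)))) := by ring
      _ ≤ C2 * (((1 + L) ^ 6 * (1 + L)) * (2 * E)) := by
          apply mul_le_mul_of_nonneg_left _ (by linarith)
          apply mul_le_mul _ (hx2 _ (by positivity) (by nlinarith)) (by positivity) (by positivity)
          exact mul_le_mul_of_nonneg_right hp3 (by linarith)
      _ = C2 * (2 * ((1 + L) ^ 7 * E)) := by ring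
  have b3 : ‖X3 L (L / 20) τ‖ ≤ C2 * (2 * ((1 + L) ^ 7 * E)) := by
    calc _ ≤ C2 * (1 + L / 20) ^ 6 * Real.exp (4 * κ * (L / 20)) * (1 + L) *
        (Real.exp (-L) + Real.exp (κ * L / 4) * Real.exp (-κ * L)) := e3
      _ = C2 * (((1 + L / 20) ^ 6 * (1 + L)) * (Real.exp (4 * κ * (L / 20)) *
        (Real.exp (-L) + Real.exp (κ * L / 4) * Real.exp (-κ * L)))) := by ring
      _ ≤ C2 * (((1 + L) ^ 6 * (1 + L)) * (2 * E)) := by
          apply mul_le_mul_of_nonneg_left _ (by linarith)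
          apply mul_le_mul _ (hx2 _ (by positivity) le_rfl) (by positivity) (by positivity)
          exact mul_le_mul_of_nonneg_right hp6 (by linarith)
      _ = C2 * (2 * ((1 + L) ^ 7 * E)) := by ring
  have hfin := hL0 L hLL0
  have hfin' : (C1 + 4 * C2) * ((1 + L) ^ 7 * Real.exp (-(κ / 4) * L)) ≤ 1 := by
    have e : Real.exp (-(κ / 4 * (1 + L))) * Real.exp (κ / 4) = Real.exp (-(κ / 4) * L) := by
      rw [← Real.exp_add]
      congr 1
      ring
    have := hfin.le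
    rw [mul_assoc ((1 + L) ^ 7), e] at this
    exact this
  have hEe : E = Real.exp (-(κ / 4) * L) * Real.exp (-(κ / 4) * L) := by
    rw [hE, ← Real.exp_add]
    congr 1
    ring
  calc ‖X1 L (L / 20) τ + X2 L (L / 20) τ - X3 L (L / 20) τ + T4 L (L / 20) τ - T4 L (L / 20) τ‖
      = ‖X1 L (L / 20) τ + X2 L (L / 20) τ - X3 L (L / 20) τ‖ := by
        congr 1
        ring
    _ ≤ ‖X1 L (L / 20) τ‖ + ‖X2 L (L / 20) τ‖ + ‖X3 L (L / 20) τ‖ :=
        (norm_sub_le _ _).trans (add_le_add (norm_add_le _ _) le_rfl)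
    _ ≤ C1 * ((1 + L) ^ 7 * E) + C2 * (2 * ((1 + L) ^ 7 * E)) + C2 * (2 * ((1 + L) ^ 7 * E)) :=
        add_le_add (add_le_add b1 b2) b3
    _ = ((C1 + 4 * C2) * ((1 + L) ^ 7 * Real.exp (-(κ / 4) * L))) * Real.exp (-(κ / 4) * L) := by
        rw [hEe]
        ring
    _ ≤ 1 * Real.exp (-(κ / 4) * L) := mul_le_mul_of_nonneg_right hfin' (Real.exp_pos _).le
    _ = Real.exp (-(κ / 4) * L) := one_mul _

end RLC
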