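import Pool.Agent.RLC.LVT
import Pool.Agent.RLC.TypeIL
import Pool.Agent.RLC.PPt

/-!
# RLC.LVP: large values of the sum over the primes

PROOF. `κ` from `typeI_long`, `δ1`, `C` from `T4_lv`, `δ = min κ δ1 / 2`. Let `S` be the set in the statement. On
`S ∩ {|τ| ≤ L}`: `‖DP‖² ≤ L^(-2A')` (`P_point2 A'`), so this part is at most `2L · L^(-2A')`. On `S ∩ {|τ| > L}`:
`DP = (P - T4) + T4 - mainT`, `‖P - T4‖ ≤ exp(-κL)`, `‖mainT‖ ≤ 6 exp(-2τ²) ≤ exp(-κL)` for large `L`, and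
`2 exp(-κL) ≤ exp(-δL)/2 ≤ ‖DP‖/2`, so `‖T4‖ ≥ ‖DP‖/2 ≥ exp(-δL)/2 ≥ exp(-δ1 L)` and `‖DP‖ ≤ 2 ‖T4‖`; hence
`∫ ‖DP‖² ≤ L^(-A') ∫ 2 ‖T4‖ ≤ 2C L^(20-A')`. Take `A' = |A| + 23`. (`DP` is continuous: `ASI.P_cont`; the sets are bounded,
so everything is integrable. The set `E` for `T4_lv` is `S ∩ {|τ| > L}`.)
-/

namespace RLC

open MeasureTheory

private theorem LVP_main_cont (L : ℝ) : Continuous (ASI.mainT L) := by
  unfold ASI.mainT
  fun_prop

private theorem LVP_T4_meas (L U : ℝ) : StronglyMeasurable (fun τ : ℝ => ASI.T4 L U τ) := by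
  simp only [ASI.T4_eq]
  obtain ⟨h1, h2⟩ := ASI.AsBs_cont U
  refine StronglyMeasurable.const_mul ?_ _
  have g1 : Continuous (fun q : ℝ × ℝ => (q.2, q.1)) := continuous_snd.prodMk continuous_fst
  have g2 : Continuous (fun q : ℝ × ℝ => (L - q.2, q.1)) :=
    (continuous_const.sub continuous_snd).prodMk continuous_fst
  have k1 := Continuous.comp (f := fun q : ℝ × ℝ => (q.2, q.1))
    (g := fun q : ℝ × ℝ => ASI.As U q.1 q.2) h1 g1
  have k2 := Continuous.comp (f := fun q : ℝ × ℝ => (L - q.2, q.1))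
    (g := fun q : ℝ × ℝ => ASI.Bs U q.1 q.2) h2 g2
  have hc : Continuous (fun q : ℝ × ℝ => ASI.As U q.2 q.1 * ASI.Bs U (L - q.2) q.1) := k1.mul k2
  exact hc.stronglyMeasurable.integral_prod_right
    (f := fun τ c => ASI.As U c τ * ASI.Bs U (L - c) τ)

private theorem LVP_main_norm (L τ : ℝ) : ‖ASI.mainT L τ‖ ≤ 6 * Real.exp (-2 * τ ^ 2) := by
  unfold ASI.mainT
  have h1 : ‖Complex.exp (-(τ * L * Complex.I))‖ = 1 := by
    rw [Complex.norm_exp]
    simp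
  rw [norm_mul, h1, mul_one, norm_mul, Complex.norm_real, Complex.norm_real,
    Real.norm_of_nonneg (Real.sqrt_nonneg _), Real.norm_of_nonneg (Real.exp_pos _).le]
  refine mul_le_mul_of_nonneg_right ?_ (Real.exp_pos _).le
  rw [Real.sqrt_le_left (by norm_num)]
  have := Real.pi_le_four
  linarith

private theorem LVP_DP_cont (L : ℝ) : Continuous (DP L) := by
  unfold DP
  exact (ASI.P_cont L).sub (LVP_main_cont L)

/-- the pointwise comparison of `DP` and `T4` -/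
private theorem LVP_comp {κ δ1 δ L τ : ℝ} (hκ : 0 < κ) (hδ : 0 < δ) (h1 : 2 * δ ≤ κ)
    (h2 : 2 * δ ≤ δ1) (hL : 2 ≤ L) (hLκ : κ ≤ L) (hLδ : 2 ≤ δ * L) (hτ : L ≤ |τ|)
    (hP : ‖ASI.P L τ - ASI.T4 L (L / 20) τ‖ ≤ Real.exp (-κ * L))
    (hD : Real.exp (-δ * L) < ‖DP L τ‖) :
    Real.exp (-δ1 * L) ≤ ‖ASI.T4 L (L / 20) τ‖ ∧ ‖DP L τ‖ ≤ 2 * ‖ASI.T4 L (L / 20) τ‖ := by
  have e2 : (6 : ℝ) ≤ Real.exp 2 := by
    have h := Real.exp_one_gt_d9
    have : Real.exp 2 = Real.exp 1 * Real.exp 1 := by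
      rw [← Real.exp_add]
      norm_num
    rw [this]
    nlinarith
  have hτ2 : L ^ 2 ≤ τ ^ 2 := by
    rw [← sq_abs τ]
    exact pow_le_pow_left₀ (by linarith) hτ 2
  have hm : ‖ASI.mainT L τ‖ ≤ Real.exp (-κ * L) := by
    refine (LVP_main_norm L τ).trans ?_
    calc 6 * Real.exp (-2 * τ ^ 2) ≤ Real.exp 2 * Real.exp (-2 * τ ^ 2) :=
          mul_le_mul_of_nonneg_right e2 (Real.exp_pos _).le
      _ = Real.exp (2 + -2 * τ ^ 2) := (Real.exp_add _ _).symm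
      _ ≤ Real.exp (-κ * L) := by
          apply Real.exp_le_exp.mpr
          nlinarith
  have h4 : 4 * Real.exp (-κ * L) ≤ Real.exp (-δ * L) := by
    calc 4 * Real.exp (-κ * L) ≤ Real.exp 2 * Real.exp (-κ * L) :=
          mul_le_mul_of_nonneg_right (by linarith) (Real.exp_pos _).le
      _ = Real.exp (2 + -κ * L) := (Real.exp_add _ _).symm
      _ ≤ Real.exp (-δ * L) := by
          apply Real.exp_le_exp.mpr
          nlinarith
  have h5 : 2 * Real.exp (-δ1 * L) ≤ Real.exp (-δ * L) := by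
    calc 2 * Real.exp (-δ1 * L) ≤ Real.exp 2 * Real.exp (-δ1 * L) :=
          mul_le_mul_of_nonneg_right (by linarith) (Real.exp_pos _).le
      _ = Real.exp (2 + -δ1 * L) := (Real.exp_add _ _).symm
      _ ≤ Real.exp (-δ * L) := by
          apply Real.exp_le_exp.mpr
          nlinarith
  have h6 : ‖DP L τ‖ ≤ ‖ASI.P L τ - ASI.T4 L (L / 20) τ‖ + ‖ASI.T4 L (L / 20) τ‖ +
      ‖ASI.mainT L τ‖ := by
    have e : DP L τ = (ASI.P L τ - ASI.T4 L (L / 20) τ) + ASI.T4 L (L / 20) τ -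
        ASI.mainT L τ := by
      unfold DP
      ring
    rw [e]
    exact (norm_sub_le _ _).trans (add_le_add (norm_add_le _ _) le_rfl)
  constructor
  · linarith
  · linarith

private theorem LVP_T4_le {κ L τ : ℝ} (hκ : 0 < κ) (hL : 0 < L)
    (hP : ‖ASI.P L τ - ASI.T4 L (L / 20) τ‖ ≤ Real.exp (-κ * L)) :
    ‖ASI.T4 L (L / 20) τ‖ ≤ ‖ASI.P L τ‖ + 1 := by
  have h1 : Real.exp (-κ * L) ≤ 1 := Real.exp_le_one_iff.mpr (by nlinarith)
  calc ‖ASI.T4 L (L / 20) τ‖ = ‖ASI.P L τ - (ASI.P L τ - ASI.T4 L (L / 20) τ)‖ := by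
        congr 1
        ring
    _ ≤ ‖ASI.P L τ‖ + ‖ASI.P L τ - ASI.T4 L (L / 20) τ‖ := norm_sub_le _ _
    _ ≤ ‖ASI.P L τ‖ + 1 := by linarith

theorem P_lv : ∃ δ : ℝ, 0 < δ ∧ δ ≤ 1 / 10 ∧ ∀ A : ℝ, ∃ L0 : ℝ, 1 ≤ L0 ∧ ∀ L : ℝ, L0 ≤ L →
    ∫ τ in {τ : ℝ | |τ| ≤ Real.exp (2 * L) ∧ Real.exp (-δ * L) < ‖DP L τ‖}, ‖DP L τ‖ ^ 2 ≤ L ^ (-A) := by
  obtain ⟨κ, L1, hκ, hL1, H1⟩ := typeI_long
  obtain ⟨δ1, C, L2, hδ1, hC, hL2, H2⟩ := T4_lv
  set δ : ℝ := min (min κ δ1 / 2) (1 / 10) with hδdef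
  have hδ : 0 < δ := lt_min (by have := lt_min hκ hδ1; linarith) (by norm_num)
  have hδκ : 2 * δ ≤ κ := by
    have h1 : δ ≤ min κ δ1 / 2 := min_le_left _ _
    have h2 : min κ δ1 ≤ κ := min_le_left _ _
    linarith
  have hδδ : 2 * δ ≤ δ1 := by
    have h1 : δ ≤ min κ δ1 / 2 := min_le_left _ _
    have h2 : min κ δ1 ≤ δ1 := min_le_right _ _
    linarith
  refine ⟨δ, hδ, min_le_right _ _, fun A => ?_⟩
  obtain ⟨L3, hL3, H3⟩ := P_point2 (|A| + 23)
  refine ⟨max (max (max L1 L2) (max L3 κ)) (max (2 / δ) (4 * C)), ?_, fun L hL => ?_⟩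
  · exact hL1.trans ((le_max_left _ _).trans ((le_max_left _ _).trans (le_max_left _ _)))
  have hLL1 : L1 ≤ L :=
    ((le_max_left _ _).trans ((le_max_left _ _).trans (le_max_left _ _))).trans hL
  have hLL2 : L2 ≤ L :=
    ((le_max_right _ _).trans ((le_max_left _ _).trans (le_max_left _ _))).trans hL
  have hLL3 : L3 ≤ L :=
    ((le_max_left _ _).trans ((le_max_right _ _).trans (le_max_left _ _))).trans hL
  have hLκ : κ ≤ L :=
    ((le_max_right _ _).trans ((le_max_right _ _).trans (le_max_left _ _))).trans hL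
  have hLδ' : 2 / δ ≤ L := ((le_max_left _ _).trans (le_max_right _ _)).trans hL
  have hLC : 4 * C ≤ L := ((le_max_right _ _).trans (le_max_right _ _)).trans hL
  have hLδ : 2 ≤ δ * L := by
    rw [div_le_iff₀ hδ] at hLδ'
    linarith
  have hL4 : 4 ≤ L := by linarith
  have hLp : 0 < L := by linarith
  have hLge1 : 1 ≤ L := by linarith
  set T := Real.exp (2 * L) with hT
  have hTL : L ≤ T := by
    have := Real.add_one_le_exp (2 * L)
    linarith
  set f : ℝ → ℝ := fun τ => ‖DP L τ‖ ^ 2 with hf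
  have hfc : Continuous f := (LVP_DP_cont L).norm.pow 2
  have hf0 : ∀ τ, 0 ≤ f τ := fun τ => by
    rw [hf]
    positivity
  set S : Set ℝ := {τ : ℝ | |τ| ≤ T ∧ Real.exp (-δ * L) < ‖DP L τ‖} with hS
  have hSm : MeasurableSet S :=
    (measurableSet_le measurable_abs measurable_const).inter
      (measurableSet_lt measurable_const (LVP_DP_cont L).norm.measurable)
  have hSsub : S ⊆ Set.Icc (-T) T := fun τ hτ => abs_le.mp hτ.1
  have hfI : IntegrableOn f (Set.Icc (-T) T) := hfc.continuousOn.integrableOn_Icc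
  have hfS : IntegrableOn f S := hfI.mono_set hSsub
  have hsplit := integral_inter_add_sdiff (μ := (volume : Measure ℝ)) (f := f)
    (measurableSet_Icc (a := -L) (b := L)) hfS
  show ∫ τ in S, f τ ≤ L ^ (-A)
  rw [← hsplit]
  set B : ℝ := |A| + 23 with hB
  have hLB : 0 < L ^ (-B) := Real.rpow_pos_of_pos hLp _
  have hLB1 : L ^ (-B) ≤ 1 := by
    refine Real.rpow_le_one_of_one_le_of_nonpos hLge1 ?_
    have := abs_nonneg A
    linarith
  have hLA : 0 < L ^ (-A) := Real.rpow_pos_of_pos hLp _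
  have hpow : L ^ (-B) * L ^ 23 ≤ L ^ (-A) := by
    have e : L ^ (-B) * L ^ 23 = L ^ (-|A|) := by
      rw [← Real.rpow_natCast L 23, ← Real.rpow_add hLp]
      congr 1
      rw [hB]
      push_cast
      ring
    rw [e]
    refine Real.rpow_le_rpow_of_exponent_le hLge1 ?_
    have := le_abs_self A
    linarith
  -- the small `τ`
  have hsmall : ∫ τ in S ∩ Set.Icc (-L) L, f τ ≤ 2 * L * L ^ (-B) := by
    have h1 : ∫ τ in S ∩ Set.Icc (-L) L, f τ ≤ ∫ τ in Set.Icc (-L) L, f τ :=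
      setIntegral_mono_set hfc.continuousOn.integrableOn_Icc
        (Filter.Eventually.of_forall fun τ => hf0 τ)
        (Filter.Eventually.of_forall fun τ hτ => hτ.2)
    have h2 : ∫ τ in Set.Icc (-L) L, f τ ≤ ∫ τ in Set.Icc (-L) L, L ^ (-B) := by
      refine setIntegral_mono_on hfc.continuousOn.integrableOn_Icc
        (continuous_const.continuousOn.integrableOn_Icc) measurableSet_Icc fun τ hτ => ?_
      have h3 : |τ| ≤ T := (abs_le.mpr hτ).trans hTL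
      have h4 := H3 L τ hLL3 h3
      have h5 : ‖DP L τ‖ ^ 2 ≤ L ^ (-B) * 1 := by
        rw [pow_two]
        exact mul_le_mul h4 (h4.trans hLB1) (norm_nonneg _) hLB.le
      rw [mul_one] at h5
      exact h5
    refine h1.trans (h2.trans (le_of_eq ?_))
    rw [setIntegral_const, smul_eq_mul, Real.volume_real_Icc_of_le (by linarith)]
    ring
  -- the large `τ`
  have hlarge : ∫ τ in S \ Set.Icc (-L) L, f τ ≤ 2 * L ^ (-B) * (C * L ^ 20) := by
    set E : Set ℝ := S \ Set.Icc (-L) L with hE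
    have hEm : MeasurableSet E := hSm.diff measurableSet_Icc
    have hEsub : E ⊆ Set.Icc (-T) T := fun τ hτ => hSsub hτ.1
    have hEL : ∀ τ ∈ E, L ≤ |τ| := fun τ hτ => by
      by_contra h
      push Not at h
      exact hτ.2 (abs_le.mp h.le)
    have hET : ∀ τ ∈ E, |τ| ≤ T := fun τ hτ => hτ.1.1
    have hPT : ∀ τ ∈ E, ‖ASI.P L τ - ASI.T4 L (L / 20) τ‖ ≤ Real.exp (-κ * L) :=
      fun τ hτ => H1 L τ hLL1 (hEL τ hτ) (hET τ hτ)
    have hcomp : ∀ τ ∈ E, Real.exp (-δ1 * L) ≤ ‖ASI.T4 L (L / 20) τ‖ ∧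
        ‖DP L τ‖ ≤ 2 * ‖ASI.T4 L (L / 20) τ‖ := fun τ hτ =>
      LVP_comp hκ hδ hδκ hδδ (by linarith) hLκ hLδ (hEL τ hτ) (hPT τ hτ) hτ.1.2
    obtain ⟨B0, hB0⟩ := (isCompact_Icc (a := -T) (b := T)).exists_bound_of_continuousOn
      (ASI.P_cont L).continuousOn
    have hvolE : volume E < ⊤ := (measure_mono hEsub).trans_lt measure_Icc_lt_top
    have hT4int : IntegrableOn (fun τ => ‖ASI.T4 L (L / 20) τ‖) E := by
      refine Measure.integrableOn_of_bounded hvolE.ne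
        ((LVP_T4_meas L (L / 20)).norm.aestronglyMeasurable) (M := B0 + 1) ?_
      refine (ae_restrict_iff' hEm).mpr (Filter.Eventually.of_forall fun τ hτ => ?_)
      rw [Real.norm_of_nonneg (norm_nonneg _)]
      refine (LVP_T4_le hκ hLp (hPT τ hτ)).trans ?_
      have := hB0 τ (hEsub hτ)
      linarith
    have h2 := H2 L hLL2 E hEm fun τ hτ => ⟨hET τ hτ, (hcomp τ hτ).1⟩
    have h3 : ∫ τ in E, f τ ≤ ∫ τ in E, 2 * L ^ (-B) * ‖ASI.T4 L (L / 20) τ‖ := by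
      refine setIntegral_mono_on (hfI.mono_set hEsub) (hT4int.const_mul _) hEm fun τ hτ => ?_
      have h4 := H3 L τ hLL3 (hET τ hτ)
      have h5 := (hcomp τ hτ).2
      have h6 : ‖DP L τ‖ ^ 2 ≤ L ^ (-B) * (2 * ‖ASI.T4 L (L / 20) τ‖) := by
        rw [pow_two]
        exact mul_le_mul h4 h5 (norm_nonneg _) hLB.le
      calc f τ ≤ L ^ (-B) * (2 * ‖ASI.T4 L (L / 20) τ‖) := h6
        _ = 2 * L ^ (-B) * ‖ASI.T4 L (L / 20) τ‖ := by ring
    rw [integral_const_mul] at h3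
    exact h3.trans (mul_le_mul_of_nonneg_left h2 (by positivity))
  refine (add_le_add hsmall hlarge).trans ?_
  have hL22 : (4 : ℝ) ≤ L ^ 22 := hL4.trans (le_self_pow₀ hLge1 (by norm_num))
  have hL2' : (1 : ℝ) ≤ L ^ 2 := one_le_pow₀ hLge1
  have hL20 : (0 : ℝ) < L ^ 20 := by positivity
  have a1 : 2 * L ≤ L ^ 23 / 2 := by
    have : L ^ 23 = L * L ^ 22 := by ring
    rw [this]
    nlinarith
  have a2 : 2 * (C * L ^ 20) ≤ L ^ 23 / 2 := by
    have e : L ^ 23 = L * L ^ 2 * L ^ 20 := by ring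
    rw [e]
    have : 4 * C ≤ L * L ^ 2 := hLC.trans (le_mul_of_one_le_right hLp.le hL2')
    nlinarith
  calc 2 * L * L ^ (-B) + 2 * L ^ (-B) * (C * L ^ 20)
      = L ^ (-B) * (2 * L + 2 * (C * L ^ 20)) := by ring
    _ ≤ L ^ (-B) * L ^ 23 := mul_le_mul_of_nonneg_left (by linarith) hLB.le
    _ ≤ L ^ (-A) := hpow

end RLC
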