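import Pool.Agent.RLC.Defs

/-!
# RLC.Low: the factors of the type II sum are tiny for small lengths

PROOF. `U = L/20`, `c ≤ L/40 = U/2`. If `c ≤ -20L`: by `ASI.As_tail`, `‖As U c τ‖ ≤ C exp(-c²/16) ≤ exp(-L-|c|)` for large
`L`. Let `-20L < c ≤ U/2`, so that `exp(-L-|c|) ≥ exp(-21L)`. Terms with `log m ≤ 3U/4`:
`hL U (log m) ≤ exp(-(U-log m)²/4)` for `log m ≤ U` (same proof as `ASI.hL_tail`, by symmetry of the Gaussian: `hL U x =
(1/√(4π)) ∫_{w>U} exp(-(x-w)²/4) dw` and `(w-x)² ≥ (w-U)² + (U-x)²` for `w ≥ U ≥ x`) `≤ exp(-U²/64)`. Terms with `log m > 3U/4`: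
`(log m - c)² ≥ U²/16`, so `exp(-(log m-c)²/4) ≤ exp(-U²/128) exp(-(log m-c)²/8)`. With `ASI.div_gauss`
(`Λ(m) ≤ log m`) the sum is at most `2 exp(-L²/51200) C (1+|c|)^6 ≤ exp(-21L)` for large `L`.
The same for `Bs`: `|bt U k| ≤ d(k) exp(-U²/128)` for `log k ≤ 3U/4` (all divisors `d` of `k` satisfy `log d ≤ 3U/4`, and
`hM U x ≤ exp(-(U-x)²/8)` for `x ≤ U`), and `|bt U k| ≤ d(k)` in general (`ASI.bt_le`).
-/

namespace RLC

private theorem Low_gs_int {c : ℝ} (hc : 0 < c) (x : ℝ) :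
    ∫ w : ℝ, Real.exp (-(x - w) ^ 2 / c) = Real.sqrt (c * Real.pi) := by
  have h := MeasureTheory.integral_sub_left_eq_self (fun w : ℝ => Real.exp (-w ^ 2 / c))
    (MeasureTheory.volume) x
  rw [h]
  have h2 := integral_gaussian (1 / c)
  have h3 : (fun w : ℝ => Real.exp (-w ^ 2 / c)) = fun w : ℝ => Real.exp (-(1 / c) * w ^ 2) := by
    funext w
    congr 1
    ring
  rw [h3, h2]
  congr 1
  field_simp

private theorem Low_gs_integrable {c : ℝ} (hc : 0 < c) (x : ℝ) :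
    MeasureTheory.Integrable (fun w : ℝ => Real.exp (-(x - w) ^ 2 / c)) := by
  have h := (integrable_exp_neg_mul_sq (b := 1 / c) (by positivity)).comp_sub_left x
  refine h.congr (Filter.Eventually.of_forall fun w => ?_)
  simp only
  congr 1
  ring

private theorem Low_gs_Ioi_le {c : ℝ} (hc : 0 < c) {U x : ℝ} (h : x ≤ U) :
    (1 / Real.sqrt (c * Real.pi)) * ∫ w in Set.Ioi U, Real.exp (-(x - w) ^ 2 / c) ≤
      Real.exp (-(U - x) ^ 2 / c) := by
  have hs : 0 < Real.sqrt (c * Real.pi) := Real.sqrt_pos.2 (by positivity)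
  have h1 : ∫ w in Set.Ioi U, Real.exp (-(x - w) ^ 2 / c) ≤
      ∫ w in Set.Ioi U, Real.exp (-(U - x) ^ 2 / c) * Real.exp (-(U - w) ^ 2 / c) := by
    refine MeasureTheory.setIntegral_mono_on (Low_gs_integrable hc x).integrableOn
      ((Low_gs_integrable hc U).const_mul _).integrableOn measurableSet_Ioi ?_
    intro w hw
    rw [← Real.exp_add]
    apply Real.exp_le_exp.2
    rw [← add_div]
    apply div_le_div_of_nonneg_right _ hc.le
    have hw' : U < w := hw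
    nlinarith [mul_nonneg (sub_nonneg.2 h) (sub_nonneg.2 hw'.le)]
  have h2 : ∫ w in Set.Ioi U, Real.exp (-(U - w) ^ 2 / c) ≤ Real.sqrt (c * Real.pi) := by
    rw [← Low_gs_int hc U]
    exact MeasureTheory.setIntegral_le_integral (Low_gs_integrable hc U)
      (Filter.Eventually.of_forall fun w => (Real.exp_pos _).le)
  rw [MeasureTheory.integral_const_mul] at h1
  calc (1 / Real.sqrt (c * Real.pi)) * ∫ w in Set.Ioi U, Real.exp (-(x - w) ^ 2 / c)
      ≤ (1 / Real.sqrt (c * Real.pi)) * (Real.exp (-(U - x) ^ 2 / c) * Real.sqrt (c * Real.pi)) := by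
        apply mul_le_mul_of_nonneg_left _ (by positivity)
        exact h1.trans (mul_le_mul_of_nonneg_left h2 (Real.exp_pos _).le)
    _ = Real.exp (-(U - x) ^ 2 / c) := by field_simp

private theorem Low_hL {U x : ℝ} (hU : 0 ≤ U) (h : x ≤ 3 * U / 4) :
    ASI.hL U x ≤ Real.exp (-U ^ 2 / 128) := by
  have h1 : ASI.hL U x ≤ Real.exp (-(U - x) ^ 2 / 4) :=
    Low_gs_Ioi_le (by norm_num : (0 : ℝ) < 4) (by linarith)
  refine h1.trans (Real.exp_le_exp.2 ?_)
  have h2 : U / 4 ≤ U - x := by linarith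
  have h3 : (U / 4) ^ 2 ≤ (U - x) ^ 2 := pow_le_pow_left₀ (by linarith) h2 2
  nlinarith [sq_nonneg U]

private theorem Low_hM {U x : ℝ} (hU : 0 ≤ U) (h : x ≤ 3 * U / 4) :
    ASI.hM U x ≤ Real.exp (-U ^ 2 / 128) := by
  have h1 : ASI.hM U x ≤ Real.exp (-(U - x) ^ 2 / 8) :=
    Low_gs_Ioi_le (by norm_num : (0 : ℝ) < 8) (by linarith)
  refine h1.trans (Real.exp_le_exp.2 ?_)
  have h2 : U / 4 ≤ U - x := by linarith
  have h3 : (U / 4) ^ 2 ≤ (U - x) ^ 2 := pow_le_pow_left₀ (by linarith) h2 2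
  nlinarith [sq_nonneg U]

private noncomputable def Low_W (n : ℕ) : ℝ := (n.divisors.card : ℝ) ^ 2 * (1 + Real.log n) ^ 2 / n

private theorem Low_W_nonneg (n : ℕ) : 0 ≤ Low_W n := by
  unfold Low_W; positivity

private theorem Low_np_norm (n : ℕ) (τ : ℝ) : ‖ASI.np n τ‖ = ((n : ℝ))⁻¹ := by
  unfold ASI.np
  rcases Nat.eq_zero_or_pos n with h | h
  · subst h
    have hne : (-(1 + (τ : ℂ) * Complex.I)) ≠ 0 := by
      intro h0
      have := congrArg Complex.re h0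
      simp at this
    simp only [Nat.cast_zero, inv_zero]
    rw [Complex.zero_cpow hne, norm_zero]
  · rw [Complex.norm_natCast_cpow_of_pos h]
    have : (-(1 + (τ : ℂ) * Complex.I)).re = -1 := by simp
    rw [this, Real.rpow_neg_one]

private theorem Low_one_le_card {n : ℕ} (hn : 0 < n) : (1 : ℝ) ≤ (n.divisors.card : ℝ) := by
  have : 1 ≤ n.divisors.card := Finset.card_pos.mpr ⟨1, Nat.one_mem_divisors.mpr hn.ne'⟩
  exact_mod_cast this

/-- The generic estimate. -/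
private theorem Low_gen (e : ℝ → ℕ → ℝ)
    (he : ∀ U n, |e U n| ≤ (n.divisors.card : ℝ) ^ 2 * (1 + Real.log n) ^ 2)
    (he2 : ∀ U : ℝ, ∀ n : ℕ, 0 ≤ U → Real.log n ≤ 3 * U / 4 →
      |e U n| ≤ (n.divisors.card : ℝ) ^ 2 * (1 + Real.log n) ^ 2 * Real.exp (-U ^ 2 / 128)) :
    ∃ L0 : ℝ, 1 ≤ L0 ∧ ∀ L c τ : ℝ, L0 ≤ L → c ≤ L / 40 → -(20 * L) ≤ c →
      ‖gse (e (L / 20)) c τ‖ ≤ Real.exp (-L - |c|) := by
  obtain ⟨C, hC1, hC⟩ := ASI.div_gauss
  have hlog : 0 ≤ Real.log (720 * C) := Real.log_nonneg (by linarith)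
  refine ⟨51200 * (43 + Real.log (720 * C)), by nlinarith, ?_⟩
  intro L c τ hL hc hc2
  have hL1 : 1 ≤ L := by nlinarith
  obtain ⟨hs, hb, -⟩ := hC c
  have hW : ∀ n : ℕ, (n.divisors.card : ℝ) ^ 2 * (1 + Real.log n) ^ 2 / n *
      Real.exp (-(Real.log n - c) ^ 2 / 16) = Low_W n * Real.exp (-(Real.log n - c) ^ 2 / 16) :=
    fun n => rfl
  simp only [hW] at hs hb
  set U := L / 20 with hUdef
  have hU0 : 0 ≤ U := by rw [hUdef]; linarith
  have hterm : ∀ n : ℕ, ‖((e U n : ℝ) : ℂ) * ASI.np n τ *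
      ((Real.exp (-(Real.log n - c) ^ 2 / 4) : ℝ) : ℂ)‖ ≤
      Real.exp (-U ^ 2 / 128) * (Low_W n * Real.exp (-(Real.log n - c) ^ 2 / 16)) := by
    intro n
    rw [norm_mul, norm_mul, Low_np_norm, Complex.norm_real, Complex.norm_real, Real.norm_eq_abs,
      Real.norm_eq_abs, abs_of_nonneg (Real.exp_pos _).le]
    have hninv : 0 ≤ ((n : ℝ))⁻¹ := by positivity
    rcases le_or_gt (Real.log n) (3 * U / 4) with h | h
    · have h1 := he2 U n hU0 h
      have h2 : Real.exp (-(Real.log n - c) ^ 2 / 4) ≤ Real.exp (-(Real.log n - c) ^ 2 / 16) := by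
        apply Real.exp_le_exp.2
        nlinarith [sq_nonneg (Real.log n - c)]
      calc |e U n| * ((n : ℝ))⁻¹ * Real.exp (-(Real.log n - c) ^ 2 / 4)
          ≤ ((n.divisors.card : ℝ) ^ 2 * (1 + Real.log n) ^ 2 * Real.exp (-U ^ 2 / 128)) *
              ((n : ℝ))⁻¹ * Real.exp (-(Real.log n - c) ^ 2 / 16) := by
            apply mul_le_mul _ h2 (Real.exp_pos _).le (by positivity)
            exact mul_le_mul_of_nonneg_right h1 hninv
        _ = _ := by unfold Low_W; rw [div_eq_mul_inv]; ring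
    · have h1 := he U n
      have h2 : Real.exp (-(Real.log n - c) ^ 2 / 4) ≤
          Real.exp (-U ^ 2 / 128) * Real.exp (-(Real.log n - c) ^ 2 / 16) := by
        rw [← Real.exp_add]
        apply Real.exp_le_exp.2
        have h3 : U / 4 ≤ Real.log n - c := by
          have : c ≤ U / 2 := by rw [hUdef]; linarith
          linarith
        have h4 : (U / 4) ^ 2 ≤ (Real.log n - c) ^ 2 := pow_le_pow_left₀ (by linarith) h3 2
        nlinarith [sq_nonneg (Real.log n - c)]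
      calc |e U n| * ((n : ℝ))⁻¹ * Real.exp (-(Real.log n - c) ^ 2 / 4)
          ≤ ((n.divisors.card : ℝ) ^ 2 * (1 + Real.log n) ^ 2) *
              ((n : ℝ))⁻¹ * (Real.exp (-U ^ 2 / 128) * Real.exp (-(Real.log n - c) ^ 2 / 16)) := by
            apply mul_le_mul _ h2 (Real.exp_pos _).le (by positivity)
            exact mul_le_mul_of_nonneg_right h1 hninv
        _ = _ := by unfold Low_W; rw [div_eq_mul_inv]; ring
  have hs2 := hs.mul_left (Real.exp (-U ^ 2 / 128))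
  have hsum : Summable (fun n : ℕ => ‖((e U n : ℝ) : ℂ) * ASI.np n τ *
      ((Real.exp (-(Real.log n - c) ^ 2 / 4) : ℝ) : ℂ)‖) :=
    Summable.of_nonneg_of_le (fun n => norm_nonneg _) hterm hs2
  have habs : |c| ≤ 20 * L := abs_le.2 ⟨hc2, by linarith⟩
  have h6 : (1 + |c|) ^ 6 ≤ 720 * Real.exp (1 + 20 * L) := by
    have h1 : (1 + |c|) ^ 6 ≤ (1 + 20 * L) ^ 6 :=
      pow_le_pow_left₀ (by positivity) (by linarith) 6
    have h2 : (1 + 20 * L) ^ 6 / (Nat.factorial 6 : ℝ) ≤ Real.exp (1 + 20 * L) :=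
      Real.pow_div_factorial_le_exp (1 + 20 * L) (by linarith) 6
    have h3 : (Nat.factorial 6 : ℝ) = 720 := by norm_num [Nat.factorial]
    rw [h3, div_le_iff₀ (by norm_num)] at h2
    linarith
  calc ‖gse (e U) c τ‖ ≤ ∑' n : ℕ, ‖((e U n : ℝ) : ℂ) * ASI.np n τ *
        ((Real.exp (-(Real.log n - c) ^ 2 / 4) : ℝ) : ℂ)‖ := norm_tsum_le_tsum_norm hsum
    _ ≤ ∑' n : ℕ, Real.exp (-U ^ 2 / 128) * (Low_W n * Real.exp (-(Real.log n - c) ^ 2 / 16)) :=
        Summable.tsum_le_tsum hterm hsum hs2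
    _ = Real.exp (-U ^ 2 / 128) * ∑' n : ℕ, Low_W n * Real.exp (-(Real.log n - c) ^ 2 / 16) :=
        tsum_mul_left
    _ ≤ Real.exp (-U ^ 2 / 128) * (C * (720 * Real.exp (1 + 20 * L))) := by
        apply mul_le_mul_of_nonneg_left _ (Real.exp_pos _).le
        exact hb.trans (mul_le_mul_of_nonneg_left h6 (by linarith))
    _ = Real.exp (-U ^ 2 / 128 + (Real.log (720 * C) + (1 + 20 * L))) := by
        rw [Real.exp_add (-U ^ 2 / 128), Real.exp_add (Real.log (720 * C)), Real.exp_log (by linarith)]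
        ring
    _ ≤ Real.exp (-L - |c|) := by
        apply Real.exp_le_exp.2
        have h7 : -U ^ 2 / 128 = -(L * L) / 51200 := by rw [hUdef]; ring
        rw [h7]
        have h8 : 51200 * (43 + Real.log (720 * C)) * L ≤ L * L :=
          mul_le_mul_of_nonneg_right hL (by linarith)
        have h9 : Real.log (720 * C) ≤ Real.log (720 * C) * L := le_mul_of_one_le_right hlog hL1
        nlinarith

private theorem Low_tail {C : ℝ} (hC : 1 ≤ C) : ∀ L c : ℝ, max 1 (Real.log C) ≤ L → c < -(20 * L) →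
    C * Real.exp (-c ^ 2 / 16) ≤ Real.exp (-L - |c|) := by
  intro L c hL hc
  have hL1 : 1 ≤ L := (le_max_left _ _).trans hL
  have hL2 : Real.log C ≤ L := (le_max_right _ _).trans hL
  have h1 : C * Real.exp (-c ^ 2 / 16) = Real.exp (Real.log C + -c ^ 2 / 16) := by
    rw [Real.exp_add, Real.exp_log (by linarith)]
  rw [h1]
  apply Real.exp_le_exp.2
  rw [abs_of_nonpos (by linarith)]
  nlinarith [mul_pos (by linarith : 0 < -c) (by linarith : 0 < -c - 20 * L),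
    mul_nonneg (by linarith : 0 ≤ L - 1) (by linarith : 0 ≤ -c - 20 * L)]

private theorem Low_eA (U : ℝ) (n : ℕ) :
    |ArithmeticFunction.vonMangoldt n * ASI.hL U (Real.log n)| ≤
      (n.divisors.card : ℝ) ^ 2 * (1 + Real.log n) ^ 2 * ASI.hL U (Real.log n) := by
  have h5 := ASI.hL_nonneg U (Real.log n)
  rcases Nat.eq_zero_or_pos n with h | h
  · subst h; simp
  · have h1 := Low_one_le_card h
    have h2 : 0 ≤ Real.log (n : ℝ) := Real.log_natCast_nonneg n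
    have h3 : ArithmeticFunction.vonMangoldt n ≤ Real.log n := ArithmeticFunction.vonMangoldt_le_log
    have h4 : 0 ≤ ArithmeticFunction.vonMangoldt n := ArithmeticFunction.vonMangoldt_nonneg
    rw [abs_of_nonneg (mul_nonneg h4 h5)]
    apply mul_le_mul_of_nonneg_right _ h5
    have h8 : Real.log (n : ℝ) ≤ (1 + Real.log n) ^ 2 := by nlinarith
    have h9 : (1 : ℝ) ≤ (n.divisors.card : ℝ) ^ 2 := one_le_pow₀ h1
    have h10 : (1 + Real.log (n : ℝ)) ^ 2 ≤ (n.divisors.card : ℝ) ^ 2 * (1 + Real.log n) ^ 2 :=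
      le_mul_of_one_le_left (sq_nonneg _) h9
    linarith

private theorem Low_card_le (n : ℕ) : (n.divisors.card : ℝ) ≤
    (n.divisors.card : ℝ) ^ 2 * (1 + Real.log n) ^ 2 := by
  rcases Nat.eq_zero_or_pos n with h | h
  · subst h; simp
  · have h1 := Low_one_le_card h
    have h2 : 0 ≤ Real.log (n : ℝ) := Real.log_natCast_nonneg n
    have h3 : (1 : ℝ) ≤ (1 + Real.log (n : ℝ)) ^ 2 := one_le_pow₀ (by linarith)
    have h4 : (n.divisors.card : ℝ) ≤ (n.divisors.card : ℝ) ^ 2 := by nlinarith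
    have h5 : (n.divisors.card : ℝ) ^ 2 ≤ (n.divisors.card : ℝ) ^ 2 * (1 + Real.log n) ^ 2 :=
      le_mul_of_one_le_right (sq_nonneg _) h3
    linarith

private theorem Low_bt {U : ℝ} (hU : 0 ≤ U) (k : ℕ) (hk : Real.log k ≤ 3 * U / 4) :
    |ASI.bt U k| ≤ (k.divisors.card : ℝ) * Real.exp (-U ^ 2 / 128) := by
  unfold ASI.bt
  calc |∑ d ∈ k.divisors, (ArithmeticFunction.moebius d : ℝ) * ASI.hM U (Real.log d)|
      ≤ ∑ d ∈ k.divisors, |(ArithmeticFunction.moebius d : ℝ) * ASI.hM U (Real.log d)| :=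
        Finset.abs_sum_le_sum_abs _ _
    _ ≤ ∑ d ∈ k.divisors, Real.exp (-U ^ 2 / 128) := by
        apply Finset.sum_le_sum
        intro d hd
        rw [Nat.mem_divisors] at hd
        have hk0 : 0 < k := Nat.pos_of_ne_zero hd.2
        have hd0 : 0 < d := Nat.pos_of_dvd_of_pos hd.1 hk0
        have hdk : (d : ℝ) ≤ k := by exact_mod_cast Nat.le_of_dvd hk0 hd.1
        have hlog : Real.log d ≤ 3 * U / 4 :=
          (Real.log_le_log (by exact_mod_cast hd0) hdk).trans hk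
        rw [abs_mul, abs_of_nonneg (ASI.hM_nonneg U _)]
        have h1 : |(ArithmeticFunction.moebius d : ℝ)| ≤ 1 := by
          exact_mod_cast ArithmeticFunction.abs_moebius_le_one
        calc |(ArithmeticFunction.moebius d : ℝ)| * ASI.hM U (Real.log d)
            ≤ 1 * Real.exp (-U ^ 2 / 128) :=
              mul_le_mul h1 (Low_hM hU hlog) (ASI.hM_nonneg U _) zero_le_one
          _ = Real.exp (-U ^ 2 / 128) := one_mul _
    _ = (k.divisors.card : ℝ) * Real.exp (-U ^ 2 / 128) := by simp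

private theorem Low_fin {F : ℝ → ℝ → ℝ → ℂ} {C L1 : ℝ} (hC : 1 ≤ C) (hL1 : 1 ≤ L1)
    (h1 : ∀ L c τ : ℝ, L1 ≤ L → c ≤ L / 40 → -(20 * L) ≤ c → ‖F (L / 20) c τ‖ ≤ Real.exp (-L - |c|))
    (h2 : ∀ U c τ : ℝ, c ≤ 0 → ‖F U c τ‖ ≤ C * Real.exp (-c ^ 2 / 16)) :
    ∃ L0 : ℝ, 1 ≤ L0 ∧ ∀ L c τ : ℝ, L0 ≤ L → c ≤ L / 40 →
      ‖F (L / 20) c τ‖ ≤ Real.exp (-L - |c|) := by
  refine ⟨max L1 (max 1 (Real.log C)), hL1.trans (le_max_left _ _), ?_⟩
  intro L c τ hL hc
  have hLa : L1 ≤ L := (le_max_left _ _).trans hL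
  have hLb : max 1 (Real.log C) ≤ L := (le_max_right _ _).trans hL
  rcases le_or_gt (-(20 * L)) c with h | h
  · exact h1 L c τ hLa hc h
  · exact (h2 (L / 20) c τ (by linarith)).trans (Low_tail hC L c hLb h)

theorem As_low : ∃ L0 : ℝ, 1 ≤ L0 ∧ ∀ L c τ : ℝ, L0 ≤ L → c ≤ L / 40 →
    ‖ASI.As (L / 20) c τ‖ ≤ Real.exp (-L - |c|) := by
  obtain ⟨C, hC1, hC⟩ := ASI.As_tail
  obtain ⟨L1, hL1, h1⟩ := Low_gen
    (fun U m => ArithmeticFunction.vonMangoldt m * ASI.hL U (Real.log m))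
    (fun U n => by
      refine (Low_eA U n).trans ?_
      exact mul_le_of_le_one_right (by positivity) (ASI.hL_le U _))
    (fun U n hU hn => by
      refine (Low_eA U n).trans ?_
      exact mul_le_mul_of_nonneg_left (Low_hL hU hn) (by positivity))
  exact Low_fin (F := ASI.As) hC1 hL1 h1 (fun U c τ => (hC U c τ).2)

theorem Bs_low : ∃ L0 : ℝ, 1 ≤ L0 ∧ ∀ L y τ : ℝ, L0 ≤ L → y ≤ L / 40 →
    ‖ASI.Bs (L / 20) y τ‖ ≤ Real.exp (-L - |y|) := by
  obtain ⟨C, hC1, hC⟩ := ASI.Bs_tail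
  obtain ⟨L1, hL1, h1⟩ := Low_gen
    (fun U k => ASI.bt U k)
    (fun U n => (ASI.bt_le U n).trans (Low_card_le n))
    (fun U n hU hn => by
      refine (Low_bt hU n hn).trans ?_
      exact mul_le_mul_of_nonneg_right (Low_card_le n) (Real.exp_pos _).le)
  exact Low_fin (F := ASI.Bs) hC1 hL1 h1 (fun U c τ => (hC U c τ).2)

end RLC
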