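import Pool.Agent.RLC.HM
import Pool.Agent.RLC.Low

/-!
# RLC.LVT: large values of the type II sum

PROOF. `U = L/20`, `T = exp(2L)`, `κ`, `C` from `hm 82` (for `c ≥ L/40`: `2T ≤ exp(82c)` for large `L`), `δ = κ/400`. By
`ASI.T4_eq`: `T4 = (1/√(2π)) ∫ As U c τ Bs U (L-c) τ dc`. The part `c ≤ L/40` is at most `∫ exp(-L-|c|) C (1+|L-c|)^6 dc ≤
exp(-L/2)` (`As_low`, `ASI.Bs_tail`), the same for `c ≥ 39L/40` (`Bs_low`: `L-c ≤ L/40`; `ASI.As_tail`). For `τ ∈ E`,
`λ = exp(-δL)/(4L)`: since `‖T4‖ ≥ exp(-δL)`,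
`‖T4‖ ≤ exp(-L/2)·2 + L λ + ∫_{L/40}^{39L/40} ‖As Bs‖ 1[‖As Bs‖ ≥ λ] dc` and the first two terms are `≤ ‖T4‖/2`. So
`∫_E ‖T4‖ ≤ 2 ∫_{L/40}^{39L/40} ∫_{|τ|≤T} ‖As U c τ‖ ‖Bs U (L-c) τ‖ 1[‖As Bs‖ ≥ λ] dτ dc` (Tonelli; `ASI.AsBs_cont`). For fixed
`c`: `‖As‖, ‖Bs‖ ≤ M = C (1+L)^6` (`As_tail`, `Bs_tail`), so where the product is `≥ λ` both are `≥ V = λ/M`, and the
product is at most `(‖As‖² + ‖Bs‖²)/2`. For `S = {|τ| ≤ T, ‖As‖ ≥ V}`: `V² |S| ≤ ∫_S ‖As‖²`, so by `hm`
(`As U c = gse (Λ·hL) c`, `Λ(m) hL ≤ log m`; `Bs U y = gse (bt U) y`, `ASI.bt_le`):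
`∫_S ‖As‖² ≤ C (1+L)^8 (1 + exp(-κ L/40) V^(-2) ∫_S ‖As‖²)` and
`C (1+L)^8 exp(-κL/40) V^(-2) ≤ 1/2` for large `L` because `2δ = κ/200 < κ/40`. Hence `∫_S ‖As‖² ≤ 2C (1+L)^8`.
-/

namespace RLC

open MeasureTheory

private theorem LVT_ev (k : ℕ) {c η : ℝ} (hc : 0 < c) (hη : 0 < η) : ∃ L0 : ℝ, 1 ≤ L0 ∧
    ∀ L : ℝ, L0 ≤ L → (1 + L) ^ k * Real.exp (-(c * L)) ≤ η := by
  have h1 : Filter.Tendsto (fun L : ℝ => c * L) Filter.atTop Filter.atTop :=
    Filter.tendsto_id.const_mul_atTop hc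
  have h2 := (Real.tendsto_pow_mul_exp_neg_atTop_nhds_zero k).comp h1
  have h3 : ∀ᶠ L in Filter.atTop, (c * L) ^ k * Real.exp (-(c * L)) < η * (c / 2) ^ k :=
    h2.eventually (gt_mem_nhds (by positivity))
  obtain ⟨L1, h4⟩ := Filter.eventually_atTop.1 h3
  refine ⟨max L1 1, le_max_right _ _, fun L hL => ?_⟩
  have hL1 : 1 ≤ L := le_trans (le_max_right _ _) hL
  have h5 := h4 L (le_trans (le_max_left _ _) hL)
  have h6 : (1 + L) ^ k ≤ (2 * L) ^ k := pow_le_pow_left₀ (by linarith) (by linarith) k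
  have h7 : (2 * L) ^ k * (c / 2) ^ k = (c * L) ^ k := by
    rw [← mul_pow]
    congr 1
    ring
  have h8 : 0 < (c / 2) ^ k := by positivity
  have h9 : (1 + L) ^ k * Real.exp (-(c * L)) * (c / 2) ^ k ≤ η * (c / 2) ^ k := by
    calc (1 + L) ^ k * Real.exp (-(c * L)) * (c / 2) ^ k
        ≤ (2 * L) ^ k * Real.exp (-(c * L)) * (c / 2) ^ k := by gcongr
      _ = (2 * L) ^ k * (c / 2) ^ k * Real.exp (-(c * L)) := by ring
      _ ≤ η * (c / 2) ^ k := by rw [h7]; exact h5.le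
  exact le_of_mul_le_mul_right h9 h8

private theorem LVT_poly (x : ℝ) : (1 + |x|) ^ 6 ≤ 92160 * Real.exp (|x| / 2) := by
  have h1 := Real.pow_div_factorial_le_exp ((1 + |x|) / 2) (by positivity) 6
  have h2 : ((1 + |x|) / 2) ^ 6 / (Nat.factorial 6 : ℝ) = (1 + |x|) ^ 6 / 46080 := by
    rw [div_pow]
    norm_num [Nat.factorial]
    ring
  rw [h2] at h1
  have h3 : Real.exp ((1 + |x|) / 2) ≤ 2 * Real.exp (|x| / 2) := by
    have h4 : (1 + |x|) / 2 = 1 / 2 + |x| / 2 := by ring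
    rw [h4, Real.exp_add]
    have h5 : Real.exp (1 / 2) ≤ 2 := by
      have h6 : Real.exp (1 / 2) * Real.exp (1 / 2) = Real.exp 1 := by
        rw [← Real.exp_add]
        norm_num
      have h7 := Real.exp_one_lt_d9
      nlinarith [Real.exp_pos (1 / 2)]
    exact mul_le_mul_of_nonneg_right h5 (Real.exp_pos _).le
  have h4 : (1 + |x|) ^ 6 / 46080 ≤ 2 * Real.exp (|x| / 2) := h1.trans h3
  rw [div_le_iff₀ (by norm_num)] at h4
  linarith

private theorem LVT_abs_int : ∃ G : ℝ, 0 ≤ G ∧ Integrable (fun x : ℝ => Real.exp (-(|x| / 2))) ∧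
    ∫ x : ℝ, Real.exp (-(|x| / 2)) = G := by
  refine ⟨_, integral_nonneg fun x => (Real.exp_pos _).le, ?_, rfl⟩
  have h1 : Integrable (fun x : ℝ => Real.exp (-|x|)) := by
    rw [← integrableOn_univ, ← Set.Iic_union_Ioi (a := (0 : ℝ))]
    refine IntegrableOn.union ?_ ?_
    · refine (integrableOn_exp_Iic 0).congr_fun ?_ measurableSet_Iic
      intro x hx
      have hx' : x ≤ 0 := hx
      simp only [abs_of_nonpos hx', neg_neg]
    · refine (integrableOn_exp_neg_Ioi 0).congr_fun ?_ measurableSet_Ioi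
      intro x hx
      have hx' : 0 < x := hx
      simp only [abs_of_pos hx']
  have h2 := h1.comp_div (R := (2 : ℝ)) (by norm_num)
  refine h2.congr (Filter.Eventually.of_forall fun x => ?_)
  simp only [abs_div, abs_two]

/-- Large values in mean square. -/
private theorem LVT_sq {f : ℝ → ℝ} (hf : Continuous f) (hf0 : ∀ τ, 0 ≤ f τ) {M : ℝ}
    (hfM : ∀ τ, f τ ≤ M) {V Q q T : ℝ} (hV : 0 < V) {E : Set ℝ}
    (hE : MeasurableSet E) (hET : E ⊆ Set.Icc (-T) T)
    (hm : ∀ S : Set ℝ, MeasurableSet S → S ⊆ Set.Icc (-T) T →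
      ∫ τ in S, f τ ^ 2 ≤ Q * (1 + q * (volume S).toReal))
    (hq : Q * q ≤ V ^ 2 / 2) :
    ∫ τ in E ∩ {τ | V ≤ f τ}, f τ ^ 2 ≤ 2 * Q := by
  have hSm : MeasurableSet (E ∩ {τ | V ≤ f τ}) :=
    hE.inter (measurableSet_le measurable_const hf.measurable)
  have hST : E ∩ {τ | V ≤ f τ} ⊆ Set.Icc (-T) T := Set.inter_subset_left.trans hET
  have hfin : volume (E ∩ {τ | V ≤ f τ}) < ⊤ :=
    (measure_mono hST).trans_lt (by rw [Real.volume_Icc]; exact ENNReal.ofReal_lt_top)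
  have hint : IntegrableOn (fun τ => f τ ^ 2) (E ∩ {τ | V ≤ f τ}) := by
    refine (integrableOn_const (C := M ^ 2) hfin.ne).mono' (hf.pow 2).aestronglyMeasurable ?_
    refine Filter.Eventually.of_forall fun τ => ?_
    rw [Real.norm_eq_abs, abs_of_nonneg (sq_nonneg _)]
    exact pow_le_pow_left₀ (hf0 τ) (hfM τ) 2
  have h1 := hm _ hSm hST
  have h2 : V ^ 2 * (volume (E ∩ {τ | V ≤ f τ})).toReal ≤
      ∫ τ in E ∩ {τ | V ≤ f τ}, f τ ^ 2 := by
    have h3 : ∫ τ in E ∩ {τ | V ≤ f τ}, V ^ 2 = V ^ 2 * (volume (E ∩ {τ | V ≤ f τ})).toReal := by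
      rw [setIntegral_const, smul_eq_mul, mul_comm]
      rfl
    rw [← h3]
    refine setIntegral_mono_on (integrableOn_const hfin.ne) hint hSm ?_
    intro τ hτ
    exact pow_le_pow_left₀ hV.le hτ.2 2
  have h3 : 0 ≤ (volume (E ∩ {τ | V ≤ f τ})).toReal := ENNReal.toReal_nonneg
  have h4 : Q * q * (volume (E ∩ {τ | V ≤ f τ})).toReal ≤
      V ^ 2 / 2 * (volume (E ∩ {τ | V ≤ f τ})).toReal := mul_le_mul_of_nonneg_right hq h3
  nlinarith

private theorem LVT_prod {a b M lam : ℝ} (ha : 0 ≤ a) (hb : 0 ≤ b) (haM : a ≤ M) (hbM : b ≤ M)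
    (hM : 0 < M) : (if lam ≤ a * b then a * b else 0) ≤
    1 / 2 * (if lam / M ≤ a then a ^ 2 else 0) + 1 / 2 * (if lam / M ≤ b then b ^ 2 else 0) := by
  by_cases h : lam ≤ a * b
  · have h1 : lam / M ≤ a := by
      rw [div_le_iff₀ hM]
      exact h.trans (mul_le_mul_of_nonneg_left hbM ha)
    have h2 : lam / M ≤ b := by
      rw [div_le_iff₀ hM]
      refine h.trans ?_
      rw [mul_comm a b]
      exact mul_le_mul_of_nonneg_left haM hb
    rw [if_pos h, if_pos h1, if_pos h2]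
    nlinarith [sq_nonneg (a - b)]
  · rw [if_neg h]
    have h1 : 0 ≤ (if lam / M ≤ a then a ^ 2 else 0) := by
      split_ifs
      · positivity
      · exact le_refl _
    have h2 : 0 ≤ (if lam / M ≤ b then b ^ 2 else 0) := by
      split_ifs
      · positivity
      · exact le_refl _
    linarith

/-- The mean of the large values of a product. -/
private theorem LVT_mean {f g : ℝ → ℝ} (hf : Continuous f) (hg : Continuous g)
    (hf0 : ∀ τ, 0 ≤ f τ) (hg0 : ∀ τ, 0 ≤ g τ) {M : ℝ} (hM : 0 < M) (hfM : ∀ τ, f τ ≤ M)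
    (hgM : ∀ τ, g τ ≤ M) {lam Q q T : ℝ} (hl : 0 < lam)
    {E : Set ℝ} (hE : MeasurableSet E) (hET : E ⊆ Set.Icc (-T) T)
    (hmf : ∀ S : Set ℝ, MeasurableSet S → S ⊆ Set.Icc (-T) T →
      ∫ τ in S, f τ ^ 2 ≤ Q * (1 + q * (volume S).toReal))
    (hmg : ∀ S : Set ℝ, MeasurableSet S → S ⊆ Set.Icc (-T) T →
      ∫ τ in S, g τ ^ 2 ≤ Q * (1 + q * (volume S).toReal))
    (hq : Q * q ≤ (lam / M) ^ 2 / 2) :
    ∫ τ in E, (if lam ≤ f τ * g τ then f τ * g τ else 0) ≤ 2 * Q := by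
  have hfin : volume E < ⊤ :=
    (measure_mono hET).trans_lt (by rw [Real.volume_Icc]; exact ENNReal.ofReal_lt_top)
  have key : ∀ h : ℝ → ℝ, Continuous h → (∀ τ, 0 ≤ h τ) → (∀ τ, h τ ≤ M) →
      IntegrableOn (fun τ => if lam / M ≤ h τ then h τ ^ 2 else 0) E ∧
      ∫ τ in E, (if lam / M ≤ h τ then h τ ^ 2 else 0) =
        ∫ τ in E ∩ {τ | lam / M ≤ h τ}, h τ ^ 2 := by
    intro h hh hh0 hhM
    have hSm : MeasurableSet {τ | lam / M ≤ h τ} :=
      measurableSet_le measurable_const hh.measurable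
    have e1 : (fun τ => if lam / M ≤ h τ then h τ ^ 2 else 0) =
        {τ | lam / M ≤ h τ}.indicator (fun τ => h τ ^ 2) := by
      funext τ
      rfl
    have e2 : Measurable ({τ | lam / M ≤ h τ}.indicator (fun τ => h τ ^ 2)) :=
      (hh.pow 2).measurable.indicator hSm
    refine ⟨?_, ?_⟩
    · rw [e1]
      refine (integrableOn_const (C := M ^ 2) hfin.ne).mono' e2.aestronglyMeasurable ?_
      refine Filter.Eventually.of_forall fun τ => ?_
      rw [Real.norm_eq_abs, abs_of_nonneg (Set.indicator_nonneg (fun τ _ => sq_nonneg _) τ)]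
      refine Set.indicator_le_self' (fun τ _ => sq_nonneg _) τ |>.trans ?_
      exact pow_le_pow_left₀ (hh0 τ) (hhM τ) 2
    · rw [e1, setIntegral_indicator hSm]
  obtain ⟨i1, e1⟩ := key f hf hf0 hfM
  obtain ⟨i2, e2⟩ := key g hg hg0 hgM
  have hV : 0 < lam / M := div_pos hl hM
  have s1 := LVT_sq hf hf0 hfM hV hE hET hmf hq
  have s2 := LVT_sq hg hg0 hgM hV hE hET hmg hq
  calc ∫ τ in E, (if lam ≤ f τ * g τ then f τ * g τ else 0)
      ≤ ∫ τ in E, (1 / 2 * (if lam / M ≤ f τ then f τ ^ 2 else 0) +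
          1 / 2 * (if lam / M ≤ g τ then g τ ^ 2 else 0)) := by
        refine integral_mono_of_nonneg (Filter.Eventually.of_forall fun τ => ?_)
          ((i1.const_mul _).add (i2.const_mul _)) (Filter.Eventually.of_forall fun τ => ?_)
        · change (0 : ℝ) ≤ if lam ≤ f τ * g τ then f τ * g τ else 0
          split_ifs
          · exact mul_nonneg (hf0 τ) (hg0 τ)
          · exact le_refl _
        · exact LVT_prod (hf0 τ) (hg0 τ) (hfM τ) (hgM τ) hM
    _ = 1 / 2 * (∫ τ in E, (if lam / M ≤ f τ then f τ ^ 2 else 0)) +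
          1 / 2 * (∫ τ in E, (if lam / M ≤ g τ then g τ ^ 2 else 0)) := by
        rw [integral_add (i1.const_mul _) (i2.const_mul _), integral_const_mul,
          integral_const_mul]
    _ ≤ 2 * Q := by
        rw [e1, e2]
        linarith

private theorem LVT_six {L x y C : ℝ} (hL : 0 ≤ L) (hC : 0 ≤ C) (h : |y| ≤ L + |x|) :
    C * (1 + |y|) ^ 6 ≤ C * (1 + L) ^ 6 * (92160 * Real.exp (|x| / 2)) := by
  have h1 : 1 + |y| ≤ (1 + L) * (1 + |x|) := by
    nlinarith [abs_nonneg x, mul_nonneg hL (abs_nonneg x)]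
  have h2 : (1 + |y|) ^ 6 ≤ (1 + L) ^ 6 * (1 + |x|) ^ 6 := by
    rw [← mul_pow]
    exact pow_le_pow_left₀ (by positivity) h1 6
  calc C * (1 + |y|) ^ 6 ≤ C * ((1 + L) ^ 6 * (1 + |x|) ^ 6) :=
        mul_le_mul_of_nonneg_left h2 hC
    _ ≤ C * ((1 + L) ^ 6 * (92160 * Real.exp (|x| / 2))) := by
        gcongr
        exact LVT_poly x
    _ = _ := by ring

/-- The part of the lengths outside the middle. -/
private theorem LVT_out {a b L x y C : ℝ} (hL : 0 ≤ L) (hC : 0 ≤ C) (hb : 0 ≤ b)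
    (h : |y| ≤ L + |x|) (h1 : a ≤ Real.exp (-L - |x|)) (h2 : b ≤ C * (1 + |y|) ^ 6) :
    a * b ≤ C * (1 + L) ^ 6 * 92160 * Real.exp (-L) * Real.exp (-(|x| / 2)) := by
  have h3 := h2.trans (LVT_six hL hC h)
  have h4 : a * b ≤ Real.exp (-L - |x|) * (C * (1 + L) ^ 6 * (92160 * Real.exp (|x| / 2))) :=
    mul_le_mul h1 h3 hb (Real.exp_pos _).le
  refine h4.trans (le_of_eq ?_)
  have h5 : Real.exp (-L - |x|) * Real.exp (|x| / 2) = Real.exp (-L) * Real.exp (-(|x| / 2)) := by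
    rw [← Real.exp_add, ← Real.exp_add]
    congr 1
    ring
  calc Real.exp (-L - |x|) * (C * (1 + L) ^ 6 * (92160 * Real.exp (|x| / 2)))
      = C * (1 + L) ^ 6 * 92160 * (Real.exp (-L - |x|) * Real.exp (|x| / 2)) := by ring
    _ = _ := by rw [h5]; ring

theorem T4_lv : ∃ δ C L0 : ℝ, 0 < δ ∧ 1 ≤ C ∧ 1 ≤ L0 ∧ ∀ L : ℝ, L0 ≤ L → ∀ E : Set ℝ, MeasurableSet E →
    (∀ τ ∈ E, |τ| ≤ Real.exp (2 * L) ∧ Real.exp (-δ * L) ≤ ‖ASI.T4 L (L / 20) τ‖) →
    ∫ τ in E, ‖ASI.T4 L (L / 20) τ‖ ≤ C * L ^ 20 := by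
  obtain ⟨κ, Ch, hκ, hκ', hCh, hhm⟩ := hm 82
  obtain ⟨C1, hC1, hA⟩ := ASI.As_tail
  obtain ⟨C2, hC2, hB⟩ := ASI.Bs_tail
  obtain ⟨L1, hL1, hAl⟩ := As_low
  obtain ⟨L2, hL2, hBl⟩ := Bs_low
  obtain ⟨G, hG0, hGi, hGI⟩ := LVT_abs_int
  obtain ⟨C0, hC0⟩ : ∃ C0 : ℝ, C0 = C1 * C2 := ⟨_, rfl⟩
  have hC01 : 1 ≤ C0 := by
    rw [hC0]
    nlinarith
  have hC1' : C1 ≤ C0 := by
    rw [hC0]
    nlinarith
  have hC2' : C2 ≤ C0 := by
    rw [hC0]
    nlinarith
  have hCp : 0 < C0 := by linarith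
  have hChp : 0 < Ch := by linarith
  obtain ⟨L3, hL3, h3⟩ := LVT_ev 6 (c := 1 - κ / 400)
    (η := 1 / (8 * C0 * 92160 * (G + 1))) (by linarith) (by positivity)
  obtain ⟨L4, hL4, h4⟩ := LVT_ev 22 (c := κ / 50) (η := 1 / (32 * Ch * C0 ^ 2))
    (by positivity) (by positivity)
  refine ⟨κ / 400, 1024 * Ch, L1 + L2 + L3 + L4 + 20, by positivity, by linarith, by linarith, ?_⟩
  intro L hL E hE hEL
  have hL1' : L1 ≤ L := by linarith
  have hL2' : L2 ≤ L := by linarith
  have hL3' : L3 ≤ L := by linarith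
  have hL4' : L4 ≤ L := by linarith
  have hL20 : 20 ≤ L := by linarith
  have hLp : 0 < L := by linarith
  have h3' := h3 L hL3'
  have h4' := h4 L hL4'
  -- the parameters
  obtain ⟨T, hT⟩ : ∃ T : ℝ, T = Real.exp (2 * L) := ⟨_, rfl⟩
  obtain ⟨lam, hlam⟩ : ∃ lam : ℝ, lam = Real.exp (-(κ / 400) * L) / (4 * L) := ⟨_, rfl⟩
  obtain ⟨M, hM⟩ : ∃ M : ℝ, M = C0 * (1 + L) ^ 6 := ⟨_, rfl⟩
  obtain ⟨Q, hQ⟩ : ∃ Q : ℝ, Q = Ch * (1 + L) ^ 8 := ⟨_, rfl⟩
  obtain ⟨q, hq⟩ : ∃ q : ℝ, q = Real.exp (-κ * (L / 40)) := ⟨_, rfl⟩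
  have hTp : 0 ≤ T := by
    rw [hT]
    exact (Real.exp_pos _).le
  have hlp : 0 < lam := by
    rw [hlam]
    exact div_pos (Real.exp_pos _) (by linarith)
  have hMp : 0 < M := by
    rw [hM]
    positivity
  have hQp : 0 ≤ Q := by
    rw [hQ]
    positivity
  have hqp : 0 ≤ q := by
    rw [hq]
    exact (Real.exp_pos _).le
  have hET : E ⊆ Set.Icc (-T) T := by
    intro τ hτ
    rw [hT]
    exact abs_le.1 (hEL τ hτ).1
  have hEfin : volume E < ⊤ :=
    (measure_mono hET).trans_lt (by rw [Real.volume_Icc]; exact ENNReal.ofReal_lt_top)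
  have hQq : Q * q ≤ (lam / M) ^ 2 / 2 := by
    have e1 : (lam / M) ^ 2 = Real.exp (-(κ / 200) * L) / (16 * L ^ 2 * C0 ^ 2 * (1 + L) ^ 12) := by
      rw [hlam, hM, div_div, div_pow]
      congr 1
      · rw [← Real.exp_nat_mul]
        congr 1
        push_cast
        ring
      · ring
    have e2 : q = Real.exp (-(κ / 200) * L) * Real.exp (-(κ / 50 * L)) := by
      rw [hq, ← Real.exp_add]
      congr 1
      ring
    rw [e1, e2, hQ, div_div, le_div_iff₀ (by positivity)]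
    have e3 : (1 + L) ^ 22 * Real.exp (-(κ / 50 * L)) * (32 * Ch * C0 ^ 2) ≤ 1 := by
      rw [le_div_iff₀ (by positivity)] at h4'
      exact h4'
    have e4 : L ^ 2 ≤ (1 + L) ^ 2 := pow_le_pow_left₀ hLp.le (by linarith) 2
    calc Ch * (1 + L) ^ 8 * (Real.exp (-(κ / 200) * L) * Real.exp (-(κ / 50 * L))) *
          (16 * L ^ 2 * C0 ^ 2 * (1 + L) ^ 12 * 2)
        = Real.exp (-(κ / 200) * L) * ((L ^ 2 * (1 + L) ^ 20) * Real.exp (-(κ / 50 * L)) *
          (32 * Ch * C0 ^ 2)) := by ring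
      _ ≤ Real.exp (-(κ / 200) * L) * (((1 + L) ^ 2 * (1 + L) ^ 20) *
          Real.exp (-(κ / 50 * L)) * (32 * Ch * C0 ^ 2)) := by gcongr
      _ = Real.exp (-(κ / 200) * L) * ((1 + L) ^ 22 *
          Real.exp (-(κ / 50 * L)) * (32 * Ch * C0 ^ 2)) := by ring
      _ ≤ Real.exp (-(κ / 200) * L) * 1 := by gcongr
      _ = _ := mul_one _
  -- the integrand
  obtain ⟨f, hf⟩ : ∃ f : ℝ × ℝ → ℝ, f = fun p =>
      ‖ASI.As (L / 20) p.1 p.2‖ * ‖ASI.Bs (L / 20) (L - p.1) p.2‖ := ⟨_, rfl⟩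
  obtain ⟨F, hF⟩ : ∃ F : ℝ × ℝ → ℝ, F = fun p => if lam ≤ f p then f p else 0 := ⟨_, rfl⟩
  have hcA : Continuous (fun p : ℝ × ℝ => ASI.As (L / 20) p.1 p.2) := (ASI.AsBs_cont (L / 20)).1
  have hcB : Continuous (fun p : ℝ × ℝ => ASI.Bs (L / 20) (L - p.1) p.2) :=
    (ASI.AsBs_cont (L / 20)).2.comp
      ((continuous_const.sub continuous_fst).prodMk continuous_snd)
  have hfc : Continuous f := by
    rw [hf]
    exact hcA.norm.mul hcB.norm
  have hf0 : ∀ p, 0 ≤ f p := by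
    intro p
    rw [hf]
    positivity
  have hFm : Measurable F := by
    have e1 : F = {p | lam ≤ f p}.indicator f := by
      rw [hF]
      rfl
    rw [e1]
    exact hfc.measurable.indicator (measurableSet_le measurable_const hfc.measurable)
  have hF0 : ∀ p, 0 ≤ F p := by
    intro p
    rw [hF]
    change (0 : ℝ) ≤ if lam ≤ f p then f p else 0
    split_ifs
    · exact hf0 p
    · exact le_refl _
  have hFf : ∀ p, F p ≤ f p := by
    intro p
    rw [hF]
    change (if lam ≤ f p then f p else 0) ≤ f p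
    split_ifs
    · exact le_refl _
    · exact hf0 p
  have hfF : ∀ p, f p ≤ lam + F p := by
    intro p
    rw [hF]
    change f p ≤ lam + if lam ≤ f p then f p else 0
    split_ifs with h
    · linarith
    · linarith [not_le.1 h]
  have hAM : ∀ c ∈ Set.Ioc (L / 40) (39 * L / 40), ∀ τ, ‖ASI.As (L / 20) c τ‖ ≤ M := by
    intro c hc τ
    refine ((hA (L / 20) c τ).1).trans ?_
    have e1 : |c| ≤ L := by
      rw [abs_le]
      constructor
      · linarith [hc.1]
      · linarith [hc.2]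
    rw [hM]
    have e2 : (1 + |c|) ^ 6 ≤ (1 + L) ^ 6 := pow_le_pow_left₀ (by positivity) (by linarith) 6
    exact mul_le_mul hC1' e2 (by positivity) hCp.le
  have hBM : ∀ c ∈ Set.Ioc (L / 40) (39 * L / 40), ∀ τ, ‖ASI.Bs (L / 20) (L - c) τ‖ ≤ M := by
    intro c hc τ
    refine ((hB (L / 20) (L - c) τ).1).trans ?_
    have e1 : |L - c| ≤ L := by
      rw [abs_le]
      constructor
      · linarith [hc.2]
      · linarith [hc.1]
    rw [hM]
    have e2 : (1 + |L - c|) ^ 6 ≤ (1 + L) ^ 6 := pow_le_pow_left₀ (by positivity) (by linarith) 6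
    exact mul_le_mul hC2' e2 (by positivity) hCp.le
  have hfM : ∀ c ∈ Set.Ioc (L / 40) (39 * L / 40), ∀ τ, f (c, τ) ≤ M * M := by
    intro c hc τ
    rw [hf]
    exact mul_le_mul (hAM c hc τ) (hBM c hc τ) (norm_nonneg _) hMp.le
  -- the bound outside the middle
  obtain ⟨R, hR⟩ : ∃ R : ℝ, R = C0 * (1 + L) ^ 6 * 92160 * Real.exp (-L) := ⟨_, rfl⟩
  have hRp : 0 ≤ R := by
    rw [hR]
    positivity
  have hout : ∀ c, c ∉ Set.Ioc (L / 40) (39 * L / 40) → ∀ τ,
      f (c, τ) ≤ R * Real.exp (-(|c| / 2)) + R * Real.exp (-(|L - c| / 2)) := by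
    intro c hc τ
    have n1 : 0 ≤ R * Real.exp (-(|c| / 2)) := mul_nonneg hRp (Real.exp_pos _).le
    have n2 : 0 ≤ R * Real.exp (-(|L - c| / 2)) := mul_nonneg hRp (Real.exp_pos _).le
    rcases le_or_gt c (L / 40) with h | h
    · have e1 : |L - c| ≤ L + |c| := by
        have := abs_sub L c
        rwa [abs_of_pos hLp] at this
      have e2 := LVT_out hLp.le hCp.le
        (norm_nonneg (ASI.Bs (L / 20) (L - c) τ)) e1 (hAl L c τ hL1' h)
        (((hB (L / 20) (L - c) τ).1).trans (mul_le_mul_of_nonneg_right hC2' (by positivity)))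
      rw [← hR] at e2
      rw [hf]
      change ‖ASI.As (L / 20) c τ‖ * ‖ASI.Bs (L / 20) (L - c) τ‖ ≤ _
      linarith
    · have h' : 39 * L / 40 < c := by
        by_contra h2
        exact hc ⟨h, not_lt.1 h2⟩
      have e1 : |c| ≤ L + |L - c| := by
        have e3 : c = L - (L - c) := by ring
        have := abs_sub L (L - c)
        rw [← e3, abs_of_pos hLp] at this
        exact this
      have e2 := LVT_out hLp.le hCp.le
        (norm_nonneg (ASI.As (L / 20) c τ)) e1 (hBl L (L - c) τ hL2' (by linarith))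
        (((hA (L / 20) c τ).1).trans (mul_le_mul_of_nonneg_right hC1' (by positivity)))
      rw [← hR, mul_comm ‖ASI.Bs (L / 20) (L - c) τ‖] at e2
      rw [hf]
      change ‖ASI.As (L / 20) c τ‖ * ‖ASI.Bs (L / 20) (L - c) τ‖ ≤ _
      linarith
  -- the pointwise bound
  have hIoc : MeasurableSet (Set.Ioc (L / 40) (39 * L / 40)) := measurableSet_Ioc
  have hIfin : volume (Set.Ioc (L / 40) (39 * L / 40)) < ⊤ := by
    rw [Real.volume_Ioc]
    exact ENNReal.ofReal_lt_top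
  have hFint : ∀ τ, IntegrableOn (fun c => F (c, τ)) (Set.Ioc (L / 40) (39 * L / 40)) := by
    intro τ
    refine Integrable.mono' (integrableOn_const (C := M * M) hIfin.ne)
      (hFm.comp (measurable_id.prodMk measurable_const)).aestronglyMeasurable ?_
    refine (ae_restrict_iff' hIoc).2 (Filter.Eventually.of_forall fun c hc => ?_)
    rw [Real.norm_eq_abs, abs_of_nonneg (hF0 _)]
    exact (hFf _).trans (hfM c hc τ)
  have hpt : ∀ τ ∈ E, ‖ASI.T4 L (L / 20) τ‖ ≤
      2 * ∫ c in Set.Ioc (L / 40) (39 * L / 40), F (c, τ) := by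
    intro τ hτ
    have b1 : ‖ASI.T4 L (L / 20) τ‖ ≤ ∫ c, f (c, τ) := by
      rw [ASI.T4_eq, norm_mul]
      have e1 : ‖((1 / Real.sqrt (2 * Real.pi) : ℝ) : ℂ)‖ ≤ 1 := by
        rw [Complex.norm_real, Real.norm_eq_abs, abs_of_nonneg (by positivity)]
        rw [div_le_one (by positivity)]
        rw [Real.one_le_sqrt]
        linarith [Real.pi_gt_three]
      have e2 : ‖∫ c : ℝ, ASI.As (L / 20) c τ * ASI.Bs (L / 20) (L - c) τ‖ ≤
          ∫ c, f (c, τ) := by
        refine (norm_integral_le_integral_norm _).trans (le_of_eq ?_)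
        congr 1
        funext c
        rw [norm_mul, hf]
      calc _ ≤ 1 * ∫ c, f (c, τ) := mul_le_mul e1 e2 (norm_nonneg _) zero_le_one
        _ = _ := one_mul _
    have gi1 : Integrable (fun c : ℝ => R * Real.exp (-(|c| / 2))) := hGi.const_mul R
    have gi2 : Integrable (fun c : ℝ => R * Real.exp (-(|L - c| / 2))) :=
      (hGi.comp_sub_left L).const_mul R
    have gi3 : Integrable ((Set.Ioc (L / 40) (39 * L / 40)).indicator
        (fun c => lam + F (c, τ))) := by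
      rw [integrable_indicator_iff hIoc]
      exact (integrableOn_const hIfin.ne).add (hFint τ)
    have b2 : ∫ c, f (c, τ) ≤ ∫ c, ((R * Real.exp (-(|c| / 2)) +
        R * Real.exp (-(|L - c| / 2))) + (Set.Ioc (L / 40) (39 * L / 40)).indicator
        (fun c => lam + F (c, τ)) c) := by
      refine integral_mono_of_nonneg (Filter.Eventually.of_forall fun c => hf0 _)
        ((gi1.add gi2).add gi3) (Filter.Eventually.of_forall fun c => ?_)
      change f (c, τ) ≤ (R * Real.exp (-(|c| / 2)) +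
        R * Real.exp (-(|L - c| / 2))) + (Set.Ioc (L / 40) (39 * L / 40)).indicator
        (fun c => lam + F (c, τ)) c
      by_cases hc : c ∈ Set.Ioc (L / 40) (39 * L / 40)
      · rw [Set.indicator_of_mem hc]
        have n1 : 0 ≤ R * Real.exp (-(|c| / 2)) := mul_nonneg hRp (Real.exp_pos _).le
        have n2 : 0 ≤ R * Real.exp (-(|L - c| / 2)) := mul_nonneg hRp (Real.exp_pos _).le
        linarith [hfF (c, τ)]
      · rw [Set.indicator_of_notMem hc, add_zero]
        exact hout c hc τ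
    have b3 : ∫ c, ((R * Real.exp (-(|c| / 2)) +
        R * Real.exp (-(|L - c| / 2))) + (Set.Ioc (L / 40) (39 * L / 40)).indicator
        (fun c => lam + F (c, τ)) c) = 2 * (R * G) + (lam * (38 * L / 40) +
        ∫ c in Set.Ioc (L / 40) (39 * L / 40), F (c, τ)) := by
      have gi12 : Integrable (fun c : ℝ => R * Real.exp (-(|c| / 2)) +
          R * Real.exp (-(|L - c| / 2))) := gi1.add gi2
      have gi4 : Integrable (fun _ : ℝ => lam)
          (volume.restrict (Set.Ioc (L / 40) (39 * L / 40))) :=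
        integrableOn_const (C := lam) hIfin.ne
      have gi5 : Integrable (fun c => F (c, τ))
          (volume.restrict (Set.Ioc (L / 40) (39 * L / 40))) := hFint τ
      rw [integral_add gi12 gi3, integral_add gi1 gi2, integral_const_mul,
        integral_const_mul, integral_sub_left_eq_self (fun c => Real.exp (-(|c| / 2))) volume L,
        hGI, integral_indicator hIoc, integral_add gi4 gi5,
        setIntegral_const, smul_eq_mul]
      have e1 : (volume.real (Set.Ioc (L / 40) (39 * L / 40))) = 38 * L / 40 := by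
        rw [Measure.real, Real.volume_Ioc, ENNReal.toReal_ofReal (by linarith)]
        ring
      rw [e1]
      ring
    have b4 : 2 * (R * G) ≤ Real.exp (-(κ / 400) * L) / 4 := by
      have e1 : Real.exp (-L) = Real.exp (-(κ / 400) * L) * Real.exp (-((1 - κ / 400) * L)) := by
        rw [← Real.exp_add]
        congr 1
        ring
      rw [le_div_iff₀ (by positivity)] at h3'
      have e2 : 0 < Real.exp (-(κ / 400) * L) := Real.exp_pos _
      have e3 : 0 ≤ (1 + L) ^ 6 * Real.exp (-((1 - κ / 400) * L)) * (8 * C0 * 92160) := by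
        positivity
      have e4 : (1 + L) ^ 6 * Real.exp (-((1 - κ / 400) * L)) * (8 * C0 * 92160) * G ≤ 1 := by
        nlinarith
      rw [hR, e1]
      nlinarith
    have b5 : lam * (38 * L / 40) ≤ Real.exp (-(κ / 400) * L) / 4 := by
      have e1 : lam * (38 * L / 40) = Real.exp (-(κ / 400) * L) / 4 * (38 / 40) := by
        rw [hlam]
        field_simp
      rw [e1]
      nlinarith [Real.exp_pos (-(κ / 400) * L)]
    have b6 := (hEL τ hτ).2
    rw [b3] at b2
    linarith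
  -- the double integral
  have hprod : Integrable (fun p : ℝ × ℝ => F (p.2, p.1))
      ((volume.restrict E).prod (volume.restrict (Set.Ioc (L / 40) (39 * L / 40)))) := by
    have i1 : IsFiniteMeasure (volume.restrict E) :=
      ⟨by rw [Measure.restrict_apply_univ]; exact hEfin⟩
    have i2 : IsFiniteMeasure (volume.restrict (Set.Ioc (L / 40) (39 * L / 40))) :=
      ⟨by rw [Measure.restrict_apply_univ]; exact hIfin⟩
    refine Integrable.mono' (integrable_const (M * M))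
      (hFm.comp (measurable_snd.prodMk measurable_fst)).aestronglyMeasurable ?_
    rw [Measure.prod_restrict]
    refine (ae_restrict_iff' (hE.prod hIoc)).2 (Filter.Eventually.of_forall fun p hp => ?_)
    rw [Real.norm_eq_abs, abs_of_nonneg (hF0 _)]
    exact (hFf _).trans (hfM p.2 hp.2 p.1)
  have hcmean : ∀ c ∈ Set.Ioc (L / 40) (39 * L / 40), ∫ τ in E, F (c, τ) ≤ 2 * Q := by
    intro c hc
    have hc0 : 0 ≤ c := by linarith [hc.1]
    have hy0 : 0 ≤ L - c := by linarith [hc.2]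
    have h82 : ∀ y : ℝ, L / 40 ≤ y → 2 * T ≤ Real.exp (82 * y) := by
      intro y hy
      rw [hT]
      have e1 : (2 : ℝ) ≤ Real.exp (L / 20) := by
        have e2 : Real.exp 1 ≤ Real.exp (L / 20) := Real.exp_le_exp.2 (by linarith)
        linarith [Real.add_one_le_exp (1 : ℝ)]
      calc 2 * Real.exp (2 * L) ≤ Real.exp (L / 20) * Real.exp (2 * L) :=
            mul_le_mul_of_nonneg_right e1 (Real.exp_pos _).le
        _ = Real.exp (L / 20 + 2 * L) := (Real.exp_add _ _).symm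
        _ ≤ Real.exp (82 * y) := Real.exp_le_exp.2 (by linarith)
    have hgen : ∀ (e : ℕ → ℝ), (∀ n : ℕ, |e n| ≤ (n.divisors.card : ℝ) * (1 + Real.log n)) →
        ∀ y, L / 40 ≤ y → y ≤ L → ∀ S : Set ℝ, MeasurableSet S → S ⊆ Set.Icc (-T) T →
        ∫ τ in S, ‖gse e y τ‖ ^ 2 ≤ Q * (1 + q * (volume S).toReal) := by
      intro e he y hy hyL S hS hST
      have hy0' : 0 ≤ y := by linarith
      refine (hhm e he y T hy0' hTp (h82 y hy) S hS hST).trans ?_
      have e1 : Ch * (1 + y) ^ 8 ≤ Q := by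
        rw [hQ]
        exact mul_le_mul_of_nonneg_left (pow_le_pow_left₀ (by linarith) (by linarith) 8) hChp.le
      have e2 : Real.exp (-κ * y) ≤ q := by
        rw [hq]
        apply Real.exp_le_exp.2
        nlinarith
      have e3 : 0 ≤ (volume S).toReal := ENNReal.toReal_nonneg
      refine mul_le_mul e1 ?_ ?_ hQp
      · have := mul_le_mul_of_nonneg_right e2 e3
        linarith
      · have := mul_nonneg (Real.exp_pos (-κ * y)).le e3
        linarith
    have e1 : (fun τ => F (c, τ)) = fun τ => if lam ≤ ‖ASI.As (L / 20) c τ‖ *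
        ‖ASI.Bs (L / 20) (L - c) τ‖ then ‖ASI.As (L / 20) c τ‖ *
        ‖ASI.Bs (L / 20) (L - c) τ‖ else 0 := by
      rw [hF, hf]
    have k0 : Continuous (fun τ : ℝ => (c, τ)) := continuous_const.prodMk continuous_id
    have hk : ∀ H : ℝ × ℝ → ℂ, Continuous H → Continuous (fun τ : ℝ => ‖H (c, τ)‖) :=
      fun H hH => (hH.comp k0).norm
    have k1 : Continuous (fun τ : ℝ => ‖ASI.As (L / 20) c τ‖) :=
      hk (fun p => ASI.As (L / 20) p.1 p.2) hcA
    have k2 : Continuous (fun τ : ℝ => ‖ASI.Bs (L / 20) (L - c) τ‖) :=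
      hk (fun p => ASI.Bs (L / 20) (L - p.1) p.2) hcB
    rw [e1]
    refine LVT_mean (f := fun τ => ‖ASI.As (L / 20) c τ‖)
      (g := fun τ => ‖ASI.Bs (L / 20) (L - c) τ‖) k1 k2
      (fun τ => norm_nonneg _) (fun τ => norm_nonneg _) hMp (hAM c hc) (hBM c hc) hlp
      hE hET ?_ ?_ hQq
    · refine hgen (fun n => ArithmeticFunction.vonMangoldt n * ASI.hL (L / 20) (Real.log n)) ?_
        c hc.1.le (by linarith [hc.2])
      intro n
      rcases Nat.eq_zero_or_pos n with hn | hn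
      · subst hn
        simp
      · have d1 : (1 : ℝ) ≤ (n.divisors.card : ℝ) := by
          have : 0 < n.divisors.card := Finset.card_pos.2 ⟨1, Nat.one_mem_divisors.2 hn.ne'⟩
          exact_mod_cast this
        have d2 : 0 ≤ Real.log n := Real.log_natCast_nonneg n
        have d3 : ArithmeticFunction.vonMangoldt n ≤ Real.log n :=
          ArithmeticFunction.vonMangoldt_le_log
        have d4 : 0 ≤ ArithmeticFunction.vonMangoldt n := ArithmeticFunction.vonMangoldt_nonneg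
        have d5 := ASI.hL_nonneg (L / 20) (Real.log n)
        have d6 := ASI.hL_le (L / 20) (Real.log n)
        rw [abs_of_nonneg (mul_nonneg d4 d5)]
        calc ArithmeticFunction.vonMangoldt n * ASI.hL (L / 20) (Real.log n)
            ≤ ArithmeticFunction.vonMangoldt n * 1 := mul_le_mul_of_nonneg_left d6 d4
          _ ≤ Real.log n := by rw [mul_one]; exact d3
          _ ≤ (n.divisors.card : ℝ) * (1 + Real.log n) := by nlinarith
    · refine hgen (fun n => ASI.bt (L / 20) n) ?_ (L - c) (by linarith [hc.2])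
        (by linarith [hc.1])
      intro n
      have d1 : (0 : ℝ) ≤ (n.divisors.card : ℝ) := Nat.cast_nonneg _
      have d2 : 0 ≤ Real.log n := Real.log_natCast_nonneg n
      refine (ASI.bt_le (L / 20) n).trans ?_
      nlinarith
  have hmain : ∫ τ in E, ‖ASI.T4 L (L / 20) τ‖ ≤
      ∫ τ in E, 2 * ∫ c in Set.Ioc (L / 40) (39 * L / 40), F (c, τ) := by
    refine integral_mono_of_nonneg (Filter.Eventually.of_forall fun τ => norm_nonneg _)
      (hprod.integral_prod_left.const_mul 2) ?_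
    exact (ae_restrict_iff' hE).2 (Filter.Eventually.of_forall fun τ hτ => hpt τ hτ)
  have hswap : ∫ τ in E, (∫ c in Set.Ioc (L / 40) (39 * L / 40), F (c, τ)) =
      ∫ c in Set.Ioc (L / 40) (39 * L / 40), ∫ τ in E, F (c, τ) :=
    integral_integral_swap hprod
  have hlast : ∫ c in Set.Ioc (L / 40) (39 * L / 40), (∫ τ in E, F (c, τ)) ≤
      38 * L / 40 * (2 * Q) := by
    have e1 : ∫ c in Set.Ioc (L / 40) (39 * L / 40), (∫ τ in E, F (c, τ)) ≤
        ∫ c in Set.Ioc (L / 40) (39 * L / 40), 2 * Q := by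
      refine integral_mono_of_nonneg (Filter.Eventually.of_forall fun c => ?_)
        (integrableOn_const hIfin.ne) ?_
      · exact integral_nonneg fun τ => hF0 _
      · exact (ae_restrict_iff' hIoc).2 (Filter.Eventually.of_forall fun c hc => hcmean c hc)
    refine e1.trans (le_of_eq ?_)
    rw [setIntegral_const, smul_eq_mul, Measure.real, Real.volume_Ioc,
      ENNReal.toReal_ofReal (by linarith)]
    ring
  rw [integral_const_mul, hswap] at hmain
  have hfin1 : ∫ τ in E, ‖ASI.T4 L (L / 20) τ‖ ≤ 4 * L * Q := by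
    have : 38 * L / 40 * (2 * Q) ≤ L * (2 * Q) :=
      mul_le_mul_of_nonneg_right (by linarith) (by positivity)
    linarith
  refine hfin1.trans ?_
  rw [hQ]
  have p1 : (1 + L) ^ 8 ≤ (2 * L) ^ 8 := pow_le_pow_left₀ (by linarith) (by linarith) 8
  have p2 : L ^ 9 ≤ L ^ 20 := pow_le_pow_right₀ (by linarith) (by norm_num)
  calc 4 * L * (Ch * (1 + L) ^ 8) ≤ 4 * L * (Ch * (2 * L) ^ 8) := by gcongr
    _ = 1024 * Ch * L ^ 9 := by ring
    _ ≤ 1024 * Ch * L ^ 20 := by gcongr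

end RLC
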