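import Pool.Agent.RLC.Mom

/-!
# RLC.UpL: there are no longer chains

PROOF. Enough: `ε = 1/(q+1)`. Let `0 < ε ≤ 1` (w.l.o.g.), `Y = 2^m`, `k = ⌈(1+ε/2) log Y/log log Y⌉₊`, `j = k - 1 ≤ 2 log Y/log log Y`. If the first `k` members of the chain of
`n ∈ (Y, 2Y]` are primes, then `wt β n (k-1) a = ∏_{i<k} log c_i ≥ (log Y - 1)^k` (`geo`: `c_i ≥ n/2 ≥ Y/2`, `log 2 ≤ 1`). By Markov and `mom_one`
the probability that there is such an `n ∈ (Y, 2Y]` is at most `Y log(2Y) C^k ∏_{i<k} D_i/(log Y - 1)^k`, `∏_{i<k} D_i ≤ C'^k (k^k)^δ' ≤ C'^k Y^(3δ')`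
(`Slow`; `k ≤ 2 log Y/log log Y + 1`, `k^k ≤ Y^3`) with `δ' = ε/24`, and `(log Y - 1)^k ≥ Y^(1+ε/2) (1 - 1/log Y)^k`, so it is `≤ Y^(-ε/4)` for large `Y`: summable over `m`. So a.s. for all
large `m` there is no such `n`. For `n ∈ (2^m, 2^(m+1)]`, `n` large: `(1+ε) log n/log log n > k - 1`, because `x/log x` is increasing for
`x ≥ e` and `(1+ε) log n/log log n ≥ (1+ε) log Y/log log Y ≥ (1+ε/2) log Y/log log Y + 1`. So if the chain members
`c_i` were primes for all `i < (1+ε) log n/log log n`, they would be primes for all `i < k`.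
-/

namespace RLC

open MeasureTheory Filter

private theorem UpL_mono {x y : ℝ} (hx : Real.exp 1 ≤ x) (hxy : x ≤ y) :
    x / Real.log x ≤ y / Real.log y := by
  have hx0 : 0 < x := lt_of_lt_of_le (Real.exp_pos 1) hx
  have hy0 : 0 < y := lt_of_lt_of_le hx0 hxy
  have h1 : ∀ z : ℝ, Real.exp 1 ≤ z → 0 < Real.log z := by
    intro z hz
    have := Real.log_le_log (Real.exp_pos 1) hz
    rw [Real.log_exp] at this
    linarith
  have hlx := h1 x hx
  have hly := h1 y (hx.trans hxy)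
  have h2 : Real.log y / y ≤ Real.log x / x :=
    Real.log_div_self_antitoneOn hx (hx.trans hxy) hxy
  rw [div_le_div_iff₀ hy0 hx0] at h2
  rw [div_le_div_iff₀ hlx hly]
  linarith

private theorem UpL_real {ε C C1 : ℝ} (hε : 0 < ε) (hε1 : ε ≤ 1) (hC : 1 ≤ C) (hC1 : 1 ≤ C1) :
    ∃ L0 : ℝ, 3 ≤ L0 ∧ ∀ Y : ℝ, L0 ≤ Real.log Y → 0 < Y → ∀ P : ℝ, 0 ≤ P →
    P ≤ (C1 * (⌈(1 + ε / 2) * (Real.log Y / Real.log (Real.log Y))⌉₊ : ℝ) ^ (ε / 16)) ^
      ⌈(1 + ε / 2) * (Real.log Y / Real.log (Real.log Y))⌉₊ →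
    Y * (Real.log (2 * Y) * (C ^ (⌈(1 + ε / 2) * (Real.log Y / Real.log (Real.log Y))⌉₊ - 1) * P)) /
      (Real.log Y - 1) ^ ⌈(1 + ε / 2) * (Real.log Y / Real.log (Real.log Y))⌉₊ ≤
      Real.exp (-(ε / 8) * Real.log Y) := by
  have e1 : ∀ᶠ L : ℝ in atTop, 4 + Real.log C + Real.log C1 ≤ (ε / 16) * Real.log L :=
    (Real.tendsto_log_atTop.const_mul_atTop (by positivity)).eventually_ge_atTop _
  have e2 : ∀ᶠ L : ℝ in atTop, 2 * L ≤ Real.exp ((ε / 8) * L) := by
    have h1 : Tendsto (fun L : ℝ => Real.exp ((ε / 8) * L) / ((ε / 8) * L)) atTop atTop := by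
      have h2 := Real.tendsto_exp_div_pow_atTop 1
      have h3 : Tendsto (fun L : ℝ => (ε / 8) * L) atTop atTop :=
        tendsto_id.const_mul_atTop (by positivity)
      have h4 := h2.comp h3
      refine h4.congr fun L => ?_
      simp only [Function.comp, pow_one]
    filter_upwards [h1.eventually_ge_atTop (16 / ε), eventually_gt_atTop 0] with L hL hL0
    rw [le_div_iff₀ (by positivity)] at hL
    have h5 : 16 / ε * (ε / 8 * L) = 2 * L := by
      field_simp
      ring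
    linarith
  obtain ⟨L0, hL0⟩ := eventually_atTop.1 (e1.and e2)
  refine ⟨max L0 3, le_max_right _ _, ?_⟩
  intro Y hY hY0 P hP0 hP
  obtain ⟨h1, h2⟩ := hL0 (Real.log Y) ((le_max_left _ _).trans hY)
  have h3 : 3 ≤ Real.log Y := (le_max_right _ _).trans hY
  set L := Real.log Y with hL
  set k := ⌈(1 + ε / 2) * (L / Real.log L)⌉₊ with hk
  have hlC : 0 ≤ Real.log C := Real.log_nonneg hC
  have hlC1 : 0 ≤ Real.log C1 := Real.log_nonneg hC1
  have hLL3 : 4 ≤ Real.log L := by nlinarith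
  have hLpos : 0 < L := by linarith
  have hLL : 1 ≤ Real.log L := by
    have h4 : Real.exp 1 ≤ L := by
      have := Real.exp_one_lt_d9
      linarith
    have := Real.log_le_log (Real.exp_pos 1) h4
    rwa [Real.log_exp] at this
  have hkx : (1 + ε / 2) * (L / Real.log L) ≤ k := Nat.le_ceil _
  have hYL : Y = Real.exp L := by rw [hL, Real.exp_log hY0]
  have hlog2 : Real.log (2 * Y) ≤ 2 * L := by
    rw [Real.log_mul (by norm_num) hY0.ne']
    have := Real.log_two_lt_d9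
    linarith
  have hC0 : 0 < C := by linarith
  have hCk : C ^ (k - 1) ≤ Real.exp (k * Real.log C) := by
    calc C ^ (k - 1) ≤ C ^ k := pow_le_pow_right₀ hC (Nat.sub_le _ _)
      _ = Real.exp (k * Real.log C) := by
        rw [← Real.exp_log hC0, ← Real.exp_nat_mul, Real.log_exp]
  have hkpos : 0 < k := Nat.ceil_pos.2 (by positivity)
  have hkL : (k : ℝ) ≤ L := by
    have h4 : (k : ℝ) < (1 + ε / 2) * (L / Real.log L) + 1 := Nat.ceil_lt_add_one (by positivity)
    have h5 : L / Real.log L ≤ L / 4 := div_le_div_of_nonneg_left hLpos.le (by norm_num) hLL3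
    have h6 : (1 + ε / 2) * (L / Real.log L) ≤ 2 * (L / 4) := by
      apply mul_le_mul (by linarith) h5 (by positivity) (by norm_num)
    linarith
  have hPk : P ≤ Real.exp (k * (Real.log C1 + ε / 16 * Real.log L)) := by
    refine hP.trans ?_
    rw [Real.exp_nat_mul]
    have hk0 : (0 : ℝ) < k := by exact_mod_cast hkpos
    refine pow_le_pow_left₀ (by positivity) ?_ k
    rw [Real.exp_add, Real.exp_log (by linarith), Real.rpow_def_of_pos hk0]
    apply mul_le_mul_of_nonneg_left _ (by linarith)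
    apply Real.exp_le_exp.2
    have := Real.log_le_log hk0 hkL
    nlinarith
  have hL1 : Real.exp (Real.log L - 1) ≤ L - 1 := by
    rw [Real.exp_sub, Real.exp_log hLpos, div_le_iff₀ (Real.exp_pos 1)]
    have := Real.add_one_le_exp (1 : ℝ)
    nlinarith
  have hLk : Real.exp (k * (Real.log L - 1)) ≤ (L - 1) ^ k := by
    rw [Real.exp_nat_mul]
    exact pow_le_pow_left₀ (Real.exp_pos _).le hL1 k
  rw [div_le_iff₀ (pow_pos (by linarith) _)]
  have hkk : (1 + ε / 2) * (1 - ε / 8) * L ≤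
      k * (Real.log L - 1 - Real.log C - (Real.log C1 + ε / 16 * Real.log L)) := by
    have h5 : (1 - ε / 8) * Real.log L ≤
        Real.log L - 1 - Real.log C - (Real.log C1 + ε / 16 * Real.log L) := by linarith
    have h6 : (1 + ε / 2) * L ≤ k * Real.log L := by
      have h7 : (1 + ε / 2) * (L / Real.log L) * Real.log L ≤ k * Real.log L :=
        mul_le_mul_of_nonneg_right hkx (by linarith)
      have h8 : (1 + ε / 2) * (L / Real.log L) * Real.log L = (1 + ε / 2) * L := by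
        field_simp
      linarith
    calc (1 + ε / 2) * (1 - ε / 8) * L = ((1 + ε / 2) * L) * (1 - ε / 8) := by ring
      _ ≤ (k * Real.log L) * (1 - ε / 8) := mul_le_mul_of_nonneg_right h6 (by linarith)
      _ = k * ((1 - ε / 8) * Real.log L) := by ring
      _ ≤ k * (Real.log L - 1 - Real.log C - (Real.log C1 + ε / 16 * Real.log L)) :=
        mul_le_mul_of_nonneg_left h5 (by positivity)
  have hexp : ε / 8 * L ≤
      k * (Real.log L - 1 - Real.log C - (Real.log C1 + ε / 16 * Real.log L)) - (1 + ε / 8) * L := by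
    have h9 : (1 + ε / 8 + ε / 8) * L ≤ (1 + ε / 2) * (1 - ε / 8) * L := by
      apply mul_le_mul_of_nonneg_right _ hLpos.le
      nlinarith
    linarith
  calc Y * (Real.log (2 * Y) * (C ^ (k - 1) * P))
      ≤ Real.exp L * (Real.exp ((ε / 8) * L) * (Real.exp (k * Real.log C) *
          Real.exp (k * (Real.log C1 + ε / 16 * Real.log L)))) := by
        rw [hYL] at hlog2 ⊢
        apply mul_le_mul_of_nonneg_left _ (Real.exp_pos _).le
        apply mul_le_mul (hlog2.trans h2) _ (by positivity) (Real.exp_pos _).le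
        exact mul_le_mul hCk hPk hP0 (Real.exp_pos _).le
    _ ≤ Real.exp (-(ε / 8) * L) * Real.exp (k * (Real.log L - 1)) := by
        rw [← Real.exp_add, ← Real.exp_add, ← Real.exp_add, ← Real.exp_add]
        apply Real.exp_le_exp.2
        linarith
    _ ≤ Real.exp (-(ε / 8) * L) * (L - 1) ^ k := mul_le_mul_of_nonneg_left hLk (Real.exp_pos _).le

private theorem UpL_one {v Γ : ℝ} {D : ℕ → ℝ} (hD : Slow D) (hv : 1 ≤ v) (hΓ : 0 ≤ Γ) (μ : ℕ → Measure ℝ)
    [∀ n, IsProbabilityMeasure (μ n)] (h : Law v D μ) (β : ℕ → ℝ) (hβ : ∀ i, |β i| ≤ Γ)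
    {ε : ℝ} (hε : 0 < ε) (hε1 : ε ≤ 1) :
    ∀ᵐ a ∂(Measure.infinitePi μ), ∀ᶠ n : ℕ in atTop,
      ¬ ∀ i : ℕ, (i : ℝ) < (1 + ε) * (Real.log n / Real.log (Real.log n)) → (MCC.chain a β n i).Prime := by
  obtain ⟨C, hC, Y0, hY0, hmom⟩ := mom_one (v := v) (D := D) hD.one_le hv hΓ
  obtain ⟨C0, hC0⟩ := hD.slow (ε / 16) (by positivity)
  obtain ⟨Y1, hY1, hgeo⟩ := geo (v := v) (Γ := Γ) (η := 1 / 20) (δ := 1) hv hΓ (by norm_num) le_rfl
    one_pos
  obtain ⟨L0, hL0, hreal⟩ := UpL_real hε hε1 hC (le_max_left 1 C0)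
  have hDP : ∀ k : ℕ, 0 < k → 0 ≤ ∏ i ∈ Finset.range (k - 1), D i ∧
      ∏ i ∈ Finset.range (k - 1), D i ≤ (max 1 C0 * (k : ℝ) ^ (ε / 16)) ^ k := by
    intro k hk
    have hk1 : (1 : ℝ) ≤ k := by exact_mod_cast hk
    have hm1 : (1 : ℝ) ≤ max 1 C0 := le_max_left _ _
    refine ⟨Finset.prod_nonneg fun i _ => zero_le_one.trans (hD.one_le i), ?_⟩
    have h1 : 1 ≤ max 1 C0 * (k : ℝ) ^ (ε / 16) := by
      have := Real.one_le_rpow hk1 (show 0 ≤ ε / 16 by positivity)
      nlinarith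
    calc ∏ i ∈ Finset.range (k - 1), D i
        ≤ ∏ i ∈ Finset.range (k - 1), (max 1 C0 * (k : ℝ) ^ (ε / 16)) := by
          apply Finset.prod_le_prod
          · intro i _
            exact zero_le_one.trans (hD.one_le i)
          · intro i hi
            have hi' := Finset.mem_range.1 hi
            refine (hC0 i).trans ?_
            apply mul_le_mul (le_max_right _ _) _ (by positivity) (by positivity)
            apply Real.rpow_le_rpow (by positivity) _ (by positivity)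
            have : i + 1 ≤ k := by omega
            exact_mod_cast this
      _ = (max 1 C0 * (k : ℝ) ^ (ε / 16)) ^ (k - 1) := by
          rw [Finset.prod_const, Finset.card_range]
      _ ≤ (max 1 C0 * (k : ℝ) ^ (ε / 16)) ^ k := pow_le_pow_right₀ h1 (Nat.sub_le _ _)
  -- the scale
  set k : ℕ → ℕ := fun m => ⌈(1 + ε / 2) * (Real.log (2 ^ m : ℕ) / Real.log (Real.log (2 ^ m : ℕ)))⌉₊ with hk
  have hlogm : ∀ m : ℕ, Real.log ((2 ^ m : ℕ) : ℝ) = m * Real.log 2 := by
    intro m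
    push_cast
    rw [Real.log_pow]
  have hlt : Tendsto (fun m : ℕ => Real.log ((2 ^ m : ℕ) : ℝ)) atTop atTop := by
    simp_rw [hlogm]
    exact tendsto_natCast_atTop_atTop.atTop_mul_const (Real.log_pos (by norm_num))
  have hpt : Tendsto (fun m : ℕ => 2 ^ m) atTop atTop := tendsto_pow_atTop_atTop_of_one_lt (by norm_num : (1 : ℕ) < 2)
  obtain ⟨m0, hm0⟩ := eventually_atTop.1 ((hlt.eventually_ge_atTop L0).and
    (hpt.eventually_ge_atTop (max Y0 Y1)))
  -- the events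
  set s : ℕ → Set (ℕ → ℝ) := fun m => {a | ENNReal.ofReal ((Real.log ((2 ^ m : ℕ) : ℝ) - 1) ^ k m) ≤
    ∑ n ∈ Finset.Ioc (2 ^ m) (2 * 2 ^ m), ENNReal.ofReal (wt β n (k m - 1) a)} with hs
  have hj : ∀ m, m0 ≤ m → ∀ i : ℕ, i < k m →
      (i : ℝ) ≤ 2 * (Real.log ((2 ^ m : ℕ) : ℝ) / Real.log (Real.log ((2 ^ m : ℕ) : ℝ))) := by
    intro m hm i hi
    have h1 : (i : ℝ) < (1 + ε / 2) * (Real.log (2 ^ m : ℕ) / Real.log (Real.log (2 ^ m : ℕ))) :=
      Nat.lt_ceil.1 hi
    have hL := (hm0 m hm).1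
    have h3 : 0 ≤ Real.log ((2 ^ m : ℕ) : ℝ) / Real.log (Real.log ((2 ^ m : ℕ) : ℝ)) :=
      div_nonneg (by linarith) (Real.log_nonneg (by linarith))
    nlinarith
  have hkpos : ∀ m, m0 ≤ m → 0 < k m := by
    intro m hm
    apply Nat.ceil_pos.2
    have hL := (hm0 m hm).1
    have h3 : 0 < Real.log ((2 ^ m : ℕ) : ℝ) / Real.log (Real.log ((2 ^ m : ℕ) : ℝ)) :=
      div_pos (by linarith) (Real.log_pos (by linarith))
    positivity
  have hbound : ∀ m, m0 ≤ m → (Measure.infinitePi μ) (s m) ≤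
      ENNReal.ofReal (Real.exp (-(ε / 8) * Real.log 2) ^ m) := by
    intro m hm
    obtain ⟨hL, hY⟩ := hm0 m hm
    have hY0' : Y0 ≤ 2 ^ m := (le_max_left _ _).trans hY
    have hpos : 0 < (Real.log ((2 ^ m : ℕ) : ℝ) - 1) ^ k m := pow_pos (by linarith) _
    have hmeas : ∀ n ∈ Finset.Ioc (2 ^ m) (2 * 2 ^ m),
        Measurable fun a => ENNReal.ofReal (wt β n (k m - 1) a) := fun n _ =>
      (wt_meas β n _).ennreal_ofReal
    have h1 := meas_ge_le_lintegral_div (μ := Measure.infinitePi μ)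
      (f := fun a => ∑ n ∈ Finset.Ioc (2 ^ m) (2 * 2 ^ m), ENNReal.ofReal (wt β n (k m - 1) a))
      (Finset.measurable_sum _ hmeas).aemeasurable
      (ε := ENNReal.ofReal ((Real.log ((2 ^ m : ℕ) : ℝ) - 1) ^ k m))
      (by rw [Ne, ENNReal.ofReal_eq_zero, not_le]; exact hpos) ENNReal.ofReal_ne_top
    refine h1.trans ?_
    rw [lintegral_finsetSum _ hmeas]
    have h2 : ∑ n ∈ Finset.Ioc (2 ^ m) (2 * 2 ^ m),
        ∫⁻ a, ENNReal.ofReal (wt β n (k m - 1) a) ∂(Measure.infinitePi μ) ≤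
        ENNReal.ofReal (((2 ^ m : ℕ) : ℝ) * (Real.log (2 * ((2 ^ m : ℕ) : ℝ)) *
          (C ^ (k m - 1) * ∏ i ∈ Finset.range (k m - 1), D i))) := by
      calc ∑ n ∈ Finset.Ioc (2 ^ m) (2 * 2 ^ m),
          ∫⁻ a, ENNReal.ofReal (wt β n (k m - 1) a) ∂(Measure.infinitePi μ)
          ≤ ∑ n ∈ Finset.Ioc (2 ^ m) (2 * 2 ^ m),
            ENNReal.ofReal (Real.log (2 * ((2 ^ m : ℕ) : ℝ)) *
              (C ^ (k m - 1) * ∏ i ∈ Finset.range (k m - 1), D i)) := by
            refine Finset.sum_le_sum fun n hn => ?_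
            exact hmom (2 ^ m) hY0' μ h β hβ n hn (k m - 1)
              (hj m hm _ (Nat.sub_lt (hkpos m hm) one_pos))
        _ = _ := by
            rw [Finset.sum_const, Nat.card_Ioc, nsmul_eq_mul,
              ENNReal.ofReal_mul (p := ((2 ^ m : ℕ) : ℝ)) (Nat.cast_nonneg _), ENNReal.ofReal_natCast]
            congr 2
            omega
    refine (ENNReal.div_le_div_right h2 _).trans ?_
    rw [← ENNReal.ofReal_div_of_pos hpos]
    apply ENNReal.ofReal_le_ofReal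
    obtain ⟨hD1, hD2⟩ := hDP (k m) (hkpos m hm)
    refine (hreal ((2 ^ m : ℕ) : ℝ) hL (by positivity) _ hD1 hD2).trans (le_of_eq ?_)
    rw [hlogm, ← Real.exp_nat_mul]
    congr 1
    ring
  have hr : Real.exp (-(ε / 8) * Real.log 2) < 1 := by
    rw [Real.exp_lt_one_iff] 
    have := Real.log_pos (show (1 : ℝ) < 2 by norm_num)
    nlinarith
  have hBC : ∀ᵐ a ∂(Measure.infinitePi μ), ∀ᶠ m : ℕ in atTop, a ∉ s (m + m0) := by
    apply ae_eventually_notMem
    have h1 : Summable (fun m : ℕ => Real.exp (-(ε / 8) * Real.log 2) ^ (m + m0)) :=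
      (summable_nat_add_iff m0).2 (summable_geometric_of_lt_one (Real.exp_pos _).le hr)
    refine ne_top_of_le_ne_top h1.tsum_ofReal_ne_top ?_
    exact ENNReal.tsum_le_tsum fun m => hbound _ (Nat.le_add_left _ _)
  filter_upwards [hBC, ae_mem h] with a ha1 ha2
  obtain ⟨M, hM⟩ := eventually_atTop.1 ha1
  filter_upwards [eventually_gt_atTop (2 ^ (M + m0))] with n hn
  intro hcon
  -- the block of `n`
  obtain ⟨m, hm1, hm2, hm3⟩ : ∃ m, M + m0 ≤ m ∧ 2 ^ m < n ∧ n ≤ 2 * 2 ^ m := by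
    refine ⟨Nat.log 2 (n - 1), ?_, ?_, ?_⟩
    · apply Nat.le_log_of_pow_le (by norm_num)
      omega
    · have h1 : 2 ^ Nat.log 2 (n - 1) ≤ n - 1 := Nat.pow_log_le_self 2 (by
        have := Nat.one_le_two_pow (n := M + m0)
        omega)
      have := Nat.one_le_two_pow (n := M + m0)
      omega
    · have h1 : n - 1 < 2 ^ (Nat.log 2 (n - 1)).succ := Nat.lt_pow_succ_log_self (by norm_num) _
      rw [pow_succ] at h1
      omega
  have hmm0 : m0 ≤ m := by omega
  obtain ⟨hL, hY⟩ := hm0 m hmm0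
  have hnot : a ∉ s m := by
    have h1 := hM (m - m0) (by omega)
    rwa [Nat.sub_add_cancel hmm0] at h1
  have hnI : n ∈ Finset.Ioc (2 ^ m) (2 * 2 ^ m) := Finset.mem_Ioc.2 ⟨hm2, hm3⟩
  have hprime : ∀ i < k m, (MCC.chain a β n i).Prime := by
    intro i hi
    apply hcon
    have h1 : (i : ℝ) < (1 + ε / 2) * (Real.log (2 ^ m : ℕ) / Real.log (Real.log (2 ^ m : ℕ))) :=
      Nat.lt_ceil.1 hi
    have h2 : Real.log ((2 ^ m : ℕ) : ℝ) / Real.log (Real.log ((2 ^ m : ℕ) : ℝ)) ≤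
        Real.log n / Real.log (Real.log n) := by
      apply UpL_mono
      · have := Real.exp_one_lt_d9
        linarith
      · apply Real.log_le_log (by positivity)
        exact_mod_cast hm2.le
    have h3 : 0 ≤ Real.log ((2 ^ m : ℕ) : ℝ) / Real.log (Real.log ((2 ^ m : ℕ) : ℝ)) :=
      div_nonneg (by linarith) (Real.log_nonneg (by linarith))
    nlinarith
  apply hnot
  have hth : ∀ i < k m, Real.log ((2 ^ m : ℕ) : ℝ) - 1 ≤ th (MCC.chain a β n i) := by
    intro i hi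
    have h1 := ((hgeo (2 ^ m) ((le_max_right _ _).trans hY) a β ha2 hβ i (hj m hmm0 i hi)).2.2.2.1 n hnI)
    rw [th, if_pos (hprime i hi)]
    have h2 : ((2 ^ m : ℕ) : ℝ) / 2 ≤ (MCC.chain a β n i : ℝ) := by
      refine le_trans ?_ h1.2.1
      have : ((2 ^ m : ℕ) : ℝ) ≤ n := by exact_mod_cast hm2.le
      linarith
    have h3 := Real.log_le_log (by positivity) h2
    rw [Real.log_div (by positivity) (by norm_num)] at h3
    have := Real.log_two_lt_d9
    linarith
  have hw : (Real.log ((2 ^ m : ℕ) : ℝ) - 1) ^ k m ≤ wt β n (k m - 1) a := by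
    unfold wt
    rw [Nat.sub_add_cancel (hkpos m hmm0)]
    calc (Real.log ((2 ^ m : ℕ) : ℝ) - 1) ^ k m =
        ∏ i ∈ Finset.range (k m), (Real.log ((2 ^ m : ℕ) : ℝ) - 1) := by
          rw [Finset.prod_const, Finset.card_range]
      _ ≤ ∏ i ∈ Finset.range (k m), th (MCC.chain a β n i) := by
          apply Finset.prod_le_prod
          · intro i _
            linarith
          · intro i hi
            exact hth i (Finset.mem_range.1 hi)
  change ENNReal.ofReal ((Real.log ((2 ^ m : ℕ) : ℝ) - 1) ^ k m) ≤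
    ∑ n ∈ Finset.Ioc (2 ^ m) (2 * 2 ^ m), ENNReal.ofReal (wt β n (k m - 1) a)
  exact (ENNReal.ofReal_le_ofReal hw).trans
    (Finset.single_le_sum (f := fun n => ENNReal.ofReal (wt β n (k m - 1) a))
      (fun _ _ => zero_le) hnI)

theorem ae_upper {v Γ : ℝ} {D : ℕ → ℝ} (hD : Slow D) (hv : 1 ≤ v) (hΓ : 0 ≤ Γ) (μ : ℕ → Measure ℝ)
    [∀ n, IsProbabilityMeasure (μ n)] (h : Law v D μ) (β : ℕ → ℝ) (hβ : ∀ i, |β i| ≤ Γ) :
    ∀ᵐ a ∂(Measure.infinitePi μ), ∀ ε : ℝ, 0 < ε → ∀ᶠ n : ℕ in atTop,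
      ¬ ∀ i : ℕ, (i : ℝ) < (1 + ε) * (Real.log n / Real.log (Real.log n)) → (MCC.chain a β n i).Prime := by
  have h1 : ∀ q : ℕ, ∀ᵐ a ∂(Measure.infinitePi μ), ∀ᶠ n : ℕ in atTop,
      ¬ ∀ i : ℕ, (i : ℝ) < (1 + 1 / ((q : ℝ) + 1)) * (Real.log n / Real.log (Real.log n)) →
        (MCC.chain a β n i).Prime := by
    intro q
    refine UpL_one hD hv hΓ μ h β hβ (by positivity) ?_
    rw [div_le_one (by positivity)]
    linarith [Nat.cast_nonneg (α := ℝ) q]
  filter_upwards [ae_all_iff.2 h1] with a ha ε hε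
  obtain ⟨q, hq⟩ := exists_nat_one_div_lt hε
  filter_upwards [ha q, eventually_ge_atTop 3] with n hn hn3 hcon
  apply hn
  intro i hi
  apply hcon
  refine hi.trans_le ?_
  have hlog : 1 ≤ Real.log n := by
    have h3 : Real.exp 1 ≤ n := by
      have := Real.exp_one_lt_d9
      have h4 : (3 : ℝ) ≤ n := by exact_mod_cast hn3
      linarith
    have := Real.log_le_log (Real.exp_pos 1) h3
    rwa [Real.log_exp] at this
  have h2 : 0 ≤ Real.log n / Real.log (Real.log n) :=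
    div_nonneg (by linarith) (Real.log_nonneg hlog)
  exact mul_le_mul_of_nonneg_right (by linarith) h2

end RLC
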