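import Pool.Agent.RLC.AeW
import Pool.Agent.RLC.UpL
import Pool.Agent.RLC.LowS
import Pool.Agent.RLC.UppS

/-!
# RLC.Main: the theorem

PROOF. Almost surely `Good v Γ a β` (`ae_good`) and the conclusion of `ae_upper` hold; fix such an `a`.
First part: the number of the `p ≤ X` which start a chain of exact length `k` is `cnt k (Ioc 0 X) - cnt (k+1) (Ioc 0 X)` up to the boundedly many
`p ≤ p0` (`p0` depends on `a`, not on `k`) for which `chain a β p k ≤ 1` is possible: to be exact, let `E` be the set of the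
`p ∈ (0, X]` with `∀ i < k, prime` and `¬ (∀ i < k+1, prime)`. Then `StartsExact p k` iff `p ∈ E` and `1 < chain a β p k`. For
`p ≥ p0` and `k ≤ log X/log log X`: is `chain a β p k > 1`? For small `p` compared with `k` this is not clear from `chain_near`, so use a cruder
count: the `p ∈ E` with `chain a β p k ≤ 1` satisfy `p < 2(1+Γ)(k+2)` (`chain_near` shows `c_k ≥ p - (1+Γ)k ≥ 2` if `p ≥ (1+Γ)(k+2) + ..`), so there
are at most `2(1+Γ)(k+2) ≤ (log X)²` of them, and `(log X)² PP a k X ≤ X^(1-ε/2)` by `PP_le`. So the number in question, times `PP a k X/X`, is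
between `cnt k PP/X - cnt (k+1) PP/X - X^(-ε/2)` and `cnt k PP/X`; `cnt (k+1) · PP a k X ≤ cnt (k+1) PP a (k+1) X/log X ≤ 2X/log X`
(`PP_succ`, `cnt_upper` with `ε/2` for `k+1`: `k + 1 ≤ (1-ε/2) log X/log log X` for large `X`). Conclude with
`cnt_lower`, `cnt_upper` (`e = ε/4`).
Second part: `ae_upper` with `ε/2`: there is `n0` such that for `n ≥ n0` the members `c_i`, `i < (1+ε/2) log n/log log n`, are not all primes. Let
`StartsExact a β p k` with `p ≤ X`. If `p ≥ n0` (and `p ≥ 16`), then `k ≤ (1+ε/2) log p/log log p + 1 ≤ (1+ε/2) log X/log log X + 1 ≤ (1+ε) log X/log log X`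
(`x/log x` is increasing for `x ≥ e`; for `p < 16`.. increase `n0`). If `p < n0`: a `p` starts a chain of exact length `k` for at most one `k`
(`StartsExact` for `k < k'` is contradictory), so these `k` are bounded (finitely many `p`), and `log X/log log X → ∞`.
-/

namespace RLC

open MeasureTheory Filter

private theorem Main_L_tendsto :
    Tendsto (fun X : ℕ => Real.log X / Real.log (Real.log X)) atTop atTop := by
  have h1 : Tendsto (fun t : ℝ => t / Real.log t) atTop atTop := by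
    rw [tendsto_atTop]
    intro K
    have hK : (0 : ℝ) < |K| + 1 := by positivity
    have h2 := Real.isLittleO_log_id_atTop.bound (c := 1 / (|K| + 1)) (by positivity)
    filter_upwards [h2, eventually_gt_atTop (1 : ℝ)] with t ht ht1
    have h3 : 0 < Real.log t := Real.log_pos ht1
    rw [id, Real.norm_of_nonneg h3.le, Real.norm_of_nonneg (by linarith)] at ht
    have h4 : (|K| + 1) * Real.log t ≤ t := by
      calc (|K| + 1) * Real.log t ≤ (|K| + 1) * (1 / (|K| + 1) * t) :=
            mul_le_mul_of_nonneg_left ht hK.le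
        _ = t := by field_simp
    rw [le_div_iff₀ h3]
    have h5 : K * Real.log t ≤ (|K| + 1) * Real.log t :=
      mul_le_mul_of_nonneg_right (by linarith [le_abs_self K]) h3.le
    linarith
  exact h1.comp (Real.tendsto_log_atTop.comp tendsto_natCast_atTop_atTop)

private theorem Main_log_tendsto : Tendsto (fun X : ℕ => Real.log (X : ℝ)) atTop atTop :=
  Real.tendsto_log_atTop.comp tendsto_natCast_atTop_atTop

/-- `log x/log log x` is increasing for `x ≥ 16`. -/
private theorem Main_L_mono {x y : ℝ} (hx : 16 ≤ x) (hxy : x ≤ y) :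
    Real.log x / Real.log (Real.log x) ≤ Real.log y / Real.log (Real.log y) := by
  have he : Real.exp 1 ≤ Real.log x := by
    have h1 : Real.log 16 = 4 * Real.log 2 := by
      rw [show (16 : ℝ) = 2 ^ (4 : ℕ) by norm_num, Real.log_pow]
      norm_num
    have h2 : Real.log 16 ≤ Real.log x := Real.log_le_log (by norm_num) hx
    have h3 := Real.log_two_gt_d9
    have h4 := Real.exp_one_lt_d9
    linarith
  have hxy' : Real.log x ≤ Real.log y := Real.log_le_log (by linarith) hxy
  have he' : Real.exp 1 ≤ Real.log y := he.trans hxy'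
  have hpos : 0 < Real.log x := lt_of_lt_of_le (Real.exp_pos 1) he
  have hpos' : 0 < Real.log y := lt_of_lt_of_le (Real.exp_pos 1) he'
  have h1 : 1 < Real.exp 1 := by
    have := Real.exp_one_gt_d9
    linarith
  have hl : 0 < Real.log (Real.log x) := Real.log_pos (by linarith)
  have hl' : 0 < Real.log (Real.log y) := Real.log_pos (by linarith)
  have h := Real.log_div_self_antitoneOn (show Real.log x ∈ {x : ℝ | Real.exp 1 ≤ x} from he)
    (show Real.log y ∈ {x : ℝ | Real.exp 1 ≤ x} from he') hxy'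
  simp only at h
  rw [div_le_div_iff₀ hpos' hpos] at h
  rw [div_le_div_iff₀ hl hl']
  linarith

/-- `p` starts a chain of exact length `k` for at most one `k`. -/
private theorem Main_unique {a β : ℕ → ℝ} {p k k' : ℕ} (h : MCC.StartsExact a β p k)
    (h' : MCC.StartsExact a β p k') : k = k' := by
  rcases lt_trichotomy k k' with hlt | heq | hgt
  · exact absurd (h'.1 k hlt) h.2.2
  · exact heq
  · exact absurd (h.1 k' hgt) h'.2.2

private theorem Main_bounded (a β : ℕ → ℝ) (n1 : ℕ) :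
    ∃ K : ℕ, ∀ p < n1, ∀ k : ℕ, MCC.StartsExact a β p k → k ≤ K := by
  induction n1 with
  | zero => exact ⟨0, fun p hp => absurd hp (Nat.not_lt_zero p)⟩
  | succ n1 ih =>
    obtain ⟨K, hK⟩ := ih
    by_cases hex : ∃ k, MCC.StartsExact a β n1 k
    · obtain ⟨k0, hk0⟩ := hex
      refine ⟨max K k0, fun p hp k hk => ?_⟩
      rcases Nat.lt_succ_iff_lt_or_eq.1 hp with h | h
      · exact (hK p h k hk).trans (le_max_left _ _)
      · subst h
        exact (Main_unique hk hk0).le.trans (le_max_right _ _)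
    · refine ⟨K, fun p hp k hk => ?_⟩
      rcases Nat.lt_succ_iff_lt_or_eq.1 hp with h | h
      · exact hK p h k hk
      · subst h
        exact absurd ⟨k, hk⟩ hex

/-- A starting point whose chain ends with `0` or `1` is small. -/
private theorem Main_small {v Γ : ℝ} (hΓ : 0 ≤ Γ) {a β : ℕ → ℝ} (ha : ∀ i, a i ∈ Set.Icc 1 v)
    (hβ : ∀ i, |β i| ≤ Γ) {p k : ℕ} (h : MCC.chain a β p k ≤ 1) :
    (p : ℝ) < (1 + Γ) * ((k : ℝ) + 2) := by
  by_contra hcon
  push Not at hcon
  have h1 := chain_near hΓ ha hβ hcon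
  have h2 := pa_one_le ha k
  have h3 : (MCC.chain a β p k : ℝ) ≤ 1 := by exact_mod_cast h
  have h4 := (abs_le.1 h1).1
  have h5 : pa a k * (2 * (1 + Γ)) ≤ pa a k * ((p : ℝ) - (1 + Γ) * k) :=
    mul_le_mul_of_nonneg_left (by linarith) (by linarith)
  have h6 : 1 * (2 * (1 + Γ)) ≤ pa a k * (2 * (1 + Γ)) :=
    mul_le_mul_of_nonneg_right h2 (by linarith)
  nlinarith

open Classical in
private theorem Main_count {v Γ : ℝ} (hΓ : 0 ≤ Γ) {a β : ℕ → ℝ} (ha : ∀ i, a i ∈ Set.Icc 1 v)
    (hβ : ∀ i, |β i| ≤ Γ) (X k : ℕ) :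
    (((Finset.Icc 1 X).filter fun p => MCC.StartsExact a β p k).card : ℝ) ≤
        (cnt a β k (Finset.Ioc 0 X) : ℝ) ∧
      (cnt a β k (Finset.Ioc 0 X) : ℝ) ≤
        (((Finset.Icc 1 X).filter fun p => MCC.StartsExact a β p k).card : ℝ) +
          (cnt a β (k + 1) (Finset.Ioc 0 X) : ℝ) + (1 + Γ) * ((k : ℝ) + 2) := by
  have hI : Finset.Icc 1 X = Finset.Ioc 0 X := by
    ext n
    simp only [Finset.mem_Icc, Finset.mem_Ioc]
    omega
  rw [hI]
  constructor
  · unfold cnt
    have : ((Finset.Ioc 0 X).filter fun p => MCC.StartsExact a β p k) ⊆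
        ((Finset.Ioc 0 X).filter fun n => ∀ i < k, (MCC.chain a β n i).Prime) := by
      intro p hp
      rw [Finset.mem_filter] at hp ⊢
      exact ⟨hp.1, hp.2.1⟩
    exact_mod_cast Finset.card_le_card this
  · set R : ℝ := (1 + Γ) * ((k : ℝ) + 2) with hR
    have hR0 : 0 ≤ R := by positivity
    have hsub : ((Finset.Ioc 0 X).filter fun n => ∀ i < k, (MCC.chain a β n i).Prime) ⊆
        (((Finset.Ioc 0 X).filter fun p => MCC.StartsExact a β p k) ∪
          ((Finset.Ioc 0 X).filter fun n => ∀ i < k + 1, (MCC.chain a β n i).Prime)) ∪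
          Finset.Ioc 0 ⌊R⌋₊ := by
      intro p hp
      rw [Finset.mem_filter] at hp
      rw [Finset.mem_union, Finset.mem_union, Finset.mem_filter, Finset.mem_filter]
      by_cases h1 : (MCC.chain a β p k).Prime
      · left
        right
        refine ⟨hp.1, fun i hi => ?_⟩
        rcases Nat.lt_succ_iff_lt_or_eq.1 hi with h | h
        · exact hp.2 i h
        · rw [h]
          exact h1
      · by_cases h2 : 1 < MCC.chain a β p k
        · left
          left
          exact ⟨hp.1, hp.2, h2, h1⟩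
        · right
          rw [Finset.mem_Ioc]
          refine ⟨(Finset.mem_Ioc.1 hp.1).1, Nat.le_floor ?_⟩
          exact (Main_small hΓ ha hβ (not_lt.1 h2)).le
    have h1 := (Finset.card_le_card hsub).trans ((Finset.card_union_le _ _).trans
      (Nat.add_le_add_right (Finset.card_union_le _ _) _))
    rw [Nat.card_Ioc, Nat.sub_zero] at h1
    have h2 : (⌊R⌋₊ : ℝ) ≤ R := Nat.floor_le hR0
    unfold cnt
    have h3 : ((((Finset.Ioc 0 X).filter fun n => ∀ i < k, (MCC.chain a β n i).Prime).card : ℕ) : ℝ) ≤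
        (((((Finset.Ioc 0 X).filter fun p => MCC.StartsExact a β p k).card +
          ((Finset.Ioc 0 X).filter fun n => ∀ i < k + 1, (MCC.chain a β n i).Prime).card) +
          ⌊R⌋₊ : ℕ) : ℝ) := Nat.cast_le.2 h1
    push_cast at h3
    linarith

open Classical in
private theorem Main_first {v Γ : ℝ} (hv : 1 ≤ v) (hΓ : 0 ≤ Γ) {a β : ℕ → ℝ} (G : Good v Γ a β)
    {ε : ℝ} (hε : 0 < ε) (hε1 : ε < 1) : ∀ᶠ X : ℕ in atTop,
      ∀ k : ℕ, 1 ≤ k → (k : ℝ) ≤ (1 - ε) * (Real.log X / Real.log (Real.log X)) →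
        |(((Finset.Icc 1 X).filter fun p => MCC.StartsExact a β p k).card : ℝ) *
          PP a k X / X - 1| ≤ ε := by
  have hlow := cnt_lower hv hΓ G hε hε1 (e := ε / 4) (by linarith)
  have hup := cnt_upper hv hΓ G hε hε1 (e := ε / 4) (by linarith)
  have hup' := cnt_upper hv hΓ G (half_pos hε) (by linarith : ε / 2 < 1) (e := ε / 4) (by linarith)
  have hPP := PP_le (v := v) hv hε hε1
  have hL := Main_L_tendsto.eventually_ge_atTop (2 / ε)
  have hlog := Main_log_tendsto.eventually_ge_atTop (max (8 / ε) (Real.exp 1))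
  have hrp : ∀ᶠ X : ℕ in atTop, Real.log (X : ℝ) ≤ ε / (12 * (1 + Γ)) * (X : ℝ) ^ (3 / 4 * ε) := by
    have h1 := (isLittleO_log_rpow_atTop (r := 3 / 4 * ε) (by positivity)).bound
      (c := ε / (12 * (1 + Γ))) (by positivity)
    have h2 := tendsto_natCast_atTop_atTop.eventually h1
    filter_upwards [h2, eventually_ge_atTop 1] with X hX hX1
    have h3 : (1 : ℝ) ≤ X := by exact_mod_cast hX1
    rw [Real.norm_of_nonneg (Real.log_nonneg h3),
      Real.norm_of_nonneg (Real.rpow_nonneg (by linarith) _)] at hX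
    exact hX
  filter_upwards [hlow, hup, hup', hPP, hL, hlog, hrp, eventually_ge_atTop 2] with X h1 h2 h3 h4
    h5 h6 h7 h8 k hk hkL
  have hX2 : (2 : ℝ) ≤ X := by exact_mod_cast h8
  have hX1 : (1 : ℝ) < X := by linarith
  have hX0 : (0 : ℝ) < X := by linarith
  have hlog8 : 8 / ε ≤ Real.log X := (le_max_left _ _).trans h6
  have hloge : Real.exp 1 ≤ Real.log X := (le_max_right _ _).trans h6
  have he1 : (1 : ℝ) ≤ Real.exp 1 := Real.one_le_exp (by norm_num)
  have hlog1 : 1 ≤ Real.log X := he1.trans hloge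
  have hlog0 : 0 < Real.log X := by linarith
  have hll : 1 ≤ Real.log (Real.log X) := by
    rw [Real.le_log_iff_exp_le hlog0]
    exact hloge
  set L : ℝ := Real.log X / Real.log (Real.log X) with hLdef
  have hLle : L ≤ Real.log X := div_le_self hlog0.le hll
  have hL0 : 0 ≤ L := by positivity
  have hkL' : ((k + 1 : ℕ) : ℝ) ≤ (1 - ε / 2) * L := by
    push_cast
    have : 1 ≤ ε / 2 * L := by
      rw [div_le_iff₀ hε] at h5
      linarith
    linarith
  have hklog : (k : ℝ) ≤ Real.log X := by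
    have : (1 - ε) * L ≤ 1 * L := mul_le_mul_of_nonneg_right (by linarith) hL0
    linarith
  have hP0 : 0 < PP a k X := PP_pos G.mem hX1
  have hc := Main_count hΓ G.mem G.bd X k
  set N : ℝ := (((Finset.Icc 1 X).filter fun p => MCC.StartsExact a β p k).card : ℝ) with hN
  set c0 : ℝ := (cnt a β k (Finset.Ioc 0 X) : ℝ) with hc0
  set c1 : ℝ := (cnt a β (k + 1) (Finset.Ioc 0 X) : ℝ) with hc1
  have hc1nn : 0 ≤ c1 := Nat.cast_nonneg _
  have g1 : (1 - ε / 4) * X ≤ c0 * PP a k X := h1 k hk hkL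
  have g2 : c0 * PP a k X ≤ (1 + ε / 4) * X := h2 k hk hkL
  have g3 : c1 * PP a (k + 1) X ≤ (1 + ε / 4) * X := h3 (k + 1) (by omega) hkL'
  have g4 : PP a k X ≤ (X : ℝ) ^ (1 - 3 / 4 * ε) := h4 a G.mem k hkL
  have g5 : PP a k X * Real.log X ≤ PP a (k + 1) X := PP_succ G.mem hX1
  -- the chains of length `k + 1`
  have g6 : c1 * PP a k X * Real.log X ≤ 2 * X := by
    calc c1 * PP a k X * Real.log X = c1 * (PP a k X * Real.log X) := by ring
      _ ≤ c1 * PP a (k + 1) X := mul_le_mul_of_nonneg_left g5 hc1nn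
      _ ≤ (1 + ε / 4) * X := g3
      _ ≤ 2 * X := mul_le_mul_of_nonneg_right (by linarith) hX0.le
  have g7 : c1 * PP a k X ≤ ε / 4 * X := by
    have h9 : 0 ≤ c1 * PP a k X := by positivity
    have h10 : c1 * PP a k X * (8 / ε) ≤ 2 * X :=
      (mul_le_mul_of_nonneg_left hlog8 h9).trans g6
    have h11 : c1 * PP a k X * (8 / ε) = c1 * PP a k X / ε * 8 := by ring
    rw [h11] at h10
    have h12 : c1 * PP a k X / ε ≤ X / 4 := by linarith
    rw [div_le_iff₀ hε] at h12
    linarith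
  -- the small starting points
  have g8 : (1 + Γ) * ((k : ℝ) + 2) * PP a k X ≤ ε / 4 * X := by
    have h9 : (1 + Γ) * ((k : ℝ) + 2) ≤ (1 + Γ) * (3 * Real.log X) :=
      mul_le_mul_of_nonneg_left (by linarith) (by linarith)
    have h10 : (1 + Γ) * (3 * Real.log X) ≤ ε / 4 * (X : ℝ) ^ (3 / 4 * ε) := by
      have : (1 + Γ) * (3 * Real.log X) ≤ (1 + Γ) * (3 * (ε / (12 * (1 + Γ)) * (X : ℝ) ^ (3 / 4 * ε))) :=
        mul_le_mul_of_nonneg_left (by linarith) (by linarith)
      refine this.trans (le_of_eq ?_)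
      have hG : (1 + Γ) ≠ 0 := by positivity
      field_simp
      ring
    calc (1 + Γ) * ((k : ℝ) + 2) * PP a k X
        ≤ (ε / 4 * (X : ℝ) ^ (3 / 4 * ε)) * (X : ℝ) ^ (1 - 3 / 4 * ε) :=
          mul_le_mul (h9.trans h10) g4 hP0.le (by positivity)
      _ = ε / 4 * X := by
          rw [mul_assoc, ← Real.rpow_add hX0]
          rw [show 3 / 4 * ε + (1 - 3 / 4 * ε) = 1 by ring, Real.rpow_one]
  have g9 : N * PP a k X ≤ (1 + ε / 4) * X :=
    (mul_le_mul_of_nonneg_right hc.1 hP0.le).trans g2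
  have g10 : (1 - ε) * X ≤ N * PP a k X := by
    have h9 : c0 * PP a k X ≤ (N + c1 + (1 + Γ) * ((k : ℝ) + 2)) * PP a k X :=
      mul_le_mul_of_nonneg_right hc.2 hP0.le
    have h10 : (N + c1 + (1 + Γ) * ((k : ℝ) + 2)) * PP a k X =
        N * PP a k X + c1 * PP a k X + (1 + Γ) * ((k : ℝ) + 2) * PP a k X := by ring
    rw [h10] at h9
    nlinarith [mul_pos hε hX0]
  rw [abs_le]
  constructor
  · have : 1 - ε ≤ N * PP a k X / X := by
      rw [le_div_iff₀ hX0]
      exact g10
    linarith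
  · have : N * PP a k X / X ≤ 1 + ε / 4 := by
      rw [div_le_iff₀ hX0]
      exact g9
    linarith

private theorem Main_second {a β : ℕ → ℝ}
    (U : ∀ ε : ℝ, 0 < ε → ∀ᶠ n : ℕ in atTop,
      ¬ ∀ i : ℕ, (i : ℝ) < (1 + ε) * (Real.log n / Real.log (Real.log n)) →
        (MCC.chain a β n i).Prime)
    {ε : ℝ} (hε : 0 < ε) : ∀ᶠ X : ℕ in atTop,
      ∀ p ∈ Finset.Icc 1 X, ∀ k : ℕ, MCC.StartsExact a β p k →
        (k : ℝ) ≤ (1 + ε) * (Real.log X / Real.log (Real.log X)) := by
  obtain ⟨n0, hn0⟩ := eventually_atTop.1 (U ε hε)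
  obtain ⟨K, hK⟩ := Main_bounded a β (max n0 16)
  filter_upwards [Main_L_tendsto.eventually_ge_atTop (K : ℝ)] with X hX p hp k hk
  have hL0 : 0 ≤ Real.log X / Real.log (Real.log X) := (Nat.cast_nonneg K).trans hX
  by_cases hp0 : p < max n0 16
  · have h1 : (k : ℝ) ≤ K := by exact_mod_cast hK p hp0 k hk
    have h2 : 0 ≤ ε * (Real.log X / Real.log (Real.log X)) := by positivity
    linarith
  · have hp1 := not_lt.1 hp0
    have hpn : n0 ≤ p := (le_max_left _ _).trans hp1
    have hp16 : (16 : ℝ) ≤ p := by exact_mod_cast (le_max_right n0 16).trans hp1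
    have hpX : (p : ℝ) ≤ X := by exact_mod_cast (Finset.mem_Icc.1 hp).2
    have h1 := hn0 p hpn
    have h2 : (k : ℝ) < (1 + ε) * (Real.log p / Real.log (Real.log p)) := by
      by_contra hcon
      push Not at hcon
      apply h1
      intro i hi
      apply hk.1 i
      have : (i : ℝ) < k := lt_of_lt_of_le hi hcon
      exact_mod_cast this
    have h3 := Main_L_mono hp16 hpX
    have h4 := mul_le_mul_of_nonneg_left h3 (by linarith : 0 ≤ 1 + ε)
    linarith

open Classical in
theorem main {v Γ : ℝ} {D : ℕ → ℝ} (hD : Slow D) (hv : 1 ≤ v) (hΓ : 0 ≤ Γ) (μ : ℕ → Measure ℝ)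
    [∀ n, IsProbabilityMeasure (μ n)] (h : Law v D μ) (β : ℕ → ℝ) (hβ : ∀ i, |β i| ≤ Γ) :
    ∀ᵐ a ∂(Measure.infinitePi μ), ∀ ε : ℝ, 0 < ε → ε < 1 → ∀ᶠ X : ℕ in atTop,
      (∀ k : ℕ, 1 ≤ k → (k : ℝ) ≤ (1 - ε) * (Real.log X / Real.log (Real.log X)) →
        |(((Finset.Icc 1 X).filter fun p => MCC.StartsExact a β p k).card : ℝ) *
          (∏ i ∈ Finset.range k, Real.log ((∏ j ∈ Finset.range i, a j) * X)) / X - 1| ≤ ε) ∧
      (∀ p ∈ Finset.Icc 1 X, ∀ k : ℕ, MCC.StartsExact a β p k →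
        (k : ℝ) ≤ (1 + ε) * (Real.log X / Real.log (Real.log X))) := by
  filter_upwards [ae_good hD hv hΓ μ h β hβ, ae_upper hD hv hΓ μ h β hβ] with a G U ε hε hε1
  have h1 := Main_first hv hΓ G hε hε1
  have h2 := Main_second U hε
  filter_upwards [h1, h2] with X h3 h4
  exact ⟨fun k hk hkL => h3 k hk hkL, h4⟩

end RLC
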