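import Pool.Agent.RLC.StepM
import Pool.Agent.RLC.Geo
import Pool.Agent.RLC.Resamp

/-!
# RLC.Mom: the moments of the weights

PROOF. `mom_one`: induction on `j`: by `resample` at the coordinate `j`, `wt_update_succ`:
`∫⁻ wt_{j+1} = ∫⁻ wt_j(a) ∫⁻ θ(⌊y c_j + β_j⌋) dμ_j(y)`, and for `a` with all `a i ∈ [1,v]` (almost all, `ae_mem`) the inner integral is
`≤ ofReal (D j) ∫⁻_{[1,v]} .. ≤ ofReal (D j C)` by `Law.le` (`lintegral` of `μ j` is at most `ofReal (D j)` times that of `volume.restrict (Icc 1 v)`, as measures: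
`Measure.le_iff`) and `step_one` with `w = ww a Y j` (`geo`). `wt_0 = θ(n) ≤ log(2Y)`. The constant `C` is that of `step_one`.
`mom_two`: the same with `step_two`; `Gen` from `geo`. Here `wt_{j+1} wt'_{j+1}` becomes
`wt_j wt_j' ∫⁻ θ(⌊y c_j+β_j⌋) θ(⌊y c_j'+β_j⌋)`.
`mom_triv`: for almost all `a`: `wt β n' j a ≤ ∏_{i≤j} log c_i' ≤ ((1+δ) log Y + 4)^(j+1)` (`geo`: `log c_i' ≤ ww a Y i + 3`;
`th_le_log`) and `mom_one`.
-/

namespace RLC

open MeasureTheory

private theorem Mom_th_meas : Measurable th := measurable_of_countable _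

private theorem Mom_th_floor (c β : ℝ) : Measurable fun y : ℝ => th ⌊y * c + β⌋₊ :=
  Mom_th_meas.comp (Nat.measurable_floor.comp ((measurable_id.mul_const c).add_const β))

private theorem Mom_th_bd {v : ℝ} (c β : ℝ) {y : ℝ} (hy : y ∈ Set.Icc 1 v) :
    th ⌊y * c + β⌋₊ ≤ v * |c| + |β| := by
  have h1 := th_le_log ⌊y * c + β⌋₊
  have h2 : Real.log (⌊y * c + β⌋₊ : ℝ) ≤ (⌊y * c + β⌋₊ : ℝ) := Real.log_le_self (Nat.cast_nonneg _)
  have hy0 : 0 ≤ y := by linarith [hy.1]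
  have h4 : y * c ≤ v * |c| := by
    calc y * c ≤ y * |c| := mul_le_mul_of_nonneg_left (le_abs_self c) hy0
      _ ≤ v * |c| := mul_le_mul_of_nonneg_right hy.2 (abs_nonneg c)
  have hv0 : 0 ≤ v := hy0.trans hy.2
  have h3 : (⌊y * c + β⌋₊ : ℝ) ≤ v * |c| + |β| := by
    rcases le_or_gt 0 (y * c + β) with h0 | h0
    · exact (Nat.floor_le h0).trans (add_le_add h4 (le_abs_self β))
    · rw [Nat.floor_of_nonpos h0.le, Nat.cast_zero]
      positivity
  linarith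

/-- The integral of a bounded nonnegative function against `μ j`. -/
private theorem Mom_inner {v : ℝ} {D : ℕ → ℝ} (hD : ∀ n, 1 ≤ D n) {μ : ℕ → Measure ℝ} (h : Law v D μ) (j : ℕ) {g : ℝ → ℝ}
    (hg : Measurable g) (hg0 : ∀ y, 0 ≤ g y) {K : ℝ} (hK : ∀ y ∈ Set.Icc 1 v, g y ≤ K) {C : ℝ}
    (hC : ∫ y in Set.Icc 1 v, g y ≤ C) :
    ∫⁻ y, ENNReal.ofReal (g y) ∂(μ j) ≤ ENNReal.ofReal (C * D j) := by
  have hD0 : 0 ≤ D j := zero_le_one.trans (hD j)
  have h1 : μ j ≤ ENNReal.ofReal (D j) • (volume.restrict (Set.Icc 1 v)) := by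
    refine Measure.le_iff.2 fun s hs => ?_
    rw [Measure.smul_apply, Measure.restrict_apply hs, smul_eq_mul]
    exact h.le j s hs
  have h2 : IntegrableOn g (Set.Icc 1 v) := by
    refine Measure.integrableOn_of_bounded (M := K) isCompact_Icc.measure_lt_top.ne
      hg.aestronglyMeasurable ?_
    refine (ae_restrict_iff' measurableSet_Icc).2 (Filter.Eventually.of_forall fun y hy => ?_)
    rw [Real.norm_of_nonneg (hg0 y)]
    exact hK y hy
  have h3 : ∫⁻ y in Set.Icc 1 v, ENNReal.ofReal (g y) = ENNReal.ofReal (∫ y in Set.Icc 1 v, g y) :=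
    (ofReal_integral_eq_lintegral_ofReal h2 (Filter.Eventually.of_forall hg0)).symm
  calc ∫⁻ y, ENNReal.ofReal (g y) ∂(μ j)
      ≤ ∫⁻ y, ENNReal.ofReal (g y) ∂(ENNReal.ofReal (D j) • (volume.restrict (Set.Icc 1 v))) :=
        lintegral_mono' h1 le_rfl
    _ = ENNReal.ofReal (D j) * ENNReal.ofReal (∫ y in Set.Icc 1 v, g y) := by
        rw [lintegral_smul_measure, smul_eq_mul, h3]
    _ ≤ ENNReal.ofReal (D j) * ENNReal.ofReal C :=
        mul_le_mul' le_rfl (ENNReal.ofReal_le_ofReal hC)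
    _ = _ := by rw [← ENNReal.ofReal_mul hD0, mul_comm]

/-- For large `Y` the scales are large. -/
private theorem Mom_large (w0 : ℝ) : ∃ Y0 : ℕ, ∀ Y : ℕ, Y0 ≤ Y → w0 ≤ Real.log Y - 1 := by
  have h := (Real.tendsto_log_atTop.comp tendsto_natCast_atTop_atTop).eventually_ge_atTop (w0 + 1)
  obtain ⟨Y0, hY0⟩ := Filter.eventually_atTop.1 h
  refine ⟨Y0, fun Y hY => ?_⟩
  have := hY0 Y hY
  simp only [Function.comp_apply] at this
  linarith

private theorem Mom_zero (β : ℕ → ℝ) (n : ℕ) (a : ℕ → ℝ) : wt β n 0 a = th n := by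
  unfold wt
  rw [Finset.prod_range_one]
  rfl

private theorem Mom_th_n {Y n : ℕ} (hn : n ∈ Finset.Ioc Y (2 * Y)) : th n ≤ Real.log (2 * Y) := by
  rw [Finset.mem_Ioc] at hn
  refine (th_le_log n).trans (Real.log_le_log (by exact_mod_cast (by omega : 0 < n)) ?_)
  exact_mod_cast hn.2

private theorem Mom_log_pos {Y : ℕ} (hY : 3 ≤ Y) : 0 ≤ Real.log (2 * Y) := by
  apply Real.log_nonneg
  have : (3 : ℝ) ≤ Y := by exact_mod_cast hY
  linarith

theorem mom_one {v Γ : ℝ} {D : ℕ → ℝ} (hD : ∀ n, 1 ≤ D n) (hv : 1 ≤ v) (hΓ : 0 ≤ Γ) : ∃ C : ℝ, 1 ≤ C ∧ ∃ Y0 : ℕ, 3 ≤ Y0 ∧ ∀ Y : ℕ, Y0 ≤ Y →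
    ∀ (μ : ℕ → Measure ℝ) [∀ n, IsProbabilityMeasure (μ n)], Law v D μ → ∀ β : ℕ → ℝ, (∀ i, |β i| ≤ Γ) →
    ∀ n ∈ Finset.Ioc Y (2 * Y), ∀ j : ℕ, (j : ℝ) ≤ 2 * (Real.log Y / Real.log (Real.log Y)) →
    ∫⁻ a, ENNReal.ofReal (wt β n j a) ∂(Measure.infinitePi μ) ≤
      ENNReal.ofReal (Real.log (2 * Y) * (C ^ j * ∏ i ∈ Finset.range j, D i)) := by
  obtain ⟨C, w0, hC, hw0, hstep⟩ := step_one hv Γ
  obtain ⟨Y1, hY1, hgeo⟩ := geo (v := v) (Γ := Γ) (η := 1 / 20) (δ := 1) hv hΓ (by norm_num)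
    le_rfl one_pos
  obtain ⟨Y2, hY2⟩ := Mom_large w0
  refine ⟨C, hC, max Y1 Y2, hY1.trans (le_max_left _ _), ?_⟩
  intro Y hY μ _ hμ β hβ n hn j
  have hYY1 : Y1 ≤ Y := (le_max_left _ _).trans hY
  have hlog := Mom_log_pos (hY1.trans hYY1)
  induction j with
  | zero =>
    intro _
    rw [pow_zero, Finset.prod_range_zero, mul_one, mul_one]
    calc ∫⁻ a, ENNReal.ofReal (wt β n 0 a) ∂(Measure.infinitePi μ)
        ≤ ∫⁻ _, ENNReal.ofReal (Real.log (2 * Y)) ∂(Measure.infinitePi μ) := by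
          refine lintegral_mono fun a => ENNReal.ofReal_le_ofReal ?_
          rw [Mom_zero]
          exact Mom_th_n hn
      _ = _ := by rw [lintegral_const, measure_univ, mul_one]
  | succ j ih =>
    intro hj
    have hj' : (j : ℝ) ≤ 2 * (Real.log Y / Real.log (Real.log Y)) := by
      push_cast at hj
      linarith
    rw [resample μ j (fun a => ENNReal.ofReal (wt β n (j + 1) a)) (wt_meas β n (j + 1)).ennreal_ofReal]
    have h1 : ∀ᵐ a ∂(Measure.infinitePi μ),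
        ∫⁻ y, ENNReal.ofReal (wt β n (j + 1) (Function.update a j y)) ∂(μ j) ≤
          ENNReal.ofReal (C * D j) * ENNReal.ofReal (wt β n j a) := by
      filter_upwards [ae_mem hμ] with a ha
      obtain ⟨-, hg2, -, hg3, -⟩ := hgeo Y hYY1 a β ha hβ j hj'
      obtain ⟨hc0, -, hc3, -⟩ := hg3 n hn
      have hw : w0 ≤ ww a Y j := (hY2 Y ((le_max_right _ _).trans hY)).trans hg2
      have h2 := hstep (ww a Y j) (β j) hw (hβ j) (MCC.chain a β n j) hc0 hc3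
      have h3 := Mom_inner hD hμ j (Mom_th_floor (MCC.chain a β n j : ℝ) (β j))
        (fun y => th_nonneg _) (fun y hy => Mom_th_bd (v := v) _ _ hy) h2
      calc ∫⁻ y, ENNReal.ofReal (wt β n (j + 1) (Function.update a j y)) ∂(μ j)
          = ∫⁻ y, ENNReal.ofReal (wt β n j a) *
              ENNReal.ofReal (th ⌊y * (MCC.chain a β n j : ℝ) + β j⌋₊) ∂(μ j) := by
            refine lintegral_congr fun y => ?_
            rw [wt_update_succ, ENNReal.ofReal_mul (wt_nonneg β n j a)]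
        _ = ENNReal.ofReal (wt β n j a) *
              ∫⁻ y, ENNReal.ofReal (th ⌊y * (MCC.chain a β n j : ℝ) + β j⌋₊) ∂(μ j) :=
            lintegral_const_mul' _ _ ENNReal.ofReal_ne_top
        _ ≤ ENNReal.ofReal (wt β n j a) * ENNReal.ofReal (C * D j) :=
            mul_le_mul' le_rfl h3
        _ = _ := mul_comm _ _
    calc ∫⁻ a, ∫⁻ y, ENNReal.ofReal (wt β n (j + 1) (Function.update a j y)) ∂(μ j)
          ∂(Measure.infinitePi μ)
        ≤ ∫⁻ a, ENNReal.ofReal (C * D j) * ENNReal.ofReal (wt β n j a) ∂(Measure.infinitePi μ) :=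
          lintegral_mono_ae h1
      _ = ENNReal.ofReal (C * D j) * ∫⁻ a, ENNReal.ofReal (wt β n j a) ∂(Measure.infinitePi μ) :=
          lintegral_const_mul' _ _ ENNReal.ofReal_ne_top
      _ ≤ ENNReal.ofReal (C * D j) * ENNReal.ofReal (Real.log (2 * Y) * (C ^ j * ∏ i ∈ Finset.range j, D i)) :=
          mul_le_mul' le_rfl (ih hj')
      _ = ENNReal.ofReal (Real.log (2 * Y) * (C ^ (j + 1) * ∏ i ∈ Finset.range (j + 1), D i)) := by
          have := hD j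
          rw [← ENNReal.ofReal_mul (by positivity), Finset.prod_range_succ]
          congr 1
          ring

theorem mom_two {v Γ η : ℝ} {D : ℕ → ℝ} (hD : ∀ n, 1 ≤ D n) (hv : 1 ≤ v) (hΓ : 0 ≤ Γ) (hη : 0 < η) (hη1 : η ≤ 1 / 20) :
    ∃ C : ℝ, 1 ≤ C ∧ ∃ Y0 : ℕ, 3 ≤ Y0 ∧ ∀ Y : ℕ, Y0 ≤ Y →
    ∀ (μ : ℕ → Measure ℝ) [∀ n, IsProbabilityMeasure (μ n)], Law v D μ → ∀ β : ℕ → ℝ, (∀ i, |β i| ≤ Γ) →
    ∀ n ∈ Finset.Ioc Y (2 * Y), ∀ n' ∈ Finset.Ioc Y (2 * Y), GenY η Y n n' →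
    ∀ j : ℕ, (j : ℝ) ≤ 2 * (Real.log Y / Real.log (Real.log Y)) →
    ∫⁻ a, ENNReal.ofReal (wt β n j a * wt β n' j a) ∂(Measure.infinitePi μ) ≤
      ENNReal.ofReal (Real.log (2 * Y) ^ 2 * (C ^ j * ∏ i ∈ Finset.range j, D i)) := by
  obtain ⟨C, w0, hC, hw0, hstep⟩ := step_two hv hη hη1 Γ
  obtain ⟨Y1, hY1, hgeo⟩ := geo (v := v) (Γ := Γ) (η := η) (δ := 1) hv hΓ hη hη1 one_pos
  obtain ⟨Y2, hY2⟩ := Mom_large w0
  refine ⟨C, hC, max Y1 Y2, hY1.trans (le_max_left _ _), ?_⟩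
  intro Y hY μ _ hμ β hβ n hn n' hn' hgen j
  have hYY1 : Y1 ≤ Y := (le_max_left _ _).trans hY
  have hlog := Mom_log_pos (hY1.trans hYY1)
  induction j with
  | zero =>
    intro _
    rw [pow_zero, Finset.prod_range_zero, mul_one, mul_one]
    calc ∫⁻ a, ENNReal.ofReal (wt β n 0 a * wt β n' 0 a) ∂(Measure.infinitePi μ)
        ≤ ∫⁻ _, ENNReal.ofReal (Real.log (2 * Y) ^ 2) ∂(Measure.infinitePi μ) := by
          refine lintegral_mono fun a => ENNReal.ofReal_le_ofReal ?_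
          rw [Mom_zero, Mom_zero, sq]
          exact mul_le_mul (Mom_th_n hn) (Mom_th_n hn') (th_nonneg _) hlog
      _ = _ := by rw [lintegral_const, measure_univ, mul_one]
  | succ j ih =>
    intro hj
    have hj' : (j : ℝ) ≤ 2 * (Real.log Y / Real.log (Real.log Y)) := by
      push_cast at hj
      linarith
    rw [resample μ j (fun a => ENNReal.ofReal (wt β n (j + 1) a * wt β n' (j + 1) a))
      ((wt_meas β n (j + 1)).mul (wt_meas β n' (j + 1))).ennreal_ofReal]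
    have h1 : ∀ᵐ a ∂(Measure.infinitePi μ),
        ∫⁻ y, ENNReal.ofReal (wt β n (j + 1) (Function.update a j y) *
          wt β n' (j + 1) (Function.update a j y)) ∂(μ j) ≤
          ENNReal.ofReal (C * D j) * ENNReal.ofReal (wt β n j a * wt β n' j a) := by
      filter_upwards [ae_mem hμ] with a ha
      obtain ⟨-, hg2, -, hg3, hg4⟩ := hgeo Y hYY1 a β ha hβ j hj'
      obtain ⟨hc0, -, hc3, -⟩ := hg3 n hn
      obtain ⟨hc0', -, hc3', -⟩ := hg3 n' hn'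
      have hw : w0 ≤ ww a Y j := (hY2 Y ((le_max_right _ _).trans hY)).trans hg2
      have h2 := hstep (ww a Y j) (β j) hw (hβ j) (MCC.chain a β n j) (MCC.chain a β n' j)
        hc0 hc0' hc3 hc3' (hg4 n hn n' hn' hgen)
      have hv0 : (0 : ℝ) ≤ v := by linarith
      have h3 := Mom_inner (K := (v * |(MCC.chain a β n j : ℝ)| + |β j|) *
          (v * |(MCC.chain a β n' j : ℝ)| + |β j|)) hD hμ j
        ((Mom_th_floor (MCC.chain a β n j : ℝ) (β j)).mul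
          (Mom_th_floor (MCC.chain a β n' j : ℝ) (β j)))
        (fun y => mul_nonneg (th_nonneg _) (th_nonneg _))
        (fun y hy => mul_le_mul (Mom_th_bd (v := v) _ _ hy) (Mom_th_bd (v := v) _ _ hy)
          (th_nonneg _) (by positivity)) h2
      calc ∫⁻ y, ENNReal.ofReal (wt β n (j + 1) (Function.update a j y) *
              wt β n' (j + 1) (Function.update a j y)) ∂(μ j)
          = ∫⁻ y, ENNReal.ofReal (wt β n j a * wt β n' j a) *
              ENNReal.ofReal (th ⌊y * (MCC.chain a β n j : ℝ) + β j⌋₊ *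
                th ⌊y * (MCC.chain a β n' j : ℝ) + β j⌋₊) ∂(μ j) := by
            refine lintegral_congr fun y => ?_
            rw [wt_update_succ, wt_update_succ,
              ← ENNReal.ofReal_mul (mul_nonneg (wt_nonneg β n j a) (wt_nonneg β n' j a))]
            congr 1
            ring
        _ = ENNReal.ofReal (wt β n j a * wt β n' j a) *
              ∫⁻ y, ENNReal.ofReal (th ⌊y * (MCC.chain a β n j : ℝ) + β j⌋₊ *
                th ⌊y * (MCC.chain a β n' j : ℝ) + β j⌋₊) ∂(μ j) :=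
            lintegral_const_mul' _ _ ENNReal.ofReal_ne_top
        _ ≤ ENNReal.ofReal (wt β n j a * wt β n' j a) * ENNReal.ofReal (C * D j) :=
            mul_le_mul' le_rfl h3
        _ = _ := mul_comm _ _
    calc ∫⁻ a, ∫⁻ y, ENNReal.ofReal (wt β n (j + 1) (Function.update a j y) *
            wt β n' (j + 1) (Function.update a j y)) ∂(μ j) ∂(Measure.infinitePi μ)
        ≤ ∫⁻ a, ENNReal.ofReal (C * D j) * ENNReal.ofReal (wt β n j a * wt β n' j a)
            ∂(Measure.infinitePi μ) := lintegral_mono_ae h1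
      _ = ENNReal.ofReal (C * D j) * ∫⁻ a, ENNReal.ofReal (wt β n j a * wt β n' j a)
            ∂(Measure.infinitePi μ) := lintegral_const_mul' _ _ ENNReal.ofReal_ne_top
      _ ≤ ENNReal.ofReal (C * D j) * ENNReal.ofReal (Real.log (2 * Y) ^ 2 * (C ^ j * ∏ i ∈ Finset.range j, D i)) :=
          mul_le_mul' le_rfl (ih hj')
      _ = ENNReal.ofReal (Real.log (2 * Y) ^ 2 * (C ^ (j + 1) * ∏ i ∈ Finset.range (j + 1), D i)) := by
          have := hD j
          rw [← ENNReal.ofReal_mul (by positivity), Finset.prod_range_succ]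
          congr 1
          ring

theorem mom_triv {v Γ δ : ℝ} {D : ℕ → ℝ} (hD : ∀ n, 1 ≤ D n) (hv : 1 ≤ v) (hΓ : 0 ≤ Γ) (hδ : 0 < δ) :
    ∃ C : ℝ, 1 ≤ C ∧ ∃ Y0 : ℕ, 3 ≤ Y0 ∧ ∀ Y : ℕ, Y0 ≤ Y →
    ∀ (μ : ℕ → Measure ℝ) [∀ n, IsProbabilityMeasure (μ n)], Law v D μ → ∀ β : ℕ → ℝ, (∀ i, |β i| ≤ Γ) →
    ∀ n ∈ Finset.Ioc Y (2 * Y), ∀ n' ∈ Finset.Ioc Y (2 * Y),
    ∀ j : ℕ, (j : ℝ) ≤ 2 * (Real.log Y / Real.log (Real.log Y)) →
    ∫⁻ a, ENNReal.ofReal (wt β n j a * wt β n' j a) ∂(Measure.infinitePi μ) ≤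
      ENNReal.ofReal (((1 + δ) * Real.log Y + 4) ^ (j + 1) *
        (Real.log (2 * Y) * (C ^ j * ∏ i ∈ Finset.range j, D i))) := by
  obtain ⟨C, hC, Y1, hY1, hone⟩ := mom_one (v := v) (D := D) (Γ := Γ) hD hv hΓ
  obtain ⟨Y2, hY2, hgeo⟩ := geo (v := v) (Γ := Γ) (η := 1 / 20) (δ := δ) hv hΓ (by norm_num)
    le_rfl hδ
  refine ⟨C, hC, max Y1 Y2, hY1.trans (le_max_left _ _), ?_⟩
  intro Y hY μ _ hμ β hβ n hn n' hn' j hj
  have hYY1 : Y1 ≤ Y := (le_max_left _ _).trans hY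
  have hYY2 : Y2 ≤ Y := (le_max_right _ _).trans hY
  obtain ⟨K, hK⟩ : ∃ K, K = (1 + δ) * Real.log Y + 4 := ⟨_, rfl⟩
  rw [← hK]
  have hY3 : (3 : ℝ) ≤ Y := by exact_mod_cast hY1.trans hYY1
  have hlY : 0 ≤ Real.log Y := Real.log_nonneg (by linarith)
  have hK0 : 0 ≤ K := by rw [hK]; positivity
  have h1 : ∀ᵐ a ∂(Measure.infinitePi μ), ENNReal.ofReal (wt β n j a * wt β n' j a) ≤
      ENNReal.ofReal (K ^ (j + 1)) * ENNReal.ofReal (wt β n j a) := by
    filter_upwards [ae_mem hμ] with a ha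
    rw [← ENNReal.ofReal_mul (pow_nonneg hK0 _), mul_comm (K ^ (j + 1))]
    refine ENNReal.ofReal_le_ofReal (mul_le_mul_of_nonneg_left ?_ (wt_nonneg β n j a))
    have h2 : ∀ i ∈ Finset.range (j + 1), th (MCC.chain a β n' i) ≤ K := by
      intro i hi
      have hij : (i : ℝ) ≤ j := by exact_mod_cast Nat.lt_succ_iff.1 (Finset.mem_range.1 hi)
      obtain ⟨-, -, hg2, hg3, -⟩ := hgeo Y hYY2 a β ha hβ i (hij.trans hj)
      obtain ⟨-, -, hc3, -⟩ := hg3 n' hn'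
      have h3 := th_le_log (MCC.chain a β n' i)
      have h4 := (abs_le.1 hc3).2
      rw [hK]
      linarith
    calc wt β n' j a ≤ ∏ _i ∈ Finset.range (j + 1), K :=
          Finset.prod_le_prod (fun i _ => th_nonneg _) h2
      _ = K ^ (j + 1) := by rw [Finset.prod_const, Finset.card_range]
  calc ∫⁻ a, ENNReal.ofReal (wt β n j a * wt β n' j a) ∂(Measure.infinitePi μ)
      ≤ ∫⁻ a, ENNReal.ofReal (K ^ (j + 1)) * ENNReal.ofReal (wt β n j a)
          ∂(Measure.infinitePi μ) := lintegral_mono_ae h1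
    _ = ENNReal.ofReal (K ^ (j + 1)) * ∫⁻ a, ENNReal.ofReal (wt β n j a)
          ∂(Measure.infinitePi μ) := lintegral_const_mul' _ _ ENNReal.ofReal_ne_top
    _ ≤ ENNReal.ofReal (K ^ (j + 1)) * ENNReal.ofReal (Real.log (2 * Y) * (C ^ j * ∏ i ∈ Finset.range j, D i)) :=
        mul_le_mul' le_rfl (hone Y hYY1 μ hμ β hβ n hn j hj)
    _ = _ := (ENNReal.ofReal_mul (pow_nonneg hK0 _)).symm

end RLC
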