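import Pool.Agent.RLC.Geo

/-!
# RLC.PFun: the products `PP`

PROOF. `PP a k x = ∏_{i<k} (log A_i + log x)`, `A_i = pa a i ≥ 1`. `PP_ge`: each factor is `≥ log x ≥ 0`. `PP_mono`: factors are nonnegative
and increasing. `PP_ratio`: `(log A + log y)/(log A + log x) ≤ log y/log x` for `0 < log x ≤ log y`, `log A ≥ 0`. `PP_succ`: `Finset.prod_range_succ`.
`PP_le`: `log A_i ≤ i log v ≤ k log v`, so `PP ≤ (log X + k log v)^k ≤ (log X)^k (1 + log v/log log X)^k ≤ X^(1-ε) exp(k log v/log log X)` and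
`k log v/log log X ≤ log v log X/(log log X)² ≤ (ε/4) log X` for large `X`.
-/

namespace RLC

open Filter

private theorem PFun_pa_ge {v : ℝ} {a : ℕ → ℝ} (ha : ∀ i, a i ∈ Set.Icc 1 v) (i : ℕ) : 1 ≤ pa a i := by
  unfold pa
  induction i with
  | zero => simp
  | succ n ih =>
    rw [Finset.prod_range_succ]
    exact one_le_mul_of_one_le_of_one_le ih (ha n).1

private theorem PFun_pa_le {v : ℝ} {a : ℕ → ℝ} (ha : ∀ i, a i ∈ Set.Icc 1 v) (i : ℕ) : pa a i ≤ v ^ i := by
  unfold pa
  calc ∏ j ∈ Finset.range i, a j ≤ ∏ j ∈ Finset.range i, v :=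
        Finset.prod_le_prod (fun j _ => le_trans zero_le_one (ha j).1) (fun j _ => (ha j).2)
    _ = v ^ i := by simp

private theorem PFun_log {v : ℝ} {a : ℕ → ℝ} (ha : ∀ i, a i ∈ Set.Icc 1 v) (i : ℕ) {x : ℝ} (hx : 1 < x) :
    Real.log (pa a i * x) = Real.log (pa a i) + Real.log x := by
  have h1 := PFun_pa_ge ha i
  exact Real.log_mul (by linarith) (by linarith)

theorem PP_ge {v : ℝ} {a : ℕ → ℝ} (ha : ∀ i, a i ∈ Set.Icc 1 v) {k : ℕ} {x : ℝ} (hx : 1 < x) :
    Real.log x ^ k ≤ PP a k x := by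
  have h0 : 0 < Real.log x := Real.log_pos hx
  unfold PP
  calc Real.log x ^ k = ∏ _i ∈ Finset.range k, Real.log x := by simp
    _ ≤ ∏ i ∈ Finset.range k, Real.log (pa a i * x) := by
        apply Finset.prod_le_prod
        · intro i _
          exact h0.le
        · intro i _
          rw [PFun_log ha i hx]
          have := Real.log_nonneg (PFun_pa_ge ha i)
          linarith

theorem PP_pos {v : ℝ} {a : ℕ → ℝ} (ha : ∀ i, a i ∈ Set.Icc 1 v) {k : ℕ} {x : ℝ} (hx : 1 < x) :
    0 < PP a k x :=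
  lt_of_lt_of_le (pow_pos (Real.log_pos hx) k) (PP_ge ha hx)

theorem PP_mono {v : ℝ} {a : ℕ → ℝ} (ha : ∀ i, a i ∈ Set.Icc 1 v) {k : ℕ} {x y : ℝ} (hx : 1 < x)
    (hxy : x ≤ y) : PP a k x ≤ PP a k y := by
  have h0 : 0 < Real.log x := Real.log_pos hx
  have hy : 1 < y := lt_of_lt_of_le hx hxy
  unfold PP
  apply Finset.prod_le_prod
  · intro i _
    rw [PFun_log ha i hx]
    have := Real.log_nonneg (PFun_pa_ge ha i)
    linarith
  · intro i _
    rw [PFun_log ha i hx, PFun_log ha i hy]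
    have := Real.log_le_log (by linarith) hxy
    linarith

theorem PP_ratio {v : ℝ} {a : ℕ → ℝ} (ha : ∀ i, a i ∈ Set.Icc 1 v) {k : ℕ} {x y : ℝ} (hx : 1 < x)
    (hxy : x ≤ y) : PP a k y ≤ PP a k x * (Real.log y / Real.log x) ^ k := by
  have h0 : 0 < Real.log x := Real.log_pos hx
  have hy : 1 < y := lt_of_lt_of_le hx hxy
  have hl : Real.log x ≤ Real.log y := Real.log_le_log (by linarith) hxy
  have e : (Real.log y / Real.log x) ^ k = ∏ _i ∈ Finset.range k, (Real.log y / Real.log x) := by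
    rw [Finset.prod_const, Finset.card_range]
  unfold PP
  rw [e, ← Finset.prod_mul_distrib]
  apply Finset.prod_le_prod
  · intro i _
    rw [PFun_log ha i hy]
    have := Real.log_nonneg (PFun_pa_ge ha i)
    linarith
  · intro i _
    rw [PFun_log ha i hx, PFun_log ha i hy]
    have hA := Real.log_nonneg (PFun_pa_ge ha i)
    rw [← mul_div_assoc, le_div_iff₀ h0]
    nlinarith [mul_le_mul_of_nonneg_left hl hA]

theorem PP_succ {v : ℝ} {a : ℕ → ℝ} (ha : ∀ i, a i ∈ Set.Icc 1 v) {k : ℕ} {x : ℝ} (hx : 1 < x) :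
    PP a k x * Real.log x ≤ PP a (k + 1) x := by
  have h1 : PP a (k + 1) x = PP a k x * Real.log (pa a k * x) := by
    unfold PP
    rw [Finset.prod_range_succ]
  rw [h1]
  apply mul_le_mul_of_nonneg_left _ (PP_pos ha hx).le
  rw [PFun_log ha k hx]
  have := Real.log_nonneg (PFun_pa_ge ha k)
  linarith

theorem PP_le {v ε : ℝ} (hv : 1 ≤ v) (hε : 0 < ε) (hε1 : ε < 1) : ∀ᶠ X : ℕ in atTop,
    ∀ a : ℕ → ℝ, (∀ i, a i ∈ Set.Icc 1 v) → ∀ k : ℕ, (k : ℝ) ≤ (1 - ε) * (Real.log X / Real.log (Real.log X)) →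
    PP a k X ≤ (X : ℝ) ^ (1 - 3 / 4 * ε) := by
  have hlv : 0 ≤ Real.log v := Real.log_nonneg hv
  have hT : Tendsto (fun X : ℕ => Real.log (Real.log (X : ℝ))) atTop atTop :=
    Real.tendsto_log_atTop.comp (Real.tendsto_log_atTop.comp tendsto_natCast_atTop_atTop)
  have hT1 : Tendsto (fun X : ℕ => Real.log (X : ℝ)) atTop atTop :=
    Real.tendsto_log_atTop.comp tendsto_natCast_atTop_atTop
  filter_upwards [hT.eventually_ge_atTop (1 + 4 * Real.log v / ε), hT1.eventually_ge_atTop 1,
    eventually_ge_atTop 2] with X hX1 hX2 hX3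
  intro a ha k hk
  set L : ℝ := Real.log (X : ℝ) with hL
  set l : ℝ := Real.log L with hl
  have hXr : (1 : ℝ) < X := by
    have : (2 : ℝ) ≤ X := by exact_mod_cast hX3
    linarith
  have hLpos : 0 < L := by linarith
  have h4 : 0 ≤ 4 * Real.log v / ε := by positivity
  have hl1 : 1 ≤ l := by linarith
  have hlpos : 0 < l := by linarith
  have hk0 : (0 : ℝ) ≤ k := Nat.cast_nonneg k
  have hkL : (k : ℝ) ≤ L / l := by
    refine le_trans hk ?_
    have : 0 ≤ L / l := by positivity
    nlinarith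
  -- the factors
  have hfac : ∀ i ∈ Finset.range k, Real.log (pa a i * X) ≤ L * (1 + Real.log v / l) := by
    intro i hi
    rw [PFun_log ha i hXr]
    have h1 : Real.log (pa a i) ≤ i * Real.log v := by
      have := Real.log_le_log (by linarith [PFun_pa_ge ha i]) (PFun_pa_le ha i)
      rwa [Real.log_pow] at this
    have h2 : (i : ℝ) ≤ k := by
      exact_mod_cast (Finset.mem_range.mp hi).le
    have h3 : (i : ℝ) * Real.log v ≤ L / l * Real.log v :=
      mul_le_mul_of_nonneg_right (le_trans h2 hkL) hlv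
    have h5 : L * (1 + Real.log v / l) = L / l * Real.log v + L := by
      field_simp
      ring
    rw [h5]
    linarith
  have hPP : PP a k X ≤ (L * (1 + Real.log v / l)) ^ k := by
    unfold PP
    calc ∏ i ∈ Finset.range k, Real.log (pa a i * X)
        ≤ ∏ _i ∈ Finset.range k, (L * (1 + Real.log v / l)) := by
          apply Finset.prod_le_prod
          · intro i _
            rw [PFun_log ha i hXr]
            have := Real.log_nonneg (PFun_pa_ge ha i)
            linarith
          · exact hfac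
      _ = (L * (1 + Real.log v / l)) ^ k := by simp
  have hexp : L * (1 + Real.log v / l) ≤ Real.exp (l + Real.log v / l) := by
    rw [Real.exp_add, hl, Real.exp_log hLpos, ← hl]
    apply mul_le_mul_of_nonneg_left _ hLpos.le
    have := Real.add_one_le_exp (Real.log v / l)
    linarith
  have hb0 : 0 ≤ L * (1 + Real.log v / l) := by positivity
  have hpow : (L * (1 + Real.log v / l)) ^ k ≤ Real.exp (k * (l + Real.log v / l)) := by
    rw [Real.exp_nat_mul]
    exact pow_le_pow_left₀ hb0 hexp k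
  have hs : 0 ≤ l + Real.log v / l := by positivity
  have hfin : (k : ℝ) * (l + Real.log v / l) ≤ L * (1 - 3 / 4 * ε) := by
    have h1 : (k : ℝ) * (l + Real.log v / l) ≤ (1 - ε) * (L / l) * (l + Real.log v / l) :=
      mul_le_mul_of_nonneg_right hk hs
    have h2 : (1 - ε) * (L / l) * (l + Real.log v / l) = (1 - ε) * L * (1 + Real.log v / l ^ 2) := by
      field_simp
    have h3 : Real.log v / l ^ 2 ≤ ε / 4 := by
      rw [div_le_iff₀ (by positivity)]
      have h6 : 4 * Real.log v / ε ≤ l ^ 2 := by nlinarith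
      rw [div_le_iff₀ hε] at h6
      nlinarith
    have h4' : 0 ≤ Real.log v / l ^ 2 := by positivity
    rw [h2] at h1
    have h5 : (1 - ε) * L * (1 + Real.log v / l ^ 2) ≤ (1 - ε) * L + L * (ε / 4) := by
      have h7 : (1 - ε) * L * (Real.log v / l ^ 2) ≤ L * (ε / 4) := by
        have h8 : (1 - ε) * L ≤ L := by nlinarith
        calc (1 - ε) * L * (Real.log v / l ^ 2) ≤ L * (Real.log v / l ^ 2) :=
              mul_le_mul_of_nonneg_right h8 h4'
          _ ≤ L * (ε / 4) := mul_le_mul_of_nonneg_left h3 hLpos.le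
      nlinarith
    nlinarith
  rw [Real.rpow_def_of_pos (by linarith : (0 : ℝ) < X), ← hL]
  exact le_trans hPP (le_trans hpow (Real.exp_le_exp.mpr hfin))

end RLC
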