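import Pool.Agent.RLC.EquiR
import Pool.Agent.MRZ.SelMaj

/-!
# RLC.PairR: the sieve bound for a pair

PROOF. As `Pool/Agent/MCC/Pair.lean` (copy): `Pool.MRZ.sel_maj` with `D = ⌊m^(η/80)⌋₊`, `equiR`: the measure of the
`t ∈ [1,3]` for which both `⌊t m+β⌋₊` and `⌊t m'+β⌋₊` are primes is at most `C/(log m)²`. There `Λ·Λ ≤ (log(4κm))²·..`, i.e.
`log ⌊t m + β⌋ ≤ 2 log m`, `log ⌊t m'+β⌋ ≤ 2 log m` for large `m`: contribution `≤ 4C`. The other `t` with
`Λ(⌊tm+β⌋) Λ(⌊tm'+β⌋) ≠ 0`: one of the two numbers is a prime power `p^k` with `k ≥ 2`; the number of those up to `4κm` is at most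
`C (κm)^(1/2) log m`, each one corresponds to a set of `t` of measure `≤ κ/m`, so these `t` have measure `≤ C m^(-1/2) log m`, and
the integrand is `≤ 4 (log m)²`.
-/

namespace RLC

open MeasureTheory ArithmeticFunction Filter

private theorem Pair_meas_floor (m : ℝ) (β : ℝ) (P : ℕ → Prop) :
    MeasurableSet {t : ℝ | P ⌊t * m + β⌋₊} := by
  have h : Measurable fun t : ℝ => ⌊t * m + β⌋₊ :=
    Nat.measurable_floor.comp ((measurable_id.mul_const _).add_const _)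
  exact h (MeasurableSet.of_discrete (s := {n | P n}))

/-- the analytic part: integration of the majorant -/
private theorem Pair_core {a b : ℝ} (β : ℝ) (m m' : ℝ) (D : ℕ) (l : ℕ → ℝ)
    (hl1 : ∀ n, 1 ≤ n → 0 ≤ ∑ d ∈ (Finset.Icc 1 (D ^ 2)).filter (· ∣ n), l d)
    (hl2 : ∀ p, p.Prime → D < p → 1 ≤ ∑ d ∈ (Finset.Icc 1 (D ^ 2)).filter (· ∣ p), l d)
    (hc : ∀ t ∈ Set.Icc a b, D < ⌊t * m + β⌋₊)
    (hc' : ∀ t ∈ Set.Icc a b, D < ⌊t * m' + β⌋₊) :
    (volume {t : ℝ | t ∈ Set.Icc a b ∧ (⌊t * m + β⌋₊).Prime ∧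
          (⌊t * m' + β⌋₊).Prime}).toReal ≤
      ∑ d ∈ Finset.Icc 1 (D ^ 2), ∑ e ∈ Finset.Icc 1 (D ^ 2), l d * l e *
        (volume {t : ℝ | t ∈ Set.Icc a b ∧ d ∣ ⌊t * m + β⌋₊ ∧
          e ∣ ⌊t * m' + β⌋₊}).toReal := by
  classical
  set E : ℕ → ℕ → Set ℝ := fun d e => {t : ℝ | t ∈ Set.Icc a b ∧ d ∣ ⌊t * m + β⌋₊ ∧
          e ∣ ⌊t * m' + β⌋₊} with hE
  set A : Set ℝ := {t : ℝ | t ∈ Set.Icc a b ∧ (⌊t * m + β⌋₊).Prime ∧
          (⌊t * m' + β⌋₊).Prime} with hA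
  have hEm : ∀ d e, MeasurableSet (E d e) := fun d e =>
    measurableSet_Icc.inter ((Pair_meas_floor m β (d ∣ ·)).inter (Pair_meas_floor m' β (e ∣ ·)))
  have hAm : MeasurableSet A :=
    measurableSet_Icc.inter ((Pair_meas_floor m β Nat.Prime).inter
      (Pair_meas_floor m' β Nat.Prime))
  have hfin : volume (Set.Icc a b) < ⊤ := by
    rw [Real.volume_Icc]; exact ENNReal.ofReal_lt_top
  have hEf : ∀ d e, volume (E d e) < ⊤ := fun d e =>
    lt_of_le_of_lt (measure_mono fun t ht => ht.1) hfin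
  have hAf : volume A < ⊤ := lt_of_le_of_lt (measure_mono fun t ht => ht.1) hfin
  have hint : ∀ d e, Integrable ((E d e).indicator (1 : ℝ → ℝ)) volume := fun d e =>
    (integrable_indicator_iff (hEm d e)).2 (integrableOn_const (hEf d e).ne)
  have hintA : Integrable (A.indicator (1 : ℝ → ℝ)) volume :=
    (integrable_indicator_iff hAm).2 (integrableOn_const hAf.ne)
  have hval : ∀ d e, ∫ t, (E d e).indicator (1 : ℝ → ℝ) t = (volume (E d e)).toReal := by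
    intro d e
    rw [integral_indicator_one (hEm d e)]
    rfl
  have hvalA : ∫ t, A.indicator (1 : ℝ → ℝ) t = (volume A).toReal := by
    rw [integral_indicator_one hAm]
    rfl
  have hF : Integrable (fun t => ∑ d ∈ Finset.Icc 1 (D ^ 2), ∑ e ∈ Finset.Icc 1 (D ^ 2),
      l d * l e * (E d e).indicator (1 : ℝ → ℝ) t) volume :=
    integrable_finsetSum _ fun d _ => integrable_finsetSum _ fun e _ => (hint d e).const_mul _
  have hle : ∀ t, A.indicator (1 : ℝ → ℝ) t ≤ ∑ d ∈ Finset.Icc 1 (D ^ 2),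
      ∑ e ∈ Finset.Icc 1 (D ^ 2), l d * l e * (E d e).indicator (1 : ℝ → ℝ) t := by
    intro t
    by_cases ht : t ∈ Set.Icc a b
    · have h1 : ∑ d ∈ Finset.Icc 1 (D ^ 2),
          ∑ e ∈ Finset.Icc 1 (D ^ 2), l d * l e * (E d e).indicator (1 : ℝ → ℝ) t =
          (∑ d ∈ (Finset.Icc 1 (D ^ 2)).filter (· ∣ ⌊t * m + β⌋₊), l d) *
          (∑ d ∈ (Finset.Icc 1 (D ^ 2)).filter (· ∣ ⌊t * m' + β⌋₊), l d) := by
        rw [Finset.sum_filter, Finset.sum_filter, Finset.sum_mul_sum]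
        refine Finset.sum_congr rfl fun d _ => Finset.sum_congr rfl fun e _ => ?_
        by_cases hd : d ∣ ⌊t * m + β⌋₊
        · by_cases he : e ∣ ⌊t * m' + β⌋₊
          · rw [Set.indicator_of_mem (show t ∈ E d e from ⟨ht, hd, he⟩), if_pos hd, if_pos he]
            simp
          · rw [Set.indicator_of_notMem (fun h : t ∈ E d e => he h.2.2), if_neg he]
            simp
        · rw [Set.indicator_of_notMem (fun h : t ∈ E d e => hd h.2.1), if_neg hd]
          simp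
      rw [h1]
      have hg := hl1 ⌊t * m + β⌋₊ (by have := hc t ht; omega)
      have hg' := hl1 ⌊t * m' + β⌋₊ (by have := hc' t ht; omega)
      by_cases hA' : t ∈ A
      · rw [Set.indicator_of_mem hA']
        have h2 := hl2 _ hA'.2.1 (hc t ht)
        have h3 := hl2 _ hA'.2.2 (hc' t ht)
        simp only [Pi.one_apply]
        nlinarith
      · rw [Set.indicator_of_notMem hA']
        exact mul_nonneg hg hg'
    · rw [Set.indicator_of_notMem (fun h : t ∈ A => ht h.1)]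
      refine (Finset.sum_eq_zero fun d _ => Finset.sum_eq_zero fun e _ => ?_).ge
      rw [Set.indicator_of_notMem (fun h : t ∈ E d e => ht h.1), mul_zero]
  calc (volume A).toReal = ∫ t, A.indicator (1 : ℝ → ℝ) t := hvalA.symm
    _ ≤ ∫ t, ∑ d ∈ Finset.Icc 1 (D ^ 2), ∑ e ∈ Finset.Icc 1 (D ^ 2),
      l d * l e * (E d e).indicator (1 : ℝ → ℝ) t := integral_mono hintA hF hle
    _ = _ := by
      rw [integral_finsetSum _ fun d _ => integrable_finsetSum _ fun e _ =>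
        (hint d e).const_mul _]
      refine Finset.sum_congr rfl fun d _ => ?_
      rw [integral_finsetSum _ fun e _ => (hint d e).const_mul _]
      refine Finset.sum_congr rfl fun e _ => ?_
      rw [integral_const_mul, hval]

/-- the arithmetic part -/
private theorem Pair_sum {D : ℕ} {l : ℕ → ℝ} {V : ℕ → ℕ → ℝ} {w ε : ℝ} (_ : 0 ≤ w)
    (_ : 0 ≤ ε) (hl : ∀ d, |l d| ≤ (d : ℝ) ^ 2)
    (hV : ∀ d ∈ Finset.Icc 1 (D ^ 2), ∀ e ∈ Finset.Icc 1 (D ^ 2),
      |V d e - w / ((d : ℝ) * e)| ≤ ε) :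
    ∑ d ∈ Finset.Icc 1 (D ^ 2), ∑ e ∈ Finset.Icc 1 (D ^ 2), l d * l e * V d e ≤
      w * |∑ d ∈ Finset.Icc 1 (D ^ 2), l d / d| ^ 2 + (D : ℝ) ^ 12 * ε := by
  have h1 : ∀ d ∈ Finset.Icc 1 (D ^ 2), ∀ e ∈ Finset.Icc 1 (D ^ 2),
      l d * l e * V d e ≤ w * ((l d / d) * (l e / e)) + (D : ℝ) ^ 8 * ε := by
    intro d hd e he
    have hd' := Finset.mem_Icc.1 hd
    have he' := Finset.mem_Icc.1 he
    have hbd : ∀ d : ℕ, d ≤ D ^ 2 → |l d| ≤ (D : ℝ) ^ 4 := by
      intro d hd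
      refine (hl d).trans ?_
      have : (d : ℝ) ≤ (D : ℝ) ^ 2 := by exact_mod_cast hd
      calc (d : ℝ) ^ 2 ≤ ((D : ℝ) ^ 2) ^ 2 := by gcongr
        _ = (D : ℝ) ^ 4 := by ring
    have h2 : l d * l e * (V d e - w / ((d : ℝ) * e)) ≤ (D : ℝ) ^ 8 * ε := by
      refine (le_abs_self _).trans ?_
      rw [abs_mul, abs_mul]
      calc |l d| * |l e| * |V d e - w / ((d : ℝ) * e)| ≤ (D : ℝ) ^ 4 * (D : ℝ) ^ 4 * ε := by
            gcongr
            · exact hbd d hd'.2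
            · exact hbd e he'.2
            · exact hV d hd e he
        _ = (D : ℝ) ^ 8 * ε := by ring
    have h3 : l d * l e * V d e = l d * l e * (V d e - w / ((d : ℝ) * e)) +
        w * ((l d / d) * (l e / e)) := by
      have hd0 : (d : ℝ) ≠ 0 := by
        have : 0 < d := hd'.1
        positivity
      have he0 : (e : ℝ) ≠ 0 := by
        have : 0 < e := he'.1
        positivity
      field_simp
      ring
    rw [h3]
    linarith
  calc ∑ d ∈ Finset.Icc 1 (D ^ 2), ∑ e ∈ Finset.Icc 1 (D ^ 2), l d * l e * V d e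
      ≤ ∑ d ∈ Finset.Icc 1 (D ^ 2), ∑ e ∈ Finset.Icc 1 (D ^ 2),
        (w * ((l d / d) * (l e / e)) + (D : ℝ) ^ 8 * ε) :=
      Finset.sum_le_sum fun d hd => Finset.sum_le_sum fun e he => h1 d hd e he
    _ = w * |∑ d ∈ Finset.Icc 1 (D ^ 2), l d / d| ^ 2 + (D : ℝ) ^ 12 * ε := by
      rw [sq_abs, pow_two (∑ d ∈ Finset.Icc 1 (D ^ 2), l d / (d : ℝ)), Finset.sum_mul_sum,
        Finset.mul_sum]
      simp_rw [Finset.sum_add_distrib, Finset.mul_sum]
      rw [Finset.sum_const, Finset.sum_const, Nat.card_Icc]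
      simp only [nsmul_eq_mul, Nat.add_sub_cancel]
      push_cast
      ring

/-- the measure of the `t` for which both numbers are primes -/
private theorem Pair_vol {η κ Γ : ℝ} (hη : 0 < η) (hη1 : η ≤ 1 / 20) (hκ : 1 ≤ κ) :
    ∃ C X0 : ℝ, 1 ≤ C ∧ 1 ≤ X0 ∧ ∀ m m' β : ℝ, X0 ≤ m → m / κ ≤ m' → m' ≤ κ * m → |β| ≤ Γ →
      (∀ u v : ℕ, 1 ≤ u → 1 ≤ v → (u : ℝ) ≤ m ^ η → (v : ℝ) ≤ m ^ η →
        m ^ η ≤ |(u : ℝ) * m - (v : ℝ) * m'|) →
      (volume {t : ℝ | t ∈ Set.Icc (1 : ℝ) 3 ∧ (⌊t * m + β⌋₊).Prime ∧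
          (⌊t * m' + β⌋₊).Prime}).toReal ≤ C / Real.log m ^ 2 := by
  obtain ⟨C0, hC0, hsel⟩ := Pool.MRZ.sel_maj
  obtain ⟨X1, hX1', hX1⟩ := equiR (κ := κ) (Γ := Γ) hη hη1 hκ
  have hκ0 : 0 < κ := by linarith
  -- eventual inequalities
  have e1 : ∀ᶠ X : ℝ in atTop, 2 ≤ X ^ (η / 160) :=
    (tendsto_rpow_atTop (by positivity)).eventually_ge_atTop 2
  have e2 : ∀ᶠ X : ℝ in atTop, X ^ (η / 80) ≤ (1 / (2 * κ)) * X := by
    have h : ∀ᶠ X : ℝ in atTop, 2 * κ ≤ X ^ (1 - η / 80) :=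
      (tendsto_rpow_atTop (by linarith)).eventually_ge_atTop _
    filter_upwards [h, eventually_gt_atTop (0 : ℝ)] with X hX hX0
    have h1 : X = X ^ (η / 80) * X ^ (1 - η / 80) := by
      rw [← Real.rpow_add hX0]
      simp
    have h2 : 1 ≤ (1 / (2 * κ)) * X ^ (1 - η / 80) := by
      rw [one_div, inv_mul_eq_div, le_div_iff₀ (by positivity)]
      linarith
    have h3 : 0 ≤ X ^ (η / 80) := by positivity
    calc X ^ (η / 80) = X ^ (η / 80) * 1 := (mul_one _).symm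
      _ ≤ X ^ (η / 80) * ((1 / (2 * κ)) * X ^ (1 - η / 80)) := by gcongr
      _ = (1 / (2 * κ)) * (X ^ (η / 80) * X ^ (1 - η / 80)) := by ring
      _ = (1 / (2 * κ)) * X := by rw [← h1]
  have e3 : ∀ᶠ X : ℝ in atTop, 1 + Γ < (1 / (2 * κ)) * X :=
    (tendsto_id.const_mul_atTop (by positivity)).eventually_gt_atTop _
  have e4 : ∀ᶠ X : ℝ in atTop, X ^ (-(η / 20)) * Real.log X ^ 2 ≤ 1 := by
    have h : Tendsto (fun X : ℝ => Real.log X ^ 2 / X ^ (η / 20)) atTop (nhds 0) := by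
      have h := (isLittleO_log_rpow_rpow_atTop (s := η / 20) (2 : ℝ)
        (by positivity)).tendsto_div_nhds_zero
      refine h.congr fun X => ?_
      rw [Real.rpow_two]
    filter_upwards [h.eventually_le_const one_pos, eventually_gt_atTop (0 : ℝ)] with X hX hX0
    rw [Real.rpow_neg hX0.le, inv_mul_eq_div]
    exact hX
  obtain ⟨X2, hX2⟩ :=
    (((e1.and e2).and (e3.and e4)).and (eventually_gt_atTop (1 : ℝ))).exists_forall_of_atTop
  refine ⟨2 * (160 * C0 / η) ^ 2 + 1, max X1 X2, ?_, hX1'.trans (le_max_left _ _), ?_⟩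
  · have : 0 ≤ (160 * C0 / η) ^ 2 := by positivity
    linarith
  intro m m' β hX hm1' hm2' hβ hNE
  obtain ⟨⟨⟨f1, f2⟩, f3, f4⟩, f5⟩ := hX2 m ((le_max_right _ _).trans hX)
  have hXpos : 0 < m := by linarith
  set D : ℕ := ⌊m ^ (η / 80)⌋₊ with hD
  have hsq : m ^ (η / 80) = (m ^ (η / 160)) ^ 2 := by
    rw [← Real.rpow_natCast, ← Real.rpow_mul hXpos.le]
    congr 1
    push_cast
    ring
  have hDle : (D : ℝ) ≤ m ^ (η / 80) := Nat.floor_le (by positivity)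
  have hDge : m ^ (η / 160) ≤ (D : ℝ) := by
    have h1 : m ^ (η / 80) < (D : ℝ) + 1 := Nat.lt_floor_add_one _
    rw [hsq] at h1
    nlinarith
  have hD2 : 2 ≤ D := by
    have : (2 : ℝ) ≤ D := f1.trans hDge
    exact_mod_cast this
  obtain ⟨l, hl0, hl1, hl2, hl3⟩ := hsel D hD2
  have hbig : ∀ n : ℝ, m / κ ≤ n → ∀ t ∈ Set.Icc (1 : ℝ) 3, D < ⌊t * n + β⌋₊ := by
    intro n hn t ht
    rw [Nat.lt_iff_add_one_le]
    refine Nat.le_floor ?_
    push_cast
    have h0 : 0 ≤ n := le_trans (by positivity) hn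
    have h1 : m / κ ≤ t * n := by
      calc m / κ ≤ n := hn
        _ = 1 * n := (one_mul n).symm
        _ ≤ t * n := mul_le_mul_of_nonneg_right ht.1 h0
    have h2 := (abs_le.1 hβ).1
    have h3 : m / κ = (1 / (2 * κ)) * m + (1 / (2 * κ)) * m := by
      field_simp
      ring
    linarith
  have hmκ : m / κ ≤ m := by
    rw [div_le_iff₀ hκ0]
    nlinarith
  have hcore := Pair_core (a := 1) (b := 3) β m m' D l hl1 hl2 (hbig m hmκ) (hbig m' hm1')
  have hDX : ∀ d : ℕ, d ≤ D ^ 2 → (d : ℝ) ≤ m ^ (η / 16) := by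
    intro d hd
    have h1 : (d : ℝ) ≤ (D : ℝ) ^ 2 := by exact_mod_cast hd
    refine h1.trans ?_
    calc (D : ℝ) ^ 2 ≤ (m ^ (η / 80)) ^ 2 := by gcongr
      _ = m ^ (η / 40) := by
        rw [← Real.rpow_natCast, ← Real.rpow_mul hXpos.le]
        congr 1
        push_cast
        ring
      _ ≤ m ^ (η / 16) := Real.rpow_le_rpow_of_exponent_le f5.le (by linarith)
  have hsum := Pair_sum (D := D) (l := l)
    (V := fun d e => (volume {t : ℝ | t ∈ Set.Icc (1 : ℝ) 3 ∧ d ∣ ⌊t * m + β⌋₊ ∧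
          e ∣ ⌊t * m' + β⌋₊}).toReal) (w := 2) (ε := m ^ (-(η / 5))) (by norm_num)
    (by positivity) hl0 (by
      intro d hd e he
      have hd' := Finset.mem_Icc.1 hd
      have he' := Finset.mem_Icc.1 he
      exact hX1 m m' β ((le_max_left _ _).trans hX) hm1' hm2' hβ hNE d e hd'.1 he'.1
        (hDX d hd'.2) (hDX e he'.2))
  have hlogX : 0 < Real.log m := Real.log_pos f5
  have hlogD : η / 160 * Real.log m ≤ Real.log D := by
    rw [← Real.log_rpow hXpos]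
    exact Real.log_le_log (by positivity) hDge
  have hmain : |∑ d ∈ Finset.Icc 1 (D ^ 2), l d / d| ≤ (160 * C0 / η) / Real.log m := by
    refine hl3.trans ?_
    calc C0 / Real.log D ≤ C0 / (η / 160 * Real.log m) := by
          gcongr
      _ = (160 * C0 / η) / Real.log m := by
          field_simp
  have hD12 : (D : ℝ) ^ 12 * m ^ (-(η / 5)) ≤ m ^ (-(η / 20)) := by
    calc (D : ℝ) ^ 12 * m ^ (-(η / 5)) ≤ (m ^ (η / 80)) ^ 12 * m ^ (-(η / 5)) := by gcongr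
      _ = m ^ (-(η / 20)) := by
        rw [← Real.rpow_natCast, ← Real.rpow_mul hXpos.le, ← Real.rpow_add hXpos]
        congr 1
        push_cast
        ring
  refine (hcore.trans hsum).trans ?_
  have h1 : 2 * |∑ d ∈ Finset.Icc 1 (D ^ 2), l d / d| ^ 2 ≤
      2 * ((160 * C0 / η) / Real.log m) ^ 2 := by
    gcongr
  have h2 : m ^ (-(η / 20)) ≤ 1 / Real.log m ^ 2 := by
    rw [le_div_iff₀ (by positivity)]
    exact f4
  calc 2 * |∑ d ∈ Finset.Icc 1 (D ^ 2), l d / d| ^ 2 + (D : ℝ) ^ 12 * m ^ (-(η / 5))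
      ≤ 2 * ((160 * C0 / η) / Real.log m) ^ 2 + 1 / Real.log m ^ 2 := by
        linarith [hD12.trans h2]
    _ = (2 * (160 * C0 / η) ^ 2 + 1) / Real.log m ^ 2 := by
        field_simp

/-- the integral of `φ ⌊t m + β⌋₊` -/
private theorem Pair_int_le {φ : ℕ → ℝ} (h0 : φ 0 = 0) (hφ : ∀ n, 0 ≤ φ n) {m β : ℝ}
    (hm : 0 < m) {K : ℕ} (hK : ∀ t ∈ Set.Icc (1 : ℝ) 3, ⌊t * m + β⌋₊ ≤ K) :
    ∫ t in Set.Icc (1 : ℝ) 3, φ ⌊t * m + β⌋₊ ≤ 1 / m * ∑ n ∈ Finset.Ioc 0 K, φ n := by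
  classical
  set E : ℕ → Set ℝ := fun n => {t : ℝ | t ∈ Set.Icc (1 : ℝ) 3 ∧ ⌊t * m + β⌋₊ = n} with hE
  have hEm : ∀ n, MeasurableSet (E n) := fun n =>
    measurableSet_Icc.inter (Pair_meas_floor m β (· = n))
  have hfin : volume (Set.Icc (1 : ℝ) 3) < ⊤ := by
    rw [Real.volume_Icc]; exact ENNReal.ofReal_lt_top
  have hEf : ∀ n, volume (E n) < ⊤ := fun n =>
    lt_of_le_of_lt (measure_mono fun t ht => ht.1) hfin
  have hint : ∀ n, Integrable ((E n).indicator (1 : ℝ → ℝ)) volume := fun n =>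
    (integrable_indicator_iff (hEm n)).2 (integrableOn_const (hEf n).ne)
  have hval : ∀ n, ∫ t, (E n).indicator (1 : ℝ → ℝ) t = (volume (E n)).toReal := by
    intro n
    rw [integral_indicator_one (hEm n)]
    rfl
  have heq : ∀ t, (Set.Icc (1 : ℝ) 3).indicator (fun t => φ ⌊t * m + β⌋₊) t =
      ∑ n ∈ Finset.Ioc 0 K, φ n * (E n).indicator (1 : ℝ → ℝ) t := by
    intro t
    by_cases ht : t ∈ Set.Icc (1 : ℝ) 3
    · rw [Set.indicator_of_mem ht]
      by_cases hn : ⌊t * m + β⌋₊ = 0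
      · rw [hn, h0]
        refine (Finset.sum_eq_zero fun n hn' => ?_).symm
        rw [Set.indicator_of_notMem, mul_zero]
        rintro ⟨-, h⟩
        have h' := (Finset.mem_Ioc.1 hn').1
        omega
      · rw [Finset.sum_eq_single ⌊t * m + β⌋₊]
        · rw [Set.indicator_of_mem (show t ∈ E _ from ⟨ht, rfl⟩)]
          simp
        · intro n _ hn'
          rw [Set.indicator_of_notMem, mul_zero]
          rintro ⟨-, h⟩
          exact hn' h.symm
        · intro h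
          exact absurd (Finset.mem_Ioc.2 ⟨Nat.pos_of_ne_zero hn, hK t ht⟩) h
    · rw [Set.indicator_of_notMem ht]
      refine (Finset.sum_eq_zero fun n _ => ?_).symm
      rw [Set.indicator_of_notMem (fun h : t ∈ E n => ht h.1), mul_zero]
  rw [← integral_indicator measurableSet_Icc, integral_congr_ae (Eventually.of_forall heq),
    integral_finsetSum _ fun n _ => (hint n).const_mul _, Finset.mul_sum]
  refine Finset.sum_le_sum fun n hn => ?_
  rw [integral_const_mul, hval, mul_comm (1 / m)]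
  refine mul_le_mul_of_nonneg_left ?_ (hφ n)
  have hn0 : n ≠ 0 := (Finset.mem_Ioc.1 hn).1.ne'
  have hsub : E n ⊆ Set.Icc ((n - β) / m) ((n + 1 - β) / m) := by
    rintro t ⟨-, ht⟩
    have h1 := (Nat.floor_eq_iff' hn0).1 ht
    constructor
    · rw [div_le_iff₀ hm]
      linarith [h1.1]
    · rw [le_div_iff₀ hm]
      linarith [h1.2]
  calc (volume (E n)).toReal ≤ (volume (Set.Icc ((n - β) / m) ((n + 1 - β) / m))).toReal := by
        refine ENNReal.toReal_mono ?_ (measure_mono hsub)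
        rw [Real.volume_Icc]
        exact ENNReal.ofReal_ne_top
    _ = 1 / m := by
      rw [Real.volume_Icc, ENNReal.toReal_ofReal]
      · field_simp
        ring
      · rw [← sub_div]
        apply div_nonneg _ hm.le
        linarith

/-- `Λ` on the numbers which are not primes -/
private noncomputable def Pair_G (n : ℕ) : ℝ := if n.Prime then 0 else vonMangoldt n

private theorem Pair_G_sum {Y : ℝ} (hY : 1 ≤ Y) :
    ∑ n ∈ Finset.Ioc 0 ⌊Y⌋₊, Pair_G n ≤ 2 * √Y * Real.log Y := by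
  have h1 := Chebyshev.psi_sub_theta_le hY
  rw [Chebyshev.psi_sub_theta_eq_sum_not_prime, Finset.sum_filter] at h1
  refine le_trans (le_of_eq ?_) h1
  refine Finset.sum_congr rfl fun n _ => ?_
  unfold Pair_G
  by_cases h : n.Prime
  · rw [if_pos h, if_neg (not_not.2 h)]
  · rw [if_neg h, if_pos h]

private theorem Pair_G_nonneg (n : ℕ) : 0 ≤ Pair_G n := by
  unfold Pair_G
  split_ifs
  · exact le_rfl
  · exact vonMangoldt_nonneg

private theorem Pair_G_int {m β L : ℝ} (hm : 0 < m) {Y : ℝ} (hY : 1 ≤ Y) (hL : 0 ≤ L)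
    (hK : ∀ t ∈ Set.Icc (1 : ℝ) 3, t * m + β ≤ Y) :
    ∫ t in Set.Icc (1 : ℝ) 3, L * Pair_G ⌊t * m + β⌋₊ ≤ L * (2 * √Y * Real.log Y) / m := by
  rw [integral_const_mul]
  have h1 := Pair_int_le (φ := Pair_G) (by simp [Pair_G]) Pair_G_nonneg hm (β := β)
    (K := ⌊Y⌋₊) (fun t ht => Nat.floor_le_floor (hK t ht))
  have h2 : 1 / m * ∑ n ∈ Finset.Ioc 0 ⌊Y⌋₊, Pair_G n ≤ 1 / m * (2 * √Y * Real.log Y) :=
    mul_le_mul_of_nonneg_left (Pair_G_sum hY) (by positivity)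
  calc L * ∫ t in Set.Icc (1 : ℝ) 3, Pair_G ⌊t * m + β⌋₊ ≤ L * (1 / m * (2 * √Y * Real.log Y)) :=
        mul_le_mul_of_nonneg_left (h1.trans h2) hL
    _ = L * (2 * √Y * Real.log Y) / m := by ring

private theorem Pair_floor_meas (m β : ℝ) (φ : ℕ → ℝ) : Measurable fun t : ℝ => φ ⌊t * m + β⌋₊ := by
  have h : Measurable fun t : ℝ => ⌊t * m + β⌋₊ :=
    Nat.measurable_floor.comp ((measurable_id.mul_const _).add_const _)
  exact (Measurable.of_discrete (f := φ)).comp h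

private theorem Pair_log_le {c : ℕ} {Y : ℝ} (hY : (c : ℝ) ≤ Y) (hY1 : 1 ≤ Y) :
    vonMangoldt c ≤ Real.log Y := by
  refine vonMangoldt_le_log.trans ?_
  rcases Nat.eq_zero_or_pos c with h | h
  · rw [h, Nat.cast_zero, Real.log_zero]
    exact Real.log_nonneg hY1
  · exact Real.log_le_log (by exact_mod_cast h) hY

theorem pairR {η κ Γ : ℝ} (hη : 0 < η) (hη1 : η ≤ 1 / 20) (hκ : 1 ≤ κ) :
    ∃ C X0 : ℝ, 1 ≤ C ∧ 1 ≤ X0 ∧ ∀ m m' β : ℝ, X0 ≤ m → m / κ ≤ m' → m' ≤ κ * m → |β| ≤ Γ →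
      (∀ u v : ℕ, 1 ≤ u → 1 ≤ v → (u : ℝ) ≤ m ^ η → (v : ℝ) ≤ m ^ η →
        m ^ η ≤ |(u : ℝ) * m - (v : ℝ) * m'|) →
      ∫ t in Set.Icc (1 : ℝ) 3, vonMangoldt ⌊t * m + β⌋₊ * vonMangoldt ⌊t * m' + β⌋₊ ≤ C := by
  obtain ⟨C1, X1, hC1, hX1, hV⟩ := Pair_vol (κ := κ) (Γ := Γ) hη hη1 hκ
  have hκ0 : 0 < κ := by linarith
  -- eventual inequalities
  have e1 : ∀ᶠ m : ℝ in atTop, Γ ≤ m := eventually_ge_atTop _
  have e2 : ∀ᶠ m : ℝ in atTop, 4 * κ ≤ m := eventually_ge_atTop _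
  have e3 : ∀ᶠ m : ℝ in atTop, Real.log m ^ (2 : ℝ) / m ^ (1 / 2 : ℝ) ≤
      1 / (16 * √(4 * κ) * κ) :=
    (isLittleO_log_rpow_rpow_atTop (s := 1 / 2) (2 : ℝ)
        (by norm_num)).tendsto_div_nhds_zero.eventually_le_const (by positivity)
  obtain ⟨X2, hX2⟩ := ((e1.and e2).and e3).exists_forall_of_atTop
  refine ⟨4 * C1 + 1, max X1 X2, by linarith, hX1.trans (le_max_left _ _), ?_⟩
  intro m m' β hX hm1' hm2' hβ hNE
  obtain ⟨⟨f1, f2⟩, f3⟩ := hX2 m ((le_max_right _ _).trans hX)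
  have hm4 : 4 ≤ m := by linarith
  have hm0 : 0 < m := by linarith
  have hm0' : 0 < m' := lt_of_lt_of_le (by positivity) hm1'
  have hβ2 := (abs_le.1 hβ).2
  have hL0 : 0 < Real.log m := Real.log_pos (by linarith)
  have hY1 : 1 ≤ 4 * κ * m := by nlinarith
  have hYm : Real.log (4 * κ * m) ≤ 2 * Real.log m := by
    have h1 : 4 * κ * m ≤ m ^ 2 := by nlinarith
    calc Real.log (4 * κ * m) ≤ Real.log (m ^ 2) := Real.log_le_log (by positivity) h1
      _ = 2 * Real.log m := by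
        rw [Real.log_pow]
        norm_num
  have hb : ∀ t ∈ Set.Icc (1 : ℝ) 3, t * m + β ≤ 4 * κ * m := by
    intro t ht
    have h1 : t * m ≤ 3 * m := mul_le_mul_of_nonneg_right ht.2 hm0.le
    nlinarith
  have hb' : ∀ t ∈ Set.Icc (1 : ℝ) 3, t * m' + β ≤ 4 * κ * m := by
    intro t ht
    have h1 : t * m' ≤ 3 * m' := mul_le_mul_of_nonneg_right ht.2 hm0'.le
    nlinarith
  have hc : ∀ t ∈ Set.Icc (1 : ℝ) 3, vonMangoldt ⌊t * m + β⌋₊ ≤ 2 * Real.log m := by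
    intro t ht
    refine (Pair_log_le (Y := 4 * κ * m) ?_ hY1).trans hYm
    rcases le_or_gt 0 (t * m + β) with h | h
    · exact (Nat.floor_le h).trans (hb t ht)
    · rw [Nat.floor_of_nonpos h.le, Nat.cast_zero]
      linarith
  have hc' : ∀ t ∈ Set.Icc (1 : ℝ) 3, vonMangoldt ⌊t * m' + β⌋₊ ≤ 2 * Real.log m := by
    intro t ht
    refine (Pair_log_le (Y := 4 * κ * m) ?_ hY1).trans hYm
    rcases le_or_gt 0 (t * m' + β) with h | h
    · exact (Nat.floor_le h).trans (hb' t ht)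
    · rw [Nat.floor_of_nonpos h.le, Nat.cast_zero]
      linarith
  set A : Set ℝ := {t : ℝ | t ∈ Set.Icc (1 : ℝ) 3 ∧ (⌊t * m + β⌋₊).Prime ∧
          (⌊t * m' + β⌋₊).Prime} with hA
  have hAm : MeasurableSet A :=
    measurableSet_Icc.inter ((Pair_meas_floor m β Nat.Prime).inter
      (Pair_meas_floor m' β Nat.Prime))
  have hfin : volume (Set.Icc (1 : ℝ) 3) < ⊤ := by
    rw [Real.volume_Icc]; exact ENNReal.ofReal_lt_top
  have hAf : volume A < ⊤ := lt_of_le_of_lt (measure_mono fun t ht => ht.1) hfin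
  set L : ℝ := 2 * Real.log m with hL
  have hLp : 0 < L := by positivity
  have hGle : ∀ n : ℕ, Pair_G n ≤ vonMangoldt n := by
    intro n
    unfold Pair_G
    split_ifs
    · exact vonMangoldt_nonneg
    · exact le_rfl
  have hi : ∀ φ : ℝ → ℝ, Measurable φ → (∀ t ∈ Set.Icc (1 : ℝ) 3, 0 ≤ φ t) →
      (∀ t ∈ Set.Icc (1 : ℝ) 3, φ t ≤ L ^ 2) → IntegrableOn φ (Set.Icc (1 : ℝ) 3) := by
    intro φ h1 h2 h3
    refine Measure.integrableOn_of_bounded (M := L ^ 2) hfin.ne h1.aestronglyMeasurable ?_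
    rw [ae_restrict_iff' measurableSet_Icc]
    refine Eventually.of_forall fun t ht => ?_
    rw [Real.norm_eq_abs, abs_of_nonneg (h2 t ht)]
    exact h3 t ht
  have i1 : IntegrableOn (fun t => L ^ 2 * A.indicator (1 : ℝ → ℝ) t) (Set.Icc (1 : ℝ) 3) := by
    refine hi _ ((measurable_one.indicator hAm).const_mul _) (fun t _ => ?_) (fun t _ => ?_)
    · exact mul_nonneg (sq_nonneg _) (Set.indicator_nonneg (fun _ _ => zero_le_one) _)
    · have : A.indicator (1 : ℝ → ℝ) t ≤ 1 := Set.indicator_le_self' (by simp) _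
      nlinarith [sq_nonneg L]
  have i2 : IntegrableOn (fun t => L * Pair_G ⌊t * m + β⌋₊) (Set.Icc (1 : ℝ) 3) := by
    refine hi _ ((Pair_floor_meas m β Pair_G).const_mul _) (fun t _ => ?_) (fun t ht => ?_)
    · exact mul_nonneg hLp.le (Pair_G_nonneg _)
    · rw [sq]
      exact mul_le_mul_of_nonneg_left ((hGle _).trans (hc t ht)) hLp.le
  have i3 : IntegrableOn (fun t => L * Pair_G ⌊t * m' + β⌋₊) (Set.Icc (1 : ℝ) 3) := by
    refine hi _ ((Pair_floor_meas m' β Pair_G).const_mul _) (fun t _ => ?_) (fun t ht => ?_)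
    · exact mul_nonneg hLp.le (Pair_G_nonneg _)
    · rw [sq]
      exact mul_le_mul_of_nonneg_left ((hGle _).trans (hc' t ht)) hLp.le
  have i0 : IntegrableOn (fun t => vonMangoldt ⌊t * m + β⌋₊ * vonMangoldt ⌊t * m' + β⌋₊)
      (Set.Icc (1 : ℝ) 3) := by
    refine hi _ ((Pair_floor_meas m β _).mul (Pair_floor_meas m' β _)) (fun t _ => ?_)
      (fun t ht => ?_)
    · exact mul_nonneg vonMangoldt_nonneg vonMangoldt_nonneg
    · rw [sq]
      exact mul_le_mul (hc t ht) (hc' t ht) vonMangoldt_nonneg hLp.le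
  have hpt : ∀ t ∈ Set.Icc (1 : ℝ) 3, vonMangoldt ⌊t * m + β⌋₊ * vonMangoldt ⌊t * m' + β⌋₊ ≤
      L ^ 2 * A.indicator (1 : ℝ → ℝ) t + L * Pair_G ⌊t * m + β⌋₊ +
        L * Pair_G ⌊t * m' + β⌋₊ := by
    intro t ht
    have g1 := mul_nonneg hLp.le (Pair_G_nonneg ⌊t * m + β⌋₊)
    have g2 := mul_nonneg hLp.le (Pair_G_nonneg ⌊t * m' + β⌋₊)
    have g3 : 0 ≤ L ^ 2 * A.indicator (1 : ℝ → ℝ) t :=
      mul_nonneg (sq_nonneg _) (Set.indicator_nonneg (fun _ _ => zero_le_one) _)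
    by_cases h1 : (⌊t * m + β⌋₊).Prime
    · by_cases h2 : (⌊t * m' + β⌋₊).Prime
      · have h3 : A.indicator (1 : ℝ → ℝ) t = 1 := by
          rw [Set.indicator_of_mem (show t ∈ A from ⟨ht, h1, h2⟩)]
          rfl
        have h4 := mul_le_mul (hc t ht) (hc' t ht) vonMangoldt_nonneg hLp.le
        rw [h3, mul_one, sq]
        linarith
      · have h3 : Pair_G ⌊t * m' + β⌋₊ = vonMangoldt ⌊t * m' + β⌋₊ := by
          unfold Pair_G
          rw [if_neg h2]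
        have h4 := mul_le_mul_of_nonneg_right (hc t ht)
          (vonMangoldt_nonneg (n := ⌊t * m' + β⌋₊))
        rw [h3] at g2 ⊢
        linarith
    · have h3 : Pair_G ⌊t * m + β⌋₊ = vonMangoldt ⌊t * m + β⌋₊ := by
        unfold Pair_G
        rw [if_neg h1]
      have h4 := mul_le_mul_of_nonneg_left (hc' t ht)
        (vonMangoldt_nonneg (n := ⌊t * m + β⌋₊))
      rw [h3] at g1 ⊢
      linarith
  have j1 : ∫ t in Set.Icc (1 : ℝ) 3, L ^ 2 * A.indicator (1 : ℝ → ℝ) t ≤ 4 * C1 := by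
    rw [integral_const_mul, integral_indicator_one hAm]
    have h1 : (volume.restrict (Set.Icc (1 : ℝ) 3)).real A ≤ C1 / Real.log m ^ 2 := by
      refine le_trans ?_ (hV m m' β ((le_max_left _ _).trans hX) hm1' hm2' hβ hNE)
      rw [measureReal_restrict_apply hAm]
      exact ENNReal.toReal_mono hAf.ne (measure_mono Set.inter_subset_left)
    calc L ^ 2 * (volume.restrict (Set.Icc (1 : ℝ) 3)).real A ≤
          L ^ 2 * (C1 / Real.log m ^ 2) := mul_le_mul_of_nonneg_left h1 (sq_nonneg _)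
      _ = 4 * C1 := by
        rw [hL]
        field_simp
        ring
  have hsqrt : √(4 * κ * m) = √(4 * κ) * m ^ (1 / 2 : ℝ) := by
    rw [Real.sqrt_mul (by positivity), Real.sqrt_eq_rpow m]
  have hfinal : L * (2 * √(4 * κ * m) * Real.log (4 * κ * m)) / (m / κ) ≤ 1 / 2 := by
    rw [Real.rpow_two] at f3
    have h2 : 0 < m ^ (1 / 2 : ℝ) := by positivity
    have hmm : m = m ^ (1 / 2 : ℝ) * m ^ (1 / 2 : ℝ) := by
      rw [← Real.rpow_add hm0]
      norm_num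
    calc L * (2 * √(4 * κ * m) * Real.log (4 * κ * m)) / (m / κ) ≤
          L * (2 * √(4 * κ * m) * (2 * Real.log m)) / (m / κ) := by
          gcongr
      _ = 8 * √(4 * κ) * κ * (Real.log m ^ 2 / m ^ (1 / 2 : ℝ)) := by
          rw [hsqrt, hL]
          nth_rw 4 [hmm]
          field_simp
          ring
      _ ≤ 8 * √(4 * κ) * κ * (1 / (16 * √(4 * κ) * κ)) := by
          gcongr
      _ = 1 / 2 := by
          have : √(4 * κ) ≠ 0 := by positivity
          field_simp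
          norm_num
  have hlogY : 0 ≤ Real.log (4 * κ * m) := Real.log_nonneg hY1
  have j2 : ∫ t in Set.Icc (1 : ℝ) 3, L * Pair_G ⌊t * m + β⌋₊ ≤ 1 / 2 := by
    refine (Pair_G_int hm0 hY1 hLp.le hb).trans (le_trans ?_ hfinal)
    have : m / κ ≤ m := by
      rw [div_le_iff₀ hκ0]
      nlinarith
    gcongr
  have j3 : ∫ t in Set.Icc (1 : ℝ) 3, L * Pair_G ⌊t * m' + β⌋₊ ≤ 1 / 2 := by
    refine (Pair_G_int hm0' hY1 hLp.le hb').trans (le_trans ?_ hfinal)
    gcongr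
  calc ∫ t in Set.Icc (1 : ℝ) 3, vonMangoldt ⌊t * m + β⌋₊ * vonMangoldt ⌊t * m' + β⌋₊ ≤
        ∫ t in Set.Icc (1 : ℝ) 3, (L ^ 2 * A.indicator (1 : ℝ → ℝ) t +
          L * Pair_G ⌊t * m + β⌋₊ + L * Pair_G ⌊t * m' + β⌋₊) :=
        setIntegral_mono_on i0 ((i1.add i2).add i3) measurableSet_Icc hpt
    _ = (∫ t in Set.Icc (1 : ℝ) 3, L ^ 2 * A.indicator (1 : ℝ → ℝ) t) +
        (∫ t in Set.Icc (1 : ℝ) 3, L * Pair_G ⌊t * m + β⌋₊) +
        ∫ t in Set.Icc (1 : ℝ) 3, L * Pair_G ⌊t * m' + β⌋₊ := by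
        have i12 : IntegrableOn (fun t => L ^ 2 * A.indicator (1 : ℝ → ℝ) t +
            L * Pair_G ⌊t * m + β⌋₊) (Set.Icc (1 : ℝ) 3) := i1.add i2
        rw [integral_add i12 i3, integral_add i1 i2]
    _ ≤ 4 * C1 + 1 := by linarith

end RLC
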