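import Pool.Agent.RLC.LVH

/-!
# RLC.PsiM: the correlations are small outside of a set of small measure

PROOF. `δ1` from `hh_lv Γ`. `E = {τ : ‖hh τ‖ > exp(-δ1 w)}`, `hb = hh·1_E`, `hs = hh·1_{Eᶜ}`. `‖h‖_2² ≤ C w²`, so
`∫ ‖hh‖² = 2π ‖h‖_2² ≤ C w²` (`AMC.four_sq`, `AMC.h_abs`). Polarised Plancherel: for `f(s) = exp(iξs) h(s)`, `g(s) = h(s-r)` (real
valued, in `L¹ ∩ L²`): `f^(τ) = hh(τ-ξ)`, `g^(τ) = exp(-iτr) hh(τ)`, and `∫ f conj(g) = (1/2π) ∫ f^ conj(g^)` (from `AMC.four_sq` for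
`f + g`, `f - g`, `f + ig`, `f - ig`), i.e. `HX ξ r = (1/2π) ∫ hh(τ-ξ) conj(hh(τ)) exp(iτr) dτ = HXb + HXs` with `hb(τ-ξ)`, `hs(τ-ξ)`
in place of `hh(τ-ξ)`. By Cauchy-Schwarz `‖HXb ξ r‖ ≤ (∫ ‖hb‖²)^(1/2) (∫ ‖hh‖²)^(1/2) ≤ C w^(1-A'/2)` for all `ξ`, `r`.
`HXs ξ ·` is the (inverse) Fourier transform of `q(τ) = hs(τ-ξ) conj(hh(τ))`, which is in `L¹ ∩ L²`:
`∫ ‖HXs ξ r‖² dr = (1/2π) ∫ |q|² ≤ exp(-2δ1 w) C w²`. So `Psi r ≤ √(8π) C w^(1-A'/2) + Psi_s r`, `Psi_s r = ∫ exp(-ξ²/8) ‖HXs ξ r‖ dξ`,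
`∫ Psi_s² dr ≤ √(8π) ∫∫ exp(-ξ²/8) ‖HXs ξ r‖² dξ dr ≤ C w² exp(-2δ1 w)`. For `A' = 2|A| + 4` and large `w` the first term is `≤ w^(-A)/2`,
so `Psi r ≥ w^(-A)` implies `Psi_s r ≥ w^(-A)/2`; by Chebyshev the measure is `≤ 4 w^(2A) C w² exp(-2δ1 w) ≤ exp(-δ1 w)`.
(Measurability: `HXs` is a parametric integral of a jointly measurable function; it is enough to have an upper bound
for the (outer) measure of the set, so only `Psi_s` has to be measurable. One can work with `lintegral` throughout.)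
-/

namespace RLC

open MeasureTheory

private theorem PM_norm_exp (a b : ℝ) : ‖Complex.exp (a * b * Complex.I)‖ = 1 := by
  rw [← Complex.ofReal_mul, Complex.norm_exp_ofReal_mul_I]

private theorem PM_norm_exp' (a b : ℝ) : ‖Complex.exp (-(a * b * Complex.I))‖ = 1 := by
  have h1 : -((a : ℂ) * b * Complex.I) = ((-(a * b) : ℝ) : ℂ) * Complex.I := by
    push_cast
    ring
  rw [h1, Complex.norm_exp_ofReal_mul_I]

private theorem PM_hh_meas (β w : ℝ) : Measurable (AMC.hh β w) := by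
  have h1 : Measurable (fun p : ℝ × ℝ => (AMC.h β w p.2 : ℂ) *
      Complex.exp (-(p.1 * p.2 * Complex.I))) := by
    have h2 : Measurable (fun p : ℝ × ℝ => AMC.h β w p.2) := (AMC.h_meas β w).comp measurable_snd
    have h3 : Measurable (fun p : ℝ × ℝ => (AMC.h β w p.2 : ℂ)) := Complex.measurable_ofReal.comp h2
    refine h3.mul ?_
    fun_prop
  have h2 := (h1.stronglyMeasurable.integral_prod_right' (ν := (volume : Measure ℝ)))
  exact h2.measurable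

/-- Polarisation. -/
private theorem PM_pol (a b : ℝ → ℂ) (h : ∀ c : ℂ, Integrable (fun s => ‖a s + c * b s‖ ^ 2)) :
    ∫ s, a s * (starRingEnd ℂ) (b s) = (1 / 4 : ℂ) *
      (((∫ s, ‖a s + 1 * b s‖ ^ 2 : ℝ) : ℂ) - ((∫ s, ‖a s + (-1) * b s‖ ^ 2 : ℝ) : ℂ) +
      Complex.I * ((∫ s, ‖a s + Complex.I * b s‖ ^ 2 : ℝ) : ℂ) -
      Complex.I * ((∫ s, ‖a s + (-Complex.I) * b s‖ ^ 2 : ℝ) : ℂ)) := by
  have hI : ∀ c : ℂ, Integrable (fun s => ((‖a s + c * b s‖ ^ 2 : ℝ) : ℂ)) := fun c => (h c).ofReal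
  have e : ∀ u1 u2 u3 u4 : ℝ → ℂ, Integrable u1 → Integrable u2 → Integrable u3 → Integrable u4 →
      (∫ s, u1 s) - (∫ s, u2 s) + Complex.I * (∫ s, u3 s) - Complex.I * (∫ s, u4 s) =
      ∫ s, (u1 s - u2 s + Complex.I * u3 s - Complex.I * u4 s) := by
    intro u1 u2 u3 u4 k1 k2 k3 k4
    have i1 : Integrable (fun s => u1 s - u2 s) := k1.sub k2
    have i2 : Integrable (fun s => Complex.I * u3 s) := k3.const_mul _
    have i3 : Integrable (fun s => Complex.I * u4 s) := k4.const_mul _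
    have i4 : Integrable (fun s => u1 s - u2 s + Complex.I * u3 s) := i1.add i2
    rw [integral_sub i4 i3, integral_add i1 i2, integral_sub k1 k2, integral_const_mul,
      integral_const_mul]
  rw [← integral_complex_ofReal, ← integral_complex_ofReal, ← integral_complex_ofReal,
    ← integral_complex_ofReal, e _ _ _ _ (hI _) (hI _) (hI _) (hI _), ← integral_const_mul]
  apply integral_congr_ae
  filter_upwards with s
  have key : ∀ c : ℂ, ((‖a s + c * b s‖ ^ 2 : ℝ) : ℂ) =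
      (a s + c * b s) * ((starRingEnd ℂ) (a s) + (starRingEnd ℂ) c * (starRingEnd ℂ) (b s)) := by
    intro c
    rw [← map_mul, ← map_add, Complex.mul_conj']
    push_cast
    rfl
  rw [key, key, key, key]
  simp only [map_one, map_neg, Complex.conj_I]
  linear_combination ((1 / 2 : ℂ) * a s * (starRingEnd ℂ) (b s) -
    (1 / 2 : ℂ) * b s * (starRingEnd ℂ) (a s)) * Complex.I_sq

/-- Plancherel, polarised. -/
private theorem PM_polar (f g : ℝ → ℂ) (hf : Integrable f) (hf2 : Integrable (fun s => ‖f s‖ ^ 2))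
    (hg : Integrable g) (hg2 : Integrable (fun s => ‖g s‖ ^ 2)) :
    ∫ s, f s * (starRingEnd ℂ) (g s) =
      ((1 / (2 * Real.pi) : ℝ) : ℂ) * ∫ τ : ℝ, (∫ s : ℝ, f s * Complex.exp (-(τ * s * Complex.I))) *
        (starRingEnd ℂ) (∫ s : ℝ, g s * Complex.exp (-(τ * s * Complex.I))) := by
  have hc1 : ∀ c : ℂ, Integrable (fun s => f s + c * g s) := fun c => hf.add (hg.const_mul c)
  have hc2 : ∀ c : ℂ, Integrable (fun s => ‖f s + c * g s‖ ^ 2) := by
    intro c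
    refine ((hf2.const_mul 2).add (hg2.const_mul (2 * ‖c‖ ^ 2))).mono'
      ((hc1 c).aestronglyMeasurable.norm.pow 2) ?_
    filter_upwards with s
    rw [Real.norm_of_nonneg (by positivity)]
    have h1 : ‖f s + c * g s‖ ≤ ‖f s‖ + ‖c‖ * ‖g s‖ := by
      rw [← norm_mul]
      exact norm_add_le _ _
    have h2 : ‖f s + c * g s‖ ^ 2 ≤ (‖f s‖ + ‖c‖ * ‖g s‖) ^ 2 :=
      pow_le_pow_left₀ (norm_nonneg _) h1 2
    refine h2.trans ?_
    show (‖f s‖ + ‖c‖ * ‖g s‖) ^ 2 ≤ 2 * ‖f s‖ ^ 2 + 2 * ‖c‖ ^ 2 * ‖g s‖ ^ 2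
    nlinarith [sq_nonneg (‖f s‖ - ‖c‖ * ‖g s‖)]
  have hexp : ∀ (u : ℝ → ℂ) (τ : ℝ), Integrable u →
      Integrable (fun s : ℝ => u s * Complex.exp (-(τ * s * Complex.I))) := by
    intro u τ hu
    refine hu.mono (hu.aestronglyMeasurable.mul ?_) ?_
    · exact (by fun_prop : Measurable fun s : ℝ =>
        Complex.exp (-(τ * s * Complex.I))).aestronglyMeasurable
    · filter_upwards with s
      rw [norm_mul, PM_norm_exp', mul_one]
  have hlin : ∀ (c : ℂ) (τ : ℝ), (∫ s : ℝ, f s * Complex.exp (-(τ * s * Complex.I))) +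
      c * (∫ s : ℝ, g s * Complex.exp (-(τ * s * Complex.I))) =
      ∫ s : ℝ, (f s + c * g s) * Complex.exp (-(τ * s * Complex.I)) := by
    intro c τ
    rw [← integral_const_mul, ← integral_add (hexp f τ hf) ((hexp g τ hg).const_mul c)]
    apply integral_congr_ae
    filter_upwards with s
    ring
  have hF : ∀ c : ℂ, Integrable (fun τ : ℝ => ‖(∫ s : ℝ, f s * Complex.exp (-(τ * s * Complex.I))) +
      c * (∫ s : ℝ, g s * Complex.exp (-(τ * s * Complex.I)))‖ ^ 2) := by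
    intro c
    simp_rw [hlin]
    exact (AMC.four_sq _ (hc1 c) (hc2 c)).1
  have hval : ∀ c : ℂ, ∫ τ : ℝ, ‖(∫ s : ℝ, f s * Complex.exp (-(τ * s * Complex.I))) +
      c * (∫ s : ℝ, g s * Complex.exp (-(τ * s * Complex.I)))‖ ^ 2 =
      2 * Real.pi * ∫ s, ‖f s + c * g s‖ ^ 2 := by
    intro c
    simp_rw [hlin]
    exact (AMC.four_sq _ (hc1 c) (hc2 c)).2
  rw [PM_pol f g hc2, PM_pol _ _ hF, hval, hval, hval, hval]
  have hpi : (Real.pi : ℂ) ≠ 0 := by exact_mod_cast Real.pi_ne_zero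
  push_cast
  field_simp

private theorem PM_HX (β w ξ r : ℝ) (hw : 1 ≤ w) : HX β w ξ r = ((1 / (2 * Real.pi) : ℝ) : ℂ) *
    ∫ τ : ℝ, AMC.hh β w (τ - ξ) * (starRingEnd ℂ) (AMC.hh β w τ) *
      Complex.exp (τ * r * Complex.I) := by
  obtain ⟨h1, h2⟩ := AMC.h_int β w hw
  have h1c : Integrable (fun s : ℝ => (AMC.h β w s : ℂ)) := h1.ofReal
  have hf : Integrable (fun s : ℝ => Complex.exp (ξ * s * Complex.I) * (AMC.h β w s : ℂ)) := by
    refine h1c.mono (AEStronglyMeasurable.mul ?_ h1c.aestronglyMeasurable) ?_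
    · exact (by fun_prop : Measurable fun s : ℝ =>
        Complex.exp (ξ * s * Complex.I)).aestronglyMeasurable
    · filter_upwards with s
      rw [norm_mul, PM_norm_exp, one_mul]
  have hf2 : Integrable (fun s : ℝ => ‖Complex.exp (ξ * s * Complex.I) * (AMC.h β w s : ℂ)‖ ^ 2) := by
    refine h2.congr ?_
    filter_upwards with s
    rw [norm_mul, PM_norm_exp, one_mul, Complex.norm_real, Real.norm_eq_abs, sq_abs]
  have hg : Integrable (fun s : ℝ => (AMC.h β w (s - r) : ℂ)) := (h1.comp_sub_right r).ofReal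
  have hg2 : Integrable (fun s : ℝ => ‖(AMC.h β w (s - r) : ℂ)‖ ^ 2) := by
    refine (h2.comp_sub_right r).congr ?_
    filter_upwards with s
    rw [Complex.norm_real, Real.norm_eq_abs, sq_abs]
  have key := PM_polar _ _ hf hf2 hg hg2
  have e1 : HX β w ξ r = ∫ s : ℝ, (Complex.exp (ξ * s * Complex.I) * (AMC.h β w s : ℂ)) *
      (starRingEnd ℂ) (AMC.h β w (s - r) : ℂ) := by
    unfold HX
    apply integral_congr_ae
    filter_upwards with s
    rw [Complex.conj_ofReal]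
    push_cast
    ring
  rw [e1, key]
  congr 1
  apply integral_congr_ae
  filter_upwards with τ
  have e2 : ∫ s : ℝ, Complex.exp (ξ * s * Complex.I) * (AMC.h β w s : ℂ) *
      Complex.exp (-(τ * s * Complex.I)) = AMC.hh β w (τ - ξ) := by
    unfold AMC.hh
    apply integral_congr_ae
    filter_upwards with s
    have e3 : Complex.exp (-(((τ - ξ : ℝ) : ℂ) * s * Complex.I)) =
        Complex.exp (ξ * s * Complex.I) * Complex.exp (-(τ * s * Complex.I)) := by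
      rw [← Complex.exp_add]
      congr 1
      push_cast
      ring
    rw [e3]
    ring
  have e4 : ∫ s : ℝ, (AMC.h β w (s - r) : ℂ) * Complex.exp (-(τ * s * Complex.I)) =
      Complex.exp (-(τ * r * Complex.I)) * AMC.hh β w τ := by
    rw [← integral_add_right_eq_self (fun s : ℝ => (AMC.h β w (s - r) : ℂ) *
      Complex.exp (-(τ * s * Complex.I))) r]
    unfold AMC.hh
    rw [← integral_const_mul]
    apply integral_congr_ae
    filter_upwards with s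
    have e5 : Complex.exp (-(τ * ((s + r : ℝ) : ℂ) * Complex.I)) =
        Complex.exp (-(τ * r * Complex.I)) * Complex.exp (-(τ * s * Complex.I)) := by
      rw [← Complex.exp_add]
      congr 1
      push_cast
      ring
    rw [e5, add_sub_cancel_right]
    ring
  rw [e2, e4, map_mul]
  have e6 : (starRingEnd ℂ) (Complex.exp (-(τ * r * Complex.I))) = Complex.exp (τ * r * Complex.I) := by
    rw [← Complex.exp_conj]
    congr 1
    simp
  rw [e6]
  ring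

/-- The large part of the Fourier transform. -/
private noncomputable def PM_b (β w δ τ : ℝ) : ℂ :=
  if Real.exp (-δ * w) < ‖AMC.hh β w τ‖ then AMC.hh β w τ else 0

/-- The small part of the Fourier transform. -/
private noncomputable def PM_s (β w δ τ : ℝ) : ℂ :=
  if Real.exp (-δ * w) < ‖AMC.hh β w τ‖ then 0 else AMC.hh β w τ

private theorem PM_set_meas (β w δ : ℝ) :
    MeasurableSet {τ : ℝ | Real.exp (-δ * w) < ‖AMC.hh β w τ‖} :=
  measurableSet_lt measurable_const (PM_hh_meas β w).norm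

private theorem PM_b_meas (β w δ : ℝ) : Measurable (PM_b β w δ) :=
  Measurable.ite (PM_set_meas β w δ) (PM_hh_meas β w) measurable_const

private theorem PM_s_meas (β w δ : ℝ) : Measurable (PM_s β w δ) :=
  Measurable.ite (PM_set_meas β w δ) measurable_const (PM_hh_meas β w)

private theorem PM_add (β w δ τ : ℝ) : AMC.hh β w τ = PM_b β w δ τ + PM_s β w δ τ := by
  unfold PM_b PM_s
  split_ifs <;> simp

private theorem PM_s_le (β w δ τ : ℝ) : ‖PM_s β w δ τ‖ ≤ Real.exp (-δ * w) := by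
  unfold PM_s
  split_ifs with h
  · rw [norm_zero]; exact (Real.exp_pos _).le
  · exact not_lt.1 h

private theorem PM_s_le' (β w δ τ : ℝ) : ‖PM_s β w δ τ‖ ≤ ‖AMC.hh β w τ‖ := by
  unfold PM_s
  split_ifs with h
  · rw [norm_zero]; exact norm_nonneg _
  · exact le_rfl

private theorem PM_hh_sq {Γ β w : ℝ} (hw : 1 ≤ w) (hβ : |β| ≤ Γ) :
    Integrable (fun τ => ‖AMC.hh β w τ‖ ^ 2) ∧
    ∫ τ, ‖AMC.hh β w τ‖ ^ 2 ≤ 2 * Real.pi * ((4 + 2 * Γ) ^ 2 * Real.sqrt Real.pi) * w ^ 2 := by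
  obtain ⟨h1, h2⟩ := AMC.h_int β w hw
  have h1c : Integrable (fun s : ℝ => (AMC.h β w s : ℂ)) := h1.ofReal
  have h2c : Integrable (fun s : ℝ => ‖(AMC.h β w s : ℂ)‖ ^ 2) := by
    refine h2.congr ?_
    filter_upwards with s
    rw [Complex.norm_real, Real.norm_eq_abs, sq_abs]
  obtain ⟨h3, h4⟩ := AMC.four_sq _ h1c h2c
  refine ⟨h3, ?_⟩
  have hβ0 := abs_nonneg β
  have h5 : ∫ s : ℝ, ‖(AMC.h β w s : ℂ)‖ ^ 2 ≤ (4 + 2 * Γ) ^ 2 * Real.sqrt Real.pi * w ^ 2 := by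
    have h6 : ∫ s : ℝ, Real.exp (-(s - w) ^ 2) = Real.sqrt Real.pi := by
      rw [integral_sub_right_eq_self (fun s : ℝ => Real.exp (-s ^ 2)) w]
      have := integral_gaussian 1
      simpa using this
    have h7 : Integrable (fun s : ℝ => Real.exp (-(s - w) ^ 2)) := by
      have := (integrable_exp_neg_mul_sq (b := 1) one_pos).comp_sub_right w
      simpa using this
    have h8 : ∫ s : ℝ, ‖(AMC.h β w s : ℂ)‖ ^ 2 ≤
        ∫ s : ℝ, ((4 + 2 * Γ) ^ 2 * w ^ 2) * Real.exp (-(s - w) ^ 2) := by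
      apply integral_mono h2c (h7.const_mul _)
      intro s
      show ‖(AMC.h β w s : ℂ)‖ ^ 2 ≤ ((4 + 2 * Γ) ^ 2 * w ^ 2) * Real.exp (-(s - w) ^ 2)
      rw [Complex.norm_real, Real.norm_eq_abs]
      have h9 := AMC.h_abs β w s hw
      have h10 : (4 + 2 * |β|) * w * Real.exp (-(s - w) ^ 2 / 2) ≤
          (4 + 2 * Γ) * w * Real.exp (-(s - w) ^ 2 / 2) := by
        apply mul_le_mul_of_nonneg_right _ (Real.exp_pos _).le
        apply mul_le_mul_of_nonneg_right _ (by linarith)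
        linarith
      have h11 := pow_le_pow_left₀ (abs_nonneg _) (h9.trans h10) 2
      refine h11.trans (le_of_eq ?_)
      rw [mul_pow, mul_pow, ← Real.exp_nat_mul]
      congr 2
      push_cast
      ring
    rw [integral_const_mul, h6] at h8
    linarith
  have h12 : ∫ τ, ‖AMC.hh β w τ‖ ^ 2 = 2 * Real.pi * ∫ s, ‖(AMC.h β w s : ℂ)‖ ^ 2 := h4
  rw [h12]
  have h13 := mul_le_mul_of_nonneg_left h5 (show 0 ≤ 2 * Real.pi by positivity)
  linarith

private theorem PM_q {X : ℝ → ℂ} (hX : Measurable X) (hX2 : Integrable (fun τ => ‖X τ‖ ^ 2))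
    {β w : ℝ} (hw : 1 ≤ w) (ξ r : ℝ) :
    Integrable (fun τ : ℝ => X (τ - ξ) * (starRingEnd ℂ) (AMC.hh β w τ) *
      Complex.exp (τ * r * Complex.I)) ∧
    ∀ lam : ℝ, 0 < lam → ‖∫ τ : ℝ, X (τ - ξ) * (starRingEnd ℂ) (AMC.hh β w τ) *
      Complex.exp (τ * r * Complex.I)‖ ≤
      lam / 2 * (∫ τ, ‖X τ‖ ^ 2) + 1 / (2 * lam) * ∫ τ, ‖AMC.hh β w τ‖ ^ 2 := by
  have hH := (PM_hh_sq (Γ := |β|) hw le_rfl).1
  have hX3 : Integrable (fun τ => ‖X (τ - ξ)‖ ^ 2) := hX2.comp_sub_right ξ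
  have hb : ∀ lam : ℝ, 0 < lam → ∀ τ : ℝ, ‖X (τ - ξ) * (starRingEnd ℂ) (AMC.hh β w τ) *
      Complex.exp (τ * r * Complex.I)‖ ≤
      lam / 2 * ‖X (τ - ξ)‖ ^ 2 + 1 / (2 * lam) * ‖AMC.hh β w τ‖ ^ 2 := by
    intro lam hlam τ
    rw [norm_mul, norm_mul, PM_norm_exp, mul_one, RCLike.norm_conj]
    set x := ‖X (τ - ξ)‖
    set y := ‖AMC.hh β w τ‖
    have h1 : lam / 2 * x ^ 2 + 1 / (2 * lam) * y ^ 2 - x * y = (lam * x - y) ^ 2 / (2 * lam) := by
      field_simp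
      ring
    have h2 : 0 ≤ (lam * x - y) ^ 2 / (2 * lam) := by positivity
    linarith
  have hint : ∀ lam : ℝ, Integrable (fun τ : ℝ => lam / 2 * ‖X (τ - ξ)‖ ^ 2 +
      1 / (2 * lam) * ‖AMC.hh β w τ‖ ^ 2) := fun lam =>
    (hX3.const_mul _).add (hH.const_mul _)
  have hm : Measurable (fun τ : ℝ => X (τ - ξ) * (starRingEnd ℂ) (AMC.hh β w τ) *
      Complex.exp (τ * r * Complex.I)) := by
    refine ((hX.comp (measurable_id.sub_const ξ)).mul ?_).mul (by fun_prop)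
    exact (Complex.continuous_conj.measurable).comp (PM_hh_meas β w)
  refine ⟨(hint 1).mono' hm.aestronglyMeasurable ?_, ?_⟩
  · filter_upwards with τ using hb 1 one_pos τ
  · intro lam hlam
    refine (norm_integral_le_of_norm_le (hint lam) ?_).trans (le_of_eq ?_)
    · filter_upwards with τ using hb lam hlam τ
    · rw [integral_add (hX3.const_mul _) (hH.const_mul _), integral_const_mul, integral_const_mul,
        integral_sub_right_eq_self (fun τ => ‖X τ‖ ^ 2) ξ]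

/-- The part of `HX` with the small values. -/
private noncomputable def PM_J (β w δ ξ r : ℝ) : ℂ :=
  ∫ τ : ℝ, PM_s β w δ (τ - ξ) * (starRingEnd ℂ) (AMC.hh β w τ) * Complex.exp (τ * r * Complex.I)

private theorem PM_J_meas (β w δ : ℝ) : Measurable (fun p : ℝ × ℝ => PM_J β w δ p.1 p.2) := by
  have h1 : Measurable (fun p : (ℝ × ℝ) × ℝ => PM_s β w δ (p.2 - p.1.1) *
      (starRingEnd ℂ) (AMC.hh β w p.2) * Complex.exp (p.2 * p.1.2 * Complex.I)) := by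
    refine Measurable.mul (Measurable.mul ?_ ?_) (by fun_prop)
    · exact (PM_s_meas β w δ).comp (by fun_prop)
    · exact (Complex.continuous_conj.measurable).comp ((PM_hh_meas β w).comp measurable_snd)
  exact (h1.stronglyMeasurable.integral_prod_right' (ν := (volume : Measure ℝ))).measurable

private theorem PM_J_sq {Γ β w : ℝ} (δ : ℝ) (hw : 1 ≤ w) (hβ : |β| ≤ Γ) (ξ : ℝ) :
    ∫⁻ r : ℝ, ENNReal.ofReal (‖PM_J β w δ ξ r‖ ^ 2) ≤ ENNReal.ofReal (2 * Real.pi *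
      (Real.exp (-2 * δ * w) * (2 * Real.pi * ((4 + 2 * Γ) ^ 2 * Real.sqrt Real.pi) * w ^ 2))) := by
  obtain ⟨hH, hHle⟩ := PM_hh_sq hw hβ
  have hs2 : Integrable (fun τ => ‖PM_s β w δ τ‖ ^ 2) := by
    refine hH.mono' ((PM_s_meas β w δ).norm.pow_const 2).aestronglyMeasurable ?_
    filter_upwards with τ
    rw [Real.norm_of_nonneg (by positivity)]
    exact pow_le_pow_left₀ (norm_nonneg _) (PM_s_le' β w δ τ) 2
  set b : ℝ → ℂ := fun τ => PM_s β w δ (τ - ξ) * (starRingEnd ℂ) (AMC.hh β w τ) with hb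
  have hb1 : Integrable b := by
    have := (PM_q (PM_s_meas β w δ) hs2 (β := β) hw ξ 0).1
    refine this.congr ?_
    filter_upwards with τ
    simp [hb]
  have hbn : ∀ τ, ‖b τ‖ ^ 2 ≤ Real.exp (-2 * δ * w) * ‖AMC.hh β w τ‖ ^ 2 := by
    intro τ
    simp only [hb]
    rw [norm_mul, RCLike.norm_conj, mul_pow]
    apply mul_le_mul_of_nonneg_right _ (by positivity)
    refine (pow_le_pow_left₀ (norm_nonneg _) (PM_s_le β w δ _) 2).trans (le_of_eq ?_)
    rw [← Real.exp_nat_mul]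
    congr 1
    push_cast
    ring
  have hb2 : Integrable (fun τ => ‖b τ‖ ^ 2) := by
    refine (hH.const_mul (Real.exp (-2 * δ * w))).mono' (hb1.aestronglyMeasurable.norm.pow 2) ?_
    filter_upwards with τ
    rw [Real.norm_of_nonneg (by positivity)]
    exact hbn τ
  obtain ⟨h1, h2⟩ := AMC.four_sq b hb1 hb2
  have hJ : ∀ r : ℝ, PM_J β w δ ξ r = ∫ s : ℝ, b s * Complex.exp (-(((-r : ℝ) : ℂ) * s * Complex.I)) := by
    intro r
    unfold PM_J
    apply integral_congr_ae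
    filter_upwards with s
    simp only [hb]
    congr 2
    push_cast
    ring
  have h3 : Integrable (fun r : ℝ => ‖PM_J β w δ ξ r‖ ^ 2) := by
    simp_rw [hJ]
    exact h1.comp_neg
  have h4 : ∫ r : ℝ, ‖PM_J β w δ ξ r‖ ^ 2 = 2 * Real.pi * ∫ s, ‖b s‖ ^ 2 := by
    simp_rw [hJ]
    rw [← h2]
    exact integral_neg_eq_self (fun r : ℝ => ‖∫ s : ℝ, b s * Complex.exp (-((r : ℂ) * s * Complex.I))‖ ^ 2)
      volume
  rw [← ofReal_integral_eq_lintegral_ofReal h3 (Filter.Eventually.of_forall fun r => by positivity), h4]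
  apply ENNReal.ofReal_le_ofReal
  apply mul_le_mul_of_nonneg_left _ (by positivity)
  calc ∫ s, ‖b s‖ ^ 2 ≤ ∫ s, Real.exp (-2 * δ * w) * ‖AMC.hh β w s‖ ^ 2 :=
        integral_mono hb2 (hH.const_mul _) hbn
    _ = Real.exp (-2 * δ * w) * ∫ s, ‖AMC.hh β w s‖ ^ 2 := integral_const_mul _ _
    _ ≤ _ := mul_le_mul_of_nonneg_left hHle (Real.exp_pos _).le

private theorem PM_HX_le {β w δ Q K : ℝ} (hw : 1 ≤ w)
    (hK : ∫ τ, ‖AMC.hh β w τ‖ ^ 2 ≤ K)
    (hQ : ∫ τ in {τ : ℝ | Real.exp (-δ * w) < ‖AMC.hh β w τ‖}, ‖AMC.hh β w τ‖ ^ 2 ≤ Q) (ξ r lam lam' : ℝ)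
    (hlam : 0 < lam) (hlam' : 0 < lam') :
    ‖HX β w ξ r‖ ≤ (lam' / 2 * Q + 1 / (2 * lam') * K + 1 / (2 * lam)) +
      lam / 2 * ‖PM_J β w δ ξ r‖ ^ 2 := by
  have hH := (PM_hh_sq (Γ := |β|) hw le_rfl).1
  have hs2 : Integrable (fun τ => ‖PM_s β w δ τ‖ ^ 2) := by
    refine hH.mono' ((PM_s_meas β w δ).norm.pow_const 2).aestronglyMeasurable ?_
    filter_upwards with τ
    rw [Real.norm_of_nonneg (by positivity)]
    exact pow_le_pow_left₀ (norm_nonneg _) (PM_s_le' β w δ τ) 2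
  have hbi : (fun τ => ‖PM_b β w δ τ‖ ^ 2) =
      Set.indicator {τ : ℝ | Real.exp (-δ * w) < ‖AMC.hh β w τ‖} (fun τ => ‖AMC.hh β w τ‖ ^ 2) := by
    funext τ
    rw [Set.indicator_apply]
    simp only [Set.mem_ofPred_eq]
    unfold PM_b
    split_ifs <;> simp
  have hb2 : Integrable (fun τ => ‖PM_b β w δ τ‖ ^ 2) := by
    rw [hbi]
    exact hH.indicator (PM_set_meas β w δ)
  have hbQ : ∫ τ, ‖PM_b β w δ τ‖ ^ 2 ≤ Q := by
    have h1 : ∫ τ, ‖PM_b β w δ τ‖ ^ 2 = ∫ τ in {τ : ℝ | Real.exp (-δ * w) < ‖AMC.hh β w τ‖},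
        ‖AMC.hh β w τ‖ ^ 2 := by
      rw [hbi]
      exact integral_indicator (PM_set_meas β w δ)
    rw [h1]
    exact hQ
  obtain ⟨ib, bb⟩ := PM_q (PM_b_meas β w δ) hb2 (β := β) hw ξ r
  obtain ⟨is, -⟩ := PM_q (PM_s_meas β w δ) hs2 (β := β) hw ξ r
  have h1 : ∫ τ : ℝ, AMC.hh β w (τ - ξ) * (starRingEnd ℂ) (AMC.hh β w τ) *
      Complex.exp (τ * r * Complex.I) =
      (∫ τ : ℝ, PM_b β w δ (τ - ξ) * (starRingEnd ℂ) (AMC.hh β w τ) *
        Complex.exp (τ * r * Complex.I)) + PM_J β w δ ξ r := by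
    unfold PM_J
    rw [← integral_add ib is]
    apply integral_congr_ae
    filter_upwards with τ
    rw [PM_add β w δ (τ - ξ)]
    ring
  rw [PM_HX β w ξ r hw, h1, norm_mul, Complex.norm_real]
  have h2 : ‖(1 / (2 * Real.pi) : ℝ)‖ ≤ 1 := by
    rw [Real.norm_of_nonneg (by positivity), div_le_one (by positivity)]
    have := Real.pi_gt_three
    linarith
  have h3 := bb lam' hlam'
  have h4 : ‖PM_J β w δ ξ r‖ ≤ 1 / (2 * lam) + lam / 2 * ‖PM_J β w δ ξ r‖ ^ 2 := by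
    set x := ‖PM_J β w δ ξ r‖
    have h5 : 1 / (2 * lam) + lam / 2 * x ^ 2 - x = (lam * x - 1) ^ 2 / (2 * lam) := by
      field_simp
      ring
    have h6 : 0 ≤ (lam * x - 1) ^ 2 / (2 * lam) := by positivity
    linarith
  have h7 : lam' / 2 * ∫ τ, ‖PM_b β w δ τ‖ ^ 2 ≤ lam' / 2 * Q :=
    mul_le_mul_of_nonneg_left hbQ (by positivity)
  have h8 : 1 / (2 * lam') * ∫ τ, ‖AMC.hh β w τ‖ ^ 2 ≤ 1 / (2 * lam') * K :=
    mul_le_mul_of_nonneg_left hK (by positivity)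
  calc ‖(1 / (2 * Real.pi) : ℝ)‖ * ‖(∫ τ : ℝ, PM_b β w δ (τ - ξ) * (starRingEnd ℂ) (AMC.hh β w τ) *
        Complex.exp (τ * r * Complex.I)) + PM_J β w δ ξ r‖
      ≤ 1 * ‖(∫ τ : ℝ, PM_b β w δ (τ - ξ) * (starRingEnd ℂ) (AMC.hh β w τ) *
        Complex.exp (τ * r * Complex.I)) + PM_J β w δ ξ r‖ :=
        mul_le_mul_of_nonneg_right h2 (norm_nonneg _)
    _ ≤ ‖∫ τ : ℝ, PM_b β w δ (τ - ξ) * (starRingEnd ℂ) (AMC.hh β w τ) *
        Complex.exp (τ * r * Complex.I)‖ + ‖PM_J β w δ ξ r‖ := by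
        rw [one_mul]
        exact norm_add_le _ _
    _ ≤ _ := by linarith

/-- Chebyshev's inequality. -/
private theorem PM_cheb {Γ β w δ M lam t : ℝ} (hw : 1 ≤ w) (hβ : |β| ≤ Γ) (hM : 0 ≤ M)
    (hlam : 0 < lam) (ht : 0 < t)
    (hX : ∀ ξ r : ℝ, ‖HX β w ξ r‖ ≤ M + lam / 2 * ‖PM_J β w δ ξ r‖ ^ 2)
    (hZ : (∫ ξ : ℝ, Real.exp (-ξ ^ 2 / 8)) * M ≤ t / 2) :
    volume {r : ℝ | t ≤ Psi β w r} ≤ ENNReal.ofReal ((lam / 2 * ((∫ ξ : ℝ, Real.exp (-ξ ^ 2 / 8)) *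
      (2 * Real.pi * (Real.exp (-2 * δ * w) *
        (2 * Real.pi * ((4 + 2 * Γ) ^ 2 * Real.sqrt Real.pi) * w ^ 2))))) / (t / 2)) := by
  have hg : Integrable (fun ξ : ℝ => Real.exp (-ξ ^ 2 / 8)) := by
    have := integrable_exp_neg_mul_sq (b := 1 / 8) (by norm_num)
    refine this.congr ?_
    filter_upwards with ξ
    congr 1
    ring
  set K2 : ℝ := 2 * Real.pi * (Real.exp (-2 * δ * w) *
    (2 * Real.pi * ((4 + 2 * Γ) ^ 2 * Real.sqrt Real.pi) * w ^ 2)) with hK2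
  have hK2' : 0 ≤ K2 := by positivity
  set Z : ℝ := ∫ ξ : ℝ, Real.exp (-ξ ^ 2 / 8) with hZd
  have hZ0 : 0 ≤ Z := integral_nonneg fun ξ => (Real.exp_pos _).le
  have hFm : Measurable (fun p : ℝ × ℝ => ENNReal.ofReal (Real.exp (-p.1 ^ 2 / 8)) *
      ENNReal.ofReal (‖PM_J β w δ p.1 p.2‖ ^ 2)) := by
    have m1 : Measurable (fun p : ℝ × ℝ => ENNReal.ofReal (Real.exp (-p.1 ^ 2 / 8))) :=
      (by fun_prop : Measurable fun p : ℝ × ℝ => Real.exp (-p.1 ^ 2 / 8)).ennreal_ofReal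
    have m2 : Measurable (fun p : ℝ × ℝ => ENNReal.ofReal (‖PM_J β w δ p.1 p.2‖ ^ 2)) :=
      ((PM_J_meas β w δ).norm.pow_const 2).ennreal_ofReal
    exact m1.mul m2
  set Ξ : ℝ → ENNReal := fun r => ∫⁻ ξ : ℝ, ENNReal.ofReal (Real.exp (-ξ ^ 2 / 8)) *
      ENNReal.ofReal (‖PM_J β w δ ξ r‖ ^ 2) with hΞ
  have hΞm : Measurable Ξ := hFm.lintegral_prod_left'
  have hΞi : ∫⁻ r, Ξ r ≤ ENNReal.ofReal (Z * K2) := by
    have h1 : ∫⁻ r, Ξ r = ∫⁻ ξ : ℝ, ∫⁻ r : ℝ, ENNReal.ofReal (Real.exp (-ξ ^ 2 / 8)) *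
        ENNReal.ofReal (‖PM_J β w δ ξ r‖ ^ 2) :=
      (lintegral_lintegral_swap (f := fun ξ r : ℝ => ENNReal.ofReal (Real.exp (-ξ ^ 2 / 8)) *
        ENNReal.ofReal (‖PM_J β w δ ξ r‖ ^ 2)) hFm.aemeasurable).symm
    rw [h1]
    have h2 : ∀ ξ : ℝ, ∫⁻ r : ℝ, ENNReal.ofReal (Real.exp (-ξ ^ 2 / 8)) *
        ENNReal.ofReal (‖PM_J β w δ ξ r‖ ^ 2) ≤
        ENNReal.ofReal (Real.exp (-ξ ^ 2 / 8) * K2) := by
      intro ξ
      rw [lintegral_const_mul' _ _ ENNReal.ofReal_ne_top, ENNReal.ofReal_mul (Real.exp_pos _).le]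
      exact mul_le_mul_right (PM_J_sq δ hw hβ ξ) _
    refine (lintegral_mono h2).trans (le_of_eq ?_)
    rw [← ofReal_integral_eq_lintegral_ofReal (hg.mul_const K2)
      (Filter.Eventually.of_forall fun ξ => by positivity), integral_mul_const]
  have hsub : {r : ℝ | t ≤ Psi β w r} ⊆
      {r : ℝ | ENNReal.ofReal (t / 2) ≤ ENNReal.ofReal (lam / 2) * Ξ r} := by
    intro r hr
    have hr' : t ≤ Psi β w r := hr
    have h1 : ENNReal.ofReal t ≤ ENNReal.ofReal (Z * M) + ENNReal.ofReal (lam / 2) * Ξ r := by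
      calc ENNReal.ofReal t ≤ ENNReal.ofReal (Psi β w r) := ENNReal.ofReal_le_ofReal hr'
        _ ≤ ‖Psi β w r‖ₑ := Real.ofReal_le_enorm _
        _ ≤ ∫⁻ ξ : ℝ, ‖Real.exp (-ξ ^ 2 / 8) * ‖HX β w ξ r‖‖ₑ := enorm_integral_le_lintegral_enorm _
        _ ≤ ∫⁻ ξ : ℝ, (ENNReal.ofReal (Real.exp (-ξ ^ 2 / 8) * M) + ENNReal.ofReal (lam / 2) *
              (ENNReal.ofReal (Real.exp (-ξ ^ 2 / 8)) * ENNReal.ofReal (‖PM_J β w δ ξ r‖ ^ 2))) := by
            apply lintegral_mono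
            intro ξ
            show ‖Real.exp (-ξ ^ 2 / 8) * ‖HX β w ξ r‖‖ₑ ≤ ENNReal.ofReal (Real.exp (-ξ ^ 2 / 8) * M) +
              ENNReal.ofReal (lam / 2) *
              (ENNReal.ofReal (Real.exp (-ξ ^ 2 / 8)) * ENNReal.ofReal (‖PM_J β w δ ξ r‖ ^ 2))
            rw [Real.enorm_of_nonneg (by positivity),
              ← ENNReal.ofReal_mul (Real.exp_pos _).le, ← ENNReal.ofReal_mul (by positivity),
              ← ENNReal.ofReal_add (by positivity) (by positivity)]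
            apply ENNReal.ofReal_le_ofReal
            calc Real.exp (-ξ ^ 2 / 8) * ‖HX β w ξ r‖
                ≤ Real.exp (-ξ ^ 2 / 8) * (M + lam / 2 * ‖PM_J β w δ ξ r‖ ^ 2) :=
                  mul_le_mul_of_nonneg_left (hX ξ r) (Real.exp_pos _).le
              _ = _ := by ring
        _ = ENNReal.ofReal (Z * M) + ENNReal.ofReal (lam / 2) * Ξ r := by
            rw [lintegral_add_left, lintegral_const_mul' _ _ ENNReal.ofReal_ne_top,
              ← ofReal_integral_eq_lintegral_ofReal (hg.mul_const M)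
                (Filter.Eventually.of_forall fun ξ => by positivity), integral_mul_const]
            exact (by fun_prop : Measurable fun ξ : ℝ => Real.exp (-ξ ^ 2 / 8) * M).ennreal_ofReal
    have h2 : ENNReal.ofReal t = ENNReal.ofReal (t / 2) + ENNReal.ofReal (t / 2) := by
      rw [← ENNReal.ofReal_add (by positivity) (by positivity)]
      congr 1
      ring
    have h3 : ENNReal.ofReal (t / 2) + ENNReal.ofReal (t / 2) ≤
        ENNReal.ofReal (t / 2) + ENNReal.ofReal (lam / 2) * Ξ r := by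
      rw [← h2]
      exact h1.trans (add_le_add_left (ENNReal.ofReal_le_ofReal hZ) _)
    exact (ENNReal.add_le_add_iff_left ENNReal.ofReal_ne_top).1 h3
  refine (measure_mono hsub).trans ?_
  have h4 := meas_ge_le_lintegral_div (μ := (volume : Measure ℝ))
    (f := fun r => ENNReal.ofReal (lam / 2) * Ξ r) (hΞm.const_mul _).aemeasurable
    (ε := ENNReal.ofReal (t / 2)) (by
      rw [Ne, ENNReal.ofReal_eq_zero, not_le]; positivity) ENNReal.ofReal_ne_top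
  refine h4.trans ?_
  rw [lintegral_const_mul' _ _ ENNReal.ofReal_ne_top,
    ENNReal.ofReal_div_of_pos (x := lam / 2 * (Z * K2)) (y := t / 2) (by positivity)]
  refine ENNReal.div_le_div_right ?_ _
  rw [ENNReal.ofReal_mul (p := lam / 2) (by positivity)]
  exact mul_le_mul_right hΞi _

theorem psi_meas (Γ : ℝ) : ∃ δ : ℝ, 0 < δ ∧ δ ≤ 1 / 10 ∧ ∀ A : ℝ, ∃ w0 : ℝ, 1 ≤ w0 ∧ ∀ w β : ℝ, w0 ≤ w →
    |β| ≤ Γ → volume {r : ℝ | w ^ (-A) ≤ Psi β w r} ≤ ENNReal.ofReal (Real.exp (-δ * w)) := by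
  obtain ⟨δ, hδ, hδ1, hlv⟩ := hh_lv Γ
  refine ⟨δ, hδ, hδ1, ?_⟩
  intro A
  obtain ⟨w1, hw1, hlv1⟩ := hlv (2 * |A| + 4)
  set Z : ℝ := ∫ ξ : ℝ, Real.exp (-ξ ^ 2 / 8) with hZd
  have hZ : 0 < Z := by
    have h1 := integral_gaussian (1 / 8)
    have h2 : Z = Real.sqrt (Real.pi / (1 / 8)) := by
      rw [← h1, hZd]
      congr 1
      funext ξ
      congr 1
      ring
    rw [h2]
    positivity
  set C0 : ℝ := 2 * Real.pi * ((4 + 2 * Γ) ^ 2 * Real.sqrt Real.pi) with hC0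
  have hC00 : 0 ≤ C0 := by positivity
  have hev : ∀ᶠ w : ℝ in Filter.atTop, 4 * Real.pi * Z ^ 2 * C0 * w ^ (2 + 2 * A) ≤ Real.exp (δ * w) := by
    have h1 := isLittleO_rpow_exp_pos_mul_atTop (2 + 2 * A) hδ
    have h2 := h1.def (c := 1 / (4 * Real.pi * Z ^ 2 * C0 + 1)) (by positivity)
    filter_upwards [h2, Filter.eventually_gt_atTop 0] with w hw hw0
    rw [Real.norm_of_nonneg (by positivity), Real.norm_of_nonneg (by positivity)] at hw
    have h3 : (4 * Real.pi * Z ^ 2 * C0 + 1) * w ^ (2 + 2 * A) ≤ Real.exp (δ * w) := by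
      have h4 := mul_le_mul_of_nonneg_left hw (show 0 ≤ 4 * Real.pi * Z ^ 2 * C0 + 1 by positivity)
      refine h4.trans (le_of_eq ?_)
      field_simp
    have h5 : 0 ≤ w ^ (2 + 2 * A) := by positivity
    nlinarith
  obtain ⟨w2, hw2⟩ := Filter.eventually_atTop.1 hev
  refine ⟨max (max w1 w2) (2 * Z * (1 + C0) + 1), ?_, ?_⟩
  · exact hw1.trans ((le_max_left _ _).trans (le_max_left _ _))
  intro w β hw hβ
  have hww1 : w1 ≤ w := ((le_max_left _ _).trans (le_max_left _ _)).trans hw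
  have hww2 : w2 ≤ w := ((le_max_right _ _).trans (le_max_left _ _)).trans hw
  have hww3 : 2 * Z * (1 + C0) + 1 ≤ w := (le_max_right _ _).trans hw
  have hw1' : 1 ≤ w := hw1.trans hww1
  have hw0 : 0 < w := by linarith
  have hQ := hlv1 w β hww1 hβ
  obtain ⟨-, hK⟩ := PM_hh_sq hw1' hβ
  rw [← hC0] at hK
  have hlam' : 0 < w ^ (|A| + 3) := by positivity
  have hlam : 0 < 2 * Z * w ^ A := by positivity
  have hX := fun ξ r : ℝ => PM_HX_le (δ := δ) hw1' hK hQ ξ r (2 * Z * w ^ A) (w ^ (|A| + 3)) hlam hlam'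
  have ht : 0 < w ^ (-A) := by positivity
  have e1 : w ^ (|A| + 3) / 2 * w ^ (-(2 * |A| + 4)) = w ^ (-(|A| + 1)) / 2 := by
    rw [div_mul_eq_mul_div, ← Real.rpow_add hw0]
    congr 2
    ring
  have e2 : 1 / (2 * w ^ (|A| + 3)) * (C0 * w ^ 2) = C0 * w ^ (-(|A| + 1)) / 2 := by
    have h1 : (w : ℝ) ^ 2 = w ^ (2 : ℝ) := by norm_cast
    have h2 : w ^ (-(|A| + 1)) * w ^ (|A| + 3) = w ^ (2 : ℝ) := by
      rw [← Real.rpow_add hw0]
      congr 1
      ring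
    rw [h1, ← h2]
    field_simp
  have e3 : Z * (1 / (2 * (2 * Z * w ^ A))) = w ^ (-A) / 4 := by
    rw [Real.rpow_neg hw0.le]
    field_simp
    ring
  have hsmall : Z * (w ^ (|A| + 3) / 2 * w ^ (-(2 * |A| + 4)) + 1 / (2 * w ^ (|A| + 3)) * (C0 * w ^ 2) +
      1 / (2 * (2 * Z * w ^ A))) ≤ w ^ (-A) / 2 := by
    rw [mul_add, e3, e1, e2]
    have h1 : w ^ (-(|A| + 1)) ≤ w ^ (-A) * w⁻¹ := by
      rw [← Real.rpow_neg_one w, ← Real.rpow_add hw0]
      apply Real.rpow_le_rpow_of_exponent_le hw1'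
      have := le_abs_self A
      linarith
    have h2 : Z * (1 + C0) / 2 * w⁻¹ ≤ 1 / 4 := by
      rw [← div_eq_mul_inv, div_le_iff₀ hw0]
      linarith
    have h3 : Z * (w ^ (-(|A| + 1)) / 2 + C0 * w ^ (-(|A| + 1)) / 2) ≤ w ^ (-A) / 4 := by
      calc Z * (w ^ (-(|A| + 1)) / 2 + C0 * w ^ (-(|A| + 1)) / 2)
          = (Z * (1 + C0) / 2) * w ^ (-(|A| + 1)) := by ring
        _ ≤ (Z * (1 + C0) / 2) * (w ^ (-A) * w⁻¹) := mul_le_mul_of_nonneg_left h1 (by positivity)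
        _ = w ^ (-A) * (Z * (1 + C0) / 2 * w⁻¹) := by ring
        _ ≤ w ^ (-A) * (1 / 4) := mul_le_mul_of_nonneg_left h2 ht.le
        _ = w ^ (-A) / 4 := by ring
    linarith
  refine (PM_cheb hw1' hβ (by positivity) hlam ht hX hsmall).trans ?_
  apply ENNReal.ofReal_le_ofReal
  rw [← hC0, ← hZd]
  have e4 : (2 * Z * w ^ A / 2 * (Z * (2 * Real.pi * (Real.exp (-2 * δ * w) * (C0 * w ^ 2))))) /
      (w ^ (-A) / 2) = (4 * Real.pi * Z ^ 2 * C0 * w ^ (2 + 2 * A)) * Real.exp (-2 * δ * w) := by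
    have h1 : w ^ (2 + 2 * A) = w ^ 2 * (w ^ A * w ^ A) := by
      rw [← Real.rpow_add hw0, ← Real.rpow_natCast w 2, ← Real.rpow_add hw0]
      congr 1
      push_cast
      ring
    rw [h1, Real.rpow_neg hw0.le]
    field_simp
    ring
  rw [e4]
  calc (4 * Real.pi * Z ^ 2 * C0 * w ^ (2 + 2 * A)) * Real.exp (-2 * δ * w)
      ≤ Real.exp (δ * w) * Real.exp (-2 * δ * w) :=
        mul_le_mul_of_nonneg_right (hw2 w hww2) (Real.exp_pos _).le
    _ = Real.exp (-δ * w) := by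
        rw [← Real.exp_add]
        congr 1
        ring

end RLC
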