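import Pool.Agent.RLC.Defs

/-!
# RLC.ResC: few pairs of starting points are not in general position

PROOF. A pair `(n,n')` in `resP` has `u, v ≤ Y^(2η)` with `|u n - v n'| < Y^(2η)`. It is determined by `u`, `v`, `n'` and
the integer `d = u n - v n'`, and `|d| ≤ U = ⌊Y^(2η)⌋`. Altogether there are `≤ U · U · Y · (2U + 1) ≤ 3 Y^(1+6η) ≤ Y^(1+7η)`
pairs for large `Y`.
-/

namespace RLC

open Finset in
private theorem ResC_card_le {η : ℝ} (Y : ℕ) (hY : 1 ≤ Y) :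
    (resP η Y).card ≤ ⌊(Y : ℝ) ^ (2 * η)⌋₊ * (⌊(Y : ℝ) ^ (2 * η)⌋₊ * (Y * (2 * ⌊(Y : ℝ) ^ (2 * η)⌋₊ + 1))) := by
  classical
  set B : ℝ := (Y : ℝ) ^ (2 * η) with hB
  set U : ℕ := ⌊B⌋₊ with hU
  have hYp : (0 : ℝ) < Y := by exact_mod_cast hY
  have hB0 : 0 < B := Real.rpow_pos_of_pos hYp _
  let S : Finset (ℕ × ℕ × ℕ × ℤ) := (Icc 1 U) ×ˢ (Icc 1 U) ×ˢ (Ioc Y (2 * Y)) ×ˢ (Icc (-(U : ℤ)) U)
  let g : ℕ × ℕ × ℕ × ℤ → ℕ × ℕ := fun q => (((q.2.2.2 + q.2.1 * q.2.2.1) / (q.1 : ℤ)).toNat, q.2.2.1)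
  have hsub : resP η Y ⊆ S.image g := by
    intro q hq
    obtain ⟨n, n'⟩ := q
    simp only [resP, mem_filter, mem_product, mem_Ioc] at hq
    obtain ⟨⟨hn, hn'⟩, hG⟩ := hq
    unfold GenY at hG
    push Not at hG
    obtain ⟨u, v, hu1, hv1, huB, hvB, hlt⟩ := hG
    rw [← hB] at huB hvB hlt
    rw [mem_image]
    refine ⟨(u, v, n', (u : ℤ) * n - v * n'), ?_, ?_⟩
    · simp only [S, mem_product, mem_Icc, mem_Ioc]
      have huU : u ≤ U := Nat.le_floor huB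
      have hvU : v ≤ U := Nat.le_floor hvB
      have hd : |((u : ℤ) * n - v * n')| ≤ (U : ℤ) := by
        have h1 : ((((u : ℤ) * n - v * n').natAbs : ℕ) : ℝ) ≤ B := by
          rw [Nat.cast_natAbs]
          push_cast
          exact hlt.le
        have h2 : ((u : ℤ) * n - v * n').natAbs ≤ U := Nat.le_floor h1
        rw [Int.abs_eq_natAbs]
        exact_mod_cast h2
      rw [abs_le] at hd
      exact ⟨⟨hu1, huU⟩, ⟨hv1, hvU⟩, hn', hd⟩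
    · simp only [g]
      have hu0 : (u : ℤ) ≠ 0 := by
        have : 0 < u := hu1
        exact_mod_cast this.ne'
      have : ((u : ℤ) * n - v * n' + v * n') / (u : ℤ) = n := by
        rw [sub_add_cancel, Int.mul_ediv_cancel_left _ hu0]
      rw [this]
      simp
  calc (resP η Y).card ≤ (S.image g).card := card_le_card hsub
    _ ≤ S.card := card_image_le
    _ = _ := by
        simp only [S, card_product, Nat.card_Icc, Nat.card_Ioc, Int.card_Icc]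
        have h1 : U + 1 - 1 = U := by omega
        have h2 : 2 * Y - Y = Y := by omega
        have h3 : ((U : ℤ) + 1 - -(U : ℤ)).toNat = 2 * U + 1 := by omega
        rw [h1, h2, h3]

theorem card_resP {η : ℝ} (hη : 0 < η) (hη1 : η ≤ 1 / 20) : ∃ Y0 : ℕ, 3 ≤ Y0 ∧ ∀ Y : ℕ, Y0 ≤ Y →
    ((resP η Y).card : ℝ) ≤ (Y : ℝ) ^ (1 + 7 * η) := by
  have ht : Filter.Tendsto (fun Y : ℕ => (Y : ℝ) ^ η) Filter.atTop Filter.atTop :=
    (tendsto_rpow_atTop hη).comp tendsto_natCast_atTop_atTop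
  obtain ⟨Y1, hY1⟩ := Filter.eventually_atTop.1 (ht.eventually_ge_atTop 3)
  refine ⟨max Y1 3, le_max_right _ _, fun Y hY => ?_⟩
  have hY3 : 3 ≤ Y := le_trans (le_max_right _ _) hY
  have hYη : (3 : ℝ) ≤ (Y : ℝ) ^ η := hY1 Y (le_trans (le_max_left _ _) hY)
  have hYp : (0 : ℝ) < Y := by
    have : 0 < Y := by omega
    exact_mod_cast this
  have hY1' : (1 : ℝ) ≤ Y := by
    have : 1 ≤ Y := by omega
    exact_mod_cast this
  have hc := ResC_card_le (η := η) Y (by omega)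
  set B : ℝ := (Y : ℝ) ^ (2 * η) with hB
  have hB1 : 1 ≤ B := Real.one_le_rpow hY1' (by positivity)
  have hUB : ((⌊B⌋₊ : ℕ) : ℝ) ≤ B := Nat.floor_le (by linarith)
  have hU0 : (0 : ℝ) ≤ ((⌊B⌋₊ : ℕ) : ℝ) := Nat.cast_nonneg _
  have hc' : ((resP η Y).card : ℝ) ≤ ((⌊B⌋₊ : ℕ) : ℝ) * (((⌊B⌋₊ : ℕ) : ℝ) * (Y * (2 * ((⌊B⌋₊ : ℕ) : ℝ) + 1))) := by
    exact_mod_cast hc
  have hpow : (Y : ℝ) ^ (1 + 7 * η) = Y * (B * B * B) * (Y : ℝ) ^ η := by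
    have h1 : (Y : ℝ) ^ (1 + 7 * η) = (Y : ℝ) ^ (1 + (2 * η + 2 * η + 2 * η) + η) := by
      congr 1
      ring
    rw [h1, Real.rpow_add hYp, Real.rpow_add hYp, Real.rpow_add hYp, Real.rpow_add hYp, Real.rpow_one]
  rw [hpow]
  refine hc'.trans ?_
  calc ((⌊B⌋₊ : ℕ) : ℝ) * (((⌊B⌋₊ : ℕ) : ℝ) * (Y * (2 * ((⌊B⌋₊ : ℕ) : ℝ) + 1)))
      ≤ B * (B * (Y * (3 * B))) := by
        have h3 : 2 * ((⌊B⌋₊ : ℕ) : ℝ) + 1 ≤ 3 * B := by linarith
        gcongr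
    _ = Y * (B * B * B) * 3 := by ring
    _ ≤ Y * (B * B * B) * (Y : ℝ) ^ η := by
        gcongr

end RLC
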