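import Pool.Agent.RLC.StepV
import Pool.Agent.RLC.BadC
import Pool.Agent.RLC.ResC
import Pool.Agent.RLC.Mom

/-!
# RLC.StepE: the mean square of the increment

PROOF. Let `W_j = ∑_{n∈I} wt β n j`. Fix `η = ε/28` (`≤ 1/20`), let `δ1` be the `δ` of `card_psiP Γ A`, and use `geo`, `mom_*` with this `η`
and `δ = δ1`. By `resample` at `j`, `wt_update`, `wt_update_succ`: the left side is
`∫⁻ ∫⁻ ofReal ((∑_n wt_j(a) (θ(⌊y c_j(n)+β_j⌋) - 1))²) dμ_j(y) dP(a)`, and for almost all `a` (`ae_mem`) the inner integral is at most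
`ofReal (D_j ∫_{[1,v]} ..dy) ≤ ofReal (D_j C (w^(-A') W_j² + ∑_{n,n'} wt_j wt_j' bad η A' β_j w c_j(n) c_j(n')))`, `w = ww a Y j` (`step_v`, `geo`), with `A' = A + 1`; `D_j ≤ C' (j+1) ≤ 2C' log Y` (`Slow` with `δ = 1`).
`w ≥ log Y - 1`, so `w^(-A') ≤ 2^A' (log Y)^(-A')` (`A' ≥ 0`). `bad ≤ 1[q ∈ psiP A' β_j w Y] + (1 + w²) 1[q ∈ resP η Y]`, `q = (n, n')`: if
`Psi β_j w (log c_j(n) - log c_j(n')) ≥ w^(-A)`, then with `r = log c_j(n) - log c_j(n')`, `|r - (log n - log n')| ≤ (log Y)²/Y` (`geo`), so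
`q ∈ psiP`; if not `Gen`, then `q ∈ resP` (`geo`). `w = ww a Y j` is one of the at most `3 log Y` natural numbers `≤ 2 log Y + 1`
(in `[log Y - 1, (1+δ1) log Y + 1]`); let `PP` be the union of the `psiP A β_j w Y` over these `w`, of cardinality `≤ 3 log Y · Y^(2-δ1)`. So
the left side is at most
`D_j C (2^A' (log Y)^(-A') ∫⁻ W_j² + ∑_{q ∈ PP \ resP} ∫⁻ wt wt' + (2 + (2 log Y + 1)²) ∑_{q∈resP} ∫⁻ wt wt')`. Let
`Q_j = C^j ∏_{i<j} D_i`: by `Slow` with a small `δ'`: `Q_j ≤ (C C')^j (j^j)^δ' ≤ Y^(2δ')` for large `Y`, as `j ≤ log Y/log log Y` (`j^j ≤ (log Y)^j ≤ Y`).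
`mom_two`: the middle sum is `≤ 3 log Y · Y^(2-δ1) (log 2Y)² Q_j ≤ Y^(2-δ1/2)` for large `Y` (`δ' ≤ δ1/8`). `mom_triv` with
`δ = 1`: the last one is `≤ C (log Y)² Y^(1+7η) (2 log Y + 4)^(j+1) log(2Y) Q_j`; here `j + 1 ≤ (1-ε) log Y/log log Y`, so
`(2 log Y + 4)^(j+1) ≤ (log Y)^(j+1) 3^(j+1) ≤ Y^(1-ε) 3^(j+1)`, `3^(j+1) ≤ Y^(o(1))`, `Q_j ≤ Y^(2δ')` with `δ' ≤ ε/16`, and `7η = ε/4`: `≤ Y^(2-ε/2)` for large `Y`.
Take `δ = min (δ1/4) (ε/4)`.
-/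

namespace RLC

open MeasureTheory

private theorem StepE_poly (K : ℝ) (k : ℕ) {δ : ℝ} (hδ : 0 < δ) : ∃ Y0 : ℕ, ∀ Y : ℕ, Y0 ≤ Y →
    K * Real.log Y ^ k ≤ (Y : ℝ) ^ δ := by
  have h1 : (fun x : ℝ => Real.log x ^ (k : ℝ)) =o[Filter.atTop] fun x => x ^ δ :=
    isLittleO_log_rpow_rpow_atTop (k : ℝ) hδ
  have h2 := h1.def (c := 1 / (|K| + 1)) (by positivity)
  have h3 := (tendsto_natCast_atTop_atTop (R := ℝ)).eventually (h2.and (Filter.eventually_ge_atTop 1))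
  obtain ⟨Y0, hY0⟩ := Filter.eventually_atTop.1 h3
  refine ⟨Y0, fun Y hY => ?_⟩
  obtain ⟨h4, h5⟩ := hY0 Y hY
  rw [Real.norm_eq_abs, Real.norm_eq_abs, Real.rpow_natCast] at h4
  have h6 : 0 ≤ Real.log (Y : ℝ) := Real.log_nonneg h5
  have h7 : 0 ≤ (Y : ℝ) ^ δ := Real.rpow_nonneg (Nat.cast_nonneg _) _
  rw [abs_of_nonneg (pow_nonneg h6 k), abs_of_nonneg h7] at h4
  have h8 : 0 < |K| + 1 := by positivity
  calc K * Real.log Y ^ k ≤ (|K| + 1) * Real.log Y ^ k := by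
        refine mul_le_mul_of_nonneg_right ?_ (pow_nonneg h6 k)
        linarith [le_abs_self K]
    _ ≤ (|K| + 1) * (1 / (|K| + 1) * (Y : ℝ) ^ δ) := mul_le_mul_of_nonneg_left h4 h8.le
    _ = (Y : ℝ) ^ δ := by field_simp

private theorem StepE_loglog (K : ℝ) : ∃ Y0 : ℕ, 3 ≤ Y0 ∧ ∀ Y : ℕ, Y0 ≤ Y →
    K ≤ Real.log (Real.log Y) ∧ K ≤ Real.log Y := by
  have h := ((Real.tendsto_log_atTop.comp Real.tendsto_log_atTop).comp
    (tendsto_natCast_atTop_atTop (R := ℝ))).eventually_ge_atTop K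
  have h' := (Real.tendsto_log_atTop.comp
    (tendsto_natCast_atTop_atTop (R := ℝ))).eventually_ge_atTop K
  obtain ⟨Y0, hY0⟩ := Filter.eventually_atTop.1 (h.and h')
  refine ⟨max 3 Y0, le_max_left _ _, fun Y hY => ?_⟩
  have := hY0 Y ((le_max_right _ _).trans hY)
  simpa only [Function.comp_apply] using this

/-- The main growth estimate: `(K log Y ^ s) ^ j ≤ Y ^ (t * s + δ)` for `j ≤ t log Y / log log Y`. -/
private theorem StepE_pow (K : ℝ) (hK : 1 ≤ K) {s t δ : ℝ} (ht1 : t ≤ 1) (hδ : 0 < δ) :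
    ∃ Y0 : ℕ, 3 ≤ Y0 ∧ ∀ Y : ℕ, Y0 ≤ Y → ∀ j : ℕ, (j : ℝ) ≤ t * (Real.log Y / Real.log (Real.log Y)) →
    0 ≤ s → (K * Real.log Y ^ s) ^ j ≤ (Y : ℝ) ^ (t * s + δ) := by
  obtain ⟨Y0, hY03, hY0⟩ := StepE_loglog (max 1 (Real.log K / δ))
  refine ⟨Y0, hY03, fun Y hY j hj hs => ?_⟩
  obtain ⟨h1, h2⟩ := hY0 Y hY
  have h3 : 1 ≤ Real.log (Real.log Y) := (le_max_left _ _).trans h1
  have h4 : 1 ≤ Real.log Y := (le_max_left _ _).trans h2
  have h5 : Real.log K / δ ≤ Real.log (Real.log Y) := (le_max_right _ _).trans h1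
  have hY3 : (3 : ℝ) ≤ Y := by exact_mod_cast hY03.trans hY
  have hL : 0 < Real.log Y := by linarith
  have hLs : 0 < Real.log Y ^ s := Real.rpow_pos_of_pos hL s
  have hK0 : 0 < K := by linarith
  have hY0' : (0 : ℝ) < Y := by linarith
  rw [← Real.log_le_log_iff (pow_pos (mul_pos hK0 hLs) j) (Real.rpow_pos_of_pos hY0' _),
    Real.log_pow, Real.log_mul hK0.ne' hLs.ne', Real.log_rpow hL, Real.log_rpow hY0']
  have hlK : 0 ≤ Real.log K := Real.log_nonneg hK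
  have h6 : 0 ≤ Real.log K + s * Real.log (Real.log Y) := by positivity
  have h7 : Real.log K ≤ δ * Real.log (Real.log Y) := by
    rw [div_le_iff₀ hδ] at h5
    linarith
  have hll : 0 < Real.log (Real.log Y) := by linarith
  have h8 : t * (Real.log Y / Real.log (Real.log Y)) * Real.log K ≤ δ * Real.log Y := by
    calc t * (Real.log Y / Real.log (Real.log Y)) * Real.log K
        ≤ 1 * (Real.log Y / Real.log (Real.log Y)) * (δ * Real.log (Real.log Y)) := by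
          gcongr
      _ = δ * Real.log Y := by field_simp
  calc (j : ℝ) * (Real.log K + s * Real.log (Real.log Y))
      ≤ t * (Real.log Y / Real.log (Real.log Y)) * (Real.log K + s * Real.log (Real.log Y)) :=
        mul_le_mul_of_nonneg_right hj h6
    _ = t * (Real.log Y / Real.log (Real.log Y)) * Real.log K + t * s * Real.log Y := by
        field_simp
    _ ≤ δ * Real.log Y + t * s * Real.log Y := by linarith
    _ = (t * s + δ) * Real.log Y := by ring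

private theorem StepE_prod {D : ℕ → ℝ} (hD : Slow D) (C : ℝ) (hC : 1 ≤ C) {δ : ℝ} (hδ : 0 < δ) :
    ∃ Y0 : ℕ, 3 ≤ Y0 ∧ ∀ Y : ℕ, Y0 ≤ Y → ∀ j : ℕ, (j : ℝ) ≤ Real.log Y / Real.log (Real.log Y) →
    C ^ j * ∏ i ∈ Finset.range j, D i ≤ (Y : ℝ) ^ δ := by
  obtain ⟨K, hK⟩ := hD.slow (δ / 2) (by positivity)
  have hK1 : 1 ≤ K := by
    have h1 := hK 0
    have h2 := hD.one_le 0
    rw [Nat.cast_zero, zero_add, Real.one_rpow, mul_one] at h1
    linarith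
  obtain ⟨Y1, hY13, hY1⟩ := StepE_pow (C * K) (by nlinarith) (s := δ / 2) (t := 1) (δ := δ / 2)
    le_rfl (by positivity)
  obtain ⟨Y2, hY23, hY2⟩ := StepE_loglog 1
  refine ⟨max Y1 Y2, hY13.trans (le_max_left _ _), fun Y hY j hj => ?_⟩
  obtain ⟨h1, h2⟩ := hY2 Y ((le_max_right _ _).trans hY)
  have hL : 0 < Real.log Y := by linarith
  have h3 := hY1 Y ((le_max_left _ _).trans hY) j (by rw [one_mul]; exact hj) (by positivity)
  rw [show 1 * (δ / 2) + δ / 2 = δ by ring] at h3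
  refine le_trans ?_ h3
  have hjL : (j : ℝ) ≤ Real.log Y := hj.trans (div_le_self hL.le h1)
  have h4 : ∏ i ∈ Finset.range j, D i ≤ ∏ _i ∈ Finset.range j, (K * Real.log Y ^ (δ / 2)) := by
    refine Finset.prod_le_prod (fun i _ => zero_le_one.trans (hD.one_le i)) fun i hi => ?_
    have hi' : i + 1 ≤ j := Finset.mem_range.1 hi
    have hi2 : (i : ℝ) + 1 ≤ Real.log Y := by
      have : ((i + 1 : ℕ) : ℝ) ≤ j := by exact_mod_cast hi'
      push_cast at this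
      linarith
    refine (hK i).trans (mul_le_mul_of_nonneg_left ?_ (by linarith))
    exact Real.rpow_le_rpow (by positivity) hi2 (by positivity)
  rw [Finset.prod_const, Finset.card_range] at h4
  calc C ^ j * ∏ i ∈ Finset.range j, D i ≤ C ^ j * (K * Real.log Y ^ (δ / 2)) ^ j :=
        mul_le_mul_of_nonneg_left h4 (pow_nonneg (by linarith) j)
    _ = (C * K * Real.log Y ^ (δ / 2)) ^ j := by
        rw [← mul_pow]
        ring_nf

private theorem StepE_res {ε δ : ℝ} (hε : 0 < ε) (hε1 : ε < 1) (hδ : 0 < δ) :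
    ∃ Y0 : ℕ, 3 ≤ Y0 ∧ ∀ Y : ℕ, Y0 ≤ Y → ∀ j : ℕ,
    (j : ℝ) + 1 ≤ (1 - ε) * (Real.log Y / Real.log (Real.log Y)) →
    ((1 + 1) * Real.log Y + 4) ^ (j + 1) ≤ (Y : ℝ) ^ (1 - ε + δ) := by
  obtain ⟨Y1, hY13, hY1⟩ := StepE_pow 3 (by norm_num) (s := 1) (t := 1 - ε) (δ := δ)
    (by linarith) hδ
  obtain ⟨Y2, hY23, hY2⟩ := StepE_loglog 4
  refine ⟨max Y1 Y2, hY13.trans (le_max_left _ _), fun Y hY j hj => ?_⟩
  obtain ⟨h1, h2⟩ := hY2 Y ((le_max_right _ _).trans hY)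
  have h3 := hY1 Y ((le_max_left _ _).trans hY) (j + 1) (by push_cast; exact hj) zero_le_one
  rw [mul_one, Real.rpow_one] at h3
  refine le_trans ?_ h3
  refine pow_le_pow_left₀ (by linarith) ?_ _
  linarith


open Classical in
/-- The union of the exceptional pairs over the possible scales. -/
private noncomputable def StepE_PP (A δ β : ℝ) (Y : ℕ) : Finset (ℕ × ℕ) :=
  ((Finset.range (⌊2 * Real.log Y + 1⌋₊ + 1)).filter fun m : ℕ =>
    Real.log Y - 1 ≤ (m : ℝ) ∧ (m : ℝ) ≤ (1 + δ) * Real.log Y + 1).biUnion fun m => psiP A β m Y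

private theorem StepE_card_PP {A δ β : ℝ} {Y : ℕ} (hY : 3 ≤ Y) {M : ℝ} (hM : 0 ≤ M)
    (h : ∀ w : ℝ, Real.log Y - 1 ≤ w → w ≤ (1 + δ) * Real.log Y + 1 →
      ((psiP A β w Y).card : ℝ) ≤ M) :
    ((StepE_PP A δ β Y).card : ℝ) ≤ (2 * Real.log Y + 2) * M := by
  have hY3 : (3 : ℝ) ≤ Y := by exact_mod_cast hY
  have hL : 0 ≤ Real.log Y := Real.log_nonneg (by linarith)
  have h1 : ((StepE_PP A δ β Y).card : ℝ) ≤
      ∑ m ∈ (Finset.range (⌊2 * Real.log Y + 1⌋₊ + 1)).filter (fun m : ℕ =>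
        Real.log Y - 1 ≤ (m : ℝ) ∧ (m : ℝ) ≤ (1 + δ) * Real.log Y + 1),
        ((psiP A β m Y).card : ℝ) := by
    unfold StepE_PP
    have := Finset.card_biUnion_le (s := (Finset.range (⌊2 * Real.log Y + 1⌋₊ + 1)).filter
      (fun m : ℕ => Real.log Y - 1 ≤ (m : ℝ) ∧ (m : ℝ) ≤ (1 + δ) * Real.log Y + 1))
      (t := fun m => psiP A β m Y)
    exact_mod_cast this
  refine h1.trans ?_
  calc ∑ m ∈ (Finset.range (⌊2 * Real.log Y + 1⌋₊ + 1)).filter (fun m : ℕ =>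
        Real.log Y - 1 ≤ (m : ℝ) ∧ (m : ℝ) ≤ (1 + δ) * Real.log Y + 1),
        ((psiP A β m Y).card : ℝ)
      ≤ ∑ _m ∈ (Finset.range (⌊2 * Real.log Y + 1⌋₊ + 1)).filter (fun m : ℕ =>
        Real.log Y - 1 ≤ (m : ℝ) ∧ (m : ℝ) ≤ (1 + δ) * Real.log Y + 1), M := by
        refine Finset.sum_le_sum fun m hm => ?_
        obtain ⟨-, h2, h3⟩ := Finset.mem_filter.1 hm
        exact h m h2 h3
    _ ≤ ∑ _m ∈ Finset.range (⌊2 * Real.log Y + 1⌋₊ + 1), M :=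
        Finset.sum_le_sum_of_subset_of_nonneg (Finset.filter_subset _ _) fun _ _ _ => hM
    _ = ((⌊2 * Real.log Y + 1⌋₊ : ℝ) + 1) * M := by
        rw [Finset.sum_const, Finset.card_range, nsmul_eq_mul]
        push_cast
        ring
    _ ≤ _ := by
        refine mul_le_mul_of_nonneg_right ?_ hM
        have := Nat.floor_le (a := 2 * Real.log Y + 1) (by positivity)
        linarith

open Classical in
private theorem StepE_PP_sub {A δ β : ℝ} {Y : ℕ} :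
    StepE_PP A δ β Y ⊆ (Finset.Ioc Y (2 * Y)) ×ˢ (Finset.Ioc Y (2 * Y)) := by
  intro q hq
  unfold StepE_PP at hq
  obtain ⟨m, -, hm⟩ := Finset.mem_biUnion.1 hq
  rw [psiP, Finset.mem_filter] at hm
  exact hm.1

private theorem StepE_mem_PP {A δ β : ℝ} {Y : ℕ} (hδ : δ ≤ 1) (hY : 3 ≤ Y) {w : ℝ} {m : ℕ} (hw : w = m)
    (hw1 : Real.log Y - 1 ≤ w) (hw2 : w ≤ (1 + δ) * Real.log Y + 1) {q : ℕ × ℕ}
    (hq : q ∈ psiP A β w Y) : q ∈ StepE_PP A δ β Y := by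
  have hY3 : (3 : ℝ) ≤ Y := by exact_mod_cast hY
  have hL : 0 ≤ Real.log Y := Real.log_nonneg (by linarith)
  unfold StepE_PP
  subst hw
  refine Finset.mem_biUnion.2 ⟨m, Finset.mem_filter.2 ⟨?_, hw1, hw2⟩, hq⟩
  rw [Finset.mem_range, Nat.lt_succ_iff]
  refine Nat.le_floor (hw2.trans ?_)
  nlinarith

open Classical in
private theorem StepE_bad {η A δ β : ℝ} {Y : ℕ} (hδ : δ ≤ 1) (hY : 3 ≤ Y) {w : ℝ} {m : ℕ} (hw : w = m)
    (hw1 : Real.log Y - 1 ≤ w) (hw2 : w ≤ (1 + δ) * Real.log Y + 1) {n n' c c' : ℕ} {P : ℝ}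
    (hn : n ∈ Finset.Ioc Y (2 * Y)) (hn' : n' ∈ Finset.Ioc Y (2 * Y))
    (h1 : |Real.log c - (P + Real.log n)| ≤ Real.log Y ^ 2 / (2 * Y))
    (h2 : |Real.log c' - (P + Real.log n')| ≤ Real.log Y ^ 2 / (2 * Y))
    (h3 : GenY η Y n n' → Gen η w c c') :
    bad η A β w c c' ≤ (if (n, n') ∈ StepE_PP A δ β Y \ resP η Y then 1 else 0) +
      (if (n, n') ∈ resP η Y then 1 + (2 * Real.log Y + 1) ^ 2 else 0) := by
  have hY3 : (3 : ℝ) ≤ Y := by exact_mod_cast hY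
  have hL : 0 ≤ Real.log Y := Real.log_nonneg (by linarith)
  have hw0 : 0 ≤ w := by rw [hw]; positivity
  have hw3 : w ≤ 2 * Real.log Y + 1 := hw2.trans (by nlinarith)
  have hw4 : w ^ 2 ≤ (2 * Real.log Y + 1) ^ 2 := pow_le_pow_left₀ hw0 hw3 2
  have hpair : (n, n') ∈ (Finset.Ioc Y (2 * Y)) ×ˢ (Finset.Ioc Y (2 * Y)) :=
    Finset.mem_product.2 ⟨hn, hn'⟩
  have hpsi : w ^ (-A) ≤ Psi β w (Real.log c - Real.log c') → (n, n') ∈ StepE_PP A δ β Y := by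
    intro h
    refine StepE_mem_PP hδ hY hw hw1 hw2 (Finset.mem_filter.2 ⟨hpair, _, ?_, h⟩)
    have h4 := abs_le.1 h1
    have h5 := abs_le.1 h2
    have h6 : Real.log Y ^ 2 / (2 * Y) = Real.log Y ^ 2 / Y / 2 := by
      field_simp
    rw [h6] at h4 h5
    rw [abs_le]
    constructor <;> dsimp only <;> linarith [h4.1, h4.2, h5.1, h5.2]
  unfold bad
  by_cases hres : (n, n') ∈ resP η Y
  · have e1 : (if (n, n') ∈ StepE_PP A δ β Y \ resP η Y then (1 : ℝ) else 0) = 0 :=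
      if_neg fun h => (Finset.mem_sdiff.1 h).2 hres
    rw [e1, if_pos hres, zero_add]
    refine add_le_add ?_ ?_
    · split_ifs <;> norm_num
    · split_ifs
      · positivity
      · exact hw4
  · have hgen : GenY η Y n n' := by
      by_contra hcon
      exact hres (Finset.mem_filter.2 ⟨hpair, hcon⟩)
    rw [if_neg hres, if_pos (h3 hgen), add_zero, add_zero]
    by_cases h : w ^ (-A) ≤ Psi β w (Real.log c - Real.log c')
    · rw [if_pos h, if_pos (Finset.mem_sdiff.2 ⟨hpsi h, hres⟩)]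
    · rw [if_neg h]
      split_ifs <;> norm_num

open Classical in
private theorem StepE_sum (I : Finset ℕ) (om : ℕ → ℝ) (hom : ∀ n, 0 ≤ om n) (b : ℕ → ℕ → ℝ)
    (S R : Finset (ℕ × ℕ)) {B : ℝ} (hB : 0 ≤ B)
    (hb : ∀ n ∈ I, ∀ n' ∈ I, b n n' ≤ (if (n, n') ∈ S then 1 else 0) + (if (n, n') ∈ R then B else 0)) :
    ∑ n ∈ I, ∑ n' ∈ I, om n * om n' * b n n' ≤
      ∑ q ∈ S, om q.1 * om q.2 + B * ∑ q ∈ R, om q.1 * om q.2 := by
  have h0 : ∀ q : ℕ × ℕ, 0 ≤ om q.1 * om q.2 := fun q => mul_nonneg (hom _) (hom _)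
  calc ∑ n ∈ I, ∑ n' ∈ I, om n * om n' * b n n'
      ≤ ∑ n ∈ I, ∑ n' ∈ I, om n * om n' *
          ((if (n, n') ∈ S then 1 else 0) + (if (n, n') ∈ R then B else 0)) := by
        refine Finset.sum_le_sum fun n hn => Finset.sum_le_sum fun n' hn' => ?_
        exact mul_le_mul_of_nonneg_left (hb n hn n' hn') (mul_nonneg (hom _) (hom _))
    _ = ∑ q ∈ I ×ˢ I, om q.1 * om q.2 *
          ((if q ∈ S then 1 else 0) + (if q ∈ R then B else 0)) := by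
        rw [Finset.sum_product]
    _ = ∑ q ∈ I ×ˢ I, (if q ∈ S then om q.1 * om q.2 else 0) +
          ∑ q ∈ I ×ˢ I, (if q ∈ R then om q.1 * om q.2 * B else 0) := by
        rw [← Finset.sum_add_distrib]
        refine Finset.sum_congr rfl fun q _ => ?_
        rw [mul_add, mul_ite, mul_ite, mul_one, mul_zero]
    _ ≤ _ := by
        refine add_le_add ?_ ?_
        · rw [← Finset.sum_filter]
          refine Finset.sum_le_sum_of_subset_of_nonneg ?_ fun q _ _ => h0 q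
          intro q hq
          exact (Finset.mem_filter.1 hq).2
        · rw [← Finset.sum_filter, ← Finset.sum_mul, mul_comm]
          refine mul_le_mul_of_nonneg_left ?_ hB
          refine Finset.sum_le_sum_of_subset_of_nonneg ?_ fun q _ _ => h0 q
          intro q hq
          exact (Finset.mem_filter.1 hq).2

private theorem StepE_th_floor (c β : ℝ) : Measurable fun y : ℝ => th ⌊y * c + β⌋₊ :=
  (measurable_of_countable th).comp (Nat.measurable_floor.comp ((measurable_id.mul_const c).add_const β))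

private theorem StepE_th_bd {v : ℝ} (c β : ℝ) {y : ℝ} (hy : y ∈ Set.Icc 1 v) :
    th ⌊y * c + β⌋₊ ≤ v * |c| + |β| := by
  have h1 := th_le_log ⌊y * c + β⌋₊
  have h2 : Real.log (⌊y * c + β⌋₊ : ℝ) ≤ (⌊y * c + β⌋₊ : ℝ) := Real.log_le_self (Nat.cast_nonneg _)
  have hy0 : 0 ≤ y := by linarith [hy.1]
  have h4 : y * c ≤ v * |c| := by
    calc y * c ≤ y * |c| := mul_le_mul_of_nonneg_left (le_abs_self c) hy0
      _ ≤ v * |c| := mul_le_mul_of_nonneg_right hy.2 (abs_nonneg c)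
  have hv0 : 0 ≤ v := hy0.trans hy.2
  have h3 : (⌊y * c + β⌋₊ : ℝ) ≤ v * |c| + |β| := by
    rcases le_or_gt 0 (y * c + β) with h0 | h0
    · exact (Nat.floor_le h0).trans (add_le_add h4 (le_abs_self β))
    · rw [Nat.floor_of_nonpos h0.le, Nat.cast_zero]
      positivity
  linarith

/-- The integral of a bounded nonnegative function against `μ j`. -/
private theorem StepE_inner {v : ℝ} {D : ℕ → ℝ} (hD : ∀ n, 1 ≤ D n) {μ : ℕ → Measure ℝ} (h : Law v D μ)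
    (j : ℕ) {g : ℝ → ℝ}
    (hg : Measurable g) (hg0 : ∀ y, 0 ≤ g y) {K : ℝ} (hK : ∀ y ∈ Set.Icc 1 v, g y ≤ K) {C : ℝ}
    (hC : ∫ y in Set.Icc 1 v, g y ≤ C) :
    ∫⁻ y, ENNReal.ofReal (g y) ∂(μ j) ≤ ENNReal.ofReal (D j * C) := by
  have hD0 : 0 ≤ D j := zero_le_one.trans (hD j)
  have h1 : μ j ≤ ENNReal.ofReal (D j) • (volume.restrict (Set.Icc 1 v)) := by
    refine Measure.le_iff.2 fun s hs => ?_
    rw [Measure.smul_apply, Measure.restrict_apply hs, smul_eq_mul]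
    exact h.le j s hs
  have h2 : IntegrableOn g (Set.Icc 1 v) := by
    refine Measure.integrableOn_of_bounded (M := K) isCompact_Icc.measure_lt_top.ne
      hg.aestronglyMeasurable ?_
    refine (ae_restrict_iff' measurableSet_Icc).2 (Filter.Eventually.of_forall fun y hy => ?_)
    rw [Real.norm_of_nonneg (hg0 y)]
    exact hK y hy
  have h3 : ∫⁻ y in Set.Icc 1 v, ENNReal.ofReal (g y) = ENNReal.ofReal (∫ y in Set.Icc 1 v, g y) :=
    (ofReal_integral_eq_lintegral_ofReal h2 (Filter.Eventually.of_forall hg0)).symm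
  calc ∫⁻ y, ENNReal.ofReal (g y) ∂(μ j)
      ≤ ∫⁻ y, ENNReal.ofReal (g y) ∂(ENNReal.ofReal (D j) • (volume.restrict (Set.Icc 1 v))) :=
        lintegral_mono' h1 le_rfl
    _ = ENNReal.ofReal (D j) * ENNReal.ofReal (∫ y in Set.Icc 1 v, g y) := by
        rw [lintegral_smul_measure, smul_eq_mul, h3]
    _ ≤ ENNReal.ofReal (D j) * ENNReal.ofReal C :=
        mul_le_mul' le_rfl (ENNReal.ofReal_le_ofReal hC)
    _ = _ := (ENNReal.ofReal_mul hD0).symm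

/-- The inner integral of the square of the increment. -/
private theorem StepE_sq {v : ℝ} {D : ℕ → ℝ} (hD : ∀ n, 1 ≤ D n) {μ : ℕ → Measure ℝ} (h : Law v D μ)
    (j : ℕ) (I : Finset ℕ) (c : ℕ → ℕ) (om : ℕ → ℝ) (hom : ∀ n, 0 ≤ om n) (β : ℝ) {C : ℝ}
    (hC : ∫ y in Set.Icc 1 v, (∑ i ∈ I, om i * (th ⌊y * c i + β⌋₊ - 1)) ^ 2 ≤ C) :
    ∫⁻ y, ENNReal.ofReal ((∑ i ∈ I, om i * (th ⌊y * c i + β⌋₊ - 1)) ^ 2) ∂(μ j) ≤
      ENNReal.ofReal (D j * C) := by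
  refine StepE_inner (K := (∑ i ∈ I, om i * (v * |(c i : ℝ)| + |β| + 1)) ^ 2) hD h j ?_
    (fun y => sq_nonneg _) ?_ hC
  · refine (Finset.measurable_fun_sum I fun i _ => ?_).pow_const 2
    exact ((StepE_th_floor (c i : ℝ) β).sub_const 1).const_mul (om i)
  · intro y hy
    rw [← sq_abs]
    refine pow_le_pow_left₀ (abs_nonneg _) ?_ 2
    refine (Finset.abs_sum_le_sum_abs _ _).trans (Finset.sum_le_sum fun i _ => ?_)
    rw [abs_mul, abs_of_nonneg (hom i)]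
    refine mul_le_mul_of_nonneg_left ?_ (hom i)
    have h1 := StepE_th_bd (v := v) (c i : ℝ) β hy
    have h2 := th_nonneg ⌊y * (c i : ℝ) + β⌋₊
    rw [abs_le]
    constructor <;> linarith


open Classical in
private theorem StepE_real1 {A L w Dj C1 CD W2 S1 S2 T : ℝ} (hA : 0 ≤ A) (hL : 4 ≤ L) (hw : L - 1 ≤ w)
    (hC1 : 1 ≤ C1) (hDj : 1 ≤ Dj) (hCD : Dj ≤ CD * L) (hW2 : 0 ≤ W2) (hT : T ≤ S1 + (1 + (2 * L + 1) ^ 2) * S2) :
    Dj * (C1 * (w ^ (-(A + 1)) * W2 + T)) ≤ C1 * CD * 2 ^ (A + 1) * L ^ (-A) * W2 + Dj * C1 * S1 +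
      Dj * C1 * (1 + (2 * L + 1) ^ 2) * S2 := by
  have h1 : w ^ (-(A + 1)) ≤ 2 ^ (A + 1) * L ^ (-(A + 1)) := by
    have h2 : (L / 2) ^ (-(A + 1)) = 2 ^ (A + 1) * L ^ (-(A + 1)) := by
      rw [Real.div_rpow (by linarith) (by norm_num), Real.rpow_neg (by norm_num : (0 : ℝ) ≤ 2) (A + 1),
        div_inv_eq_mul, mul_comm]
    rw [← h2]
    exact Real.rpow_le_rpow_of_nonpos (by linarith) (by linarith) (by linarith)
  have h3 : L ^ (-(A + 1)) * L = L ^ (-A) := by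
    nth_rewrite 2 [← Real.rpow_one L]
    rw [← Real.rpow_add (by linarith)]
    congr 1
    ring
  have hL0 : 0 ≤ L ^ (-(A + 1)) := Real.rpow_nonneg (by linarith) _
  have h20 : (0 : ℝ) ≤ 2 ^ (A + 1) := Real.rpow_nonneg (by norm_num) _
  have h4 : Dj * (C1 * (w ^ (-(A + 1)) * W2)) ≤ C1 * CD * 2 ^ (A + 1) * L ^ (-A) * W2 := by
    have h5 : 0 ≤ C1 * W2 := mul_nonneg (by linarith) hW2
    calc Dj * (C1 * (w ^ (-(A + 1)) * W2)) = (C1 * W2) * (Dj * w ^ (-(A + 1))) := by ring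
      _ ≤ (C1 * W2) * ((CD * L) * (2 ^ (A + 1) * L ^ (-(A + 1)))) := by
          refine mul_le_mul_of_nonneg_left ?_ h5
          exact mul_le_mul hCD h1 (Real.rpow_nonneg (by linarith) _) (by linarith)
      _ = C1 * CD * 2 ^ (A + 1) * (L ^ (-(A + 1)) * L) * W2 := by ring
      _ = _ := by rw [h3]
  have h6 : Dj * (C1 * T) ≤ Dj * (C1 * (S1 + (1 + (2 * L + 1) ^ 2) * S2)) :=
    mul_le_mul_of_nonneg_left (mul_le_mul_of_nonneg_left hT (by linarith)) (by linarith)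
  calc Dj * (C1 * (w ^ (-(A + 1)) * W2 + T)) = Dj * (C1 * (w ^ (-(A + 1)) * W2)) + Dj * (C1 * T) := by
        ring
    _ ≤ C1 * CD * 2 ^ (A + 1) * L ^ (-A) * W2 + Dj * (C1 * (S1 + (1 + (2 * L + 1) ^ 2) * S2)) :=
        add_le_add h4 h6
    _ = _ := by ring

/-- The final estimate for the pairs in general position. -/
private theorem StepE_real2 {Y L L2 δ1 C1 CD Dj N Q : ℝ} (hY : 1 ≤ Y) (hL : 4 ≤ L) (hL2 : L2 ≤ 2 * L) (hL20 : 0 ≤ L2)
    (hC1 : 1 ≤ C1) (hDj : 1 ≤ Dj) (hCD : Dj ≤ CD * L)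
    (hN : N ≤ (2 * L + 2) * Y ^ (2 - δ1)) (hQ : Q ≤ Y ^ (δ1 / 4)) (hQ0 : 0 ≤ Q)
    (hp : 24 * (C1 * CD) * L ^ 4 ≤ Y ^ (δ1 / 4)) :
    N * (Dj * C1 * (L2 ^ 2 * Q)) ≤ Y ^ (2 - δ1 / 2) / 2 := by
  have hY0 : 0 < Y := by linarith
  have hCD0 : 0 ≤ CD * L := by linarith
  have hCD1 : 0 ≤ CD := by
    by_contra h
    push Not at h
    nlinarith
  have hY1 : 0 ≤ Y ^ (2 - δ1) := Real.rpow_nonneg hY0.le _
  have hN' : N ≤ 3 * L * Y ^ (2 - δ1) := by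
    refine hN.trans (mul_le_mul_of_nonneg_right ?_ hY1)
    linarith
  have e1 : Y ^ (2 - δ1 / 2) = Y ^ (2 - δ1) * Y ^ (δ1 / 4) * Y ^ (δ1 / 4) := by
    rw [← Real.rpow_add hY0, ← Real.rpow_add hY0]
    congr 1
    ring
  have h2 : L2 ^ 2 ≤ (2 * L) ^ 2 := pow_le_pow_left₀ hL20 hL2 2
  have h3 : 0 ≤ Dj * C1 * (L2 ^ 2 * Q) := by positivity
  have h4 : Dj * C1 * (L2 ^ 2 * Q) ≤ (CD * L) * C1 * ((2 * L) ^ 2 * Y ^ (δ1 / 4)) := by
    gcongr
  calc N * (Dj * C1 * (L2 ^ 2 * Q)) ≤ (3 * L * Y ^ (2 - δ1)) * (Dj * C1 * (L2 ^ 2 * Q)) :=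
        mul_le_mul_of_nonneg_right hN' h3
    _ ≤ (3 * L * Y ^ (2 - δ1)) * ((CD * L) * C1 * ((2 * L) ^ 2 * Y ^ (δ1 / 4))) :=
        mul_le_mul_of_nonneg_left h4 (by positivity)
    _ = Y ^ (2 - δ1) * Y ^ (δ1 / 4) * (24 * (C1 * CD) * L ^ 4) / 2 := by ring
    _ ≤ Y ^ (2 - δ1) * Y ^ (δ1 / 4) * Y ^ (δ1 / 4) / 2 := by
        have : 0 ≤ Y ^ (2 - δ1) * Y ^ (δ1 / 4) := by positivity
        have := mul_le_mul_of_nonneg_left hp this
        linarith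
    _ = _ := by rw [e1]

/-- The final estimate for the other pairs. -/
private theorem StepE_real3 {Y L L2 ε C1 CD Dj N Q R : ℝ} (hY : 1 ≤ Y) (hL : 4 ≤ L) (hL2 : L2 ≤ 2 * L) (hL20 : 0 ≤ L2)
    (hC1 : 1 ≤ C1) (hDj : 1 ≤ Dj) (hCD : Dj ≤ CD * L)
    (hN : N ≤ Y ^ (1 + 7 * (ε / 28))) (hQ : Q ≤ Y ^ (ε / 16)) (hQ0 : 0 ≤ Q)
    (hR : R ≤ Y ^ (1 - ε + ε / 8)) (hR0 : 0 ≤ R)
    (hp : 40 * (C1 * CD) * L ^ 4 ≤ Y ^ (ε / 16)) :
    N * (Dj * C1 * (1 + (2 * L + 1) ^ 2) * (R * (L2 * Q))) ≤ Y ^ (2 - ε / 2) / 2 := by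
  have hY0 : 0 < Y := by linarith
  have hCD0 : 0 ≤ CD * L := by linarith
  have hCD1 : 0 ≤ CD := by
    by_contra h
    push Not at h
    nlinarith
  have e1 : Y ^ (2 - ε / 2) = Y ^ (1 + 7 * (ε / 28)) * Y ^ (1 - ε + ε / 8) * Y ^ (ε / 16) * Y ^ (ε / 16) := by
    rw [← Real.rpow_add hY0, ← Real.rpow_add hY0, ← Real.rpow_add hY0]
    congr 1
    ring
  have h2 : 1 + (2 * L + 1) ^ 2 ≤ 10 * L ^ 2 := by nlinarith
  have h3 : 0 ≤ Dj * C1 * (1 + (2 * L + 1) ^ 2) * (R * (L2 * Q)) := by positivity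
  have h4 : Dj * C1 * (1 + (2 * L + 1) ^ 2) * (R * (L2 * Q)) ≤
      (CD * L) * C1 * (10 * L ^ 2) * (Y ^ (1 - ε + ε / 8) * ((2 * L) * Y ^ (ε / 16))) := by
    gcongr
  calc N * (Dj * C1 * (1 + (2 * L + 1) ^ 2) * (R * (L2 * Q)))
      ≤ Y ^ (1 + 7 * (ε / 28)) * (Dj * C1 * (1 + (2 * L + 1) ^ 2) * (R * (L2 * Q))) :=
        mul_le_mul_of_nonneg_right hN h3
    _ ≤ Y ^ (1 + 7 * (ε / 28)) *
        ((CD * L) * C1 * (10 * L ^ 2) * (Y ^ (1 - ε + ε / 8) * ((2 * L) * Y ^ (ε / 16)))) :=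
        mul_le_mul_of_nonneg_left h4 (by positivity)
    _ = Y ^ (1 + 7 * (ε / 28)) * Y ^ (1 - ε + ε / 8) * Y ^ (ε / 16) * (40 * (C1 * CD) * L ^ 4) / 2 := by
        ring
    _ ≤ Y ^ (1 + 7 * (ε / 28)) * Y ^ (1 - ε + ε / 8) * Y ^ (ε / 16) * Y ^ (ε / 16) / 2 := by
        have : 0 ≤ Y ^ (1 + 7 * (ε / 28)) * Y ^ (1 - ε + ε / 8) * Y ^ (ε / 16) := by positivity
        have := mul_le_mul_of_nonneg_left hp this
        linarith
    _ = _ := by rw [e1]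

open Classical in
/-- The sum over a set of pairs. -/
private theorem StepE_pairs (μ : ℕ → Measure ℝ) [∀ n, IsProbabilityMeasure (μ n)] (β : ℕ → ℝ) (j : ℕ)
    (S : Finset (ℕ × ℕ)) {K M : ℝ} (hK : 0 ≤ K)
    (h : ∀ q ∈ S, ∫⁻ a, ENNReal.ofReal (wt β q.1 j a * wt β q.2 j a) ∂(Measure.infinitePi μ) ≤ ENNReal.ofReal M) :
    ∫⁻ a, ∑ q ∈ S, ENNReal.ofReal K * ENNReal.ofReal (wt β q.1 j a * wt β q.2 j a) ∂(Measure.infinitePi μ) ≤
      ENNReal.ofReal ((S.card : ℝ) * (K * M)) := by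
  have hm : ∀ q ∈ S, Measurable fun a : ℕ → ℝ =>
      ENNReal.ofReal K * ENNReal.ofReal (wt β q.1 j a * wt β q.2 j a) := fun q _ =>
    (((wt_meas β q.1 j).mul (wt_meas β q.2 j)).ennreal_ofReal).const_mul (ENNReal.ofReal K)
  rw [lintegral_finsetSum S hm]
  calc ∑ q ∈ S, ∫⁻ a, ENNReal.ofReal K * ENNReal.ofReal (wt β q.1 j a * wt β q.2 j a) ∂(Measure.infinitePi μ)
      ≤ ∑ _q ∈ S, ENNReal.ofReal (K * M) := by
        refine Finset.sum_le_sum fun q hq => ?_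
        rw [lintegral_const_mul' _ _ ENNReal.ofReal_ne_top, ENNReal.ofReal_mul hK]
        exact mul_le_mul' le_rfl (h q hq)
    _ = ENNReal.ofReal ((S.card : ℝ) * (K * M)) := by
        rw [Finset.sum_const, nsmul_eq_mul, ENNReal.ofReal_mul (Nat.cast_nonneg _), ENNReal.ofReal_natCast]

theorem step_e {v Γ ε A : ℝ} {D : ℕ → ℝ} (hD : Slow D) (hv : 1 ≤ v) (hΓ : 0 ≤ Γ) (hε : 0 < ε) (hε1 : ε < 1) (hA : 0 ≤ A) :
    ∃ C δ : ℝ, 1 ≤ C ∧ 0 < δ ∧ ∃ Y0 : ℕ, 3 ≤ Y0 ∧ ∀ Y : ℕ, Y0 ≤ Y →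
    ∀ (μ : ℕ → Measure ℝ) [∀ n, IsProbabilityMeasure (μ n)], Law v D μ → ∀ β : ℕ → ℝ, (∀ i, |β i| ≤ Γ) →
    ∀ I ⊆ Finset.Ioc Y (2 * Y), ∀ j : ℕ, (j : ℝ) + 1 ≤ (1 - ε) * (Real.log Y / Real.log (Real.log Y)) →
    ∫⁻ a, ENNReal.ofReal ((∑ n ∈ I, (wt β n (j + 1) a - wt β n j a)) ^ 2) ∂(Measure.infinitePi μ) ≤
      ENNReal.ofReal (C * Real.log Y ^ (-A)) *
        ∫⁻ a, ENNReal.ofReal ((∑ n ∈ I, wt β n j a) ^ 2) ∂(Measure.infinitePi μ) +
      ENNReal.ofReal ((Y : ℝ) ^ (2 - δ)) := by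
  classical
  have hη : 0 < ε / 28 := by positivity
  have hη1 : ε / 28 ≤ 1 / 20 := by linarith
  obtain ⟨δ1, hδ1, hδ1', Y1, hY13, hY1⟩ := card_psiP Γ (A + 1)
  obtain ⟨Y2, hY23, hY2⟩ := card_resP hη hη1
  obtain ⟨C1, w0, hC1, hw0, hstep⟩ := step_v hv hη hη1 Γ (A + 1)
  obtain ⟨Y3, hY33, hgeo⟩ := geo (v := v) (Γ := Γ) (η := ε / 28) (δ := δ1) hv hΓ hη hη1 hδ1
  obtain ⟨C2, hC2, Y4, hY43, htwo⟩ := mom_two (v := v) (Γ := Γ) (η := ε / 28) (D := D) hD.one_le hv hΓ hη hη1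
  obtain ⟨C3, hC3, Y5, hY53, htriv⟩ := mom_triv (v := v) (Γ := Γ) (D := D) (δ := 1) hD.one_le hv hΓ one_pos
  obtain ⟨CD, hCD⟩ := hD.slow 1 one_pos
  have hCD1 : 1 ≤ CD := by
    have h1 := hCD 0
    have h2 := hD.one_le 0
    rw [Nat.cast_zero, zero_add, Real.one_rpow, mul_one] at h1
    linarith
  obtain ⟨Y6, hY63, hY6⟩ := StepE_prod hD C2 hC2 (δ := δ1 / 4) (by positivity)
  obtain ⟨Y7, hY73, hY7⟩ := StepE_prod hD C3 hC3 (δ := ε / 16) (by positivity)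
  obtain ⟨Y8, hY83, hY8⟩ := StepE_res hε hε1 (δ := ε / 8) (by positivity)
  obtain ⟨Y9, hY9⟩ := StepE_poly (24 * (C1 * CD)) 4 (δ := δ1 / 4) (by positivity)
  obtain ⟨Y10, hY10⟩ := StepE_poly (40 * (C1 * CD)) 4 (δ := ε / 16) (by positivity)
  obtain ⟨Y11, hY113, hY11⟩ := StepE_loglog (max 4 (w0 + 1))
  obtain ⟨Y0, hY0⟩ : ∃ Y0 : ℕ, Y0 = Y1 + Y2 + Y3 + Y4 + Y5 + Y6 + Y7 + Y8 + Y9 + Y10 + Y11 := ⟨_, rfl⟩
  refine ⟨C1 * CD * 2 ^ (A + 1), min (δ1 / 4) (ε / 4), ?_, by positivity, Y0, by omega, ?_⟩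
  · have h1 : (1 : ℝ) ≤ 2 ^ (A + 1) := Real.one_le_rpow (by norm_num) (by linarith)
    exact one_le_mul_of_one_le_of_one_le (one_le_mul_of_one_le_of_one_le hC1 hCD1) h1
  intro Y hY μ _ hμ β hβ I hI j hj
  obtain ⟨hll, hL⟩ := hY11 Y (by omega)
  have hl1 : 1 ≤ Real.log (Real.log Y) := by linarith [(le_max_left 4 (w0 + 1)).trans hll]
  have hL4 : 4 ≤ Real.log Y := (le_max_left 4 (w0 + 1)).trans hL
  have hLw : w0 + 1 ≤ Real.log Y := (le_max_right 4 (w0 + 1)).trans hL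
  have hY3' : (3 : ℝ) ≤ Y := by exact_mod_cast (by omega : 3 ≤ Y)
  have hY0' : (0 : ℝ) < Y := by linarith
  have hL0 : 0 < Real.log Y := by linarith
  have hLL : 0 ≤ Real.log Y / Real.log (Real.log Y) := by positivity
  have hj0 : (0 : ℝ) ≤ j := Nat.cast_nonneg _
  have hj1 : (j : ℝ) + 1 ≤ Real.log Y / Real.log (Real.log Y) :=
    hj.trans (by nlinarith)
  have hj2 : (j : ℝ) ≤ 2 * (Real.log Y / Real.log (Real.log Y)) := by linarith
  have hj3 : (j : ℝ) ≤ Real.log Y / Real.log (Real.log Y) := by linarith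
  have hjL : (j : ℝ) + 1 ≤ Real.log Y := hj1.trans (div_le_self hL0.le hl1)
  have hDj : D j ≤ CD * Real.log Y := by
    refine (hCD j).trans (mul_le_mul_of_nonneg_left ?_ (by linarith))
    rw [Real.rpow_one]
    exact hjL
  have hDj1 : 1 ≤ D j := hD.one_le j
  have hL2 : Real.log (2 * Y) ≤ 2 * Real.log Y := by
    rw [Real.log_mul (by norm_num) hY0'.ne']
    have : Real.log 2 ≤ 1 := by linarith [Real.log_two_lt_d9]
    linarith
  have hL20 : 0 ≤ Real.log (2 * Y) := Real.log_nonneg (by linarith)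
  obtain ⟨L, hLdef⟩ : ∃ L, L = Real.log (Y : ℝ) := ⟨_, rfl⟩
  obtain ⟨B, hB⟩ : ∃ B, B = 1 + (2 * L + 1) ^ 2 := ⟨_, rfl⟩
  have hB0 : 0 ≤ B := by rw [hB]; positivity
  obtain ⟨PS, hPS⟩ : ∃ PS, PS = StepE_PP (A + 1) δ1 (β j) Y \ resP (ε / 28) Y := ⟨_, rfl⟩
  have hK2 : 0 ≤ D j * C1 := mul_nonneg (by linarith) (by linarith)
  have hK3 : 0 ≤ D j * C1 * B := mul_nonneg hK2 hB0
  have hK1 : 0 ≤ C1 * CD * 2 ^ (A + 1) * Real.log Y ^ (-A) := by
    have : (0 : ℝ) ≤ CD := by linarith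
    have : (0 : ℝ) ≤ C1 := by linarith
    positivity
  -- the bound of the inner integral
  have hinner : ∀ᵐ a ∂(Measure.infinitePi μ),
      ∫⁻ y, ENNReal.ofReal ((∑ n ∈ I, (wt β n (j + 1) (Function.update a j y) -
        wt β n j (Function.update a j y))) ^ 2) ∂(μ j) ≤
      ENNReal.ofReal (C1 * CD * 2 ^ (A + 1) * Real.log Y ^ (-A)) *
        ENNReal.ofReal ((∑ n ∈ I, wt β n j a) ^ 2) +
      (∑ q ∈ PS, ENNReal.ofReal (D j * C1) * ENNReal.ofReal (wt β q.1 j a * wt β q.2 j a) +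
      ∑ q ∈ resP (ε / 28) Y, ENNReal.ofReal (D j * C1 * B) *
        ENNReal.ofReal (wt β q.1 j a * wt β q.2 j a)) := by
    filter_upwards [ae_mem hμ] with a ha
    obtain ⟨-, hg2, hg3, hg4, hg5⟩ := hgeo Y (by omega) a β ha hβ j hj2
    have hw : w0 ≤ ww a Y j := by linarith
    have h1 := hstep (ww a Y j) (β j) hw (hβ j) I (fun n => MCC.chain a β n j) (fun n => wt β n j a)
      (fun i hi => ⟨(hg4 i (hI hi)).1, (hg4 i (hI hi)).2.2.1⟩) (fun i _ => wt_nonneg β i j a)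
    have h2 := StepE_sq hD.one_le hμ j I (fun n => MCC.chain a β n j) (fun n => wt β n j a)
      (fun n => wt_nonneg β n j a) (β j) h1
    have h3 : ∀ y : ℝ, ∑ n ∈ I, (wt β n (j + 1) (Function.update a j y) -
        wt β n j (Function.update a j y)) =
        ∑ n ∈ I, wt β n j a * (th ⌊y * (MCC.chain a β n j : ℝ) + β j⌋₊ - 1) := by
      intro y
      refine Finset.sum_congr rfl fun n _ => ?_
      rw [wt_update_succ, wt_update]
      ring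
    simp only [h3]
    refine h2.trans ?_
    have h4 := StepE_sum I (fun n => wt β n j a) (fun n => wt_nonneg β n j a)
      (fun n n' => bad (ε / 28) (A + 1) (β j) (ww a Y j) (MCC.chain a β n j) (MCC.chain a β n' j))
      PS (resP (ε / 28) Y) (B := 1 + (2 * Real.log Y + 1) ^ 2) (by positivity)
      (by
        intro n hn n' hn'
        rw [hPS]
        exact StepE_bad (m := ⌊Real.log (pa a j * Y)⌋₊) (by linarith) (by omega) rfl hg2 hg3 (hI hn) (hI hn')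
          (hg4 n (hI hn)).2.2.2 (hg4 n' (hI hn')).2.2.2 (hg5 n (hI hn) n' (hI hn')))
    have h5 := StepE_real1 (W2 := (∑ n ∈ I, wt β n j a) ^ 2) hA hL4 hg2 hC1 hDj1 hDj (sq_nonneg _) h4
    refine (ENNReal.ofReal_le_ofReal h5).trans ?_
    have h6 : ∀ S : Finset (ℕ × ℕ), 0 ≤ ∑ q ∈ S, wt β q.1 j a * wt β q.2 j a := fun S =>
      Finset.sum_nonneg fun q _ => mul_nonneg (wt_nonneg _ _ _ _) (wt_nonneg _ _ _ _)
    have h7 : ∀ (S : Finset (ℕ × ℕ)) (K : ℝ), 0 ≤ K →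
        ENNReal.ofReal (K * ∑ q ∈ S, wt β q.1 j a * wt β q.2 j a) =
        ∑ q ∈ S, ENNReal.ofReal K * ENNReal.ofReal (wt β q.1 j a * wt β q.2 j a) := by
      intro S K hK
      rw [ENNReal.ofReal_mul hK, ENNReal.ofReal_sum_of_nonneg fun q _ =>
        mul_nonneg (wt_nonneg _ _ _ _) (wt_nonneg _ _ _ _), Finset.mul_sum]
    rw [← hLdef] at hK1 ⊢
    rw [← hB, ENNReal.ofReal_add (by
        exact add_nonneg (mul_nonneg hK1 (sq_nonneg _)) (mul_nonneg hK2 (h6 _)))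
        (mul_nonneg hK3 (h6 _)),
      ENNReal.ofReal_add (mul_nonneg hK1 (sq_nonneg _)) (mul_nonneg hK2 (h6 _)),
      ENNReal.ofReal_mul hK1, h7 _ _ hK2, h7 _ _ hK3, add_assoc]
  rw [resample μ j (fun a => ENNReal.ofReal ((∑ n ∈ I, (wt β n (j + 1) a - wt β n j a)) ^ 2))
    ((Finset.measurable_fun_sum I fun n _ =>
      (wt_meas β n (j + 1)).sub (wt_meas β n j)).pow_const 2).ennreal_ofReal]
  refine (lintegral_mono_ae hinner).trans ?_
  have hm : Measurable fun a : ℕ → ℝ => ENNReal.ofReal (C1 * CD * 2 ^ (A + 1) * Real.log Y ^ (-A)) *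
      ENNReal.ofReal ((∑ n ∈ I, wt β n j a) ^ 2) :=
    (((Finset.measurable_fun_sum I fun n _ => wt_meas β n j).pow_const 2).ennreal_ofReal).const_mul _
  have hm2 : Measurable fun a : ℕ → ℝ =>
      ∑ q ∈ PS, ENNReal.ofReal (D j * C1) * ENNReal.ofReal (wt β q.1 j a * wt β q.2 j a) :=
    Finset.measurable_fun_sum PS fun q _ =>
      (((wt_meas β q.1 j).mul (wt_meas β q.2 j)).ennreal_ofReal).const_mul _
  rw [lintegral_add_left hm, lintegral_add_left hm2, lintegral_const_mul' _ _ ENNReal.ofReal_ne_top]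
  refine add_le_add le_rfl ?_
  -- the pairs in general position
  have hQ2 : 0 ≤ C2 ^ j * ∏ i ∈ Finset.range j, D i := by
    have : 0 ≤ ∏ i ∈ Finset.range j, D i := Finset.prod_nonneg fun i _ => zero_le_one.trans (hD.one_le i)
    have : (0 : ℝ) ≤ C2 := by linarith
    positivity
  have hQ3 : 0 ≤ C3 ^ j * ∏ i ∈ Finset.range j, D i := by
    have : 0 ≤ ∏ i ∈ Finset.range j, D i := Finset.prod_nonneg fun i _ => zero_le_one.trans (hD.one_le i)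
    have : (0 : ℝ) ≤ C3 := by linarith
    positivity
  have hS2 := StepE_pairs μ β j PS hK2 (M := Real.log (2 * Y) ^ 2 * (C2 ^ j * ∏ i ∈ Finset.range j, D i))
    (by
      intro q hq
      rw [hPS, Finset.mem_sdiff] at hq
      have h1 := StepE_PP_sub hq.1
      obtain ⟨h2, h3⟩ := Finset.mem_product.1 h1
      have h4 : GenY (ε / 28) Y q.1 q.2 := by
        by_contra hcon
        exact hq.2 (Finset.mem_filter.2 ⟨h1, hcon⟩)
      exact htwo Y (by omega) μ hμ β hβ q.1 h2 q.2 h3 h4 j hj2)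
  have hS3 := StepE_pairs μ β j (resP (ε / 28) Y) hK3
    (M := ((1 + 1) * Real.log Y + 4) ^ (j + 1) * (Real.log (2 * Y) * (C3 ^ j * ∏ i ∈ Finset.range j, D i)))
    (by
      intro q hq
      have h1 := (Finset.mem_filter.1 hq).1
      obtain ⟨h2, h3⟩ := Finset.mem_product.1 h1
      exact htriv Y (by omega) μ hμ β hβ q.1 h2 q.2 h3 j hj2)
  refine (add_le_add hS2 hS3).trans ?_
  have hcard : ((StepE_PP (A + 1) δ1 (β j) Y).card : ℝ) ≤ (2 * Real.log Y + 2) * (Y : ℝ) ^ (2 - δ1) :=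
    StepE_card_PP (by omega) (Real.rpow_nonneg hY0'.le _)
      (fun w h1 h2 => hY1 Y (by omega) w (β j) h1 h2 (hβ j))
  have hcard2 : (PS.card : ℝ) ≤ (2 * Real.log Y + 2) * (Y : ℝ) ^ (2 - δ1) := by
    refine le_trans ?_ hcard
    rw [hPS]
    exact_mod_cast Finset.card_le_card Finset.sdiff_subset
  have hR2 := StepE_real2 (by linarith) hL4 hL2 hL20 hC1 hDj1 hDj hcard2 (hY6 Y (by omega) j hj3) hQ2
    (hY9 Y (by omega))
  have hR3 := StepE_real3 (by linarith) hL4 hL2 hL20 hC1 hDj1 hDj (hY2 Y (by omega)) (hY7 Y (by omega) j hj3) hQ3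
    (hY8 Y (by omega) j hj) (by positivity) (hY10 Y (by omega))
  have hc1 : (Y : ℝ) ^ (2 - δ1 / 2) ≤ (Y : ℝ) ^ (2 - min (δ1 / 4) (ε / 4)) := by
    refine Real.rpow_le_rpow_of_exponent_le (by linarith) ?_
    have := min_le_left (δ1 / 4) (ε / 4)
    linarith
  have hc2 : (Y : ℝ) ^ (2 - ε / 2) ≤ (Y : ℝ) ^ (2 - min (δ1 / 4) (ε / 4)) := by
    refine Real.rpow_le_rpow_of_exponent_le (by linarith) ?_
    have := min_le_right (δ1 / 4) (ε / 4)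
    linarith
  have hBL : B = 1 + (2 * Real.log Y + 1) ^ 2 := by rw [hB, hLdef]
  rw [← ENNReal.ofReal_add (by positivity) (by
    rw [hBL]
    positivity)]
  refine ENNReal.ofReal_le_ofReal ?_
  rw [hBL]
  linarith

end RLC
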