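import Pool.Agent.RLC.KKPsi
import Pool.Agent.RLC.KKS
import Pool.Agent.RLC.StepM

/-!
# RLC.StepV: the variance of one step

PROOF. `th = Λ - pp` with `pp(n) = Λ(n)` for prime powers `p^k`, `k ≥ 2`, and `0` otherwise. So
`(∑ om_i (θ(⌊y c_i+β⌋) - 1))² ≤ 2 (∑ om_i G(log y + log c_i))² + 2 (∑ om_i pp(⌊y c_i + β⌋))²`, `AMC.G β s = Λ(⌊e^s+β⌋) - 1`.
Second part: `∫_{[1,v]} pp(⌊yc_i+β⌋) pp(⌊yc_i'+β⌋) dy ≤ (2w)² · (1/c_i) #{prime powers p^k, k ≥ 2, up to C e^w} ≤ C w³ e^(-w/2)` for every pair, so it is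
`≤ C w³ exp(-w/2) (∑ om_i)² ≤ w^(-A) (∑ om_i)²` for large `w`.
First part: substitute `y = e^s`, `dy = e^s ds ≤ v ds`, `0 ≤ s ≤ log v`; `G = Gt β w` there, because `s + log c_i ≥ w - 3 > w/2`;
`1 ≤ exp(4 (log v)²) exp(-4s²)` on `[0, log v]`, and the square is `≥ 0` everywhere, so it is at most
`v exp(4(log v)²) ∫ exp(-4s²) (∑ om_i Gt(s + log c_i))² ds = v exp(4 (log v)²) ∑∑ om_i om_i' KK β w (log c_i) (log c_i')`. Finally
`KK ≤ C (w^(-A) + bad η A β w c_i c_i')`: if `Psi (log c_i - log c_i') < w^(-A)` use `KK_le_psi`; if `Psi ≥ w^(-A)` and `Gen`, use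
`KK_sieve`; if not `Gen`, use `KK_triv`.
-/

namespace RLC

open MeasureTheory

private theorem StepV_meas (m β : ℝ) (φ : ℕ → ℝ) : Measurable fun t : ℝ => φ ⌊t * m + β⌋₊ := by
  have h : Measurable fun t : ℝ => ⌊t * m + β⌋₊ :=
    Nat.measurable_floor.comp ((measurable_id.mul_const _).add_const _)
  exact (Measurable.of_discrete (f := φ)).comp h

/-- the integral of `φ ⌊t m + β⌋₊` -/
private theorem StepV_int_le {φ : ℕ → ℝ} (h0 : φ 0 = 0) (hφ : ∀ n, 0 ≤ φ n) {v m β : ℝ}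
    (hm : 0 < m) {K : ℕ} (hK : ∀ t ∈ Set.Icc (1 : ℝ) v, ⌊t * m + β⌋₊ ≤ K) :
    ∫ t in Set.Icc (1 : ℝ) v, φ ⌊t * m + β⌋₊ ≤ 1 / m * ∑ n ∈ Finset.Ioc 0 K, φ n := by
  classical
  set E : ℕ → Set ℝ := fun n => {t : ℝ | t ∈ Set.Icc (1 : ℝ) v ∧ ⌊t * m + β⌋₊ = n} with hE
  have hfl : Measurable fun t : ℝ => ⌊t * m + β⌋₊ :=
    Nat.measurable_floor.comp ((measurable_id.mul_const _).add_const _)
  have hEm : ∀ n, MeasurableSet (E n) := fun n =>
    measurableSet_Icc.inter (hfl (MeasurableSet.of_discrete (s := {k | k = n})))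
  have hfin : volume (Set.Icc (1 : ℝ) v) < ⊤ := by
    rw [Real.volume_Icc]; exact ENNReal.ofReal_lt_top
  have hEf : ∀ n, volume (E n) < ⊤ := fun n =>
    lt_of_le_of_lt (measure_mono fun t ht => ht.1) hfin
  have hint : ∀ n, Integrable ((E n).indicator (1 : ℝ → ℝ)) volume := fun n =>
    (integrable_indicator_iff (hEm n)).2 (integrableOn_const (hEf n).ne)
  have hval : ∀ n, ∫ t, (E n).indicator (1 : ℝ → ℝ) t = (volume (E n)).toReal := by
    intro n
    rw [integral_indicator_one (hEm n)]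
    rfl
  have heq : ∀ t, (Set.Icc (1 : ℝ) v).indicator (fun t => φ ⌊t * m + β⌋₊) t =
      ∑ n ∈ Finset.Ioc 0 K, φ n * (E n).indicator (1 : ℝ → ℝ) t := by
    intro t
    by_cases ht : t ∈ Set.Icc (1 : ℝ) v
    · rw [Set.indicator_of_mem ht]
      by_cases hn : ⌊t * m + β⌋₊ = 0
      · rw [hn, h0]
        refine (Finset.sum_eq_zero fun n hn' => ?_).symm
        rw [Set.indicator_of_notMem, mul_zero]
        rintro ⟨-, h⟩
        have h' := (Finset.mem_Ioc.1 hn').1
        omega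
      · rw [Finset.sum_eq_single ⌊t * m + β⌋₊]
        · rw [Set.indicator_of_mem (show t ∈ E _ from ⟨ht, rfl⟩)]
          simp
        · intro n _ hn'
          rw [Set.indicator_of_notMem, mul_zero]
          rintro ⟨-, h⟩
          exact hn' h.symm
        · intro h
          exact absurd (Finset.mem_Ioc.2 ⟨Nat.pos_of_ne_zero hn, hK t ht⟩) h
    · rw [Set.indicator_of_notMem ht]
      refine (Finset.sum_eq_zero fun n _ => ?_).symm
      rw [Set.indicator_of_notMem (fun h : t ∈ E n => ht h.1), mul_zero]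
  rw [← integral_indicator measurableSet_Icc,
    integral_congr_ae (Filter.Eventually.of_forall heq),
    integral_finsetSum _ fun n _ => (hint n).const_mul _, Finset.mul_sum]
  refine Finset.sum_le_sum fun n hn => ?_
  rw [integral_const_mul, hval, mul_comm (1 / m)]
  refine mul_le_mul_of_nonneg_left ?_ (hφ n)
  have hn0 : n ≠ 0 := (Finset.mem_Ioc.1 hn).1.ne'
  have hsub : E n ⊆ Set.Icc ((n - β) / m) ((n + 1 - β) / m) := by
    rintro t ⟨-, ht⟩
    have h1 := (Nat.floor_eq_iff' hn0).1 ht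
    constructor
    · rw [div_le_iff₀ hm]
      linarith [h1.1]
    · rw [le_div_iff₀ hm]
      linarith [h1.2]
  calc (volume (E n)).toReal ≤ (volume (Set.Icc ((n - β) / m) ((n + 1 - β) / m))).toReal := by
        refine ENNReal.toReal_mono ?_ (measure_mono hsub)
        rw [Real.volume_Icc]
        exact ENNReal.ofReal_ne_top
    _ = 1 / m := by
      rw [Real.volume_Icc, ENNReal.toReal_ofReal]
      · field_simp
        ring
      · rw [← sub_div]
        apply div_nonneg _ hm.le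
        linarith

private theorem StepV_scale {w : ℝ} {c : ℕ} (hc : 0 < c) (h : |Real.log c - w| ≤ 3) :
    Real.exp (w - 3) ≤ c ∧ (c : ℝ) ≤ Real.exp (w + 3) := by
  have h1 := abs_le.1 h
  have hc0 : (0 : ℝ) < c := by exact_mod_cast hc
  constructor
  · rw [← Real.le_log_iff_exp_le hc0]
    linarith [h1.1]
  · rw [← Real.log_le_iff_le_exp hc0]
    linarith [h1.2]

/-- functions of `⌊y c + β⌋₊` are bounded on bounded intervals -/
private theorem StepV_intble {φ : ℕ → ℝ} (hφ : ∀ n : ℕ, |φ n| ≤ 1 + n) (c c' β a b : ℝ)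
    (hc : 0 ≤ c) (hc' : 0 ≤ c') :
    IntegrableOn (fun y : ℝ => φ ⌊y * c + β⌋₊ * φ ⌊y * c' + β⌋₊) (Set.Icc a b) := by
  have hfin : volume (Set.Icc a b) < ⊤ := by
    rw [Real.volume_Icc]; exact ENNReal.ofReal_lt_top
  have hb : ∀ (c : ℝ), 0 ≤ c → ∀ y ∈ Set.Icc a b, |φ ⌊y * c + β⌋₊| ≤ 1 + (|b| * c + |β|) := by
    intro c hc y hy
    refine (hφ _).trans ?_
    have h1 : y * c ≤ |b| * c := mul_le_mul_of_nonneg_right (hy.2.trans (le_abs_self _)) hc
    have h2 := le_abs_self β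
    rcases le_or_gt 0 (y * c + β) with h | h
    · have := Nat.floor_le h
      linarith
    · rw [Nat.floor_of_nonpos h.le, Nat.cast_zero]
      have : 0 ≤ |b| * c + |β| := by positivity
      linarith
  refine Measure.integrableOn_of_bounded (M := (1 + (|b| * c + |β|)) * (1 + (|b| * c' + |β|))) hfin.ne
    ((StepV_meas c β φ).mul (StepV_meas c' β φ)).aestronglyMeasurable ?_
  rw [ae_restrict_iff' measurableSet_Icc]
  refine Filter.Eventually.of_forall fun t ht => ?_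
  rw [Real.norm_eq_abs, abs_mul]
  exact mul_le_mul (hb c hc t ht) (hb c' hc' t ht) (abs_nonneg _) (by positivity)

private theorem StepV_sq (I : Finset ℕ) (om f : ℕ → ℝ) :
    (∑ i ∈ I, om i * f i) ^ 2 = ∑ i ∈ I, ∑ i' ∈ I, om i * om i' * (f i * f i') := by
  rw [sq, Finset.sum_mul_sum]
  refine Finset.sum_congr rfl fun i _ => Finset.sum_congr rfl fun i' _ => ?_
  ring

private theorem StepV_pp_nonneg (n : ℕ) : 0 ≤ ArithmeticFunction.vonMangoldt n - th n :=
  sub_nonneg.2 (th_le_vonMangoldt n)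

private theorem StepV_log_le (n : ℕ) : Real.log n ≤ n := by
  refine (Real.log_natCast_le_rpow_div _ zero_lt_one).trans ?_
  rw [Real.rpow_one, div_one]

private theorem StepV_pp_abs (n : ℕ) : |ArithmeticFunction.vonMangoldt n - th n| ≤ 1 + n := by
  rw [abs_of_nonneg (StepV_pp_nonneg n)]
  have h1 := th_nonneg n
  have h2 : ArithmeticFunction.vonMangoldt n ≤ Real.log n := ArithmeticFunction.vonMangoldt_le_log
  have h3 := StepV_log_le n
  linarith

private theorem StepV_L_abs (n : ℕ) : |ArithmeticFunction.vonMangoldt n - 1| ≤ 1 + n := by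
  have h1 : 0 ≤ ArithmeticFunction.vonMangoldt n := ArithmeticFunction.vonMangoldt_nonneg
  have h2 : ArithmeticFunction.vonMangoldt n ≤ Real.log n := ArithmeticFunction.vonMangoldt_le_log
  have h3 := StepV_log_le n
  have h4 : (0 : ℝ) ≤ n := Nat.cast_nonneg n
  rw [abs_le]
  constructor <;> linarith

private theorem StepV_pp_sum {x : ℝ} (hx : 1 ≤ x) :
    ∑ n ∈ Finset.Ioc 0 ⌊x⌋₊, (ArithmeticFunction.vonMangoldt n - th n) ≤
      2 * Real.sqrt x * Real.log x := by
  have h1 : ∑ n ∈ Finset.Ioc 0 ⌊x⌋₊, th n = Chebyshev.theta x := by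
    rw [Chebyshev.theta, Finset.sum_filter]
    rfl
  have h2 : ∑ n ∈ Finset.Ioc 0 ⌊x⌋₊, ArithmeticFunction.vonMangoldt n = Chebyshev.psi x := rfl
  rw [Finset.sum_sub_distrib, h1, h2]
  exact (le_abs_self _).trans (Chebyshev.abs_psi_sub_theta_le_sqrt_mul_log hx)

/-- the prime powers: one pair -/
private theorem StepV_pp {v : ℝ} (hv : 1 ≤ v) (Γ A : ℝ) : ∃ w0 : ℝ, 1 ≤ w0 ∧ ∀ w β : ℝ, w0 ≤ w →
    |β| ≤ Γ → ∀ c c' : ℕ, 0 < c → 0 < c' → |Real.log c - w| ≤ 3 → |Real.log c' - w| ≤ 3 →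
    ∫ y in Set.Icc 1 v, (ArithmeticFunction.vonMangoldt ⌊y * c + β⌋₊ - th ⌊y * c + β⌋₊) *
      (ArithmeticFunction.vonMangoldt ⌊y * c' + β⌋₊ - th ⌊y * c' + β⌋₊) ≤ w ^ (-A) := by
  set K : ℝ := v + |Γ| with hK
  have hK1 : 1 ≤ K := by
    have := abs_nonneg Γ
    linarith
  have hlK : 0 ≤ Real.log K := Real.log_nonneg hK1
  set B : ℝ := 8 * Real.sqrt K * Real.exp (3 / 2) with hB
  have hB0 : 0 < B := by positivity
  have ht := tendsto_rpow_mul_exp_neg_mul_atTop_nhds_zero (A + 2) (1 / 2) (by norm_num)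
  have ht2 := ht.eventually (gt_mem_nhds (show (0 : ℝ) < 1 / B by positivity))
  obtain ⟨w1, hw1⟩ := Filter.eventually_atTop.1 ht2
  refine ⟨max w1 (Real.log K + 4), ?_, ?_⟩
  · exact le_max_of_le_right (by linarith)
  intro w β hw hβ c c' hc hc' hcw hcw'
  have hww1 : w1 ≤ w := (le_max_left _ _).trans hw
  have hwK : Real.log K + 4 ≤ w := (le_max_right _ _).trans hw
  have hw0 : 0 < w := by linarith
  have hc1 : (1 : ℝ) ≤ c := by exact_mod_cast hc
  have hc0 : (0 : ℝ) < c := by linarith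
  have hc1' : (1 : ℝ) ≤ c' := by exact_mod_cast hc'
  have hc0' : (0 : ℝ) < c' := by linarith
  obtain ⟨s1, s2⟩ := StepV_scale hc hcw
  obtain ⟨s1', s2'⟩ := StepV_scale hc' hcw'
  have hβ2 : β ≤ |Γ| := ((abs_le.1 hβ).2).trans (le_abs_self _)
  -- the floors
  have hfl : ∀ c : ℝ, 1 ≤ c → ∀ t ∈ Set.Icc (1 : ℝ) v, ⌊t * c + β⌋₊ ≤ ⌊K * c⌋₊ := by
    intro c hc t ht
    refine Nat.floor_le_floor ?_
    have h1 : t * c ≤ v * c := mul_le_mul_of_nonneg_right ht.2 (by linarith)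
    have h2 : |Γ| * 1 ≤ |Γ| * c := mul_le_mul_of_nonneg_left hc (abs_nonneg _)
    rw [hK, add_mul]
    linarith
  have hlog : ∀ c : ℕ, 0 < c → |Real.log c - w| ≤ 3 → Real.log (K * c) ≤ 2 * w := by
    intro c hc hcw
    rw [Real.log_mul (by linarith) (by positivity)]
    have := (abs_le.1 hcw).2
    linarith
  have hpp : ∀ t ∈ Set.Icc (1 : ℝ) v,
      ArithmeticFunction.vonMangoldt ⌊t * c' + β⌋₊ - th ⌊t * c' + β⌋₊ ≤ 2 * w := by
    intro t ht
    have h1 := th_nonneg ⌊t * c' + β⌋₊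
    have h2 : ArithmeticFunction.vonMangoldt ⌊t * c' + β⌋₊ ≤ Real.log ⌊t * c' + β⌋₊ :=
      ArithmeticFunction.vonMangoldt_le_log
    have h3 := hfl c' hc1' t ht
    have h5 := hlog c' hc' hcw'
    rcases Nat.eq_zero_or_pos ⌊t * c' + β⌋₊ with h0 | h0
    · rw [h0] at h2 ⊢
      rw [h0] at h1
      simp only [Nat.cast_zero, Real.log_zero] at h2
      linarith
    · have h4 : Real.log ⌊t * c' + β⌋₊ ≤ Real.log (K * c') := by
        refine Real.log_le_log (by exact_mod_cast h0) ?_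
        refine le_trans (by exact_mod_cast h3) (Nat.floor_le (by positivity))
      linarith
  have hint := StepV_intble (φ := fun n => ArithmeticFunction.vonMangoldt n - th n) StepV_pp_abs
    c c' β 1 v hc0.le hc0'.le
  have hint1 : IntegrableOn (fun y : ℝ => ArithmeticFunction.vonMangoldt ⌊y * c + β⌋₊ -
      th ⌊y * c + β⌋₊) (Set.Icc 1 v) := by
    have hfin : volume (Set.Icc 1 v) < ⊤ := by
      rw [Real.volume_Icc]; exact ENNReal.ofReal_lt_top
    refine Measure.integrableOn_of_bounded (M := 1 + K * c) hfin.ne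
      (StepV_meas c β (fun n => ArithmeticFunction.vonMangoldt n - th n)).aestronglyMeasurable ?_
    rw [ae_restrict_iff' measurableSet_Icc]
    refine Filter.Eventually.of_forall fun t ht => ?_
    rw [Real.norm_eq_abs]
    refine (StepV_pp_abs _).trans ?_
    have h3 := hfl c hc1 t ht
    have h4 : ((⌊t * c + β⌋₊ : ℕ) : ℝ) ≤ K * c :=
      le_trans (by exact_mod_cast h3) (Nat.floor_le (by positivity))
    linarith
  have e1 : ∫ y in Set.Icc 1 v, (ArithmeticFunction.vonMangoldt ⌊y * c + β⌋₊ - th ⌊y * c + β⌋₊) *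
      (ArithmeticFunction.vonMangoldt ⌊y * c' + β⌋₊ - th ⌊y * c' + β⌋₊) ≤
      (∫ y in Set.Icc 1 v, (ArithmeticFunction.vonMangoldt ⌊y * c + β⌋₊ - th ⌊y * c + β⌋₊)) *
        (2 * w) := by
    rw [← integral_mul_const]
    refine setIntegral_mono_on hint (hint1.mul_const _) measurableSet_Icc fun t ht => ?_
    exact mul_le_mul_of_nonneg_left (hpp t ht) (StepV_pp_nonneg _)
  have e2 := StepV_int_le (φ := fun n => ArithmeticFunction.vonMangoldt n - th n)
    (by simp [th]) StepV_pp_nonneg (v := v) hc0 (β := β) (K := ⌊K * c⌋₊) (hfl c hc1)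
  have hKc : 1 ≤ K * c := by nlinarith
  have e3 := StepV_pp_sum hKc
  have e4 : Real.sqrt (K * c) = Real.sqrt K * Real.sqrt c := Real.sqrt_mul (by linarith) _
  have e5 : Real.sqrt c * Real.sqrt c = c := Real.mul_self_sqrt hc0.le
  have hsc : 0 < Real.sqrt c := Real.sqrt_pos.2 hc0
  have e6 : Real.exp ((w - 3) / 2) ≤ Real.sqrt c := by
    apply Real.le_sqrt_of_sq_le
    rw [← Real.exp_nat_mul]
    refine le_trans (le_of_eq ?_) s1
    congr 1
    push_cast
    ring
  have e7 : 1 / (c : ℝ) * (2 * Real.sqrt (K * c) * Real.log (K * c)) ≤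
      4 * Real.sqrt K * w * (Real.exp (3 / 2) * Real.exp (-(1 / 2) * w)) := by
    have h1 : 1 / (c : ℝ) * (2 * Real.sqrt (K * c) * Real.log (K * c)) =
        2 * Real.sqrt K * Real.log (K * c) * (1 / Real.sqrt c) := by
      rw [e4]
      nth_rewrite 1 [← e5]
      field_simp
    rw [h1]
    have h2 : 1 / Real.sqrt c ≤ Real.exp (3 / 2) * Real.exp (-(1 / 2) * w) := by
      rw [div_le_iff₀ hsc, ← Real.exp_add]
      calc (1 : ℝ) = Real.exp (3 / 2 + -(1 / 2) * w) * Real.exp ((w - 3) / 2) := by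
            rw [← Real.exp_add]
            rw [show 3 / 2 + -(1 / 2) * w + (w - 3) / 2 = 0 by ring, Real.exp_zero]
        _ ≤ _ := mul_le_mul_of_nonneg_left e6 (Real.exp_pos _).le
    have h3 := hlog c hc hcw
    have h4 : 0 ≤ Real.log (K * c) := Real.log_nonneg hKc
    calc 2 * Real.sqrt K * Real.log (K * c) * (1 / Real.sqrt c) ≤
          2 * Real.sqrt K * (2 * w) * (Real.exp (3 / 2) * Real.exp (-(1 / 2) * w)) := by
            gcongr
      _ = _ := by ring
  have e8 : w ^ (A + 2) * Real.exp (-(1 / 2) * w) < 1 / B := hw1 w hww1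
  have e9 : w ^ (A + 2) = w ^ A * w ^ 2 := by
    rw [Real.rpow_add hw0]
    norm_num
  have e10 : w ^ (-A) * w ^ A = 1 := by
    rw [← Real.rpow_add hw0]
    simp
  have hwA : 0 < w ^ A := Real.rpow_pos_of_pos hw0 _
  have hwA' : 0 < w ^ (-A) := Real.rpow_pos_of_pos hw0 _
  calc _ ≤ _ := e1
    _ ≤ (1 / (c : ℝ) * (2 * Real.sqrt (K * c) * Real.log (K * c))) * (2 * w) := by
      refine mul_le_mul_of_nonneg_right (e2.trans ?_) (by linarith)
      exact mul_le_mul_of_nonneg_left e3 (by positivity)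
    _ ≤ (4 * Real.sqrt K * w * (Real.exp (3 / 2) * Real.exp (-(1 / 2) * w))) * (2 * w) :=
      mul_le_mul_of_nonneg_right e7 (by linarith)
    _ = B * (w ^ 2 * Real.exp (-(1 / 2) * w)) := by
      rw [hB]
      ring
    _ = w ^ (-A) * (B * (w ^ (A + 2) * Real.exp (-(1 / 2) * w))) := by
      rw [e9]
      calc B * (w ^ 2 * Real.exp (-(1 / 2) * w)) = 1 * (B * (w ^ 2 * Real.exp (-(1 / 2) * w))) := by
            ring
        _ = (w ^ (-A) * w ^ A) * (B * (w ^ 2 * Real.exp (-(1 / 2) * w))) := by rw [e10]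
        _ = _ := by ring
    _ ≤ w ^ (-A) * 1 := by
      refine mul_le_mul_of_nonneg_left ?_ hwA'.le
      have := mul_le_mul_of_nonneg_left e8.le hB0.le
      rwa [mul_one_div_cancel hB0.ne'] at this
    _ = w ^ (-A) := mul_one _

private theorem StepV_Gt_eq (β w u : ℝ) : Gt β w u = AMC.h β w u * Real.exp ((u - w) ^ 2) := by
  unfold Gt AMC.h
  split_ifs
  · rw [mul_assoc, ← Real.exp_add]
    have : -(u - w) ^ 2 + (u - w) ^ 2 = 0 := by ring
    rw [this, Real.exp_zero, mul_one]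
  · rw [zero_mul]

private theorem StepV_Gt_meas (β w : ℝ) : Measurable (Gt β w) := by
  have h : Gt β w = fun u => AMC.h β w u * Real.exp ((u - w) ^ 2) := by
    funext u
    exact StepV_Gt_eq β w u
  rw [h]
  exact (AMC.h_meas β w).mul (by fun_prop)

private theorem StepV_Gt_abs (β w u : ℝ) (hw : 1 ≤ w) :
    |Gt β w u| ≤ (4 + 2 * |β|) * w * Real.exp ((u - w) ^ 2 / 2) := by
  rw [StepV_Gt_eq, abs_mul, abs_of_pos (Real.exp_pos _)]
  calc |AMC.h β w u| * Real.exp ((u - w) ^ 2) ≤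
        ((4 + 2 * |β|) * w * Real.exp (-(u - w) ^ 2 / 2)) * Real.exp ((u - w) ^ 2) :=
        mul_le_mul_of_nonneg_right (AMC.h_abs β w u hw) (Real.exp_pos _).le
    _ = _ := by
      rw [mul_assoc, ← Real.exp_add]
      congr 2
      ring

private theorem StepV_KK_int {β w x x' : ℝ} (hw : 1 ≤ w) :
    Integrable fun s : ℝ => Real.exp (-4 * s ^ 2) * (Gt β w (s + x) * Gt β w (s + x')) := by
  have hg : Integrable fun s : ℝ => Real.exp (-2 * s ^ 2) := integrable_exp_neg_mul_sq (by norm_num)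
  refine Integrable.mono' (hg.const_mul (((4 + 2 * |β|) * w) ^ 2 *
    Real.exp ((x - w) ^ 2 + (x' - w) ^ 2))) ?_ ?_
  · exact (Measurable.mul (by fun_prop) (((StepV_Gt_meas β w).comp (measurable_add_const x)).mul
      ((StepV_Gt_meas β w).comp (measurable_add_const x')))).aestronglyMeasurable
  · refine Filter.Eventually.of_forall fun s => ?_
    have hβ := abs_nonneg β
    rw [Real.norm_eq_abs, abs_mul, abs_mul, abs_of_pos (Real.exp_pos _)]
    calc Real.exp (-4 * s ^ 2) * (|Gt β w (s + x)| * |Gt β w (s + x')|) ≤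
          Real.exp (-4 * s ^ 2) * (((4 + 2 * |β|) * w * Real.exp ((s + x - w) ^ 2 / 2)) *
            ((4 + 2 * |β|) * w * Real.exp ((s + x' - w) ^ 2 / 2))) := by
          refine mul_le_mul_of_nonneg_left ?_ (Real.exp_pos _).le
          exact mul_le_mul (StepV_Gt_abs β w _ hw) (StepV_Gt_abs β w _ hw) (abs_nonneg _)
            (by positivity)
      _ = ((4 + 2 * |β|) * w) ^ 2 * (Real.exp (-4 * s ^ 2) * Real.exp ((s + x - w) ^ 2 / 2) *
            Real.exp ((s + x' - w) ^ 2 / 2)) := by ring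
      _ ≤ ((4 + 2 * |β|) * w) ^ 2 * (Real.exp ((x - w) ^ 2 + (x' - w) ^ 2) *
            Real.exp (-2 * s ^ 2)) := by
          refine mul_le_mul_of_nonneg_left ?_ (by positivity)
          rw [← Real.exp_add, ← Real.exp_add, ← Real.exp_add]
          apply Real.exp_le_exp.2
          nlinarith [sq_nonneg (s - (x - w)), sq_nonneg (s - (x' - w))]
      _ = _ := by ring

/-- the main part -/
private theorem StepV_main {v : ℝ} (hv : 1 ≤ v) {w β : ℝ} (hw : 7 ≤ w) (I : Finset ℕ) (c : ℕ → ℕ)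
    (om : ℕ → ℝ) (hc : ∀ i ∈ I, 0 < c i ∧ |Real.log (c i) - w| ≤ 3) :
    ∫ y in Set.Icc 1 v, (∑ i ∈ I, om i *
      (ArithmeticFunction.vonMangoldt ⌊y * c i + β⌋₊ - 1)) ^ 2 ≤
      v * Real.exp (4 * Real.log v ^ 2) * ∑ i ∈ I, ∑ i' ∈ I, om i * om i' *
        KK β w (Real.log (c i)) (Real.log (c i')) := by
  have hv0 : 0 < v := by linarith
  have hlv : 0 ≤ Real.log v := Real.log_nonneg hv
  have himg : Real.exp '' Set.Icc 0 (Real.log v) = Set.Icc 1 v := by
    ext y
    constructor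
    · rintro ⟨s, hs, rfl⟩
      refine ⟨Real.one_le_exp hs.1, ?_⟩
      rw [← Real.le_log_iff_exp_le hv0]
      exact hs.2
    · intro hy
      have hy0 : 0 < y := by linarith [hy.1]
      exact ⟨Real.log y, ⟨Real.log_nonneg hy.1, Real.log_le_log hy0 hy.2⟩, Real.exp_log hy0⟩
  have hQ : ∀ s : ℝ, Real.exp (-4 * s ^ 2) * (∑ i ∈ I, om i * Gt β w (s + Real.log (c i))) ^ 2 =
      ∑ i ∈ I, ∑ i' ∈ I, om i * om i' * (Real.exp (-4 * s ^ 2) *
        (Gt β w (s + Real.log (c i)) * Gt β w (s + Real.log (c i')))) := by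
    intro s
    rw [StepV_sq, Finset.mul_sum]
    refine Finset.sum_congr rfl fun i _ => ?_
    rw [Finset.mul_sum]
    refine Finset.sum_congr rfl fun i' _ => ?_
    ring
  have hQi : Integrable fun s : ℝ =>
      Real.exp (-4 * s ^ 2) * (∑ i ∈ I, om i * Gt β w (s + Real.log (c i))) ^ 2 := by
    simp only [hQ]
    exact integrable_finsetSum _ fun i _ => integrable_finsetSum _ fun i' _ =>
      (StepV_KK_int (by linarith)).const_mul _
  have hQv : ∫ s : ℝ, Real.exp (-4 * s ^ 2) * (∑ i ∈ I, om i * Gt β w (s + Real.log (c i))) ^ 2 =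
      ∑ i ∈ I, ∑ i' ∈ I, om i * om i' * KK β w (Real.log (c i)) (Real.log (c i')) := by
    simp only [hQ]
    rw [integral_finsetSum _ fun i _ => integrable_finsetSum _ fun i' _ =>
      (StepV_KK_int (by linarith)).const_mul _]
    refine Finset.sum_congr rfl fun i _ => ?_
    rw [integral_finsetSum _ fun i' _ => (StepV_KK_int (by linarith)).const_mul _]
    refine Finset.sum_congr rfl fun i' _ => ?_
    rw [integral_const_mul]
    rfl
  rw [← himg, integral_image_eq_integral_abs_deriv_smul measurableSet_Icc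
    (fun s _ => (Real.hasDerivAt_exp s).hasDerivWithinAt) Real.exp_injective.injOn, ← hQv,
    ← integral_const_mul]
  refine le_trans ?_ (setIntegral_le_integral (s := Set.Icc 0 (Real.log v))
    (hQi.const_mul (v * Real.exp (4 * Real.log v ^ 2))) (Filter.Eventually.of_forall fun s => by
      simp only [Pi.zero_apply]
      positivity))
  refine integral_mono_of_nonneg (Filter.Eventually.of_forall fun s => by
      simp only [Pi.zero_apply, smul_eq_mul]
      positivity)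
    (hQi.const_mul (v * Real.exp (4 * Real.log v ^ 2))).integrableOn ?_
  refine (ae_restrict_iff' measurableSet_Icc).2 (Filter.Eventually.of_forall fun s hs => ?_)
  simp only [smul_eq_mul]
  rw [abs_of_pos (Real.exp_pos _)]
  have h1 : ∑ i ∈ I, om i * (ArithmeticFunction.vonMangoldt ⌊Real.exp s * c i + β⌋₊ - 1) =
      ∑ i ∈ I, om i * Gt β w (s + Real.log (c i)) := by
    refine Finset.sum_congr rfl fun i hi => ?_
    obtain ⟨hc0, hcw⟩ := hc i hi
    have hc1 : (0 : ℝ) < c i := by exact_mod_cast hc0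
    have h2 : w / 2 < s + Real.log (c i) := by
      have := (abs_le.1 hcw).1
      have := hs.1
      linarith
    unfold Gt AMC.G
    rw [if_pos h2, Real.exp_add, Real.exp_log hc1]
  rw [h1]
  have h3 : Real.exp s ≤ v := by
    rw [← Real.le_log_iff_exp_le hv0]
    exact hs.2
  have h4 : 1 ≤ Real.exp (4 * Real.log v ^ 2) * Real.exp (-4 * s ^ 2) := by
    rw [← Real.exp_add]
    apply Real.one_le_exp
    have := hs.1
    have := hs.2
    nlinarith
  set T : ℝ := (∑ i ∈ I, om i * Gt β w (s + Real.log (c i))) ^ 2 with hT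
  have hT0 : 0 ≤ T := sq_nonneg _
  calc Real.exp s * T ≤ v * T := mul_le_mul_of_nonneg_right h3 hT0
    _ = (v * T) * 1 := (mul_one _).symm
    _ ≤ (v * T) * (Real.exp (4 * Real.log v ^ 2) * Real.exp (-4 * s ^ 2)) :=
      mul_le_mul_of_nonneg_left h4 (by positivity)
    _ = _ := by ring

theorem step_v {v η : ℝ} (hv : 1 ≤ v) (hη : 0 < η) (hη1 : η ≤ 1 / 20) (Γ A : ℝ) :
    ∃ C w0 : ℝ, 1 ≤ C ∧ 1 ≤ w0 ∧ ∀ w β : ℝ, w0 ≤ w → |β| ≤ Γ → ∀ (I : Finset ℕ) (c : ℕ → ℕ) (om : ℕ → ℝ),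
    (∀ i ∈ I, 0 < c i ∧ |Real.log (c i) - w| ≤ 3) → (∀ i ∈ I, 0 ≤ om i) →
    ∫ y in Set.Icc 1 v, (∑ i ∈ I, om i * (th ⌊y * c i + β⌋₊ - 1)) ^ 2 ≤
      C * (w ^ (-A) * (∑ i ∈ I, om i) ^ 2 +
        ∑ i ∈ I, ∑ i' ∈ I, om i * om i' * bad η A β w (c i) (c i')) := by
  obtain ⟨C1, w1, hC1, hw1, hKt⟩ := KK_triv Γ
  obtain ⟨C2, w2, hC2, hw2, hKs⟩ := KK_sieve hη hη1 Γ
  obtain ⟨w3, hw3, hpp⟩ := StepV_pp hv Γ A
  set E : ℝ := v * Real.exp (4 * Real.log v ^ 2) with hE
  have hE0 : 0 < E := by positivity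
  set C0 : ℝ := Real.exp 36 + C1 + C2 with hC0
  have hC00 : 0 < C0 := by
    have := Real.exp_pos 36
    linarith
  refine ⟨2 * E * C0 + 2, w1 + w2 + w3 + 7, ?_, by linarith, ?_⟩
  · have : 0 ≤ 2 * E * C0 := by positivity
    linarith
  intro w β hw hβ I c om hc hom
  have hww0 : 0 < w := by linarith
  have hwA : 0 < w ^ (-A) := Real.rpow_pos_of_pos hww0 _
  -- the bound for one pair
  have hKK : ∀ i ∈ I, ∀ i' ∈ I, KK β w (Real.log (c i)) (Real.log (c i')) ≤
      C0 * (w ^ (-A) + bad η A β w (c i) (c i')) := by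
    intro i hi i' hi'
    obtain ⟨hc0, hcw⟩ := hc i hi
    obtain ⟨hc0', hcw'⟩ := hc i' hi'
    unfold bad
    by_cases hΨ : w ^ (-A) ≤ Psi β w (Real.log (c i) - Real.log (c i'))
    · rw [if_pos hΨ]
      by_cases hG : Gen η w (c i) (c i')
      · rw [if_pos hG]
        have h1 := hKs w β (by linarith) hβ (c i) (c i') hc0 hc0' hcw hcw' hG
        have h2 := Real.exp_pos 36
        have h3 : 0 ≤ C0 * w ^ (-A) := by positivity
        calc KK β w (Real.log (c i)) (Real.log (c i')) ≤ C2 := h1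
          _ ≤ C0 := by linarith
          _ ≤ C0 * (w ^ (-A) + (1 + 0)) := by
            rw [mul_add]
            linarith
      · rw [if_neg hG]
        have h1 := hKt w β (by linarith) hβ (Real.log (c i)) (Real.log (c i')) hcw hcw'
        have h2 := Real.exp_pos 36
        have h3 : 0 ≤ C0 * (w ^ (-A) + 1) := by positivity
        calc KK β w (Real.log (c i)) (Real.log (c i')) ≤ C1 * w ^ 2 := h1
          _ ≤ C0 * w ^ 2 := by
            refine mul_le_mul_of_nonneg_right ?_ (sq_nonneg w)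
            linarith
          _ ≤ C0 * (w ^ (-A) + (1 + w ^ 2)) := by
            have : C0 * (w ^ (-A) + (1 + w ^ 2)) = C0 * (w ^ (-A) + 1) + C0 * w ^ 2 := by ring
            linarith
    · rw [if_neg hΨ]
      push Not at hΨ
      have h1 := KK_le_psi (β := β) (w := w) (by linarith) hcw hcw'
      calc KK β w (Real.log (c i)) (Real.log (c i')) ≤ |KK β w (Real.log (c i)) (Real.log (c i'))| :=
            le_abs_self _
        _ ≤ Real.exp 36 * Psi β w (Real.log (c i) - Real.log (c i')) := h1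
        _ ≤ Real.exp 36 * w ^ (-A) := mul_le_mul_of_nonneg_left hΨ.le (Real.exp_pos _).le
        _ ≤ C0 * w ^ (-A) := by
          refine mul_le_mul_of_nonneg_right ?_ hwA.le
          linarith
        _ ≤ _ := by
          refine mul_le_mul_of_nonneg_left ?_ hC00.le
          rw [zero_add]
          split_ifs
          · rw [add_zero]
          · exact le_add_of_nonneg_right (sq_nonneg w)
  have hmain := StepV_main hv (w := w) (β := β) (by linarith) I c om hc
  -- integrability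
  have hiL : ∀ i ∈ I, ∀ i' ∈ I, IntegrableOn (fun y : ℝ =>
      (ArithmeticFunction.vonMangoldt ⌊y * c i + β⌋₊ - 1) *
      (ArithmeticFunction.vonMangoldt ⌊y * c i' + β⌋₊ - 1)) (Set.Icc 1 v) := fun i _ i' _ =>
    StepV_intble (φ := fun n => ArithmeticFunction.vonMangoldt n - 1) StepV_L_abs _ _ β 1 v
      (Nat.cast_nonneg _) (Nat.cast_nonneg _)
  have hiP : ∀ i ∈ I, ∀ i' ∈ I, IntegrableOn (fun y : ℝ =>
      (ArithmeticFunction.vonMangoldt ⌊y * c i + β⌋₊ - th ⌊y * c i + β⌋₊) *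
      (ArithmeticFunction.vonMangoldt ⌊y * c i' + β⌋₊ - th ⌊y * c i' + β⌋₊)) (Set.Icc 1 v) :=
    fun i _ i' _ =>
    StepV_intble (φ := fun n => ArithmeticFunction.vonMangoldt n - th n) StepV_pp_abs _ _ β 1 v
      (Nat.cast_nonneg _) (Nat.cast_nonneg _)
  have hsL : IntegrableOn (fun y : ℝ => (∑ i ∈ I, om i *
      (ArithmeticFunction.vonMangoldt ⌊y * c i + β⌋₊ - 1)) ^ 2) (Set.Icc 1 v) := by
    simp only [StepV_sq]
    exact integrable_finsetSum _ fun i hi => integrable_finsetSum _ fun i' hi' =>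
      (hiL i hi i' hi').const_mul _
  have hsP : IntegrableOn (fun y : ℝ => (∑ i ∈ I, om i *
      (ArithmeticFunction.vonMangoldt ⌊y * c i + β⌋₊ - th ⌊y * c i + β⌋₊)) ^ 2) (Set.Icc 1 v) := by
    simp only [StepV_sq]
    exact integrable_finsetSum _ fun i hi => integrable_finsetSum _ fun i' hi' =>
      (hiP i hi i' hi').const_mul _
  have hPv : ∫ y in Set.Icc 1 v, (∑ i ∈ I, om i *
      (ArithmeticFunction.vonMangoldt ⌊y * c i + β⌋₊ - th ⌊y * c i + β⌋₊)) ^ 2 ≤
      w ^ (-A) * (∑ i ∈ I, om i) ^ 2 := by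
    have h1 : ∀ y : ℝ, (∑ i ∈ I, om i *
        (ArithmeticFunction.vonMangoldt ⌊y * c i + β⌋₊ - th ⌊y * c i + β⌋₊)) ^ 2 =
        ∑ i ∈ I, ∑ i' ∈ I, om i * om i' *
          ((ArithmeticFunction.vonMangoldt ⌊y * c i + β⌋₊ - th ⌊y * c i + β⌋₊) *
          (ArithmeticFunction.vonMangoldt ⌊y * c i' + β⌋₊ - th ⌊y * c i' + β⌋₊)) := fun y =>
      StepV_sq I om fun i => ArithmeticFunction.vonMangoldt ⌊y * c i + β⌋₊ - th ⌊y * c i + β⌋₊
    simp only [h1]
    rw [integral_finsetSum _ fun i hi => integrable_finsetSum _ fun i' hi' =>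
      (hiP i hi i' hi').const_mul _, sq, Finset.sum_mul_sum, Finset.mul_sum]
    refine Finset.sum_le_sum fun i hi => ?_
    rw [integral_finsetSum _ fun i' hi' => (hiP i hi i' hi').const_mul _, Finset.mul_sum]
    refine Finset.sum_le_sum fun i' hi' => ?_
    rw [integral_const_mul, mul_comm (w ^ (-A))]
    exact mul_le_mul_of_nonneg_left (hpp w β (by linarith) hβ (c i) (c i') (hc i hi).1 (hc i' hi').1
      (hc i hi).2 (hc i' hi').2) (mul_nonneg (hom i hi) (hom i' hi'))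
  have hstep : ∫ y in Set.Icc 1 v, (∑ i ∈ I, om i * (th ⌊y * c i + β⌋₊ - 1)) ^ 2 ≤
      ∫ y in Set.Icc 1 v, (2 * (∑ i ∈ I, om i *
        (ArithmeticFunction.vonMangoldt ⌊y * c i + β⌋₊ - 1)) ^ 2 + 2 * (∑ i ∈ I, om i *
        (ArithmeticFunction.vonMangoldt ⌊y * c i + β⌋₊ - th ⌊y * c i + β⌋₊)) ^ 2) := by
    refine integral_mono_of_nonneg (Filter.Eventually.of_forall fun y => sq_nonneg _)
      ((hsL.const_mul 2).add (hsP.const_mul 2)) (Filter.Eventually.of_forall fun y => ?_)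
    have h1 : ∑ i ∈ I, om i * (th ⌊y * c i + β⌋₊ - 1) = (∑ i ∈ I, om i *
        (ArithmeticFunction.vonMangoldt ⌊y * c i + β⌋₊ - 1)) - ∑ i ∈ I, om i *
        (ArithmeticFunction.vonMangoldt ⌊y * c i + β⌋₊ - th ⌊y * c i + β⌋₊) := by
      rw [← Finset.sum_sub_distrib]
      refine Finset.sum_congr rfl fun i _ => ?_
      ring
    simp only [h1]
    nlinarith [sq_nonneg ((∑ i ∈ I, om i *
        (ArithmeticFunction.vonMangoldt ⌊y * c i + β⌋₊ - 1)) + ∑ i ∈ I, om i *
        (ArithmeticFunction.vonMangoldt ⌊y * c i + β⌋₊ - th ⌊y * c i + β⌋₊))]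
  refine hstep.trans ?_
  rw [integral_add (hsL.const_mul 2) (hsP.const_mul 2), integral_const_mul, integral_const_mul]
  have hsum : ∑ i ∈ I, ∑ i' ∈ I, om i * om i' * KK β w (Real.log (c i)) (Real.log (c i')) ≤
      C0 * (w ^ (-A) * (∑ i ∈ I, om i) ^ 2 +
        ∑ i ∈ I, ∑ i' ∈ I, om i * om i' * bad η A β w (c i) (c i')) := by
    have h1 : C0 * (w ^ (-A) * (∑ i ∈ I, om i) ^ 2 +
        ∑ i ∈ I, ∑ i' ∈ I, om i * om i' * bad η A β w (c i) (c i')) =
        ∑ i ∈ I, ∑ i' ∈ I, om i * om i' * (C0 * (w ^ (-A) + bad η A β w (c i) (c i'))) := by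
      rw [sq, Finset.sum_mul_sum, Finset.mul_sum, ← Finset.sum_add_distrib, Finset.mul_sum]
      refine Finset.sum_congr rfl fun i _ => ?_
      rw [Finset.mul_sum, ← Finset.sum_add_distrib, Finset.mul_sum]
      refine Finset.sum_congr rfl fun i' _ => ?_
      ring
    rw [h1]
    refine Finset.sum_le_sum fun i hi => Finset.sum_le_sum fun i' hi' => ?_
    exact mul_le_mul_of_nonneg_left (hKK i hi i' hi') (mul_nonneg (hom i hi) (hom i' hi'))
  have hbad : 0 ≤ ∑ i ∈ I, ∑ i' ∈ I, om i * om i' * bad η A β w (c i) (c i') := by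
    refine Finset.sum_nonneg fun i hi => Finset.sum_nonneg fun i' hi' => ?_
    refine mul_nonneg (mul_nonneg (hom i hi) (hom i' hi')) ?_
    unfold bad
    split_ifs <;> positivity
  set S1 : ℝ := w ^ (-A) * (∑ i ∈ I, om i) ^ 2 with hS1
  set S2 : ℝ := ∑ i ∈ I, ∑ i' ∈ I, om i * om i' * bad η A β w (c i) (c i') with hS2
  have hm2 := mul_le_mul_of_nonneg_left hsum hE0.le
  calc 2 * (∫ y in Set.Icc 1 v, (∑ i ∈ I, om i *
        (ArithmeticFunction.vonMangoldt ⌊y * c i + β⌋₊ - 1)) ^ 2) +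
        2 * (∫ y in Set.Icc 1 v, (∑ i ∈ I, om i *
        (ArithmeticFunction.vonMangoldt ⌊y * c i + β⌋₊ - th ⌊y * c i + β⌋₊)) ^ 2) ≤
        2 * (E * (C0 * (S1 + S2))) + 2 * S1 := by linarith
    _ ≤ (2 * E * C0 + 2) * (S1 + S2) := by
      have : (2 * E * C0 + 2) * (S1 + S2) = 2 * (E * (C0 * (S1 + S2))) + 2 * S1 + 2 * S2 := by ring
      linarith

end RLC
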