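import Pool.Agent.RLC.Defs

/-!
# RLC.Twist2: Gaussian sums with a smooth factor, as an inequality

PROOF. See `Pool/Agent/AMC/Twist.lean` (all lemmas there are private; copy). Fourier inversion:
`Ψ(x) = ∫ 𝓕Ψ(ξ) exp(2πiξx) dξ`, `‖𝓕Ψ(ξ)‖ ≤ 2N Wk ξ` (`Twist_bound`). So the sum is `∫ 𝓕Ψ(ξ) gs Λ w (τ-2πξ) dξ`, the integral
is `∫ 𝓕Ψ(ξ) E(τ-2πξ) dξ` with the main term `E` of `D1` (`Twist_swap`), and the difference is
`∫ 𝓕Ψ(ξ) D1 w (τ-2πξ) dξ`. (`ξ ↦ Wk ξ ‖D1 w (τ-2πξ)‖` is integrable: `Wk` is, `Twist_W_int`, and `D1 w` is bounded and continuous.)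
-/

namespace RLC

open MeasureTheory ArithmeticFunction
open scoped FourierTransform

private theorem Twist2_cs {Ψ : ℝ → ℂ} (h : HasCompactSupport Ψ) (n : ℕ) :
    HasCompactSupport (iteratedDeriv n Ψ) := by
  induction n with
  | zero => rwa [iteratedDeriv_zero]
  | succ n ih =>
    rw [iteratedDeriv_succ]
    exact ih.deriv

private theorem Twist2_int {Ψ : ℝ → ℂ} (h2 : ContDiff ℝ 2 Ψ) (hc : HasCompactSupport Ψ) (n : ℕ)
    (hn : n ≤ 2) : Integrable (iteratedDeriv n Ψ) := by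
  refine Continuous.integrable_of_hasCompactSupport ?_ (Twist2_cs hc n)
  exact h2.continuous_iteratedDeriv n (by exact_mod_cast hn)

private theorem Twist2_norm (f : ℝ → ℂ) (ξ : ℝ) : ‖𝓕 f ξ‖ ≤ ∫ x : ℝ, ‖f x‖ := by
  rw [Real.fourier_real_eq_integral_exp_smul]
  refine (norm_integral_le_integral_norm _).trans (le_of_eq ?_)
  refine integral_congr_ae (Filter.Eventually.of_forall fun x => ?_)
  simp only
  rw [norm_smul, Complex.norm_exp_ofReal_mul_I, one_mul]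

private theorem Twist2_decay {Ψ : ℝ → ℂ} {N : ℝ} (h2 : ContDiff ℝ 2 Ψ) (hc : HasCompactSupport Ψ)
    (h1 : ∫ x : ℝ, ‖Ψ x‖ ≤ N) (h3 : ∫ x : ℝ, ‖iteratedDeriv 2 Ψ x‖ ≤ N) (ξ : ℝ) :
    ‖𝓕 Ψ ξ‖ * (1 + (2 * Real.pi * ξ) ^ 2) ≤ 2 * N := by
  have h4 := (Twist2_norm Ψ ξ).trans h1
  have h5 := (Twist2_norm (iteratedDeriv 2 Ψ) ξ).trans h3
  have h6 := congrFun (Real.fourier_iteratedDeriv (N := 2) (n := 2) h2
    (fun n hn => Twist2_int h2 hc n (by exact_mod_cast hn)) le_rfl) ξ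
  rw [h6, norm_smul] at h5
  have h7 : ‖(2 * (Real.pi : ℂ) * Complex.I * ξ) ^ 2‖ = (2 * Real.pi * ξ) ^ 2 := by
    have h8 : (2 * (Real.pi : ℂ) * Complex.I * ξ) ^ 2 = ((-((2 * Real.pi * ξ) ^ 2) : ℝ) : ℂ) := by
      push_cast
      have hI : Complex.I ^ 2 = -1 := Complex.I_sq
      ring_nf
      rw [hI]
      ring
    rw [h8, Complex.norm_real, norm_neg, Real.norm_of_nonneg (sq_nonneg _)]
  rw [h7] at h5
  linarith

theorem Wk_int : Integrable Wk := by
  have h1 : Integrable (fun x : ℝ => ((1 : ℝ) + ‖x‖ ^ 2) ^ (-(3 / 2) / 2 : ℝ)) := by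
    refine integrable_rpow_neg_one_add_norm_sq (r := 3 / 2) ?_
    rw [Module.finrank_self]
    norm_num
  have h2 := h1.comp_mul_left' (R := 2 * Real.pi) (by positivity)
  refine h2.congr (Filter.Eventually.of_forall fun x => ?_)
  simp only [Wk]
  rw [Real.norm_eq_abs, sq_abs]
  norm_num

private theorem Twist2_bound {Ψ : ℝ → ℂ} {N : ℝ} (hN : 0 ≤ N) (h2 : ContDiff ℝ 2 Ψ)
    (hc : HasCompactSupport Ψ)
    (h1 : ∫ x : ℝ, ‖Ψ x‖ ≤ N) (h3 : ∫ x : ℝ, ‖iteratedDeriv 2 Ψ x‖ ≤ N) (ξ : ℝ) :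
    ‖𝓕 Ψ ξ‖ ≤ 2 * N * Wk ξ := by
  have h4 := Twist2_decay h2 hc h1 h3 ξ
  have h5 : 0 < 1 + (2 * Real.pi * ξ) ^ 2 := by positivity
  have h6 : ‖𝓕 Ψ ξ‖ ≤ 2 * N * (1 + (2 * Real.pi * ξ) ^ 2) ^ (-1 : ℝ) := by
    rw [Real.rpow_neg_one, ← div_eq_mul_inv, le_div_iff₀ h5]
    exact h4
  refine h6.trans ?_
  refine mul_le_mul_of_nonneg_left ?_ (by linarith)
  unfold Wk
  refine Real.rpow_le_rpow_of_exponent_le ?_ (by norm_num)
  nlinarith [sq_nonneg (2 * Real.pi * ξ)]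

private theorem Twist2_F_int {Ψ : ℝ → ℂ} (h2 : ContDiff ℝ 2 Ψ) (hc : HasCompactSupport Ψ) :
    Integrable (𝓕 Ψ) := by
  have hi : Integrable Ψ := h2.continuous.integrable_of_hasCompactSupport hc
  have hcont : Continuous (𝓕 Ψ) :=
    VectorFourier.fourierIntegral_continuous Real.continuous_fourierChar
      (by exact continuous_inner) hi
  have h3 := fun ξ => Twist2_bound (N := max (∫ x : ℝ, ‖Ψ x‖) (∫ x : ℝ, ‖iteratedDeriv 2 Ψ x‖))
    (le_max_of_le_left (integral_nonneg fun x => norm_nonneg _)) h2 hc (le_max_left _ _)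
    (le_max_right _ _) ξ
  exact (Wk_int.const_mul _).mono' hcont.aestronglyMeasurable (Filter.Eventually.of_forall h3)

private theorem Twist2_inv {Ψ : ℝ → ℂ} (h2 : ContDiff ℝ 2 Ψ) (hc : HasCompactSupport Ψ) (x : ℝ) :
    ∫ ξ : ℝ, 𝓕 Ψ ξ * Complex.exp ((2 * Real.pi * ξ * x : ℝ) * Complex.I) = Ψ x := by
  have hi : Integrable Ψ := h2.continuous.integrable_of_hasCompactSupport hc
  have h3 := congrFun (h2.continuous.fourierInv_fourier_eq hi (Twist2_F_int h2 hc)) x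
  rw [Real.fourierInv_eq'] at h3
  rw [← h3]
  refine integral_congr_ae (Filter.Eventually.of_forall fun ξ => ?_)
  simp only
  rw [smul_eq_mul, mul_comm]
  congr 3
  simp only [RCLike.inner_apply, conj_trivial]
  push_cast
  ring

/-- the Gauss function -/
private noncomputable def Twist2_g (w x : ℝ) : ℝ := Real.exp (-(x - w) ^ 2 / 2)

/-- the main term -/
private noncomputable def Twist2_E (w τ : ℝ) : ℂ :=
  Real.sqrt (2 * Real.pi) * Real.exp (-τ ^ 2 / 2) * Complex.exp (-(τ * w * Complex.I))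

private theorem Twist2_quad (w τ x : ℝ) :
    Complex.exp (-(τ * x * Complex.I)) * (Twist2_g w x : ℂ) =
      Complex.exp ((-1 / 2 : ℂ) * (x : ℂ) ^ 2 + ((w : ℂ) - τ * Complex.I) * x + (-(w : ℂ) ^ 2 / 2)) := by
  unfold Twist2_g
  rw [Complex.ofReal_exp, ← Complex.exp_add]
  congr 1
  push_cast
  ring

private theorem Twist2_full (w τ : ℝ) :
    ∫ x : ℝ, Complex.exp (-(τ * x * Complex.I)) * (Twist2_g w x : ℂ) = Twist2_E w τ := by
  have hb : ((-1 / 2 : ℂ)).re < 0 := by norm_num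
  simp_rw [Twist2_quad]
  rw [integral_cexp_quadratic hb]
  have h1 : ((Real.pi : ℂ) / -(-1 / 2 : ℂ)) ^ (1 / 2 : ℂ) = ((Real.sqrt (2 * Real.pi) : ℝ) : ℂ) := by
    rw [Real.sqrt_eq_rpow, Complex.ofReal_cpow (by positivity)]
    congr 1
    · push_cast
      ring
    · push_cast
      ring
  unfold Twist2_E
  rw [h1, Complex.ofReal_exp, mul_assoc, ← Complex.exp_add]
  congr 2
  push_cast
  have hI : Complex.I ^ 2 = -1 := Complex.I_sq
  ring_nf
  rw [hI]
  ring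

private theorem Twist2_g_int (w : ℝ) : Integrable (fun x : ℝ => (Twist2_g w x : ℂ)) := by
  have hb : ((-1 / 2 : ℂ)).re < 0 := by norm_num
  have h1 : ∀ x : ℝ, (Twist2_g w x : ℂ) =
      Complex.exp ((-1 / 2 : ℂ) * (x : ℂ) ^ 2 + (w : ℂ) * x + (-(w : ℂ) ^ 2 / 2)) := by
    intro x
    unfold Twist2_g
    rw [Complex.ofReal_exp]
    congr 1
    push_cast
    ring
  simp_rw [h1]
  exact integrable_cexp_quadratic' hb _ _

private theorem Twist2_phase_norm (x : ℝ) : ‖Complex.exp (x * Complex.I)‖ = 1 :=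
  Complex.norm_exp_ofReal_mul_I x

private theorem Twist2_swap {Ψ : ℝ → ℂ} (h2 : ContDiff ℝ 2 Ψ) (hc : HasCompactSupport Ψ)
    (w τ : ℝ) :
    ∫ ξ : ℝ, 𝓕 Ψ ξ * Twist2_E w (τ - 2 * Real.pi * ξ) =
      ∫ x : ℝ, Complex.exp (-(τ * x * Complex.I)) * (Twist2_g w x : ℂ) * Ψ x := by
  have h3 : ∀ ξ : ℝ, 𝓕 Ψ ξ * Twist2_E w (τ - 2 * Real.pi * ξ) =
      ∫ x : ℝ, (𝓕 Ψ ξ * (Twist2_g w x : ℂ)) *
        Complex.exp (((2 * Real.pi * ξ - τ) * x : ℝ) * Complex.I) := by
    intro ξ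
    rw [← Twist2_full, ← integral_const_mul]
    refine integral_congr_ae (Filter.Eventually.of_forall fun x => ?_)
    simp only
    rw [mul_comm (Complex.exp _), ← mul_assoc]
    congr 2
    push_cast
    ring
  have h4 : Integrable (Function.uncurry fun ξ x : ℝ => (𝓕 Ψ ξ * (Twist2_g w x : ℂ)) *
        Complex.exp (((2 * Real.pi * ξ - τ) * x : ℝ) * Complex.I)) (volume.prod volume) := by
    have h5 := (Twist2_F_int h2 hc).mul_prod (Twist2_g_int w)
    refine h5.mul_bdd (c := 1) ?_ ?_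
    · refine Continuous.aestronglyMeasurable ?_
      fun_prop
    · exact Filter.Eventually.of_forall fun z => (Twist2_phase_norm _).le
  simp_rw [h3]
  rw [integral_integral_swap h4]
  refine integral_congr_ae (Filter.Eventually.of_forall fun x => ?_)
  simp only
  rw [← Twist2_inv h2 hc x, ← integral_const_mul]
  refine integral_congr_ae (Filter.Eventually.of_forall fun ξ => ?_)
  simp only
  have h5 : Complex.exp (((2 * Real.pi * ξ - τ) * x : ℝ) * Complex.I) =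
      Complex.exp (-(τ * x * Complex.I)) *
        Complex.exp ((2 * Real.pi * ξ * x : ℝ) * Complex.I) := by
    rw [← Complex.exp_add]
    congr 1
    push_cast
    ring
  rw [h5]
  ring

private noncomputable def Twist2_t (w : ℝ) (n : ℕ) : ℝ :=
  vonMangoldt n * (n : ℝ)⁻¹ * Real.exp (-(Real.log n - w) ^ 2 / 2)

private theorem Twist2_t_nonneg (w : ℝ) (n : ℕ) : 0 ≤ Twist2_t w n := by
  unfold Twist2_t
  have := vonMangoldt_nonneg (n := n)
  positivity

private theorem Twist2_term (w τ : ℝ) (n : ℕ) :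
    ‖(vonMangoldt n : ℂ) * (n : ℂ) ^ (-(1 + τ * Complex.I)) *
      (Real.exp (-(Real.log n - w) ^ 2 / 2) : ℝ)‖ = Twist2_t w n := by
  rcases Nat.eq_zero_or_pos n with rfl | hn
  · unfold Twist2_t
    simp
  · rw [norm_mul, norm_mul, Complex.norm_real, Complex.norm_real,
      Complex.norm_natCast_cpow_of_pos hn, Real.norm_of_nonneg vonMangoldt_nonneg,
      Real.norm_of_nonneg (Real.exp_pos _).le]
    unfold Twist2_t
    congr 2
    simp [Real.rpow_neg_one]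

private theorem Twist2_summable (w : ℝ) : Summable (Twist2_t w) := by
  have h1 : LSeriesSummable (fun n => (vonMangoldt n : ℂ)) (2 : ℂ) :=
    LSeriesSummable_vonMangoldt (by norm_num)
  have h2 : Summable fun n : ℕ => vonMangoldt n * ((n : ℝ) ^ 2)⁻¹ := by
    refine h1.norm.congr fun n => ?_
    rcases Nat.eq_zero_or_pos n with rfl | hn
    · simp
    · rw [LSeries.term_of_ne_zero hn.ne', norm_div, Complex.norm_real,
        Real.norm_of_nonneg vonMangoldt_nonneg, div_eq_mul_inv,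
        Complex.norm_natCast_cpow_of_pos hn]
      congr 2
      rw [← Real.rpow_natCast]
      norm_num
  refine Summable.of_nonneg_of_le (Twist2_t_nonneg w) (fun n => ?_) (h2.mul_left (Real.exp (w + 1 / 2)))
  rcases Nat.eq_zero_or_pos n with rfl | hn
  · unfold Twist2_t
    simp
  · have hn' : (0 : ℝ) < n := by exact_mod_cast hn
    have h3 : Real.exp (-(Real.log n - w) ^ 2 / 2) ≤ Real.exp (w + 1 / 2) * (n : ℝ)⁻¹ := by
      have h4 : (n : ℝ)⁻¹ = Real.exp (-Real.log n) := by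
        rw [Real.exp_neg, Real.exp_log hn']
      rw [h4, ← Real.exp_add]
      refine Real.exp_le_exp.2 ?_
      nlinarith [sq_nonneg (Real.log n - w - 1)]
    unfold Twist2_t
    have h5 := vonMangoldt_nonneg (n := n)
    calc vonMangoldt n * (n : ℝ)⁻¹ * Real.exp (-(Real.log n - w) ^ 2 / 2)
        ≤ vonMangoldt n * (n : ℝ)⁻¹ * (Real.exp (w + 1 / 2) * (n : ℝ)⁻¹) := by gcongr
      _ = Real.exp (w + 1 / 2) * (vonMangoldt n * ((n : ℝ) ^ 2)⁻¹) := by
          rw [pow_two, mul_inv]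
          ring

private theorem Twist2_gs_eq (w τ : ℝ) : VKZ.gs (fun n => vonMangoldt n) w τ =
    ∑' n : ℕ, (vonMangoldt n : ℂ) * (n : ℂ) ^ (-(1 + τ * Complex.I)) *
      (Real.exp (-(Real.log n - w) ^ 2 / 2) : ℝ) := rfl

private theorem Twist2_gs_norm (w τ : ℝ) :
    ‖VKZ.gs (fun n => vonMangoldt n) w τ‖ ≤ ‖VKZ.gs (fun n => vonMangoldt n) w 0‖ := by
  have h1 : VKZ.gs (fun n => vonMangoldt n) w 0 = ((∑' n, Twist2_t w n : ℝ) : ℂ) := by
    rw [Twist2_gs_eq, Complex.ofReal_tsum]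
    refine tsum_congr fun n => ?_
    unfold Twist2_t
    rcases Nat.eq_zero_or_pos n with rfl | hn
    · simp
    · push_cast
      congr 2
      rw [zero_mul, add_zero, Complex.cpow_neg_one]
  rw [h1, Complex.norm_real, Real.norm_of_nonneg (tsum_nonneg (Twist2_t_nonneg w)), Twist2_gs_eq]
  refine tsum_of_norm_bounded (Twist2_summable w).hasSum fun n => ?_
  exact (Twist2_term w τ n).le

private theorem Twist2_phase (τ η : ℝ) (n : ℕ) :
    (vonMangoldt n : ℂ) * (n : ℂ) ^ (-(1 + τ * Complex.I)) *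
      Complex.exp ((η * Real.log n : ℝ) * Complex.I) =
    (vonMangoldt n : ℂ) * (n : ℂ) ^ (-(1 + ((τ - η : ℝ) : ℂ) * Complex.I)) := by
  rcases Nat.eq_zero_or_pos n with rfl | hn
  · simp
  · have hn' : (n : ℂ) ≠ 0 := by exact_mod_cast hn.ne'
    have h1 : -(1 + ((τ - η : ℝ) : ℂ) * Complex.I) = -(1 + τ * Complex.I) + η * Complex.I := by
      push_cast
      ring
    rw [h1, Complex.cpow_add _ _ hn', mul_assoc]
    congr 2
    rw [Complex.cpow_def_of_ne_zero hn', ← Complex.natCast_log]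
    congr 1
    push_cast
    ring

private theorem Twist2_sum {Ψ : ℝ → ℂ} (h2 : ContDiff ℝ 2 Ψ) (hc : HasCompactSupport Ψ)
    (w τ : ℝ) :
    ∑' n : ℕ, (vonMangoldt n : ℂ) * (n : ℂ) ^ (-(1 + τ * Complex.I)) *
        (Real.exp (-(Real.log n - w) ^ 2 / 2) : ℝ) * Ψ (Real.log n) =
      ∫ ξ : ℝ, 𝓕 Ψ ξ * VKZ.gs (fun n => vonMangoldt n) w (τ - 2 * Real.pi * ξ) := by
  obtain ⟨b, hb⟩ : ∃ b : ℕ → ℂ, ∀ n, b n = (vonMangoldt n : ℂ) *
      (n : ℂ) ^ (-(1 + τ * Complex.I)) * (Real.exp (-(Real.log n - w) ^ 2 / 2) : ℝ) :=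
    ⟨_, fun _ => rfl⟩
  have hbn : ∀ n, ‖b n‖ = Twist2_t w n := fun n => by rw [hb, Twist2_term]
  have hF := Twist2_F_int h2 hc
  have h3 : ∀ n : ℕ, Integrable fun ξ : ℝ => b n * (𝓕 Ψ ξ *
      Complex.exp ((2 * Real.pi * ξ * Real.log n : ℝ) * Complex.I)) := by
    intro n
    refine Integrable.const_mul ?_ _
    refine hF.mul_bdd (c := 1) ?_ ?_
    · refine Continuous.aestronglyMeasurable ?_
      fun_prop
    · exact Filter.Eventually.of_forall fun z => (Twist2_phase_norm _).le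
  have h4 : ∀ n : ℕ, ∫ ξ : ℝ, ‖b n * (𝓕 Ψ ξ *
      Complex.exp ((2 * Real.pi * ξ * Real.log n : ℝ) * Complex.I))‖ =
      Twist2_t w n * ∫ ξ : ℝ, ‖𝓕 Ψ ξ‖ := by
    intro n
    rw [← integral_const_mul]
    refine integral_congr_ae (Filter.Eventually.of_forall fun ξ => ?_)
    simp only
    rw [norm_mul, norm_mul, hbn, Twist2_phase_norm, mul_one]
  have h5 := integral_tsum_of_summable_integral_norm h3 (by
    simp_rw [h4]
    exact (Twist2_summable w).mul_right _)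
  calc ∑' n : ℕ, (vonMangoldt n : ℂ) * (n : ℂ) ^ (-(1 + τ * Complex.I)) *
        (Real.exp (-(Real.log n - w) ^ 2 / 2) : ℝ) * Ψ (Real.log n)
      = ∑' n : ℕ, ∫ ξ : ℝ, b n * (𝓕 Ψ ξ *
          Complex.exp ((2 * Real.pi * ξ * Real.log n : ℝ) * Complex.I)) := by
        refine tsum_congr fun n => ?_
        rw [integral_const_mul, Twist2_inv h2 hc, hb]
    _ = ∫ ξ : ℝ, ∑' n : ℕ, b n * (𝓕 Ψ ξ *
          Complex.exp ((2 * Real.pi * ξ * Real.log n : ℝ) * Complex.I)) := h5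
    _ = _ := by
        refine integral_congr_ae (Filter.Eventually.of_forall fun ξ => ?_)
        simp only
        rw [Twist2_gs_eq, ← tsum_mul_left]
        refine tsum_congr fun n => ?_
        rw [← Twist2_phase, hb]
        ring

private theorem Twist2_E_norm (w τ : ℝ) : ‖Twist2_E w τ‖ ≤ 3 := by
  unfold Twist2_E
  have h1 : -((τ : ℂ) * w * Complex.I) = ((-(τ * w) : ℝ) : ℂ) * Complex.I := by
    push_cast
    ring
  rw [norm_mul, norm_mul, h1, Twist2_phase_norm, Complex.norm_real, Complex.norm_real,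
    Real.norm_of_nonneg (Real.sqrt_nonneg _), Real.norm_of_nonneg (Real.exp_pos _).le, mul_one]
  have h2 : Real.sqrt (2 * Real.pi) ≤ 3 := by
    rw [Real.sqrt_le_left (by norm_num)]
    have := Real.pi_lt_d2
    linarith
  have h3 : Real.exp (-τ ^ 2 / 2) ≤ 1 := by
    rw [Real.exp_le_one_iff]
    nlinarith [sq_nonneg τ]
  have h4 := Real.sqrt_nonneg (2 * Real.pi)
  nlinarith [Real.exp_pos (-τ ^ 2 / 2)]

private theorem Twist2_diff {Ψ : ℝ → ℂ} (h2 : ContDiff ℝ 2 Ψ) (hc : HasCompactSupport Ψ)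
    (w τ : ℝ) :
    ∑' n : ℕ, (vonMangoldt n : ℂ) * (n : ℂ) ^ (-(1 + τ * Complex.I)) *
        (Real.exp (-(Real.log n - w) ^ 2 / 2) : ℝ) * Ψ (Real.log n) -
      ∫ x : ℝ, Complex.exp (-(τ * x * Complex.I)) * (Real.exp (-(x - w) ^ 2 / 2) : ℝ) * Ψ x =
      ∫ ξ : ℝ, 𝓕 Ψ ξ * (VKZ.gs (fun n => vonMangoldt n) w (τ - 2 * Real.pi * ξ) -
        Twist2_E w (τ - 2 * Real.pi * ξ)) := by
  have hF := Twist2_F_int h2 hc
  have h3 := Twist2_swap h2 hc w τ
  unfold Twist2_g at h3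
  rw [Twist2_sum h2 hc, ← h3, ← integral_sub]
  · refine integral_congr_ae (Filter.Eventually.of_forall fun ξ => ?_)
    simp only
    rw [mul_sub]
  · refine hF.mul_bdd (c := ‖VKZ.gs (fun n => vonMangoldt n) w 0‖) ?_ ?_
    · refine Continuous.aestronglyMeasurable ?_
      simp_rw [Twist2_gs_eq]
      refine continuous_tsum (u := Twist2_t w) ?_ (Twist2_summable w) fun n ξ => ?_
      · intro n
        rcases Nat.eq_zero_or_pos n with rfl | hn
        · simp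
          exact continuous_const
        · have hn' : (n : ℂ) ≠ 0 := by exact_mod_cast hn.ne'
          refine Continuous.mul (Continuous.mul continuous_const ?_) continuous_const
          refine Continuous.const_cpow ?_ (Or.inl hn')
          fun_prop
      · exact (Twist2_term w _ n).le
    · exact Filter.Eventually.of_forall fun ξ => Twist2_gs_norm w _
  · refine hF.mul_bdd (c := 3) ?_ ?_
    · refine Continuous.aestronglyMeasurable ?_
      unfold Twist2_E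
      fun_prop
    · exact Filter.Eventually.of_forall fun ξ => Twist2_E_norm w _

private theorem Twist2_gs_cont (w : ℝ) : Continuous (VKZ.gs (fun n => vonMangoldt n) w) := by
  have h : VKZ.gs (fun n => vonMangoldt n) w = fun τ : ℝ =>
      ∑' n : ℕ, (vonMangoldt n : ℂ) * (n : ℂ) ^ (-(1 + (τ : ℂ) * Complex.I)) *
        (Real.exp (-(Real.log n - w) ^ 2 / 2) : ℝ) := by
    funext τ
    exact Twist2_gs_eq w τ
  rw [h]
  refine continuous_tsum (u := Twist2_t w) ?_ (Twist2_summable w) fun n ξ => ?_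
  · intro n
    rcases Nat.eq_zero_or_pos n with rfl | hn
    · simp
      exact continuous_const
    · have hn' : (n : ℂ) ≠ 0 := by exact_mod_cast hn.ne'
      refine Continuous.mul (Continuous.mul continuous_const ?_) continuous_const
      refine Continuous.const_cpow ?_ (Or.inl hn')
      fun_prop
  · exact (Twist2_term w _ n).le

private theorem Twist2_E_cont (w : ℝ) : Continuous (Twist2_E w) := by
  unfold Twist2_E
  fun_prop

private theorem Twist2_D1 (w τ : ℝ) :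
    D1 w τ = VKZ.gs (fun n => vonMangoldt n) w τ - Twist2_E w τ := rfl

private theorem Twist2_D1_cont (w : ℝ) : Continuous (D1 w) :=
  (Twist2_gs_cont w).sub (Twist2_E_cont w)

private theorem Twist2_D1_norm (w τ : ℝ) :
    ‖D1 w τ‖ ≤ ‖VKZ.gs (fun n => vonMangoldt n) w 0‖ + 3 := by
  rw [Twist2_D1]
  exact (norm_sub_le _ _).trans (add_le_add (Twist2_gs_norm w τ) (Twist2_E_norm w τ))

theorem twist2 (w τ N : ℝ) (hN : 0 ≤ N) (Ψ : ℝ → ℂ) (h2 : ContDiff ℝ 2 Ψ) (hc : HasCompactSupport Ψ)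
    (h1 : ∫ x : ℝ, ‖Ψ x‖ ≤ N) (h3 : ∫ x : ℝ, ‖iteratedDeriv 2 Ψ x‖ ≤ N) :
    ‖∑' n : ℕ, (vonMangoldt n : ℂ) * (n : ℂ) ^ (-(1 + τ * Complex.I)) *
        (Real.exp (-(Real.log n - w) ^ 2 / 2) : ℝ) * Ψ (Real.log n) -
      ∫ x : ℝ, Complex.exp (-(τ * x * Complex.I)) * (Real.exp (-(x - w) ^ 2 / 2) : ℝ) * Ψ x‖ ≤
      2 * N * ∫ ξ : ℝ, Wk ξ * ‖D1 w (τ - 2 * Real.pi * ξ)‖ := by
  rw [Twist2_diff h2 hc, ← integral_const_mul]
  have hcont : Continuous fun ξ : ℝ => D1 w (τ - 2 * Real.pi * ξ) :=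
    (Twist2_D1_cont w).comp (by fun_prop)
  have hint : Integrable fun ξ : ℝ => Wk ξ * ‖D1 w (τ - 2 * Real.pi * ξ)‖ := by
    refine Wk_int.mul_bdd (c := ‖VKZ.gs (fun n => vonMangoldt n) w 0‖ + 3)
      hcont.norm.aestronglyMeasurable ?_
    refine Filter.Eventually.of_forall fun ξ => ?_
    rw [norm_norm]
    exact Twist2_D1_norm w _
  refine norm_integral_le_of_norm_le (hint.const_mul (2 * N)) ?_
  refine Filter.Eventually.of_forall fun ξ => ?_
  rw [norm_mul, ← Twist2_D1]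
  have h4 := Twist2_bound hN h2 hc h1 h3 ξ
  have h5 := norm_nonneg (D1 w (τ - 2 * Real.pi * ξ))
  calc ‖𝓕 Ψ ξ‖ * ‖D1 w (τ - 2 * Real.pi * ξ)‖
      ≤ (2 * N * Wk ξ) * ‖D1 w (τ - 2 * Real.pi * ξ)‖ := mul_le_mul_of_nonneg_right h4 h5
    _ = 2 * N * (Wk ξ * ‖D1 w (τ - 2 * Real.pi * ξ)‖) := by ring

end RLC
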