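import Pool.Agent.RLC.StepE

/-!
# RLC.Vari: the variance

PROOF. `W_j = ∑_{n∈I} wt β n j`, `x_j = ‖W_j - W_0‖_2` (`eLpNorm .. 2 P`, or the square root of the `lintegral`). `0 ≤ W_0 ≤ 4 Y` for large `Y`
(`W_0` is constant, `= ∑_{n∈I} θ(n) ≤ ∑_{n≤2Y} θ(n) ≤ 4Y`, Chebyshev; or use `W_0 ≤ Y log(2Y)`, which is also sufficient). `step_e` with
`A' = 2A + 8` gives `‖W_{j+1} - W_j‖_2 ≤ C (log Y)^(-A'/2) ‖W_j‖_2 + Y^(1-δ/2) ≤ C (log Y)^(-A'/2) (W_0 + x_j) + Y^(1-δ/2)`. By induction on `j`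
(Minkowski `eLpNorm_add_le`): `x_j ≤ j · 2C (log Y)^(-A'/2) Y log(2Y)·.. ≤ Y` and finally `x_j ≤ log Y · (..) ≤ Y (log Y)^(-A/2)`, as
`j ≤ log Y`. Note that `step_e` for `j` bounds `W_{j+1} - W_j` if `(j:ℝ) + 1 ≤ (1-ε) log Y/log log Y`; to reach `W_j` we need it for
`0, ..., j-1`.
-/

namespace RLC

open MeasureTheory

private theorem Vari_sq {Ω : Type*} [MeasurableSpace Ω] (P : Measure Ω) (g : Ω → ℝ) :
    ∫⁻ a, ENNReal.ofReal (g a ^ 2) ∂P = eLpNorm g 2 P ^ 2 := by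
  rw [eLpNorm_eq_lintegral_rpow_enorm_toReal (by norm_num) (by norm_num)]
  have h2 : (2 : ENNReal).toReal = (2 : ℝ) := by norm_num
  rw [h2, ← ENNReal.rpow_natCast, ← ENNReal.rpow_mul]
  norm_num
  refine lintegral_congr fun a => ?_
  rw [Real.enorm_eq_ofReal_abs, ← ENNReal.ofReal_pow (abs_nonneg _), sq_abs]

private theorem Vari_root {x z : ENNReal} {a b : ℝ} (ha : 0 ≤ a) (hb : 0 ≤ b)
    (h : x ^ 2 ≤ ENNReal.ofReal a * z ^ 2 + ENNReal.ofReal b) :
    x ≤ ENNReal.ofReal (Real.sqrt a) * z + ENNReal.ofReal (Real.sqrt b) := by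
  have h1 : x ^ 2 ≤ (ENNReal.ofReal (Real.sqrt a) * z + ENNReal.ofReal (Real.sqrt b)) ^ 2 := by
    refine h.trans ?_
    have e1 : ENNReal.ofReal a = ENNReal.ofReal (Real.sqrt a) ^ 2 := by
      rw [← ENNReal.ofReal_pow (Real.sqrt_nonneg a), Real.sq_sqrt ha]
    have e2 : ENNReal.ofReal b = ENNReal.ofReal (Real.sqrt b) ^ 2 := by
      rw [← ENNReal.ofReal_pow (Real.sqrt_nonneg b), Real.sq_sqrt hb]
    rw [e1, e2, ← mul_pow, add_sq]
    gcongr
    exact le_self_add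
  exact (ENNReal.pow_le_pow_left_iff (by norm_num)).1 h1

private theorem Vari_abs {Ω : Type*} [MeasurableSpace Ω] (P : Measure Ω) [IsProbabilityMeasure P]
    {W : ℕ → Ω → ℝ} (hW : ∀ j, Measurable (W j)) {w0 B : ℝ} (h0 : ∀ a, W 0 a = w0) (hw0 : |w0| ≤ B)
    {a b : ℝ} (ha : 0 ≤ a) (hb : 0 ≤ b) {J : ℕ}
    (hs : ∀ j < J, ∫⁻ x, ENNReal.ofReal ((W (j + 1) x - W j x) ^ 2) ∂P ≤
      ENNReal.ofReal a * ∫⁻ x, ENNReal.ofReal (W j x ^ 2) ∂P + ENNReal.ofReal b)
    (hJ : (J : ℝ) * (2 * Real.sqrt a * B + Real.sqrt b) ≤ B) :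
    ∀ j ≤ J, ∫⁻ x, ENNReal.ofReal ((W j x - W 0 x) ^ 2) ∂P ≤
      ENNReal.ofReal (((j : ℝ) * (2 * Real.sqrt a * B + Real.sqrt b)) ^ 2) := by
  have hB : 0 ≤ B := (abs_nonneg _).trans hw0
  have hq : 0 ≤ 2 * Real.sqrt a * B + Real.sqrt b := by positivity
  have key : ∀ j ≤ J, eLpNorm (fun x => W j x - W 0 x) 2 P ≤
      ENNReal.ofReal ((j : ℝ) * (2 * Real.sqrt a * B + Real.sqrt b)) := by
    intro j
    induction j with
    | zero => intro _; simp
    | succ j ih =>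
      intro hj
      have ih' := ih (by omega)
      have hjB : (j : ℝ) * (2 * Real.sqrt a * B + Real.sqrt b) ≤ B := by
        refine le_trans ?_ hJ
        refine mul_le_mul_of_nonneg_right ?_ hq
        exact_mod_cast (by omega : j ≤ J)
      have h1 := hs j (by omega)
      rw [Vari_sq, Vari_sq] at h1
      have h2 := Vari_root ha hb h1
      have h3 : eLpNorm (W j) 2 P ≤ ENNReal.ofReal (2 * B) := by
        have e : W j = (fun x => W j x - W 0 x) + (fun _ => w0) := by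
          funext x
          simp [h0 x]
        rw [e]
        refine (eLpNorm_add_le (((hW j).sub (hW 0)).aestronglyMeasurable) aestronglyMeasurable_const
          (by norm_num)).trans ?_
        have h4 : eLpNorm (fun _ : Ω => w0) 2 P ≤ ENNReal.ofReal B := by
          rw [eLpNorm_const _ (by norm_num) (IsProbabilityMeasure.ne_zero P)]
          simp only [measure_univ, ENNReal.one_rpow, mul_one]
          rw [Real.enorm_eq_ofReal_abs]
          exact ENNReal.ofReal_le_ofReal hw0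
        calc _ ≤ ENNReal.ofReal B + ENNReal.ofReal B :=
              add_le_add (ih'.trans (ENNReal.ofReal_le_ofReal hjB)) h4
          _ = _ := by rw [← ENNReal.ofReal_add hB hB]; congr 1; ring
      have e : (fun x => W (j + 1) x - W 0 x) = (fun x => W (j + 1) x - W j x) + (fun x => W j x - W 0 x) := by
        funext x
        simp
      rw [e]
      refine (eLpNorm_add_le (((hW (j + 1)).sub (hW j)).aestronglyMeasurable)
        (((hW j).sub (hW 0)).aestronglyMeasurable) (by norm_num)).trans ?_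
      calc _ ≤ (ENNReal.ofReal (Real.sqrt a) * ENNReal.ofReal (2 * B) + ENNReal.ofReal (Real.sqrt b)) +
            ENNReal.ofReal ((j : ℝ) * (2 * Real.sqrt a * B + Real.sqrt b)) := by
              refine add_le_add (h2.trans ?_) ih'
              gcongr
        _ = _ := by
          rw [← ENNReal.ofReal_mul (Real.sqrt_nonneg a), ← ENNReal.ofReal_add (by positivity) (by positivity),
            ← ENNReal.ofReal_add (by positivity) (by positivity)]
          congr 1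
          push_cast
          ring
  intro j hj
  rw [Vari_sq]
  rw [ENNReal.ofReal_pow (by positivity)]
  gcongr
  exact key j hj

open Filter Topology in
private theorem Vari_num {C δ A : ℝ} (hC : 1 ≤ C) (hδ : 0 < δ) (hA : 0 ≤ A) :
    ∀ᶠ x : ℝ in atTop,
      Real.log x * (2 * Real.sqrt (C * Real.log x ^ (-(2 * A + 8))) * (2 * x * Real.log x) + Real.sqrt (x ^ (2 - δ))) ≤
        x * Real.log x ^ (-(A / 2)) := by
  have t1 : Tendsto Real.log atTop atTop := Real.tendsto_log_atTop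
  have e1 : ∀ᶠ x : ℝ in atTop, 1 ≤ Real.log x := t1.eventually_ge_atTop 1
  have e2 : ∀ᶠ x : ℝ in atTop, 8 * Real.sqrt C ≤ Real.log x := t1.eventually_ge_atTop _
  have e3 : ∀ᶠ x : ℝ in atTop, 2 * Real.log x ^ (1 + A / 2) ≤ x ^ (δ / 2) := by
    have h := (isLittleO_log_rpow_rpow_atTop (1 + A / 2) (by positivity : 0 < δ / 2)).bound
      (by norm_num : (0 : ℝ) < 1 / 2)
    filter_upwards [h, e1, eventually_gt_atTop 0] with x hx h1 hx0
    rw [Real.norm_of_nonneg (Real.rpow_nonneg (by linarith) _),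
      Real.norm_of_nonneg (Real.rpow_nonneg hx0.le _)] at hx
    linarith
  filter_upwards [e1, e2, e3, eventually_gt_atTop 0] with x h1 h2 h3 hx0
  set L := Real.log x with hL
  have hL0 : 0 < L := by linarith
  have s1 : Real.sqrt (C * L ^ (-(2 * A + 8))) = Real.sqrt C * L ^ (-(A + 4)) := by
    rw [Real.sqrt_mul (by linarith), Real.sqrt_eq_rpow (L ^ _), ← Real.rpow_mul hL0.le]
    congr 2
    ring
  have s2 : Real.sqrt (x ^ (2 - δ)) = x ^ (1 - δ / 2) := by
    rw [Real.sqrt_eq_rpow, ← Real.rpow_mul hx0.le]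
    congr 1
    ring
  rw [s1, s2, mul_add]
  have b1 : L * (2 * (Real.sqrt C * L ^ (-(A + 4))) * (2 * x * L)) ≤ x * L ^ (-(A / 2)) / 2 := by
    have r1 : L ^ (-(A + 4)) = L ^ (-(A / 2)) * L ^ (-(A / 2)) * L ^ (-4 : ℝ) := by
      rw [← Real.rpow_add hL0, ← Real.rpow_add hL0]
      congr 1
      ring
    have r2 : L ^ (-4 : ℝ) = (L ^ 4)⁻¹ := by
      rw [Real.rpow_neg hL0.le]
      norm_cast
    have r3 : L ^ (-(A / 2)) ≤ 1 := Real.rpow_le_one_of_one_le_of_nonpos h1 (by linarith)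
    have r4 : 0 ≤ L ^ (-(A / 2)) := Real.rpow_nonneg hL0.le _
    rw [r1, r2]
    have r5 : L * (2 * (Real.sqrt C * (L ^ (-(A / 2)) * L ^ (-(A / 2)) * (L ^ 4)⁻¹)) * (2 * x * L)) =
        (x * L ^ (-(A / 2))) * (L ^ (-(A / 2)) * (4 * Real.sqrt C * (L ^ 2)⁻¹)) := by
      field_simp
      try ring
    rw [r5]
    have r6 : 4 * Real.sqrt C * (L ^ 2)⁻¹ ≤ 1 / 2 := by
      rw [← div_eq_mul_inv, div_le_iff₀ (by positivity)]
      nlinarith
    have r7 : L ^ (-(A / 2)) * (4 * Real.sqrt C * (L ^ 2)⁻¹) ≤ 1 * (1 / 2) :=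
      mul_le_mul r3 r6 (by positivity) (by norm_num)
    have := mul_le_mul_of_nonneg_left r7 (by positivity : 0 ≤ x * L ^ (-(A / 2)))
    linarith
  have b2 : L * x ^ (1 - δ / 2) ≤ x * L ^ (-(A / 2)) / 2 := by
    have r1 : x ^ (1 - δ / 2) = x * (x ^ (δ / 2))⁻¹ := by
      rw [sub_eq_add_neg, Real.rpow_add hx0, Real.rpow_one, Real.rpow_neg hx0.le]
    have r2 : L ^ (1 + A / 2) = L * L ^ (A / 2) := by
      rw [Real.rpow_add hL0, Real.rpow_one]
    have r3 : L ^ (-(A / 2)) = (L ^ (A / 2))⁻¹ := by rw [Real.rpow_neg hL0.le]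
    rw [r1, r3]
    have p1 : 0 < x ^ (δ / 2) := Real.rpow_pos_of_pos hx0 _
    have p2 : 0 < L ^ (A / 2) := Real.rpow_pos_of_pos hL0 _
    rw [← div_eq_mul_inv, ← div_eq_mul_inv, div_div, ← mul_div_assoc, div_le_div_iff₀ p1 (by positivity)]
    rw [r2] at h3
    nlinarith [mul_le_mul_of_nonneg_left h3 hx0.le]
  linarith

theorem variance {v Γ ε A : ℝ} {D : ℕ → ℝ} (hD : Slow D) (hv : 1 ≤ v) (hΓ : 0 ≤ Γ) (hε : 0 < ε) (hε1 : ε < 1) (hA : 0 ≤ A) :
    ∃ Y0 : ℕ, 3 ≤ Y0 ∧ ∀ Y : ℕ, Y0 ≤ Y →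
    ∀ (μ : ℕ → Measure ℝ) [∀ n, IsProbabilityMeasure (μ n)], Law v D μ → ∀ β : ℕ → ℝ, (∀ i, |β i| ≤ Γ) →
    ∀ I ⊆ Finset.Ioc Y (2 * Y), ∀ j : ℕ, (j : ℝ) + 1 ≤ (1 - ε) * (Real.log Y / Real.log (Real.log Y)) →
    ∫⁻ a, ENNReal.ofReal ((∑ n ∈ I, (wt β n j a - wt β n 0 a)) ^ 2) ∂(Measure.infinitePi μ) ≤
      ENNReal.ofReal ((Y : ℝ) ^ 2 * Real.log Y ^ (-A)) := by
  obtain ⟨C, δ, hC, hδ, Y1, hY1, hst⟩ := step_e (A := 2 * A + 8) hD hv hΓ hε hε1 (by positivity)
  have hnum := (tendsto_natCast_atTop_atTop (R := ℝ)).eventually (Vari_num hC hδ hA)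
  have hlog := (Real.tendsto_log_atTop.comp (tendsto_natCast_atTop_atTop (R := ℝ))).eventually_ge_atTop 3
  obtain ⟨Y2, hY2⟩ := Filter.eventually_atTop.1 (hnum.and hlog)
  refine ⟨max Y1 Y2, le_max_of_le_left hY1, fun Y hY μ _ hμ β hβ I hI j hj => ?_⟩
  obtain ⟨hn, hl⟩ := hY2 Y ((le_max_right _ _).trans hY)
  simp only [Function.comp_apply] at hl
  have hYY1 : Y1 ≤ Y := (le_max_left _ _).trans hY
  have hY3 : 3 ≤ Y := hY1.trans hYY1
  have hY0 : (0 : ℝ) < Y := by exact_mod_cast (by omega : 0 < Y)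
  have hYc : (3 : ℝ) ≤ Y := by exact_mod_cast hY3
  set L := Real.log (Y : ℝ) with hL
  have hL0 : 0 < L := by linarith
  -- log log Y ≥ 1
  have hll : 1 ≤ Real.log L := by
    rw [Real.le_log_iff_exp_le hL0]
    have := Real.exp_one_lt_d9
    linarith
  have hjL : (j : ℝ) ≤ L := by
    have h1 : L / Real.log L ≤ L := div_le_self hL0.le hll
    have h2 : 0 ≤ L / Real.log L := div_nonneg hL0.le (by linarith)
    nlinarith
  set a : ℝ := C * L ^ (-(2 * A + 8)) with ha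
  set b : ℝ := (Y : ℝ) ^ (2 - δ) with hb
  have ha0 : 0 ≤ a := by rw [ha]; positivity
  have hb0 : 0 ≤ b := by rw [hb]; positivity
  set B : ℝ := 2 * Y * L with hB
  have hB0 : 0 ≤ B := by rw [hB]; positivity
  set w0 : ℝ := ∑ n ∈ I, th n with hw0
  have hwt0 : ∀ x, ∑ n ∈ I, wt β n 0 x = w0 := by
    intro x
    rw [hw0]
    refine Finset.sum_congr rfl fun n _ => ?_
    unfold wt
    simp
    rfl
  have hw0B : |w0| ≤ B := by
    rw [abs_of_nonneg (Finset.sum_nonneg fun n _ => th_nonneg n)]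
    calc w0 ≤ ∑ n ∈ I, Real.log (2 * Y) := by
          refine Finset.sum_le_sum fun n hn' => (th_le_log n).trans ?_
          have h1 := Finset.mem_Ioc.1 (hI hn')
          refine Real.log_le_log (by exact_mod_cast (by omega : 0 < n)) ?_
          exact_mod_cast h1.2
      _ = (I.card : ℝ) * Real.log (2 * Y) := by rw [Finset.sum_const, nsmul_eq_mul]
      _ ≤ Y * (2 * L) := by
          refine mul_le_mul ?_ ?_ (Real.log_nonneg (by linarith)) hY0.le
          · have h1 := Finset.card_le_card hI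
            rw [Nat.card_Ioc] at h1
            exact_mod_cast (by omega : I.card ≤ Y)
          · rw [Real.log_mul (by norm_num) hY0.ne']
            have : Real.log 2 ≤ L := Real.log_le_log (by norm_num) (by linarith)
            linarith
      _ = B := by rw [hB]; ring
  have hLA : L ^ (-(A / 2)) ≤ 1 := Real.rpow_le_one_of_one_le_of_nonpos (by linarith) (by linarith)
  have hq : 0 ≤ 2 * Real.sqrt a * B + Real.sqrt b := by positivity
  have hjq : (j : ℝ) * (2 * Real.sqrt a * B + Real.sqrt b) ≤ Y * L ^ (-(A / 2)) := by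
    refine (mul_le_mul_of_nonneg_right hjL hq).trans ?_
    exact hn
  have hJ : (j : ℝ) * (2 * Real.sqrt a * B + Real.sqrt b) ≤ B := by
    refine hjq.trans ?_
    rw [hB]
    nlinarith
  have main := Vari_abs (Measure.infinitePi μ) (W := fun i x => ∑ n ∈ I, wt β n i x)
    (fun i => Finset.measurable_sum I fun n _ => wt_meas β n i) (w0 := w0) (B := B) hwt0 hw0B ha0 hb0
    (J := j) (fun i hi => by
      have hi1 : (i : ℝ) + 1 ≤ (1 - ε) * (L / Real.log L) := by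
        have : (i : ℝ) + 1 ≤ j := by exact_mod_cast hi
        linarith
      have := hst Y hYY1 μ hμ β hβ I hI i hi1
      simp only [Finset.sum_sub_distrib] at this
      exact this) hJ j le_rfl
  simp only [Finset.sum_sub_distrib]
  refine main.trans (ENNReal.ofReal_le_ofReal ?_)
  calc ((j : ℝ) * (2 * Real.sqrt a * B + Real.sqrt b)) ^ 2 ≤ (Y * L ^ (-(A / 2))) ^ 2 :=
        pow_le_pow_left₀ (mul_nonneg (Nat.cast_nonneg _) hq) hjq 2
    _ = (Y : ℝ) ^ 2 * L ^ (-A) := by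
        rw [mul_pow, ← Real.rpow_natCast (L ^ (-(A / 2))) 2, ← Real.rpow_mul hL0.le]
        congr 2
        push_cast
        ring

end RLC
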